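import Pool.Agent.Lib.MP_9ad789_co.Turn

/-!
# MP_9ad789_co, module ACY: coordinates of a flat map with directions
-/

namespace Pool.Agent.Lib.MP_9ad789_co

open Equiv Finset

set_option linter.unusedSectionVars false

variable {D N F : Type} [Fintype D] [Fintype N] [Fintype F]
  [DecidableEq D] [DecidableEq N] [DecidableEq F]

namespace Acy

/-- Allowed directions: east, north, south. -/
def Ok (dir : D → ZMod 4) (d : D) : Prop := dir d = 0 ∨ dir d = 1 ∨ dir d = 3

/-- One step with an allowed direction. -/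
def Step (M : Flat D N F) (dir : D → ZMod 4) (n n' : N) : Prop :=
  ∃ d, M.tail d = n ∧ M.head d = n' ∧ Ok dir d

/-- A closed walk of length `m` in allowed directions with a step to the east. -/
def HasWalk (M : Flat D N F) (dir : D → ZMod 4) (m : ℕ) : Prop :=
  0 < m ∧ ∃ c : ℕ → D, (∀ i, c (i + m) = c i) ∧ (∀ i, M.tail (c (i + 1)) = M.head (c i)) ∧
    (∀ i, Ok dir (c i)) ∧ ∃ i, dir (c i) = 0

/-- A piece `c s, ..., c (e - 1)` of a walk which is closed gives a closed walk. -/
theorem hasWalk_of_piece (M : Flat D N F) (dir : D → ZMod 4) (c : ℕ → D) (s e : ℕ) (hse : s < e)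
    (hc : ∀ i, s ≤ i → i + 1 < e → M.tail (c (i + 1)) = M.head (c i))
    (hok : ∀ i, s ≤ i → i < e → Ok dir (c i))
    (hcl : M.head (c (e - 1)) = M.tail (c s)) (t : ℕ) (hst : s ≤ t) (hte : t < e)
    (ht : dir (c t) = 0) : HasWalk M dir (e - s) := by
  have hpos : 0 < e - s := by omega
  refine ⟨hpos, fun i => c (s + i % (e - s)), ?_, ?_, ?_, ?_⟩
  · intro i
    simp
  · intro i
    have h1 : i % (e - s) < e - s := Nat.mod_lt _ hpos
    by_cases h : i % (e - s) + 1 = e - s
    · have h2 : (i + 1) % (e - s) = 0 := by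
        have h3 : (i + 1) % (e - s) = (i % (e - s) + 1) % (e - s) := by simp [Nat.add_mod]
        rw [h3, h, Nat.mod_self]
      have h4 : s + i % (e - s) = e - 1 := by omega
      simp only [h2, h4, Nat.add_zero]
      exact hcl.symm
    · have h2 : (i + 1) % (e - s) = i % (e - s) + 1 := by
        have h3 : (i + 1) % (e - s) = (i % (e - s) + 1) % (e - s) := by simp [Nat.add_mod]
        rw [h3, Nat.mod_eq_of_lt (by omega)]
      simp only [h2]
      have := hc (s + i % (e - s)) (by omega) (by omega)
      rw [← this]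
      congr 1
  · intro i
    have h1 : i % (e - s) < e - s := Nat.mod_lt _ hpos
    exact hok _ (by omega) (by omega)
  · refine ⟨t - s, ?_⟩
    simp only
    rw [Nat.mod_eq_of_lt (by omega), Nat.add_sub_cancel' hst]
    exact ht

/-- Walks from reachability. -/
theorem exists_walk (M : Flat D N F) (dir : D → ZMod 4) (e : D) (b : N)
    (h : Relation.ReflTransGen (Step M dir) (M.head e) b) :
    ∃ (k : ℕ) (v : ℕ → D), v 0 = e ∧ (∀ i < k, M.tail (v (i + 1)) = M.head (v i)) ∧
      (∀ i < k, Ok dir (v (i + 1))) ∧ M.head (v k) = b := by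
  induction h with
  | refl => exact ⟨0, fun _ => e, rfl, by simp, by simp, rfl⟩
  | tail _ hs ih =>
    obtain ⟨k, v, h0, h1, h2, h3⟩ := ih
    obtain ⟨d, hd1, hd2, hd3⟩ := hs
    refine ⟨k + 1, Function.update v (k + 1) d, ?_, ?_, ?_, ?_⟩
    · rw [Function.update_of_ne (by omega), h0]
    · intro i hi
      rcases Nat.lt_or_ge i k with hik | hik
      · rw [Function.update_of_ne (by omega), Function.update_of_ne (by omega)]
        exact h1 i hik
      · have : i = k := by omega
        subst this
        rw [Function.update_self, Function.update_of_ne (by omega), hd1, h3]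
    · intro i hi
      rcases Nat.lt_or_ge i k with hik | hik
      · rw [Function.update_of_ne (by omega)]
        exact h2 i hik
      · have : i = k := by omega
        subst this
        rw [Function.update_self]
        exact hd3
    · rw [Function.update_self, hd2]

theorem hasWalk_of_reach (M : Flat D N F) (dir : D → ZMod 4) (e : D) (he : dir e = 0)
    (h : Relation.ReflTransGen (Step M dir) (M.head e) (M.tail e)) :
    ∃ m, HasWalk M dir m := by
  obtain ⟨k, v, h0, h1, h2, h3⟩ := exists_walk M dir e _ h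
  refine ⟨_, hasWalk_of_piece M dir v 0 (k + 1) (by omega) ?_ ?_ ?_ 0 le_rfl (by omega) ?_⟩
  · intro i _ hi
    exact h1 i (by omega)
  · intro i _ hi
    rcases Nat.eq_zero_or_pos i with rfl | hi0
    · rw [h0]; exact Or.inl he
    · obtain ⟨i, rfl⟩ : ∃ j, i = j + 1 := ⟨i - 1, by omega⟩
      exact h2 i (by omega)
  · rw [Nat.add_sub_cancel, h3, h0]
  · rw [h0]; exact he

/-- The lift of the allowed directions to integers. -/
def lift (x : ZMod 4) : ℤ := if x = 0 then 0 else if x = 1 then 1 else -1

theorem lift_cast {dir : D → ZMod 4} {d : D} (h : Ok dir d) : ((lift (dir d) : ℤ) : ZMod 4) = dir d := by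
  rcases h with h | h | h <;> rw [h] <;> decide

theorem lift_bd (x : ZMod 4) : -1 ≤ lift x ∧ lift x ≤ 1 := by
  unfold lift; split_ifs <;> constructor <;> norm_num

theorem ang_bd (M : Flat D N F) (d : D) : 1 ≤ M.ang d ∧ M.ang d ≤ 3 := by
  unfold Flat.ang
  rcases M.turn_mem (M.φ.symm d) with h | h | h <;> rw [h] <;> constructor <;> norm_num

theorem dir_σ (M : Flat D N F) (dir : D → ZMod 4) (hα : ∀ d, dir (M.α d) = dir d + 2)
    (hφ : ∀ d, dir (M.φ d) = dir d + (M.turn d : ZMod 4)) (d : D) :
    dir (M.σ d) = dir d + ((M.ang d : ℤ) : ZMod 4) := by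
  have h1 : dir d = dir (M.φ.symm d) + (M.turn (M.φ.symm d) : ZMod 4) := by
    rw [← hφ, Equiv.apply_symm_apply]
  have h2 : dir (M.σ d) = dir (M.φ.symm d) + 2 := by
    rw [Cell.σ_apply, hα]
  rw [h2, h1, Flat.ang]
  push_cast
  ring

theorem dir_iter (M : Flat D N F) (dir : D → ZMod 4) (hα : ∀ d, dir (M.α d) = dir d + 2)
    (hφ : ∀ d, dir (M.φ d) = dir d + (M.turn d : ZMod 4)) (d : D) (j : ℕ) :
    dir ((M.σ^[j]) d) = dir d + ((∑ l ∈ range j, M.ang ((M.σ^[l]) d) : ℤ) : ZMod 4) := by
  induction j with
  | zero => simp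
  | succ j ih =>
    rw [Function.iterate_succ_apply', dir_σ M dir hα hφ, ih, Finset.sum_range_succ]
    push_cast
    ring

theorem tail_iter (M : Flat D N F) (d : D) (j : ℕ) : M.tail ((M.σ^[j]) d) = M.tail d := by
  induction j with
  | zero => rfl
  | succ j ih => rw [Function.iterate_succ_apply', Cell.tail_σ, ih]

/-- The angle between `α e` and `d` for two different darts at the same node. -/
theorem exists_angle (M : Flat D N F) (d e : D) (ht : M.tail e = M.tail d) (hne : d ≠ e) :
    ∃ j, 0 < j ∧ (M.σ^[j]) d = e ∧ (∀ l, 0 < l → l < j → (M.σ^[l]) d ≠ e) ∧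
      1 ≤ ∑ l ∈ range j, M.ang ((M.σ^[l]) d) ∧ ∑ l ∈ range j, M.ang ((M.σ^[l]) d) ≤ 3 := by
  classical
  have hex : ∃ j, (M.σ^[j]) d = e := by
    obtain ⟨j, _, hj⟩ := (M.tight.tail_same d e ht.symm).exists_pow_eq'
    refine ⟨j, ?_⟩
    rw [← hj, Equiv.Perm.iterate_eq_pow]
  have hj := Nat.find_spec hex
  have hmin := fun l (hl : l < Nat.find hex) => Nat.find_min hex hl
  set j := Nat.find hex with hjdef
  have hj0 : 0 < j := by
    rcases Nat.eq_zero_or_pos j with h | h
    · rw [h] at hj; exact absurd hj hne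
    · exact h
  have hinj : Set.InjOn (fun l => (M.σ^[l]) d) (range j : Set ℕ) := by
    intro l hl l' hl' hll
    rw [Finset.mem_coe, Finset.mem_range] at hl hl'
    by_contra hne'
    wlog h : l < l' generalizing l l'
    · exact this hl' hl hll.symm (fun h => hne' h.symm) (by omega)
    have h1 : (M.σ^[l' - l]) d = d := by
      have h2 : (M.σ^[l]) ((M.σ^[l' - l]) d) = (M.σ^[l]) d := by
        rw [← Function.iterate_add_apply]
        have : l + (l' - l) = l' := by omega
        rw [this]; exact hll.symm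
      exact (M.σ.injective.iterate l) h2
    have h3 : (M.σ^[j - (l' - l)]) d = e := by
      have h4 : (M.σ^[j - (l' - l)]) ((M.σ^[l' - l]) d) = e := by
        rw [← Function.iterate_add_apply]
        have : j - (l' - l) + (l' - l) = j := by omega
        rw [this]; exact hj
      rwa [h1] at h4
    exact hmin (j - (l' - l)) (by omega) h3
  refine ⟨j, hj0, hj, fun l _ hl => hmin l hl, ?_, ?_⟩
  · calc (1 : ℤ) ≤ (j : ℤ) := by exact_mod_cast hj0
      _ = ∑ l ∈ range j, (1 : ℤ) := by simp
      _ ≤ _ := Finset.sum_le_sum (fun l _ => (ang_bd M _).1)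
  · have h1 : ∑ l ∈ range j, M.ang ((M.σ^[l]) d) =
        ∑ x ∈ (range j).image (fun l => (M.σ^[l]) d), M.ang x := by
      rw [Finset.sum_image hinj]
    have h2 : (range j).image (fun l => (M.σ^[l]) d) ⊆
        (univ.filter (fun x => M.tail x = M.tail d)).erase e := by
      intro x hx
      obtain ⟨l, hl, rfl⟩ := Finset.mem_image.1 hx
      rw [Finset.mem_range] at hl
      rw [Finset.mem_erase, Finset.mem_filter]
      exact ⟨hmin l hl, Finset.mem_univ _, tail_iter M d l⟩
    have h3 : ∑ x ∈ (univ.filter (fun x => M.tail x = M.tail d)).erase e, M.ang x + M.ang e = 4 := by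
      rw [Finset.sum_erase_add _ _ (by simp [ht])]
      exact M.node_sum (M.tail d)
    have h4 : ∑ x ∈ (range j).image (fun l => (M.σ^[l]) d), M.ang x ≤
        ∑ x ∈ (univ.filter (fun x => M.tail x = M.tail d)).erase e, M.ang x :=
      Finset.sum_le_sum_of_subset_of_nonneg h2 (fun x _ _ => by linarith [(ang_bd M x).1])
    have h5 := (ang_bd M e).1
    rw [h1]
    linarith

/-- There is no closed walk in allowed directions with a step to the east. -/
theorem no_walk (M : Flat D N F) (dir : D → ZMod 4)
    (hα : ∀ d, dir (M.α d) = dir d + 2) (hφ : ∀ d, dir (M.φ d) = dir d + (M.turn d : ZMod 4)) :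
    ¬ ∃ m, HasWalk M dir m := by
  classical
  intro hex
  have hspec := Nat.find_spec hex
  have hmin := fun l (hl : l < Nat.find hex) => Nat.find_min hex hl
  set m := Nat.find hex with hmdef
  obtain ⟨hm, c, hper, hc, hok, t, ht⟩ := hspec
  have hperk : ∀ k i, c (i + m * k) = c i := by
    intro k
    induction k with
    | zero => simp
    | succ k ih =>
      intro i
      rw [Nat.mul_succ, ← Nat.add_assoc, hper, ih]
  have hmod : ∀ i, c (i % m) = c i := by
    intro i
    conv_rhs => rw [← Nat.mod_add_div i m]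
    rw [hperk]
  -- a zero in every window of length `m`
  have hzero : ∀ s, ∃ u, s ≤ u ∧ u < s + m ∧ dir (c u) = 0 := by
    intro s
    -- choose `u = s + ((t + s * m - s) % m)`
    refine ⟨s + (t + s * m - s) % m, by omega, ?_, ?_⟩
    · have := Nat.mod_lt (t + s * m - s) hm
      omega
    · have hle : s ≤ t + s * m := by nlinarith
      rw [← hmod, Nat.add_mod, Nat.mod_mod, ← Nat.add_mod, Nat.add_sub_cancel' hle, hmod,
        Nat.mul_comm, hperk, ht]
  have hpiece : ∀ s e, s < e → e < s + m → M.tail (c s) = M.tail (c e) → False := by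
    intro s e hse hem hT
    obtain ⟨u, hu1, hu2, hu3⟩ := hzero s
    rcases Nat.lt_or_ge u e with hue | hue
    · have := hasWalk_of_piece M dir c s e hse (fun i _ _ => hc i) (fun i _ _ => hok i)
        (by rw [← hc, Nat.sub_add_cancel (by omega), hT]) u hu1 hue hu3
      exact hmin _ (by omega) this
    · have := hasWalk_of_piece M dir c e (s + m) hem (fun i _ _ => hc i) (fun i _ _ => hok i)
        (by rw [← hc, Nat.sub_add_cancel (by omega), hper, hT]) u hue hu2 hu3
      exact hmin _ (by omega) this
  have hinj : ∀ i < m, ∀ j < m, M.tail (c i) = M.tail (c j) → i = j := by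
    intro i hi j hj h
    rcases Nat.lt_trichotomy i j with hij | hij | hij
    · exact (hpiece i j hij (by omega) h).elim
    · exact hij
    · exact (hpiece j i hij (by omega) h.symm).elim
  have hback : ∀ i, c (i + 1) ≠ M.α (c i) := by
    intro i h
    have h1 : M.tail (c i) = M.tail (c (i + 2)) := by
      rw [hc (i + 1), h, Cell.head_α]
    rcases Nat.lt_or_ge 2 m with h2 | h2
    · exact hpiece i (i + 2) (by omega) (by omega) h1
    · have hm12 : m = 1 ∨ m = 2 := by omega
      rcases hm12 with h3 | h3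
      · rw [h3] at hper
        rw [hper i] at h
        exact M.α_ne _ h.symm
      · -- directions of `c i` and `c (i + 1)` are 1 and 3
        have h4 : dir (c (i + 1)) = dir (c i) + 2 := by rw [h, hα]
        obtain ⟨u, hu1, hu2, hu3⟩ := hzero i
        have hu : u = i ∨ u = i + 1 := by omega
        have hoi := hok i
        have hoi1 := hok (i + 1)
        unfold Ok at hoi hoi1
        rcases hu with rfl | rfl
        · rw [hu3] at h4
          rw [h4] at hoi1
          revert hoi1; decide
        · rw [hu3] at h4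
          have h5 : dir (c i) = 2 := by
            have : dir (c i) = 0 - 2 := by rw [h4]; ring
            rw [this]; decide
          rw [h5] at hoi
          revert hoi; decide
  have hang : ∀ i, ∃ j, 0 < j ∧ (M.σ^[j]) (c (i + 1)) = M.α (c i) ∧
      (∀ l, 0 < l → l < j → (M.σ^[l]) (c (i + 1)) ≠ M.α (c i)) ∧
      1 ≤ ∑ l ∈ range j, M.ang ((M.σ^[l]) (c (i + 1))) ∧
      ∑ l ∈ range j, M.ang ((M.σ^[l]) (c (i + 1))) ≤ 3 := fun i =>
    exists_angle M (c (i + 1)) (M.α (c i)) (by rw [hc i, Cell.tail_α]) (hback i)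
  choose j hj1 hj2 hj3 hj4 hj5 using hang
  have hturn := turning M m hm c hper hc hinj hback
    (fun i => ∑ l ∈ range (j i), M.ang ((M.σ^[l]) (c (i + 1))))
    (fun i => ⟨j i, hj1 i, hj2 i, hj3 i, rfl⟩)
  have hstep : ∀ i, 2 - ∑ l ∈ range (j i), M.ang ((M.σ^[l]) (c (i + 1))) =
      lift (dir (c (i + 1))) - lift (dir (c i)) := by
    intro i
    have h1 := dir_iter M dir hα hφ (c (i + 1)) (j i)
    rw [hj2 i, hα] at h1
    set A := ∑ l ∈ range (j i), M.ang ((M.σ^[l]) (c (i + 1))) with hA
    have h2 : ((2 - A - (lift (dir (c (i + 1))) - lift (dir (c i))) : ℤ) : ZMod 4) = 0 := by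
      push_cast
      rw [lift_cast (hok i), lift_cast (hok (i + 1))]
      have : dir (c i) = dir (c (i + 1)) + (A : ZMod 4) - 2 := by rw [← h1]; ring
      rw [this]; ring_nf
    have h3 : (4 : ℤ) ∣ 2 - A - (lift (dir (c (i + 1))) - lift (dir (c i))) := by
      exact_mod_cast (ZMod.intCast_zmod_eq_zero_iff_dvd _ 4).1 h2
    have h4 := hj4 i
    have h5 := hj5 i
    have h6 := lift_bd (dir (c (i + 1)))
    have h7 := lift_bd (dir (c i))
    omega
  have hsum : ∑ i ∈ range m, (2 - ∑ l ∈ range (j i), M.ang ((M.σ^[l]) (c (i + 1)))) = 0 := by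
    rw [Finset.sum_congr rfl (fun i _ => hstep i), Finset.sum_range_sub (fun i => lift (dir (c i)))]
    have := hper 0
    rw [Nat.zero_add] at this
    rw [this, sub_self]
  rw [hsum] at hturn
  omega

end Acy

open Acy in
theorem exists_coord (M : Flat D N F) (dir : D → ZMod 4)
    (hα : ∀ d, dir (M.α d) = dir d + 2) (hφ : ∀ d, dir (M.φ d) = dir d + (M.turn d : ZMod 4)) :
    ∃ x : N → ℤ, (∀ d, dir d = 0 → x (M.tail d) < x (M.head d)) ∧
      (∀ d, dir d = 1 → x (M.tail d) = x (M.head d)) := by
  classical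
  have hno := no_walk M dir hα hφ
  refine ⟨fun n => ((univ.filter (fun d => dir d = 0 ∧
    Relation.ReflTransGen (Step M dir) (M.head d) n)).card : ℤ), ?_, ?_⟩
  · intro e he
    have : (univ.filter (fun d => dir d = 0 ∧
        Relation.ReflTransGen (Step M dir) (M.head d) (M.tail e))).card <
        (univ.filter (fun d => dir d = 0 ∧
        Relation.ReflTransGen (Step M dir) (M.head d) (M.head e))).card := by
      apply Finset.card_lt_card
      rw [Finset.ssubset_iff_of_subset]
      · refine ⟨e, ?_, ?_⟩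
        · rw [Finset.mem_filter]
          exact ⟨Finset.mem_univ _, he, Relation.ReflTransGen.refl⟩
        · rw [Finset.mem_filter]
          rintro ⟨_, _, h⟩
          exact hno (hasWalk_of_reach M dir e he h)
      · intro d hd
        rw [Finset.mem_filter] at hd ⊢
        exact ⟨hd.1, hd.2.1, hd.2.2.tail ⟨e, rfl, rfl, Or.inl he⟩⟩
    exact Int.ofNat_lt.2 this
  · intro e he
    have he' : dir (M.α e) = 3 := by rw [hα, he]; decide
    have : (univ.filter (fun d => dir d = 0 ∧
        Relation.ReflTransGen (Step M dir) (M.head d) (M.tail e))) =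
        (univ.filter (fun d => dir d = 0 ∧
        Relation.ReflTransGen (Step M dir) (M.head d) (M.head e))) := by
      apply Finset.filter_congr
      intro d _
      constructor
      · rintro ⟨h1, h2⟩
        exact ⟨h1, h2.tail ⟨e, rfl, rfl, Or.inr (Or.inl he)⟩⟩
      · rintro ⟨h1, h2⟩
        exact ⟨h1, h2.tail ⟨M.α e, rfl, M.head_α e, Or.inr (Or.inr he')⟩⟩
    exact congrArg (fun s : Finset D => ((s.card : ℕ) : ℤ)) this

end Pool.Agent.Lib.MP_9ad789_co
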