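import Pool.Agent.Lib.MP_9ad789_co.Cell

/-!
# MP_9ad789_co, module ADDINF: adding a pendant edge to a vertex at infinity
-/

namespace Pool.Agent.Lib.MP_9ad789_co

open Equiv Finset

set_option linter.unusedSectionVars false

variable {V R : Type} [Fintype V] [Fintype R] [DecidableEq V] [DecidableEq R]

namespace AddInf

theorem sc_step (X : XMap V R) (d0 d : R) :
    (X.addRot d0).SameCycle (.inl d) (.inl (X.rot d)) := by
  by_cases h : d = d0
  · subst h
    refine ⟨2, ?_⟩
    have : ((X.addRot d) ^ (2 : ℤ)) (.inl d) = (X.addRot d) ((X.addRot d) (.inl d)) := by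
      rw [zpow_ofNat, pow_two, Equiv.Perm.mul_apply]
    rw [this]
    simp [XMap.addRot]
  · refine ⟨1, ?_⟩
    rw [zpow_one]
    simp [XMap.addRot, h]

theorem sc_pow (X : XMap V R) (d0 d : R) (n : ℕ) :
    (X.addRot d0).SameCycle (.inl d) (.inl ((X.rot ^ n) d)) := by
  induction n with
  | zero => simpa using Equiv.Perm.SameCycle.refl _ _
  | succ n ih =>
    rw [pow_succ', Equiv.Perm.mul_apply]
    exact ih.trans (sc_step X d0 _)

theorem sc_vert (X : XMap V R) (d0 d d' : R) (h : X.vert d = X.vert d') :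
    (X.addRot d0).SameCycle (.inl d) (.inl d') := by
  obtain ⟨n, _, hn⟩ := (X.vert_same d d' h).exists_pow_eq'
  rw [← hn]
  exact sc_pow X d0 d n

theorem sc_false (X : XMap V R) (d0 : R) :
    (X.addRot d0).SameCycle (.inl d0) (.inr false) := by
  refine ⟨1, ?_⟩
  rw [zpow_one]
  simp [XMap.addRot]

/-- The extended map. -/
def addInf (X : XMap V R) (d0 : R) : XMap (Option V) (R ⊕ Bool) where
  rot := X.addRot d0
  vert
    | .inl d => some (X.vert d)
    | .inr false => some (X.vert d0)
    | .inr true => none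
  opp
    | .inl d => .inl (X.opp d)
    | .inr b => .inr (!b)
  crs
    | .inl d => (X.crs d).map .inl
    | .inr _ => none
  vert_rot := by
    rintro (d | (_ | _))
    · by_cases h : d = d0
      · subst h; simp [XMap.addRot]
      · simp [XMap.addRot, h, X.vert_rot]
    · simp [XMap.addRot, X.vert_rot]
    · simp [XMap.addRot]
  vert_same := by
    rintro (d | (_ | _)) (d' | (_ | _)) h
    · exact sc_vert X d0 d d' (by simpa using h)
    · exact (sc_vert X d0 d d0 (by simpa using h)).trans (sc_false X d0)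
    · simp at h
    · exact (sc_false X d0).symm.trans (sc_vert X d0 d0 d' (by simpa using h))
    · exact Equiv.Perm.SameCycle.refl _ _
    · simp at h
    · simp at h
    · simp at h
    · exact Equiv.Perm.SameCycle.refl _ _
  opp_opp := by
    rintro (d | b)
    · simp [X.opp_opp]
    · simp
  opp_ne := by
    rintro (d | b)
    · simp [X.opp_ne]
    · simp
  crs_crs := by
    rintro (d | b) e h
    · simp only [Option.map_eq_some_iff] at h
      obtain ⟨e', he', rfl⟩ := h
      simp [X.crs_crs d e' he']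
    · simp at h
  crs_vert := by
    rintro (d | b) e h
    · simp only [Option.map_eq_some_iff] at h
      obtain ⟨e', he', rfl⟩ := h
      simpa using X.crs_vert d e' he'
    · simp at h

end AddInf

theorem exists_addInf (X : XMap V R) (d0 : R) :
    ∃ Y : XMap (Option V) (R ⊕ Bool), X.IsAddInf d0 Y :=
  ⟨AddInf.addInf X d0, ⟨rfl, fun _ => rfl, rfl, rfl, fun _ => rfl, fun _ => rfl, fun _ => rfl,
    fun _ => rfl⟩⟩

theorem addInf_conn (X : XMap V R) (d0 : R) (Y : XMap (Option V) (R ⊕ Bool))
    (h : X.IsAddInf d0 Y) (hX : X.Conn) : Y.Conn := by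
  refine ⟨?_, ⟨.inr false⟩, ?_⟩
  · rintro (_ | v)
    · exact ⟨_, h.vert_t⟩
    · obtain ⟨d, rfl⟩ := hX.vert_surj v
      exact ⟨_, h.vert_l d⟩
  · intro S hS hrot hopp
    have hrotf : ∀ x, .inr false ∈ S → x = X.rot d0 → (.inl x : R ⊕ Bool) ∈ S := by
      rintro x hx rfl
      have := hrot _ hx
      rw [h.rot] at this
      simpa [XMap.addRot] using this
    have hT : {d : R | (.inl d : R ⊕ Bool) ∈ S} = Set.univ := by
      apply hX.conn
      · obtain ⟨x, hx⟩ := hS
        have hf : (.inr false : R ⊕ Bool) ∈ S → Set.Nonempty {d : R | (.inl d : R ⊕ Bool) ∈ S} :=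
          fun hx => ⟨X.rot d0, hrotf _ hx rfl⟩
        rcases x with d | (_ | _)
        · exact ⟨d, hx⟩
        · exact hf hx
        · have := hopp _ hx
          rw [h.opp_r] at this
          exact hf (by simpa using this)
      · intro d hd
        have hd' : (.inl d : R ⊕ Bool) ∈ S := hd
        have h1 := hrot _ hd'
        rw [h.rot] at h1
        by_cases hdd : d = d0
        · subst hdd
          have h2 : (.inr false : R ⊕ Bool) ∈ S := by simpa [XMap.addRot] using h1
          exact hrotf _ h2 rfl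
        · simpa [XMap.addRot, hdd] using h1
      · intro d hd
        have h1 := hopp _ (show (.inl d : R ⊕ Bool) ∈ S from hd)
        rw [h.opp_l] at h1
        exact h1
    have hl : ∀ d : R, (.inl d : R ⊕ Bool) ∈ S := by
      intro d
      have : d ∈ {d : R | (.inl d : R ⊕ Bool) ∈ S} := by rw [hT]; trivial
      exact this
    have hfS : (.inr false : R ⊕ Bool) ∈ S := by
      have h1 := hrot _ (hl d0)
      rw [h.rot] at h1
      simpa [XMap.addRot] using h1
    have htS : (.inr true : R ⊕ Bool) ∈ S := by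
      have h1 := hopp _ hfS
      rw [h.opp_r] at h1
      simpa using h1
    rw [Set.eq_univ_iff_forall]
    rintro (d | (_ | _))
    · exact hl d
    · exact hfS
    · exact htS

theorem addInf_vert (X : XMap V R) (d0 : R) (Y : XMap (Option V) (R ⊕ Bool))
    (h : X.IsAddInf d0 Y) (s : R → ℤ) (hv : ∀ v, ∑ d with X.vert d = v, s d = 4) (v : Option V) :
    ∑ d with Y.vert d = v, XMap.addS s d = if v = none then -4 else 4 := by
  rw [Finset.sum_filter, Fintype.sum_sum_type, Fintype.sum_bool]
  simp only [h.vert_l, h.vert_f, h.vert_t, XMap.addS]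
  rcases v with _ | w
  · simp
  · have := hv w
    rw [Finset.sum_filter] at this
    simp only [Option.some.injEq, this]
    simp

namespace AddInf

variable {X : XMap V R} {d0 : R} {Y : XMap (Option V) (R ⊕ Bool)}

theorem crossed_l (h : X.IsAddInf d0 Y) (d : R) : Y.Crossed (.inl d) ↔ X.Crossed d := by
  unfold XMap.Crossed
  rw [h.crs_l]
  simp

theorem not_crossed_r (h : X.IsAddInf d0 Y) (b : Bool) : ¬ Y.Crossed (.inr b) := by
  unfold XMap.Crossed
  rw [h.crs_r]
  simp

/-- Inclusion of darts. -/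
def inc (h : X.IsAddInf d0 Y) : X.PD → Y.PD
  | .inl d => .inl (.inl d)
  | .inr d => .inr ⟨.inl d.1, (crossed_l h d.1).2 d.2⟩

/-- Projection of darts. -/
def pr (h : X.IsAddInf d0 Y) : Y.PD → X.PD
  | .inl (.inl d) => .inl d
  | .inl (.inr _) => .inl d0
  | .inr ⟨.inl d, hd⟩ => .inr ⟨d, (crossed_l h d).1 hd⟩
  | .inr ⟨.inr b, hb⟩ => (not_crossed_r h b hb).elim

theorem pr_inc (h : X.IsAddInf d0 Y) (x : X.PD) : pr h (inc h x) = x := by
  rcases x with d | d <;> rfl

theorem symm_l (h : X.IsAddInf d0 Y) (z : R) :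
    Y.rot.symm (.inl z) = if z = X.rot d0 then .inr false else .inl (X.rot.symm z) := by
  rw [h.rot]
  rfl

theorem symm_f (h : X.IsAddInf d0 Y) : Y.rot.symm (.inr false) = .inl d0 := by
  rw [h.rot]; rfl

theorem symm_t (h : X.IsAddInf d0 Y) : Y.rot.symm (.inr true) = .inr true := by
  rw [h.rot]; rfl

theorem next_inc (h : X.IsAddInf d0 Y) (x : X.PD) :
    (Y.next (inc h x) = inc h (X.next x)) ∨
    (X.next x = .inl d0 ∧ Y.next (inc h x) = .inl (.inr false)) := by
  rcases x with d | d
  · by_cases hc : X.Crossed d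
    · left
      have hc' : Y.Crossed (.inl d) := (crossed_l h d).2 hc
      have e1 : X.next (.inl d) = .inr ⟨X.opp (X.crsGet ⟨d, hc⟩), by
        have h1 := X.crs_crsGet ⟨d, hc⟩
        have h2 := X.crs_opp (X.crs_crs _ _ h1)
        exact Option.isSome_iff_exists.mpr ⟨_, h2⟩⟩ := by
        simp [XMap.next, hc]
      have e2 : Y.next (inc h (.inl d)) = .inr ⟨Y.opp (Y.crsGet ⟨.inl d, hc'⟩), by
        have h1 := Y.crs_crsGet ⟨.inl d, hc'⟩
        have h2 := Y.crs_opp (Y.crs_crs _ _ h1)
        exact Option.isSome_iff_exists.mpr ⟨_, h2⟩⟩ := by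
        simp [XMap.next, inc, hc']
      rw [e1, e2]
      have e3 : Y.crsGet ⟨.inl d, hc'⟩ = .inl (X.crsGet ⟨d, hc⟩) := by
        have h1 := Y.crs_crsGet ⟨.inl d, hc'⟩
        have h2 := X.crs_crsGet ⟨d, hc⟩
        simp only at h1 h2
        rw [h.crs_l, h2] at h1
        simpa using h1.symm
      simp only [inc, e3, h.opp_l]
    · have hc' : ¬ Y.Crossed (.inl d) := fun h' => hc ((crossed_l h d).1 h')
      have e1 : X.next (.inl d) = .inl (X.rot.symm (X.opp d)) := by
        simp [XMap.next, hc]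
      have e2 : Y.next (inc h (.inl d)) = .inl (Y.rot.symm (Y.opp (.inl d))) := by
        simp [XMap.next, inc, hc']
      rw [e1, e2, h.opp_l, symm_l h]
      split_ifs with hz
      · right
        rw [hz, Equiv.symm_apply_apply]
        exact ⟨rfl, rfl⟩
      · left; rfl
  · have e1 : X.next (.inr d) = .inl (X.rot.symm d.1) := rfl
    have e2 : Y.next (inc h (.inr d)) = .inl (Y.rot.symm (.inl d.1)) := rfl
    rw [e1, e2, symm_l h]
    split_ifs with hz
    · right
      rw [hz, Equiv.symm_apply_apply]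
      exact ⟨rfl, rfl⟩
    · left; rfl

theorem next_f (h : X.IsAddInf d0 Y) : Y.next (.inl (.inr false)) = .inl (.inr true) := by
  have hc := not_crossed_r h false
  simp only [XMap.next, hc, dite_false]
  rw [h.opp_r, Bool.not_false, symm_t h]

theorem next_t (h : X.IsAddInf d0 Y) : Y.next (.inl (.inr true)) = inc h (.inl d0) := by
  have hc := not_crossed_r h true
  simp only [XMap.next, hc, dite_false]
  rw [h.opp_r, Bool.not_true, symm_f h]
  rfl

theorem pr_next (h : X.IsAddInf d0 Y) (a : Y.PD) : X.SameFace (pr h a) (pr h (Y.next a)) := by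
  have key : ∀ x : X.PD, X.SameFace (pr h (inc h x)) (pr h (Y.next (inc h x))) := by
    intro x
    rcases next_inc h x with h1 | ⟨h1, h2⟩
    · rw [h1, pr_inc, pr_inc]
      exact Relation.EqvGen.rel _ _ rfl
    · rw [h2, pr_inc]
      exact Relation.EqvGen.rel _ _ h1.symm
  rcases a with (d | (_ | _)) | ⟨(d | b), hd⟩
  · exact key (.inl d)
  · rw [next_f h]
    exact Relation.EqvGen.refl _
  · rw [next_t h, pr_inc]
    exact Relation.EqvGen.refl _
  · exact key (.inr ⟨d, (crossed_l h d).1 hd⟩)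
  · exact (not_crossed_r h b hd).elim

theorem sameFace_pr (h : X.IsAddInf d0 Y) {a b : Y.PD} (hab : Y.SameFace a b) :
    X.SameFace (pr h a) (pr h b) := by
  induction hab with
  | rel x y hxy => rw [hxy]; exact pr_next h x
  | refl x => exact Relation.EqvGen.refl _
  | symm x y _ ih => exact Relation.EqvGen.symm _ _ ih
  | trans x y z _ _ ih1 ih2 => exact Relation.EqvGen.trans _ _ _ ih1 ih2

theorem same_f (h : X.IsAddInf d0 Y) : Y.SameFace (.inl (.inr false)) (inc h (.inl d0)) :=
  Relation.EqvGen.trans _ _ _ (Relation.EqvGen.rel _ _ (next_f h).symm)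
    (Relation.EqvGen.rel _ _ (next_t h).symm)

theorem sameFace_inc (h : X.IsAddInf d0 Y) {a b : X.PD} (hab : X.SameFace a b) :
    Y.SameFace (inc h a) (inc h b) := by
  induction hab with
  | rel x y hxy =>
    rw [hxy]
    rcases next_inc h x with h1 | ⟨h1, h2⟩
    · rw [← h1]; exact Relation.EqvGen.rel _ _ rfl
    · rw [h1]
      exact Relation.EqvGen.trans _ _ _ (Relation.EqvGen.rel _ _ h2.symm) (same_f h)
  | refl x => exact Relation.EqvGen.refl _
  | symm x y _ ih => exact Relation.EqvGen.symm _ _ ih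
  | trans x y z _ _ ih1 ih2 => exact Relation.EqvGen.trans _ _ _ ih1 ih2

theorem sameFace_inc_pr (h : X.IsAddInf d0 Y) (a : Y.PD) : Y.SameFace a (inc h (pr h a)) := by
  rcases a with (d | (_ | _)) | ⟨(d | b), hd⟩
  · exact Relation.EqvGen.refl _
  · exact same_f h
  · exact Relation.EqvGen.rel _ _ (next_t h).symm
  · exact Relation.EqvGen.refl _
  · exact (not_crossed_r h b hd).elim

theorem sameFace_iff (h : X.IsAddInf d0 Y) (a b : Y.PD) :
    Y.SameFace a b ↔ X.SameFace (pr h a) (pr h b) :=
  ⟨sameFace_pr h, fun h' => Relation.EqvGen.trans _ _ _ (sameFace_inc_pr h a)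
    (Relation.EqvGen.trans _ _ _ (sameFace_inc h h')
      (Relation.EqvGen.symm _ _ (sameFace_inc_pr h b)))⟩

/-- The darts of the extended map. -/
def eqv (h : X.IsAddInf d0 Y) : X.PD ⊕ Bool ≃ Y.PD where
  toFun
    | .inl x => inc h x
    | .inr b => .inl (.inr b)
  invFun
    | .inl (.inl d) => .inl (.inl d)
    | .inl (.inr b) => .inr b
    | .inr ⟨.inl d, hd⟩ => .inl (.inr ⟨d, (crossed_l h d).1 hd⟩)
    | .inr ⟨.inr b, hb⟩ => (not_crossed_r h b hb).elim
  left_inv := by
    rintro ((d | d) | b) <;> rfl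
  right_inv := by
    rintro ((d | b) | ⟨(d | b), hd⟩)
    · rfl
    · rfl
    · rfl
    · exact (not_crossed_r h b hd).elim

end AddInf

open AddInf in
theorem addInf_face (X : XMap V R) (d0 : R) (Y : XMap (Option V) (R ⊕ Bool))
    (h : X.IsAddInf d0 Y) (s : R → ℤ)
    (hf : ∀ x, (X.SameFace (.inl d0) x → X.faceSum (X.wt s) x = -4) ∧
      (¬ X.SameFace (.inl d0) x → X.faceSum (X.wt s) x = 4)) (x : Y.PD) :
    Y.faceSum (Y.wt (XMap.addS s)) x = 4 := by
  classical
  have h1 : Y.faceSum (Y.wt (XMap.addS s)) x =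
      ∑ y : Y.PD, if X.SameFace (pr h x) (pr h y) then Y.wt (XMap.addS s) y else 0 := by
    unfold XMap.faceSum
    rw [Finset.sum_filter]
    apply Finset.sum_congr
    · congr!
    · intro y _
      simp only [sameFace_iff h x y]
  have h2 : X.faceSum (X.wt s) (pr h x) =
      ∑ y : X.PD, if X.SameFace (pr h x) y then X.wt s y else 0 := by
    unfold XMap.faceSum
    rw [Finset.sum_filter]
  rw [h1, ← Equiv.sum_comp (eqv h), Fintype.sum_sum_type, Fintype.sum_bool]
  have h3 : ∀ y : X.PD, (if X.SameFace (pr h x) (pr h (eqv h (.inl y))) then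
      Y.wt (XMap.addS s) (eqv h (.inl y)) else 0) =
      if X.SameFace (pr h x) y then X.wt s y else 0 := by
    intro y
    have e1 : eqv h (.inl y) = inc h y := rfl
    rw [e1, pr_inc]
    rcases y with d | d <;> rfl
  rw [Finset.sum_congr rfl (fun y _ => h3 y), ← h2]
  have e2 : ∀ b : Bool, pr h (eqv h (.inr b)) = .inl d0 := fun b => rfl
  have e3 : Y.wt (XMap.addS s) (eqv h (.inr false)) = 2 := rfl
  have e4 : Y.wt (XMap.addS s) (eqv h (.inr true)) = 6 := rfl
  rw [e2, e2, e3, e4]
  have hsymm : X.SameFace (pr h x) (.inl d0) ↔ X.SameFace (.inl d0) (pr h x) :=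
    ⟨Relation.EqvGen.symm _ _, Relation.EqvGen.symm _ _⟩
  by_cases hs : X.SameFace (.inl d0) (pr h x)
  · rw [(hf _).1 hs, if_pos (hsymm.2 hs), if_pos (hsymm.2 hs)]
    norm_num
  · rw [(hf _).2 hs, if_neg (fun h' => hs (hsymm.1 h')), if_neg (fun h' => hs (hsymm.1 h'))]
    norm_num

end Pool.Agent.Lib.MP_9ad789_co
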