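import Pool.Agent.Lib.MP_9ad789_co.Exc

/-! # MP_9ad789_co : the excess of a block -/

set_option linter.unusedSectionVars false
set_option linter.unusedVariables false

namespace Pool.Agent.Lib.MP_9ad789_co

open Equiv Finset

variable {D N F : Type} [Fintype D] [Fintype N] [Fintype F]
  [DecidableEq D] [DecidableEq N] [DecidableEq F]
variable {C : Cell D N F} {isX : N → Prop} [DecidablePred isX]

namespace Block

theorem tail_σs (x : D) : C.tail (C.σ.symm x) = C.tail x := by
  rw [← C.tail_σ (C.σ.symm x), Equiv.apply_symm_apply]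

theorem left_σs (x : D) : C.left (C.σ.symm x) = C.right x := by
  rw [← C.right_σ (C.σ.symm x), Equiv.apply_symm_apply]

/-- the darts at a crossing -/
theorem cross_cases (h : C.OneP isX) {d d' : D} (hx : isX (C.tail d)) (ht : C.tail d' = C.tail d) :
    d' = d ∨ d' = C.σ d ∨ d' = C.σ (C.σ d) ∨ d' = C.σ (C.σ (C.σ d)) := by
  obtain ⟨i, hi⟩ := h.tight.tail_same d d' ht.symm
  have h4 : (C.σ ^ (4 : ℤ)) d = d := by
    have := h.x_four d hx
    exact this
  have h4k : ∀ k : ℤ, (C.σ ^ (4 * k)) d = d := by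
    intro k
    rw [zpow_mul]
    exact Equiv.Perm.zpow_apply_eq_self_of_apply_eq_self h4 k
  have hi' : (C.σ ^ (i % 4)) d = d' := by
    have h5 : i = i % 4 + 4 * (i / 4) := (Int.emod_add_mul_ediv i 4).symm
    rw [h5, zpow_add, Equiv.Perm.mul_apply, h4k] at hi
    exact hi
  have h6 : i % 4 = 0 ∨ i % 4 = 1 ∨ i % 4 = 2 ∨ i % 4 = 3 := by omega
  rcases h6 with h6 | h6 | h6 | h6 <;> rw [h6] at hi'
  · exact Or.inl hi'.symm
  · exact Or.inr (Or.inl hi'.symm)
  · exact Or.inr (Or.inr (Or.inl hi'.symm))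
  · exact Or.inr (Or.inr (Or.inr hi'.symm))

theorem cross_ne (h : C.OneP isX) {d : D} (hx : isX (C.tail d)) :
    C.σ d ≠ d ∧ C.σ (C.σ d) ≠ d ∧ C.σ (C.σ (C.σ d)) ≠ d := by
  have h2 := h.x_two d hx
  have h4 := h.x_four d hx
  refine ⟨fun h1 => h2 (by rw [h1, h1]), h2, fun h3 => ?_⟩
  rw [h3] at h4
  exact h2 (by rw [h4, h4])

/-- number of corners at a crossing -/
theorem cornersIn_eq (h : C.OneP isX) (S : Finset F) {d : D} (hx : isX (C.tail d)) :
    C.cornersIn S (C.tail d) = (if C.left d ∈ S then 1 else 0) + (if C.left (C.σ d) ∈ S then 1 else 0)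
      + (if C.left (C.σ (C.σ d)) ∈ S then 1 else 0)
      + (if C.left (C.σ (C.σ (C.σ d))) ∈ S then 1 else 0) := by
  have h1 : (univ.filter (fun d' => C.tail d' = C.tail d ∧ C.left d' ∈ S))
      = ({d, C.σ d, C.σ (C.σ d), C.σ (C.σ (C.σ d))} : Finset D).filter (fun d' => C.left d' ∈ S) := by
    ext d'
    rw [mem_filter, mem_filter, mem_insert, mem_insert, mem_insert, mem_singleton]
    constructor
    · rintro ⟨_, ht, hl⟩
      exact ⟨cross_cases h hx ht, hl⟩
    · rintro ⟨h1, hl⟩
      refine ⟨mem_univ _, ?_, hl⟩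
      rcases h1 with rfl | rfl | rfl | rfl
      · rfl
      · rw [C.tail_σ]
      · rw [C.tail_σ, C.tail_σ]
      · rw [C.tail_σ, C.tail_σ, C.tail_σ]
  have hx1 : isX (C.tail (C.σ d)) := by rw [C.tail_σ]; exact hx
  have hx2 : isX (C.tail (C.σ (C.σ d))) := by rw [C.tail_σ]; exact hx1
  obtain ⟨a1, a2, a3⟩ := cross_ne h hx
  obtain ⟨b1, b2, _⟩ := cross_ne h hx1
  obtain ⟨c1, _, _⟩ := cross_ne h hx2
  unfold Cell.cornersIn
  rw [h1, card_filter, sum_insert, sum_insert, sum_insert, sum_singleton]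
  · ring
  · rw [mem_singleton]; exact fun h => c1 h.symm
  · rw [mem_insert, mem_singleton]
    rintro (h | h)
    · exact b1 h.symm
    · exact b2 h.symm
  · rw [mem_insert, mem_insert, mem_singleton]
    rintro (h | h | h)
    · exact a1 h.symm
    · exact a2 h.symm
    · exact a3 h.symm

theorem mem_facesOf {A : Finset N} {f : F} : f ∈ C.facesOf A ↔ ∃ d, C.tail d ∈ A ∧ C.left d = f := by
  simp [Cell.facesOf]

theorem mem_bdry {A : Finset N} {n : N} :
    n ∈ C.bdry isX A ↔ ¬ isX n ∧ n ∉ A ∧ ∃ d, C.tail d = n ∧ C.left d ∈ C.facesOf A := by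
  simp [Cell.bdry]

theorem left_mem {A : Finset N} {d : D} (hd : C.tail d ∈ A) : C.left d ∈ C.facesOf A :=
  mem_facesOf.mpr ⟨d, hd, rfl⟩

theorem right_mem {A : Finset N} {d : D} (hd : C.tail d ∈ A) : C.right d ∈ C.facesOf A := by
  rw [← left_σs]
  exact left_mem (by rw [tail_σs]; exact hd)

/-- a real vertex with a corner in `S = facesOf A` is in `A` or in the boundary -/
theorem mem_or {A : Finset N} {d : D} (hr : ¬ isX (C.tail d)) (hl : C.left d ∈ C.facesOf A) :
    C.tail d ∈ A ∨ C.tail d ∈ C.bdry isX A := by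
  by_cases hm : C.tail d ∈ A
  · exact Or.inl hm
  · exact Or.inr (mem_bdry.mpr ⟨hr, hm, d, rfl, hl⟩)

theorem head_mem_or {A : Finset N} {d : D} (hr : ¬ isX (C.head d)) (hl : C.left d ∈ C.facesOf A) :
    C.head d ∈ A ∨ C.head d ∈ C.bdry isX A := by
  have := mem_or (C := C) (isX := isX) (A := A) (d := C.φ d) (by rw [C.tail_φ']; exact hr)
    (by rw [C.left_φ]; exact hl)
  rwa [C.tail_φ'] at this

theorem head_mem_or' {A : Finset N} {d : D} (hr : ¬ isX (C.head d)) (hl : C.right d ∈ C.facesOf A) :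
    C.head d ∈ A ∨ C.head d ∈ C.bdry isX A :=
  mem_or (C := C) (isX := isX) (A := A) (d := C.α d) hr hl

/-- the exceptional edges leaving `A` -/
structure Exc (isX : N → Prop) [DecidablePred isX] (C : Cell D N F) (A : Finset N) (e : D) : Prop where
  x : isX (C.tail e)
  in0 : C.left e ∈ C.facesOf A
  in1 : C.left (C.σ e) ∈ C.facesOf A
  out2 : C.left (C.σ (C.σ e)) ∉ C.facesOf A
  out3 : C.left (C.σ (C.σ (C.σ e))) ∉ C.facesOf A
  a_mem : C.head (C.σ e) ∈ A
  w_not : C.head (C.σ (C.σ (C.σ e))) ∉ A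
  u_ne_v : C.head (C.σ (C.σ e)) ≠ C.head e
  u_bd : C.head (C.σ (C.σ e)) ∈ C.bdry isX A
  v_bd : C.head e ∈ C.bdry isX A
  two : C.cornersIn (C.facesOf A) (C.tail e) = 2

theorem nb_cases (h : C.OneP isX) {A : Finset N} (hA : ∀ n ∈ A, ¬ isX n) {d : D} (hd : C.tail d ∈ A) :
    C.tail (C.opp isX d) ∈ A ∨ C.tail (C.opp isX d) ∈ C.bdry isX A ∨
      (Exc isX C A (C.σ.symm (C.α d)) ∧ isX (C.head d) ∧
        C.tail (C.opp isX d) = C.head (C.σ (C.σ (C.σ (C.σ.symm (C.α d)))))) := by
  by_cases hx : isX (C.head d)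
  · set e := C.σ.symm (C.α d) with he
    have hσe : C.σ e = C.α d := by rw [he, Equiv.apply_symm_apply]
    have hte : C.tail e = C.head d := by rw [he, tail_σs]; rfl
    have hxe : isX (C.tail e) := by rw [hte]; exact hx
    have hopp : C.opp isX d = C.α (C.σ (C.σ (C.σ e))) := by
      unfold Cell.opp
      rw [if_pos hx, hσe]
    have htopp : C.tail (C.opp isX d) = C.head (C.σ (C.σ (C.σ e))) := by rw [hopp]; rfl
    have hx1 : isX (C.tail (C.σ e)) := by rw [C.tail_σ]; exact hxe
    have hx2 : isX (C.tail (C.σ (C.σ e))) := by rw [C.tail_σ]; exact hx1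
    have hx3 : isX (C.tail (C.σ (C.σ (C.σ e)))) := by rw [C.tail_σ]; exact hx2
    have in0 : C.left e ∈ C.facesOf A := by
      rw [he, left_σs, C.right_α]; exact left_mem hd
    have in1 : C.left (C.σ e) ∈ C.facesOf A := by
      rw [hσe]; exact right_mem hd
    have hr : ¬ isX (C.head (C.σ (C.σ (C.σ e)))) := h.x_real _ hx3
    by_cases h2 : C.left (C.σ (C.σ e)) ∈ C.facesOf A
    · rcases head_mem_or' (A := A) hr (by rw [C.right_σ]; exact h2) with h5 | h5
      · exact Or.inl (by rw [htopp]; exact h5)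
      · exact Or.inr (Or.inl (by rw [htopp]; exact h5))
    by_cases h3 : C.left (C.σ (C.σ (C.σ e))) ∈ C.facesOf A
    · rcases head_mem_or (A := A) hr h3 with h5 | h5
      · exact Or.inl (by rw [htopp]; exact h5)
      · exact Or.inr (Or.inl (by rw [htopp]; exact h5))
    by_cases hw : C.head (C.σ (C.σ (C.σ e))) ∈ A
    · exact Or.inl (by rw [htopp]; exact hw)
    refine Or.inr (Or.inr ⟨?_, hx, htopp⟩)
    have hru : ¬ isX (C.head (C.σ (C.σ e))) := h.x_real _ hx2
    have hrv : ¬ isX (C.head e) := h.x_real _ hxe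
    refine ⟨hxe, in0, in1, h2, h3, ?_, hw, ?_, ?_, ?_, ?_⟩
    · rw [hσe, C.head_α]; exact hd
    · have h6 := h.no_loop (C.α e) hrv
      have h7 : C.opp isX (C.α e) = C.α (C.σ (C.σ e)) := by
        unfold Cell.opp
        rw [C.head_α, if_pos hxe, C.α_α]
      rw [h7] at h6
      exact h6
    · rcases head_mem_or' (A := A) hru (by rw [C.right_σ]; exact in1) with h5 | h5
      · exfalso
        apply h2
        have := left_mem (C := C) (A := A) (d := C.φ (C.σ (C.σ e))) (by rw [C.tail_φ']; exact h5)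
        rwa [C.left_φ] at this
      · exact h5
    · rcases head_mem_or (A := A) hrv in0 with h5 | h5
      · exfalso
        apply h3
        have h8 := left_mem (C := C) (A := A) (d := C.α e) h5
        have h9 : C.left (C.α e) = C.right e := rfl
        have h10 : C.right e = C.left (C.σ (C.σ (C.σ e))) := by
          rw [← C.right_σ (C.σ (C.σ (C.σ e))), h.x_four e hxe]
        rw [h9, h10] at h8
        exact h8
      · exact h5
    · rw [cornersIn_eq h _ hxe, if_pos in0, if_pos in1, if_neg h2, if_neg h3]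
  · have hopp : C.opp isX d = C.α d := by
      unfold Cell.opp
      rw [if_neg hx]
    have htopp : C.tail (C.opp isX d) = C.head d := by rw [hopp]; rfl
    rcases head_mem_or (A := A) hx (left_mem hd) with h5 | h5
    · exact Or.inl (by rw [htopp]; exact h5)
    · exact Or.inr (Or.inl (by rw [htopp]; exact h5))

/-- boundary darts with real tail start at boundary vertices -/
theorem bd_dart {A : Finset N} {d : D} (hr : ¬ isX (C.tail d)) (hl : C.left d ∈ C.facesOf A)
    (hri : C.right d ∉ C.facesOf A) : C.tail d ∈ C.bdry isX A := by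
  rcases mem_or (A := A) hr hl with h | h
  · exact absurd (right_mem h) hri
  · exact h

/-- if all darts with left face in `S` have right face in `S` then `S = univ` -/
theorem eq_univ {S : Finset F} (hne : S.Nonempty) (h : ∀ d, C.left d ∈ S → C.right d ∈ S) :
    S = univ := by
  obtain ⟨f, hf⟩ := hne
  obtain ⟨d0, rfl⟩ := C.left_surj f
  have h1 := C.conn {d | C.left d ∈ S} ⟨d0, hf⟩ (fun d hd => h d hd)
    (fun d hd => by
      change C.left (C.φ d) ∈ S
      rw [C.left_φ]; exact hd)
  apply eq_univ_iff_forall.mpr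
  intro f'
  obtain ⟨d, rfl⟩ := C.left_surj f'
  have h2 : d ∈ ({d | C.left d ∈ S} : Set D) := by rw [h1]; exact Set.mem_univ _
  exact h2

theorem facesOf_nonempty {A : Finset N} (hne : A.Nonempty) : (C.facesOf A).Nonempty := by
  obtain ⟨n, hn⟩ := hne
  obtain ⟨d, rfl⟩ := C.tail_surj n
  exact ⟨C.left d, left_mem hn⟩

/-- `b > 0` if `S ≠ univ` -/
theorem b_pos (h : C.OneP isX) {A : Finset N} (hne : A.Nonempty) (hS : C.facesOf A ≠ univ) :
    0 < (univ.filter (fun d => ¬ isX (C.tail d) ∧ C.left d ∈ C.facesOf A ∧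
        C.right d ∉ C.facesOf A)).card := by
  by_contra hb
  have hb0 : (univ.filter (fun d => ¬ isX (C.tail d) ∧ C.left d ∈ C.facesOf A ∧
        C.right d ∉ C.facesOf A)).card = 0 := by omega
  have ha := arcs_le h (C.facesOf A)
  rw [hb0, Nat.le_zero, card_eq_zero, filter_eq_empty_iff] at ha
  rw [card_eq_zero, filter_eq_empty_iff] at hb0
  apply hS
  apply Block.eq_univ (C := C) (facesOf_nonempty hne)
  intro d hl
  by_contra hr
  by_cases hx : isX (C.tail d)
  · apply ha (mem_univ (C.tail d))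
    refine ⟨hx, ?_, ?_⟩
    · rw [cornersIn_eq h _ hx, if_pos hl]
      omega
    · rw [cornersIn_eq h _ hx]
      have h3 : C.left (C.σ (C.σ (C.σ d))) ∉ C.facesOf A := by
        rw [← C.right_σ (C.σ (C.σ (C.σ d))), h.x_four d hx]
        exact hr
      rw [if_neg h3]
      split_ifs <;> omega
  · exact hb0 (mem_univ d) ⟨hx, hl, hr⟩

/-- a real vertex with a corner in `S` and a corner outside has a boundary dart -/
theorem exists_bd (h : C.OneP isX) {S : Finset F} {n : N} (h1 : ∃ d, C.tail d = n ∧ C.left d ∈ S)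
    (h2 : ∃ d, C.tail d = n ∧ C.left d ∉ S) :
    ∃ d, C.tail d = n ∧ C.left d ∈ S ∧ C.right d ∉ S := by
  obtain ⟨d1, ht1, hl1⟩ := h1
  obtain ⟨d2, ht2, hl2⟩ := h2
  by_contra hcon
  push Not at hcon
  -- going clockwise from `d1` all corners are in `S`
  have key : ∀ k : ℕ, C.left ((C.σ.symm ^ k) d1) ∈ S ∧ C.tail ((C.σ.symm ^ k) d1) = n := by
    intro k
    induction k with
    | zero => exact ⟨hl1, ht1⟩
    | succ k ih =>
      have h3 := hcon _ ih.2 ih.1
      have h4 : (C.σ.symm ^ (k + 1)) d1 = C.σ.symm ((C.σ.symm ^ k) d1) := by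
        rw [pow_succ']; rfl
      rw [h4]
      exact ⟨by rw [left_σs]; exact h3, by rw [tail_σs]; exact ih.2⟩
  have hsc : (C.σ⁻¹).SameCycle d1 d2 :=
    Equiv.Perm.sameCycle_inv.mpr (h.tight.tail_same d1 d2 (ht1.trans ht2.symm))
  obtain ⟨k, _, hk⟩ := hsc.exists_pow_eq'
  apply hl2
  rw [← hk]
  exact (key k).1

theorem card_bdry_le (h : C.OneP isX) {A : Finset N}
    (hZ : (univ.filter (fun n => ¬ isX n ∧ n ∉ A ∧
        ∀ d, C.tail d = n → C.left d ∈ C.facesOf A)).card = 0) :
    (C.bdry isX A).card ≤ (univ.filter (fun d => ¬ isX (C.tail d) ∧ C.left d ∈ C.facesOf A ∧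
        C.right d ∉ C.facesOf A)).card := by
  rw [card_eq_zero, filter_eq_empty_iff] at hZ
  have h1 : C.bdry isX A ⊆ (univ.filter (fun d => ¬ isX (C.tail d) ∧ C.left d ∈ C.facesOf A ∧
        C.right d ∉ C.facesOf A)).image C.tail := by
    intro n hn
    obtain ⟨hr, hm, hex⟩ := mem_bdry.mp hn
    have h2 : ∃ d, C.tail d = n ∧ C.left d ∉ C.facesOf A := by
      by_contra hcon
      push Not at hcon
      exact hZ (mem_univ n) ⟨hr, hm, hcon⟩
    obtain ⟨d, hd, hl, hri⟩ := exists_bd h hex h2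
    rw [mem_image]
    exact ⟨d, mem_filter.mpr ⟨mem_univ _, by rw [hd]; exact hr, hl, hri⟩, hd⟩
  exact (card_le_card h1).trans card_image_le

theorem y_le (h : C.OneP isX) (S : Finset F) :
    (univ.filter (fun n => isX n ∧ C.cornersIn S n = 1)).card
      + (univ.filter (fun n => isX n ∧ C.cornersIn S n = 2)).card
      + (univ.filter (fun n => isX n ∧ C.cornersIn S n = 3)).card
      ≤ (univ.filter (fun d => ¬ isX (C.tail d) ∧ C.left d ∈ S ∧ C.right d ∉ S)).card := by
  refine le_trans ?_ (arcs_le h S)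
  rw [card_filter, card_filter, card_filter, card_filter, ← sum_add_distrib, ← sum_add_distrib]
  apply sum_le_sum
  intro n _
  by_cases hx : isX n
  · simp only [hx, true_and]
    by_cases h1 : C.cornersIn S n = 1
    · simp [h1]
    · by_cases h2 : C.cornersIn S n = 2
      · simp [h2]
      · by_cases h3 : C.cornersIn S n = 3
        · simp [h3]
        · simp [h1, h2, h3]
  · simp [hx]

/-- if all exceptional edges are excluded and there are at most two boundary vertices,
all real vertices are in `A` or the boundary -/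
theorem all_of_nb (h : C.OneP isX) {A : Finset N} (hA : ∀ n ∈ A, ¬ isX n) (hne : A.Nonempty)
    (hbd : (C.bdry isX A).card ≤ 2)
    (hnb : ∀ d, C.tail d ∈ A → C.tail (C.opp isX d) ∈ A ∨ C.tail (C.opp isX d) ∈ C.bdry isX A)
    (hbig : 3 ≤ (C.bdry isX A).card ∨ ∃ n, ¬ isX n ∧ n ∉ A ∧ n ∉ C.bdry isX A) : False := by
  rcases hbig with h3 | ⟨n, hn, h1, h2⟩
  · omega
  · rcases h.conn3 A (C.bdry isX A) hne hA hbd hnb n hn with h4 | h4
    · exact h1 h4
    · exact h2 h4

end Block

open Block

theorem block_le (h : C.OneP isX) (o : F) (A : Finset N) (hA : ∀ n ∈ A, ¬ isX n)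
    (hne : A.Nonempty) (hconn : C.FaceConn A) :
    C.excess isX o A ≤ 4 ∧ (C.bdry isX A = ∅ → C.excess isX o A ≤ 0) := by
  by_cases hS : C.facesOf A = univ
  · have h1 := excess_univ h o A hA hS
    have h2 : (0 : ℤ) ≤ ((univ.filter (fun n => ¬ isX n ∧ n ∉ A)).card : ℤ) := Int.natCast_nonneg _
    constructor
    · omega
    · intro _; omega
  · have h1 := excess_le h o A hA hne hconn hS
    have h2 := y_le h (C.facesOf A)
    have h3 := b_pos h hne hS
    constructor
    · split_ifs at h1 <;> omega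
    · intro h0
      exfalso
      rw [card_pos] at h3
      obtain ⟨d, hd⟩ := h3
      rw [mem_filter] at hd
      have := bd_dart hd.2.1 hd.2.2.1 hd.2.2.2
      rw [h0] at this
      exact notMem_empty _ this

theorem block_type (h : C.OneP isX) (o : F) (A : Finset N) (hA : ∀ n ∈ A, ¬ isX n)
    (hne : A.Nonempty) (hconn : C.FaceConn A)
    (hbig : 3 ≤ (C.bdry isX A).card ∨ ∃ n, ¬ isX n ∧ n ∉ A ∧ n ∉ C.bdry isX A) :
    C.excess isX o A ≤ 0 ∨
      (C.excess isX o A = 1 ∧ (C.TypeT isX A ∨ ∃ e, C.TypeB isX A e)) := by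
  by_cases hex : C.excess isX o A ≤ 0
  · exact Or.inl hex
  right
  have hS : C.facesOf A ≠ univ := by
    intro hS
    have h1 := excess_univ h o A hA hS
    have h2 : (0 : ℤ) ≤ ((univ.filter (fun n => ¬ isX n ∧ n ∉ A)).card : ℤ) := Int.natCast_nonneg _
    omega
  have h1 := excess_le h o A hA hne hconn hS
  have h2 := y_le h (C.facesOf A)
  have h3 := b_pos h hne hS
  have hbl := card_bdry_le (A := A) h
  set Zc := (univ.filter (fun n => ¬ isX n ∧ n ∉ A ∧
        ∀ d, C.tail d = n → C.left d ∈ C.facesOf A)).card with hZc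
  set b := (univ.filter (fun d => ¬ isX (C.tail d) ∧ C.left d ∈ C.facesOf A ∧
        C.right d ∉ C.facesOf A)).card with hb
  set y1 := (univ.filter (fun n => isX n ∧ C.cornersIn (C.facesOf A) n = 1)).card with hy1
  set y2 := (univ.filter (fun n => isX n ∧ C.cornersIn (C.facesOf A) n = 2)).card with hy2
  set y3 := (univ.filter (fun n => isX n ∧ C.cornersIn (C.facesOf A) n = 3)).card with hy3
  have hO : (0 : ℤ) ≤ (if o ∈ C.facesOf A then 8 else 0) := by split_ifs <;> norm_num
  have hkey : 4 * Zc + b + 2 * y1 + y2 ≤ 3 ∧ 2 * b + y1 ≤ 3 + y3 ∧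
      C.excess isX o A + 2 * b ≤ 4 + y3 := by
    refine ⟨?_, ?_, ?_⟩ <;> omega
  obtain ⟨k1, k2, k3⟩ := hkey
  have hZ0 : Zc = 0 := by omega
  have hbl' := hbl hZ0
  -- no crossing with exactly one corner
  have hc1 : y1 = 0 → ∀ n, isX n → C.cornersIn (C.facesOf A) n ≠ 1 := by
    intro hy1z n hn h1'
    rw [hy1, card_eq_zero, filter_eq_empty_iff] at hy1z
    exact hy1z (mem_univ n) ⟨hn, h1'⟩
  by_cases hy2z : y2 = 0
  · -- no exceptional edges
    have hc2 : ∀ n, isX n → C.cornersIn (C.facesOf A) n ≠ 2 := by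
      intro n hn h1'
      rw [hy2, card_eq_zero, filter_eq_empty_iff] at hy2z
      exact hy2z (mem_univ n) ⟨hn, h1'⟩
    have hnb : ∀ d, C.tail d ∈ A →
        C.tail (C.opp isX d) ∈ A ∨ C.tail (C.opp isX d) ∈ C.bdry isX A := by
      intro d hd
      rcases nb_cases h hA hd with h5 | h5 | ⟨h5, h6, _⟩
      · exact Or.inl h5
      · exact Or.inr h5
      · exact absurd h5.two (hc2 _ h5.x)
    have hbd3 : 3 ≤ (C.bdry isX A).card := by
      by_contra hlt
      exact all_of_nb h hA hne (by omega) hnb hbig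
    refine ⟨by omega, Or.inl ⟨hbd3, hnb, ?_⟩⟩
    intro n hn h0
    have := hc1 (by omega) n hn
    have := hc2 n hn
    omega
  · -- exactly one crossing with two corners
    have hy21 : y2 = 1 := by omega
    have hbd2 : (C.bdry isX A).card ≤ 2 := by omega
    have hexc : ∃ d, C.tail d ∈ A ∧ Exc isX C A (C.σ.symm (C.α d)) ∧ isX (C.head d) ∧
        C.tail (C.opp isX d) = C.head (C.σ (C.σ (C.σ (C.σ.symm (C.α d))))) := by
      by_contra hcon
      push Not at hcon
      apply all_of_nb h hA hne hbd2 _ hbig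
      intro d hd
      rcases nb_cases h hA hd with h5 | h5 | ⟨h5, h6, h7⟩
      · exact Or.inl h5
      · exact Or.inr h5
      · exact absurd h7 (hcon d hd h5 h6)
    obtain ⟨d, hd, he, hxd, hopp⟩ := hexc
    set e := C.σ.symm (C.α d) with hedef
    have hpair : ({C.head (C.σ (C.σ e)), C.head e} : Finset N) ⊆ C.bdry isX A := by
      intro n hn
      rw [mem_insert, mem_singleton] at hn
      rcases hn with rfl | rfl
      · exact he.u_bd
      · exact he.v_bd
    have h2b : 2 ≤ (C.bdry isX A).card := by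
      rw [← card_pair he.u_ne_v]
      exact card_le_card hpair
    refine ⟨by omega, Or.inr ?_⟩
    have huniq : ∀ n, isX n → C.cornersIn (C.facesOf A) n = 2 → n = C.tail e := by
      intro n hn h2'
      rw [hy2, card_eq_one] at hy21
      obtain ⟨m, hm⟩ := hy21
      have hm1 : n ∈ ({m} : Finset N) := by
        rw [← hm]; exact mem_filter.mpr ⟨mem_univ _, hn, h2'⟩
      have hm2 : C.tail e ∈ ({m} : Finset N) := by
        rw [← hm]; exact mem_filter.mpr ⟨mem_univ _, he.x, he.two⟩
      rw [mem_singleton] at hm1 hm2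
      rw [hm1, hm2]
    refine ⟨e, he.x, he.in0, he.in1, he.out2, he.out3, he.a_mem, he.w_not, he.u_ne_v, ?_, ?_, ?_⟩
    · symm
      apply eq_of_subset_of_card_le hpair
      · rw [card_pair he.u_ne_v]
        exact hbd2
    · intro d' hd'
      rcases nb_cases h hA hd' with h5 | h5 | ⟨h5, h6, h7⟩
      · exact Or.inl h5
      · exact Or.inr (Or.inl h5)
      · right; right
        rw [h7]
        have h8 := huniq _ h5.x h5.two
        -- `σ e' = α d'` is a dart at the crossing `tail e`
        have h9 : C.σ (C.σ.symm (C.α d')) = C.α d' := Equiv.apply_symm_apply _ _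
        have h10 : C.tail (C.α d') = C.tail e := by
          rw [← h9, C.tail_σ]; exact h8
        rcases cross_cases h he.x h10 with h11 | h11 | h11 | h11
        · exfalso
          have h12 : C.head e = C.tail d' := by rw [← h11, C.head_α]
          have h13 := he.v_bd
          rw [h12] at h13
          exact (mem_bdry.mp h13).2.1 hd'
        · rw [h11, Equiv.symm_apply_apply]
        · exfalso
          have h12 : C.head (C.σ (C.σ e)) = C.tail d' := by rw [← h11, C.head_α]
          have h13 := he.u_bd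
          rw [h12] at h13
          exact (mem_bdry.mp h13).2.1 hd'
        · exfalso
          have h12 : C.head (C.σ (C.σ (C.σ e))) = C.tail d' := by rw [← h11, C.head_α]
          exact he.w_not (by rw [h12]; exact hd')
    · intro n hn hnee h0
      have h12 := hc1 (by omega) n hn
      have h13 : C.cornersIn (C.facesOf A) n ≠ 2 := fun h2' => hnee (huniq n hn h2')
      omega

end Pool.Agent.Lib.MP_9ad789_co
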