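import Pool.Agent.Lib.MP_9ad789_co.Cell

/-!
# MP_9ad789_co : the faces of a rectangular flat map are boxes (module BOX)
-/

namespace Pool.Agent.Lib.MP_9ad789_co

open Equiv Finset

namespace BoxM

/-! ### Sequences -/

/-- a sequence going from 0 to 4 with steps 0 and 1 -/
theorem seq_split (m : ℕ) (S : ℕ → ℤ) (h0 : S 0 = 0) (hm : S m = 4) (hm1 : ∀ i < m, S i ≤ 3)
    (hs : ∀ i < m, S (i + 1) = S i ∨ S (i + 1) = S i + 1) :
    ∃ a b c : ℕ, 0 < a ∧ a < b ∧ b < c ∧ c < m ∧ ∀ i < m, (i < a → S i = 0) ∧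
      (a ≤ i → i < b → S i = 1) ∧ (b ≤ i → i < c → S i = 2) ∧ (c ≤ i → S i = 3) := by
  have hmono : ∀ i j, i ≤ j → j ≤ m → S i ≤ S j := by
    intro i j hij hj
    induction j, hij using Nat.le_induction with
    | base => exact le_rfl
    | succ j hij ih =>
      have h1 := ih (by omega)
      rcases hs j (by omega) with h2 | h2 <;> omega
  have hex : ∀ k : ℤ, 0 < k → k ≤ 4 → ∃ i, i ≤ m ∧ k ≤ S i ∧ S i = k ∧ ∀ j < i, S j < k := by
    intro k hk hk4
    have hne : ∃ i, i ≤ m ∧ k ≤ S i := ⟨m, le_rfl, by omega⟩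
    obtain ⟨i, hi, hmin⟩ : ∃ i, (i ≤ m ∧ k ≤ S i) ∧ ∀ j < i, ¬ (j ≤ m ∧ k ≤ S j) := by
      classical
      exact ⟨Nat.find hne, Nat.find_spec hne, fun j hj => Nat.find_min hne hj⟩
    have hmin' : ∀ j < i, S j < k := by
      intro j hj
      have := hmin j hj
      push Not at this
      exact this (by omega)
    refine ⟨i, hi.1, hi.2, ?_, hmin'⟩
    have hi0 : 0 < i := by
      rcases Nat.eq_zero_or_pos i with h | h
      · rw [h, h0] at hi
        omega
      · exact h
    have h3 := hmin' (i - 1) (by omega)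
    have h4 := hs (i - 1) (by omega)
    rw [show i - 1 + 1 = i by omega] at h4
    have h5 := hi.2
    omega
  obtain ⟨a, ha1, ha2, ha3, ha4⟩ := hex 1 (by norm_num) (by norm_num)
  obtain ⟨b, hb1, hb2, hb3, hb4⟩ := hex 2 (by norm_num) (by norm_num)
  obtain ⟨c, hc1, hc2, hc3, hc4⟩ := hex 3 (by norm_num) (by norm_num)
  have hab : a < b := by
    by_contra h
    have := hmono b a (by omega) ha1
    omega
  have hbc : b < c := by
    by_contra h
    have := hmono c b (by omega) hb1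
    omega
  have hcm : c < m := by
    rcases Nat.lt_or_ge c m with h | h
    · exact h
    · have : c = m := by omega
      rw [this] at hc3
      omega
  have ha0 : 0 < a := by
    rcases Nat.eq_zero_or_pos a with h | h
    · rw [h, h0] at ha3
      omega
    · exact h
  refine ⟨a, b, c, ha0, hab, hbc, hcm, ?_⟩
  intro i hi
  have hi3 := hm1 i hi
  have hi0 := hmono 0 i (by omega) hi.le
  refine ⟨?_, ?_, ?_, ?_⟩
  · intro h
    have := ha4 i h
    omega
  · intro h h'
    have h1 := hb4 i h'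
    have h2 := hmono a i h hi.le
    omega
  · intro h h'
    have h1 := hc4 i h'
    have h2 := hmono b i h hi.le
    omega
  · intro h
    have h2 := hmono c i h hi.le
    omega

theorem inc_of_step {lo hi : ℕ} {U : ℕ → ℤ} (h : ∀ i, lo ≤ i → i < hi → U i < U (i + 1)) :
    ∀ i j, lo ≤ i → i < j → j ≤ hi → U i < U j := by
  intro i j hi hij hj
  induction j, Nat.succ_le_of_lt hij using Nat.le_induction with
  | base => exact h i hi (by omega)
  | succ j hij' ih =>
    have h1 := ih (by omega) (by omega)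
    have h2 := h j (by omega) (by omega)
    omega

theorem const_of_step {lo hi : ℕ} {U : ℕ → ℤ} (h : ∀ i, lo ≤ i → i < hi → U i = U (i + 1)) :
    ∀ i, lo ≤ i → i ≤ hi → U i = U lo := by
  intro i hi hj
  induction i, hi using Nat.le_induction with
  | base => rfl
  | succ j hij' ih =>
    rw [← h j (by omega) (by omega)]
    exact ih (by omega)

/-- an increasing staircase covers the interval -/
theorem cover_inc {lo hi : ℕ} (hlh : lo < hi) {U : ℕ → ℤ} {q : ℝ} (h1 : (U lo : ℝ) ≤ q)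
    (h2 : q < U hi) : ∃ i, lo ≤ i ∧ i < hi ∧ (U i : ℝ) ≤ q ∧ q < U (i + 1) := by
  by_contra hcon
  push Not at hcon
  have h3 : ∀ i, lo ≤ i → i ≤ hi → (U i : ℝ) ≤ q := by
    intro i hi hj
    induction i, hi using Nat.le_induction with
    | base => exact h1
    | succ j hij' ih => exact hcon j hij' (by omega) (ih (by omega))
  have := h3 hi hlh.le le_rfl
  linarith

theorem cover_dec {lo hi : ℕ} (hlh : lo < hi) {U : ℕ → ℤ} {q : ℝ} (h1 : q < U lo)
    (h2 : (U hi : ℝ) ≤ q) : ∃ i, lo ≤ i ∧ i < hi ∧ (U (i + 1) : ℝ) ≤ q ∧ q < U i := by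
  by_contra hcon
  push Not at hcon
  have h3 : ∀ i, lo ≤ i → i ≤ hi → q < U i := by
    intro i hi hj
    induction i, hi using Nat.le_induction with
    | base => exact h1
    | succ j hij' ih =>
      by_contra h4
      push Not at h4
      have := hcon j hij' (by omega) h4
      have := ih (by omega)
      linarith
  have := h3 hi hlh.le le_rfl
  linarith

/-- the geometric facts about the boundary of a box, with indices; `U`, `W` coordinates -/
structure SeqBox (m : ℕ) (S : ℕ → ℤ) (U W : ℕ → ℤ) (xl xr yb yt : ℤ) : Prop where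
  lt_x : xl < xr
  lt_y : yb < yt
  s0 : ∀ i < m, S i = 0 → W i = yb ∧ W (i + 1) = yb ∧ xl ≤ U i ∧ U i < U (i + 1) ∧ U (i + 1) ≤ xr
  s1 : ∀ i < m, S i = 1 → U i = xr ∧ U (i + 1) = xr ∧ yb ≤ W i ∧ W i < W (i + 1) ∧ W (i + 1) ≤ yt
  s2 : ∀ i < m, S i = 2 → W i = yt ∧ W (i + 1) = yt ∧ xl ≤ U (i + 1) ∧ U (i + 1) < U i ∧ U i ≤ xr
  s3 : ∀ i < m, S i = 3 → U i = xl ∧ U (i + 1) = xl ∧ yb ≤ W (i + 1) ∧ W (i + 1) < W i ∧ W i ≤ yt
  d0 : ∀ i < m, ∀ j < m, i < j → S i = 0 → S j = 0 → U (i + 1) ≤ U j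
  d1 : ∀ i < m, ∀ j < m, i < j → S i = 1 → S j = 1 → W (i + 1) ≤ W j
  d2 : ∀ i < m, ∀ j < m, i < j → S i = 2 → S j = 2 → U j ≤ U (i + 1)
  d3 : ∀ i < m, ∀ j < m, i < j → S i = 3 → S j = 3 → W j ≤ W (i + 1)
  c0 : ∀ q : ℝ, (xl : ℝ) ≤ q → q < xr → ∃ i < m, S i = 0 ∧ (U i : ℝ) ≤ q ∧ q < U (i + 1)
  c1 : ∀ q : ℝ, (yb : ℝ) ≤ q → q < yt → ∃ i < m, S i = 1 ∧ (W i : ℝ) ≤ q ∧ q < W (i + 1)
  c2 : ∀ q : ℝ, (xl : ℝ) ≤ q → q < xr → ∃ i < m, S i = 2 ∧ (U (i + 1) : ℝ) ≤ q ∧ q < U i
  c3 : ∀ q : ℝ, (yb : ℝ) ≤ q → q < yt → ∃ i < m, S i = 3 ∧ (W (i + 1) : ℝ) ≤ q ∧ q < W i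
  inj : ∀ i < m, ∀ j < m, U i = U j → W i = W j → i = j

theorem seq_box (m : ℕ) (S : ℕ → ℤ) (U W : ℕ → ℤ) (h0 : S 0 = 0) (hm : S m = 4)
    (hm1 : ∀ i < m, S i ≤ 3)
    (hs : ∀ i < m, S (i + 1) = S i ∨ S (i + 1) = S i + 1)
    (g0 : ∀ i < m, S i = 0 → U i < U (i + 1) ∧ W i = W (i + 1))
    (g1 : ∀ i < m, S i = 1 → U i = U (i + 1) ∧ W i < W (i + 1))
    (g2 : ∀ i < m, S i = 2 → U (i + 1) < U i ∧ W i = W (i + 1))
    (g3 : ∀ i < m, S i = 3 → U i = U (i + 1) ∧ W (i + 1) < W i)
    (hU : U m = U 0) (hW : W m = W 0) : ∃ xl xr yb yt, SeqBox m S U W xl xr yb yt := by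
  obtain ⟨a, b, c, ha, hab, hbc, hcm, hsp⟩ := seq_split m S h0 hm hm1 hs
  -- classification of indices
  have k0 : ∀ i < m, S i = 0 → i < a := by
    intro i hi h
    obtain ⟨h1, h2, h3, h4⟩ := hsp i hi
    by_contra hc'
    rcases Nat.lt_or_ge i b with h5 | h5
    · have := h2 (by omega) h5; omega
    · rcases Nat.lt_or_ge i c with h6 | h6
      · have := h3 h5 h6; omega
      · have := h4 h6; omega
  have k1 : ∀ i < m, S i = 1 → a ≤ i ∧ i < b := by
    intro i hi h
    obtain ⟨h1, h2, h3, h4⟩ := hsp i hi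
    constructor
    · by_contra hc'
      have := h1 (by omega); omega
    · by_contra hc'
      rcases Nat.lt_or_ge i c with h6 | h6
      · have := h3 (by omega) h6; omega
      · have := h4 h6; omega
  have k2 : ∀ i < m, S i = 2 → b ≤ i ∧ i < c := by
    intro i hi h
    obtain ⟨h1, h2, h3, h4⟩ := hsp i hi
    constructor
    · by_contra hc'
      rcases Nat.lt_or_ge i a with h6 | h6
      · have := h1 (by omega); omega
      · have := h2 (by omega) (by omega); omega
    · by_contra hc'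
      have := h4 (by omega); omega
  have k3 : ∀ i < m, S i = 3 → c ≤ i := by
    intro i hi h
    obtain ⟨h1, h2, h3, h4⟩ := hsp i hi
    by_contra hc'
    rcases Nat.lt_or_ge i a with h6 | h6
    · have := h1 (by omega); omega
    · rcases Nat.lt_or_ge i b with h7 | h7
      · have := h2 (by omega) (by omega); omega
      · have := h3 (by omega) (by omega); omega
  -- monotone pieces
  have U0 := inc_of_step (lo := 0) (hi := a) (U := U)
    (fun i _ hi => (g0 i (by omega) ((hsp i (by omega)).1 hi)).1)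
  have W0 := const_of_step (lo := 0) (hi := a) (U := W)
    (fun i _ hi => (g0 i (by omega) ((hsp i (by omega)).1 hi)).2)
  have W1 := inc_of_step (lo := a) (hi := b) (U := W)
    (fun i h hi => (g1 i (by omega) ((hsp i (by omega)).2.1 h hi)).2)
  have U1 := const_of_step (lo := a) (hi := b) (U := U)
    (fun i h hi => (g1 i (by omega) ((hsp i (by omega)).2.1 h hi)).1)
  have U2 := inc_of_step (lo := b) (hi := c) (U := fun i => - U i)
    (fun i h hi => by
      have := (g2 i (by omega) ((hsp i (by omega)).2.2.1 h hi)).1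
      omega)
  have W2 := const_of_step (lo := b) (hi := c) (U := W)
    (fun i h hi => (g2 i (by omega) ((hsp i (by omega)).2.2.1 h hi)).2)
  have W3 := inc_of_step (lo := c) (hi := m) (U := fun i => - W i)
    (fun i h hi => by
      have := (g3 i (by omega) ((hsp i (by omega)).2.2.2 h)).2
      omega)
  have U3 := const_of_step (lo := c) (hi := m) (U := U)
    (fun i h hi => (g3 i (by omega) ((hsp i (by omega)).2.2.2 h)).1)
  have eWa := W0 a (by omega) le_rfl
  have eUb := U1 b hab.le le_rfl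
  have eWc := W2 c hbc.le le_rfl
  have eUm := U3 m hcm.le le_rfl
  -- weak versions
  have U0' : ∀ i j, i ≤ j → j ≤ a → U i ≤ U j := by
    intro i j h1 h2
    rcases Nat.eq_or_lt_of_le h1 with h | h
    · rw [h]
    · exact (U0 i j (by omega) h h2).le
  have W1' : ∀ i j, a ≤ i → i ≤ j → j ≤ b → W i ≤ W j := by
    intro i j h0 h1 h2
    rcases Nat.eq_or_lt_of_le h1 with h | h
    · rw [h]
    · exact (W1 i j h0 h h2).le
  have U2' : ∀ i j, b ≤ i → i ≤ j → j ≤ c → U j ≤ U i := by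
    intro i j h0 h1 h2
    rcases Nat.eq_or_lt_of_le h1 with h | h
    · rw [h]
    · have := U2 i j h0 h h2; omega
  have W3' : ∀ i j, c ≤ i → i ≤ j → j ≤ m → W j ≤ W i := by
    intro i j h0 h1 h2
    rcases Nat.eq_or_lt_of_le h1 with h | h
    · rw [h]
    · have := W3 i j h0 h h2; omega
  refine ⟨U 0, U a, W 0, W b, ?_⟩
  have hUc : U c = U 0 := by rw [← eUm, hU]
  constructor
  · exact U0 0 a le_rfl ha le_rfl
  · have := W1 a b le_rfl hab le_rfl
    omega
  · intro i hi h
    have h1 := k0 i hi h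
    have h2 := g0 i hi h
    refine ⟨W0 i (by omega) (by omega), W0 (i + 1) (by omega) (by omega), U0' 0 i (by omega) (by omega),
      h2.1, U0' (i + 1) a (by omega) le_rfl⟩
  · intro i hi h
    have h1 := k1 i hi h
    have h2 := g1 i hi h
    refine ⟨U1 i h1.1 (by omega), U1 (i + 1) (by omega) (by omega), ?_, h2.2,
      W1' (i + 1) b (by omega) (by omega) le_rfl⟩
    have := W1' a i le_rfl h1.1 (by omega)
    omega
  · intro i hi h
    have h1 := k2 i hi h
    have h2 := g2 i hi h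
    refine ⟨W2 i h1.1 (by omega), W2 (i + 1) (by omega) (by omega), ?_, h2.1, ?_⟩
    · have := U2' (i + 1) c (by omega) (by omega) le_rfl
      omega
    · have := U2' b i le_rfl h1.1 (by omega)
      omega
  · intro i hi h
    have h1 := k3 i hi h
    have h2 := g3 i hi h
    refine ⟨?_, ?_, ?_, h2.2, ?_⟩
    · have := U3 i h1 (by omega)
      omega
    · have := U3 (i + 1) (by omega) (by omega)
      omega
    · have := W3' (i + 1) m (by omega) (by omega) le_rfl
      omega
    · have := W3' c i le_rfl h1 (by omega)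
      omega
  · intro i hi j hj hij h h'
    have h1 := k0 j hj h'
    exact U0' (i + 1) j (by omega) (by omega)
  · intro i hi j hj hij h h'
    have h1 := k1 j hj h'
    have h2 := k1 i hi h
    exact W1' (i + 1) j (by omega) (by omega) (by omega)
  · intro i hi j hj hij h h'
    have h1 := k2 j hj h'
    have h2 := k2 i hi h
    exact U2' (i + 1) j (by omega) (by omega) (by omega)
  · intro i hi j hj hij h h'
    have h1 := k3 j hj h'
    have h2 := k3 i hi h
    exact W3' (i + 1) j (by omega) (by omega) (by omega)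
  · intro q h1 h2
    obtain ⟨i, hi, hi', h3, h4⟩ := cover_inc (lo := 0) (hi := a) ha h1 h2
    exact ⟨i, by omega, (hsp i (by omega)).1 hi', h3, h4⟩
  · intro q h1 h2
    rw [← eWa] at h1
    obtain ⟨i, hi, hi', h3, h4⟩ := cover_inc (lo := a) (hi := b) hab h1 h2
    exact ⟨i, by omega, (hsp i (by omega)).2.1 hi hi', h3, h4⟩
  · intro q h1 h2
    rw [← hUc] at h1
    rw [← eUb] at h2
    obtain ⟨i, hi, hi', h3, h4⟩ := cover_dec (lo := b) (hi := c) hbc h2 h1
    exact ⟨i, by omega, (hsp i (by omega)).2.2.1 hi hi', h3, h4⟩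
  · intro q h1 h2
    rw [← hW] at h1
    rw [← eWc] at h2
    obtain ⟨i, hi, hi', h3, h4⟩ := cover_dec (lo := c) (hi := m) hcm h2 h1
    exact ⟨i, by omega, (hsp i (by omega)).2.2.2 hi, h3, h4⟩
  · -- injectivity
    have key : ∀ i < m, ∀ j < m, i < j → U i = U j → W i = W j → False := by
      intro i hi j hj hij hu hw
      have hWb : W 0 < W b := by
        have := W1 a b le_rfl hab le_rfl
        omega
      have hUa : U 0 < U a := U0 0 a le_rfl ha le_rfl
      rcases Nat.lt_or_ge j a with hja | hja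
      · have := U0 i j (by omega) hij (by omega)
        omega
      rcases Nat.lt_or_ge j b with hjb | hjb
      · -- j on the right side
        have e1 := U1 j hja (by omega)
        rcases Nat.lt_or_ge i a with hia | hia
        · have := U0 i a (by omega) hia le_rfl
          omega
        · have := W1 i j hia hij (by omega)
          omega
      rcases Nat.lt_or_ge j c with hjc | hjc
      · have e1 := W2 j hjb (by omega)
        rcases Nat.lt_or_ge i b with hib | hib
        · rcases Nat.lt_or_ge i a with hia | hia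
          · have := W0 i (by omega) (by omega)
            omega
          · have := W1 i b hia hib le_rfl
            omega
        · have := U2 i j hib hij (by omega)
          omega
      · have e1 := U3 j hjc (by omega)
        have e2 := W3 j m hjc hj le_rfl
        rcases Nat.lt_or_ge i c with hic | hic
        · rcases Nat.lt_or_ge i b with hib | hib
          · rcases Nat.lt_or_ge i a with hia | hia
            · have := W0 i (by omega) (by omega)
              omega
            · have := U1 i hia (by omega)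
              omega
          · have := U2 i c hib hic le_rfl
            omega
        · have := W3 i j hic hij (by omega)
          omega
    intro i hi j hj hu hw
    rcases lt_trichotomy i j with h | h | h
    · exact absurd (key i hi j hj h hu hw) (by simp)
    · exact h
    · exact absurd (key j hj i hi h hu.symm hw.symm) (by simp)

/-! ### Cycles of a permutation -/

section cycle

variable {D : Type} [Fintype D] [DecidableEq D] (ψ : Perm D) (Φ : Finset D)

omit [DecidableEq D] in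
theorem cycle_enum (hinv : ∀ d ∈ Φ, ψ d ∈ Φ) (hcyc : ∀ d ∈ Φ, ∀ d' ∈ Φ, ψ.SameCycle d d')
    (d0 : D) (hd0 : d0 ∈ Φ) :
    0 < Function.minimalPeriod ψ d0 ∧ (∀ i, ψ^[i] d0 ∈ Φ) ∧
      (∀ d ∈ Φ, ∃ i < Function.minimalPeriod ψ d0, ψ^[i] d0 = d) ∧
      (∀ i < Function.minimalPeriod ψ d0, ∀ j < Function.minimalPeriod ψ d0,
        ψ^[i] d0 = ψ^[j] d0 → i = j) := by
  have hpos : 0 < Function.minimalPeriod ψ d0 := by
    apply Function.minimalPeriod_pos_of_mem_periodicPts
    exact ψ.injective.mem_periodicPts d0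
  refine ⟨hpos, ?_, ?_, ?_⟩
  · intro i
    induction i with
    | zero => exact hd0
    | succ i ih =>
      rw [Function.iterate_succ_apply']
      exact hinv _ ih
  · intro d hd
    obtain ⟨k, hk⟩ := (hcyc d0 hd0 d hd).exists_nat_pow_eq
    refine ⟨k % Function.minimalPeriod ψ d0, Nat.mod_lt _ hpos, ?_⟩
    rw [Function.iterate_mod_minimalPeriod_eq, ← hk]
    simp [Equiv.Perm.iterate_eq_pow]
  · intro i hi j hj h
    exact Function.iterate_injOn_Iio_minimalPeriod (f := ψ) (x := d0) hi hj h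

theorem cycle_sum (hinv : ∀ d ∈ Φ, ψ d ∈ Φ) (hcyc : ∀ d ∈ Φ, ∀ d' ∈ Φ, ψ.SameCycle d d')
    (d0 : D) (hd0 : d0 ∈ Φ) (τ : D → ℤ) :
    ∑ j ∈ range (Function.minimalPeriod ψ d0), τ (ψ^[j] d0) = ∑ d ∈ Φ, τ d := by
  obtain ⟨h1, h2, h3, h4⟩ := cycle_enum ψ Φ hinv hcyc d0 hd0
  have himg : Φ = (range (Function.minimalPeriod ψ d0)).image (fun j => ψ^[j] d0) := by
    ext d
    rw [mem_image]
    constructor
    · intro hd
      obtain ⟨i, hi, he⟩ := h3 d hd
      exact ⟨i, mem_range.mpr hi, he⟩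
    · rintro ⟨i, _, rfl⟩
      exact h2 i
  rw [himg, sum_image]
  intro i hi j hj h
  rw [mem_coe, mem_range] at hi hj
  exact h4 i hi j hj h

theorem cycle_box (hinv : ∀ d ∈ Φ, ψ d ∈ Φ) (hcyc : ∀ d ∈ Φ, ∀ d' ∈ Φ, ψ.SameCycle d d')
    (τ : D → ℤ) (hτ : ∀ d ∈ Φ, τ d = 0 ∨ τ d = 1) (hsum : ∑ d ∈ Φ, τ d = 4)
    (δ : D → ZMod 4) (hδ : ∀ d ∈ Φ, δ (ψ d) = δ d + (τ d : ZMod 4)) (u w : D → ℤ)
    (g0 : ∀ d ∈ Φ, δ d = 0 → u d < u (ψ d) ∧ w d = w (ψ d))
    (g1 : ∀ d ∈ Φ, δ d = 1 → u d = u (ψ d) ∧ w d < w (ψ d))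
    (g2 : ∀ d ∈ Φ, δ d = 2 → u (ψ d) < u d ∧ w d = w (ψ d))
    (g3 : ∀ d ∈ Φ, δ d = 3 → u d = u (ψ d) ∧ w (ψ d) < w d) :
    ∃ (m : ℕ) (c : ℕ → D) (S : ℕ → ℤ) (xl xr yb yt : ℤ), (∀ d ∈ Φ, ∃ i < m, c i = d) ∧
      (∀ i, c i ∈ Φ) ∧ (∀ i, c (i + 1) = ψ (c i)) ∧
      (∀ i < m, 0 ≤ S i ∧ S i ≤ 3) ∧ (∀ i < m, δ (c i) = ((S i : ℤ) : ZMod 4)) ∧
      SeqBox m S (fun i => u (c i)) (fun i => w (c i)) xl xr yb yt := by
  -- partial sums along an orbit
  have hpart : ∀ d0 ∈ Φ, ∀ i : ℕ,
      δ (ψ^[i] d0) = δ d0 + ((∑ j ∈ range i, τ (ψ^[j] d0) : ℤ) : ZMod 4) := by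
    intro d0 hd0 i
    obtain ⟨_, h2, _, _⟩ := cycle_enum ψ Φ hinv hcyc d0 hd0
    induction i with
    | zero => simp
    | succ i ih =>
      rw [Function.iterate_succ_apply', hδ _ (h2 i), ih, sum_range_succ]
      push_cast
      ring
  have hstep : ∀ d0 ∈ Φ, ∀ i : ℕ, (∑ j ∈ range (i + 1), τ (ψ^[j] d0)) = (∑ j ∈ range i, τ (ψ^[j] d0))
      ∨ (∑ j ∈ range (i + 1), τ (ψ^[j] d0)) = (∑ j ∈ range i, τ (ψ^[j] d0)) + 1 := by
    intro d0 hd0 i
    obtain ⟨_, h2, _, _⟩ := cycle_enum ψ Φ hinv hcyc d0 hd0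
    rw [sum_range_succ]
    rcases hτ _ (h2 i) with h | h
    · left; omega
    · right; omega
  have hmono : ∀ d0 ∈ Φ, ∀ i j : ℕ, i ≤ j → (∑ l ∈ range i, τ (ψ^[l] d0)) ≤
      (∑ l ∈ range j, τ (ψ^[l] d0)) := by
    intro d0 hd0 i j hij
    induction j, hij using Nat.le_induction with
    | base => exact le_rfl
    | succ j _ ih =>
      have := hstep d0 hd0 j
      omega
  -- the sum over all but the last dart
  have hlast : ∀ d0 ∈ Φ, τ (ψ.symm d0) = 1 → ∀ i < Function.minimalPeriod ψ d0,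
      (∑ j ∈ range i, τ (ψ^[j] d0)) ≤ 3 := by
    intro d0 hd0 hτ1 i hi
    obtain ⟨h1, h2, _, _⟩ := cycle_enum ψ Φ hinv hcyc d0 hd0
    have h3 := cycle_sum ψ Φ hinv hcyc d0 hd0 τ
    rw [hsum] at h3
    obtain ⟨k, hk⟩ : ∃ k, Function.minimalPeriod ψ d0 = k + 1 := ⟨_, (Nat.succ_pred_eq_of_pos h1).symm⟩
    rw [hk, sum_range_succ] at h3
    have h4 : ψ (ψ^[k] d0) = d0 := by
      have := Function.iterate_minimalPeriod (f := ψ) (x := d0)
      rw [hk, Function.iterate_succ_apply'] at this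
      exact this
    have h5 : ψ^[k] d0 = ψ.symm d0 := by
      rw [Equiv.eq_symm_apply]
      exact h4
    rw [h5, hτ1] at h3
    have h6 := hmono d0 hd0 i k (by omega)
    omega
  -- a dart with turn
  obtain ⟨e, he, hτe⟩ : ∃ e ∈ Φ, τ e = 1 := by
    by_contra hcon
    push Not at hcon
    have : ∑ d ∈ Φ, τ d = 0 := by
      apply sum_eq_zero
      intro d hd
      rcases hτ d hd with h | h
      · exact h
      · exact absurd h (hcon d hd)
    omega
  have hd1 : ψ e ∈ Φ := hinv e he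
  have he1 : τ (ψ.symm (ψ e)) = 1 := by rw [Equiv.symm_apply_apply]; exact hτe
  -- the starting dart
  obtain ⟨d0, hd0, hδ0, hτ0⟩ : ∃ d0 ∈ Φ, δ d0 = 0 ∧ τ (ψ.symm d0) = 1 := by
    obtain ⟨a, b, c, ha, hab, hbc, hcm, hsp⟩ := seq_split (Function.minimalPeriod ψ (ψ e))
      (fun i => ∑ j ∈ range i, τ (ψ^[j] (ψ e))) (by simp)
      (by rw [← hsum]; exact cycle_sum ψ Φ hinv hcyc (ψ e) hd1 τ) (hlast (ψ e) hd1 he1)
      (fun i _ => hstep (ψ e) hd1 i)
    obtain ⟨_, hmem, _, _⟩ := cycle_enum ψ Φ hinv hcyc (ψ e) hd1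
    have hgen : ∀ k : ℕ, 0 < k → k < Function.minimalPeriod ψ (ψ e) → ∀ r : ℤ,
        (∑ j ∈ range k, τ (ψ^[j] (ψ e))) = r → (∑ j ∈ range (k - 1), τ (ψ^[j] (ψ e))) = r - 1 →
        δ (ψ^[k] (ψ e)) = δ (ψ e) + (r : ZMod 4) ∧ τ (ψ.symm (ψ^[k] (ψ e))) = 1 := by
      intro k hk _ r hr hr'
      refine ⟨?_, ?_⟩
      · rw [hpart _ hd1, hr]
      · obtain ⟨l, rfl⟩ : ∃ l, k = l + 1 := ⟨k - 1, by omega⟩
        rw [Function.iterate_succ_apply', Equiv.symm_apply_apply]
        rw [sum_range_succ] at hr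
        simp only [Nat.add_sub_cancel] at hr'
        omega
    have h4 : ∀ z : ZMod 4, z = 0 ∨ z + 1 = 0 ∨ z + 2 = 0 ∨ z + 3 = 0 := by decide
    rcases h4 (δ (ψ e)) with h | h | h | h
    · exact ⟨ψ e, hd1, h, he1⟩
    · have h5 := hgen a ha (by omega) 1 (by
        have := (hsp a (by omega)).2.1 le_rfl hab
        exact this) (by
        have := (hsp (a - 1) (by omega)).1 (by omega)
        simpa using this)
      refine ⟨_, hmem a, ?_, h5.2⟩
      rw [h5.1]
      simpa using h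
    · have h5 := hgen b (by omega) (by omega) 2 (by
        have := (hsp b (by omega)).2.2.1 le_rfl hbc
        exact this) (by
        have := (hsp (b - 1) (by omega)).2.1 (by omega) (by omega)
        simpa using this)
      refine ⟨_, hmem b, ?_, h5.2⟩
      rw [h5.1]
      simpa using h
    · have h5 := hgen c (by omega) (by omega) 3 (by
        have := (hsp c (by omega)).2.2.2 le_rfl
        exact this) (by
        have := (hsp (c - 1) (by omega)).2.2.1 (by omega) (by omega)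
        simpa using this)
      refine ⟨_, hmem c, ?_, h5.2⟩
      rw [h5.1]
      simpa using h
  obtain ⟨hm0, hmem, hsurj, hinj⟩ := cycle_enum ψ Φ hinv hcyc d0 hd0
  set m := Function.minimalPeriod ψ d0 with hm
  set S : ℕ → ℤ := fun i => ∑ j ∈ range i, τ (ψ^[j] d0) with hS
  have hSm : S m = 4 := by
    rw [← hsum]
    exact cycle_sum ψ Φ hinv hcyc d0 hd0 τ
  have hS3 : ∀ i < m, S i ≤ 3 := hlast d0 hd0 hτ0
  have hS0 : ∀ i, 0 ≤ S i := by
    intro i
    have := hmono d0 hd0 0 i (by omega)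
    simpa using this
  have hδS : ∀ i, δ (ψ^[i] d0) = ((S i : ℤ) : ZMod 4) := by
    intro i
    rw [hpart d0 hd0 i, hδ0, zero_add]
  have hsucc : ∀ i, ψ^[i + 1] d0 = ψ (ψ^[i] d0) := fun i => Function.iterate_succ_apply' _ _ _
  have hper : ψ^[m] d0 = d0 := Function.iterate_minimalPeriod
  obtain ⟨xl, xr, yb, yt, hbox⟩ := seq_box m S (fun i => u (ψ^[i] d0)) (fun i => w (ψ^[i] d0))
    (by simp [hS]) hSm hS3 (fun i _ => hstep d0 hd0 i)
    (fun i _ h => by
      simp only [hsucc]
      exact g0 _ (hmem i) (by rw [hδS, h]; rfl))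
    (fun i _ h => by
      simp only [hsucc]
      exact g1 _ (hmem i) (by rw [hδS, h]; rfl))
    (fun i _ h => by
      simp only [hsucc]
      exact g2 _ (hmem i) (by rw [hδS, h]; rfl))
    (fun i _ h => by
      simp only [hsucc]
      exact g3 _ (hmem i) (by rw [hδS, h]; rfl))
    (by simp only [hper]; rfl) (by simp only [hper]; rfl)
  exact ⟨m, fun i => ψ^[i] d0, S, xl, xr, yb, yt, hsurj, hmem, hsucc, fun i hi => ⟨hS0 i, hS3 i hi⟩,
    fun i _ => hδS i, hbox⟩

end cycle


section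
variable {D N F : Type} [Fintype D] [Fintype N] [Fintype F]
  [DecidableEq D] [DecidableEq N] [DecidableEq F]

theorem cast_inj4 {a b : ℤ} (ha : 0 ≤ a ∧ a ≤ 3) (hb : 0 ≤ b ∧ b ≤ 3)
    (h : ((a : ℤ) : ZMod 4) = ((b : ℤ) : ZMod 4)) : a = b := by
  rw [ZMod.intCast_eq_intCast_iff] at h
  have := h.dvd
  omega

end

end BoxM

section
variable {D N F : Type} [Fintype D] [Fintype N] [Fintype F]
  [DecidableEq D] [DecidableEq N] [DecidableEq F]

/-- `f` is the box `[xl, xr] × [yb, yt]`, and the darts of its boundary subdivide its sides;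
`ε = 0` for an inner face (walked counterclockwise), `ε = 2` for the outer face (walked
clockwise: its darts of direction 0 are on the top side, etc.). -/
structure IsBox (M : Flat D N F) (dir : D → ZMod 4) (x y : N → ℤ) (f : F) (ε : ZMod 4)
    (xl xr yb yt : ℤ) : Prop where
  lt_x : xl < xr
  lt_y : yb < yt
  bottom : ∀ d, M.left d = f → dir d = 0 + ε → y (M.tail d) = yb ∧ y (M.head d) = yb ∧
    xl ≤ x (M.tail d) ∧ x (M.tail d) ≤ xr ∧ xl ≤ x (M.head d) ∧ x (M.head d) ≤ xr
  right : ∀ d, M.left d = f → dir d = 1 + ε → x (M.tail d) = xr ∧ x (M.head d) = xr ∧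
    yb ≤ y (M.tail d) ∧ y (M.tail d) ≤ yt ∧ yb ≤ y (M.head d) ∧ y (M.head d) ≤ yt
  top : ∀ d, M.left d = f → dir d = 2 + ε → y (M.tail d) = yt ∧ y (M.head d) = yt ∧
    xl ≤ x (M.tail d) ∧ x (M.tail d) ≤ xr ∧ xl ≤ x (M.head d) ∧ x (M.head d) ≤ xr
  left : ∀ d, M.left d = f → dir d = 3 + ε → x (M.tail d) = xl ∧ x (M.head d) = xl ∧
    yb ≤ y (M.tail d) ∧ y (M.tail d) ≤ yt ∧ yb ≤ y (M.head d) ∧ y (M.head d) ≤ yt
  disj_x : ∀ d d', M.left d = f → M.left d' = f → dir d = dir d' → (dir d = 0 ∨ dir d = 2) →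
    d ≠ d' → max (x (M.tail d)) (x (M.head d)) ≤ min (x (M.tail d')) (x (M.head d')) ∨
      max (x (M.tail d')) (x (M.head d')) ≤ min (x (M.tail d)) (x (M.head d))
  disj_y : ∀ d d', M.left d = f → M.left d' = f → dir d = dir d' → (dir d = 1 ∨ dir d = 3) →
    d ≠ d' → max (y (M.tail d)) (y (M.head d)) ≤ min (y (M.tail d')) (y (M.head d')) ∨
      max (y (M.tail d')) (y (M.head d')) ≤ min (y (M.tail d)) (y (M.head d))
  cover_x : ∀ (q : ℝ) (δ : ZMod 4), (δ = 0 ∨ δ = 2) → (xl : ℝ) ≤ q → q < xr →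
    ∃ d, M.left d = f ∧ dir d = δ ∧
      ((min (x (M.tail d)) (x (M.head d)) : ℤ) : ℝ) ≤ q ∧
      q < ((max (x (M.tail d)) (x (M.head d)) : ℤ) : ℝ)
  cover_y : ∀ (q : ℝ) (δ : ZMod 4), (δ = 1 ∨ δ = 3) → (yb : ℝ) ≤ q → q < yt →
    ∃ d, M.left d = f ∧ dir d = δ ∧
      ((min (y (M.tail d)) (y (M.head d)) : ℤ) : ℝ) ≤ q ∧
      q < ((max (y (M.tail d)) (y (M.head d)) : ℤ) : ℝ)
  node_same : ∀ d d', M.left d = f → M.left d' = f → x (M.tail d) = x (M.tail d') →
    y (M.tail d) = y (M.tail d') → M.tail d = M.tail d'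

namespace BoxM

theorem finish (M : Flat D N F) (dir : D → ZMod 4) (x y : N → ℤ) (f : F) (ε : ZMod 4)
    (hε : ε = 0 ∨ ε = 2) (ψ : Perm D) (P : D → N) (δ : D → ZMod 4) (hδ : ∀ d, dir d = δ d + ε)
    (hP : (∀ d, M.tail d = P d ∧ M.head d = P (ψ d)) ∨ (∀ d, M.head d = P d ∧ M.tail d = P (ψ d)))
    (hinv : ∀ d, M.left (ψ d) = f ↔ M.left d = f)
    (m : ℕ) (c : ℕ → D) (S : ℕ → ℤ) (xl xr yb yt : ℤ) (h1 : ∀ d, M.left d = f → ∃ i < m, c i = d)
    (h2 : ∀ i, M.left (c i) = f) (h3 : ∀ i, c (i + 1) = ψ (c i)) (h4 : ∀ i < m, 0 ≤ S i ∧ S i ≤ 3)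
    (h5 : ∀ i < m, δ (c i) = ((S i : ℤ) : ZMod 4))
    (hB : SeqBox m S (fun i => x (P (c i))) (fun i => y (P (c i))) xl xr yb yt) :
    IsBox M dir x y f ε xl xr yb yt := by
  -- endpoints
  have hminx : ∀ d, min (x (M.tail d)) (x (M.head d)) = min (x (P d)) (x (P (ψ d))) := by
    intro d
    rcases hP with hP | hP
    · rw [(hP d).1, (hP d).2]
    · rw [(hP d).1, (hP d).2, min_comm]
  have hmaxx : ∀ d, max (x (M.tail d)) (x (M.head d)) = max (x (P d)) (x (P (ψ d))) := by
    intro d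
    rcases hP with hP | hP
    · rw [(hP d).1, (hP d).2]
    · rw [(hP d).1, (hP d).2, max_comm]
  have hminy : ∀ d, min (y (M.tail d)) (y (M.head d)) = min (y (P d)) (y (P (ψ d))) := by
    intro d
    rcases hP with hP | hP
    · rw [(hP d).1, (hP d).2]
    · rw [(hP d).1, (hP d).2, min_comm]
  have hmaxy : ∀ d, max (y (M.tail d)) (y (M.head d)) = max (y (P d)) (y (P (ψ d))) := by
    intro d
    rcases hP with hP | hP
    · rw [(hP d).1, (hP d).2]
    · rw [(hP d).1, (hP d).2, max_comm]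
  -- directions
  have hdir : ∀ i < m, ∀ k : ℤ, 0 ≤ k ∧ k ≤ 3 → (dir (c i) = (k : ZMod 4) + ε ↔ S i = k) := by
    intro i hi k hk
    rw [hδ, h5 i hi]
    constructor
    · intro h
      exact cast_inj4 (h4 i hi) hk (add_right_cancel h)
    · intro h
      rw [h]
  have q0 : ∀ i < m, dir (c i) = 0 + ε → S i = 0 := fun i hi h =>
    (hdir i hi 0 (by norm_num)).1 (by rw [h]; norm_num)
  have q1 : ∀ i < m, dir (c i) = 1 + ε → S i = 1 := fun i hi h =>
    (hdir i hi 1 (by norm_num)).1 (by rw [h]; norm_num)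
  have q2 : ∀ i < m, dir (c i) = 2 + ε → S i = 2 := fun i hi h =>
    (hdir i hi 2 (by norm_num)).1 (by rw [h]; norm_num)
  have q3 : ∀ i < m, dir (c i) = 3 + ε → S i = 3 := fun i hi h =>
    (hdir i hi 3 (by norm_num)).1 (by rw [h]; norm_num)
  have p0 : ∀ i < m, S i = 0 → dir (c i) = 0 + ε := fun i hi h => by
    rw [(hdir i hi 0 (by norm_num)).2 h]; norm_num
  have p1 : ∀ i < m, S i = 1 → dir (c i) = 1 + ε := fun i hi h => by
    rw [(hdir i hi 1 (by norm_num)).2 h]; norm_num
  have p2 : ∀ i < m, S i = 2 → dir (c i) = 2 + ε := fun i hi h => by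
    rw [(hdir i hi 2 (by norm_num)).2 h]; norm_num
  have p3 : ∀ i < m, S i = 3 → dir (c i) = 3 + ε := fun i hi h => by
    rw [(hdir i hi 3 (by norm_num)).2 h]; norm_num
  have z4 : (2 : ZMod 4) + 2 = 0 := by decide
  have z5 : (3 : ZMod 4) + 2 = 1 := by decide
  have z6 : (1 : ZMod 4) + 2 = 3 := by decide
  have e0 : ∀ i < m, dir (c i) = 0 → S i = 0 ∨ S i = 2 := by
    intro i hi h
    rcases hε with rfl | rfl
    · left; exact q0 i hi (by rw [h]; simp)
    · right; exact q2 i hi (by rw [h, z4])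
  have e2 : ∀ i < m, dir (c i) = 2 → S i = 0 ∨ S i = 2 := by
    intro i hi h
    rcases hε with rfl | rfl
    · right; exact q2 i hi (by rw [h]; simp)
    · left; exact q0 i hi (by rw [h]; simp)
  have e1 : ∀ i < m, dir (c i) = 1 → S i = 1 ∨ S i = 3 := by
    intro i hi h
    rcases hε with rfl | rfl
    · left; exact q1 i hi (by rw [h]; simp)
    · right; exact q3 i hi (by rw [h, z5])
  have e3 : ∀ i < m, dir (c i) = 3 → S i = 1 ∨ S i = 3 := by
    intro i hi h
    rcases hε with rfl | rfl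
    · right; exact q3 i hi (by rw [h]; simp)
    · left; exact q1 i hi (by rw [h, z6])
  have heq : ∀ i < m, ∀ j < m, dir (c i) = dir (c j) → S i = S j := by
    intro i hi j hj h
    rw [hδ, hδ, h5 i hi, h5 j hj] at h
    exact cast_inj4 (h4 i hi) (h4 j hj) (add_right_cancel h)
  have hends : ∀ d, (M.tail d = P d ∧ M.head d = P (ψ d)) ∨ (M.head d = P d ∧ M.tail d = P (ψ d)) := by
    intro d
    rcases hP with hP | hP
    · exact Or.inl (hP d)
    · exact Or.inr (hP d)
  refine ⟨hB.lt_x, hB.lt_y, ?_, ?_, ?_, ?_, ?_, ?_, ?_, ?_, ?_⟩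
  · intro d hd hdd
    obtain ⟨i, hi, rfl⟩ := h1 d hd
    have h := hB.s0 i hi (q0 i hi hdd)
    simp only [h3] at h
    rcases hends (c i) with ⟨h6, h7⟩ | ⟨h6, h7⟩ <;> rw [h6, h7] <;> refine ⟨?_, ?_, ?_, ?_, ?_, ?_⟩ <;> omega
  · intro d hd hdd
    obtain ⟨i, hi, rfl⟩ := h1 d hd
    have h := hB.s1 i hi (q1 i hi hdd)
    simp only [h3] at h
    rcases hends (c i) with ⟨h6, h7⟩ | ⟨h6, h7⟩ <;> rw [h6, h7] <;> refine ⟨?_, ?_, ?_, ?_, ?_, ?_⟩ <;> omega
  · intro d hd hdd
    obtain ⟨i, hi, rfl⟩ := h1 d hd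
    have h := hB.s2 i hi (q2 i hi hdd)
    simp only [h3] at h
    rcases hends (c i) with ⟨h6, h7⟩ | ⟨h6, h7⟩ <;> rw [h6, h7] <;> refine ⟨?_, ?_, ?_, ?_, ?_, ?_⟩ <;> omega
  · intro d hd hdd
    obtain ⟨i, hi, rfl⟩ := h1 d hd
    have h := hB.s3 i hi (q3 i hi hdd)
    simp only [h3] at h
    rcases hends (c i) with ⟨h6, h7⟩ | ⟨h6, h7⟩ <;> rw [h6, h7] <;> refine ⟨?_, ?_, ?_, ?_, ?_, ?_⟩ <;> omega
  · -- disj_x
    have key : ∀ i < m, ∀ j < m, i < j → S i = S j → (S i = 0 ∨ S i = 2) →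
        max (x (P (c i))) (x (P (ψ (c i)))) ≤ min (x (P (c j))) (x (P (ψ (c j)))) ∨
        max (x (P (c j))) (x (P (ψ (c j)))) ≤ min (x (P (c i))) (x (P (ψ (c i)))) := by
      intro i hi j hj hij hS h
      rcases h with h | h
      · left
        have a1 := hB.d0 i hi j hj hij h (by omega)
        have a2 := hB.s0 i hi h
        have a3 := hB.s0 j hj (by omega)
        simp only [h3] at a1 a2 a3
        rw [max_le_iff, le_min_iff, le_min_iff]
        omega
      · right
        have a1 := hB.d2 i hi j hj hij h (by omega)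
        have a2 := hB.s2 i hi h
        have a3 := hB.s2 j hj (by omega)
        simp only [h3] at a1 a2 a3
        rw [max_le_iff, le_min_iff, le_min_iff]
        omega
    intro d d' hd hd' hdd hc hne
    obtain ⟨i, hi, rfl⟩ := h1 d hd
    obtain ⟨j, hj, rfl⟩ := h1 d' hd'
    have hS := heq i hi j hj hdd
    have hc' : S i = 0 ∨ S i = 2 := by
      rcases hc with hc | hc
      · exact e0 i hi hc
      · exact e2 i hi hc
    rw [hminx, hminx, hmaxx, hmaxx]
    rcases lt_trichotomy i j with h | h | h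
    · exact key i hi j hj h hS hc'
    · exact absurd (by rw [h]) hne
    · exact (key j hj i hi h hS.symm (by rw [← hS]; exact hc')).symm
  · -- disj_y
    have key : ∀ i < m, ∀ j < m, i < j → S i = S j → (S i = 1 ∨ S i = 3) →
        max (y (P (c i))) (y (P (ψ (c i)))) ≤ min (y (P (c j))) (y (P (ψ (c j)))) ∨
        max (y (P (c j))) (y (P (ψ (c j)))) ≤ min (y (P (c i))) (y (P (ψ (c i)))) := by
      intro i hi j hj hij hS h
      rcases h with h | h
      · left
        have a1 := hB.d1 i hi j hj hij h (by omega)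
        have a2 := hB.s1 i hi h
        have a3 := hB.s1 j hj (by omega)
        simp only [h3] at a1 a2 a3
        rw [max_le_iff, le_min_iff, le_min_iff]
        omega
      · right
        have a1 := hB.d3 i hi j hj hij h (by omega)
        have a2 := hB.s3 i hi h
        have a3 := hB.s3 j hj (by omega)
        simp only [h3] at a1 a2 a3
        rw [max_le_iff, le_min_iff, le_min_iff]
        omega
    intro d d' hd hd' hdd hc hne
    obtain ⟨i, hi, rfl⟩ := h1 d hd
    obtain ⟨j, hj, rfl⟩ := h1 d' hd'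
    have hS := heq i hi j hj hdd
    have hc' : S i = 1 ∨ S i = 3 := by
      rcases hc with hc | hc
      · exact e1 i hi hc
      · exact e3 i hi hc
    rw [hminy, hminy, hmaxy, hmaxy]
    rcases lt_trichotomy i j with h | h | h
    · exact key i hi j hj h hS hc'
    · exact absurd (by rw [h]) hne
    · exact (key j hj i hi h hS.symm (by rw [← hS]; exact hc')).symm
  · -- cover_x
    have key0 : ∀ q : ℝ, (xl : ℝ) ≤ q → q < xr → ∃ d, M.left d = f ∧ dir d = 0 + ε ∧
        ((min (x (M.tail d)) (x (M.head d)) : ℤ) : ℝ) ≤ q ∧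
        q < ((max (x (M.tail d)) (x (M.head d)) : ℤ) : ℝ) := by
      intro q hq hq'
      obtain ⟨i, hi, hSi, hq1, hq2⟩ := hB.c0 q hq hq'
      refine ⟨c i, h2 i, p0 i hi hSi, ?_, ?_⟩
      · rw [hminx]
        push_cast
        exact (min_le_left _ _).trans hq1
      · rw [hmaxx]
        push_cast
        rw [h3] at hq2
        exact lt_max_of_lt_right hq2
    have key2 : ∀ q : ℝ, (xl : ℝ) ≤ q → q < xr → ∃ d, M.left d = f ∧ dir d = 2 + ε ∧
        ((min (x (M.tail d)) (x (M.head d)) : ℤ) : ℝ) ≤ q ∧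
        q < ((max (x (M.tail d)) (x (M.head d)) : ℤ) : ℝ) := by
      intro q hq hq'
      obtain ⟨i, hi, hSi, hq1, hq2⟩ := hB.c2 q hq hq'
      refine ⟨c i, h2 i, p2 i hi hSi, ?_, ?_⟩
      · rw [hminx]
        push_cast
        rw [h3] at hq1
        exact (min_le_right _ _).trans hq1
      · rw [hmaxx]
        push_cast
        exact lt_max_of_lt_left hq2
    intro q δ' hδ' hq hq'
    rcases hε with rfl | rfl <;> rcases hδ' with rfl | rfl
    · obtain ⟨d, a1, a2, a3⟩ := key0 q hq hq'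
      exact ⟨d, a1, by rw [a2]; simp, a3⟩
    · obtain ⟨d, a1, a2, a3⟩ := key2 q hq hq'
      exact ⟨d, a1, by rw [a2]; simp, a3⟩
    · obtain ⟨d, a1, a2, a3⟩ := key2 q hq hq'
      exact ⟨d, a1, by rw [a2, z4], a3⟩
    · obtain ⟨d, a1, a2, a3⟩ := key0 q hq hq'
      exact ⟨d, a1, by rw [a2]; simp, a3⟩
  · -- cover_y
    have key1 : ∀ q : ℝ, (yb : ℝ) ≤ q → q < yt → ∃ d, M.left d = f ∧ dir d = 1 + ε ∧
        ((min (y (M.tail d)) (y (M.head d)) : ℤ) : ℝ) ≤ q ∧
        q < ((max (y (M.tail d)) (y (M.head d)) : ℤ) : ℝ) := by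
      intro q hq hq'
      obtain ⟨i, hi, hSi, hq1, hq2⟩ := hB.c1 q hq hq'
      refine ⟨c i, h2 i, p1 i hi hSi, ?_, ?_⟩
      · rw [hminy]
        push_cast
        exact (min_le_left _ _).trans hq1
      · rw [hmaxy]
        push_cast
        rw [h3] at hq2
        exact lt_max_of_lt_right hq2
    have key3 : ∀ q : ℝ, (yb : ℝ) ≤ q → q < yt → ∃ d, M.left d = f ∧ dir d = 3 + ε ∧
        ((min (y (M.tail d)) (y (M.head d)) : ℤ) : ℝ) ≤ q ∧
        q < ((max (y (M.tail d)) (y (M.head d)) : ℤ) : ℝ) := by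
      intro q hq hq'
      obtain ⟨i, hi, hSi, hq1, hq2⟩ := hB.c3 q hq hq'
      refine ⟨c i, h2 i, p3 i hi hSi, ?_, ?_⟩
      · rw [hminy]
        push_cast
        rw [h3] at hq1
        exact (min_le_right _ _).trans hq1
      · rw [hmaxy]
        push_cast
        exact lt_max_of_lt_left hq2
    intro q δ' hδ' hq hq'
    rcases hε with rfl | rfl <;> rcases hδ' with rfl | rfl
    · obtain ⟨d, a1, a2, a3⟩ := key1 q hq hq'
      exact ⟨d, a1, by rw [a2]; simp, a3⟩
    · obtain ⟨d, a1, a2, a3⟩ := key3 q hq hq'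
      exact ⟨d, a1, by rw [a2]; simp, a3⟩
    · obtain ⟨d, a1, a2, a3⟩ := key3 q hq hq'
      exact ⟨d, a1, by rw [a2, z5], a3⟩
    · obtain ⟨d, a1, a2, a3⟩ := key1 q hq hq'
      exact ⟨d, a1, by rw [a2, z6], a3⟩
  · -- node_same
    have key : ∀ d d', M.left d = f → M.left d' = f → x (P d) = x (P d') → y (P d) = y (P d') →
        d = d' := by
      intro d d' hd hd' hx hy
      obtain ⟨i, hi, rfl⟩ := h1 d hd
      obtain ⟨j, hj, rfl⟩ := h1 d' hd'
      rw [hB.inj i hi j hj hx hy]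
    intro d d' hd hd' hx hy
    rcases hP with hP | hP
    · rw [(hP d).1, (hP d').1] at hx hy
      rw [key d d' hd hd' hx hy]
    · rw [(hP d).2, (hP d').2] at hx hy
      have := key (ψ d) (ψ d') ((hinv d).2 hd) ((hinv d').2 hd') hx hy
      rw [ψ.injective this]

end BoxM

theorem exists_box (M : Flat D N F) (hF : M.Framed)
    (hR : ∀ d, M.left d ≠ M.outer → 0 ≤ M.turn d) (dir : D → ZMod 4)
    (hα : ∀ d, dir (M.α d) = dir d + 2) (hφ : ∀ d, dir (M.φ d) = dir d + (M.turn d : ZMod 4))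
    (x y : N → ℤ) (hx0 : ∀ d, dir d = 0 → x (M.tail d) < x (M.head d))
    (hx1 : ∀ d, dir d = 1 → x (M.tail d) = x (M.head d))
    (hy1 : ∀ d, dir d = 1 → y (M.tail d) < y (M.head d))
    (hy2 : ∀ d, dir d = 2 → y (M.tail d) = y (M.head d)) (f : F) :
    ∃ xl xr yb yt : ℤ, IsBox M dir x y f (if f = M.outer then 2 else 0) xl xr yb yt := by
  classical
  have ht : ∀ d, M.tail (M.α d) = M.head d := fun _ => rfl
  have hh : ∀ d, M.head (M.α d) = M.tail d := fun d => M.toCell.head_α d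
  have hy0 : ∀ d, dir d = 0 → y (M.tail d) = y (M.head d) := by
    intro d hd
    have := hy2 (M.α d) (by rw [hα, hd]; decide)
    rw [ht, hh] at this
    exact this.symm
  have hx2 : ∀ d, dir d = 2 → x (M.head d) < x (M.tail d) := by
    intro d hd
    have := hx0 (M.α d) (by rw [hα, hd]; decide)
    rwa [ht, hh] at this
  have hx3 : ∀ d, dir d = 3 → x (M.tail d) = x (M.head d) := by
    intro d hd
    have := hx1 (M.α d) (by rw [hα, hd]; decide)
    rw [ht, hh] at this
    exact this.symm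
  have hy3 : ∀ d, dir d = 3 → y (M.head d) < y (M.tail d) := by
    intro d hd
    have := hy1 (M.α d) (by rw [hα, hd]; decide)
    rwa [ht, hh] at this
  have hsame : ∀ d ∈ (univ.filter (fun d => M.left d = f) : Finset D),
      ∀ d' ∈ (univ.filter (fun d => M.left d = f) : Finset D), M.φ.SameCycle d d' := by
    intro d hd d' hd'
    rw [mem_filter] at hd hd'
    exact M.tight.left_same d d' (hd.2.trans hd'.2.symm)
  have hleft : ∀ d, M.left (M.φ.symm d) = M.left d := by
    intro d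
    rw [← M.left_φ (M.φ.symm d), Equiv.apply_symm_apply]
  by_cases hfo : f = M.outer
  · rw [if_pos hfo]
    have hhead : ∀ d, M.head (M.φ.symm d) = M.tail d := by
      intro d
      have := M.tail_φ (M.φ.symm d)
      rw [Equiv.apply_symm_apply] at this
      exact this.symm
    obtain ⟨m, c, S, xl, xr, yb, yt, h1, h2, h3, h4, h5, hB⟩ := BoxM.cycle_box M.φ.symm
      (univ.filter (fun d => M.left d = f)) (by
        intro d hd
        rw [mem_filter] at hd ⊢
        exact ⟨mem_univ _, by rw [hleft]; exact hd.2⟩) (by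
        intro d hd d' hd'
        exact (hsame d hd d' hd').inv)
      (fun d => - M.turn (M.φ.symm d)) (by
        intro d hd
        rw [mem_filter] at hd
        have a1 := hF (M.φ.symm d) (by rw [hleft, hd.2, hfo])
        have a2 := M.turn_mem (M.φ.symm d)
        show - M.turn (M.φ.symm d) = 0 ∨ - M.turn (M.φ.symm d) = 1
        omega) (by
        have a1 := M.face_sum f
        rw [if_pos hfo] at a1
        rw [sum_neg_distrib]
        have a2 : ∑ d with M.left d = f, M.turn (M.φ.symm d) = ∑ d with M.left d = f, M.turn d := by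
          rw [sum_filter, sum_filter, ← Equiv.sum_comp M.φ]
          apply sum_congr rfl
          intro d _
          rw [M.left_φ, Equiv.symm_apply_apply]
        rw [a2, a1]
        norm_num)
      (fun d => dir d + 2) (by
        intro d hd
        have a1 := hφ (M.φ.symm d)
        rw [Equiv.apply_symm_apply] at a1
        show dir (M.φ.symm d) + 2 = dir d + 2 + ((- M.turn (M.φ.symm d) : ℤ) : ZMod 4)
        rw [a1]
        push_cast
        ring)
      (fun d => x (M.head d)) (fun d => y (M.head d)) (by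
        intro d hd h
        have h' : dir d = 2 := by
          have : ∀ z : ZMod 4, z + 2 = 0 → z = 2 := by decide
          exact this _ h
        simp only [hhead]
        exact ⟨hx2 d h', (hy2 d h').symm⟩) (by
        intro d hd h
        have h' : dir d = 3 := by
          have : ∀ z : ZMod 4, z + 2 = 1 → z = 3 := by decide
          exact this _ h
        simp only [hhead]
        exact ⟨(hx3 d h').symm, hy3 d h'⟩) (by
        intro d hd h
        have h' : dir d = 0 := by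
          have : ∀ z : ZMod 4, z + 2 = 2 → z = 0 := by decide
          exact this _ h
        simp only [hhead]
        exact ⟨hx0 d h', (hy0 d h').symm⟩) (by
        intro d hd h
        have h' : dir d = 1 := by
          have : ∀ z : ZMod 4, z + 2 = 3 → z = 1 := by decide
          exact this _ h
        simp only [hhead]
        exact ⟨(hx1 d h').symm, hy1 d h'⟩)
    refine ⟨xl, xr, yb, yt, BoxM.finish M dir x y f 2 (Or.inr rfl) M.φ.symm (fun d => M.head d)
      (fun d => dir d + 2) ?_ (Or.inr fun d => ⟨rfl, (hhead d).symm⟩) (fun d => by rw [hleft]) m c S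
      xl xr yb yt ?_ ?_ h3 h4 h5 hB⟩
    · intro d
      have : ∀ z : ZMod 4, z = z + 2 + 2 := by decide
      exact this _
    · intro d hd
      exact h1 d (by rw [mem_filter]; exact ⟨mem_univ _, hd⟩)
    · intro i
      exact (mem_filter.1 (h2 i)).2
  · rw [if_neg hfo]
    have htail : ∀ d, M.tail (M.φ d) = M.head d := fun d => M.tail_φ d
    obtain ⟨m, c, S, xl, xr, yb, yt, h1, h2, h3, h4, h5, hB⟩ := BoxM.cycle_box M.φ
      (univ.filter (fun d => M.left d = f)) (by
        intro d hd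
        rw [mem_filter] at hd ⊢
        exact ⟨mem_univ _, by rw [M.left_φ]; exact hd.2⟩) hsame
      (fun d => M.turn d) (by
        intro d hd
        rw [mem_filter] at hd
        have a1 := hR d (by rw [hd.2]; exact hfo)
        have a2 := M.turn_mem d
        show M.turn d = 0 ∨ M.turn d = 1
        omega) (by
        have a1 := M.face_sum f
        rw [if_neg hfo] at a1
        exact a1)
      (fun d => dir d) (by
        intro d hd
        exact hφ d)
      (fun d => x (M.tail d)) (fun d => y (M.tail d)) (by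
        intro d hd h
        simp only [htail]
        exact ⟨hx0 d h, hy0 d h⟩) (by
        intro d hd h
        simp only [htail]
        exact ⟨hx1 d h, hy1 d h⟩) (by
        intro d hd h
        simp only [htail]
        exact ⟨hx2 d h, hy2 d h⟩) (by
        intro d hd h
        simp only [htail]
        exact ⟨hx3 d h, hy3 d h⟩)
    refine ⟨xl, xr, yb, yt, BoxM.finish M dir x y f 0 (Or.inl rfl) M.φ (fun d => M.tail d)
      (fun d => dir d) ?_ (Or.inl fun d => ⟨rfl, (htail d).symm⟩) (fun d => by rw [M.left_φ]) m c S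
      xl xr yb yt ?_ ?_ h3 h4 h5 hB⟩
    · intro d
      simp
    · intro d hd
      exact h1 d (by rw [mem_filter]; exact ⟨mem_univ _, hd⟩)
    · intro i
      exact (mem_filter.1 (h2 i)).2

end

end Pool.Agent.Lib.MP_9ad789_co
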