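import Pool.Agent.Lib.MP_9ad789_co.Geo

/-!
# MP_9ad789_co : cell decompositions of closed oriented surfaces, flat maps, drawings (definitions)
-/

namespace Pool.Agent.Lib.MP_9ad789_co

open Equiv Finset

/-- A connected cell decomposition of a closed oriented surface. `D` darts (directed edges),
`N` nodes, `F` faces; `α` reverses a dart, `φ d` is the dart after `d` on the boundary of the face
`left d` to the left of `d`, `tail d` is the start of `d`. -/
structure Cell (D N F : Type) where
  α : Perm D
  φ : Perm D
  tail : D → N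
  left : D → F
  α_α : ∀ d, α (α d) = d
  α_ne : ∀ d, α d ≠ d
  tail_φ : ∀ d, tail (φ d) = tail (α d)
  left_φ : ∀ d, left (φ d) = left d
  tail_surj : Function.Surjective tail
  left_surj : Function.Surjective left
  conn : ∀ S : Set D, S.Nonempty → (∀ d ∈ S, α d ∈ S) → (∀ d ∈ S, φ d ∈ S) → S = Set.univ

namespace Cell

variable {D N F : Type} (C : Cell D N F)

/-- The next dart counterclockwise around the same node: `σ (φ d) = α d`, `σ d = α (φ⁻¹ d)`. The
corner between `d` and `σ d` belongs to the face `left d`. -/
def σ : Perm D := C.φ.symm.trans C.α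

@[simp] theorem σ_φ (d : D) : C.σ (C.φ d) = C.α d := by simp [σ]

theorem σ_apply (d : D) : C.σ d = C.α (C.φ.symm d) := rfl

/-- The end of a dart. -/
def head (d : D) : N := C.tail (C.α d)

/-- The face to the right of a dart. -/
def right (d : D) : F := C.left (C.α d)

theorem tail_σ (d : D) : C.tail (C.σ d) = C.tail d := by
  rw [σ_apply, ← C.tail_φ, Equiv.apply_symm_apply]

theorem left_α_σ (d : D) : C.left (C.α (C.σ d)) = C.left d := by
  rw [σ_apply, C.α_α, ← C.left_φ (C.φ.symm d), Equiv.apply_symm_apply]

theorem right_σ (d : D) : C.right (C.σ d) = C.left d := C.left_α_σ d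

theorem head_α (d : D) : C.head (C.α d) = C.tail d := by rw [head, C.α_α]

theorem tail_α (d : D) : C.tail (C.α d) = C.head d := rfl

theorem right_α (d : D) : C.right (C.α d) = C.left d := by rw [right, C.α_α]

theorem tail_φ' (d : D) : C.tail (C.φ d) = C.head d := C.tail_φ d

theorem σ_φ_α (d : D) : C.σ (C.φ (C.α d)) = d := by rw [σ_φ, C.α_α]

theorem φ_α (d : D) : C.φ (C.α d) = C.σ.symm d := by
  rw [Equiv.eq_symm_apply, σ_φ_α]

/-- Graph on the nodes. -/
def NG : SimpleGraph N where
  Adj n m := n ≠ m ∧ ∃ d, C.tail d = n ∧ C.head d = m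
  symm := ⟨by
    rintro n m ⟨h1, d, hd, hd'⟩
    exact ⟨h1.symm, C.α d, hd', by rw [head_α, hd]⟩⟩
  loopless := ⟨fun _ h => h.1 rfl⟩

/-- Euler characteristic 2. -/
def Planar (_C : Cell D N F) [Fintype D] [Fintype N] [Fintype F] : Prop :=
  2 * Fintype.card N + 2 * Fintype.card F = Fintype.card D + 4

/-- Nodes and faces are single cycles. -/
structure Tight : Prop where
  tail_same : ∀ d d', C.tail d = C.tail d' → C.σ.SameCycle d d'
  left_same : ∀ d d', C.left d = C.left d' → C.φ.SameCycle d d'

/-- The graph on nodes and faces: two nodes are adjacent if joined by an edge, a node and a face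
if the node has a corner in the face. (It is drawn in the same surface.) -/
def TG : SimpleGraph (N ⊕ F) where
  Adj x y := match x, y with
    | .inl n, .inl m => n ≠ m ∧ ∃ d, C.tail d = n ∧ C.head d = m
    | .inl n, .inr f => ∃ d, C.tail d = n ∧ C.left d = f
    | .inr f, .inl n => ∃ d, C.tail d = n ∧ C.left d = f
    | .inr _, .inr _ => False
  symm := ⟨by
    rintro (n | f) (m | g) h
    · obtain ⟨h1, d, hd, hd'⟩ := h
      exact ⟨h1.symm, C.α d, hd', by simpa [head, C.α_α] using hd⟩
    · exact h
    · exact h
    · exact h⟩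
  loopless := ⟨by
    rintro (n | f) h
    · exact h.1 rfl
    · exact h⟩

section OneP

variable (isX : N → Prop) [DecidablePred isX]

/-- The other end of the edge of the 1-plane graph, for a dart `d` which starts at a real vertex
(`isX` = crossings). -/
def opp (d : D) : D := if isX (C.head d) then C.α (C.σ (C.σ (C.α d))) else C.α d

/-- `C` is the planarisation of a 3-connected simple 1-plane graph with set of crossings `isX`. -/
structure OneP [Fintype D] [Fintype N] [Fintype F] [DecidableEq N] : Prop where
  planar : C.Planar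
  tight : C.Tight
  x_real : ∀ d, isX (C.tail d) → ¬ isX (C.head d)
  x_four : ∀ d, isX (C.tail d) → C.σ (C.σ (C.σ (C.σ d))) = d
  x_two : ∀ d, isX (C.tail d) → C.σ (C.σ d) ≠ d
  /-- adjacent edges do not cross -/
  x_adj : ∀ d, isX (C.tail d) → C.head (C.σ d) ≠ C.head d
  no_loop : ∀ d, ¬ isX (C.tail d) → C.tail (C.opp isX d) ≠ C.tail d
  no_multi : ∀ d d', ¬ isX (C.tail d) → ¬ isX (C.tail d') → C.tail d = C.tail d' →
    C.tail (C.opp isX d) = C.tail (C.opp isX d') → d = d'
  conn3 : ∀ Y S : Finset N, Y.Nonempty → (∀ n ∈ Y, ¬ isX n) → S.card ≤ 2 →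
    (∀ d, C.tail d ∈ Y → C.tail (C.opp isX d) ∈ Y ∨ C.tail (C.opp isX d) ∈ S) →
    ∀ n, ¬ isX n → n ∈ Y ∨ n ∈ S
  card4 : 4 ≤ (univ.filter (fun n => ¬ isX n)).card

end OneP

section Hall

variable [Fintype D] [Fintype N] [Fintype F] [DecidableEq D] [DecidableEq N] [DecidableEq F]
variable (isX : N → Prop) [DecidablePred isX]

/-- The faces at the vertices of `A`. -/
def facesOf (A : Finset N) : Finset F := univ.filter (fun f => ∃ d, C.tail d ∈ A ∧ C.left d = f)

/-- The real vertices outside `A` on a face at `A`. -/
def bdry (A : Finset N) : Finset N :=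
  univ.filter (fun n => ¬ isX n ∧ n ∉ A ∧ ∃ d, C.tail d = n ∧ C.left d ∈ C.facesOf A)

/-- Required number of convex minus reflex corners in the face `f`: twice the number of real
corners plus the number of crossing corners minus 4, and 8 more for the outer face `o`. -/
def demand (o f : F) : ℤ :=
  (∑ d with C.left d = f, if isX (C.tail d) then (1 : ℤ) else 2) - 4 + if f = o then 8 else 0

/-- The excess of a set of real vertices. -/
def excess (o : F) (A : Finset N) : ℤ := 4 * A.card - ∑ f ∈ C.facesOf A, C.demand isX o f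

/-- `A` is connected by means of common faces. -/
def FaceConn (A : Finset N) : Prop :=
  ∀ B ⊆ A, B.Nonempty →
    (∀ d d', C.tail d ∈ B → C.tail d' ∈ A → C.left d = C.left d' → C.tail d' ∈ B) → B = A

/-- Number of corners at the node `n` in faces of `S`. -/
def cornersIn (S : Finset F) (n : N) : ℕ := (univ.filter (fun d => C.tail d = n ∧ C.left d ∈ S)).card

/-- A block of type T: at least three boundary vertices, all edges leaving it end there, every
crossing with a corner in its faces has at least three such corners. -/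
structure TypeT (A : Finset N) : Prop where
  bd : 3 ≤ (C.bdry isX A).card
  nb : ∀ d, C.tail d ∈ A → C.tail (C.opp isX d) ∈ A ∨ C.tail (C.opp isX d) ∈ C.bdry isX A
  cr : ∀ n, isX n → C.cornersIn (C.facesOf A) n ≠ 0 → 3 ≤ C.cornersIn (C.facesOf A) n

/-- A block of type B: the boundary vertices are the ends `u = head (σ² e)`, `v = head e` of an
edge which is crossed (crossing `tail e`) by the edge joining `head (σ e) ∈ A` and
`w = head (σ³ e) ∉ A`, and this edge is the only one which leaves `A ∪ {u, v}`. -/
structure TypeB (A : Finset N) (e : D) : Prop where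
  x : isX (C.tail e)
  in0 : C.left e ∈ C.facesOf A
  in1 : C.left (C.σ e) ∈ C.facesOf A
  out2 : C.left (C.σ (C.σ e)) ∉ C.facesOf A
  out3 : C.left (C.σ (C.σ (C.σ e))) ∉ C.facesOf A
  a_mem : C.head (C.σ e) ∈ A
  w_not : C.head (C.σ (C.σ (C.σ e))) ∉ A
  u_ne_v : C.head (C.σ (C.σ e)) ≠ C.head e
  bd : C.bdry isX A = {C.head (C.σ (C.σ e)), C.head e}
  nb : ∀ d, C.tail d ∈ A → C.tail (C.opp isX d) ∈ A ∨ C.tail (C.opp isX d) ∈ C.bdry isX A ∨
    C.tail (C.opp isX d) = C.head (C.σ (C.σ (C.σ e)))
  cr : ∀ n, isX n → n ≠ C.tail e → C.cornersIn (C.facesOf A) n ≠ 0 →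
    3 ≤ C.cornersIn (C.facesOf A) n

/-- The set of nodes and faces belonging to a block. -/
def blockSet (A : Finset N) : Set (N ⊕ F) :=
  {x | (∃ n ∈ A, x = .inl n) ∨ ∃ f ∈ C.facesOf A, x = .inr f}

end Hall

end Cell

/-- A flat map: a cell decomposition of the sphere with right angled corners. `turn d` is the
turn to the left (in quarter turns) at the end of `d`, walking with the face `left d` on the left;
the angle of the corner of `d` (between `d` and `σ d`) is `2 - turn (φ⁻¹ d)` quarter turns. -/
structure Flat (D N F : Type) [Fintype D] [DecidableEq N] [DecidableEq F] extends Cell D N F where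
  turn : D → ℤ
  outer : F
  tight : toCell.Tight
  turn_mem : ∀ d, turn d = -1 ∨ turn d = 0 ∨ turn d = 1
  face_sum : ∀ f, ∑ d with left d = f, turn d = if f = outer then -4 else 4
  node_sum : ∀ n, ∑ d with tail d = n, (2 - turn (φ.symm d)) = 4

namespace Flat

variable {D N F : Type} [Fintype D] [DecidableEq N] [DecidableEq F] (M : Flat D N F)

/-- The angle of the corner between `d` and `σ d`. -/
def ang (d : D) : ℤ := 2 - M.turn (M.φ.symm d)

/-- The outer face has no convex corner (seen from the outer face): it is the outside of a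
rectangle. -/
def Framed : Prop := ∀ d, M.left d = M.outer → M.turn d ≤ 0

end Flat

/-- A drawing of a flat map in the plane with horizontal and vertical edges. -/
structure Draw {D N F : Type} [Fintype D] [DecidableEq N] [DecidableEq F] (M : Flat D N F) where
  dir : D → ZMod 4
  pos : N → ℝ × ℝ
  dir_α : ∀ d, dir (M.α d) = dir d + 2
  dir_φ : ∀ d, dir (M.φ d) = dir d + (M.turn d : ZMod 4)
  len : ∀ d, ∃ l : ℝ, 0 < l ∧ pos (M.head d) = pos (M.tail d) + l • unit (dir d)

namespace Draw

variable {D N F : Type} [Fintype D] [DecidableEq N] [DecidableEq F] {M : Flat D N F} (P : Draw M)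

/-- The open segment representing the edge of `d`. -/
def seg (d : D) : Set (ℝ × ℝ) := openSegment ℝ (P.pos (M.tail d)) (P.pos (M.head d))

/-- Winding number of the boundary of the face `f` around `q` (upward ray). As function of `q`
this is the indicator function of the face, with left and bottom boundary included. -/
noncomputable def wind (f : F) (q : ℝ × ℝ) : ℤ :=
  ∑ d with M.left d = f,
    ((if P.dir d = 2 ∧ (P.pos (M.head d)).1 ≤ q.1 ∧ q.1 < (P.pos (M.tail d)).1 ∧
          q.2 < (P.pos (M.tail d)).2 then 1 else 0) -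
     (if P.dir d = 0 ∧ (P.pos (M.tail d)).1 ≤ q.1 ∧ q.1 < (P.pos (M.head d)).1 ∧
          q.2 < (P.pos (M.tail d)).2 then 1 else 0))

/-- The drawing is an embedding in the plane. -/
structure Good : Prop where
  inj : Function.Injective P.pos
  node_seg : ∀ n d, P.pos n ∉ P.seg d
  seg_seg : ∀ d d', d' ≠ d → d' ≠ M.α d → Disjoint (P.seg d) (P.seg d')
  wind_01 : ∀ f, f ≠ M.outer → ∀ q, P.wind f q = 0 ∨ P.wind f q = 1
  wind_unique : ∀ f f' q, f ≠ M.outer → f' ≠ M.outer → P.wind f q = 1 → P.wind f' q = 1 → f = f'
  wind_node : ∀ f n, f ≠ M.outer → P.wind f (P.pos n) = 1 → ∃ d, M.tail d = n ∧ M.left d = f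
  wind_seg : ∀ f d, f ≠ M.outer → ∀ q ∈ P.seg d, P.wind f q = 1 → f = M.left d ∨ f = M.right d

end Draw

/-- `M` can be drawn. -/
def Drawable {D N F : Type} [Fintype D] [DecidableEq N] [DecidableEq F] (M : Flat D N F) : Prop :=
  ∃ P : Draw M, P.Good

/-! ### The planarisation of an `XMap` as a cell decomposition -/

namespace XMap

variable {V R : Type} (X : XMap V R)

/-- Connectedness of the graph (and no isolated vertices). -/
structure Conn : Prop where
  vert_surj : Function.Surjective X.vert
  nonempty : Nonempty R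
  conn : ∀ S : Set R, S.Nonempty → (∀ d ∈ S, X.rot d ∈ S) → (∀ d ∈ S, X.opp d ∈ S) → S = Set.univ

/-- The crossings: classes of crossed edge-ends `d`, each with 4 elements. -/
def crossSetoid : Setoid {d : R // X.Crossed d} where
  r := Relation.EqvGen (fun a b => (b : R) = X.crsGet a)
  iseqv := Relation.EqvGen.is_equivalence _

/-- The type of crossings. -/
def XN : Type := Quotient X.crossSetoid

/-- The crossing on the edge of `d`. -/
def xn (d : {d : R // X.Crossed d}) : X.XN := Quotient.mk X.crossSetoid d

/-- Node at the start of a dart of the planarisation. -/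
def ptail : X.PD → V ⊕ X.XN
  | .inl d => .inl (X.vert d)
  | .inr d => .inr (X.xn d)

/-! ### Expansion of the vertices to polygons -/

/-- Sides of the polygons: `⟨d, i⟩` is the side which starts at the end of `d` (`i = 0`) or at the
`i`-th corner after it. -/
abbrev Side (_X : XMap V R) (s : R → ℤ) : Type := Σ d : R, Fin ((s d).natAbs + 1)

variable (s : R → ℤ)

/-- The next side in counterclockwise order. -/
def sideNext (y : X.Side s) : X.Side s :=
  if h : (y.2 : ℕ) < (s y.1).natAbs then ⟨y.1, ⟨y.2 + 1, by omega⟩⟩ else ⟨X.rot y.1, 0⟩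

/-- Darts of the expanded map: darts of the planarisation, and for every side the dart
`(y, false)` in counterclockwise direction (polygon on the left) and `(y, true)` (clockwise). -/
abbrev ED (X : XMap V R) (s : R → ℤ) : Type := X.PD ⊕ X.Side s × Bool

/-- Nodes of the expanded map: starting points of sides, and crossings. -/
abbrev EN (X : XMap V R) (s : R → ℤ) : Type := X.Side s ⊕ X.XN

/-- Faces of the expanded map: polygons and faces of the planarisation. -/
abbrev EF (X : XMap V R) (_s : R → ℤ) : Type := V ⊕ X.Face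

/-- Reversal in the expanded map. -/
def eα : X.ED s → X.ED s
  | .inl x => .inl (X.rev x)
  | .inr (y, b) => .inr (y, !b)

/-- Face successor in the expanded map. -/
def eφ : X.ED s → X.ED s
  | .inl x => match X.next x with
    | .inl d => .inr (⟨d, Fin.last _⟩, true)
    | .inr d => .inl (.inr d)
  | .inr (y, false) => .inr (X.sideNext s y, false)
  | .inr (⟨d, i⟩, true) => if h : (i : ℕ) = 0 then .inl (.inl d)
      else .inr (⟨d, ⟨i - 1, by omega⟩⟩, true)

/-- Start of a dart of the expanded map. -/
def etail : X.ED s → X.EN s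
  | .inl (.inl d) => .inl ⟨d, 0⟩
  | .inl (.inr d) => .inr (X.xn d)
  | .inr (y, false) => .inl y
  | .inr (y, true) => .inl (X.sideNext s y)

/-- Face to the left in the expanded map. -/
def eleft : X.ED s → X.EF s
  | .inl x => .inr (X.face x)
  | .inr (y, false) => .inl (X.vert y.1)
  | .inr (y, true) => .inr (X.face (.inl y.1))

/-- Turns in the expanded map. -/
def eturn : X.ED s → ℤ
  | .inl _ => 1
  | .inr (y, false) => if (y.2 : ℕ) < (s y.1).natAbs then (s y.1).sign else 0
  | .inr (y, true) => if (y.2 : ℕ) = 0 then 1 else - (s y.1).sign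

/-- `M` is the expansion of `X` by `s`, with the polygon of `inf` as outer face. -/
structure IsExpansion [Fintype (X.ED s)] [DecidableEq (X.EN s)] [DecidableEq (X.EF s)]
    (inf : V) (M : Flat (X.ED s) (X.EN s) (X.EF s)) : Prop where
  α_eq : ∀ x, M.α x = X.eα s x
  φ_eq : ∀ x, M.φ x = X.eφ s x
  tail_eq : ∀ x, M.tail x = X.etail s x
  left_eq : ∀ x, M.left x = X.eleft s x
  turn_eq : ∀ x, M.turn x = X.eturn s x
  outer_eq : M.outer = .inl inf

/-! ### Adding a vertex at infinity -/

variable [DecidableEq R]

/-- Rotation after adding a pendant edge: `inr false` is its end at `vert d0`, directly after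
`d0`, `inr true` is its end at the new vertex. -/
def addRot (d0 : R) : Perm (R ⊕ Bool) where
  toFun
    | .inl d => if d = d0 then .inr false else .inl (X.rot d)
    | .inr false => .inl (X.rot d0)
    | .inr true => .inr true
  invFun
    | .inl d => if d = X.rot d0 then .inr false else .inl (X.rot.symm d)
    | .inr false => .inl d0
    | .inr true => .inr true
  left_inv := by
    rintro (d | (_ | _))
    · by_cases h : d = d0
      · simp [h]
      · simp [h]
    · simp
    · simp
  right_inv := by
    rintro (d | (_ | _))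
    · by_cases h : d = X.rot d0
      · simp [h]
      · have : X.rot.symm d ≠ d0 := fun h' => h (by rw [← h']; simp)
        simp [h, this]
    · simp
    · simp

/-- `Y` is `X` with a pendant edge added, from the vertex `vert d0` (after `d0`) to a new vertex
`none` (at infinity). -/
structure IsAddInf (d0 : R) (Y : XMap (Option V) (R ⊕ Bool)) : Prop where
  rot : Y.rot = X.addRot d0
  vert_l : ∀ d, Y.vert (.inl d) = some (X.vert d)
  vert_f : Y.vert (.inr false) = some (X.vert d0)
  vert_t : Y.vert (.inr true) = none
  opp_l : ∀ d, Y.opp (.inl d) = .inl (X.opp d)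
  opp_r : ∀ b, Y.opp (.inr b) = .inr (!b)
  crs_l : ∀ d, Y.crs (.inl d) = (X.crs d).map .inl
  crs_r : ∀ b, Y.crs (.inr b) = none

/-- Extension of an angle assignment: four corners at infinity. -/
def addS (s : R → ℤ) : R ⊕ Bool → ℤ
  | .inl d => s d
  | .inr false => 0
  | .inr true => -4

end XMap

end Pool.Agent.Lib.MP_9ad789_co
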