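import Pool.Agent.Lib.MP_9ad789_co.H1

/-!
# Euler characteristic of a set of faces
-/

set_option linter.unusedSectionVars false

namespace Pool.Agent.Lib.MP_9ad789_co

open Equiv Finset

variable {D N F : Type} [Fintype D] [Fintype N] [Fintype F]
  [DecidableEq D] [DecidableEq N] [DecidableEq F]

open H1Aux in
theorem chi_le (C : Cell D N F) (S : Finset F) (hS : S.Nonempty)
    (hconn : ∀ T ⊆ S, T.Nonempty → (∀ d, C.left d ∈ T → C.right d ∈ S → C.right d ∈ T) → T = S)
    (hne : ∃ f, f ∉ S) :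
    2 * S.card + 2 * (univ.filter (fun n => ∀ d, C.tail d = n → C.left d ∈ S)).card ≤
      (univ.filter (fun d => C.left d ∈ S ∧ C.right d ∈ S)).card + 2 := by
  classical
  set W : Finset D := univ.filter (fun d => C.left d ∈ S ∧ C.right d ∈ S) with hWdef
  set V : Finset N := univ.filter (fun n => ∀ d, C.tail d = n → C.left d ∈ S) with hVdef
  have hW : ∀ d, d ∈ W ↔ C.left d ∈ S ∧ C.right d ∈ S := by intro d; simp [hWdef]
  have hV : ∀ n, n ∈ V ↔ ∀ d, C.tail d = n → C.left d ∈ S := by intro n; simp [hVdef]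
  have hWα : ∀ d ∈ W, C.α d ∈ W := by
    intro d hd
    rw [hW] at hd ⊢
    exact ⟨hd.2, by rw [C.right_α]; exact hd.1⟩
  have hVW : ∀ d, C.tail d ∈ V → d ∈ W := by
    intro d hd
    rw [hV] at hd
    rw [hW]
    refine ⟨hd d rfl, ?_⟩
    have h1 : C.right d = C.left (C.σ.symm d) := by
      rw [← C.right_σ (C.σ.symm d), Equiv.apply_symm_apply]
    rw [h1]
    apply hd
    rw [← C.tail_σ (C.σ.symm d), Equiv.apply_symm_apply]
  have hVW' : ∀ d, C.head d ∈ V → d ∈ W := by
    intro d hd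
    have := hWα _ (hVW (C.α d) hd)
    rwa [C.α_α] at this
  let ext1 : (S → ℚ) → F → ℚ := fun c f => if h : f ∈ S then c ⟨f, h⟩ else 0
  let ext2 : (V → ℚ) → N → ℚ := fun c f => if h : f ∈ V then c ⟨f, h⟩ else 0
  have x1 : ∀ c (f : S), ext1 c f.1 = c f := fun c f => by simp [ext1]
  have x2 : ∀ c (f : V), ext2 c f.1 = c f := fun c f => by simp [ext2]
  have x2' : ∀ c n, n ∉ V → ext2 c n = 0 := fun c n hn => by simp [ext2, hn]
  have add1 : ∀ c c' f, ext1 (c + c') f = ext1 c f + ext1 c' f := by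
    intro c c' f; simp only [ext1]; split_ifs <;> simp
  have add2 : ∀ c c' f, ext2 (c + c') f = ext2 c f + ext2 c' f := by
    intro c c' f; simp only [ext2]; split_ifs <;> simp
  have smul1 : ∀ (q : ℚ) c f, ext1 (q • c) f = q * ext1 c f := by
    intro c c' f; simp only [ext1]; split_ifs <;> simp
  have smul2 : ∀ (q : ℚ) c f, ext2 (q • c) f = q * ext2 c f := by
    intro c c' f; simp only [ext2]; split_ifs <;> simp
  let T1 : (S → ℚ) →ₗ[ℚ] (D → ℚ) :=
    { toFun := fun c d => if d ∈ W then ext1 c (C.left d) - ext1 c (C.right d) else 0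
      map_add' := fun c c' => by
        funext d; simp only [Pi.add_apply, add1]; split_ifs <;> ring
      map_smul' := fun q c => by
        funext d; simp only [Pi.smul_apply, smul_eq_mul, RingHom.id_apply, smul1]
        split_ifs <;> ring }
  let T2 : (V → ℚ) →ₗ[ℚ] (D → ℚ) :=
    { toFun := fun h d => ext2 h (C.tail d) - ext2 h (C.head d)
      map_add' := fun c c' => by funext d; simp only [Pi.add_apply, add2]; ring
      map_smul' := fun q c => by
        funext d; simp only [Pi.smul_apply, smul_eq_mul, RingHom.id_apply, smul2]; ring }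
  have e1 : ∀ c d, T1 c d = if d ∈ W then ext1 c (C.left d) - ext1 c (C.right d) else 0 :=
    fun _ _ => rfl
  have e2 : ∀ h d, T2 h d = ext2 h (C.tail d) - ext2 h (C.head d) := fun _ _ => rfl
  have k1 : ∀ c, T1 c = 0 → ∃ q : ℚ, ∀ k, c k = q := by
    intro c hc
    obtain ⟨f, hf⟩ := hS
    refine ⟨c ⟨f, hf⟩, ?_⟩
    have hT := hconn (S.filter (fun g => ext1 c g = ext1 c f)) (filter_subset _ _)
      ⟨f, mem_filter.2 ⟨hf, rfl⟩⟩ (by
        intro d hd hd'
        rw [mem_filter] at hd ⊢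
        refine ⟨hd', ?_⟩
        have h1 := congrFun hc d
        rw [e1, if_pos ((hW d).2 ⟨hd.1, hd'⟩)] at h1
        have h2 : ext1 c (C.left d) = ext1 c (C.right d) := sub_eq_zero.1 h1
        rw [← h2, hd.2])
    rintro ⟨k, hk⟩
    have h3 := hk
    rw [← hT, mem_filter] at h3
    rw [← x1 c ⟨k, hk⟩, ← x1 c ⟨f, hf⟩]
    exact h3.2
  have k2 : Function.Injective T2 := by
    rw [← LinearMap.ker_eq_bot, LinearMap.ker_eq_bot']
    intro h hh
    obtain ⟨f, hf⟩ := hne
    obtain ⟨d0, rfl⟩ := C.left_surj f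
    have hd0 : C.tail d0 ∉ V := fun hcon => hf (((hV _).1 hcon) d0 rfl)
    have hc' : ∀ d, ext2 h (C.tail d) = ext2 h (C.head d) := fun d => by
      have := congrFun hh d
      rw [e2] at this
      exact sub_eq_zero.1 this
    funext k
    obtain ⟨d, hd⟩ := C.tail_surj k.1
    have := const_of_conn C (fun d => ext2 h (C.tail d)) (fun d => (hc' d).symm)
      (fun d => by rw [C.tail_φ', hc']) d d0
    rw [hd, x2, x2' h _ hd0] at this
    exact this
  have r1 := finrank_range_ge T1 k1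
  have r2 := LinearMap.finrank_range_of_inj k2
  rw [Module.finrank_fintype_fun_eq_card] at r2
  have a1 : ∀ c d, T1 c (C.α d) = - T1 c d := by
    intro c d
    rw [e1, e1]
    by_cases hd : d ∈ W
    · rw [if_pos (hWα d hd), if_pos hd, C.right_α]
      change ext1 c (C.right d) - _ = _
      ring
    · have hd' : C.α d ∉ W := fun h => hd (by have := hWα _ h; rwa [C.α_α] at this)
      rw [if_neg hd, if_neg hd', neg_zero]
  have hP : LinearMap.range T1 ≤ AntiOn C W := by
    rintro _ ⟨c, rfl⟩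
    exact ⟨a1 c, fun d hd => by rw [e1, if_neg hd]⟩
  have hQ : LinearMap.range T2 ≤ AntiOn C W := by
    rintro _ ⟨h, rfl⟩
    refine ⟨fun d => ?_, fun d hd => ?_⟩
    · rw [e2, e2, C.head_α, C.tail_α]; ring
    · rw [e2, x2' h _ (fun h' => hd (hVW d h')), x2' h _ (fun h' => hd (hVW' d h')), sub_zero]
  have ho : ∀ p ∈ LinearMap.range T1, ∀ q ∈ LinearMap.range T2, ∑ d, p d * q d = 0 := by
    rintro _ ⟨c, rfl⟩ _ ⟨h, rfl⟩
    refine orth C (ext2 h) (T1 c) (a1 c) (fun n hn => ?_)
    have hnV : n ∈ V := by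
      by_contra hcon
      exact hn (x2' h n hcon)
    rw [← node_sum_zero C (ext1 c) n]
    refine Finset.sum_congr rfl fun d hd => ?_
    simp only [mem_filter, mem_univ, true_and] at hd
    rw [e1, if_pos (hVW d (by rw [hd]; exact hnV))]
  obtain ⟨s1, -⟩ := sup_inf C W hWα _ _ hP hQ ho
  rw [Fintype.card_coe] at r1 r2
  omega

end Pool.Agent.Lib.MP_9ad789_co
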