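import Pool.Agent.Lib.MP_9ad789_co.Cell

/-!
# MP_9ad789_co : cutting a face of a flat map by a chord
-/

set_option linter.unusedSectionVars false

namespace Pool.Agent.Lib.MP_9ad789_co

open Equiv Finset

variable {D N F : Type} [Fintype D] [Fintype N] [Fintype F]
  [DecidableEq D] [DecidableEq N] [DecidableEq F]

/-- `M'` is `M` with the chord `inr false` from the end of `a` to the end of `b = φ^k a`
(and `inr true` back) drawn in the face of `a`; the new face `none` is bounded by
`φ a, φ² a, ..., φ^k a = b` and `inr true`. -/
structure IsChord (M : Flat D N F) (a : D) (k : ℕ) (ta tb tp tp' : ℤ)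
    (M' : Flat (D ⊕ Bool) N (Option F)) : Prop where
  outer : M'.outer = some M.outer
  α_l : ∀ d, M'.α (.inl d) = .inl (M.α d)
  α_r : ∀ b, M'.α (.inr b) = .inr (!b)
  φ_a : M'.φ (.inl a) = .inr false
  φ_f : M'.φ (.inr false) = .inl (M.φ ((M.φ^[k]) a))
  φ_b : M'.φ (.inl ((M.φ^[k]) a)) = .inr true
  φ_t : M'.φ (.inr true) = .inl (M.φ a)
  φ_o : ∀ d, d ≠ a → d ≠ (M.φ^[k]) a → M'.φ (.inl d) = .inl (M.φ d)
  tail_l : ∀ d, M'.tail (.inl d) = M.tail d
  tail_f : M'.tail (.inr false) = M.head a
  tail_t : M'.tail (.inr true) = M.head ((M.φ^[k]) a)
  left_in : ∀ i, 0 < i → i ≤ k → M'.left (.inl ((M.φ^[i]) a)) = none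
  left_out : ∀ d, (∀ i, 0 < i → i ≤ k → d ≠ (M.φ^[i]) a) → M'.left (.inl d) = some (M.left d)
  left_f : M'.left (.inr false) = some (M.left a)
  left_t : M'.left (.inr true) = none
  turn_a : M'.turn (.inl a) = ta
  turn_b : M'.turn (.inl ((M.φ^[k]) a)) = tb
  turn_f : M'.turn (.inr false) = tp
  turn_t : M'.turn (.inr true) = tp'
  turn_o : ∀ d, d ≠ a → d ≠ (M.φ^[k]) a → M'.turn (.inl d) = M.turn d

namespace ChordAux

/-- reversal -/
def cα (α : Perm D) (hα : ∀ d, α (α d) = d) : Perm (D ⊕ Bool) where
  toFun
    | .inl d => .inl (α d)
    | .inr b => .inr (!b)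
  invFun
    | .inl d => .inl (α d)
    | .inr b => .inr (!b)
  left_inv := by
    rintro (d | b)
    · simp [hα]
    · simp
  right_inv := by
    rintro (d | b)
    · simp [hα]
    · simp

/-- face successor -/
def cφ (φ : Perm D) (a b : D) (hab : a ≠ b) : Perm (D ⊕ Bool) where
  toFun
    | .inl d => if d = a then .inr false else if d = b then .inr true else .inl (φ d)
    | .inr false => .inl (φ b)
    | .inr true => .inl (φ a)
  invFun
    | .inl d => if d = φ b then .inr false else if d = φ a then .inr true else .inl (φ.symm d)
    | .inr false => .inl a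
    | .inr true => .inl b
  left_inv := by
    rintro (d | (_ | _))
    · by_cases h : d = a
      · simp [h]
      · by_cases h' : d = b
        · subst h'
          simp [h]
        · simp [h, h']
    · simp
    · simp [hab]
  right_inv := by
    rintro (d | (_ | _))
    · by_cases h : d = φ b
      · simp [h]
      · by_cases h' : d = φ a
        · simp [h', hab]
        · have h1 : φ.symm d ≠ a := fun h2 => h' (by rw [← h2]; simp)
          have h2 : φ.symm d ≠ b := fun h2 => h (by rw [← h2]; simp)
          simp [h, h', h1, h2]
    · simp
    · simp [hab.symm]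

theorem sameCycle_step {E : Type} (σ : Perm E) (x : E) : σ.SameCycle x (σ x) :=
  ⟨1, by simp⟩

end ChordAux

open ChordAux in
theorem exists_chord (M : Flat D N F) (a : D) (k : ℕ) (hk : 0 < k)
    (hka : ∀ i, 0 < i → i ≤ k → (M.φ^[i]) a ≠ a) (ho : M.left a ≠ M.outer)
    (ta tb tp tp' : ℤ) (hta : ta = -1 ∨ ta = 0 ∨ ta = 1) (htb : tb = -1 ∨ tb = 0 ∨ tb = 1)
    (htp : tp = -1 ∨ tp = 0 ∨ tp = 1) (htp' : tp' = -1 ∨ tp' = 0 ∨ tp' = 1)
    (h1 : (2 - ta) + (2 - tp') = 2 - M.turn a)
    (h2 : (2 - tb) + (2 - tp) = 2 - M.turn ((M.φ^[k]) a))
    (h3 : (∑ i ∈ Icc 1 k, M.turn ((M.φ^[i]) a)) - M.turn ((M.φ^[k]) a) + tb + tp' = 4) :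
    ∃ M' : Flat (D ⊕ Bool) N (Option F), IsChord M a k ta tb tp tp' M' := by
  classical
  have hinj : ∀ i j, i < j → j ≤ k + 1 → 0 < i → (M.φ^[i]) a ≠ (M.φ^[j]) a := by
    intro i j hij hj hi h
    obtain ⟨m, rfl⟩ := Nat.exists_eq_add_of_lt hij
    have h4 : (M.φ^[i]) a = (M.φ^[i]) ((M.φ^[m + 1]) a) := by
      rw [← Function.iterate_add_apply]
      rw [h]
      rfl
    have h5 := M.φ.injective.iterate i h4
    exact hka (m + 1) (by omega) (by omega) h5.symm
  set b := (M.φ^[k]) a with hb
  set I : Finset D := (Icc 1 k).image fun i => (M.φ^[i]) a with hI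
  have memI : ∀ d, d ∈ I ↔ ∃ i, 0 < i ∧ i ≤ k ∧ d = (M.φ^[i]) a := by
    intro d
    rw [hI, mem_image]
    constructor
    · rintro ⟨i, hi, rfl⟩
      rw [mem_Icc] at hi
      exact ⟨i, by omega, by omega, rfl⟩
    · rintro ⟨i, h4, h5, rfl⟩
      exact ⟨i, mem_Icc.mpr ⟨by omega, h5⟩, rfl⟩
  have haI : a ∉ I := by
    intro h
    obtain ⟨i, h4, h5, h6⟩ := (memI a).mp h
    exact hka i h4 h5 h6.symm
  have hbI : b ∈ I := (memI b).mpr ⟨k, hk, le_rfl, rfl⟩
  have hab : a ≠ b := fun h => haI (h ▸ hbI)
  have hφa : M.φ a ∈ I := (memI _).mpr ⟨1, by omega, by omega, rfl⟩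
  have hφb : M.φ b ∉ I := by
    intro h
    obtain ⟨i, h4, h5, h6⟩ := (memI _).mp h
    apply hinj i (k + 1) (by omega) le_rfl h4
    rw [← h6, hb, Function.iterate_succ_apply']
  have hstep : ∀ d, d ≠ a → d ≠ b → (M.φ d ∈ I ↔ d ∈ I) := by
    intro d hda hdb
    constructor
    · intro h
      obtain ⟨i, h4, h5, h6⟩ := (memI _).mp h
      obtain ⟨j, rfl⟩ : ∃ j, i = j + 1 := ⟨i - 1, by omega⟩
      rw [Function.iterate_succ_apply'] at h6
      have h7 := M.φ.injective h6
      refine (memI _).mpr ⟨j, ?_, by omega, h7⟩
      rcases Nat.eq_zero_or_pos j with rfl | hj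
      · exact absurd h7 hda
      · exact hj
    · intro h
      obtain ⟨i, h4, h5, h6⟩ := (memI _).mp h
      refine (memI _).mpr ⟨i + 1, by omega, ?_, ?_⟩
      · by_contra hcon
        have : i = k := by omega
        subst this
        exact hdb h6
      · rw [Function.iterate_succ_apply', ← h6]
  have hleft : ∀ (i : ℕ) (d : D), M.left ((M.φ^[i]) d) = M.left d := by
    intro i
    induction i with
    | zero => intro d; rfl
    | succ i ih => intro d; rw [Function.iterate_succ_apply', M.left_φ, ih]
  have hleftI : ∀ d ∈ I, M.left d = M.left a := by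
    intro d hd
    obtain ⟨i, h4, h5, rfl⟩ := (memI _).mp hd
    exact hleft i a
  have hsumI : ∑ d ∈ I, M.turn d = ∑ i ∈ Icc 1 k, M.turn ((M.φ^[i]) a) := by
    rw [hI, sum_image]
    intro i hi j hj hij
    simp only [coe_Icc, Set.mem_Icc] at hi hj
    rcases lt_trichotomy i j with h | h | h
    · exact absurd hij (hinj i j h (by omega) (by omega))
    · exact h
    · exact absurd hij.symm (hinj j i h (by omega) (by omega))
  -- the data
  let α' := cα M.α M.α_α
  let φ' := cφ M.φ a b hab
  let tail' : D ⊕ Bool → N := fun x => match x with
    | .inl d => M.tail d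
    | .inr false => M.head a
    | .inr true => M.head b
  let left' : D ⊕ Bool → Option F := fun x => match x with
    | .inl d => if d ∈ I then none else some (M.left d)
    | .inr false => some (M.left a)
    | .inr true => none
  let turn' : D ⊕ Bool → ℤ := fun x => match x with
    | .inl d => if d = a then ta else if d = b then tb else M.turn d
    | .inr false => tp
    | .inr true => tp'
  have hα_l : ∀ d, α' (.inl d) = .inl (M.α d) := fun d => rfl
  have hα_r : ∀ c, α' (.inr c) = .inr (!c) := fun c => rfl
  have hφ_a : φ' (.inl a) = .inr false := if_pos rfl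
  have hφ_b : φ' (.inl b) = .inr true := by
    change (if b = a then _ else if b = b then _ else _) = _
    rw [if_neg hab.symm, if_pos rfl]
  have hφ_f : φ' (.inr false) = .inl (M.φ b) := rfl
  have hφ_t : φ' (.inr true) = .inl (M.φ a) := rfl
  have hφ_o : ∀ d, d ≠ a → d ≠ b → φ' (.inl d) = .inl (M.φ d) := by
    intro d h4 h5
    change (if d = a then _ else if d = b then _ else _) = _
    rw [if_neg h4, if_neg h5]
  have htail_l : ∀ d, tail' (.inl d) = M.tail d := fun d => rfl
  have hleft_in : ∀ d ∈ I, left' (.inl d) = none := fun d hd => if_pos hd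
  have hleft_out : ∀ d, d ∉ I → left' (.inl d) = some (M.left d) := fun d hd => if_neg hd
  have hturn_a : turn' (.inl a) = ta := if_pos rfl
  have hturn_b : turn' (.inl b) = tb := by
    change (if b = a then _ else if b = b then _ else _) = _
    rw [if_neg hab.symm, if_pos rfl]
  have hturn_o : ∀ d, d ≠ a → d ≠ b → turn' (.inl d) = M.turn d := by
    intro d h4 h5
    change (if d = a then _ else if d = b then _ else _) = _
    rw [if_neg h4, if_neg h5]
  have htail_φ : ∀ x, tail' (φ' x) = tail' (α' x) := by
    rintro (d | (_ | _))
    · by_cases h : d = a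
      · subst h
        rw [hφ_a, hα_l]
        rfl
      · by_cases h' : d = b
        · rw [h', hφ_b, hα_l]
          rfl
        · rw [hφ_o d h h', hα_l]
          exact M.tail_φ d
    · rw [hφ_f]
      exact M.tail_φ' b
    · rw [hφ_t]
      exact M.tail_φ' a
  have hleft_φ : ∀ x, left' (φ' x) = left' x := by
    rintro (d | (_ | _))
    · by_cases h : d = a
      · rw [h, hφ_a, hleft_out a haI]
      · by_cases h' : d = b
        · rw [h', hφ_b, hleft_in b hbI]
        · rw [hφ_o d h h']
          by_cases h4 : d ∈ I
          · rw [hleft_in d h4, hleft_in _ ((hstep d h h').mpr h4)]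
          · rw [hleft_out d h4, hleft_out _ (fun h5 => h4 ((hstep d h h').mp h5)), M.left_φ]
    · rw [hφ_f, hleft_out _ hφb, M.left_φ, hb, hleft]
    · rw [hφ_t, hleft_in _ hφa]
  let C' : Cell (D ⊕ Bool) N (Option F) :=
    { α := α'
      φ := φ'
      tail := tail'
      left := left'
      α_α := by
        rintro (d | c)
        · rw [hα_l, hα_l, M.α_α]
        · rw [hα_r, hα_r, Bool.not_not]
      α_ne := by
        rintro (d | c)
        · rw [hα_l]
          intro h
          exact M.α_ne d (Sum.inl.inj h)
        · rw [hα_r]
          intro h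
          have := Sum.inr.inj h
          simp at this
      tail_φ := htail_φ
      left_φ := hleft_φ
      tail_surj := by
        intro n
        obtain ⟨d, rfl⟩ := M.tail_surj n
        exact ⟨.inl d, rfl⟩
      left_surj := by
        rintro (_ | f)
        · exact ⟨.inr true, rfl⟩
        · obtain ⟨d, rfl⟩ := M.left_surj f
          by_cases h : d ∈ I
          · refine ⟨.inr false, ?_⟩
            rw [hleftI d h]
          · exact ⟨.inl d, hleft_out d h⟩
      conn := by
        intro S hS hSα hSφ
        have hT : {d | Sum.inl d ∈ S} = Set.univ := by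
          apply M.conn
          · obtain ⟨x, hx⟩ := hS
            rcases x with d | (_ | _)
            · exact ⟨d, hx⟩
            · have := hSφ _ hx
              rw [hφ_f] at this
              exact ⟨_, this⟩
            · have := hSφ _ hx
              rw [hφ_t] at this
              exact ⟨_, this⟩
          · intro d hd
            have := hSα _ hd
            rw [hα_l] at this
            exact this
          · intro d hd
            by_cases h : d = a
            · subst h
              have h4 := hSφ _ hd
              rw [hφ_a] at h4
              have h5 := hSφ _ (hSα _ h4)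
              rw [hα_r, Bool.not_false, hφ_t] at h5
              exact h5
            · by_cases h' : d = b
              · have hd' : Sum.inl b ∈ S := h' ▸ hd
                have h4 := hSφ _ hd'
                rw [hφ_b] at h4
                have h5 := hSφ _ (hSα _ h4)
                rw [hα_r, Bool.not_true, hφ_f] at h5
                rw [h']
                exact h5
              · have h4 := hSφ _ hd
                rw [hφ_o d h h'] at h4
                exact h4
        have hT' : ∀ d, Sum.inl d ∈ S := by
          intro d
          have : d ∈ {d | Sum.inl d ∈ S} := by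
            rw [hT]
            trivial
          exact this
        have h4 : Sum.inr false ∈ S := by
          have := hSφ _ (hT' a)
          rw [hφ_a] at this
          exact this
        have h5 : Sum.inr true ∈ S := by
          have := hSα _ h4
          rw [hα_r] at this
          exact this
        apply Set.eq_univ_of_forall
        rintro (d | (_ | _))
        · exact hT' d
        · exact h4
        · exact h5 }
  -- tightness
  have hpass : ∀ d, φ'.SameCycle (if d ∈ I then .inr false else .inl d)
      (if M.φ d ∈ I then .inr false else .inl (M.φ d)) := by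
    intro d
    by_cases h : d = a
    · subst h
      rw [if_neg haI, if_pos hφa, ← hφ_a]
      exact sameCycle_step _ _
    · by_cases h' : d = b
      · rw [h', if_pos hbI, if_neg hφb, ← hφ_f]
        exact sameCycle_step _ _
      · by_cases h4 : d ∈ I
        · rw [if_pos h4, if_pos ((hstep d h h').mpr h4)]
        · rw [if_neg h4, if_neg (fun h5 => h4 ((hstep d h h').mp h5)), ← hφ_o d h h']
          exact sameCycle_step _ _
  have hpass' : ∀ (i : ℕ) (d : D), φ'.SameCycle (if d ∈ I then .inr false else .inl d)
      (if (M.φ^[i]) d ∈ I then .inr false else .inl ((M.φ^[i]) d)) := by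
    intro i
    induction i with
    | zero => intro d; rfl
    | succ i ih =>
      intro d
      rw [Function.iterate_succ_apply']
      exact (ih d).trans (hpass _)
  have hout : ∀ d e, M.left d = M.left e → φ'.SameCycle (if d ∈ I then .inr false else .inl d)
      (if e ∈ I then .inr false else .inl e) := by
    intro d e hde
    obtain ⟨i, -, hi⟩ := (M.tight.left_same d e hde).exists_pow_eq'
    have := hpass' i d
    rw [← Perm.iterate_eq_pow] at hi
    rw [hi] at this
    exact this
  have hin : ∀ i, 0 < i → i ≤ k → φ'.SameCycle (.inr true) (.inl ((M.φ^[i]) a)) := by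
    intro i
    induction i with
    | zero => intro h; omega
    | succ i ih =>
      intro _ hi
      rcases Nat.eq_zero_or_pos i with rfl | hi0
      · rw [Function.iterate_one, ← hφ_t]
        exact sameCycle_step _ _
      · refine (ih hi0 (by omega)).trans ?_
        rw [Function.iterate_succ_apply', ← hφ_o ((M.φ^[i]) a) (hka i hi0 (by omega))
          (fun h => hinj i k (by omega) (by omega) hi0 (by rw [h]))]
        exact sameCycle_step _ _
  have hin' : ∀ x, left' x = none → φ'.SameCycle (.inr true) x := by
    rintro (d | (_ | _)) hx
    · by_cases h : d ∈ I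
      · obtain ⟨i, h4, h5, rfl⟩ := (memI d).mp h
        exact hin i h4 h5
      · rw [hleft_out d h] at hx
        exact absurd hx (by simp)
    · exact absurd hx (by simp [left'])
    · exact Perm.SameCycle.refl _ _
  have hout' : ∀ x f, left' x = some f → ∃ d, M.left d = f ∧
      x = (if d ∈ I then .inr false else .inl d) := by
    rintro (d | (_ | _)) f hx
    · by_cases h : d ∈ I
      · rw [hleft_in d h] at hx
        exact absurd hx (by simp)
      · rw [hleft_out d h] at hx
        exact ⟨d, Option.some.inj hx, by rw [if_neg h]⟩
    · refine ⟨b, ?_, by rw [if_pos hbI]⟩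
      rw [hleftI b hbI]
      exact Option.some.inj hx
    · exact absurd hx (by simp [left'])
  have hσ : ∀ x, C'.σ (φ' x) = α' x := fun x => C'.σ_φ x
  have hσstep : ∀ d, C'.σ.SameCycle (.inl d) (.inl (M.σ d)) := by
    intro d
    obtain ⟨e, rfl⟩ : ∃ e, M.φ e = d := ⟨M.φ.symm d, by simp⟩
    rw [M.σ_φ]
    by_cases h : e = a
    · subst h
      have s1 : C'.σ.SameCycle (.inl (M.φ e)) (.inr false) := by
        have := hσ (.inr true)
        rw [hφ_t, hα_r, Bool.not_true] at this
        rw [← this]
        exact sameCycle_step _ _
      have s2 : C'.σ.SameCycle (.inr false) (.inl (M.α e)) := by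
        have := hσ (.inl e)
        rw [hφ_a, hα_l] at this
        rw [← this]
        exact sameCycle_step _ _
      exact s1.trans s2
    · by_cases h' : e = b
      · rw [h']
        have s1 : C'.σ.SameCycle (.inl (M.φ b)) (.inr true) := by
          have := hσ (.inr false)
          rw [hφ_f, hα_r, Bool.not_false] at this
          rw [← this]
          exact sameCycle_step _ _
        have s2 : C'.σ.SameCycle (.inr true) (.inl (M.α b)) := by
          have := hσ (.inl b)
          rw [hφ_b, hα_l] at this
          rw [← this]
          exact sameCycle_step _ _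
        exact s1.trans s2
      · have := hσ (.inl e)
        rw [hφ_o e h h', hα_l] at this
        rw [← this]
        exact sameCycle_step _ _
  have hσpass : ∀ (i : ℕ) (d : D), C'.σ.SameCycle (.inl d) (.inl ((M.σ^[i]) d)) := by
    intro i
    induction i with
    | zero => intro d; rfl
    | succ i ih =>
      intro d
      rw [Function.iterate_succ_apply']
      exact (ih d).trans (hσstep _)
  have htl : ∀ d e, M.tail d = M.tail e → C'.σ.SameCycle (.inl d) (.inl e) := by
    intro d e hde
    obtain ⟨i, -, hi⟩ := (M.tight.tail_same d e hde).exists_pow_eq'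
    have := hσpass i d
    rw [← Perm.iterate_eq_pow] at hi
    rw [hi] at this
    exact this
  have hrep : ∀ x, ∃ d, M.tail d = tail' x ∧ C'.σ.SameCycle x (.inl d) := by
    rintro (d | (_ | _))
    · exact ⟨d, rfl, Perm.SameCycle.refl _ _⟩
    · refine ⟨M.α a, rfl, ?_⟩
      have := hσ (.inl a)
      rw [hφ_a, hα_l] at this
      rw [← this]
      exact sameCycle_step _ _
    · refine ⟨M.α b, rfl, ?_⟩
      have := hσ (.inl b)
      rw [hφ_b, hα_l] at this
      rw [← this]
      exact sameCycle_step _ _
  have htight : C'.Tight :=
    { tail_same := by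
        intro x y hxy
        obtain ⟨d, hd, hd'⟩ := hrep x
        obtain ⟨e, he, he'⟩ := hrep y
        have h4 : M.tail d = M.tail e := by rw [hd, he]; exact hxy
        exact (hd'.trans (htl d e h4)).trans he'.symm
      left_same := by
        intro x y hxy
        change left' x = left' y at hxy
        rcases hx : left' x with _ | f
        · have hy : left' y = none := by rw [← hxy, hx]
          exact (hin' x hx).symm.trans (hin' y hy)
        · have hy : left' y = some f := by rw [← hxy, hx]
          obtain ⟨d, hd, rfl⟩ := hout' x f hx
          obtain ⟨e, he, rfl⟩ := hout' y f hy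
          exact hout d e (by rw [hd, he]) }
  -- sums
  have htm : ∀ x, turn' x = -1 ∨ turn' x = 0 ∨ turn' x = 1 := by
    rintro (d | (_ | _))
    · by_cases h : d = a
      · rw [h, hturn_a]; exact hta
      · by_cases h' : d = b
        · rw [h', hturn_b]; exact htb
        · rw [hturn_o d h h']; exact M.turn_mem d
    · exact htp
    · exact htp'
  have hturn : ∀ d, turn' (.inl d) = M.turn d + (if d = a then ta - M.turn a else 0) +
      (if d = b then tb - M.turn b else 0) := by
    intro d
    by_cases h : d = a
    · rw [h, hturn_a, if_pos rfl, if_neg hab]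
      ring
    · by_cases h' : d = b
      · rw [h', hturn_b, if_neg hab.symm, if_pos rfl]
        ring
      · rw [hturn_o d h h', if_neg h, if_neg h']
        ring
  have hfs : ∀ f : Option F, ∑ x with left' x = f, turn' x =
      if f = some M.outer then -4 else 4 := by
    intro f
    rw [sum_filter, Fintype.sum_sum_type, Fintype.sum_bool]
    rcases f with _ | f
    · have e1 : ∀ d, (if left' (.inl d) = none then turn' (.inl d) else 0) =
          if d ∈ I then turn' (.inl d) else 0 := by
        intro d
        by_cases h : d ∈ I
        · rw [hleft_in d h, if_pos rfl, if_pos h]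
        · rw [hleft_out d h, if_neg (by simp), if_neg h]
      simp only [e1]
      rw [sum_ite_mem, univ_inter]
      simp only [hturn, sum_add_distrib, sum_ite_eq', if_neg haI, if_pos hbI, hsumI]
      change _ + ((if (none : Option F) = none then tp' else 0) +
        (if some (M.left a) = none then tp else 0)) = _
      rw [if_pos rfl, if_neg (by simp), if_neg (by simp)]
      linarith
    · have e1 : ∀ d, (if left' (.inl d) = some f then turn' (.inl d) else 0) =
          (if M.left d = f then turn' (.inl d) else 0) -
          (if d ∈ I then (if M.left a = f then turn' (.inl d) else 0) else 0) := by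
        intro d
        by_cases h : d ∈ I
        · rw [hleft_in d h, if_neg (by simp), if_pos h, hleftI d h, sub_self]
        · rw [hleft_out d h, if_neg h, sub_zero]
          simp only [Option.some.injEq]
      simp only [e1]
      rw [sum_sub_distrib, sum_ite_mem, univ_inter]
      change _ + ((if (none : Option F) = some f then tp' else 0) +
        (if some (M.left a) = some f then tp else 0)) = _
      rw [if_neg (by simp), zero_add]
      simp only [Option.some.injEq]
      rw [← sum_filter]
      have e2 : ∑ d with M.left d = f, turn' (.inl d) =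
          (if f = M.outer then -4 else 4) + (if M.left a = f then ta - M.turn a else 0) +
          (if M.left a = f then tb - M.turn b else 0) := by
        simp only [hturn, sum_add_distrib]
        rw [M.face_sum f]
        congr 1
        · congr 1
          rw [sum_ite_eq']
          simp
        · rw [sum_ite_eq']
          simp [hleftI b hbI]
      rw [e2]
      by_cases h : M.left a = f
      · have h4 : f ≠ M.outer := fun h5 => ho (h.trans h5)
        simp only [if_pos h, if_neg h4]
        simp only [hturn, sum_add_distrib, sum_ite_eq', if_neg haI, if_pos hbI, hsumI]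
        linarith
      · simp only [if_neg h, sum_const_zero]
        ring
  have hns : ∀ n : N, ∑ x with tail' x = n, (2 - turn' (φ'.symm x)) = 4 := by
    intro n
    have e0 : ∑ x with tail' x = n, (2 - turn' (φ'.symm x)) =
        ∑ x with tail' (φ' x) = n, (2 - turn' x) := by
      apply sum_bij' (fun x _ => φ'.symm x) (fun x _ => φ' x)
      · intro x hx
        simp only [mem_filter, mem_univ, true_and] at hx ⊢
        rw [Equiv.apply_symm_apply]
        exact hx
      · intro x hx
        simp only [mem_filter, mem_univ, true_and] at hx ⊢
        exact hx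
      · intro x _
        simp
      · intro x _
        simp
      · intro x _
        rfl
    have e0' : ∑ d with M.tail d = n, (2 - M.turn (M.φ.symm d)) =
        ∑ d with M.head d = n, (2 - M.turn d) := by
      apply sum_bij' (fun d _ => M.φ.symm d) (fun d _ => M.φ d)
      · intro d hd
        simp only [mem_filter, mem_univ, true_and] at hd ⊢
        rw [← M.tail_φ', Equiv.apply_symm_apply]
        exact hd
      · intro d hd
        simp only [mem_filter, mem_univ, true_and] at hd ⊢
        rw [M.tail_φ']
        exact hd
      · intro d _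
        simp
      · intro d _
        simp
      · intro d _
        rfl
    have e1 := M.node_sum n
    rw [e0'] at e1
    rw [e0, sum_filter, Fintype.sum_sum_type, Fintype.sum_bool]
    simp only [htail_φ]
    have t1 : tail' (α' (.inr true)) = M.head a := rfl
    have t2 : tail' (α' (.inr false)) = M.head b := rfl
    have t3 : ∀ d, tail' (α' (.inl d)) = M.head d := fun d => rfl
    rw [t1, t2]
    simp only [t3]
    rw [← sum_filter]
    have e2 : ∀ d, 2 - turn' (.inl d) = (2 - M.turn d) - (if d = a then ta - M.turn a else 0) -
        (if d = b then tb - M.turn b else 0) := by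
      intro d
      rw [hturn]
      ring
    simp only [e2, sum_sub_distrib]
    rw [← sum_sub_distrib, e1, sum_ite_eq', sum_ite_eq']
    simp only [mem_filter, mem_univ, true_and]
    change 4 - _ - _ + ((if M.head a = n then 2 - tp' else 0) +
      (if M.head b = n then 2 - tp else 0)) = 4
    have u1 : (if M.head a = n then ta - M.turn a else 0) =
        (if M.head a = n then 2 - tp' else 0) := by
      split_ifs
      · linarith
      · rfl
    have u2 : (if M.head b = n then tb - M.turn b else 0) =
        (if M.head b = n then 2 - tp else 0) := by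
      split_ifs
      · linarith
      · rfl
    rw [u1, u2]
    ring
  let M' : Flat (D ⊕ Bool) N (Option F) :=
    { toCell := C'
      turn := turn'
      outer := some M.outer
      tight := htight
      turn_mem := htm
      face_sum := hfs
      node_sum := hns }
  exact ⟨M',
    { outer := rfl
      α_l := hα_l
      α_r := hα_r
      φ_a := hφ_a
      φ_f := hφ_f
      φ_b := hφ_b
      φ_t := hφ_t
      φ_o := hφ_o
      tail_l := htail_l
      tail_f := rfl
      tail_t := rfl
      left_in := fun i h4 h5 => hleft_in _ ((memI _).mpr ⟨i, h4, h5, rfl⟩)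
      left_out := fun d h => hleft_out d (fun h4 => by
        obtain ⟨i, h5, h6, h7⟩ := (memI d).mp h4
        exact h i h5 h6 h7)
      left_f := rfl
      left_t := rfl
      turn_a := hturn_a
      turn_b := hturn_b
      turn_f := rfl
      turn_t := rfl
      turn_o := hturn_o }⟩

end Pool.Agent.Lib.MP_9ad789_co
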