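import Pool.Agent.Lib.MP_9ad789_co.Chord

/-!
# MP_9ad789_co : removing a chord from a drawing
-/

set_option linter.unusedSectionVars false

namespace Pool.Agent.Lib.MP_9ad789_co

open Equiv Finset

variable {D N F : Type} [Fintype D] [Fintype N] [Fintype F]
  [DecidableEq D] [DecidableEq N] [DecidableEq F]

namespace ChordDAux

/-- contribution of one dart to a winding number -/
noncomputable def term {M : Flat D N F} (P : Draw M) (q : ℝ × ℝ) (d : D) : ℤ :=
  (if P.dir d = 2 ∧ (P.pos (M.head d)).1 ≤ q.1 ∧ q.1 < (P.pos (M.tail d)).1 ∧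
      q.2 < (P.pos (M.tail d)).2 then 1 else 0) -
  (if P.dir d = 0 ∧ (P.pos (M.tail d)).1 ≤ q.1 ∧ q.1 < (P.pos (M.head d)).1 ∧
      q.2 < (P.pos (M.tail d)).2 then 1 else 0)

theorem wind_eq {M : Flat D N F} (P : Draw M) (f : F) (q : ℝ × ℝ) :
    P.wind f q = ∑ d with M.left d = f, term P q d := rfl

theorem snd_eq {M : Flat D N F} (P : Draw M) (d : D) (h : P.dir d = 0 ∨ P.dir d = 2) :
    (P.pos (M.head d)).2 = (P.pos (M.tail d)).2 := by
  obtain ⟨l, _, hl⟩ := P.len d
  rw [hl]
  rcases h with h | h
  · rw [h]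
    change _ + l * (0 : ℝ) = _
    ring
  · rw [h]
    change _ + l * (0 : ℝ) = _
    ring

theorem term_α {M : Flat D N F} (P : Draw M) (q : ℝ × ℝ) (d : D) :
    term P q (M.α d) = - term P q d := by
  unfold term
  rw [P.dir_α, M.head_α, M.tail_α]
  have e1 : P.dir d + 2 = 2 ↔ P.dir d = 0 := by
    generalize P.dir d = x
    revert x
    decide
  have e2 : P.dir d + 2 = 0 ↔ P.dir d = 2 := by
    generalize P.dir d = x
    revert x
    decide
  simp only [e1, e2]
  by_cases h0 : P.dir d = 0
  · have h2 : ¬ P.dir d = 2 := by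
      rw [h0]
      decide
    rw [snd_eq P d (Or.inl h0)]
    simp [h0, show ¬ ((0 : ZMod 4) = 2) by decide]
  · by_cases h2 : P.dir d = 2
    · rw [snd_eq P d (Or.inr h2)]
      simp [h2, show ¬ ((2 : ZMod 4) = 0) by decide]
    · simp [h0, h2]

end ChordDAux

open ChordDAux in
theorem chord_drawable (M : Flat D N F) (a : D) (k : ℕ) (hk : 0 < k)
    (hka : ∀ i, 0 < i → i ≤ k → (M.φ^[i]) a ≠ a) (ho : M.left a ≠ M.outer)
    (ta tb tp tp' : ℤ) (h1 : (2 - ta) + (2 - tp') = 2 - M.turn a)
    (h2 : (2 - tb) + (2 - tp) = 2 - M.turn ((M.φ^[k]) a))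
    (M' : Flat (D ⊕ Bool) N (Option F)) (h : IsChord M a k ta tb tp tp' M')
    (hM' : Drawable M') : Drawable M := by
  classical
  obtain ⟨P', hP'⟩ := hM'
  set b := (M.φ^[k]) a with hb
  have h4 : (4 : ZMod 4) = 0 := by decide
  have hab : a ≠ b := fun h5 => hka k hk le_rfl h5.symm
  have hleft : ∀ (i : ℕ) (d : D), M.left ((M.φ^[i]) d) = M.left d := by
    intro i
    induction i with
    | zero => intro d; rfl
    | succ i ih => intro d; rw [Function.iterate_succ_apply', M.left_φ, ih]
  have hL1 : ∀ d g, M'.left (.inl d) = some g → M.left d = g := by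
    intro d g hd
    by_cases h5 : ∃ i, 0 < i ∧ i ≤ k ∧ d = (M.φ^[i]) a
    · obtain ⟨i, h6, h7, rfl⟩ := h5
      rw [h.left_in i h6 h7] at hd
      exact absurd hd (by simp)
    · rw [h.left_out d (fun i h6 h7 h8 => h5 ⟨i, h6, h7, h8⟩)] at hd
      exact Option.some.inj hd
  have hL2 : ∀ d, M'.left (.inl d) = none → M.left d = M.left a := by
    intro d hd
    by_cases h5 : ∃ i, 0 < i ∧ i ≤ k ∧ d = (M.φ^[i]) a
    · obtain ⟨i, h6, h7, rfl⟩ := h5
      exact hleft i a
    · rw [h.left_out d (fun i h6 h7 h8 => h5 ⟨i, h6, h7, h8⟩)] at hd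
      exact absurd hd (by simp)
  have hL3 : ∀ d, M'.left (.inl d) = some (M.left d) ∨
      (M'.left (.inl d) = none ∧ M.left d = M.left a) := by
    intro d
    rcases hx : M'.left (.inl d) with _ | g
    · exact Or.inr ⟨rfl, hL2 d hx⟩
    · left
      rw [hL1 d g hx]
  have hhead : ∀ d, M'.head (.inl d) = M.head d := by
    intro d
    unfold Cell.head
    rw [h.α_l, h.tail_l]
  let P : Draw M :=
    { dir := fun d => P'.dir (.inl d)
      pos := P'.pos
      dir_α := by
        intro d
        rw [← h.α_l, P'.dir_α]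
      dir_φ := by
        intro d
        by_cases hda : d = a
        · subst hda
          have e1 := P'.dir_φ (.inl d)
          have e2 := P'.dir_α (.inr false)
          have e3 := P'.dir_φ (.inr true)
          rw [h.φ_a, h.turn_a] at e1
          rw [h.α_r, Bool.not_false] at e2
          rw [h.φ_t, h.turn_t] at e3
          rw [e3, e2, e1]
          have e4 : M.turn d = ta + tp' - 2 := by linarith
          rw [e4]
          push_cast
          linear_combination h4
        · by_cases hdb : d = b
          · rw [hdb]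
            have e1 := P'.dir_φ (.inl b)
            have e2 := P'.dir_α (.inr true)
            have e3 := P'.dir_φ (.inr false)
            rw [h.φ_b, h.turn_b] at e1
            rw [h.α_r, Bool.not_true] at e2
            rw [h.φ_f, h.turn_f] at e3
            rw [e3, e2, e1]
            have e4 : M.turn b = tb + tp - 2 := by linarith
            rw [e4]
            push_cast
            linear_combination h4
          · have e1 := P'.dir_φ (.inl d)
            rw [h.φ_o d hda hdb, h.turn_o d hda hdb] at e1
            exact e1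
      len := by
        intro d
        obtain ⟨l, hl, hl'⟩ := P'.len (.inl d)
        rw [hhead, h.tail_l] at hl'
        exact ⟨l, hl, hl'⟩ }
  have hseg : ∀ d, P.seg d = P'.seg (.inl d) := by
    intro d
    unfold Draw.seg
    rw [hhead, h.tail_l]
  have hterm : ∀ q d, term P q d = term P' q (.inl d) := by
    intro q d
    unfold term
    rw [hhead, h.tail_l]
  have hw1 : ∀ f q, f ≠ M.left a → P.wind f q = P'.wind (some f) q := by
    intro f q hf
    rw [wind_eq, wind_eq, sum_filter, sum_filter, Fintype.sum_sum_type, Fintype.sum_bool,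
      h.left_f, h.left_t]
    rw [if_neg (by simp), if_neg (fun h5 => hf (Option.some.inj h5).symm), add_zero, add_zero]
    apply sum_congr rfl
    intro d _
    rw [hterm]
    rcases hL3 d with h5 | ⟨h5, h6⟩
    · rw [h5]
      simp only [Option.some.injEq]
    · rw [h5, if_neg (fun h7 => hf (by rw [← h7, h6])), if_neg (by simp)]
  have hw2 : ∀ q, P.wind (M.left a) q = P'.wind (some (M.left a)) q + P'.wind none q := by
    intro q
    rw [wind_eq, wind_eq, wind_eq, sum_filter, sum_filter, sum_filter, Fintype.sum_sum_type,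
      Fintype.sum_sum_type, Fintype.sum_bool, Fintype.sum_bool, h.left_f, h.left_t]
    rw [if_neg (by simp : ¬ ((none : Option F) = some (M.left a))), if_pos rfl, if_pos rfl,
      if_neg (by simp : ¬ (some (M.left a) = (none : Option F)))]
    have e1 : term P' q (.inr true) = - term P' q (.inr false) := by
      have := term_α P' q (.inr false)
      rw [h.α_r, Bool.not_false] at this
      exact this
    rw [e1]
    have e2 : ∀ d, (if M.left d = M.left a then term P q d else 0) =
        (if M'.left (.inl d) = some (M.left a) then term P' q (.inl d) else 0) +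
        (if M'.left (.inl d) = none then term P' q (.inl d) else 0) := by
      intro d
      rw [hterm]
      rcases hL3 d with h5 | ⟨h5, h6⟩
      · rw [h5]
        simp
      · rw [h5, if_pos h6]
        simp
    simp only [e2, sum_add_distrib]
    ring
  -- which face of `M'` contains the point
  have hw3 : ∀ f q, P.wind f q = 1 → f ≠ M.outer → ∃ g : Option F, P'.wind g q = 1 ∧
      g ≠ M'.outer ∧ (g = some f ∨ (g = none ∧ f = M.left a)) := by
    intro f q hf hfo
    by_cases h5 : f = M.left a
    · subst h5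
      rw [hw2] at hf
      have c1 := hP'.wind_01 none (by rw [h.outer]; simp) q
      rcases c1 with c1 | c1
      · rw [c1, add_zero] at hf
        exact ⟨_, hf, by rw [h.outer]; simpa using hfo, Or.inl rfl⟩
      · exact ⟨none, c1, by rw [h.outer]; simp, Or.inr ⟨rfl, rfl⟩⟩
    · rw [hw1 f q h5] at hf
      exact ⟨some f, hf, by rw [h.outer]; simpa using hfo, Or.inl rfl⟩
  refine ⟨P, ⟨hP'.inj, ?_, ?_, ?_, ?_, ?_, ?_⟩⟩
  · intro n d
    rw [hseg]
    exact hP'.node_seg n _
  · intro d d' h5 h6
    rw [hseg, hseg]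
    apply hP'.seg_seg
    · intro h7
      exact h5 (Sum.inl.inj h7)
    · rw [h.α_l]
      intro h7
      exact h6 (Sum.inl.inj h7)
  · intro f hf q
    by_cases h5 : f = M.left a
    · subst h5
      rw [hw2]
      have c1 := hP'.wind_01 none (by rw [h.outer]; simp) q
      have c2 := hP'.wind_01 (some (M.left a)) (by rw [h.outer]; simpa using hf) q
      rcases c1 with c1 | c1
      · rw [c1, add_zero]
        exact c2
      · rcases c2 with c2 | c2
        · rw [c1, c2]
          right
          rfl
        · have := hP'.wind_unique none (some (M.left a)) q (by rw [h.outer]; simp)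
            (by rw [h.outer]; simpa using hf) c1 c2
          exact absurd this (by simp)
    · rw [hw1 f q h5]
      exact hP'.wind_01 (some f) (by rw [h.outer]; simpa using hf) q
  · intro f f' q hf hf' hw hw'
    obtain ⟨g, hg1, hg2, hg3⟩ := hw3 f q hw hf
    obtain ⟨g', hg1', hg2', hg3'⟩ := hw3 f' q hw' hf'
    have hgg := hP'.wind_unique g g' q hg2 hg2' hg1 hg1'
    rcases hg3 with hg3 | ⟨hg3, hg4⟩ <;> rcases hg3' with hg3' | ⟨hg3', hg4'⟩
    · rw [hg3, hg3'] at hgg
      exact Option.some.inj hgg
    · rw [hg3, hg3'] at hgg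
      exact absurd hgg (by simp)
    · rw [hg3, hg3'] at hgg
      exact absurd hgg (by simp)
    · rw [hg4, hg4']
  · intro f n hf hw
    obtain ⟨g, hg1, hg2, hg3⟩ := hw3 f _ hw hf
    obtain ⟨x, hx1, hx2⟩ := hP'.wind_node g n hg2 hg1
    have hlb : M.left (M.φ b) = M.left a := by rw [M.left_φ, hb, hleft]
    rcases x with d | (_ | _)
    · rw [h.tail_l] at hx1
      refine ⟨d, hx1, ?_⟩
      rcases hg3 with hg3 | ⟨hg3, hg4⟩
      · rw [hg3] at hx2
        exact hL1 d f hx2
      · rw [hg3] at hx2
        rw [hL2 d hx2, hg4]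
    · rw [h.tail_f] at hx1
      refine ⟨M.φ a, by rw [M.tail_φ', hx1], ?_⟩
      rw [h.left_f] at hx2
      rcases hg3 with hg3 | ⟨hg3, hg4⟩
      · rw [hg3] at hx2
        rw [M.left_φ]
        exact Option.some.inj hx2
      · rw [M.left_φ, hg4]
    · rw [h.tail_t] at hx1
      refine ⟨M.φ b, by rw [M.tail_φ', hx1], ?_⟩
      rw [h.left_t] at hx2
      rcases hg3 with hg3 | ⟨hg3, hg4⟩
      · rw [hg3] at hx2
        exact absurd hx2 (by simp)
      · rw [hlb, hg4]
  · intro f d hf q hq hw
    obtain ⟨g, hg1, hg2, hg3⟩ := hw3 f _ hw hf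
    rw [hseg] at hq
    have hright : M'.right (.inl d) = M'.left (.inl (M.α d)) := by
      unfold Cell.right
      rw [h.α_l]
    rcases hP'.wind_seg g (.inl d) hg2 q hq hg1 with h5 | h5
    · left
      rcases hg3 with hg3 | ⟨hg3, hg4⟩
      · rw [hg3] at h5
        exact (hL1 d f h5.symm).symm
      · rw [hg3] at h5
        rw [hL2 d h5.symm, hg4]
    · right
      rw [hright] at h5
      unfold Cell.right
      rcases hg3 with hg3 | ⟨hg3, hg4⟩
      · rw [hg3] at h5
        exact (hL1 _ f h5.symm).symm
      · rw [hg3] at h5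
        rw [hL2 _ h5.symm, hg4]

end Pool.Agent.Lib.MP_9ad789_co
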