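import Pool.Agent.Lib.MP_9ad789_co.Cell

/-!
# MP_9ad789_co : a 3-connected 1-plane graph is connected (as `XMap`)
-/

namespace Pool.Agent.Lib.MP_9ad789_co

open Equiv Finset

theorem ThreeConnected.reachable {V : Type} [Fintype V] {G : SimpleGraph V}
    (h3 : ThreeConnected G) (u v : V) : G.Reachable u v := by
  have hc := h3.conn ∅ (by simp)
  have := hc.preconnected ⟨u, by simp⟩ ⟨v, by simp⟩
  exact this.map (SimpleGraph.Embedding.induce _).toHom

theorem conn_of_threeConnected {V : Type} [Fintype V] [DecidableEq V] {G : SimpleGraph V}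
    [DecidableRel G.Adj] (E : OnePlane G) (h3 : ThreeConnected G) : E.toXMap.Conn where
  vert_surj v := by
    obtain ⟨w, hw⟩ : ∃ w, w ≠ v := by
      by_contra hne
      push Not at hne
      have h4 := h3.card
      have : Fintype.card V ≤ 1 := Fintype.card_le_one_iff.mpr fun a b => by rw [hne a, hne b]
      omega
    obtain ⟨p⟩ := h3.reachable v w
    cases p with
    | nil => exact absurd rfl hw
    | cons h _ => exact ⟨⟨(v, _), h⟩, E.vert_eq _⟩
  nonempty := ⟨E.outer⟩
  conn S hS hrot hopp := by
    have hcyc : ∀ d ∈ S, ∀ d' : G.Dart, d'.fst = d.fst → d' ∈ S := by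
      intro d hd d' hdd'
      obtain ⟨i, rfl⟩ := (E.vert_same d d' (by rw [E.vert_eq, E.vert_eq, hdd'])).exists_nat_pow_eq
      clear hdd'
      induction i with
      | zero => simpa using hd
      | succ i ih =>
        rw [pow_succ']
        exact hrot _ ih
    have hstep : ∀ u w : V, G.Reachable u w → (∀ d : G.Dart, d.fst = u → d ∈ S) →
        ∀ d : G.Dart, d.fst = w → d ∈ S := by
      rintro u w ⟨p⟩
      induction p with
      | nil => exact fun h => h
      | @cons a b c h p ih =>
        intro hA
        apply ih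
        intro d hd
        refine hcyc (E.opp ⟨(a, b), h⟩) (hopp _ (hA _ rfl)) d ?_
        rw [hd, E.opp_eq]
        rfl
    obtain ⟨d0, hd0⟩ := hS
    refine Set.eq_univ_of_forall fun d => ?_
    exact hstep d0.fst d.fst (h3.reachable _ _) (fun d' hd' => hcyc d0 hd0 d' hd') d rfl

end Pool.Agent.Lib.MP_9ad789_co
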