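import Pool.Agent.Lib.MP_9ad789_co.Cell

/-!
# MP_9ad789_co : families of blocks, blocks of type B (helper24)
-/

namespace Pool.Agent.Lib.MP_9ad789_co

open Equiv Finset

set_option linter.unusedSectionVars false

variable {D N F : Type} [Fintype D] [Fintype N] [Fintype F]
  [DecidableEq D] [DecidableEq N] [DecidableEq F]
variable {C : Cell D N F} {isX : N → Prop} [DecidablePred isX]

/-- A family of blocks of types T and B without common faces. -/
structure BlockFamily (C : Cell D N F) (isX : N → Prop) [DecidablePred isX]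
    (P : Finset (Finset N)) : Prop where
  real : ∀ B ∈ P, ∀ n ∈ B, ¬ isX n
  nonempty : ∀ B ∈ P, B.Nonempty
  conn : ∀ B ∈ P, C.FaceConn B
  disj : ∀ B ∈ P, ∀ B' ∈ P, B ≠ B' → Disjoint (C.facesOf B) (C.facesOf B')
  type : ∀ B ∈ P, C.TypeT isX B ∨ ∃ e, C.TypeB isX B e

namespace Count0

theorem mem_facesOf {A : Finset N} {d : D} (h : C.tail d ∈ A) : C.left d ∈ C.facesOf A := by
  simp only [Cell.facesOf, mem_filter, mem_univ, true_and]
  exact ⟨d, h, rfl⟩

/-- the face to the right of `d` also has a corner at the start of `d` -/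
theorem right_mem_facesOf {A : Finset N} {d : D} (h : C.tail d ∈ A) :
    C.right d ∈ C.facesOf A := by
  have h1 : C.tail (C.σ.symm d) = C.tail d := by
    rw [← C.tail_σ (C.σ.symm d), Equiv.apply_symm_apply]
  have h2 : C.right d = C.left (C.σ.symm d) := by
    rw [← C.right_σ (C.σ.symm d), Equiv.apply_symm_apply]
  rw [h2]
  exact mem_facesOf (by rw [h1]; exact h)

/-- the face to the left of `d` has a corner at the end of `d` -/
theorem left_mem_facesOf_head {A : Finset N} {d : D} (h : C.head d ∈ A) :
    C.left d ∈ C.facesOf A := by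
  rw [← C.left_φ d]
  exact mem_facesOf (by rw [C.tail_φ']; exact h)

theorem right_mem_facesOf_head {A : Finset N} {d : D} (h : C.head d ∈ A) :
    C.right d ∈ C.facesOf A := mem_facesOf h

/-- the darts at a crossing -/
theorem four (h : C.OneP isX) {d d' : D} (hd : isX (C.tail d)) (ht : C.tail d' = C.tail d) :
    d' = d ∨ d' = C.σ d ∨ d' = C.σ (C.σ d) ∨ d' = C.σ (C.σ (C.σ d)) := by
  obtain ⟨i, hi⟩ := (h.tight.tail_same d d' ht.symm).exists_nat_pow_eq
  have key : ∀ n : ℕ, (C.σ ^ n) d = d ∨ (C.σ ^ n) d = C.σ d ∨ (C.σ ^ n) d = C.σ (C.σ d) ∨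
      (C.σ ^ n) d = C.σ (C.σ (C.σ d)) := by
    intro n
    induction n with
    | zero => left; rfl
    | succ n ih =>
      rw [pow_succ', Equiv.Perm.mul_apply]
      rcases ih with h1 | h1 | h1 | h1
      · right; left; rw [h1]
      · right; right; left; rw [h1]
      · right; right; right; rw [h1]
      · left; rw [h1]; exact h.x_four d hd
  rw [← hi]
  exact key i

/-- a block of type B: the dart `e` is determined by the ordered pair of boundary vertices -/
theorem det (h : C.OneP isX) {e e' : D} (he : isX (C.tail e)) (he' : isX (C.tail e'))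
    (h1 : C.head e = C.head e') (h2 : C.head (C.σ (C.σ e)) = C.head (C.σ (C.σ e'))) : e = e' := by
  have key : ∀ e : D, isX (C.tail e) →
      C.tail (C.opp isX (C.α e)) = C.head (C.σ (C.σ e)) := by
    intro e he
    have h3 : C.head (C.α e) = C.tail e := C.head_α e
    rw [Cell.opp, h3, if_pos he, C.α_α, C.tail_α]
  have h3 := h.no_multi (C.α e) (C.α e') (h.x_real e he) (h.x_real e' he') h1
    (by rw [key e he, key e' he']; exact h2)
  exact C.α.injective h3

theorem disj_faces {P : Finset (Finset N)} (hP : BlockFamily C isX P) {B B' : Finset N}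
    (hB : B ∈ P) (hB' : B' ∈ P) {f : F} (h1 : f ∈ C.facesOf B) (h2 : f ∈ C.facesOf B') :
    B = B' := by
  by_contra hne
  exact Finset.disjoint_left.1 (hP.disj B hB B' hB' hne) h1 h2

theorem mem_bdry {A : Finset N} {n : N} : n ∈ C.bdry isX A ↔
    ¬ isX n ∧ n ∉ A ∧ ∃ d, C.tail d = n ∧ C.left d ∈ C.facesOf A := by
  simp [Cell.bdry]

/-- a boundary vertex of a block is in no block -/
theorem bdry_not_mem {P : Finset (Finset N)} (hP : BlockFamily C isX P) {B B' : Finset N}
    (hB : B ∈ P) (hB' : B' ∈ P) {n : N} (hn : n ∈ C.bdry isX B) : n ∉ B' := by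
  intro hn'
  obtain ⟨-, h1, d, h2, h3⟩ := mem_bdry.1 hn
  have h4 : C.left d ∈ C.facesOf B' := mem_facesOf (by rw [h2]; exact hn')
  have := disj_faces hP hB hB' h3 h4
  subst this
  exact h1 hn'

end Count0

open Count0

/-- COUNT0: blocks of type B on the same pair of vertices. -/
theorem typeB_le_two (h : C.OneP isX) (P : Finset (Finset N)) (hP : BlockFamily C isX P)
    (u v : N) (hB : ∀ B ∈ P, C.bdry isX B = {u, v}) : P.card ≤ 2 := by
  classical
  have hT : ∀ B ∈ P, ∃ e, C.TypeB isX B e := by
    intro B hBP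
    rcases hP.type B hBP with hT | hT
    · exfalso
      have h1 := hT.bd
      rw [hB B hBP] at h1
      have h2 : ({u, v} : Finset N).card ≤ 2 := Finset.card_le_two
      omega
    · exact hT
  have : Nonempty D := by
    have h1 := h.card4
    have h2 : (univ.filter (fun n => ¬ isX n)).Nonempty := by
      rw [← Finset.card_pos]
      omega
    obtain ⟨n, -⟩ := h2
    obtain ⟨d, -⟩ := C.tail_surj n
    exact ⟨d⟩
  choose! g hg using hT
  have hmap : ∀ B ∈ P, (C.head (C.σ (C.σ (g B))), C.head (g B)) ∈
      ({(u, v), (v, u)} : Finset (N × N)) := by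
    intro B hBP
    have h1 := (hg B hBP).bd
    rw [hB B hBP] at h1
    have h2 := (hg B hBP).u_ne_v
    have h3 : C.head (C.σ (C.σ (g B))) ∈ ({u, v} : Finset N) := by rw [h1]; simp
    have h4 : C.head (g B) ∈ ({u, v} : Finset N) := by rw [h1]; simp
    simp only [mem_insert, mem_singleton] at h3 h4
    simp only [mem_insert, mem_singleton, Prod.mk.injEq]
    rcases h3 with h3 | h3 <;> rcases h4 with h4 | h4
    · exact absurd (h3.trans h4.symm) h2
    · exact Or.inl ⟨h3, h4⟩
    · exact Or.inr ⟨h3, h4⟩
    · exact absurd (h3.trans h4.symm) h2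
  have hinj : Set.InjOn (fun B => (C.head (C.σ (C.σ (g B))), C.head (g B))) (P : Set (Finset N)) := by
    intro B hB1 B' hB2 heq
    simp only [Prod.mk.injEq] at heq
    have h1 := det h (hg B hB1).x (hg B' hB2).x heq.2 heq.1
    have h2 := (hg B hB1).in0
    have h3 := (hg B' hB2).in0
    rw [← h1] at h3
    exact disj_faces hP hB1 hB2 h2 h3
  calc P.card ≤ ({(u, v), (v, u)} : Finset (N × N)).card :=
        Finset.card_le_card_of_injOn _ hmap hinj
    _ ≤ 2 := Finset.card_le_two

/-- COUNT1: two blocks of type B have different pairs of boundary vertices, and the edge leaving a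
block of type B does not end in a block. -/
theorem typeB_pairs (h : C.OneP isX) (P : Finset (Finset N)) (hP : BlockFamily C isX P)
    (hbd : 3 ≤ (P.biUnion (C.bdry isX)).card) :
    (∀ B ∈ P, ∀ B' ∈ P, ∀ e e', C.TypeB isX B e → C.TypeB isX B' e' →
      C.bdry isX B = C.bdry isX B' → B = B') ∧
    (∀ B ∈ P, ∀ B' ∈ P, ∀ e, C.TypeB isX B e → C.head (C.σ (C.σ (C.σ e))) ∉ B') := by
  classical
  have part1 : ∀ B ∈ P, ∀ B' ∈ P, ∀ e e', C.TypeB isX B e → C.TypeB isX B' e' →
      C.bdry isX B = C.bdry isX B' → B = B' := by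
    intro B hB B' hB' e e' hT hT' hbb
    by_contra hne
    have hx4 := h.x_four e hT.x
    have htσ2 : isX (C.tail (C.σ (C.σ e))) := by rw [C.tail_σ, C.tail_σ]; exact hT.x
    -- e' = σ² e
    have he' : e' = C.σ (C.σ e) := by
      have h1 := hT.bd
      have h2 := hT'.bd
      rw [← hbb, h1] at h2
      have h3 : C.head (C.σ (C.σ e')) ∈ ({C.head (C.σ (C.σ e)), C.head e} : Finset N) := by
        rw [h2]; simp
      have h4 : C.head e' ∈ ({C.head (C.σ (C.σ e)), C.head e} : Finset N) := by
        rw [h2]; simp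
      simp only [mem_insert, mem_singleton] at h3 h4
      have h5 := hT'.u_ne_v
      rcases h4 with h4 | h4
      · rcases h3 with h3 | h3
        · exact absurd (h3.trans h4.symm) h5
        · exact det h hT'.x htσ2 h4 (by rw [h3, hx4])
      · rcases h3 with h3 | h3
        · exfalso
          have h6 := det h hT'.x hT.x h4 h3
          have h7 := hT'.in0
          rw [h6] at h7
          exact hne (disj_faces hP hB hB' hT.in0 h7)
        · exact absurd (h3.trans h4.symm) h5
    subst he'
    have hw : C.head (C.σ (C.σ (C.σ e))) ∈ B' := hT'.a_mem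
    have hw' : C.head (C.σ (C.σ (C.σ (C.σ (C.σ e))))) ∈ B := by
      have : C.σ (C.σ (C.σ (C.σ (C.σ e)))) = C.σ e := by
        have := h.x_four (C.σ e) (by rw [C.tail_σ]; exact hT.x)
        exact this
      rw [this]
      exact hT.a_mem
    have hcl := h.conn3 (B ∪ B') (C.bdry isX B)
      ((hP.nonempty B hB).mono Finset.subset_union_left)
      (by
        intro n hn
        rcases mem_union.1 hn with hn | hn
        · exact hP.real B hB n hn
        · exact hP.real B' hB' n hn)
      (by rw [hT.bd]; exact Finset.card_le_two)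
      (by
        intro d hd
        rcases mem_union.1 hd with hd | hd
        · rcases hT.nb d hd with h1 | h1 | h1
          · exact Or.inl (mem_union_left _ h1)
          · exact Or.inr h1
          · exact Or.inl (mem_union_right _ (by rw [h1]; exact hw))
        · rcases hT'.nb d hd with h1 | h1 | h1
          · exact Or.inl (mem_union_right _ h1)
          · exact Or.inr (by rw [hbb]; exact h1)
          · exact Or.inl (mem_union_left _ (by rw [h1]; exact hw')))
    -- a third boundary vertex
    have hex : ∃ n ∈ P.biUnion (C.bdry isX), n ∉ C.bdry isX B := by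
      by_contra hno
      push Not at hno
      have h1 : P.biUnion (C.bdry isX) ⊆ C.bdry isX B := hno
      have h2 := Finset.card_le_card h1
      have h3 : (C.bdry isX B).card ≤ 2 := by rw [hT.bd]; exact Finset.card_le_two
      omega
    obtain ⟨n, hn, hnB⟩ := hex
    obtain ⟨B'', hB'', hn'⟩ := mem_biUnion.1 hn
    rcases hcl n (mem_bdry.1 hn').1 with h1 | h1
    · rcases mem_union.1 h1 with h1 | h1
      · exact bdry_not_mem hP hB'' hB hn' h1
      · exact bdry_not_mem hP hB'' hB' hn' h1
    · exact hnB h1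
  refine ⟨part1, ?_⟩
  intro B hB B' hB' e hT hw
  have hne : B ≠ B' := by
    rintro rfl
    exact hT.w_not hw
  have hx4 := h.x_four e hT.x
  have ht1 : C.tail (C.σ e) = C.tail e := C.tail_σ e
  have ht2 : C.tail (C.σ (C.σ e)) = C.tail e := by rw [C.tail_σ, ht1]
  have ht3 : C.tail (C.σ (C.σ (C.σ e))) = C.tail e := by rw [C.tail_σ, ht2]
  have hl3 : C.left (C.σ (C.σ (C.σ e))) ∈ C.facesOf B' := left_mem_facesOf_head hw
  have hl2 : C.left (C.σ (C.σ e)) ∈ C.facesOf B' := by
    rw [← C.right_σ]
    exact right_mem_facesOf_head hw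
  have hl0 : C.left e ∉ C.facesOf B' := fun h1 => hne (disj_faces hP hB hB' hT.in0 h1)
  have hl1 : C.left (C.σ e) ∉ C.facesOf B' := fun h1 => hne (disj_faces hP hB hB' hT.in1 h1)
  have hcard : C.cornersIn (C.facesOf B') (C.tail e) ≤ 2 := by
    have hsub : univ.filter (fun d => C.tail d = C.tail e ∧ C.left d ∈ C.facesOf B') ⊆
        {C.σ (C.σ e), C.σ (C.σ (C.σ e))} := by
      intro d hd
      simp only [mem_filter, mem_univ, true_and] at hd
      obtain ⟨h1, h2⟩ := hd
      rcases four h hT.x h1 with rfl | rfl | rfl | rfl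
      · exact absurd h2 hl0
      · exact absurd h2 hl1
      · simp
      · simp
    exact (Finset.card_le_card hsub).trans Finset.card_le_two
  have hcard0 : C.cornersIn (C.facesOf B') (C.tail e) ≠ 0 := by
    have : C.σ (C.σ e) ∈ univ.filter (fun d => C.tail d = C.tail e ∧ C.left d ∈ C.facesOf B') := by
      simp only [mem_filter, mem_univ, true_and]
      exact ⟨ht2, hl2⟩
    exact Finset.card_ne_zero_of_mem this
  rcases hP.type B' hB' with hT' | ⟨e', hT'⟩
  · have := hT'.cr (C.tail e) hT.x hcard0
    omega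
  · have hte : C.tail e' = C.tail e := by
      by_contra hne'
      have := hT'.cr (C.tail e) hT.x (fun h1 => hne' h1.symm) hcard0
      omega
    have he' : e' = C.σ (C.σ e) := by
      rcases four h hT.x hte with rfl | rfl | rfl | rfl
      · exact absurd hT'.in0 hl0
      · exact absurd hT'.in0 hl1
      · rfl
      · exfalso
        have := hT'.in1
        rw [hx4] at this
        exact hl0 this
    subst he'
    refine hne (part1 B hB B' hB' e _ hT hT' ?_)
    rw [hT.bd, hT'.bd, hx4, Finset.pair_comm]

end Pool.Agent.Lib.MP_9ad789_co
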