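import Pool.Agent.Lib.MP_9ad789_co.Count0

/-!
# MP_9ad789_co : the regions behind the crossed edges of the blocks of type B (helper24)
-/

namespace Pool.Agent.Lib.MP_9ad789_co

open Equiv Finset

set_option linter.unusedSectionVars false

namespace Count2

open Count0

section Comp

variable {V : Type} (G : SimpleGraph V) (R : Set V)

theorem comp_connected (c : (G.induce R).ConnectedComponent) :
    (G.induce (Subtype.val '' c.supp)).Connected := by
  refine SimpleGraph.Connected.map (G := c.toSimpleGraph)
    ⟨fun x => ⟨x.1.1, x.1, x.2, rfl⟩, ?_⟩ ?_ c.connected_toSimpleGraph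
  · intro a b hab
    exact hab
  · rintro ⟨_, x, hx, rfl⟩
    exact ⟨⟨x, hx⟩, rfl⟩

variable {G R}

theorem comp_subset {c : (G.induce R).ConnectedComponent} {x : V}
    (hx : x ∈ Subtype.val '' c.supp) : x ∈ R := by
  obtain ⟨y, -, rfl⟩ := hx
  exact y.2

theorem comp_closed {c : (G.induce R).ConnectedComponent} {x y : V}
    (hx : x ∈ Subtype.val '' c.supp) (hy : y ∈ R) (hxy : G.Adj x y) :
    y ∈ Subtype.val '' c.supp := by
  obtain ⟨x', hx', rfl⟩ := hx
  exact ⟨⟨y, hy⟩, c.mem_supp_of_adj_mem_supp hx' hxy, rfl⟩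

theorem comp_disjoint {c c' : (G.induce R).ConnectedComponent} (hne : c ≠ c') :
    Disjoint (Subtype.val '' c.supp) (Subtype.val '' c'.supp) := by
  rw [Set.disjoint_left]
  rintro _ ⟨x, hx, rfl⟩ ⟨y, hy, hxy⟩
  have : y = x := Subtype.val_injective hxy
  subst this
  exact hne (SimpleGraph.ConnectedComponent.eq_of_common_vertex hx hy)

end Comp

variable {D N F : Type} [Fintype D] [Fintype N] [Fintype F]
  [DecidableEq D] [DecidableEq N] [DecidableEq F]
variable {C : Cell D N F} {isX : N → Prop} [DecidablePred isX]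

/-- The nodes and faces outside the blocks. -/
def rest (C : Cell D N F) (isX : N → Prop) [DecidablePred isX] (P : Finset (Finset N)) :
    Set (N ⊕ F) :=
  {x | match x with
    | .inl n => (¬ isX n → (∀ B ∈ P, n ∉ B) ∧ n ∉ P.biUnion (C.bdry isX)) ∧
        (isX n → ∀ B ∈ P, ∀ e, C.TypeB isX B e → n ≠ C.tail e)
    | .inr f => ∀ B ∈ P, f ∉ C.facesOf B}

theorem real_mem_rest {P : Finset (Finset N)} {n : N} (hn : ¬ isX n) :
    (.inl n : N ⊕ F) ∈ rest C isX P ↔ (∀ B ∈ P, n ∉ B) ∧ n ∉ P.biUnion (C.bdry isX) :=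
  ⟨fun h => h.1 hn, fun h => ⟨fun _ => h, fun h' => absurd h' hn⟩⟩

theorem cross_mem_rest {P : Finset (Finset N)} {n : N} (hn : isX n) :
    (.inl n : N ⊕ F) ∈ rest C isX P ↔ ∀ B ∈ P, ∀ e, C.TypeB isX B e → n ≠ C.tail e :=
  ⟨fun h => h.2 hn, fun h => ⟨fun h' => absurd hn h', fun _ => h⟩⟩

theorem face_mem_rest {P : Finset (Finset N)} {f : F} :
    (.inr f : N ⊕ F) ∈ rest C isX P ↔ ∀ B ∈ P, f ∉ C.facesOf B := Iff.rfl

/-- adjacency of a node and a face -/
theorem adj_left (d : D) : C.TG.Adj (.inl (C.tail d)) (.inr (C.left d)) := ⟨d, rfl, rfl⟩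

theorem adj_face_head (d : D) : C.TG.Adj (.inr (C.left d)) (.inl (C.head d)) :=
  ⟨C.φ d, C.tail_φ' d, C.left_φ d⟩

theorem adj_node (d : D) (hne : C.tail d ≠ C.head d) :
    C.TG.Adj (.inl (C.tail d)) (.inl (C.head d)) := ⟨hne, d, rfl, rfl⟩

/-- the faces at a real vertex outside the blocks are outside -/
theorem face_out {P : Finset (Finset N)} {d : D} (hr : ¬ isX (C.tail d))
    (h : (.inl (C.tail d) : N ⊕ F) ∈ rest C isX P) : ∀ B ∈ P, C.left d ∉ C.facesOf B := by
  intro B hB hf
  obtain ⟨h1, h2⟩ := (real_mem_rest hr).1 h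
  exact h2 (mem_biUnion.2 ⟨B, hB, mem_bdry.2 ⟨hr, h1 B hB, d, rfl, hf⟩⟩)

theorem face_out_right {P : Finset (Finset N)} {d : D} (hr : ¬ isX (C.tail d))
    (h : (.inl (C.tail d) : N ⊕ F) ∈ rest C isX P) : ∀ B ∈ P, C.right d ∉ C.facesOf B := by
  have h1 : C.tail (C.σ.symm d) = C.tail d := by
    rw [← C.tail_σ (C.σ.symm d), Equiv.apply_symm_apply]
  have h2 : C.right d = C.left (C.σ.symm d) := by
    rw [← C.right_σ (C.σ.symm d), Equiv.apply_symm_apply]
  rw [h2]
  exact face_out (by rw [h1]; exact hr) (by rw [h1]; exact h)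

/-- the edge from a vertex outside the blocks: either it crosses the edge `uv` of a block of
type B and is the leaving edge of the block, or all faces around the crossing are outside -/
theorem cross_cases (h : C.OneP isX) {P : Finset (Finset N)} (hP : BlockFamily C isX P)
    {d : D} (hr : ¬ isX (C.tail d)) (hd : (.inl (C.tail d) : N ⊕ F) ∈ rest C isX P)
    (hx : isX (C.head d)) :
    (∃ B ∈ P, ∃ e, C.TypeB isX B e ∧ C.head d = C.tail e ∧ C.α d = C.σ (C.σ (C.σ e))) ∨
    ((.inl (C.head d) : N ⊕ F) ∈ rest C isX P ∧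
      ∀ d', C.tail d' = C.head d → ∀ B ∈ P, C.left d' ∉ C.facesOf B) := by
  obtain ⟨hd1, hd2⟩ := (real_mem_rest hr).1 hd
  have hxα : isX (C.tail (C.α d)) := hx
  by_cases hex : ∃ B ∈ P, ∃ e, C.TypeB isX B e ∧ C.head d = C.tail e
  · left
    obtain ⟨B, hB, e, hT, he⟩ := hex
    refine ⟨B, hB, e, hT, he, ?_⟩
    have hα : C.head (C.α d) = C.tail d := C.head_α d
    rcases four h hT.x (show C.tail (C.α d) = C.tail e from he) with h1 | h1 | h1 | h1
    · exfalso
      rw [h1] at hα
      refine hd2 (mem_biUnion.2 ⟨B, hB, ?_⟩)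
      rw [hT.bd, ← hα]
      simp
    · exfalso
      rw [h1] at hα
      exact hd1 B hB (by rw [← hα]; exact hT.a_mem)
    · exfalso
      rw [h1] at hα
      refine hd2 (mem_biUnion.2 ⟨B, hB, ?_⟩)
      rw [hT.bd, ← hα]
      simp
    · exact h1
  · right
    push Not at hex
    refine ⟨(cross_mem_rest hx).2 hex, ?_⟩
    intro d' hd' B hB hf
    have h0 : C.cornersIn (C.facesOf B) (C.head d) ≠ 0 := by
      have : d' ∈ univ.filter (fun d' => C.tail d' = C.head d ∧ C.left d' ∈ C.facesOf B) := by
        simp only [mem_filter, mem_univ, true_and]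
        exact ⟨hd', hf⟩
      exact Finset.card_ne_zero_of_mem this
    have h3 : 3 ≤ C.cornersIn (C.facesOf B) (C.head d) := by
      rcases hP.type B hB with hT | ⟨e, hT⟩
      · exact hT.cr _ hx h0
      · exact hT.cr _ hx (hex B hB e hT) h0
    have h2 : C.cornersIn (C.facesOf B) (C.head d) ≤ 2 := by
      have hsub : univ.filter (fun d' => C.tail d' = C.head d ∧ C.left d' ∈ C.facesOf B) ⊆
          {C.σ (C.α d), C.σ (C.σ (C.α d))} := by
        intro d1 hd1'
        simp only [mem_filter, mem_univ, true_and] at hd1'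
        obtain ⟨h4, h5⟩ := hd1'
        rcases four h hxα (show C.tail d1 = C.tail (C.α d) from h4) with rfl | rfl | rfl | rfl
        · exact absurd h5 (face_out_right hr hd B hB)
        · simp
        · simp
        · exfalso
          refine face_out hr hd B hB ?_
          have h6 : C.left (C.σ (C.σ (C.σ (C.α d)))) = C.left d := by
            rw [← C.right_σ, h.x_four _ hxα, C.right_α]
          rw [← h6]
          exact h5
      exact (Finset.card_le_card hsub).trans Finset.card_le_two
    omega

end Count2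

open Count0 Count2

variable {D N F : Type} [Fintype D] [Fintype N] [Fintype F]
  [DecidableEq D] [DecidableEq N] [DecidableEq F]
variable {C : Cell D N F} {isX : N → Prop} [DecidablePred isX]

/-- COUNT2: the connected regions `K k` behind the crossed edges of the blocks of type B. -/
theorem exists_regions (h : C.OneP isX) (P : Finset (Finset N)) (hP : BlockFamily C isX P)
    (hbd : 3 ≤ (P.biUnion (C.bdry isX)).card) :
    ∃ (κ : Type) (_ : Fintype κ) (K : κ → Set (N ⊕ F)),
      (∀ k, (C.TG.induce (K k)).Connected) ∧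
      (∀ k k', k ≠ k' → Disjoint (K k) (K k')) ∧
      (∀ k, ∀ B ∈ P, Disjoint (K k) (C.blockSet B)) ∧
      (∀ k, ∀ n ∈ P.biUnion (C.bdry isX), .inl n ∉ K k) ∧
      (∀ k, ∀ B ∈ P, ∀ e, C.TypeB isX B e → .inl (C.tail e) ∉ K k) ∧
      (∀ k, ∃ a : Fin 3 → N, Function.Injective a ∧ ∀ j, a j ∈ P.biUnion (C.bdry isX) ∧
        ∃ x ∈ K k, C.TG.Adj x (.inl (a j))) ∧
      (∀ B ∈ P, ∀ e, C.TypeB isX B e →
        C.head (C.σ (C.σ (C.σ e))) ∉ P.biUnion (C.bdry isX) →
        ∃ k, ∃ x ∈ K k, C.TG.Adj x (.inl (C.tail e))) := by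
  classical
  obtain ⟨-, hpair⟩ := typeB_pairs h P hP hbd
  -- the vertex behind a block of type B
  have hwX : ∀ B ∈ P, ∀ e, C.TypeB isX B e → ¬ isX (C.head (C.σ (C.σ (C.σ e)))) := by
    intro B hB e hT
    apply h.x_real
    rw [C.tail_σ, C.tail_σ, C.tail_σ]
    exact hT.x
  have hw : ∀ B ∈ P, ∀ e, C.TypeB isX B e →
      C.head (C.σ (C.σ (C.σ e))) ∉ P.biUnion (C.bdry isX) →
      (.inl (C.head (C.σ (C.σ (C.σ e)))) : N ⊕ F) ∈ rest C isX P := by
    intro B hB e hT hN
    rw [real_mem_rest (hwX B hB e hT)]
    exact ⟨fun B' hB' => hpair B hB B' hB' e hT, hN⟩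
  set Rs : Set (N ⊕ F) := rest C isX P with hRs
  let κ : Type := {c : (C.TG.induce Rs).ConnectedComponent //
    ∃ B ∈ P, ∃ e, C.TypeB isX B e ∧
      (.inl (C.head (C.σ (C.σ (C.σ e)))) : N ⊕ F) ∈ Subtype.val '' c.supp}
  have : Finite κ := inferInstance
  refine ⟨κ, Fintype.ofFinite κ, fun k => Subtype.val '' k.1.supp, ?_, ?_, ?_, ?_, ?_, ?_, ?_⟩
  · intro k
    exact comp_connected _ _ k.1
  · intro k k' hne
    exact comp_disjoint fun h1 => hne (Subtype.ext h1)
  · intro k B hB
    rw [Set.disjoint_left]
    rintro x hx (⟨n, hn, rfl⟩ | ⟨f, hf, rfl⟩)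
    · exact ((real_mem_rest (hP.real B hB n hn)).1 (comp_subset hx)).1 B hB hn
    · exact face_mem_rest.1 (comp_subset hx) B hB hf
  · intro k n hn hk
    obtain ⟨B, hB, hn'⟩ := mem_biUnion.1 hn
    exact ((real_mem_rest (mem_bdry.1 hn').1).1 (comp_subset hk)).2 hn
  · intro k B hB e hT hk
    exact (cross_mem_rest hT.x).1 (comp_subset hk) B hB e hT rfl
  · intro k
    set K : Set (N ⊕ F) := Subtype.val '' k.1.supp with hK
    have hsub : ∀ x ∈ K, x ∈ Rs := fun x hx => comp_subset hx
    have hclo : ∀ x ∈ K, ∀ y ∈ Rs, C.TG.Adj x y → y ∈ K := fun x hx y hy hxy =>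
      comp_closed hx hy hxy
    let S : Finset N := (P.biUnion (C.bdry isX)).filter (fun n => ∃ x ∈ K, C.TG.Adj x (.inl n))
    have hS : 3 ≤ S.card := by
      by_contra hlt
      push Not at hlt
      let W : Finset N := univ.filter (fun n => ¬ isX n ∧ (.inl n : N ⊕ F) ∈ K)
      let Bs : Finset (Finset N) := P.filter (fun B => ∃ e, C.TypeB isX B e ∧
        C.head (C.σ (C.σ (C.σ e))) ∈ W)
      have hW : ∀ n, n ∈ W ↔ ¬ isX n ∧ (.inl n : N ⊕ F) ∈ K := by
        intro n
        simp [W]
      have hBs : ∀ B, B ∈ Bs ↔ B ∈ P ∧ ∃ e, C.TypeB isX B e ∧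
          C.head (C.σ (C.σ (C.σ e))) ∈ W := by
        intro B
        simp [Bs]
      have hSm : ∀ n, n ∈ S ↔ n ∈ P.biUnion (C.bdry isX) ∧ ∃ x ∈ K, C.TG.Adj x (.inl n) := by
        intro n
        simp only [S, mem_filter]
      -- faces at a vertex of W are in K
      have hface : ∀ d, C.tail d ∈ W → (.inr (C.left d) : N ⊕ F) ∈ K := by
        intro d hd
        obtain ⟨h1, h2⟩ := (hW _).1 hd
        exact hclo _ h2 _ (face_out h1 (hsub _ h2)) (adj_left d)
      have hface' : ∀ d, C.head d ∈ W → (.inr (C.left d) : N ⊕ F) ∈ K := by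
        intro d hd
        have h1 := hface (C.φ d) (by rw [C.tail_φ']; exact hd)
        rw [C.left_φ] at h1
        exact h1
      have hfacer : ∀ d, C.head d ∈ W → (.inr (C.right d) : N ⊕ F) ∈ K := by
        intro d hd
        exact hface (C.α d) hd
      have hWne : (W ∪ Bs.biUnion id).Nonempty := by
        obtain ⟨B, hB, e, hT, he⟩ := k.2
        refine ⟨C.head (C.σ (C.σ (C.σ e))), mem_union_left _ ?_⟩
        exact (hW _).2 ⟨hwX B hB e hT, he⟩
      have hYreal : ∀ n ∈ W ∪ Bs.biUnion id, ¬ isX n := by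
        intro n hn
        rcases mem_union.1 hn with hn | hn
        · exact ((hW _).1 hn).1
        · obtain ⟨B, hB, hn'⟩ := mem_biUnion.1 hn
          exact hP.real B ((hBs B).1 hB).1 n hn'
      have hcl := h.conn3 (W ∪ Bs.biUnion id) S hWne hYreal (by omega) (by
        intro d hd
        rcases mem_union.1 hd with hd | hd
        · -- the dart starts in W
          obtain ⟨hr, hdK⟩ := (hW _).1 hd
          have hdR := hsub _ hdK
          by_cases hx : isX (C.head d)
          · rcases cross_cases h hP hr hdR hx with ⟨B, hB, e, hT, he, hαd⟩ | ⟨hR, hout⟩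
            · -- the leaving edge of a block of type B
              left
              have h1 : C.tail (C.opp isX d) = C.head (C.σ e) := by
                rw [Cell.opp, if_pos hx, C.tail_α, hαd]
                congr 1
                exact h.x_four (C.σ e) (by rw [C.tail_σ]; exact hT.x)
              rw [h1]
              refine mem_union_right _ (mem_biUnion.2 ⟨B, (hBs B).2 ⟨hB, e, hT, ?_⟩, hT.a_mem⟩)
              rw [← hαd, C.head_α]
              exact hd
            · -- all faces at the crossing are in K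
              have hnK : (.inl (C.head d) : N ⊕ F) ∈ K := by
                refine hclo _ hdK _ hR (adj_node d ?_)
                intro h1
                rw [← h1] at hx
                exact hr hx
              set d2 : D := C.σ (C.σ (C.α d)) with hd2
              have hx2 : isX (C.tail d2) := by
                rw [hd2, C.tail_σ, C.tail_σ]
                exact hx
              have ht2 : C.tail d2 = C.head d := by
                rw [hd2, C.tail_σ, C.tail_σ]
                rfl
              have hopp : C.tail (C.opp isX d) = C.head d2 := by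
                rw [Cell.opp, if_pos hx, C.tail_α]
              have hfK : (.inr (C.left d2) : N ⊕ F) ∈ K := by
                refine hclo _ hnK _ (hout d2 ht2) ?_
                rw [← ht2]
                exact adj_left d2
              have hz : ¬ isX (C.head d2) := h.x_real d2 hx2
              rw [hopp]
              by_cases hzN : C.head d2 ∈ P.biUnion (C.bdry isX)
              · right
                exact (hSm _).2 ⟨hzN, _, hfK, adj_face_head d2⟩
              · left
                refine mem_union_left _ ((hW _).2 ⟨hz, ?_⟩)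
                refine hclo _ hfK _ ((real_mem_rest hz).2 ⟨?_, hzN⟩) (adj_face_head d2)
                intro B hB hzB
                exact hout d2 ht2 B hB (left_mem_facesOf_head hzB)
          · -- the head is real
            have hopp : C.tail (C.opp isX d) = C.head d := by
              rw [Cell.opp, if_neg hx, C.tail_α]
            rw [hopp]
            have hfK := hface d hd
            by_cases hzN : C.head d ∈ P.biUnion (C.bdry isX)
            · right
              exact (hSm _).2 ⟨hzN, _, hfK, adj_face_head d⟩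
            · left
              refine mem_union_left _ ((hW _).2 ⟨hx, ?_⟩)
              refine hclo _ hfK _ ((real_mem_rest hx).2 ⟨?_, hzN⟩) (adj_face_head d)
              intro B hB hzB
              exact face_out hr hdR B hB (left_mem_facesOf_head hzB)
        · -- the dart starts in a block of type B
          obtain ⟨B, hB, hdB⟩ := mem_biUnion.1 hd
          obtain ⟨hBP, e, hT, hwW⟩ := (hBs B).1 hB
          rcases hT.nb d hdB with h1 | h1 | h1
          · left
            exact mem_union_right _ (mem_biUnion.2 ⟨B, hB, h1⟩)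
          · right
            refine (hSm _).2 ⟨mem_biUnion.2 ⟨B, hBP, h1⟩, ?_⟩
            rw [hT.bd] at h1
            simp only [mem_insert, mem_singleton] at h1
            rcases h1 with h1 | h1
            · rw [h1]
              refine ⟨_, hfacer _ hwW, ?_⟩
              rw [C.right_σ]
              exact adj_face_head _
            · rw [h1]
              refine ⟨_, hface' _ hwW, ?_⟩
              have h2 : C.left (C.σ (C.σ (C.σ e))) = C.left (C.α e) := by
                rw [← C.right_σ, h.x_four e hT.x]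
                rfl
              rw [h2]
              exact (adj_left (C.α e)).symm
          · left
            exact mem_union_left _ (by rw [h1]; exact hwW))
      have hNS : P.biUnion (C.bdry isX) ⊆ S := by
        intro n hn
        obtain ⟨B, hB, hn'⟩ := mem_biUnion.1 hn
        rcases hcl n (mem_bdry.1 hn').1 with h1 | h1
        · exfalso
          rcases mem_union.1 h1 with h1 | h1
          · obtain ⟨h2, h3⟩ := (hW _).1 h1
            exact ((real_mem_rest h2).1 (hsub _ h3)).2 hn
          · obtain ⟨B', hB', hn''⟩ := mem_biUnion.1 h1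
            exact bdry_not_mem hP hB ((hBs B').1 hB').1 hn' hn''
        · exact h1
      have := Finset.card_le_card hNS
      omega
    obtain ⟨T, hTS, hT3⟩ := Finset.exists_subset_card_eq hS
    have hcardT : Fintype.card T = 3 := by simpa using hT3
    let g : Fin 3 ≃ T := (Fintype.equivFinOfCardEq hcardT).symm
    refine ⟨fun j => (g j : N), fun i j hij => g.injective (Subtype.ext hij), fun j => ?_⟩
    have h1 := hTS (g j).2
    exact Finset.mem_filter.1 h1
  · intro B hB e hT hN
    have hwR := hw B hB e hT hN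
    refine ⟨⟨(C.TG.induce Rs).connectedComponentMk ⟨_, hwR⟩, B, hB, e, hT, ⟨_, hwR⟩, rfl, rfl⟩,
      _, ⟨⟨_, hwR⟩, rfl, rfl⟩, ?_⟩
    have hne : C.head (C.σ (C.σ (C.σ e))) ≠ C.tail e := by
      intro h1
      have := hwX B hB e hT
      rw [h1] at this
      exact this hT.x
    refine ⟨hne, C.α (C.σ (C.σ (C.σ e))), rfl, ?_⟩
    rw [C.head_α, C.tail_σ, C.tail_σ, C.tail_σ]

end Pool.Agent.Lib.MP_9ad789_co
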