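import Pool.Agent.Lib.MP_9ad789_co.Cell

/-!
# Triangulation of a cell decomposition by a new node in every face
-/

namespace Pool.Agent.Lib.MP_9ad789_co

open Equiv Finset

namespace TriAux

variable {D N F : Type} (C : Cell D N F)

def al : D ⊕ D × Bool → D ⊕ D × Bool
  | .inl d => .inl (C.α d)
  | .inr (d, b) => .inr (d, !b)

theorem al_al (x : D ⊕ D × Bool) : al C (al C x) = x := by
  rcases x with d | ⟨d, b⟩
  · simp [al, C.α_α]
  · simp [al]

def ph : D ⊕ D × Bool → D ⊕ D × Bool
  | .inl d => .inr (C.φ d, false)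
  | .inr (e, false) => .inr (C.φ.symm e, true)
  | .inr (d, true) => .inl d

def ph' : D ⊕ D × Bool → D ⊕ D × Bool
  | .inl d => .inr (d, true)
  | .inr (e, false) => .inl (C.φ.symm e)
  | .inr (d, true) => .inr (C.φ d, false)

theorem ph'_ph (x : D ⊕ D × Bool) : ph' C (ph C x) = x := by
  rcases x with d | ⟨d, b⟩
  · simp [ph, ph']
  · cases b <;> simp [ph, ph']

theorem ph_ph' (x : D ⊕ D × Bool) : ph C (ph' C x) = x := by
  rcases x with d | ⟨d, b⟩
  · simp [ph, ph']
  · cases b <;> simp [ph, ph']

def tl : D ⊕ D × Bool → N ⊕ F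
  | .inl d => .inl (C.tail d)
  | .inr (d, false) => .inl (C.tail d)
  | .inr (d, true) => .inr (C.left d)

def lf : D ⊕ D × Bool → D
  | .inl d => d
  | .inr (e, false) => C.φ.symm e
  | .inr (d, true) => d

/-- The triangulated cell decomposition. -/
def tri : Cell (D ⊕ D × Bool) (N ⊕ F) D where
  α := ⟨al C, al C, al_al C, al_al C⟩
  φ := ⟨ph C, ph' C, ph'_ph C, ph_ph' C⟩
  tail := tl C
  left := lf C
  α_α := al_al C
  α_ne := by
    rintro (d | ⟨d, b⟩) h
    · exact C.α_ne d (Sum.inl_injective h)
    · have := congrArg Prod.snd (Sum.inr_injective h)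
      cases b <;> simp at this
  tail_φ := by
    rintro (d | ⟨d, b⟩)
    · show Sum.inl (C.tail (C.φ d)) = Sum.inl (C.tail (C.α d))
      rw [C.tail_φ]
    · cases b
      · show Sum.inr (C.left (C.φ.symm d)) = Sum.inr (C.left d)
        rw [← C.left_φ (C.φ.symm d), Equiv.apply_symm_apply]
      · rfl
  left_φ := by
    rintro (d | ⟨d, b⟩)
    · show C.φ.symm (C.φ d) = d
      simp
    · cases b <;> rfl
  tail_surj := by
    rintro (n | f)
    · obtain ⟨d, rfl⟩ := C.tail_surj n
      exact ⟨.inl d, rfl⟩
    · obtain ⟨d, rfl⟩ := C.left_surj f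
      exact ⟨.inr (d, true), rfl⟩
  left_surj := fun d => ⟨.inl d, rfl⟩
  conn := by
    intro S hS hα hφ
    have hα' : ∀ x ∈ S, al C x ∈ S := hα
    have hφ' : ∀ x ∈ S, ph C x ∈ S := hφ
    have h1 : {d | (.inl d : D ⊕ D × Bool) ∈ S} = Set.univ := by
      apply C.conn
      · obtain ⟨x, hx⟩ := hS
        rcases x with d | ⟨d, b⟩
        · exact ⟨d, hx⟩
        · cases b
          · exact ⟨C.φ.symm d, hφ' _ (hφ' _ hx)⟩
          · exact ⟨d, hφ' _ hx⟩
      · intro d hd
        exact hα' _ hd
      · intro d hd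
        exact hφ' _ (hα' _ (hφ' _ hd))
    have h2 : ∀ d, (.inl d : D ⊕ D × Bool) ∈ S := fun d => by
      have : d ∈ {d | (.inl d : D ⊕ D × Bool) ∈ S} := by rw [h1]; trivial
      exact this
    have h3 : ∀ d, (.inr (d, false) : D ⊕ D × Bool) ∈ S := fun d => by
      have := hφ' _ (h2 (C.φ.symm d))
      simpa [ph] using this
    ext x
    simp only [Set.mem_univ, iff_true]
    rcases x with d | ⟨d, b⟩
    · exact h2 d
    · cases b
      · exact h3 d
      · exact hα' _ (h3 d)

end TriAux

open TriAux in
theorem exists_tri {D N F : Type} [Fintype D] [Fintype N] [Fintype F]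
    [DecidableEq D] [DecidableEq N] [DecidableEq F] (C : Cell D N F) :
    ∃ C' : Cell (D ⊕ D × Bool) (N ⊕ F) D,
    C'.NG = C.TG ∧ (C.Planar → C'.Planar) := by
  refine ⟨tri C, ?_, ?_⟩
  · ext x y
    rcases x with n | f <;> rcases y with m | g
    · constructor
      · rintro ⟨h1, x, h2, h3⟩
        refine ⟨fun h => h1 (by rw [h]), ?_⟩
        rcases x with d | ⟨d, b⟩
        · exact ⟨d, Sum.inl_injective h2, Sum.inl_injective h3⟩
        · cases b
          · exact absurd h3 (by intro h; first | exact Sum.inl_ne_inr h | exact Sum.inr_ne_inl h)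
          · exact absurd h2 (by intro h; first | exact Sum.inl_ne_inr h | exact Sum.inr_ne_inl h)
      · rintro ⟨h1, d, h2, h3⟩
        exact ⟨fun h => h1 (Sum.inl_injective h), .inl d, congrArg Sum.inl h2, congrArg Sum.inl h3⟩
    · constructor
      · rintro ⟨h1, x, h2, h3⟩
        rcases x with d | ⟨d, b⟩
        · exact absurd h3 (by intro h; first | exact Sum.inl_ne_inr h | exact Sum.inr_ne_inl h)
        · cases b
          · exact ⟨d, Sum.inl_injective h2, Sum.inr_injective h3⟩
          · exact absurd h2 (by intro h; first | exact Sum.inl_ne_inr h | exact Sum.inr_ne_inl h)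
      · rintro ⟨d, h2, h3⟩
        exact ⟨by simp, .inr (d, false), congrArg Sum.inl h2,
          congrArg Sum.inr h3⟩
    · constructor
      · rintro ⟨h1, x, h2, h3⟩
        rcases x with d | ⟨d, b⟩
        · exact absurd h2 (by intro h; first | exact Sum.inl_ne_inr h | exact Sum.inr_ne_inl h)
        · cases b
          · exact absurd h2 (by intro h; first | exact Sum.inl_ne_inr h | exact Sum.inr_ne_inl h)
          · exact ⟨d, Sum.inl_injective h3, Sum.inr_injective h2⟩
      · rintro ⟨d, h2, h3⟩
        exact ⟨by simp, .inr (d, true), congrArg Sum.inr h3,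
          congrArg Sum.inl h2⟩
    · constructor
      · rintro ⟨h1, x, h2, h3⟩
        rcases x with d | ⟨d, b⟩
        · exact absurd h2 (by intro h; first | exact Sum.inl_ne_inr h | exact Sum.inr_ne_inl h)
        · cases b
          · exact absurd h2 (by intro h; first | exact Sum.inl_ne_inr h | exact Sum.inr_ne_inl h)
          · exact absurd h3 (by intro h; first | exact Sum.inl_ne_inr h | exact Sum.inr_ne_inl h)
      · intro h
        exact h.elim
  · intro h
    unfold Cell.Planar at h ⊢
    simp only [Fintype.card_sum, Fintype.card_prod, Fintype.card_bool]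
    omega

end Pool.Agent.Lib.MP_9ad789_co
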