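import Pool.Agent.Lib.MP_9ad789_co.MLN
import Pool.Agent.Lib.MP_9ad789_co.Tri

/-!
# Minor bounds in the graph on nodes and faces
-/

set_option autoImplicit false

namespace Pool.Agent.Lib.MP_9ad789_co

open Equiv Finset

variable {D N F : Type} [Fintype D] [Fintype N] [Fintype F]
  [DecidableEq D] [DecidableEq N] [DecidableEq F]

theorem minor3 (C : Cell D N F) (hC : C.Planar) {ι κ : Type} [Fintype ι] [Fintype κ]
    (L : ι → Set (N ⊕ F)) (H : κ → Set (N ⊕ F))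
    (hL : ∀ i, (C.TG.induce (L i)).Connected) (hH : ∀ k, (C.TG.induce (H k)).Connected)
    (hLL : ∀ i j, i ≠ j → Disjoint (L i) (L j)) (hHH : ∀ i j, i ≠ j → Disjoint (H i) (H j))
    (hLH : ∀ i k, Disjoint (L i) (H k))
    (a : κ → Fin 3 → ι) (ha : ∀ k, Function.Injective (a k))
    (hadj : ∀ k j, ∃ x ∈ H k, ∃ y ∈ L (a k j), C.TG.Adj x y)
    (h3 : 3 ≤ Fintype.card ι) :
    Fintype.card κ + 4 ≤ 2 * Fintype.card ι := by
  obtain ⟨C', h1, h2⟩ := exists_tri C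
  rw [← h1] at hL hH hadj
  exact nminor3 C' (h2 hC) L H hL hH hLL hHH hLH a ha hadj h3

theorem minor2 (C : Cell D N F) (hC : C.Planar) {ι κ : Type} [Fintype ι] [Fintype κ]
    (L : ι → Set (N ⊕ F)) (H : κ → Set (N ⊕ F))
    (hL : ∀ i, (C.TG.induce (L i)).Connected) (hH : ∀ k, (C.TG.induce (H k)).Connected)
    (hLL : ∀ i j, i ≠ j → Disjoint (L i) (L j)) (hHH : ∀ i j, i ≠ j → Disjoint (H i) (H j))
    (hLH : ∀ i k, Disjoint (L i) (H k))
    (a : κ → Fin 2 → ι) (ha : ∀ k, a k 0 ≠ a k 1)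
    (ha2 : ∀ k k', k ≠ k' → ({a k 0, a k 1} : Set ι) ≠ {a k' 0, a k' 1})
    (hadj : ∀ k j, ∃ x ∈ H k, ∃ y ∈ L (a k j), C.TG.Adj x y)
    (h3 : 3 ≤ Fintype.card ι) :
    Fintype.card κ + 6 ≤ 3 * Fintype.card ι := by
  obtain ⟨C', h1, h2⟩ := exists_tri C
  rw [← h1] at hL hH hadj
  exact nminor2 C' (h2 hC) L H hL hH hLL hHH hLH a ha ha2 hadj h3

end Pool.Agent.Lib.MP_9ad789_co
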