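import Pool.Agent.Lib.MP_9ad789_co.Count0
import Pool.Agent.Lib.MP_9ad789_co.Count2
import Pool.Agent.Lib.MP_9ad789_co.ML

/-!
# MP_9ad789_co : counting the blocks of types T and B (helper81)
-/

namespace Pool.Agent.Lib.MP_9ad789_co

open Equiv Finset

set_option linter.unusedSectionVars false

variable {D N F : Type} [Fintype D] [Fintype N] [Fintype F]
  [DecidableEq D] [DecidableEq N] [DecidableEq F]
variable {C : Cell D N F} {isX : N → Prop} [DecidablePred isX]


namespace Count3

open Count0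

theorem inj3 {α : Type} {x y z : α} (h1 : x ≠ y) (h2 : x ≠ z) (h3 : y ≠ z) :
    Function.Injective ![x, y, z] := by
  intro i j hij
  fin_cases i <;> fin_cases j <;> simp_all [eq_comm]

theorem exists_three {α : Type} [DecidableEq α] (s : Finset α) (hs : 3 ≤ s.card) :
    ∃ f : Fin 3 → α, Function.Injective f ∧ ∀ j, f j ∈ s := by
  obtain ⟨t, ht, hc⟩ := Finset.exists_subset_card_eq hs
  refine ⟨fun j => ((t.equivFinOfCardEq hc).symm j : α), ?_, ?_⟩
  · intro i j hij
    exact (t.equivFinOfCardEq hc).symm.injective (Subtype.ext hij)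
  · intro j
    exact ht ((t.equivFinOfCardEq hc).symm j).2

/-- the nodes and faces of a block are connected to each other -/
theorem reach {B : Finset N} (hc : C.FaceConn B) {S : Set (N ⊕ F)} (hS : C.blockSet B ⊆ S)
    {b : N} (hb : b ∈ B) (x : N ⊕ F) (hx : x ∈ C.blockSet B) :
    (C.TG.induce S).Reachable ⟨.inl b, hS (Or.inl ⟨b, hb, rfl⟩)⟩ ⟨x, hS hx⟩ := by
  classical
  have key : B.filter (fun n => ∃ hn : .inl n ∈ S,
      (C.TG.induce S).Reachable ⟨.inl b, hS (Or.inl ⟨b, hb, rfl⟩)⟩ ⟨.inl n, hn⟩) = B := by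
    apply hc _ (Finset.filter_subset _ _)
    · exact ⟨b, mem_filter.2 ⟨hb, hS (Or.inl ⟨b, hb, rfl⟩), SimpleGraph.Reachable.refl _⟩⟩
    · intro d d' hd hd' hl
      obtain ⟨h1, h2, h3⟩ := mem_filter.1 hd
      have hf : (.inr (C.left d) : N ⊕ F) ∈ S := hS (Or.inr ⟨_, mem_facesOf h1, rfl⟩)
      have hn : (.inl (C.tail d') : N ⊕ F) ∈ S := hS (Or.inl ⟨_, hd', rfl⟩)
      refine mem_filter.2 ⟨hd', hn, h3.trans ?_⟩
      have a1 : (C.TG.induce S).Adj ⟨.inl (C.tail d), h2⟩ ⟨.inr (C.left d), hf⟩ :=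
        ⟨d, rfl, rfl⟩
      have a2 : (C.TG.induce S).Adj ⟨.inr (C.left d), hf⟩ ⟨.inl (C.tail d'), hn⟩ :=
        ⟨d', rfl, hl.symm⟩
      exact a1.reachable.trans a2.reachable
  have hnode : ∀ n ∈ B, ∃ hn : .inl n ∈ S,
      (C.TG.induce S).Reachable ⟨.inl b, hS (Or.inl ⟨b, hb, rfl⟩)⟩ ⟨.inl n, hn⟩ := by
    intro n hn
    rw [← key] at hn
    exact (mem_filter.1 hn).2
  rcases hx with ⟨n, hn, rfl⟩ | ⟨f, hf, rfl⟩
  · exact (hnode n hn).2
  · obtain ⟨d, hd, hd'⟩ := (by simpa [Cell.facesOf] using hf : ∃ d, C.tail d ∈ B ∧ C.left d = f)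
    obtain ⟨h1, h2⟩ := hnode _ hd
    refine h2.trans ?_
    have a1 : (C.TG.induce S).Adj ⟨.inl (C.tail d), h1⟩ ⟨.inr f, hS (Or.inr ⟨f, hf, rfl⟩)⟩ :=
      ⟨d, rfl, hd'⟩
    exact a1.reachable

theorem conn_block {B : Finset N} (hc : C.FaceConn B) (hne : B.Nonempty) :
    (C.TG.induce (C.blockSet B)).Connected := by
  obtain ⟨b, hb⟩ := hne
  have : Nonempty (C.blockSet B) := ⟨⟨.inl b, Or.inl ⟨b, hb, rfl⟩⟩⟩
  refine SimpleGraph.Connected.mk ?_
  intro x y
  have h1 := reach hc (Set.Subset.refl _) hb x.1 x.2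
  have h2 := reach hc (Set.Subset.refl _) hb y.1 y.2
  exact h1.symm.trans h2

theorem conn_insert {B : Finset N} (hc : C.FaceConn B) (c : N) (b : N) (hb : b ∈ B)
    (hadj : C.TG.Adj (.inl c) (.inl b)) :
    (C.TG.induce (C.blockSet B ∪ {.inl c})).Connected := by
  have hsub : C.blockSet B ⊆ C.blockSet B ∪ {.inl c} := Set.subset_union_left
  have : Nonempty ↥(C.blockSet B ∪ {.inl c}) := ⟨⟨.inl b, hsub (Or.inl ⟨b, hb, rfl⟩)⟩⟩
  have key : ∀ x : ↥(C.blockSet B ∪ {.inl c}), (C.TG.induce (C.blockSet B ∪ {.inl c})).Reachable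
      ⟨.inl b, hsub (Or.inl ⟨b, hb, rfl⟩)⟩ x := by
    rintro ⟨x, hx | hx⟩
    · exact reach hc hsub hb x hx
    · have hx' : x = .inl c := hx
      subst hx'
      have a1 : (C.TG.induce (C.blockSet B ∪ {.inl c})).Adj
        ⟨.inl b, hsub (Or.inl ⟨b, hb, rfl⟩)⟩ ⟨.inl c, Or.inr rfl⟩ := hadj.symm
      exact a1.reachable
  refine SimpleGraph.Connected.mk ?_
  intro x y
  exact (key x).symm.trans (key y)

/-- facts about a block of type B -/
theorem w_ne (h : C.OneP isX) {B : Finset N} {e : D} (hT : C.TypeB isX B e) :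
    C.head (C.σ (C.σ e)) ≠ C.head (C.σ (C.σ (C.σ e))) ∧
      C.head e ≠ C.head (C.σ (C.σ (C.σ e))) := by
  have hx4 := h.x_four e hT.x
  have ht1 : isX (C.tail (C.σ (C.σ e))) := by rw [C.tail_σ, C.tail_σ]; exact hT.x
  have ht2 : isX (C.tail (C.σ (C.σ (C.σ e)))) := by rw [C.tail_σ]; exact ht1
  refine ⟨(h.x_adj _ ht1).symm, ?_⟩
  have h2 := h.x_adj _ ht2
  rw [hx4] at h2
  exact h2

theorem conn_singleton (x : N ⊕ F) : (C.TG.induce ({x} : Set (N ⊕ F))).Connected := by
  have : Nonempty ({x} : Set (N ⊕ F)) := ⟨⟨x, rfl⟩⟩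
  refine SimpleGraph.Connected.mk ?_
  rintro ⟨a, ha⟩ ⟨b, hb⟩
  have h1 : a = x := ha
  have h2 : b = x := hb
  subst h1
  subst h2
  exact SimpleGraph.Reachable.refl _

end Count3

open Count3 Count0

/-- COUNT3: final count, uses COUNT1, COUNT2, ML. -/
theorem count_blocks (h : C.OneP isX) (P : Finset (Finset N)) (hP : BlockFamily C isX P)
    (hbd : 3 ≤ (P.biUnion (C.bdry isX)).card) :
    P.card + 8 ≤ 4 * (P.biUnion (C.bdry isX)).card := by
  classical
  have hD : Nonempty D := by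
    have h1 := h.card4
    have h2 : (univ.filter (fun n => ¬ isX n)).Nonempty := by
      rw [← Finset.card_pos]
      omega
    obtain ⟨n, -⟩ := h2
    obtain ⟨d, -⟩ := C.tail_surj n
    exact ⟨d⟩
  set N' := P.biUnion (C.bdry isX) with hN'
  have hpairs := typeB_pairs h P hP (by rw [← hN']; exact hbd)
  obtain ⟨κ, hκ, K, hKc, hKK, hKB, hKN, hKe, hK3, hKw⟩ := exists_regions h P hP hbd
  rw [← hN'] at hKN hK3 hKw
  -- types
  have hTB : ∀ B ∈ P, ¬ C.TypeT isX B → ∃ e, C.TypeB isX B e := by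
    intro B hB hT
    rcases hP.type B hB with h1 | h1
    · exact absurd h1 hT
    · exact h1
  have hex : ∀ B : Finset N, ∃ e : D, B ∈ P → ¬ C.TypeT isX B → C.TypeB isX B e := by
    intro B
    by_cases h1 : B ∈ P ∧ ¬ C.TypeT isX B
    · obtain ⟨e, he⟩ := hTB B h1.1 h1.2
      exact ⟨e, fun _ _ => he⟩
    · exact ⟨Classical.choice hD, fun h2 h3 => absurd ⟨h2, h3⟩ h1⟩
  choose g hg using hex
  let HB : Finset N → Set (N ⊕ F) := fun B =>
    if C.TypeT isX B then C.blockSet B else C.blockSet B ∪ {.inl (C.tail (g B))}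
  have hHBsub : ∀ B, C.blockSet B ⊆ HB B := by
    intro B
    simp only [HB]
    split_ifs
    · exact Set.Subset.refl _
    · exact Set.subset_union_left
  have hHBc : ∀ B ∈ P, (C.TG.induce (HB B)).Connected := by
    intro B hB
    by_cases hT : C.TypeT isX B
    · have : HB B = C.blockSet B := by simp only [HB, if_pos hT]
      rw [this]
      exact conn_block (hP.conn B hB) (hP.nonempty B hB)
    · have : HB B = C.blockSet B ∪ {.inl (C.tail (g B))} := by simp only [HB, if_neg hT]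
      rw [this]
      have hT' := hg B hB hT
      refine conn_insert (hP.conn B hB) _ _ hT'.a_mem ⟨?_, C.σ (g B), C.tail_σ _, rfl⟩
      intro heq
      have h1 := h.x_real (C.σ (g B)) (by rw [C.tail_σ]; exact hT'.x)
      rw [← heq] at h1
      exact h1 hT'.x
  -- members of the sets
  have hnode : ∀ B ∈ P, ∀ B' ∈ P, ∀ n, n ∈ B → n ∈ B' → B = B' := by
    intro B hB B' hB' n h1 h2
    obtain ⟨d, hd⟩ := C.tail_surj n
    exact disj_faces hP hB hB' (mem_facesOf (d := d) (by rw [hd]; exact h1))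
      (mem_facesOf (by rw [hd]; exact h2))
  have hmemHB : ∀ B ∈ P, ∀ x, x ∈ HB B → x ∈ C.blockSet B ∨
      (¬ C.TypeT isX B ∧ x = .inl (C.tail (g B))) := by
    intro B hB x hx
    simp only [HB] at hx
    split_ifs at hx with hT
    · exact Or.inl hx
    · rcases hx with hx | hx
      · exact Or.inl hx
      · exact Or.inr ⟨hT, hx⟩
  have hrealB : ∀ B ∈ P, ∀ n, (.inl n : N ⊕ F) ∈ C.blockSet B → n ∈ B := by
    rintro B hB n (⟨m, hm, h1⟩ | ⟨f, hf, h1⟩)
    · rw [Sum.inl.inj h1]; exact hm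
    · exact absurd h1 (by simp)
  have hHH : ∀ B ∈ P, ∀ B' ∈ P, B ≠ B' → Disjoint (HB B) (HB B') := by
    intro B hB B' hB' hne
    rw [Set.disjoint_left]
    intro x hx hx'
    rcases hmemHB B hB x hx with h1 | ⟨hT, h1⟩
    · rcases hmemHB B' hB' x hx' with h2 | ⟨hT', h2⟩
      · rcases h1 with ⟨n, hn, rfl⟩ | ⟨f, hf, rfl⟩
        · exact hne (hnode B hB B' hB' n hn (hrealB B' hB' n h2))
        · rcases h2 with ⟨n, hn, h3⟩ | ⟨f', hf', h3⟩
          · exact absurd h3 (by simp)
          · rw [← Sum.inr.inj h3] at hf'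
            exact hne (disj_faces hP hB hB' hf hf')
      · subst h2
        exact hP.real B hB _ (hrealB B hB _ h1) (hg B' hB' hT').x
    · subst h1
      rcases hmemHB B' hB' _ hx' with h2 | ⟨hT', h2⟩
      · exact hP.real B' hB' _ (hrealB B' hB' _ h2) (hg B hB hT).x
      · have hb := hg B hB hT
        have hb' := hg B' hB' hT'
        have htt : C.tail (g B') = C.tail (g B) := (Sum.inl.inj h2).symm
        have hx4 := h.x_four (g B) hb.x
        rcases four h hb.x htt with h3 | h3 | h3 | h3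
        · have h4 := hb'.in0
          rw [h3] at h4
          exact hne (disj_faces hP hB hB' hb.in0 h4)
        · have h4 := hb'.in0
          rw [h3] at h4
          exact hne (disj_faces hP hB hB' hb.in1 h4)
        · have h4 := hb'.a_mem
          rw [h3] at h4
          exact hpairs.2 B hB B' hB' _ hb h4
        · have h4 := hb'.in1
          rw [h3, hx4] at h4
          exact hne (disj_faces hP hB hB' hb.in0 h4)
  have hNB : ∀ n ∈ N', ∀ B ∈ P, (.inl n : N ⊕ F) ∉ HB B := by
    intro n hn B hB hx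
    obtain ⟨B1, hB1, hn1⟩ := mem_biUnion.1 hn
    rcases hmemHB B hB _ hx with h1 | ⟨hT, h1⟩
    · exact bdry_not_mem hP hB1 hB hn1 (hrealB B hB n h1)
    · have h2 := (mem_bdry.1 hn1).1
      rw [Sum.inl.inj h1] at h2
      exact h2 (hg B hB hT).x
  have hKH : ∀ k, ∀ B ∈ P, Disjoint (K k) (HB B) := by
    intro k B hB
    rw [Set.disjoint_left]
    intro x hx hx'
    rcases hmemHB B hB x hx' with h1 | ⟨hT, h1⟩
    · exact Set.disjoint_left.1 (hKB k B hB) hx h1
    · subst h1
      exact hKe k B hB _ (hg B hB hT) hx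
  -- adjacency
  have hadjB : ∀ B ∈ P, ∀ n ∈ C.bdry isX B, ∃ x ∈ HB B, C.TG.Adj x (.inl n) := by
    intro B hB n hn
    obtain ⟨-, -, d, h1, h2⟩ := mem_bdry.1 hn
    exact ⟨.inr (C.left d), hHBsub B (Or.inr ⟨_, h2, rfl⟩), ⟨d, h1, rfl⟩⟩
  have hinN : ∀ B ∈ P, ∀ n ∈ C.bdry isX B, n ∈ N' := by
    intro B hB n hn
    exact mem_biUnion.2 ⟨B, hB, hn⟩
  have huB : ∀ B ∈ P, ¬ C.TypeT isX B → C.head (C.σ (C.σ (g B))) ∈ C.bdry isX B := by
    intro B hB hT
    rw [(hg B hB hT).bd]
    simp
  have hvB : ∀ B ∈ P, ¬ C.TypeT isX B → C.head (g B) ∈ C.bdry isX B := by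
    intro B hB hT
    rw [(hg B hB hT).bd]
    simp
  have hwadj : ∀ B ∈ P, ¬ C.TypeT isX B →
      ∃ x ∈ HB B, C.TG.Adj x (.inl (C.head (C.σ (C.σ (C.σ (g B)))))) := by
    intro B hB hT
    have hb := hg B hB hT
    refine ⟨.inl (C.tail (g B)), ?_, ?_, C.σ (C.σ (C.σ (g B))), ?_, rfl⟩
    · simp only [HB, if_neg hT]
      exact Or.inr rfl
    · intro heq
      have h1 := h.x_real (C.σ (C.σ (C.σ (g B))))
        (by rw [C.tail_σ, C.tail_σ, C.tail_σ]; exact hb.x)
      rw [← heq] at h1
      exact h1 hb.x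
    · rw [C.tail_σ, C.tail_σ, C.tail_σ]
  -- (1)
  have e1 : P.card + 4 ≤ 2 * (N'.card + Fintype.card κ) := by
    let L1 : {n // n ∈ N'} ⊕ κ → Set (N ⊕ F) := Sum.elim (fun n => {.inl n.1}) K
    have hL1c : ∀ i, (C.TG.induce (L1 i)).Connected := by
      rintro (n | k)
      · exact conn_singleton _
      · exact hKc k
    have hL1L : ∀ i j, i ≠ j → Disjoint (L1 i) (L1 j) := by
      rintro (n | k) (m | l) hne
      · simp only [L1, Sum.elim_inl, Set.disjoint_singleton]
        intro heq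
        exact hne (by rw [Subtype.ext (Sum.inl.inj heq)])
      · simp only [L1, Sum.elim_inl, Sum.elim_inr, Set.disjoint_singleton_left]
        exact hKN l n.1 n.2
      · simp only [L1, Sum.elim_inl, Sum.elim_inr, Set.disjoint_singleton_right]
        exact hKN k m.1 m.2
      · exact hKK k l (fun heq => hne (by rw [heq]))
    have hL1H : ∀ i (B : {B // B ∈ P}), Disjoint (L1 i) (HB B.1) := by
      rintro (n | k) B
      · simp only [L1, Sum.elim_inl, Set.disjoint_singleton_left]
        exact hNB n.1 n.2 B.1 B.2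
      · exact hKH k B.1 B.2
    have hex : ∀ B : {B // B ∈ P}, ∃ a : Fin 3 → {n // n ∈ N'} ⊕ κ, Function.Injective a ∧
        ∀ j, ∃ x ∈ HB B.1, ∃ y ∈ L1 (a j), C.TG.Adj x y := by
      rintro ⟨B, hB⟩
      by_cases hT : C.TypeT isX B
      · obtain ⟨f, hf, hf'⟩ := exists_three _ hT.bd
        refine ⟨fun j => .inl ⟨f j, hinN B hB _ (hf' j)⟩, ?_, ?_⟩
        · intro i j hij
          exact hf (by simpa using hij)
        · intro j
          obtain ⟨x, hx, hx'⟩ := hadjB B hB _ (hf' j)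
          exact ⟨x, hx, .inl (f j), rfl, hx'⟩
      · have hb := hg B hB hT
        obtain ⟨hw1, hw2⟩ := w_ne h hb
        have hu := huB B hB hT
        have hv := hvB B hB hT
        obtain ⟨xu, hxu, hxu'⟩ := hadjB B hB _ hu
        obtain ⟨xv, hxv, hxv'⟩ := hadjB B hB _ hv
        by_cases hw : C.head (C.σ (C.σ (C.σ (g B)))) ∈ N'
        · obtain ⟨xw, hxw, hxw'⟩ := hwadj B hB hT
          refine ⟨![.inl ⟨_, hinN B hB _ hu⟩, .inl ⟨_, hinN B hB _ hv⟩, .inl ⟨_, hw⟩],
            inj3 ?_ ?_ ?_, ?_⟩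
          · intro heq
            exact hb.u_ne_v (by simpa using heq)
          · intro heq
            exact hw1 (by simpa using heq)
          · intro heq
            exact hw2 (by simpa using heq)
          · intro j
            fin_cases j
            · exact ⟨xu, hxu, _, rfl, hxu'⟩
            · exact ⟨xv, hxv, _, rfl, hxv'⟩
            · exact ⟨xw, hxw, _, rfl, hxw'⟩
        · obtain ⟨k, y, hy, hy'⟩ := hKw B hB _ hb hw
          refine ⟨![.inl ⟨_, hinN B hB _ hu⟩, .inl ⟨_, hinN B hB _ hv⟩, .inr k],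
            inj3 ?_ ?_ ?_, ?_⟩
          · intro heq
            exact hb.u_ne_v (by simpa using heq)
          · intro heq
            exact absurd heq (by simp)
          · intro heq
            exact absurd heq (by simp)
          · intro j
            fin_cases j
            · exact ⟨xu, hxu, _, rfl, hxu'⟩
            · exact ⟨xv, hxv, _, rfl, hxv'⟩
            · refine ⟨.inl (C.tail (g B)), ?_, y, hy, hy'.symm⟩
              simp only [HB, if_neg hT]
              exact Or.inr rfl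
    choose a ha1 ha2 using hex
    have := minor3 C h.planar L1 (fun B : {B // B ∈ P} => HB B.1) hL1c
      (fun B => hHBc B.1 B.2) hL1L
      (fun B B' hne => hHH B.1 B.2 B'.1 B'.2 (fun heq => hne (Subtype.ext heq))) hL1H a ha1 ha2
      (by
        rw [Fintype.card_sum, Fintype.card_coe]
        omega)
    rw [Fintype.card_sum, Fintype.card_coe, Fintype.card_coe] at this
    exact this
  -- the sets {inl n}
  let L2 : {n // n ∈ N'} → Set (N ⊕ F) := fun n => {.inl n.1}
  have hL2c : ∀ i, (C.TG.induce (L2 i)).Connected := fun n => conn_singleton _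
  have hL2L : ∀ i j, i ≠ j → Disjoint (L2 i) (L2 j) := by
    intro n m hne
    simp only [L2, Set.disjoint_singleton]
    intro heq
    exact hne (Subtype.ext (Sum.inl.inj heq))
  -- (2)
  let P1 : Finset (Finset N) := P.filter (fun B => C.TypeT isX B ∨
    C.head (C.σ (C.σ (C.σ (g B)))) ∈ N')
  have e2 : P1.card + Fintype.card κ + 4 ≤ 2 * N'.card := by
    let H2 : {B // B ∈ P1} ⊕ κ → Set (N ⊕ F) := Sum.elim (fun B => HB B.1) K
    have hmem : ∀ B : {B // B ∈ P1}, B.1 ∈ P := fun B => (mem_filter.1 B.2).1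
    have hH2c : ∀ i, (C.TG.induce (H2 i)).Connected := by
      rintro (B | k)
      · exact hHBc B.1 (hmem B)
      · exact hKc k
    have hH2H : ∀ i j, i ≠ j → Disjoint (H2 i) (H2 j) := by
      rintro (B | k) (B' | l) hne
      · exact hHH B.1 (hmem B) B'.1 (hmem B') (fun heq => hne (by rw [Subtype.ext heq]))
      · exact (hKH l B.1 (hmem B)).symm
      · exact hKH k B'.1 (hmem B')
      · exact hKK k l (fun heq => hne (by rw [heq]))
    have hL2H : ∀ i k, Disjoint (L2 i) (H2 k) := by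
      rintro n (B | k)
      · simp only [L2, H2, Sum.elim_inl, Set.disjoint_singleton_left]
        exact hNB n.1 n.2 B.1 (hmem B)
      · simp only [L2, H2, Sum.elim_inr, Set.disjoint_singleton_left]
        exact hKN k n.1 n.2
    have hex : ∀ i : {B // B ∈ P1} ⊕ κ, ∃ a : Fin 3 → {n // n ∈ N'}, Function.Injective a ∧
        ∀ j, ∃ x ∈ H2 i, ∃ y ∈ L2 (a j), C.TG.Adj x y := by
      rintro (⟨B, hB1⟩ | k)
      · obtain ⟨hB, hB2⟩ := mem_filter.1 hB1
        by_cases hT : C.TypeT isX B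
        · obtain ⟨f, hf, hf'⟩ := exists_three _ hT.bd
          refine ⟨fun j => ⟨f j, hinN B hB _ (hf' j)⟩, ?_, ?_⟩
          · intro i j hij
            exact hf (by simpa using hij)
          · intro j
            obtain ⟨x, hx, hx'⟩ := hadjB B hB _ (hf' j)
            exact ⟨x, hx, .inl (f j), rfl, hx'⟩
        · have hw : C.head (C.σ (C.σ (C.σ (g B)))) ∈ N' := by
            rcases hB2 with h1 | h1
            · exact absurd h1 hT
            · exact h1
          have hb := hg B hB hT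
          obtain ⟨hw1, hw2⟩ := w_ne h hb
          have hu := huB B hB hT
          have hv := hvB B hB hT
          obtain ⟨xu, hxu, hxu'⟩ := hadjB B hB _ hu
          obtain ⟨xv, hxv, hxv'⟩ := hadjB B hB _ hv
          obtain ⟨xw, hxw, hxw'⟩ := hwadj B hB hT
          refine ⟨![⟨_, hinN B hB _ hu⟩, ⟨_, hinN B hB _ hv⟩, ⟨_, hw⟩],
            inj3 ?_ ?_ ?_, ?_⟩
          · intro heq
            exact hb.u_ne_v (by simpa using heq)
          · intro heq
            exact hw1 (by simpa using heq)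
          · intro heq
            exact hw2 (by simpa using heq)
          · intro j
            fin_cases j
            · exact ⟨xu, hxu, _, rfl, hxu'⟩
            · exact ⟨xv, hxv, _, rfl, hxv'⟩
            · exact ⟨xw, hxw, _, rfl, hxw'⟩
      · obtain ⟨a, ha, ha'⟩ := hK3 k
        refine ⟨fun j => ⟨a j, (ha' j).1⟩, ?_, ?_⟩
        · intro i j hij
          exact ha (by simpa using hij)
        · intro j
          obtain ⟨x, hx, hx'⟩ := (ha' j).2
          exact ⟨x, hx, .inl (a j), rfl, hx'⟩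
    choose a ha1 ha2 using hex
    have := minor3 C h.planar L2 H2 hL2c hH2c hL2L hH2H hL2H a ha1 ha2
      (by rw [Fintype.card_coe]; exact hbd)
    rw [Fintype.card_sum, Fintype.card_coe, Fintype.card_coe] at this
    exact this
  -- (3)
  let P2 : Finset (Finset N) := P.filter (fun B => ¬ C.TypeT isX B)
  have e3 : P2.card + 6 ≤ 3 * N'.card := by
    have hmem : ∀ B : {B // B ∈ P2}, B.1 ∈ P := fun B => (mem_filter.1 B.2).1
    have hnT : ∀ B : {B // B ∈ P2}, ¬ C.TypeT isX B.1 := fun B => (mem_filter.1 B.2).2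
    let a : {B // B ∈ P2} → Fin 2 → {n // n ∈ N'} := fun B =>
      ![⟨_, hinN B.1 (hmem B) _ (huB B.1 (hmem B) (hnT B))⟩,
        ⟨_, hinN B.1 (hmem B) _ (hvB B.1 (hmem B) (hnT B))⟩]
    have := minor2 C h.planar L2 (fun B : {B // B ∈ P2} => HB B.1) hL2c
      (fun B => hHBc B.1 (hmem B)) hL2L
      (fun B B' hne => hHH B.1 (hmem B) B'.1 (hmem B') (fun heq => hne (Subtype.ext heq)))
      (by
        intro n B
        simp only [L2, Set.disjoint_singleton_left]
        exact hNB n.1 n.2 B.1 (hmem B))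
      a
      (by
        intro B heq
        exact (hg B.1 (hmem B) (hnT B)).u_ne_v (by simpa [a] using heq))
      (by
        intro B B' hne heq
        have h1 := (hg B.1 (hmem B) (hnT B))
        have h2 := (hg B'.1 (hmem B') (hnT B'))
        apply hne
        apply Subtype.ext
        apply hpairs.1 B.1 (hmem B) B'.1 (hmem B') _ _ h1 h2
        rw [h1.bd, h2.bd]
        have h3 : (Subtype.val '' ({a B 0, a B 1} : Set {n // n ∈ N'})) =
            (Subtype.val '' ({a B' 0, a B' 1} : Set {n // n ∈ N'})) := by rw [heq]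
        rw [Set.image_pair, Set.image_pair] at h3
        apply Finset.coe_injective
        rw [Finset.coe_pair, Finset.coe_pair]
        exact h3)
      (by
        intro B j
        fin_cases j
        · obtain ⟨x, hx, hx'⟩ := hadjB B.1 (hmem B) _ (huB B.1 (hmem B) (hnT B))
          exact ⟨x, hx, _, rfl, hx'⟩
        · obtain ⟨x, hx, hx'⟩ := hadjB B.1 (hmem B) _ (hvB B.1 (hmem B) (hnT B))
          exact ⟨x, hx, _, rfl, hx'⟩)
      (by rw [Fintype.card_coe]; exact hbd)
    rw [Fintype.card_coe, Fintype.card_coe] at this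
    exact this
  -- counting
  have e4 : P.card = (P.filter (fun B => C.TypeT isX B)).card + P2.card := by
    rw [← Finset.card_filter_add_card_filter_not (s := P) (fun B => C.TypeT isX B)]
  have e5 : (P.filter (fun B => C.TypeT isX B)).card ≤ P1.card := by
    apply Finset.card_le_card
    intro B hB
    rw [mem_filter] at hB ⊢
    exact ⟨hB.1, Or.inl hB.2⟩
  omega

end Pool.Agent.Lib.MP_9ad789_co
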