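import Pool.Agent.Lib.MP_9ad789_co.Cell

/-!
# MP_9ad789_co : DECOMP (blocks of a set of real vertices)
-/

namespace Pool.Agent.Lib.MP_9ad789_co

open Equiv Finset

variable {D N F : Type} [Fintype D] [Fintype N] [Fintype F]
  [DecidableEq D] [DecidableEq N] [DecidableEq F]

namespace DecompAux

/-- Two vertices of `A` on a common face. -/
def Rel (C : Cell D N F) (A : Finset N) (v w : N) : Prop :=
  v ∈ A ∧ w ∈ A ∧ ∃ d d', C.tail d = v ∧ C.tail d' = w ∧ C.left d = C.left d'

omit [Fintype D] [Fintype N] [Fintype F] [DecidableEq D] [DecidableEq N] [DecidableEq F] in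
theorem Rel.symm {C : Cell D N F} {A : Finset N} {v w : N} (h : Rel C A v w) : Rel C A w v := by
  obtain ⟨h1, h2, d, d', h3, h4, h5⟩ := h
  exact ⟨h2, h1, d', d, h4, h3, h5.symm⟩

/-- Connected by common faces in `A`. -/
def Cnct (C : Cell D N F) (A : Finset N) (v w : N) : Prop :=
  Relation.ReflTransGen (Rel C A) v w

omit [Fintype D] [Fintype N] [Fintype F] [DecidableEq D] [DecidableEq N] [DecidableEq F] in
theorem Cnct.symm {C : Cell D N F} {A : Finset N} {v w : N} (h : Cnct C A v w) : Cnct C A w v := by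
  unfold Cnct at *
  induction h with
  | refl => exact Relation.ReflTransGen.refl
  | tail _ h2 ih => exact Relation.ReflTransGen.head h2.symm ih

open Classical in
/-- The block of `v`. -/
noncomputable def blk (C : Cell D N F) (A : Finset N) (v : N) : Finset N :=
  A.filter (fun w => Cnct C A v w)

omit [Fintype D] [Fintype N] [Fintype F] [DecidableEq D] [DecidableEq N] [DecidableEq F] in
theorem mem_blk {C : Cell D N F} {A : Finset N} {v w : N} :
    w ∈ blk C A v ↔ w ∈ A ∧ Cnct C A v w := by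
  simp [blk]

omit [Fintype D] [Fintype N] [Fintype F] [DecidableEq D] [DecidableEq N] [DecidableEq F] in
theorem blk_eq {C : Cell D N F} {A : Finset N} {v w : N} (h : Cnct C A v w) :
    blk C A v = blk C A w := by
  ext x
  rw [mem_blk, mem_blk]
  exact ⟨fun hx => ⟨hx.1, Relation.ReflTransGen.trans h.symm hx.2⟩,
    fun hx => ⟨hx.1, Relation.ReflTransGen.trans h hx.2⟩⟩

end DecompAux

open DecompAux

theorem exists_blocks (C : Cell D N F) (isX : N → Prop) [DecidablePred isX] (o : F)
    (A : Finset N) (hA : ∀ n ∈ A, ¬ isX n) :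
    ∃ P : Finset (Finset N), (∀ B ∈ P, B.Nonempty ∧ B ⊆ A ∧ C.FaceConn B ∧
        C.bdry isX B ⊆ C.bdry isX A) ∧
      (∀ B ∈ P, ∀ B' ∈ P, B ≠ B' → Disjoint (C.facesOf B) (C.facesOf B') ∧ Disjoint B B') ∧
      C.excess isX o A = ∑ B ∈ P, C.excess isX o B := by
  have _ := hA
  have hfaces : ∀ (B : Finset N) (f : F), f ∈ C.facesOf B ↔ ∃ d, C.tail d ∈ B ∧ C.left d = f := by
    intro B f
    simp [Cell.facesOf]
  have hdisj : ∀ B ∈ A.image (blk C A), ∀ B' ∈ A.image (blk C A), B ≠ B' →
      Disjoint (C.facesOf B) (C.facesOf B') ∧ Disjoint B B' := by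
    intro B hB B' hB' hne
    obtain ⟨v, hv, rfl⟩ := Finset.mem_image.1 hB
    obtain ⟨v', hv', rfl⟩ := Finset.mem_image.1 hB'
    refine ⟨?_, ?_⟩
    · rw [Finset.disjoint_left]
      intro f hf hf'
      obtain ⟨d, hd, hdf⟩ := (hfaces _ _).1 hf
      obtain ⟨d', hd', hdf'⟩ := (hfaces _ _).1 hf'
      rw [mem_blk] at hd hd'
      apply hne
      apply blk_eq
      have h1 : Rel C A (C.tail d) (C.tail d') :=
        ⟨hd.1, hd'.1, d, d', rfl, rfl, hdf.trans hdf'.symm⟩
      exact (Relation.ReflTransGen.trans (Relation.ReflTransGen.tail hd.2 h1) hd'.2.symm)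
    · rw [Finset.disjoint_left]
      intro w hw hw'
      rw [mem_blk] at hw hw'
      apply hne
      apply blk_eq
      exact Relation.ReflTransGen.trans hw.2 hw'.2.symm
  refine ⟨A.image (blk C A), ?_, hdisj, ?_⟩
  · intro B hB
    obtain ⟨v, hv, rfl⟩ := Finset.mem_image.1 hB
    have hvv : v ∈ blk C A v := mem_blk.2 ⟨hv, Relation.ReflTransGen.refl⟩
    have hsub : blk C A v ⊆ A := fun w hw => (mem_blk.1 hw).1
    refine ⟨⟨v, hvv⟩, hsub, ?_, ?_⟩
    · intro B1 hB1 hne hcl
      apply Finset.Subset.antisymm hB1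
      intro w hw
      obtain ⟨x, hx⟩ := hne
      have hx' := mem_blk.1 (hB1 hx)
      have hw' := mem_blk.1 hw
      have hxw : Cnct C A x w := Relation.ReflTransGen.trans hx'.2.symm hw'.2
      have key : ∀ y, Cnct C A x y → y ∈ B1 := by
        intro y hy
        unfold Cnct at hy
        induction hy with
        | refl => exact hx
        | tail h1 h2 ih =>
          obtain ⟨h3, h4, d, d', h5, h6, h7⟩ := h2
          rw [← h6]
          apply hcl d d' (by rw [h5]; exact ih) _ h7
          rw [h6]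
          refine mem_blk.2 ⟨h4, ?_⟩
          exact Relation.ReflTransGen.trans hx'.2
            (Relation.ReflTransGen.tail h1 ⟨h3, h4, d, d', h5, h6, h7⟩)
      exact key w hxw
    · intro n hn
      simp only [Cell.bdry, Finset.mem_filter, Finset.mem_univ, true_and] at hn ⊢
      obtain ⟨h1, h2, d, h3, h4⟩ := hn
      obtain ⟨d', h5, h6⟩ := (hfaces _ _).1 h4
      refine ⟨h1, ?_, d, h3, (hfaces _ _).2 ⟨d', hsub h5, h6⟩⟩
      intro hnA
      apply h2
      have h7 := mem_blk.1 h5
      exact mem_blk.2 ⟨hnA, Relation.ReflTransGen.tail h7.2 ⟨h7.1, hnA, d', d, rfl, h3, h6⟩⟩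
  · have hAeq : A = (A.image (blk C A)).biUnion id := by
      ext w
      simp only [Finset.mem_biUnion, id]
      constructor
      · intro hw
        exact ⟨blk C A w, Finset.mem_image_of_mem _ hw, mem_blk.2 ⟨hw, Relation.ReflTransGen.refl⟩⟩
      · rintro ⟨B, hB, hw⟩
        obtain ⟨v, hv, rfl⟩ := Finset.mem_image.1 hB
        exact (mem_blk.1 hw).1
    have hFeq : C.facesOf A = (A.image (blk C A)).biUnion (fun B => C.facesOf B) := by
      ext f
      rw [Finset.mem_biUnion, hfaces]
      constructor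
      · rintro ⟨d, hd, hdf⟩
        exact ⟨blk C A (C.tail d), Finset.mem_image_of_mem _ hd,
          (hfaces _ _).2 ⟨d, mem_blk.2 ⟨hd, Relation.ReflTransGen.refl⟩, hdf⟩⟩
      · rintro ⟨B, hB, hf⟩
        obtain ⟨v, hv, rfl⟩ := Finset.mem_image.1 hB
        obtain ⟨d, hd, hdf⟩ := (hfaces _ _).1 hf
        exact ⟨d, (mem_blk.1 hd).1, hdf⟩
    unfold Cell.excess
    rw [Finset.sum_sub_distrib, hFeq, Finset.sum_biUnion, ← Finset.mul_sum]
    · congr 2
      conv_lhs => rw [hAeq]
      rw [Finset.card_biUnion]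
      · push_cast
        rfl
      · intro B hB B' hB' hne
        exact (hdisj B hB B' hB' hne).2
    · intro B hB B' hB' hne
      exact (hdisj B hB B' hB' hne).1

end Pool.Agent.Lib.MP_9ad789_co
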