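import Pool.Agent.Lib.MP_9ad789_co.Cell

/-!
# MP_9ad789_co : the demand of the faces (module DEM)
-/

set_option linter.unusedSectionVars false

namespace Pool.Agent.Lib.MP_9ad789_co

open Equiv Finset

namespace Exc

variable {D N F : Type} [Fintype D] [Fintype N] [Fintype F]
  [DecidableEq D] [DecidableEq N] [DecidableEq F]
variable {C : Cell D N F} {isX : N → Prop} [DecidablePred isX]

theorem same_pow (hT : C.Tight) {d d' : D} (h : C.tail d = C.tail d') :
    ∃ i : ℕ, (C.σ ^ i) d = d' := by
  obtain ⟨i, _, hi⟩ := (hT.tail_same d d' h).exists_pow_eq'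
  exact ⟨i, hi⟩

/-- A property of darts which is preserved by `σ` at a node holds at all darts of the node. -/
theorem rot_induct (hT : C.Tight) {P : D → Prop} {d d' : D} (h : C.tail d = C.tail d')
    (hd : P d) (hs : ∀ e, C.tail e = C.tail d → P e → P (C.σ e)) : P d' := by
  obtain ⟨i, rfl⟩ := same_pow hT h
  clear h
  have key : ∀ i : ℕ, C.tail ((C.σ ^ i) d) = C.tail d ∧ P ((C.σ ^ i) d) := by
    intro i
    induction i with
    | zero => exact ⟨rfl, hd⟩
    | succ i ih =>
      rw [pow_succ', Perm.mul_apply]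
      exact ⟨by rw [C.tail_σ, ih.1], hs _ ih.1 ih.2⟩
  exact (key i).2

theorem card_x (h : C.OneP isX) {n : N} (hn : isX n) :
    (univ.filter (fun d => C.tail d = n)).card = 4 := by
  obtain ⟨d, rfl⟩ := C.tail_surj n
  have h4 : ∀ e, C.tail e = C.tail d → C.σ (C.σ (C.σ (C.σ e))) = e := fun e he =>
    h.x_four e (by rw [he]; exact hn)
  have h2 : ∀ e, C.tail e = C.tail d → C.σ (C.σ e) ≠ e := fun e he =>
    h.x_two e (by rw [he]; exact hn)
  have t1 : C.tail (C.σ d) = C.tail d := C.tail_σ d
  have t2 : C.tail (C.σ (C.σ d)) = C.tail d := by rw [C.tail_σ, C.tail_σ]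
  have t3 : C.tail (C.σ (C.σ (C.σ d))) = C.tail d := by rw [C.tail_σ, C.tail_σ, C.tail_σ]
  have h1 : ∀ e, C.tail e = C.tail d → C.σ e ≠ e := fun e he h' => h2 e he (by rw [h', h'])
  have e1 : C.σ d ≠ d := h1 d rfl
  have e2 : C.σ (C.σ d) ≠ d := h2 d rfl
  have e3 : C.σ (C.σ (C.σ d)) ≠ d := fun h' => by
    have := h4 d rfl
    rw [h'] at this
    exact e1 this
  have e4 : C.σ (C.σ d) ≠ C.σ d := h1 _ t1
  have e5 : C.σ (C.σ (C.σ d)) ≠ C.σ d := h2 _ t1
  have e6 : C.σ (C.σ (C.σ d)) ≠ C.σ (C.σ d) := h1 _ t2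
  have : univ.filter (fun e => C.tail e = C.tail d) =
      {d, C.σ d, C.σ (C.σ d), C.σ (C.σ (C.σ d))} := by
    ext e
    simp only [mem_filter, mem_univ, true_and, mem_insert, mem_singleton]
    constructor
    · intro he
      refine rot_induct h.tight (P := fun e => e = d ∨ e = C.σ d ∨ e = C.σ (C.σ d) ∨
        e = C.σ (C.σ (C.σ d))) he.symm (Or.inl rfl) ?_
      rintro e - (rfl | rfl | rfl | rfl)
      · exact Or.inr (Or.inl rfl)
      · exact Or.inr (Or.inr (Or.inl rfl))
      · exact Or.inr (Or.inr (Or.inr rfl))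
      · exact Or.inl (h4 _ rfl)
    · rintro (rfl | rfl | rfl | rfl)
      · rfl
      · exact t1
      · exact t2
      · exact t3
  rw [this, card_insert_of_notMem, card_insert_of_notMem, card_insert_of_notMem, card_singleton]
  · simpa using e6.symm
  · simp only [mem_insert, mem_singleton, not_or]
    exact ⟨e4.symm, e5.symm⟩
  · simp only [mem_insert, mem_singleton, not_or]
    exact ⟨e1.symm, e2.symm, e3.symm⟩

/-- The number of darts with crossing tail. -/
theorem card_xdarts (h : C.OneP isX) :
    (univ.filter (fun d => isX (C.tail d))).card = 4 * (univ.filter (fun n => isX n)).card := by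
  rw [card_eq_sum_card_fiberwise (f := C.tail) (t := univ.filter (fun n => isX n))]
  · rw [sum_congr rfl (g := fun _ => 4), sum_const, smul_eq_mul, mul_comm]
    intro n hn
    rw [mem_filter] at hn
    rw [← card_x h hn.2]
    congr 1
    ext d
    simp only [mem_filter, mem_univ, true_and]
    constructor
    · exact fun hd => hd.2
    · exact fun hd => ⟨by rw [hd]; exact hn.2, hd⟩
  · intro d hd
    simpa using hd

theorem wt_sum (p : D → Prop) [DecidablePred p] :
    (∑ d with p d, if isX (C.tail d) then (1 : ℤ) else 2) =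
      2 * ((univ.filter p).card : ℤ) - ((univ.filter (fun d => p d ∧ isX (C.tail d))).card : ℤ) := by
  have : ∀ d, (if isX (C.tail d) then (1 : ℤ) else 2) = 2 - if isX (C.tail d) then 1 else 0 := by
    intro d
    split_ifs <;> norm_num
  rw [sum_congr rfl (fun d _ => this d), sum_sub_distrib, sum_const, nsmul_eq_mul, ← sum_filter,
    sum_const, nsmul_eq_mul, mul_one, filter_filter]
  ring

theorem demand_sum (o : F) (S : Finset F) :
    ∑ f ∈ S, C.demand isX o f =
      2 * ((univ.filter (fun d => C.left d ∈ S)).card : ℤ) -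
      ((univ.filter (fun d => C.left d ∈ S ∧ isX (C.tail d))).card : ℤ) - 4 * S.card +
      (if o ∈ S then 8 else 0) := by
  unfold Cell.demand
  rw [sum_add_distrib, sum_sub_distrib, sum_const, nsmul_eq_mul]
  have h1 : ∑ f ∈ S, (∑ d with C.left d = f, if isX (C.tail d) then (1 : ℤ) else 2) =
      ∑ d with C.left d ∈ S, if isX (C.tail d) then (1 : ℤ) else 2 := by
    rw [← sum_fiberwise_of_maps_to (s := univ.filter (fun d => C.left d ∈ S)) (t := S)
      (g := C.left) (by intro d hd; simpa using hd)]
    refine sum_congr rfl fun f hf => ?_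
    rw [filter_filter]
    refine sum_congr ?_ fun _ _ => rfl
    ext d
    simp only [mem_filter, mem_univ, true_and]
    constructor
    · exact fun hd => ⟨by rw [hd]; exact hf, hd⟩
    · exact fun hd => hd.2
  have h2 : (∑ f ∈ S, if f = o then (8 : ℤ) else 0) = if o ∈ S then 8 else 0 := by
    rw [sum_ite_eq' S o (fun _ => (8 : ℤ))]
  rw [h1, h2, wt_sum]
  ring

theorem card_real_add : (univ.filter (fun n : N => isX n)).card +
    (univ.filter (fun n : N => ¬ isX n)).card = Fintype.card N := by
  rw [← card_univ]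
  exact card_filter_add_card_filter_not isX

end Exc

open Exc

section B

variable {D N F : Type} [Fintype D] [Fintype N] [Fintype F]
  [DecidableEq D] [DecidableEq N] [DecidableEq F]
variable {C : Cell D N F} {isX : N → Prop} [DecidablePred isX]

/-- Every face has at least two real corners. -/
theorem Exc.two_real (h : C.OneP isX) (f : F) : ∃ d d', d ≠ d' ∧ C.left d = f ∧ C.left d' = f ∧
    ¬ isX (C.tail d) ∧ ¬ isX (C.tail d') := by
  obtain ⟨c, rfl⟩ := C.left_surj f
  have hreal : ∃ d, C.left d = C.left c ∧ ¬ isX (C.tail d) := by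
    by_cases hc : isX (C.tail c)
    · refine ⟨C.φ c, C.left_φ c, ?_⟩
      rw [C.tail_φ']
      exact h.x_real c hc
    · exact ⟨c, rfl, hc⟩
  obtain ⟨d, hdf, hd⟩ := hreal
  by_cases h1 : isX (C.tail (C.φ d))
  · refine ⟨d, C.φ (C.φ d), ?_, hdf, ?_, hd, ?_⟩
    · intro hdd
      apply h.x_adj (C.φ d) h1
      rw [C.σ_φ, C.head_α]
      have := C.tail_φ' (C.φ d)
      rw [← this, ← hdd]
    · rw [C.left_φ, C.left_φ, hdf]
    · rw [C.tail_φ']
      exact h.x_real _ h1
  · refine ⟨d, C.φ d, ?_, hdf, ?_, hd, h1⟩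
    · intro hdd
      apply h.no_loop d hd
      have h2 : ¬ isX (C.head d) := by rw [← C.tail_φ']; exact h1
      unfold Cell.opp
      rw [if_neg h2, C.tail_α, ← C.tail_φ', ← hdd]
    · rw [C.left_φ, hdf]

theorem demand_nonneg (h : C.OneP isX) (o f : F) : 0 ≤ C.demand isX o f := by
  obtain ⟨d, d', hne, hd, hd', hr, hr'⟩ := Exc.two_real h f
  have h1 : (4 : ℤ) ≤ ∑ d with C.left d = f, if isX (C.tail d) then (1 : ℤ) else 2 := by
    have hsub : ({d, d'} : Finset D) ⊆ univ.filter (fun d => C.left d = f) := by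
      intro e he
      simp only [mem_insert, mem_singleton] at he
      rcases he with rfl | rfl
      · simpa using hd
      · simpa using hd'
    refine le_trans (le_of_eq ?_) (sum_le_sum_of_subset_of_nonneg hsub fun e _ _ => ?_)
    · rw [sum_pair hne, if_neg hr, if_neg hr']
      norm_num
    · split_ifs <;> norm_num
  unfold Cell.demand
  split_ifs <;> linarith

theorem sum_demand (h : C.OneP isX) (o : F) :
    ∑ f, C.demand isX o f = 4 * ((univ.filter (fun n => ¬ isX n)).card : ℤ) := by
  rw [demand_sum]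
  have h1 : (univ.filter (fun d => C.left d ∈ (univ : Finset F))).card = Fintype.card D := by
    simp
  have h2 : (univ.filter (fun d => C.left d ∈ (univ : Finset F) ∧ isX (C.tail d))).card =
      4 * (univ.filter (fun n => isX n)).card := by
    rw [← card_xdarts h]
    simp
  have h3 := h.planar
  unfold Cell.Planar at h3
  have h4 := Exc.card_real_add (N := N) (isX := isX)
  rw [h1, h2, card_univ]
  simp only [mem_univ, if_true]
  omega

end B

end Pool.Agent.Lib.MP_9ad789_co
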