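import Pool.Agent.Lib.MP_9ad789_co.H4

/-!
# MP_9ad789_co : directions of the darts of a flat map
-/

set_option linter.unusedSectionVars false

namespace Pool.Agent.Lib.MP_9ad789_co

open Equiv Finset

variable {D N F : Type} [Fintype D] [Fintype N] [Fintype F]
  [DecidableEq D] [DecidableEq N] [DecidableEq F]

namespace DirAux

variable {R : Type} [CommRing R] [Finite R]

/-- cyclic differences -/
def cdiff (σ : Perm D) (R : Type) [CommRing R] : (D → R) →+ (D → R) where
  toFun p d := p (σ d) - p d
  map_zero' := by
    funext d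
    simp
  map_add' a b := by
    funext d
    simp only [Pi.add_apply]
    ring

/-- node sums -/
def nsum (t : D → N) (R : Type) [CommRing R] : (D → R) →+ (N → R) where
  toFun w n := ∑ d with t d = n, w d
  map_zero' := by
    funext f
    simp
  map_add' a b := by
    funext f
    simp [sum_add_distrib]

/-- a function whose sum over every cycle vanishes is a cyclic difference -/
theorem exists_pot (σ : Perm D) (t : D → N) (ht : Function.Surjective t)
    (h1 : ∀ d, t (σ d) = t d) (h2 : ∀ d d', t d = t d' → σ.SameCycle d d') (w : D → R)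
    (hw : ∀ n, ∑ d with t d = n, w d = 0) : ∃ p : D → R, ∀ d, p (σ d) = p d + w d := by
  classical
  set q := Nat.card R with hq
  have hq0 : 0 < q := Nat.card_pos
  choose b hb using ht
  have c1 := H4aux.card_range_mul (cdiff σ R)
  have c2 := H4aux.card_range_mul (nsum t R)
  have c3 : Nat.card (D → R) = q ^ Fintype.card D := by
    rw [Nat.card_fun, Nat.card_eq_fintype_card (α := D)]
  have c4 : Nat.card (N → R) = q ^ Fintype.card N := by
    rw [Nat.card_fun, Nat.card_eq_fintype_card (α := N)]
  have hker : ∀ p : D → R, cdiff σ R p = 0 → ∀ d d', t d = t d' → p d = p d' := by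
    intro p hp d d' hdd
    have h3 : ∀ d, p (σ d) = p d := fun d => sub_eq_zero.mp (congrFun hp d)
    have h4 : ∀ (k : ℕ) (d : D), p ((σ ^ k) d) = p d := by
      intro k
      induction k with
      | zero => intro d; rfl
      | succ k ih => intro d; rw [pow_succ, Perm.mul_apply, ih, h3]
    obtain ⟨k, -, hk⟩ := (h2 d d' hdd).exists_pow_eq'
    rw [← hk, h4]
  have c5 : Nat.card (cdiff σ R).ker ≤ q ^ Fintype.card N := by
    rw [← c4]
    apply Nat.card_le_card_of_injective (fun (p : (cdiff σ R).ker) (n : N) => p.1 (b n))
    rintro ⟨p, hp⟩ ⟨p', hp'⟩ hpp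
    apply Subtype.ext
    funext d
    change p d = p' d
    have h3 := congrFun hpp (t d)
    change p (b (t d)) = p' (b (t d)) at h3
    rw [hker p hp (b (t d)) d (hb _), hker p' hp' (b (t d)) d (hb _)] at h3
    exact h3
  have c6 : Nat.card (nsum t R).range = q ^ Fintype.card N := by
    rw [← c4]
    have hsurj : (nsum t R).range = ⊤ := by
      rw [AddMonoidHom.range_eq_top]
      intro c
      refine ⟨fun d => if d = b (t d) then c (t d) else 0, ?_⟩
      funext n
      change ∑ d with t d = n, (if d = b (t d) then c (t d) else 0) = c n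
      rw [sum_filter, sum_eq_single (b n)]
      · simp [hb]
      · intro d _ hd
        by_cases h : t d = n
        · subst h
          simp [hd]
        · simp [h]
      · simp
    rw [hsurj]
    exact Nat.card_congr AddSubgroup.topEquiv.toEquiv
  have c7 : Nat.card (nsum t R).ker ≤ Nat.card (cdiff σ R).range := by
    rw [c3] at c1 c2
    rw [c6] at c2
    have hpos : 0 < q ^ Fintype.card N := by positivity
    apply Nat.le_of_mul_le_mul_right _ hpos
    rw [c2, ← c1, mul_comm]
    exact Nat.mul_le_mul_left _ c5
  have hle : (cdiff σ R).range ≤ (nsum t R).ker := by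
    rintro _ ⟨p, rfl⟩
    rw [AddMonoidHom.mem_ker]
    funext n
    change ∑ d with t d = n, (p (σ d) - p d) = 0
    rw [sum_sub_distrib, sub_eq_zero]
    apply sum_bij' (fun d _ => σ d) (fun d _ => σ.symm d)
    · intro d hd
      simp only [mem_filter, mem_univ, true_and] at hd ⊢
      rw [h1, hd]
    · intro d hd
      simp only [mem_filter, mem_univ, true_and] at hd ⊢
      rw [← h1 (σ.symm d), Equiv.apply_symm_apply, hd]
    · intro d _
      simp
    · intro d _
      simp
    · intro d _
      rfl
  have heq : (cdiff σ R).range = (nsum t R).ker := AddSubgroup.eq_of_le_of_card_ge hle c7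
  have hmem : w ∈ (nsum t R).ker := by
    rw [AddMonoidHom.mem_ker]
    funext n
    exact hw n
  rw [← heq] at hmem
  obtain ⟨p, hp⟩ := hmem
  refine ⟨p, fun d => ?_⟩
  have h3 := congrFun hp d
  change p (σ d) - p d = w d at h3
  rw [← h3]
  ring

end DirAux

theorem flat_planar (M : Flat D N F) : M.toCell.Planar := by
  have h1 : ∑ n : N, ∑ d with M.tail d = n, (2 - M.turn (M.φ.symm d)) = ∑ _n : N, (4 : ℤ) :=
    sum_congr rfl fun n _ => M.node_sum n
  have h2 : ∑ f : F, ∑ d with M.left d = f, M.turn d = ∑ f : F, (if f = M.outer then (-4 : ℤ) else 4) :=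
    sum_congr rfl fun f _ => M.face_sum f
  rw [sum_fiberwise] at h1 h2
  have h3 : ∑ f : F, (if f = M.outer then (-4 : ℤ) else 4) = 4 * Fintype.card F - 8 := by
    have : ∀ f : F, (if f = M.outer then (-4 : ℤ) else 4) = 4 - (if f = M.outer then 8 else 0) := by
      intro f
      split_ifs <;> ring
    simp only [this, sum_sub_distrib, sum_const, card_univ, sum_ite_eq', mem_univ, if_true,
      nsmul_eq_mul]
    ring
  have h4 : ∑ d : D, M.turn (M.φ.symm d) = ∑ d : D, M.turn d :=
    Equiv.sum_comp M.φ.symm M.turn
  rw [sum_sub_distrib, h4, h2, h3] at h1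
  simp only [sum_const, card_univ, nsmul_eq_mul] at h1
  unfold Cell.Planar
  omega

theorem exists_dir (M : Flat D N F) :
    ∃ dir : D → ZMod 4, (∀ d, dir (M.α d) = dir d + 2) ∧
      ∀ d, dir (M.φ d) = dir d + (M.turn d : ZMod 4) := by
  have h4 : (4 : ZMod 4) = 0 := by decide
  obtain ⟨p, hp⟩ := DirAux.exists_pot (R := ZMod 4) M.σ M.tail M.tail_surj M.tail_σ M.tight.tail_same
    (fun d => ((M.ang d : ℤ) : ZMod 4)) (by
      intro n
      rw [← Int.cast_sum]
      have := M.node_sum n
      unfold Flat.ang
      rw [this]
      exact_mod_cast h4)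
  have hα : ∀ d, p (M.α d) = p (M.φ d) + 2 - (M.turn d : ZMod 4) := by
    intro d
    have := hp (M.φ d)
    rw [M.σ_φ] at this
    rw [this]
    unfold Flat.ang
    rw [Equiv.symm_apply_apply]
    push_cast
    ring
  obtain ⟨s, hs⟩ := H4 M.toCell (flat_planar M) (fun d => p d + 2 - p (M.α d)) (by
      intro d
      simp only [M.α_α]
      linear_combination h4) (by
      intro f
      have e1 : ∀ d, p d + 2 - p (M.α d) = p d - p (M.φ d) + (M.turn d : ZMod 4) := by
        intro d
        rw [hα]
        ring
      simp only [e1, sum_add_distrib, sum_sub_distrib]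
      have e2 : ∑ d with M.left d = f, p (M.φ d) = ∑ d with M.left d = f, p d := by
        apply sum_bij' (fun d _ => M.φ d) (fun d _ => M.φ.symm d)
        · intro d hd
          simp only [mem_filter, mem_univ, true_and] at hd ⊢
          rw [M.left_φ, hd]
        · intro d hd
          simp only [mem_filter, mem_univ, true_and] at hd ⊢
          rw [← M.left_φ (M.φ.symm d), Equiv.apply_symm_apply, hd]
        · intro d _
          simp
        · intro d _
          simp
        · intro d _
          rfl
      have e3 : ∑ d with M.left d = f, (M.turn d : ZMod 4) = 0 := by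
        rw [← Int.cast_sum, M.face_sum]
        split_ifs
        · push_cast
          rw [h4, neg_zero]
        · exact_mod_cast h4
      rw [e2, e3]
      ring)
  refine ⟨fun d => p d + s (M.tail d), fun d => ?_, fun d => ?_⟩
  · have h5 := hs d
    simp only at h5 ⊢
    rw [M.tail_α]
    linear_combination h5
  · have h5 := hs d
    simp only at h5 ⊢
    rw [M.tail_φ']
    linear_combination h5 - hα d

end Pool.Agent.Lib.MP_9ad789_co
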