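import Pool.Agent.Lib.MP_9ad789_co.H1

/-!
# An Euler type bound for subgraphs of a plane graph
-/

set_option autoImplicit false
set_option linter.unusedSectionVars false

namespace Pool.Agent.Lib.MP_9ad789_co

open Equiv Finset

namespace EB

variable {D N F : Type} [Fintype D] [Fintype N] [Fintype F]
  [DecidableEq D] [DecidableEq N] [DecidableEq F]

/-- joined by a dart not in `J` -/
def rel (C : Cell D N F) (J : Finset D) (f g : F) : Prop := ∃ d, d ∉ J ∧ C.left d = f ∧ C.right d = g

/-- classes of faces -/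
abbrev Q (C : Cell D N F) (J : Finset D) : Type := Quot (rel C J)

noncomputable instance (C : Cell D N F) (J : Finset D) : Fintype (Q C J) := by
  classical exact Fintype.ofSurjective (Quot.mk (rel C J)) Quot.mk_surjective

/-- one orientation of every edge of `J` -/
noncomputable def ori (C : Cell D N F) (J : Finset D) : Finset D :=
  J.filter (fun d => Fintype.equivFin D d < Fintype.equivFin D (C.α d))

theorem card_ori (C : Cell D N F) (J : Finset D) (hJ : ∀ d ∈ J, C.α d ∈ J) :
    J.card = 2 * (ori C J).card := by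
  have h1 : (ori C J).card = (J.filter (fun d => ¬ Fintype.equivFin D d <
      Fintype.equivFin D (C.α d))).card := by
    refine Finset.card_bij (fun d _ => C.α d) ?_ ?_ ?_
    · intro d hd
      rw [ori, Finset.mem_filter] at hd
      rw [Finset.mem_filter, C.α_α]
      exact ⟨hJ d hd.1, not_lt.2 hd.2.le⟩
    · intro a _ b _ h
      exact C.α.injective h
    · intro d hd
      rw [Finset.mem_filter] at hd
      refine ⟨C.α d, ?_, C.α_α d⟩
      rw [ori, Finset.mem_filter, C.α_α]
      refine ⟨hJ d hd.1, lt_of_le_of_ne (not_lt.1 hd.2) ?_⟩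
      intro h
      exact C.α_ne d ((Fintype.equivFin D).injective h)
  have h2 := Finset.card_filter_add_card_filter_not (s := J)
    (fun d => Fintype.equivFin D d < Fintype.equivFin D (C.α d))
  have h3 : (ori C J).card = (J.filter (fun d => Fintype.equivFin D d <
      Fintype.equivFin D (C.α d))).card := rfl
  omega

/-- antisymmetric extension -/
noncomputable def ext (C : Cell D N F) (J : Finset D) : (ori C J → ℚ) →ₗ[ℚ] (D → ℚ) where
  toFun z d := (if h : d ∈ ori C J then z ⟨d, h⟩ else 0) -
    (if h : C.α d ∈ ori C J then z ⟨C.α d, h⟩ else 0)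
  map_add' x y := by
    funext d
    simp only [Pi.add_apply]
    split_ifs <;> ring
  map_smul' r x := by
    funext d
    simp only [Pi.smul_apply, smul_eq_mul, RingHom.id_apply]
    split_ifs <;> ring

theorem ext_anti (C : Cell D N F) (J : Finset D) (z : ori C J → ℚ) (d : D) :
    ext C J z (C.α d) = - ext C J z d := by
  simp only [ext, LinearMap.coe_mk, AddHom.coe_mk, C.α_α]
  ring

theorem ext_off (C : Cell D N F) (J : Finset D) (hJ : ∀ d ∈ J, C.α d ∈ J) (z : ori C J → ℚ)
    (d : D) (hd : d ∉ J) : ext C J z d = 0 := by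
  have h1 : d ∉ ori C J := fun h => hd (Finset.mem_filter.1 h).1
  have h2 : C.α d ∉ ori C J := fun h => hd (by
    have := hJ _ (Finset.mem_filter.1 h).1
    rwa [C.α_α] at this)
  simp only [ext, LinearMap.coe_mk, AddHom.coe_mk, dif_neg h1, dif_neg h2, sub_zero]

theorem ext_inj (C : Cell D N F) (J : Finset D) : Function.Injective (ext C J) := by
  rw [← LinearMap.ker_eq_bot, LinearMap.ker_eq_bot']
  intro z hz
  funext ⟨d, hd⟩
  have h1 := congrFun hz d
  have h2 : C.α d ∉ ori C J := by
    intro h
    have h3 := (Finset.mem_filter.1 h).2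
    have h4 := (Finset.mem_filter.1 hd).2
    rw [C.α_α] at h3
    exact absurd h3 (not_lt.2 h4.le)
  simp only [ext, LinearMap.coe_mk, AddHom.coe_mk, dif_pos hd, dif_neg h2, sub_zero,
    Pi.zero_apply] at h1
  exact h1

theorem sum_anti (C : Cell D N F) (z : D → ℚ) (hz : ∀ d, z (C.α d) = - z d) : ∑ d, z d = 0 := by
  have h1 : ∑ d, z (C.α d) = ∑ d, z d := Equiv.sum_comp C.α z
  rw [Finset.sum_congr rfl (fun d _ => hz d), Finset.sum_neg_distrib] at h1
  linarith

theorem sum_nodes (C : Cell D N F) (z : D → ℚ) : ∑ n, ∑ d with C.tail d = n, z d = ∑ d, z d :=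
  Finset.sum_fiberwise _ _ _

/-- node sums at the nodes of a set -/
noncomputable def nodeMap (C : Cell D N F) (J : Finset D) (I : Finset N) :
    (ori C J → ℚ) →ₗ[ℚ] (I → ℚ) where
  toFun z n := ∑ d with C.tail d = (n : N), ext C J z d
  map_add' x y := by
    funext n
    simp only [map_add, Pi.add_apply, Finset.sum_add_distrib]
  map_smul' r x := by
    funext n
    simp only [map_smul, Pi.smul_apply, smul_eq_mul, Finset.mul_sum, RingHom.id_apply]

/-- coboundary -/
noncomputable def cob (C : Cell D N F) (J : Finset D) : (Q C J → ℚ) →ₗ[ℚ] (D → ℚ) where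
  toFun c d := c (Quot.mk _ (C.left d)) - c (Quot.mk _ (C.right d))
  map_add' x y := by funext d; simp only [Pi.add_apply]; ring
  map_smul' r x := by
    funext d; simp only [Pi.smul_apply, smul_eq_mul, RingHom.id_apply]; ring

theorem card_Q (C : Cell D N F) (hC : C.Planar) (J : Finset D) (hJ : ∀ d ∈ J, C.α d ∈ J)
    (hne : J.Nonempty) : 2 + (ori C J).card ≤ Fintype.card (Q C J) + (J.image C.tail).card := by
  classical
  obtain ⟨d0, hd0⟩ := hne
  set n0 := C.tail d0 with hn0
  have hn0I : n0 ∈ J.image C.tail := Finset.mem_image_of_mem _ hd0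
  set I := (J.image C.tail).erase n0 with hI
  have hIc : I.card + 1 = (J.image C.tail).card := Finset.card_erase_add_one hn0I
  -- rank nullity
  have h1 := (nodeMap C J I).finrank_range_add_finrank_ker
  have h2 : Module.finrank ℚ (LinearMap.range (nodeMap C J I)) ≤ I.card := by
    refine (Submodule.finrank_le _).trans ?_
    rw [Module.finrank_fintype_fun_eq_card, Fintype.card_coe]
  rw [Module.finrank_fintype_fun_eq_card, Fintype.card_coe] at h1
  -- node sums vanish
  have hsum : ∀ z ∈ LinearMap.ker (nodeMap C J I), ∀ n, ∑ d with C.tail d = n, ext C J z d = 0 := by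
    intro z hz
    have e1 : ∀ n, n ≠ n0 → ∑ d with C.tail d = n, ext C J z d = 0 := by
      intro n hn
      by_cases hnI : n ∈ J.image C.tail
      · have hnI' : n ∈ I := Finset.mem_erase.2 ⟨hn, hnI⟩
        exact congrFun (LinearMap.mem_ker.1 hz) ⟨n, hnI'⟩
      · refine Finset.sum_eq_zero (fun d hd => ?_)
        rw [Finset.mem_filter] at hd
        refine ext_off C J hJ z d (fun h => hnI ?_)
        rw [← hd.2]; exact Finset.mem_image_of_mem _ h
    intro n
    by_cases hn : n = n0
    · have e2 := sum_nodes C (ext C J z)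
      rw [sum_anti C _ (ext_anti C J z)] at e2
      rw [← Finset.add_sum_erase _ _ (Finset.mem_univ n0)] at e2
      rw [Finset.sum_eq_zero (fun m hm => e1 m (Finset.ne_of_mem_erase hm)), add_zero] at e2
      rw [hn]; exact e2
    · exact e1 n hn
  -- the kernel injects into the coboundaries
  have h3 : (LinearMap.ker (nodeMap C J I)).map (ext C J) ≤ LinearMap.range (cob C J) := by
    rintro _ ⟨z, hz, rfl⟩
    obtain ⟨c, hc⟩ := H1 C hC (ext C J z) (ext_anti C J z) (hsum z hz)
    refine ⟨Quot.lift c ?_, ?_⟩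
    · rintro f g ⟨d, hd, rfl, rfl⟩
      have := hc d
      rw [ext_off C J hJ z d hd] at this
      linarith
    · funext d
      exact hc d
  have h4 : Module.finrank ℚ (LinearMap.ker (nodeMap C J I)) ≤
      Module.finrank ℚ (LinearMap.range (cob C J)) := by
    rw [(Submodule.equivMapOfInjective (ext C J) (ext_inj C J)
      (LinearMap.ker (nodeMap C J I))).finrank_eq]
    exact Submodule.finrank_mono h3
  have h5 := (cob C J).finrank_range_add_finrank_ker
  rw [Module.finrank_fintype_fun_eq_card] at h5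
  have h6 : 0 < Module.finrank ℚ (LinearMap.ker (cob C J)) := by
    rw [Module.finrank_pos_iff_exists_ne_zero]
    refine ⟨⟨fun _ => 1, ?_⟩, ?_⟩
    · rw [LinearMap.mem_ker]
      funext d
      simp [cob]
    · intro h
      have := congrFun (congrArg Subtype.val h) (Quot.mk _ (C.left d0))
      simp at this
  omega

open Classical in
/-- the cut of a class -/
noncomputable def cut (C : Cell D N F) (J : Finset D) (U : Q C J) (d : D) : ℚ :=
  (if Quot.mk _ (C.left d) = U then 1 else 0) - (if Quot.mk _ (C.right d) = U then 1 else 0)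

theorem cut_anti (C : Cell D N F) (J : Finset D) (U : Q C J) (d : D) :
    cut C J U (C.α d) = - cut C J U d := by
  unfold cut
  rw [C.right_α, ← Cell.right]
  ring

theorem cut_off (C : Cell D N F) (J : Finset D) (U : Q C J) (d : D) (hd : d ∉ J) :
    cut C J U d = 0 := by
  have h : (Quot.mk (rel C J) (C.left d)) = Quot.mk _ (C.right d) := Quot.sound ⟨d, hd, rfl, rfl⟩
  unfold cut
  rw [h]; ring

theorem cut_node (C : Cell D N F) (J : Finset D) (U : Q C J) (n : N) :
    ∑ d with C.tail d = n, cut C J U d = 0 := by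
  classical
  unfold cut
  rw [Finset.sum_sub_distrib, sub_eq_zero]
  refine Finset.sum_bij (fun d _ => C.σ d) ?_ ?_ ?_ ?_
  · intro d hd
    rw [Finset.mem_filter] at hd ⊢
    exact ⟨Finset.mem_univ _, by rw [C.tail_σ]; exact hd.2⟩
  · intro a _ b _ h
    exact C.σ.injective h
  · intro d hd
    rw [Finset.mem_filter] at hd
    refine ⟨C.σ.symm d, ?_, by simp⟩
    rw [Finset.mem_filter]
    refine ⟨Finset.mem_univ _, ?_⟩
    rw [← C.tail_σ, Equiv.apply_symm_apply]; exact hd.2
  · intro d _
    simp only [C.right_σ]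

theorem cut_ne (C : Cell D N F) (J : Finset D) (hQ : 2 ≤ Fintype.card (Q C J)) (U : Q C J) :
    cut C J U ≠ 0 := by
  intro h
  have hU : ∀ d, (Quot.mk (rel C J) (C.left d)) = U → Quot.mk (rel C J) (C.right d) = U := by
    intro d hd
    have h1 := congrFun h d
    unfold cut at h1
    rw [if_pos hd] at h1
    by_contra h2
    rw [if_neg h2] at h1
    norm_num at h1
  have h1 : {d | Quot.mk (rel C J) (C.left d) = U} = Set.univ := by
    refine C.conn _ ?_ ?_ ?_
    · obtain ⟨f, hf⟩ := Quot.exists_rep U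
      obtain ⟨d, hd⟩ := C.left_surj f
      exact ⟨d, by rw [Set.mem_ofPred_eq, hd]; exact hf⟩
    · intro d hd
      exact hU d hd
    · intro d hd
      rw [Set.mem_ofPred_eq, C.left_φ]; exact hd
  have h2 : ∀ q : Q C J, q = U := by
    intro q
    obtain ⟨f, hf⟩ := Quot.exists_rep q
    obtain ⟨d, hd⟩ := C.left_surj f
    have h3 : d ∈ {d | Quot.mk (rel C J) (C.left d) = U} := by rw [h1]; trivial
    rw [Set.mem_ofPred_eq, hd] at h3
    rw [← hf, h3]
  have h3 : Fintype.card (Q C J) ≤ 1 := Fintype.card_le_one_iff.2 (fun a b => by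
    rw [h2 a, h2 b])
  omega

end EB

theorem euler_bound {D N F : Type} [Fintype D] [Fintype N] [Fintype F]
    [DecidableEq D] [DecidableEq N] [DecidableEq F]
    (C : Cell D N F) (hC : C.Planar) (J J0 : Finset D) (hne : J.Nonempty)
    (hJ : ∀ d ∈ J, C.α d ∈ J) (hJ0 : J0 ⊆ J) (hJ0' : ∀ d ∈ J0, C.α d ∈ J0) (g : ℕ)
    (hg : ∀ z : D → ℚ, (∀ d, z (C.α d) = - z d) → (∀ d, d ∉ J → z d = 0) →
      (∀ n, ∑ d with C.tail d = n, z d = 0) → z ≠ 0 →
      2 * g ≤ (J0.filter (fun d => z d ≠ 0)).card)
    (hcard : 2 * (J.image C.tail).card ≤ J.card) :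
    g * (J.card + 4) ≤ 2 * J0.card + 2 * g * (J.image C.tail).card := by
  classical
  have h1 := EB.card_Q C hC J hJ hne
  have h2 := EB.card_ori C J hJ
  have hQ : 2 ≤ Fintype.card (EB.Q C J) := by omega
  have h3 : ∑ U : EB.Q C J, (J0.filter (fun d => EB.cut C J U d ≠ 0)).card ≤ J0.card * 2 := by
    have e1 : ∑ U : EB.Q C J, (J0.filter (fun d => EB.cut C J U d ≠ 0)).card =
        ∑ d ∈ J0, (univ.filter (fun U : EB.Q C J => EB.cut C J U d ≠ 0)).card := by
      simp only [Finset.card_filter]
      exact Finset.sum_comm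
    rw [e1, ← smul_eq_mul, ← Finset.sum_const]
    refine Finset.sum_le_sum (fun d _ => ?_)
    refine (Finset.card_le_card (t := {Quot.mk _ (C.left d), Quot.mk _ (C.right d)}) ?_).trans
      Finset.card_le_two
    intro U hU
    rw [Finset.mem_filter] at hU
    rw [Finset.mem_insert, Finset.mem_singleton]
    by_contra hcon
    push Not at hcon
    apply hU.2
    unfold EB.cut
    rw [if_neg (Ne.symm hcon.1), if_neg (Ne.symm hcon.2), sub_zero]
  have h4 : Fintype.card (EB.Q C J) * (2 * g) ≤
      ∑ U : EB.Q C J, (J0.filter (fun d => EB.cut C J U d ≠ 0)).card := by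
    rw [← smul_eq_mul, ← Finset.card_univ, ← Finset.sum_const]
    exact Finset.sum_le_sum (fun U _ => hg _ (EB.cut_anti C J U) (EB.cut_off C J U)
      (EB.cut_node C J U) (EB.cut_ne C J hQ U))
  have h5 : g * (2 + (EB.ori C J).card) ≤ g * (Fintype.card (EB.Q C J) +
      (J.image C.tail).card) := Nat.mul_le_mul_left g h1
  have h6 : g * (J.card + 4) = 2 * (g * (2 + (EB.ori C J).card)) := by rw [h2]; ring
  have h7 : 2 * (g * (Fintype.card (EB.Q C J) + (J.image C.tail).card)) =
      Fintype.card (EB.Q C J) * (2 * g) + 2 * g * (J.image C.tail).card := by ring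
  omega

end Pool.Agent.Lib.MP_9ad789_co
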