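import Pool.Agent.Lib.MP_9ad789_co.Geo

/-!
# MP_9ad789_co : EX3 (extension of 3-connected graphs by vertices of degree at least 3)
-/

namespace Pool.Agent.Lib.MP_9ad789_co

open Equiv Finset

theorem threeConnected_extend {n b : ℕ} (hb : b ≤ n) (G : SimpleGraph (Fin n))
    (hbase : ThreeConnected (G.comap (Fin.castLE hb)))
    (hext : ∀ i : Fin n, b ≤ (i : ℕ) → ∃ j1 j2 j3 : Fin n, j1 < i ∧ j2 < i ∧ j3 < i ∧
      j1 ≠ j2 ∧ j1 ≠ j3 ∧ j2 ≠ j3 ∧ G.Adj i j1 ∧ G.Adj i j2 ∧ G.Adj i j3) :
    ThreeConnected G := by
  classical
  refine ⟨?_, ?_⟩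
  · have := hbase.card
    simp only [Fintype.card_fin] at this ⊢
    omega
  · intro S hS
    set S' : Finset (Fin b) := univ.filter (fun i => Fin.castLE hb i ∈ S) with hS'
    have hS'c : S'.card ≤ 2 := by
      refine le_trans ?_ hS
      apply Finset.card_le_card_of_injOn (Fin.castLE hb)
      · intro i hi
        exact (Finset.mem_filter.1 hi).2
      · intro i _ j _ h
        exact Fin.castLE_injective hb h
    have hc := hbase.conn S' hS'c
    -- base vertices are connected in G - S
    let φ : ((G.comap (Fin.castLE hb)).induce {v | v ∉ S'}) →g (G.induce {v | v ∉ S}) :=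
      { toFun := fun v => ⟨Fin.castLE hb v.1, fun h => v.2 (Finset.mem_filter.2 ⟨mem_univ _, h⟩)⟩
        map_rel' := by
          intro a c h
          exact h }
    -- every vertex outside S reaches a base vertex outside S
    have key : ∀ m : ℕ, ∀ (i : Fin n) (hi : i ∉ S), (i : ℕ) = m →
        ∃ v : {v : Fin b // v ∉ S'}, (G.induce {v | v ∉ S}).Reachable ⟨i, hi⟩ (φ v) := by
      intro m
      induction m using Nat.strong_induction_on with
      | _ m ih =>
        intro i hi him
        by_cases hib : (i : ℕ) < b
        · have h1 : (⟨i, hib⟩ : Fin b) ∉ S' := by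
            intro h
            have h2 := (Finset.mem_filter.1 h).2
            exact hi h2
          refine ⟨⟨⟨i, hib⟩, h1⟩, ?_⟩
          exact SimpleGraph.Reachable.refl _
        · obtain ⟨j1, j2, j3, h1, h2, h3, h12, h13, h23, a1, a2, a3⟩ := hext i (by omega)
          have hj : ∃ j : Fin n, j < i ∧ j ∉ S ∧ G.Adj i j := by
            by_contra hcon
            push Not at hcon
            have hj1 : j1 ∈ S := by
              by_contra h
              exact hcon j1 h1 h a1
            have hj2 : j2 ∈ S := by
              by_contra h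
              exact hcon j2 h2 h a2
            have hj3 : j3 ∈ S := by
              by_contra h
              exact hcon j3 h3 h a3
            have h4 : ({j1, j2, j3} : Finset (Fin n)) ⊆ S := by
              intro x hx
              simp only [Finset.mem_insert, Finset.mem_singleton] at hx
              rcases hx with rfl | rfl | rfl <;> assumption
            have h5 := Finset.card_le_card h4
            rw [Finset.card_eq_three.2 ⟨j1, j2, j3, h12, h13, h23, rfl⟩] at h5
            omega
          obtain ⟨j, hji, hjS, hadj⟩ := hj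
          obtain ⟨v, hv⟩ := ih j (by have := Fin.lt_def.1 hji; omega) j hjS rfl
          refine ⟨v, SimpleGraph.Reachable.trans ?_ hv⟩
          apply SimpleGraph.Adj.reachable
          exact hadj
    have hpre : (G.induce {v | v ∉ S}).Preconnected := by
      rintro ⟨i, hi⟩ ⟨j, hj⟩
      obtain ⟨v, hv⟩ := key _ i hi rfl
      obtain ⟨w, hw⟩ := key _ j hj rfl
      have h1 := (hc.preconnected v w).map φ
      exact (hv.trans h1).trans hw.symm
    obtain ⟨v0⟩ := hc.nonempty
    exact { preconnected := hpre, nonempty := ⟨φ v0⟩ }

end Pool.Agent.Lib.MP_9ad789_co
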