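import Pool.Agent.Lib.MP_9ad789_co.Geo

/-!
# MP_9ad789_co : EXA (the 1-plane graph of a rotation system with crossings)
-/

namespace Pool.Agent.Lib.MP_9ad789_co

open Equiv Finset

namespace ExA

/-- Transport of a rotation system with crossings along a bijection of edge-ends. -/
def tr {V R R' : Type} (X : XMap V R) (e : R ≃ R') : XMap V R' where
  rot := e.symm.trans (X.rot.trans e)
  vert := fun d => X.vert (e.symm d)
  opp := fun d => e (X.opp (e.symm d))
  crs := fun d => (X.crs (e.symm d)).map e
  vert_rot := fun d => by simp [X.vert_rot]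
  vert_same := fun d d' h => by
    obtain ⟨k, hk⟩ := X.vert_same _ _ h
    refine ⟨k, ?_⟩
    have h1 : (e.symm.trans (X.rot.trans e) : Perm R') = e.permCongr X.rot := rfl
    rw [h1]
    have h2 : ((e.permCongr X.rot) ^ k : Perm R') = e.permCongr (X.rot ^ k) := by
      have := map_zpow (e.permCongrHom) X.rot k
      simpa using this.symm
    rw [h2, Equiv.permCongr_apply, hk, Equiv.apply_symm_apply]
  opp_opp := fun d => by simp [X.opp_opp]
  opp_ne := fun d h => by
    apply X.opp_ne (e.symm d)
    rw [Equiv.eq_symm_apply]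
    exact h
  crs_crs := fun d e' h => by
    rw [Option.map_eq_some_iff] at h
    obtain ⟨a, ha, rfl⟩ := h
    simp [X.crs_crs _ _ ha]
  crs_vert := fun d e' h => by
    rw [Option.map_eq_some_iff] at h
    obtain ⟨a, ha, rfl⟩ := h
    simpa using X.crs_vert _ _ ha

variable {V R R' : Type} (X : XMap V R) (e : R ≃ R')

theorem tr_crossed (d : R) : (tr X e).Crossed (e d) ↔ X.Crossed d := by
  simp [XMap.Crossed, tr]

/-- The bijection of the darts of the planarisations. -/
def pd : X.PD ≃ (tr X e).PD :=
  Equiv.sumCongr e (e.subtypeEquiv (fun d => (tr_crossed X e d).symm))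

theorem next_crossed {V R : Type} (X : XMap V R) {d e : R} (h : X.crs d = some e) :
    ∃ hh : X.Crossed (X.opp e), X.next (.inl d) = .inr ⟨X.opp e, hh⟩ := by
  have hc : X.Crossed d := Option.isSome_iff_exists.mpr ⟨_, h⟩
  have h1 : X.crsGet ⟨d, hc⟩ = e := by
    have h2 := X.crs_crsGet ⟨d, hc⟩
    rw [h] at h2
    exact (Option.some.inj h2).symm
  refine ⟨Option.isSome_iff_exists.mpr ⟨_, X.crs_opp (X.crs_crs _ _ h)⟩, ?_⟩
  refine (dif_pos hc : X.next (.inl d) = .inr ⟨X.opp (X.crsGet ⟨d, hc⟩), _⟩).trans ?_
  apply congrArg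
  apply Subtype.ext
  show X.opp (X.crsGet ⟨d, hc⟩) = X.opp e
  rw [h1]

theorem next_uncrossed {V R : Type} (X : XMap V R) {d : R} (h : ¬ X.Crossed d) :
    X.next (.inl d) = .inl (X.rot.symm (X.opp d)) := dif_neg h

theorem next_inr {V R : Type} (X : XMap V R) (d : {d : R // X.Crossed d}) :
    X.next (.inr d) = .inl (X.rot.symm d.1) := rfl

theorem pd_next (x : X.PD) : pd X e (X.next x) = (tr X e).next (pd X e x) := by
  rcases x with d | d
  · by_cases h : X.Crossed d
    · obtain ⟨c, hc⟩ := Option.isSome_iff_exists.mp h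
      have hc' : (tr X e).crs (e d) = some (e c) := by
        show (X.crs (e.symm (e d))).map e = some (e c)
        rw [Equiv.symm_apply_apply, hc]
        rfl
      obtain ⟨h1, h2⟩ := next_crossed X hc
      obtain ⟨h3, h4⟩ := next_crossed (tr X e) hc'
      have h5 : pd X e (.inl d) = .inl (e d) := rfl
      rw [h2, h5, h4]
      apply congrArg Sum.inr
      apply Subtype.ext
      show e (X.opp c) = e (X.opp (e.symm (e c)))
      rw [Equiv.symm_apply_apply]
    · have h' : ¬ (tr X e).Crossed (e d) := fun h1 => h ((tr_crossed X e d).1 h1)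
      have h5 : pd X e (.inl d) = .inl (e d) := rfl
      rw [next_uncrossed X h, h5, next_uncrossed _ h']
      show Sum.inl (e (X.rot.symm (X.opp d))) =
        Sum.inl (e (X.rot.symm (e.symm (e (X.opp (e.symm (e d)))))))
      rw [Equiv.symm_apply_apply, Equiv.symm_apply_apply]
  · rw [next_inr]
    show Sum.inl (e (X.rot.symm d.1)) = Sum.inl (e (X.rot.symm (e.symm (e d.1))))
    rw [Equiv.symm_apply_apply]

theorem sameFace_iff (x y : X.PD) :
    X.SameFace x y ↔ (tr X e).SameFace (pd X e x) (pd X e y) := by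
  constructor
  · intro h
    unfold XMap.SameFace at h
    induction h with
    | rel a b h => rw [h, pd_next]; exact Relation.EqvGen.rel _ _ rfl
    | refl a => exact Relation.EqvGen.refl _
    | symm a b _ ih => exact Relation.EqvGen.symm _ _ ih
    | trans a b c _ _ ih1 ih2 => exact Relation.EqvGen.trans _ _ _ ih1 ih2
  · intro h
    have key : ∀ a b, (tr X e).SameFace a b →
        X.SameFace ((pd X e).symm a) ((pd X e).symm b) := by
      intro a b h
      unfold XMap.SameFace at h
      induction h with
      | rel a b h =>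
        apply Relation.EqvGen.rel
        rw [Equiv.symm_apply_eq, pd_next, Equiv.apply_symm_apply]
        exact h
      | refl a => exact Relation.EqvGen.refl _
      | symm a b _ ih => exact Relation.EqvGen.symm _ _ ih
      | trans a b c _ _ ih1 ih2 => exact Relation.EqvGen.trans _ _ _ ih1 ih2
    have := key _ _ h
    simpa using this

theorem tr_euler (h : X.EulerFormula) : (tr X e).EulerFormula := by
  unfold XMap.EulerFormula at *
  have h1 : Nat.card {d : R' // (tr X e).Crossed d} = Nat.card {d : R // X.Crossed d} :=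
    Nat.card_congr (e.subtypeEquiv (fun d => (tr_crossed X e d).symm)).symm
  have h2 : Nat.card (tr X e).PD = Nat.card X.PD := Nat.card_congr (pd X e).symm
  have h3 : Nat.card (tr X e).Face = Nat.card X.Face := by
    apply Nat.card_congr
    exact (Quotient.congr (pd X e) (fun a b => sameFace_iff X e a b)).symm
  rw [h1, h2, h3]
  exact h

end ExA

open ExA

variable {V R : Type} [Fintype V] [Fintype R] [DecidableEq V] [DecidableEq R]

theorem onePlane_of (X : XMap V R) (hno : ∀ d, X.vert (X.opp d) ≠ X.vert d)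
    (hmul : ∀ d d', X.vert d = X.vert d' → X.vert (X.opp d) = X.vert (X.opp d') → d = d')
    (heul : X.EulerFormula) (d0 : R) :
    ∃ (G : SimpleGraph V) (_ : DecidableRel G.Adj) (E : OnePlane G) (e : R ≃ G.Dart),
      (∀ u v, G.Adj u v ↔ ∃ d, X.vert d = u ∧ X.vert (X.opp d) = v) ∧
      (∀ d, (e d).fst = X.vert d) ∧ (∀ d, E.rot (e d) = e (X.rot d)) ∧
      (∀ d, (e d).symm = e (X.opp d)) ∧
      (∀ d, E.crs (e d) = (X.crs d).map e) ∧ E.outer = e d0 := by
  let G : SimpleGraph V :=
    { Adj := fun u v => ∃ d, X.vert d = u ∧ X.vert (X.opp d) = v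
      symm := ⟨by
        rintro u v ⟨d, h1, h2⟩
        exact ⟨X.opp d, h2, by rw [X.opp_opp]; exact h1⟩⟩
      loopless := ⟨by
        rintro u ⟨d, h1, h2⟩
        exact hno d (h2.trans h1.symm)⟩ }
  have hdec : DecidableRel G.Adj := fun u v =>
    inferInstanceAs (Decidable (∃ d, X.vert d = u ∧ X.vert (X.opp d) = v))
  let f : R → G.Dart := fun d => ⟨(X.vert d, X.vert (X.opp d)), ⟨d, rfl, rfl⟩⟩
  have hf : Function.Bijective f := by
    constructor
    · intro d d' h
      have h1 : (f d).fst = (f d').fst := by rw [h]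
      have h2 : (f d).snd = (f d').snd := by rw [h]
      exact hmul d d' h1 h2
    · rintro ⟨⟨u, v⟩, d, h1, h2⟩
      refine ⟨d, ?_⟩
      apply SimpleGraph.Dart.ext
      exact Prod.ext h1 h2
  let e : R ≃ G.Dart := Equiv.ofBijective f hf
  have hfst : ∀ d, (e d).fst = X.vert d := fun d => rfl
  have hsym : ∀ d, (e d).symm = e (X.opp d) := by
    intro d
    apply SimpleGraph.Dart.ext
    apply Prod.ext
    · rfl
    · show X.vert d = X.vert (X.opp (X.opp d))
      rw [X.opp_opp]
  let E : OnePlane G :=
    { tr X e with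
      vert_eq := fun d => by
        show X.vert (e.symm d) = d.fst
        rw [← hfst, Equiv.apply_symm_apply]
      opp_eq := fun d => by
        show e (X.opp (e.symm d)) = d.symm
        rw [← hsym, Equiv.apply_symm_apply]
      euler := tr_euler X e heul
      outer := e d0 }
  refine ⟨G, hdec, E, e, fun u v => Iff.rfl, hfst, ?_, hsym, ?_, rfl⟩
  · intro d
    show e (X.rot (e.symm (e d))) = e (X.rot d)
    rw [Equiv.symm_apply_apply]
  · intro d
    show (X.crs (e.symm (e d))).map e = (X.crs d).map e
    rw [Equiv.symm_apply_apply]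

end Pool.Agent.Lib.MP_9ad789_co
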