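import Pool.Agent.Lib.MP_9ad789_co.Geo

/-!
# MP_9ad789_co : EXB (certificate for the lower bound)
-/

namespace Pool.Agent.Lib.MP_9ad789_co

open Equiv Finset

variable {V : Type} [Fintype V] [DecidableEq V]

theorem no_s_of_cert {G : SimpleGraph V} [DecidableRel G.Adj] (E : OnePlane G) (k : ℕ)
    (A B : Finset V) (P : E.PD → Bool) (lab : E.PD → ℕ)
    (hP : ∀ x, P (E.next x) = P x) (hlab : ∀ x, lab (E.next x) = lab x)
    (hA : ∀ d : G.Dart, d.fst ∈ A → P (.inl d) = true)
    (hB : ∀ d : G.Dart, P (.inl d) = true → d.fst ∈ A ∨ d.fst ∈ B) (hAB : Disjoint A B)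
    (ho : P (.inl E.outer) = false)
    (hnum : 2 * ((univ.filter (fun d : G.Dart => P (.inl d) = true)).card : ℤ) +
      (univ.filter (fun d : {d : G.Dart // E.Crossed d} => P (.inr d) = true)).card -
      4 * ((univ.filter (fun x : E.PD => P x = true)).image lab).card + k * B.card <
      4 * A.card) :
    ¬ ∃ s : G.Dart → ℤ, (∀ v, ∑ d : G.Dart with d.fst = v, s d = 4) ∧
      (∀ x : E.PD, (E.SameFace (.inl E.outer) x → E.faceSum (E.wt s) x = -4) ∧
        (¬ E.SameFace (.inl E.outer) x → E.faceSum (E.wt s) x = 4)) ∧
      ∀ v, ∑ d : G.Dart with d.fst = v, max 0 (- s d) ≤ k := by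
  classical
  rintro ⟨s, hv, hf, hk⟩
  have hPs : ∀ x y, E.SameFace x y → P y = P x := by
    intro x y h
    unfold XMap.SameFace at h
    induction h with
    | rel a b h => rw [h]; exact hP a
    | refl a => rfl
    | symm a b _ ih => exact ih.symm
    | trans a b c _ _ ih1 ih2 => exact ih2.trans ih1
  have hLs : ∀ x y, E.SameFace x y → lab y = lab x := by
    intro x y h
    unfold XMap.SameFace at h
    induction h with
    | rel a b h => rw [h]; exact hlab a
    | refl a => rfl
    | symm a b _ ih => exact ih.symm
    | trans a b c _ _ ih1 ih2 => exact ih2.trans ih1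
  set Q : Finset E.PD := univ.filter (fun x : E.PD => P x = true) with hQ
  -- the sum of the weights over Q is four times the number of faces
  have hface : ∀ x y : E.PD, E.face x = E.face y ↔ E.SameFace x y := by
    intro x y
    exact Quotient.eq (r := E.faceSetoid)
  have h1 : ∑ x ∈ Q, E.wt s x = 4 * ((Q.image E.face).card : ℤ) := by
    rw [← Finset.sum_fiberwise_of_maps_to (s := Q) (t := Q.image E.face) (g := E.face)
      (fun x hx => Finset.mem_image_of_mem _ hx)]
    rw [Finset.sum_congr rfl (g := fun _ => (4 : ℤ))]
    · simp [mul_comm]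
    · intro f hfm
      obtain ⟨x0, hx0, rfl⟩ := Finset.mem_image.1 hfm
      have hPx0 : P x0 = true := (Finset.mem_filter.1 hx0).2
      have hno : ¬ E.SameFace (.inl E.outer) x0 := by
        intro h
        have := hPs _ _ h
        rw [hPx0, ho] at this
        exact Bool.noConfusion this
      rw [← (hf x0).2 hno]
      unfold XMap.faceSum
      apply Finset.sum_congr _ (fun _ _ => rfl)
      ext y
      simp only [Finset.mem_filter, Finset.mem_univ, true_and, hQ]
      constructor
      · rintro ⟨_, h⟩
        exact (hface _ _).1 h.symm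
      · intro h
        exact ⟨(hPs _ _ h).trans hPx0, ((hface _ _).2 h).symm⟩
  -- at least as many faces as labels
  have h2 : (Q.image lab).card ≤ (Q.image E.face).card := by
    have : Q.image lab = (Q.image E.face).image
        (fun f : E.Face => Quotient.lift lab (fun a b h => (hLs a b h).symm) f) := by
      rw [Finset.image_image]
      rfl
    rw [this]
    exact Finset.card_image_le
  -- splitting the sum
  have h3 : ∑ x ∈ Q, E.wt s x =
      ∑ d ∈ univ.filter (fun d : G.Dart => P (.inl d) = true), (2 - s d) +
      ((univ.filter (fun d : {d : G.Dart // E.Crossed d} => P (.inr d) = true)).card : ℤ) := by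
    rw [hQ, Finset.sum_filter, Fintype.sum_sum_type, Finset.sum_filter, Finset.card_filter]
    push_cast
    rfl
  rw [Finset.sum_sub_distrib] at h3
  have h4 : ∑ d ∈ univ.filter (fun d : G.Dart => P (.inl d) = true), (2 : ℤ) =
      2 * ((univ.filter (fun d : G.Dart => P (.inl d) = true)).card : ℤ) := by
    simp [mul_comm]
  rw [h4] at h3
  -- lower bound for the sum of s
  have h5 : 4 * (A.card : ℤ) - k * B.card ≤
      ∑ d ∈ univ.filter (fun d : G.Dart => P (.inl d) = true), s d := by
    have hA' : ∑ d ∈ univ.filter (fun d : G.Dart => d.fst ∈ A), s d = 4 * (A.card : ℤ) := by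
      rw [← Finset.sum_fiberwise_of_maps_to
        (s := univ.filter (fun d : G.Dart => d.fst ∈ A)) (t := A) (g := fun d => d.fst)
        (fun x hx => (Finset.mem_filter.1 hx).2)]
      rw [Finset.sum_congr rfl (g := fun _ => (4 : ℤ))]
      · simp [mul_comm]
      · intro v hvA
        rw [← hv v]
        apply Finset.sum_congr _ (fun _ _ => rfl)
        ext d
        simp only [Finset.mem_filter, Finset.mem_univ, true_and]
        constructor
        · rintro ⟨_, h⟩; exact h
        · rintro rfl; exact ⟨hvA, rfl⟩
    have hB' : - (k * B.card : ℤ) ≤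
        ∑ d ∈ univ.filter (fun d : G.Dart => P (.inl d) = true ∧ d.fst ∈ B), s d := by
      have h6 : ∑ d ∈ univ.filter (fun d : G.Dart => P (.inl d) = true ∧ d.fst ∈ B),
          (- s d) ≤ k * B.card := by
        calc ∑ d ∈ univ.filter (fun d : G.Dart => P (.inl d) = true ∧ d.fst ∈ B), (- s d)
            ≤ ∑ d ∈ univ.filter (fun d : G.Dart => P (.inl d) = true ∧ d.fst ∈ B),
              max 0 (- s d) := Finset.sum_le_sum (fun d _ => le_max_right _ _)
          _ ≤ ∑ d ∈ univ.filter (fun d : G.Dart => d.fst ∈ B), max 0 (- s d) := by
              apply Finset.sum_le_sum_of_subset_of_nonneg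
              · intro d hd
                simp only [Finset.mem_filter, Finset.mem_univ, true_and] at hd ⊢
                exact hd.2
              · intro d _ _
                exact le_max_left _ _
          _ = ∑ v ∈ B, ∑ d : G.Dart with d.fst = v, max 0 (- s d) := by
              rw [← Finset.sum_fiberwise_of_maps_to
                (s := univ.filter (fun d : G.Dart => d.fst ∈ B)) (t := B) (g := fun d => d.fst)
                (fun x hx => (Finset.mem_filter.1 hx).2)]
              apply Finset.sum_congr rfl
              intro v hvB
              apply Finset.sum_congr _ (fun _ _ => rfl)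
              ext d
              simp only [Finset.mem_filter, Finset.mem_univ, true_and]
              constructor
              · rintro ⟨_, h⟩; exact h
              · rintro rfl; exact ⟨hvB, rfl⟩
          _ ≤ ∑ v ∈ B, (k : ℤ) := Finset.sum_le_sum (fun v _ => hk v)
          _ = k * B.card := by simp [mul_comm]
      rw [Finset.sum_neg_distrib] at h6
      linarith
    have hsplit : ∑ d ∈ univ.filter (fun d : G.Dart => P (.inl d) = true), s d =
        ∑ d ∈ univ.filter (fun d : G.Dart => d.fst ∈ A), s d +
        ∑ d ∈ univ.filter (fun d : G.Dart => P (.inl d) = true ∧ d.fst ∈ B), s d := by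
      rw [← Finset.sum_union]
      · apply Finset.sum_congr _ (fun _ _ => rfl)
        ext d
        simp only [Finset.mem_filter, Finset.mem_union, Finset.mem_univ, true_and]
        constructor
        · intro h
          rcases hB d h with h' | h'
          · exact Or.inl h'
          · exact Or.inr ⟨h, h'⟩
        · rintro (h | h)
          · exact hA d h
          · exact h.1
      · rw [Finset.disjoint_left]
        intro d hd hd'
        simp only [Finset.mem_filter, Finset.mem_univ, true_and] at hd hd'
        exact Finset.disjoint_left.1 hAB hd hd'.2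
    rw [hsplit, hA']
    linarith
  have h2' : ((Q.image lab).card : ℤ) ≤ (Q.image E.face).card := by exact_mod_cast h2
  have hnum' : 2 * ((univ.filter (fun d : G.Dart => P (.inl d) = true)).card : ℤ) +
      (univ.filter (fun d : {d : G.Dart // E.Crossed d} => P (.inr d) = true)).card -
      4 * (Q.image lab).card + k * B.card < 4 * A.card := hnum
  linarith

end Pool.Agent.Lib.MP_9ad789_co
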