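import Pool.Agent.Lib.MP_9ad789_co.ExTables
import Pool.Agent.Lib.MP_9ad789_co.ExA

/-!
# MP_9ad789_co : EX, the rotation system of the example
-/

namespace Pool.Agent.Lib.MP_9ad789_co.ExT

open Equiv Finset

/-- Table with values in `Fin 576`. -/
def fR (T i : ℕ) : Fin 576 := ⟨tb T i % 576, Nat.mod_lt _ (by norm_num)⟩

/-- Rotation. -/
def rotF (d : Fin 576) : Fin 576 := fR tRot d

/-- Inverse rotation. -/
def rinvF (d : Fin 576) : Fin 576 := fR tRinv d

/-- Other end. -/
def oppF (d : Fin 576) : Fin 576 := fR tOpp d

/-- Vertex. -/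
def vertF (d : Fin 576) : Fin 90 := ⟨tb tVert d % 90, Nat.mod_lt _ (by norm_num)⟩

/-- Crossing edge-end. -/
def crsF (d : Fin 576) : Option (Fin 576) :=
  if h : tb tCrs d < 576 then some ⟨tb tCrs d, h⟩ else none

/-- First edge-end at a vertex. -/
def fstF (v : Fin 90) : Fin 576 := fR tFst v

/-- Position of an edge-end. -/
def posF (d : Fin 576) : ℕ := tb tPos d

theorem chk_rot : ∀ d : Fin 576, rinvF (rotF d) = d := by decide +kernel
theorem chk_rinv : ∀ d : Fin 576, rotF (rinvF d) = d := by decide +kernel
theorem chk_vert : ∀ d : Fin 576, vertF (rotF d) = vertF d := by decide +kernel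
theorem chk_opp : ∀ d : Fin 576, oppF (oppF d) = d := by decide +kernel
theorem chk_ne : ∀ d : Fin 576, oppF d ≠ d := by decide +kernel
theorem chk_crs : ∀ d : Fin 576, (crsF d).elim true (fun e => crsF e = some (oppF d)) = true := by
  decide +kernel
theorem chk_crsv : ∀ d : Fin 576, (crsF d).elim true (fun e => vertF e ≠ vertF d) = true := by
  decide +kernel
theorem chk_pos : ∀ d : Fin 576, if posF d = 0 then d = fstF (vertF d) else
    posF (rinvF d) + 1 = posF d := by decide +kernel
theorem chk_loop : ∀ d : Fin 576, vertF (oppF d) ≠ vertF d := by decide +kernel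
theorem chk_key : ∀ d : Fin 575, 90 * (vertF d.castSucc : ℕ) + vertF (oppF d.castSucc) <
    90 * (vertF d.succ : ℕ) + vertF (oppF d.succ) := by decide +kernel

/-- The rotation as a permutation. -/
def rotP : Perm (Fin 576) := ⟨rotF, rinvF, chk_rot, chk_rinv⟩

theorem same_fst (k : ℕ) : ∀ d : Fin 576, posF d = k → rotP.SameCycle (fstF (vertF d)) d := by
  induction k with
  | zero =>
    intro d h
    have h1 := chk_pos d
    rw [if_pos h] at h1
    rw [← h1]
  | succ k ih =>
    intro d h
    have h1 := chk_pos d
    rw [if_neg (by omega)] at h1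
    have h2 := ih (rinvF d) (by omega)
    have h3 : vertF (rinvF d) = vertF d := by
      rw [← chk_vert (rinvF d), chk_rinv]
    rw [h3] at h2
    have h4 : rotP (rinvF d) = d := chk_rinv d
    rw [← h4]
    have h5 : vertF (rotP (rinvF d)) = vertF d := by rw [h4]
    rw [h5]
    exact Equiv.Perm.sameCycle_apply_right.2 h2

/-- The rotation system with crossings. -/
def X : XMap (Fin 90) (Fin 576) where
  rot := rotP
  vert := vertF
  opp := oppF
  crs := crsF
  vert_rot := chk_vert
  vert_same := fun d d' h => by
    have h1 := same_fst _ d rfl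
    have h2 := same_fst _ d' rfl
    rw [← h] at h2
    exact h1.symm.trans h2
  opp_opp := chk_opp
  opp_ne := chk_ne
  crs_crs := fun d e h => by
    have := chk_crs d
    rw [h] at this
    simpa using this
  crs_vert := fun d e h => by
    have := chk_crsv d
    rw [h] at this
    simpa using this

theorem X_no (d : Fin 576) : X.vert (X.opp d) ≠ X.vert d := chk_loop d

theorem key_inj : StrictMono (fun d : Fin 576 => 90 * (vertF d : ℕ) + vertF (oppF d)) := by
  rw [Fin.strictMono_iff_lt_succ]
  exact chk_key

theorem X_mul (d d' : Fin 576) (h1 : X.vert d = X.vert d')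
    (h2 : X.vert (X.opp d) = X.vert (X.opp d')) : d = d' := by
  apply key_inj.injective
  show 90 * (vertF d : ℕ) + vertF (oppF d) = 90 * (vertF d' : ℕ) + vertF (oppF d')
  have h1' : vertF d = vertF d' := h1
  have h2' : vertF (oppF d) = vertF (oppF d') := h2
  rw [h1', h2']

/-! ### faces -/

/-- Face label of `inl d`. -/
def l1 (d : Fin 576) : Fin 272 := ⟨tb tL1 d % 272, Nat.mod_lt _ (by norm_num)⟩

/-- Face label of `inr d`. -/
def l2 (d : Fin 576) : Fin 272 := ⟨tb tL2 d % 272, Nat.mod_lt _ (by norm_num)⟩

/-- Representative of a face. -/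
def rep (l : Fin 272) : Fin 576 := fR tRep l

/-- Steps to the representative. -/
def q1 (d : Fin 576) : ℕ := tb tQ1 d

/-- Steps to the representative. -/
def q2 (d : Fin 576) : ℕ := tb tQ2 d

theorem chk_l1 : ∀ d : Fin 576, (crsF d).elim (decide (l1 (rinvF (oppF d)) = l1 d))
    (fun e => decide (l2 (oppF e) = l1 d)) = true := by decide +kernel
theorem chk_l2 : ∀ d : Fin 576, (crsF d).isSome = true → l1 (rinvF d) = l2 d := by decide +kernel
theorem chk_q1 : ∀ d : Fin 576, if q1 d = 0 then d = rep (l1 d) else
    (crsF d).elim (decide (q1 (rinvF (oppF d)) + 1 = q1 d))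
      (fun e => decide (q2 (oppF e) + 1 = q1 d)) = true := by decide +kernel
theorem chk_q2 : ∀ d : Fin 576, (crsF d).isSome = true → q1 (rinvF d) + 1 = q2 d := by
  decide +kernel
theorem chk_rep : ∀ l : Fin 272, l1 (rep l) = l := by decide +kernel

/-- Face label. -/
def lab : X.PD → Fin 272
  | .inl d => l1 d
  | .inr d => l2 d.1

/-- Steps to the representative. -/
def stp : X.PD → ℕ
  | .inl d => q1 d
  | .inr d => q2 d.1

theorem lab_next (x : X.PD) : lab (X.next x) = lab x := by
  rcases x with d | d
  · have h := chk_l1 d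
    by_cases hc : X.Crossed d
    · obtain ⟨e, he⟩ := Option.isSome_iff_exists.mp hc
      obtain ⟨h1, h2⟩ := ExA.next_crossed X he
      have he' : crsF d = some e := he
      rw [he'] at h
      rw [h2]
      exact of_decide_eq_true h
    · have hn : crsF d = none := by
        have : ¬ (crsF d).isSome = true := hc
        simpa using this
      rw [hn] at h
      rw [ExA.next_uncrossed X hc]
      exact of_decide_eq_true h
  · exact chk_l2 d.1 d.2

theorem stp_next (x : X.PD) (hx : stp x ≠ 0) : stp (X.next x) + 1 = stp x := by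
  rcases x with d | d
  · have h := chk_q1 d
    have hx' : q1 d ≠ 0 := hx
    rw [if_neg hx'] at h
    by_cases hc : X.Crossed d
    · obtain ⟨e, he⟩ := Option.isSome_iff_exists.mp hc
      obtain ⟨h1, h2⟩ := ExA.next_crossed X he
      have he' : crsF d = some e := he
      rw [he'] at h
      rw [h2]
      exact of_decide_eq_true h
    · have hn : crsF d = none := by
        have : ¬ (crsF d).isSome = true := hc
        simpa using this
      rw [hn] at h
      rw [ExA.next_uncrossed X hc]
      exact of_decide_eq_true h
  · exact chk_q2 d.1 d.2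

theorem stp_zero (x : X.PD) (hx : stp x = 0) : x = .inl (rep (lab x)) := by
  rcases x with d | d
  · have h := chk_q1 d
    have hx' : q1 d = 0 := hx
    rw [if_pos hx'] at h
    exact congrArg Sum.inl h
  · exfalso
    have h : q1 (rinvF d.1) + 1 = q2 d.1 := chk_q2 d.1 d.2
    have h' : q2 d.1 = 0 := hx
    omega

theorem same_rep (k : ℕ) : ∀ x : X.PD, stp x = k → X.SameFace x (.inl (rep (lab x))) := by
  induction k with
  | zero =>
    intro x h
    rw [← stp_zero x h]
    exact Relation.EqvGen.refl _
  | succ k ih =>
    intro x h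
    have h1 := stp_next x (by omega)
    have h2 := ih (X.next x) (by omega)
    rw [lab_next] at h2
    exact Relation.EqvGen.trans _ _ _ (Relation.EqvGen.rel _ _ rfl) h2

theorem lab_same {x y : X.PD} (h : X.SameFace x y) : lab x = lab y := by
  unfold XMap.SameFace at h
  induction h with
  | rel a b h => rw [h, lab_next]
  | refl a => rfl
  | symm a b _ ih => exact ih.symm
  | trans a b c _ _ ih1 ih2 => exact ih1.trans ih2

theorem card_face : Nat.card X.Face = 272 := by
  have e : X.Face ≃ Fin 272 := Equiv.ofBijective
    (fun f : X.Face => Quotient.lift lab (fun a b h => lab_same h) f) (by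
      constructor
      · intro f g
        refine Quotient.inductionOn₂ f g ?_
        intro a b h
        have h' : lab a = lab b := h
        apply Quotient.sound
        have h1 := same_rep _ a rfl
        have h2 := same_rep _ b rfl
        rw [← h'] at h2
        exact Relation.EqvGen.trans _ _ _ h1 (Relation.EqvGen.symm _ _ h2)
      · intro l
        exact ⟨X.face (.inl (rep l)), chk_rep l⟩)
  rw [Nat.card_congr e]
  simp

theorem card_cr : (univ.filter (fun d : Fin 576 => (crsF d).isSome = true)).card = 288 := by
  decide +kernel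

theorem card_crossed : Nat.card {d : Fin 576 // X.Crossed d} = 288 := by
  rw [Nat.card_eq_fintype_card, Fintype.card_subtype]
  exact card_cr

theorem X_euler : X.EulerFormula := by
  unfold XMap.EulerFormula
  have h1 : Nat.card X.PD = 576 + 288 := by
    rw [Nat.card_sum, card_crossed]
    simp
  rw [h1, card_crossed, card_face]
  simp

end Pool.Agent.Lib.MP_9ad789_co.ExT
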