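import Pool.Agent.Lib.MP_9ad789_co.ExMap
import Pool.Agent.Lib.MP_9ad789_co.ExB
import Pool.Agent.Lib.MP_9ad789_co.Ex3

/-!
# MP_9ad789_co : EX, a 3-connected 1-plane graph without representation of vertex complexity 3
-/

namespace Pool.Agent.Lib.MP_9ad789_co

open Equiv Finset

namespace ExT

/-! ### 3-connectedness -/

/-- First edge-end of a vertex. -/
def sF (v : Fin 90) : Fin 576 := fR tS v

/-- Second edge-end of a vertex. -/
def sF1 (v : Fin 90) : Fin 576 := ⟨(tb tS v + 1) % 576, Nat.mod_lt _ (by norm_num)⟩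

/-- Third edge-end of a vertex. -/
def sF2 (v : Fin 90) : Fin 576 := ⟨(tb tS v + 2) % 576, Nat.mod_lt _ (by norm_num)⟩

theorem chk_ext : ∀ v : Fin 90, 10 ≤ (v : ℕ) →
    vertF (sF v) = v ∧ vertF (sF1 v) = v ∧ vertF (sF2 v) = v ∧
    vertF (oppF (sF v)) < v ∧ vertF (oppF (sF1 v)) < v ∧ vertF (oppF (sF2 v)) < v ∧
    vertF (oppF (sF v)) ≠ vertF (oppF (sF1 v)) ∧ vertF (oppF (sF v)) ≠ vertF (oppF (sF2 v)) ∧
    vertF (oppF (sF1 v)) ≠ vertF (oppF (sF2 v)) := by decide +kernel

/-- Adjacency in the bipyramid. -/
def bip (u v : Fin 10) : Bool :=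
  (decide ((u : ℕ) < 2) && decide (2 ≤ (v : ℕ))) || (decide ((v : ℕ) < 2) && decide (2 ≤ (u : ℕ))) ||
    (decide (2 ≤ (v : ℕ)) && decide ((u : ℕ) = v + 1))

/-- Edge-end joining two vertices of the bipyramid. -/
def adF (u v : Fin 10) : Fin 576 := fR tAdj (10 * u + v)

theorem chk_adj : ∀ u v : Fin 10, bip u v = true →
    vertF (adF u v) = Fin.castLE (by norm_num) u ∧
    vertF (oppF (adF u v)) = Fin.castLE (by norm_num) v := by decide +kernel

theorem base_connected (H : SimpleGraph (Fin 10)) (hH : ∀ u v, bip u v = true → H.Adj u v) :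
    ThreeConnected H := by
  refine ⟨by simp, ?_⟩
  intro S hS
  have hadj : ∀ (u v : Fin 10) (hu : u ∉ S) (hv : v ∉ S), bip u v = true →
      (H.induce {v | v ∉ S}).Reachable ⟨u, hu⟩ ⟨v, hv⟩ := by
    intro u v hu hv h
    apply SimpleGraph.Adj.reachable
    exact hH u v h
  have b0 : ∀ v : Fin 10, 2 ≤ (v : ℕ) → bip v 0 = true := by decide
  have b1 : ∀ v : Fin 10, 2 ≤ (v : ℕ) → bip 1 v = true := by decide
  have b1' : ∀ v : Fin 10, 2 ≤ (v : ℕ) → bip v 1 = true := by decide
  have hroot : ∃ (r : Fin 10) (hr : r ∉ S), ∀ (v : Fin 10) (hv : v ∉ S),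
      (H.induce {v | v ∉ S}).Reachable ⟨v, hv⟩ ⟨r, hr⟩ := by
    by_cases h0 : (0 : Fin 10) ∈ S
    · by_cases h1 : (1 : Fin 10) ∈ S
      · have hS2 : S = {0, 1} := by
          symm
          apply Finset.eq_of_subset_of_card_le
          · intro x hx
            simp only [Finset.mem_insert, Finset.mem_singleton] at hx
            rcases hx with rfl | rfl <;> assumption
          · exact le_trans hS (by decide)
        have hmem : ∀ v : Fin 10, v ∉ S → 2 ≤ (v : ℕ) := by
          rw [hS2]
          decide
        have hmem' : ∀ v : Fin 10, 2 ≤ (v : ℕ) → v ∉ S := by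
          rw [hS2]
          decide
        refine ⟨2, hmem' 2 (by decide), ?_⟩
        have key : ∀ m : ℕ, ∀ (v : Fin 10) (hv : v ∉ S), (v : ℕ) = m + 2 →
            (H.induce {v | v ∉ S}).Reachable ⟨v, hv⟩ ⟨2, hmem' 2 (by decide)⟩ := by
          intro m
          induction m with
          | zero =>
            intro v hv h
            have : v = 2 := Fin.ext h
            subst this
            exact SimpleGraph.Reachable.refl _
          | succ m ih =>
            intro v hv h
            have hlt : m + 2 < 10 := by have := v.2; omega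
            have hw : (⟨m + 2, hlt⟩ : Fin 10) ∉ S := hmem' _ (by simp)
            refine SimpleGraph.Reachable.trans (hadj v ⟨m + 2, hlt⟩ hv hw ?_) (ih _ hw rfl)
            simp only [bip, Bool.or_eq_true, Bool.and_eq_true, decide_eq_true_eq]
            right
            exact ⟨by omega, by omega⟩
        intro v hv
        have h2 := hmem v hv
        exact key ((v : ℕ) - 2) v hv (by omega)
      · refine ⟨1, h1, ?_⟩
        intro v hv
        by_cases hv1 : v = 1
        · subst hv1
          exact SimpleGraph.Reachable.refl _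
        · have hv2 : 2 ≤ (v : ℕ) := by
            have hv0 : v ≠ 0 := fun h => hv (h ▸ h0)
            have h3 : (v : ℕ) ≠ 0 := fun h => hv0 (Fin.ext h)
            have h4 : (v : ℕ) ≠ 1 := fun h => hv1 (Fin.ext h)
            omega
          exact hadj v 1 hv h1 (b1' v hv2)
    · refine ⟨0, h0, ?_⟩
      intro v hv
      by_cases hv0 : v = 0
      · subst hv0
        exact SimpleGraph.Reachable.refl _
      · by_cases hv1 : v = 1
        · subst hv1
          have hex : ∃ c : Fin 10, 2 ≤ (c : ℕ) ∧ c ∉ S := by
            by_contra hcon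
            push Not at hcon
            have h3 : (univ.filter (fun c : Fin 10 => 2 ≤ (c : ℕ))) ⊆ S := by
              intro c hc
              exact hcon c (Finset.mem_filter.1 hc).2
            have h4 := Finset.card_le_card h3
            have h5 : (univ.filter (fun c : Fin 10 => 2 ≤ (c : ℕ))).card = 8 := by decide
            omega
          obtain ⟨c, hc2, hc⟩ := hex
          exact SimpleGraph.Reachable.trans (hadj 1 c hv hc (b1 c hc2)) (hadj c 0 hc h0 (b0 c hc2))
        · have hv2 : 2 ≤ (v : ℕ) := by
            have h3 : (v : ℕ) ≠ 0 := fun h => hv0 (Fin.ext h)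
            have h4 : (v : ℕ) ≠ 1 := fun h => hv1 (Fin.ext h)
            omega
          exact hadj v 0 hv h0 (b0 v hv2)
  obtain ⟨r, hr, hreach⟩ := hroot
  exact { preconnected := fun u v => (hreach u.1 u.2).trans (hreach v.1 v.2).symm
          nonempty := ⟨⟨r, hr⟩⟩ }

theorem three_connected (G : SimpleGraph (Fin 90))
    (hG : ∀ u v, G.Adj u v ↔ ∃ d, X.vert d = u ∧ X.vert (X.opp d) = v) : ThreeConnected G := by
  apply threeConnected_extend (b := 10) (by norm_num) G
  · apply base_connected
    intro u v h
    obtain ⟨h1, h2⟩ := chk_adj u v h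
    exact (hG _ _).2 ⟨adF u v, h1, h2⟩
  · intro i hi
    obtain ⟨v1, v2, v3, l1, l2, l3, n1, n2, n3⟩ := chk_ext i hi
    exact ⟨_, _, _, l1, l2, l3, n1, n2, n3, (hG _ _).2 ⟨sF i, v1, rfl⟩,
      (hG _ _).2 ⟨sF1 i, v2, rfl⟩, (hG _ _).2 ⟨sF2 i, v3, rfl⟩⟩

/-! ### the certificate -/

theorem chk_A : ∀ d : Fin 576, 18 ≤ (vertF d : ℕ) → (l1 d : ℕ) < 200 := by decide +kernel
theorem chk_B : ∀ d : Fin 576, (l1 d : ℕ) < 200 → 18 ≤ (vertF d : ℕ) ∨ (vertF d : ℕ) < 10 := by
  decide +kernel
theorem chk_o : ¬ (l1 240 : ℕ) < 200 := by decide +kernel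
theorem card_c1 : (univ.filter (fun d : Fin 576 => (l1 d : ℕ) < 200)).card = 432 := by
  decide +kernel
theorem card_c2 : (univ.filter (fun d : Fin 576 => (crsF d).isSome = true ∧
    (l2 d : ℕ) < 200)).card = 192 := by decide +kernel

/-- The face with label `n` belongs to the certificate. -/
def isP (n : ℕ) : Bool := decide (n < 200)

theorem isP_iff {n : ℕ} : isP n = true ↔ n < 200 := decide_eq_true_iff

theorem isP_not {n : ℕ} (h : ¬ n < 200) : isP n = false := decide_eq_false h

attribute [irreducible] isP

theorem card_labels {α : Type} [Fintype α] (f : α → ℕ) (p : ℕ → Bool) (n : ℕ)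
    (h : ∀ l < n, p l = true) (h' : ∀ l < n, ∃ x, f x = l) :
    n ≤ ((univ.filter (fun x => p (f x) = true)).image f).card := by
  have h4 : Finset.range n ⊆ (univ.filter (fun x => p (f x) = true)).image f := by
    intro l hl
    rw [Finset.mem_range] at hl
    obtain ⟨x, rfl⟩ := h' l hl
    exact Finset.mem_image_of_mem _ (Finset.mem_filter.2 ⟨Finset.mem_univ _, h _ hl⟩)
  have h6 := Finset.card_le_card h4
  rwa [Finset.card_range] at h6

theorem isSome_of_map {α β : Type} (f : α → β) (o : Option α) (h : (o.map f).isSome = true) :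
    o.isSome = true := by simpa using h

end ExT

open ExT

set_option linter.constructorNameAsVariable false in
theorem exists_example : ∃ (V : Type) (_ : Fintype V) (_ : DecidableEq V) (G : SimpleGraph V)
    (_ : DecidableRel G.Adj) (E : OnePlane G), ThreeConnected G ∧
    ¬ ∃ s : G.Dart → ℤ, (∀ v, ∑ d : G.Dart with d.fst = v, s d = 4) ∧
      (∀ x : E.PD, (E.SameFace (.inl E.outer) x → E.faceSum (E.wt s) x = -4) ∧
        (¬ E.SameFace (.inl E.outer) x → E.faceSum (E.wt s) x = 4)) ∧
      ∀ v, ∑ d : G.Dart with d.fst = v, max 0 (- s d) ≤ 3 := by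
  obtain ⟨G, hdec, E, e, hG, hfst, hrot, hsym, hcrs, hout⟩ :=
    onePlane_of X X_no X_mul X_euler 240
  refine ⟨Fin 90, inferInstance, inferInstance, G, hdec, E, three_connected G hG, ?_⟩
  -- labels of the faces of E
  let labE : E.PD → ℕ := fun x => match x with
    | .inl d => (l1 (e.symm d) : ℕ)
    | .inr d => (l2 (e.symm d.1) : ℕ)
  have hrs : ∀ a, E.rot.symm (e a) = e (X.rot.symm a) := by
    intro a
    rw [Equiv.symm_apply_eq, hrot, Equiv.apply_symm_apply]
  have hnext : ∀ x, labE (E.next x) = labE x := by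
    intro x
    rcases x with d | ⟨d, hd⟩
    · obtain ⟨a, rfl⟩ := e.surjective d
      have h := chk_l1 a
      rcases hc : crsF a with _ | c
      · rw [hc] at h
        have h1 : E.crs (e a) = none := by
          rw [hcrs]
          show (crsF a).map e = none
          rw [hc]
          rfl
        have h2 : ¬ E.Crossed (e a) := by
          unfold XMap.Crossed
          rw [h1]
          simp
        rw [ExA.next_uncrossed _ h2, E.opp_eq, hsym, hrs]
        show (l1 (e.symm (e (X.rot.symm (X.opp a)))) : ℕ) = l1 (e.symm (e a))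
        rw [Equiv.symm_apply_apply, Equiv.symm_apply_apply]
        exact congrArg Fin.val (of_decide_eq_true h)
      · rw [hc] at h
        have h1 : E.crs (e a) = some (e c) := by
          rw [hcrs]
          show (crsF a).map e = some (e c)
          rw [hc]
          rfl
        obtain ⟨h2, h3⟩ := ExA.next_crossed _ h1
        rw [h3]
        show (l2 (e.symm (E.opp (e c))) : ℕ) = l1 (e.symm (e a))
        rw [E.opp_eq, hsym, Equiv.symm_apply_apply, Equiv.symm_apply_apply]
        exact congrArg Fin.val (of_decide_eq_true h)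
    · obtain ⟨a, rfl⟩ := e.surjective d
      rw [ExA.next_inr]
      show (l1 (e.symm (E.rot.symm (e a))) : ℕ) = l2 (e.symm (e a))
      rw [hrs, Equiv.symm_apply_apply, Equiv.symm_apply_apply]
      have h1 : (crsF a).isSome = true := by
        have h2 : (E.crs (e a)).isSome = true := hd
        rw [hcrs] at h2
        exact isSome_of_map e (X.crs a) h2
      exact congrArg Fin.val (chk_l2 a h1)
  let P : E.PD → Bool := fun x => isP (labE x)
  have hcert := no_s_of_cert E 3 (univ.filter (fun v : Fin 90 => 18 ≤ (v : ℕ)))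
    (univ.filter (fun v : Fin 90 => (v : ℕ) < 10)) P labE
    (fun x => by show isP (labE (E.next x)) = isP (labE x); rw [hnext]) hnext
    ?_ ?_ ?_ ?_ ?_
  · simpa using hcert
  · intro d hd
    obtain ⟨a, rfl⟩ := e.surjective d
    have h1 := (Finset.mem_filter.1 hd).2
    rw [hfst] at h1
    show isP (l1 (e.symm (e a)) : ℕ) = true
    rw [Equiv.symm_apply_apply]
    exact isP_iff.2 (chk_A a h1)
  · intro d hd
    obtain ⟨a, rfl⟩ := e.surjective d
    have h1 : isP (l1 (e.symm (e a)) : ℕ) = true := hd
    rw [Equiv.symm_apply_apply] at h1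
    rw [hfst]
    rcases chk_B a (isP_iff.1 h1) with h2 | h2
    · left; exact Finset.mem_filter.2 ⟨mem_univ _, h2⟩
    · right; exact Finset.mem_filter.2 ⟨mem_univ _, h2⟩
  · rw [Finset.disjoint_left]
    intro v hv hv'
    have h1 := (Finset.mem_filter.1 hv).2
    have h2 := (Finset.mem_filter.1 hv').2
    omega
  · show isP (l1 (e.symm E.outer) : ℕ) = false
    rw [hout, Equiv.symm_apply_apply]
    exact isP_not chk_o
  · have hA : (univ.filter (fun v : Fin 90 => 18 ≤ (v : ℕ))).card = 72 := by decide
    have hB : (univ.filter (fun v : Fin 90 => (v : ℕ) < 10)).card = 10 := by decide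
    have h1 : (univ.filter (fun d : G.Dart => P (.inl d) = true)).card ≤ 432 := by
      rw [← card_c1]
      apply Finset.card_le_card_of_injOn e.symm
      · intro d hd
        rw [Finset.mem_coe, Finset.mem_filter] at hd
        have h2 : isP (l1 (e.symm d) : ℕ) = true := hd.2
        have h3 := isP_iff.1 h2
        exact Finset.mem_coe.2 (Finset.mem_filter.2 ⟨mem_univ _, h3⟩)
      · intro a _ b _ h
        exact e.symm.injective h
    have h2 : (univ.filter (fun d : {d : G.Dart // E.Crossed d} => P (.inr d) = true)).card ≤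
        192 := by
      rw [← card_c2]
      apply Finset.card_le_card_of_injOn (fun d => e.symm d.1)
      · intro d hd
        rw [Finset.mem_coe, Finset.mem_filter] at hd
        have h2 : isP (l2 (e.symm d.1) : ℕ) = true := hd.2
        have h4 := isP_iff.1 h2
        refine Finset.mem_coe.2 (Finset.mem_filter.2 ⟨mem_univ _, ?_, h4⟩)
        have h3 : (E.crs d.1).isSome = true := d.2
        obtain ⟨a, ha⟩ := e.surjective d.1
        rw [← ha] at h3
        show (crsF (e.symm d.1)).isSome = true
        rw [← ha, Equiv.symm_apply_apply]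
        rw [hcrs] at h3
        exact isSome_of_map e (X.crs a) h3
      · intro a _ b _ h
        exact Subtype.ext (e.symm.injective h)
    have h3 : 200 ≤ ((univ.filter (fun x : E.PD => P x = true)).image labE).card := by
      refine card_labels labE isP 200 (fun l hl => isP_iff.2 hl) ?_
      intro l hl
      have hl' : l < 272 := by omega
      refine ⟨.inl (e (rep ⟨l, hl'⟩)), ?_⟩
      show (l1 (e.symm (e (rep ⟨l, hl'⟩))) : ℕ) = l
      rw [Equiv.symm_apply_apply, chk_rep]
    rw [hA, hB]
    have h1' : ((univ.filter (fun d : G.Dart => P (.inl d) = true)).card : ℤ) ≤ 432 := by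
      exact_mod_cast h1
    have h2' : ((univ.filter (fun d : {d : G.Dart // E.Crossed d} =>
        P (.inr d) = true)).card : ℤ) ≤ 192 := by exact_mod_cast h2
    have h3' : (200 : ℤ) ≤ (((univ.filter (fun x : E.PD => P x = true)).image labE).card : ℤ) := by
      exact_mod_cast h3
    push_cast
    linarith

end Pool.Agent.Lib.MP_9ad789_co
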