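import Pool.Agent.Lib.MP_9ad789_co.Dem
import Pool.Agent.Lib.MP_9ad789_co.Chi

/-!
# MP_9ad789_co : the excess of a set of vertices (module EXC)
-/

set_option linter.unusedSectionVars false

namespace Pool.Agent.Lib.MP_9ad789_co

open Equiv Finset

namespace Exc

variable {D N F : Type} [Fintype D] [Fintype N] [Fintype F]
  [DecidableEq D] [DecidableEq N] [DecidableEq F]
variable {C : Cell D N F} {isX : N → Prop} [DecidablePred isX]

theorem xsum (_h : C.OneP isX) (S : Finset F) :
    (univ.filter (fun d => C.left d ∈ S ∧ isX (C.tail d))).card =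
      ∑ n with isX n, C.cornersIn S n := by
  rw [card_eq_sum_card_fiberwise (f := C.tail) (t := univ.filter (fun n => isX n))]
  · refine sum_congr rfl fun n hn => ?_
    rw [mem_filter] at hn
    unfold Cell.cornersIn
    rw [filter_filter]
    congr 1
    ext d
    simp only [mem_filter, mem_univ, true_and]
    constructor
    · exact fun hd => ⟨hd.2, hd.1.1⟩
    · exact fun hd => ⟨⟨hd.2, by rw [hd.1]; exact hn.2⟩, hd.1⟩
  · intro d hd
    have := (mem_filter.1 hd).2.2
    simpa using this

theorem cornersIn_le (h : C.OneP isX) (S : Finset F) {n : N} (hn : isX n) :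
    C.cornersIn S n ≤ 4 := by
  rw [← card_x h hn]
  exact card_le_card fun d hd => by
    simp only [mem_filter, mem_univ, true_and] at hd ⊢
    exact hd.1

theorem cornersIn_eq_four (h : C.OneP isX) (S : Finset F) {n : N} (hn : isX n) :
    C.cornersIn S n = 4 ↔ ∀ d, C.tail d = n → C.left d ∈ S := by
  constructor
  · intro h4 d hd
    have hsub : univ.filter (fun d => C.tail d = n ∧ C.left d ∈ S) ⊆
        univ.filter (fun d => C.tail d = n) := fun d hd => by
      simp only [mem_filter, mem_univ, true_and] at hd ⊢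
      exact hd.1
    have heq := eq_of_subset_of_card_le hsub (by rw [card_x h hn]; exact h4.ge)
    have : d ∈ univ.filter (fun d => C.tail d = n) := by simpa using hd
    rw [← heq] at this
    simpa [hd] using this
  · intro hall
    unfold Cell.cornersIn
    rw [← card_x h hn]
    congr 1
    ext d
    simp only [mem_filter, mem_univ, true_and]
    exact ⟨fun hd => hd.1, fun hd => ⟨hd, hall d hd⟩⟩

theorem cornersIn_ne_zero (S : Finset F) {n : N} (h0 : C.cornersIn S n ≠ 0) :
    ∃ d, C.tail d = n ∧ C.left d ∈ S := by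
  unfold Cell.cornersIn at h0
  obtain ⟨d, hd⟩ := card_ne_zero.1 h0
  simp only [mem_filter, mem_univ, true_and] at hd
  exact ⟨d, hd⟩

/-- At a crossing which is neither inside nor outside, the boundary is crossed. -/
theorem exists_out (h : C.OneP isX) (S : Finset F) {n : N} (hn : isX n)
    (h0 : C.cornersIn S n ≠ 0) (h4 : C.cornersIn S n ≠ 4) :
    ∃ d, C.tail d = n ∧ C.left d ∈ S ∧ C.left (C.σ d) ∉ S := by
  by_contra hno
  push Not at hno
  obtain ⟨d, hd, hdS⟩ := cornersIn_ne_zero S h0
  apply h4
  rw [cornersIn_eq_four h S hn]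
  intro d' hd'
  refine rot_induct h.tight (P := fun e => C.left e ∈ S) (hd.trans hd'.symm) hdS ?_
  intro e he heS
  exact hno e (he.trans hd) heS

theorem exists_in (h : C.OneP isX) (S : Finset F) {n : N} (hn : isX n)
    (h0 : C.cornersIn S n ≠ 0) (h4 : C.cornersIn S n ≠ 4) :
    ∃ d, C.tail d = n ∧ C.left d ∉ S ∧ C.left (C.σ d) ∈ S := by
  by_contra hno
  push Not at hno
  have : ∃ d, C.tail d = n ∧ C.left d ∉ S := by
    by_contra hno'
    push Not at hno'
    exact h4 ((cornersIn_eq_four h S hn).2 hno')
  obtain ⟨d, hd, hdS⟩ := this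
  obtain ⟨d', hd', hdS'⟩ := cornersIn_ne_zero S h0
  refine (rot_induct h.tight (P := fun e => C.left e ∉ S) (hd.trans hd'.symm) hdS ?_) hdS'
  intro e he heS
  exact hno e (he.trans hd) heS

end Exc

open Exc

section B

variable {D N F : Type} [Fintype D] [Fintype N] [Fintype F]
  [DecidableEq D] [DecidableEq N] [DecidableEq F]
variable {C : Cell D N F} {isX : N → Prop} [DecidablePred isX]

theorem excess_univ (h : C.OneP isX) (o : F) (A : Finset N) (hA : ∀ n ∈ A, ¬ isX n)
    (hS : C.facesOf A = univ) :
    C.excess isX o A + 4 * ((univ.filter (fun n => ¬ isX n ∧ n ∉ A)).card : ℤ) = 0 := by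
  unfold Cell.excess
  rw [demand_sum, hS]
  have h1 : (univ.filter (fun d => C.left d ∈ (univ : Finset F))).card = Fintype.card D := by
    simp
  have h2 : (univ.filter (fun d => C.left d ∈ (univ : Finset F) ∧ isX (C.tail d))).card =
      4 * (univ.filter (fun n => isX n)).card := by
    rw [← card_xdarts h]
    simp
  have h3 := h.planar
  unfold Cell.Planar at h3
  have h4 := Exc.card_real_add (N := N) (isX := isX)
  have h5 : (univ.filter (fun n => ¬ isX n ∧ n ∉ A)).card + A.card =
      (univ.filter (fun n : N => ¬ isX n)).card := by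
    rw [← card_filter_add_card_filter_not (s := univ.filter (fun n : N => ¬ isX n))
      (fun n => n ∉ A), filter_filter, filter_filter]
    congr 2
    ext n
    simp only [not_not, mem_filter, mem_univ, true_and]
    exact ⟨fun hn => ⟨hA n hn, hn⟩, fun hn => hn.2⟩
  rw [h1, h2, card_univ]
  simp only [mem_univ, if_true]
  push_cast
  have h3' : (2 : ℤ) * Fintype.card N + 2 * Fintype.card F = Fintype.card D + 4 := by
    exact_mod_cast h3
  have h4' : ((univ.filter (fun n : N => isX n)).card : ℤ) +
      (univ.filter (fun n : N => ¬ isX n)).card = Fintype.card N := by exact_mod_cast h4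
  have h5' : ((univ.filter (fun n => ¬ isX n ∧ n ∉ A)).card : ℤ) + A.card =
      (univ.filter (fun n : N => ¬ isX n)).card := by exact_mod_cast h5
  linarith

theorem arcs_le (h : C.OneP isX) (S : Finset F) :
    (univ.filter (fun n => isX n ∧ C.cornersIn S n ≠ 0 ∧ C.cornersIn S n ≠ 4)).card ≤
      (univ.filter (fun d => ¬ isX (C.tail d) ∧ C.left d ∈ S ∧ C.right d ∉ S)).card := by
  have hc : ∀ n ∈ univ.filter (fun n => isX n ∧ C.cornersIn S n ≠ 0 ∧ C.cornersIn S n ≠ 4),
      ∃ d ∈ univ.filter (fun d => ¬ isX (C.tail d) ∧ C.left d ∈ S ∧ C.right d ∉ S),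
        C.head d = n := by
    intro n hn
    simp only [mem_filter, mem_univ, true_and] at hn
    obtain ⟨d, hd, h1, h2⟩ := exists_out h S hn.1 hn.2.1 hn.2.2
    refine ⟨C.α (C.σ d), ?_, ?_⟩
    · simp only [mem_filter, mem_univ, true_and]
      refine ⟨?_, ?_, ?_⟩
      · rw [C.tail_α]
        exact h.x_real _ (by rw [C.tail_σ, hd]; exact hn.1)
      · rw [C.left_α_σ]
        exact h1
      · rw [C.right_α]
        exact h2
    · rw [C.head_α, C.tail_σ, hd]
  refine le_trans (card_le_card (t := (univ.filter (fun d => ¬ isX (C.tail d) ∧ C.left d ∈ S ∧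
    C.right d ∉ S)).image C.head) fun n hn => ?_) card_image_le
  obtain ⟨d, hd, hd'⟩ := hc n hn
  exact mem_image.2 ⟨d, hd, hd'⟩

theorem Exc.arcs_le' (h : C.OneP isX) (S : Finset F) :
    (univ.filter (fun n => isX n ∧ C.cornersIn S n ≠ 0 ∧ C.cornersIn S n ≠ 4)).card ≤
      (univ.filter (fun d => isX (C.tail d) ∧ C.left d ∈ S ∧ C.right d ∉ S)).card := by
  have hc : ∀ n ∈ univ.filter (fun n => isX n ∧ C.cornersIn S n ≠ 0 ∧ C.cornersIn S n ≠ 4),
      ∃ d ∈ univ.filter (fun d => isX (C.tail d) ∧ C.left d ∈ S ∧ C.right d ∉ S),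
        C.tail d = n := by
    intro n hn
    simp only [mem_filter, mem_univ, true_and] at hn
    obtain ⟨d, hd, h1, h2⟩ := exists_in h S hn.1 hn.2.1 hn.2.2
    refine ⟨C.σ d, ?_, ?_⟩
    · simp only [mem_filter, mem_univ, true_and]
      refine ⟨?_, h2, ?_⟩
      · rw [C.tail_σ, hd]
        exact hn.1
      · rw [C.right_σ]
        exact h1
    · rw [C.tail_σ, hd]
  refine le_trans (card_le_card (t := (univ.filter (fun d => isX (C.tail d) ∧ C.left d ∈ S ∧
    C.right d ∉ S)).image C.tail) fun n hn => ?_) card_image_le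
  obtain ⟨d, hd, hd'⟩ := hc n hn
  exact mem_image.2 ⟨d, hd, hd'⟩

/-- The faces of a face connected set are dual connected. -/
theorem Exc.dual_conn (hT : C.Tight) {A : Finset N} (hconn : C.FaceConn A) :
    ∀ T ⊆ C.facesOf A, T.Nonempty →
      (∀ d, C.left d ∈ T → C.right d ∈ C.facesOf A → C.right d ∈ T) → T = C.facesOf A := by
  intro T hTS hTne hcl
  have hin : ∀ d, C.tail d ∈ A → C.left d ∈ C.facesOf A := fun d hd => by
    unfold Cell.facesOf
    simp only [mem_filter, mem_univ, true_and]
    exact ⟨d, hd, rfl⟩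
  have hrot : ∀ d d', C.tail d ∈ A → C.tail d = C.tail d' → C.left d ∈ T → C.left d' ∈ T := by
    intro d d' hdA hdd' hdT
    refine rot_induct hT (P := fun e => C.left e ∈ T) hdd' hdT ?_
    intro e he heT
    have := hcl (C.α (C.σ e)) (by rw [C.left_α_σ]; exact heT)
      (by rw [C.right_α]; exact hin _ (by rw [C.tail_σ, he]; exact hdA))
    rwa [C.right_α] at this
  set B : Finset N := A.filter (fun n => ∃ d, C.tail d = n ∧ C.left d ∈ T) with hB
  have hBA : B = A := by
    apply hconn B (filter_subset _ _)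
    · obtain ⟨f, hf⟩ := hTne
      have := hTS hf
      unfold Cell.facesOf at this
      simp only [mem_filter, mem_univ, true_and] at this
      obtain ⟨d, hd, rfl⟩ := this
      exact ⟨C.tail d, mem_filter.2 ⟨hd, d, rfl, hf⟩⟩
    · intro d d' hd hd' hl
      obtain ⟨hdA, e, he, heT⟩ := mem_filter.1 hd
      refine mem_filter.2 ⟨hd', d', rfl, ?_⟩
      rw [← hl]
      exact hrot e d (by rw [he]; exact hdA) he heT
  apply subset_antisymm hTS
  intro f hf
  unfold Cell.facesOf at hf
  simp only [mem_filter, mem_univ, true_and] at hf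
  obtain ⟨d, hd, rfl⟩ := hf
  rw [← hBA] at hd
  obtain ⟨hdA, e, he, heT⟩ := mem_filter.1 hd
  exact hrot e d (by rw [he]; exact hdA) he heT

theorem excess_le (h : C.OneP isX) (o : F) (A : Finset N) (hA : ∀ n ∈ A, ¬ isX n)
    (hne : A.Nonempty) (hconn : C.FaceConn A) (hS : C.facesOf A ≠ univ) :
    C.excess isX o A +
      4 * ((univ.filter (fun n => ¬ isX n ∧ n ∉ A ∧
        ∀ d, C.tail d = n → C.left d ∈ C.facesOf A)).card : ℤ) +
      2 * ((univ.filter (fun d => ¬ isX (C.tail d) ∧ C.left d ∈ C.facesOf A ∧
        C.right d ∉ C.facesOf A)).card : ℤ) +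
      ((univ.filter (fun n => isX n ∧ C.cornersIn (C.facesOf A) n = 1)).card : ℤ) +
      (if o ∈ C.facesOf A then 8 else 0) ≤
    4 + ((univ.filter (fun n => isX n ∧ C.cornersIn (C.facesOf A) n = 3)).card : ℤ) := by
  set S := C.facesOf A with hSdef
  have hin : ∀ d, C.tail d ∈ A → C.left d ∈ S := fun d hd => by
    rw [hSdef]
    unfold Cell.facesOf
    simp only [mem_filter, mem_univ, true_and]
    exact ⟨d, hd, rfl⟩
  have hSne : S.Nonempty := by
    obtain ⟨n, hn⟩ := hne
    obtain ⟨d, rfl⟩ := C.tail_surj n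
    exact ⟨_, hin d hn⟩
  have hout : ∃ f, f ∉ S := by
    by_contra hno
    push Not at hno
    exact hS (eq_univ_iff_forall.2 hno)
  have hchi := chi_le C S hSne (Exc.dual_conn h.tight hconn) hout
  have hex : C.excess isX o A = 4 * A.card - ∑ f ∈ S, C.demand isX o f := rfl
  rw [hex, demand_sum, xsum h S]
  -- interior nodes
  have hint : A.card + (univ.filter (fun n => ¬ isX n ∧ n ∉ A ∧
        ∀ d, C.tail d = n → C.left d ∈ S)).card +
      (univ.filter (fun n => isX n ∧ C.cornersIn S n = 4)).card ≤
      (univ.filter (fun n => ∀ d, C.tail d = n → C.left d ∈ S)).card := by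
    rw [← card_union_of_disjoint, ← card_union_of_disjoint]
    · apply card_le_card
      intro n hn
      simp only [mem_union, mem_filter, mem_univ, true_and] at hn ⊢
      rcases hn with (hn | hn) | hn
      · intro d hd
        exact hin d (by rw [hd]; exact hn)
      · exact hn.2.2
      · exact (cornersIn_eq_four h S hn.1).1 hn.2
    · rw [disjoint_left]
      intro n hn hn'
      simp only [mem_union, mem_filter, mem_univ, true_and] at hn hn'
      rcases hn with hn | hn
      · exact hA n hn hn'.1
      · exact hn.1 hn'.1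
    · rw [disjoint_left]
      intro n hn hn'
      simp only [mem_filter, mem_univ, true_and] at hn'
      exact hn'.2.1 hn
  -- darts on the boundary
  have hL : (univ.filter (fun d => C.left d ∈ S)).card =
      (univ.filter (fun d => C.left d ∈ S ∧ C.right d ∈ S)).card +
      ((univ.filter (fun d => isX (C.tail d) ∧ C.left d ∈ S ∧ C.right d ∉ S)).card +
      (univ.filter (fun d => ¬ isX (C.tail d) ∧ C.left d ∈ S ∧ C.right d ∉ S)).card) := by
    rw [← card_filter_add_card_filter_not (s := univ.filter (fun d => C.left d ∈ S))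
      (fun d => C.right d ∈ S), filter_filter, filter_filter]
    congr 1
    rw [← card_filter_add_card_filter_not (s := univ.filter (fun d => C.left d ∈ S ∧ C.right d ∉ S))
      (fun d => isX (C.tail d)), filter_filter, filter_filter]
    congr 2
    · ext d
      simp only [mem_filter, mem_univ, true_and]
      tauto
    · ext d
      simp only [mem_filter, mem_univ, true_and]
      tauto
  have hY := Exc.arcs_le' h S
  -- crossings
  have hX : ∑ n with isX n, C.cornersIn S n +
      (univ.filter (fun n => isX n ∧ C.cornersIn S n = 1)).card ≤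
      4 * (univ.filter (fun n => isX n ∧ C.cornersIn S n = 4)).card +
      (univ.filter (fun n => isX n ∧ C.cornersIn S n = 3)).card +
      2 * (univ.filter (fun n => isX n ∧ C.cornersIn S n ≠ 0 ∧ C.cornersIn S n ≠ 4)).card := by
    have e1 : ∀ p : N → Prop, ∀ _ : DecidablePred p,
        (univ.filter (fun n => isX n ∧ p n)).card = ∑ n with isX n, if p n then 1 else 0 := by
      intro p _
      rw [← filter_filter, card_filter]
    rw [e1 _ inferInstance, e1 _ inferInstance, e1 _ inferInstance, e1 _ inferInstance,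
      ← sum_add_distrib, mul_sum, mul_sum, ← sum_add_distrib, ← sum_add_distrib]
    apply sum_le_sum
    intro n hn
    have hle := cornersIn_le h S (mem_filter.1 hn).2
    have hcase : C.cornersIn S n = 0 ∨ C.cornersIn S n = 1 ∨ C.cornersIn S n = 2 ∨
      C.cornersIn S n = 3 ∨ C.cornersIn S n = 4 := by omega
    rcases hcase with hc | hc | hc | hc | hc <;> simp [hc]
  split_ifs <;> omega

end B

end Pool.Agent.Lib.MP_9ad789_co
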