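import Pool.Agent.Lib.MP_9ad789_co.ExpandB

/-!
# MP_9ad789_co, module EXPAND: the expanded flat map
-/

namespace Pool.Agent.Lib.MP_9ad789_co

open Equiv Finset

namespace Expand

variable {V R : Type} (X : XMap V R) (s : R → ℤ)

theorem natAbs_mul_sign (a : ℤ) : (a.natAbs : ℤ) * a.sign = a := by
  rw [mul_comm]; exact Int.sign_mul_natAbs a

/-- sums over the sides after a given end -/
theorem sum_false (a : ℤ) :
    ∑ i : Fin (a.natAbs + 1), (if (i : ℕ) < a.natAbs then a.sign else 0) = a := by
  rw [Fin.sum_univ_castSucc]
  simp only [Fin.val_castSucc, Fin.is_lt, if_true, Fin.val_last, lt_irrefl, if_false, add_zero,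
    sum_const, card_univ, Fintype.card_fin, nsmul_eq_mul]
  exact natAbs_mul_sign a

theorem sum_true (a : ℤ) :
    ∑ i : Fin (a.natAbs + 1), (if (i : ℕ) = 0 then (1 : ℤ) else - a.sign) = 1 - a := by
  rw [Fin.sum_univ_succ]
  simp only [Fin.val_zero, if_true, Fin.val_succ, Nat.succ_ne_zero, if_false, sum_const, card_univ,
    Fintype.card_fin, nsmul_eq_mul]
  have := natAbs_mul_sign a
  linarith

theorem turn_mem (z : X.ED s) : X.eturn s z = -1 ∨ X.eturn s z = 0 ∨ X.eturn s z = 1 := by
  have hsign : ∀ a : ℤ, a.sign = -1 ∨ a.sign = 0 ∨ a.sign = 1 := by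
    intro a
    rcases lt_trichotomy a 0 with h | h | h
    · exact Or.inl (Int.sign_eq_neg_one_of_neg h)
    · exact Or.inr (Or.inl (by rw [h]; rfl))
    · exact Or.inr (Or.inr (Int.sign_eq_one_of_pos h))
  rcases z with x | ⟨⟨d, i⟩, b⟩
  · exact Or.inr (Or.inr rfl)
  · have h := hsign (s d)
    rcases b with _ | _
    · simp only [XMap.eturn]
      split_ifs
      · exact h
      · exact Or.inr (Or.inl rfl)
    · simp only [XMap.eturn]
      split_ifs
      · exact Or.inr (Or.inr rfl)
      · rcases h with h | h | h <;> rw [h] <;> simp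

variable [Fintype R] [DecidableEq R]

section Face

variable [DecidableEq (X.EF s)] [Fintype V] [DecidableEq V]

theorem face_sum_left (v : V) :
    ∑ z with X.eleft s z = .inl v, X.eturn s z = ∑ d with X.vert d = v, s d := by
  rw [sum_filter, Fintype.sum_sum_type, Fintype.sum_prod_type, Fintype.sum_sigma]
  simp only [Fintype.sum_bool]
  have h1 : ∑ x : X.PD, (if X.eleft s (.inl x) = .inl v then X.eturn s (.inl x) else 0) = 0 := by
    apply sum_eq_zero
    intro x _
    rw [if_neg]
    intro h
    cases h
  rw [h1, zero_add, sum_filter]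
  apply sum_congr rfl
  intro d _
  have h2 : ∀ i : Fin ((s d).natAbs + 1),
      ((if X.eleft s (.inr (⟨d, i⟩, true)) = .inl v then X.eturn s (.inr (⟨d, i⟩, true)) else 0) +
      (if X.eleft s (.inr (⟨d, i⟩, false)) = .inl v then X.eturn s (.inr (⟨d, i⟩, false)) else 0))
      = if X.vert d = v then (if (i : ℕ) < (s d).natAbs then (s d).sign else 0) else 0 := by
    intro i
    rw [if_neg (by intro h; cases h), zero_add]
    by_cases hv : X.vert d = v
    · rw [if_pos hv, if_pos (by rw [← hv]; rfl)]
      rfl
    · rw [if_neg hv, if_neg]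
      intro h
      exact hv (Sum.inl.inj h)
  rw [sum_congr rfl (fun i _ => h2 i)]
  by_cases hv : X.vert d = v
  · simp only [if_pos hv]
    exact sum_false (s d)
  · simp only [if_neg hv, sum_const_zero]

theorem face_sum_right (x0 : X.PD) :
    ∑ z with X.eleft s z = .inr (X.face x0), X.eturn s z = X.faceSum (X.wt s) x0 := by
  classical
  rw [sum_filter, Fintype.sum_sum_type, Fintype.sum_prod_type, Fintype.sum_sigma]
  simp only [Fintype.sum_bool]
  unfold XMap.faceSum
  rw [sum_filter, Fintype.sum_sum_type, Fintype.sum_sum_type]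
  have hface : ∀ x : X.PD, X.eleft s (.inl x) = .inr (X.face x0) ↔ X.SameFace x0 x := by
    intro x
    constructor
    · intro h
      have h1 : X.face x = X.face x0 := Sum.inr.inj h
      exact (Quotient.exact h1.symm : X.SameFace x0 x)
    · intro h
      show Sum.inr (X.face x) = Sum.inr (X.face x0)
      exact congrArg _ (Quotient.sound h).symm
  have e1 : ∀ d : R, (if X.eleft s (.inl (.inl d)) = .inr (X.face x0) then
      X.eturn s (.inl (.inl d)) else 0) = if X.SameFace x0 (.inl d) then 1 else 0 := by
    intro d
    by_cases h : X.SameFace x0 (.inl d)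
    · rw [if_pos h, if_pos ((hface _).mpr h)]; rfl
    · rw [if_neg h, if_neg (fun h' => h ((hface _).mp h'))]
  have e2 : ∀ d : {d : R // X.Crossed d}, (if X.eleft s (.inl (.inr d)) = .inr (X.face x0) then
      X.eturn s (.inl (.inr d)) else 0) = if X.SameFace x0 (.inr d) then X.wt s (.inr d) else 0 := by
    intro d
    by_cases h : X.SameFace x0 (.inr d)
    · rw [if_pos h, if_pos ((hface _).mpr h)]; rfl
    · rw [if_neg h, if_neg (fun h' => h ((hface _).mp h'))]
  have e3 : ∀ d : R, ∑ i : Fin ((s d).natAbs + 1),
      ((if X.eleft s (.inr (⟨d, i⟩, true)) = .inr (X.face x0) then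
          X.eturn s (.inr (⟨d, i⟩, true)) else 0) +
      (if X.eleft s (.inr (⟨d, i⟩, false)) = .inr (X.face x0) then
          X.eturn s (.inr (⟨d, i⟩, false)) else 0))
      = if X.SameFace x0 (.inl d) then 1 - s d else 0 := by
    intro d
    have h2 : ∀ i : Fin ((s d).natAbs + 1),
      ((if X.eleft s (.inr (⟨d, i⟩, true)) = .inr (X.face x0) then
          X.eturn s (.inr (⟨d, i⟩, true)) else 0) +
      (if X.eleft s (.inr (⟨d, i⟩, false)) = .inr (X.face x0) then
          X.eturn s (.inr (⟨d, i⟩, false)) else 0))
      = if X.SameFace x0 (.inl d) then (if (i : ℕ) = 0 then (1 : ℤ) else - (s d).sign) else 0 := by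
      intro i
      have e : (if X.eleft s (.inr (⟨d, i⟩, false)) = .inr (X.face x0) then
          X.eturn s (.inr (⟨d, i⟩, false)) else 0) = 0 := by
        rw [if_neg]
        intro h
        cases h
      rw [e, add_zero]
      have hf' : X.eleft s (.inr (⟨d, i⟩, true)) = .inr (X.face x0) ↔ X.SameFace x0 (.inl d) :=
        hface (.inl d)
      by_cases h : X.SameFace x0 (.inl d)
      · rw [if_pos h, if_pos (hf'.mpr h)]; rfl
      · rw [if_neg h, if_neg (fun h' => h (hf'.mp h'))]
    rw [sum_congr rfl (fun i _ => h2 i)]
    by_cases h : X.SameFace x0 (.inl d)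
    · simp only [if_pos h]
      exact sum_true (s d)
    · simp only [if_neg h, sum_const_zero]
  rw [sum_congr rfl (fun d _ => e1 d), sum_congr rfl (fun d _ => e2 d),
    sum_congr rfl (fun d _ => e3 d)]
  have e4 : ∑ d : R, (if X.SameFace x0 (.inl d) then X.wt s (.inl d) else 0)
      = ∑ d : R, (if X.SameFace x0 (.inl d) then 1 else 0) +
        ∑ d : R, (if X.SameFace x0 (.inl d) then 1 - s d else 0) := by
    rw [← sum_add_distrib]
    apply sum_congr rfl
    intro d _
    by_cases h : X.SameFace x0 (.inl d)
    · simp only [if_pos h, XMap.wt]; ring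
    · simp only [if_neg h, add_zero]
  rw [e4]
  ring

end Face

section Node

variable [DecidableEq (X.EN s)]

/-- angles -/
def ea : X.ED s → ℤ
  | .inl _ => 1
  | .inr (y, false) => if (y.2 : ℕ) = 0 then 2 else 2 - (s y.1).sign
  | .inr (y, true) => if (y.2 : ℕ) < (s y.1).natAbs then 2 + (s y.1).sign else 1

theorem ang_eq (z : X.ED s) : 2 - X.eturn s ((P X s).symm z) = ea X s z := by
  obtain ⟨w, rfl⟩ := (P X s).surjective z
  rw [Equiv.symm_apply_apply, P_apply]
  rcases w with x | ⟨⟨d, i⟩, b⟩
  · rw [eφ_inl]
    show 2 - 1 = _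
    rcases X.next x with e | e
    · show _ = ea X s (.inr (⟨e, Fin.last _⟩, true))
      simp [ea]
    · rfl
  · rcases b with _ | _
    · rw [eφ_false]
      by_cases h : (i : ℕ) < (s d).natAbs
      · rw [sideNext_lt X s (y := ⟨d, i⟩) h]
        simp only [XMap.eturn, ea, if_pos h, Nat.add_one_ne_zero, if_false]
      · rw [sideNext_ge X s (y := ⟨d, i⟩) h]
        simp only [XMap.eturn, ea, if_neg h]
        simp
    · by_cases hi : (i : ℕ) = 0
      · rw [eφ_true_zero X s d i hi]
        simp only [XMap.eturn, ea, if_pos hi]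
        norm_num
      · rw [eφ_true_pos X s d i hi]
        have h1 := i.2
        simp only [XMap.eturn, ea, if_neg hi]
        rw [if_pos (by omega)]
        ring

theorem node_sum_left (y : X.Side s) : ∑ z with X.etail s z = .inl y, ea X s z = 4 := by
  rw [sum_filter, Fintype.sum_sum_type, Fintype.sum_sum_type, Fintype.sum_prod_type]
  simp only [Fintype.sum_bool]
  obtain ⟨y', hy'⟩ := exists_sidePrev X s y
  have h1 : ∑ d : {d : R // X.Crossed d}, (if X.etail s (.inl (.inr d)) = .inl y then
      ea X s (.inl (.inr d)) else 0) = 0 := by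
    apply sum_eq_zero
    intro d _
    rw [if_neg]
    intro h
    cases h
  have h2 : ∑ d : R, (if X.etail s (.inl (.inl d)) = .inl y then ea X s (.inl (.inl d)) else 0)
      = if (y.2 : ℕ) = 0 then 1 else 0 := by
    rw [sum_eq_single y.1]
    · by_cases h : (y.2 : ℕ) = 0
      · rw [if_pos h, if_pos]
        · rfl
        · show Sum.inl _ = Sum.inl _
          congr 1
          exact side_ext X s rfl h.symm
      · rw [if_neg h, if_neg]
        intro h'
        apply h
        have := Sum.inl.inj h'
        rw [← this]
        rfl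
    · intro d _ hd
      rw [if_neg]
      intro h'
      apply hd
      have := Sum.inl.inj h'
      rw [← this]
    · intro h; exact absurd (mem_univ _) h
  rw [h1, h2, sum_add_distrib]
  have h3 : ∑ w : X.Side s, (if X.etail s (.inr (w, true)) = .inl y then ea X s (.inr (w, true))
      else 0) = ea X s (.inr (y', true)) := by
    rw [sum_eq_single y']
    · rw [if_pos]
      show Sum.inl _ = Sum.inl _
      rw [hy']
    · intro w _ hw
      rw [if_neg]
      intro h'
      apply hw
      apply sideNext_inj X s
      rw [hy']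
      exact Sum.inl.inj h'
    · intro h; exact absurd (mem_univ _) h
  have h4 : ∑ w : X.Side s, (if X.etail s (.inr (w, false)) = .inl y then ea X s (.inr (w, false))
      else 0) = ea X s (.inr (y, false)) := by
    rw [sum_eq_single y]
    · rw [if_pos]
      rfl
    · intro w _ hw
      rw [if_neg]
      intro h'
      exact hw (Sum.inl.inj h')
    · intro h; exact absurd (mem_univ _) h
  rw [h3, h4]
  by_cases h : (y'.2 : ℕ) < (s y'.1).natAbs
  · rw [sideNext_lt X s h] at hy'
    subst hy'
    simp only [ea, if_pos h, Nat.add_one_ne_zero, if_false]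
    ring
  · rw [sideNext_ge X s h] at hy'
    subst hy'
    simp only [ea, if_neg h]
    simp

theorem crsGet_ne (d : {d : R // X.Crossed d}) : cg X d ≠ d ∧ cg X d ≠ og X d ∧ og X d ≠ d := by
  have h1 := X.crs_crsGet d
  refine ⟨?_, ?_, ?_⟩
  · intro h
    have h2 : X.crsGet d = d.1 := congrArg Subtype.val h
    exact X.crs_vert _ _ h1 (by rw [h2])
  · intro h
    have h2 : X.crsGet d = X.opp d.1 := congrArg Subtype.val h
    have h3 := X.crs_crs _ _ h1
    exact X.crs_vert _ _ h3 (by rw [h2])
  · intro h
    exact X.opp_ne d.1 (congrArg Subtype.val h)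

theorem xn_iff (d e : {d : R // X.Crossed d}) :
    X.xn e = X.xn d ↔ e = d ∨ e = cg X d ∨ e = og X d ∨ e = og X (cg X d) := by
  constructor
  · intro h
    have h1 : Relation.EqvGen (fun a b : {d : R // X.Crossed d} => (b : R) = X.crsGet a) e d :=
      Quotient.exact h
    clear h
    have key : ∀ a b : {d : R // X.Crossed d}, Relation.EqvGen
        (fun a b : {d : R // X.Crossed d} => (b : R) = X.crsGet a) a b →
        (a = b ∨ a = cg X b ∨ a = og X b ∨ a = og X (cg X b)) := by
      intro a b hab
      induction hab with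
      | rel a b hab =>
        have : b = cg X a := Subtype.ext hab
        subst this
        right; right; right
        rw [cg_cg, og_og]
      | refl a => exact Or.inl rfl
      | symm a b _ ih =>
        rcases ih with h | h | h | h
        · exact Or.inl h.symm
        · right; right; right
          rw [h, cg_cg, og_og]
        · right; right; left
          rw [h, og_og]
        · right; left
          rw [h, cg_og_cg]
      | trans a b c _ _ ih1 ih2 =>
        rcases ih2 with h | h | h | h <;> subst h
        · exact ih1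
        · rw [cg_cg] at ih1
          rcases ih1 with h | h | h | h
          · exact Or.inr (Or.inl h)
          · exact Or.inr (Or.inr (Or.inl h))
          · exact Or.inr (Or.inr (Or.inr h))
          · rw [og_og] at h; exact Or.inl h
        · rw [og_og, cg_og, og_og] at ih1
          rcases ih1 with h | h | h | h
          · exact Or.inr (Or.inr (Or.inl h))
          · exact Or.inr (Or.inr (Or.inr h))
          · exact Or.inl h
          · exact Or.inr (Or.inl h)
        · rw [og_og, cg_og_cg] at ih1
          rcases ih1 with h | h | h | h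
          · exact Or.inr (Or.inr (Or.inr h))
          · exact Or.inl h
          · exact Or.inr (Or.inl h)
          · exact Or.inr (Or.inr (Or.inl h))
    exact key e d h1
  · rintro (rfl | rfl | rfl | rfl)
    · rfl
    · exact xn_cg X d
    · exact xn_og X d
    · rw [xn_og, xn_cg]

theorem node_sum_right (q : X.XN) : ∑ z with X.etail s z = .inr q, ea X s z = 4 := by
  obtain ⟨d, rfl⟩ : ∃ d, X.xn d = q := Quotient.exists_rep q
  rw [sum_filter, Fintype.sum_sum_type, Fintype.sum_sum_type]
  have h1 : ∑ e : R, (if X.etail s (.inl (.inl e)) = .inr (X.xn d) then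
      ea X s (.inl (.inl e)) else 0) = 0 := by
    apply sum_eq_zero
    intro e _
    rw [if_neg]
    intro h
    cases h
  have h2 : ∑ w : X.Side s × Bool, (if X.etail s (.inr w) = .inr (X.xn d) then
      ea X s (.inr w) else 0) = 0 := by
    apply sum_eq_zero
    rintro ⟨y, b⟩ _
    rw [if_neg]
    intro h
    rcases b with _ | _
    · cases h
    · cases h
  rw [h1, h2, zero_add, add_zero]
  have h3 : ∑ e : {d : R // X.Crossed d}, (if X.etail s (.inl (.inr e)) = .inr (X.xn d) then
      ea X s (.inl (.inr e)) else 0)
      = ∑ e : {d : R // X.Crossed d}, if e ∈ ({d, cg X d, og X d, og X (cg X d)} :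
        Finset {d : R // X.Crossed d}) then (1 : ℤ) else 0 := by
    apply sum_congr rfl
    intro e _
    by_cases h : X.xn e = X.xn d
    · have hx : X.etail s (.inl (.inr e)) = .inr (X.xn d) := congrArg Sum.inr h
      rw [if_pos hx, if_pos]
      · rfl
      · simpa using (xn_iff X d e).mp h
    · have hx : ¬ X.etail s (.inl (.inr e)) = .inr (X.xn d) := fun h' => h (Sum.inr.inj h')
      rw [if_neg hx, if_neg]
      intro h'
      exact h ((xn_iff X d e).mpr (by simpa using h'))
  rw [h3, ← sum_filter, filter_mem_eq_inter, univ_inter, sum_const, nsmul_eq_mul, mul_one]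
  obtain ⟨n1, n2, n3⟩ := crsGet_ne X d
  obtain ⟨m1, m2, m3⟩ := crsGet_ne X (cg X d)
  have n4 : og X (cg X d) ≠ d := by
    intro h
    apply n2
    rw [← og_og X (cg X d), h]
  have n5 : og X (cg X d) ≠ og X d := by
    intro h
    apply n1
    rw [← og_og X (cg X d), h, og_og]
  have : ({d, cg X d, og X d, og X (cg X d)} : Finset {d : R // X.Crossed d}).card = 4 := by
    rw [card_insert_of_notMem, card_insert_of_notMem, card_insert_of_notMem, card_singleton]
    · rw [mem_singleton]; exact n5.symm
    · rw [mem_insert, mem_singleton, not_or]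
      exact ⟨n2, m3.symm⟩
    · rw [mem_insert, mem_insert, mem_singleton, not_or, not_or]
      exact ⟨n1.symm, n3.symm, n4.symm⟩
  rw [this]
  rfl

end Node

end Expand

theorem exists_expansion {V R : Type} [Fintype V] [Fintype R] [DecidableEq V] [DecidableEq R]
    (X : XMap V R) (hX : X.Conn) (s : R → ℤ) (inf : V)
    (hv : ∀ v, ∑ d with X.vert d = v, s d = if v = inf then -4 else 4)
    (hf : ∀ x, X.faceSum (X.wt s) x = 4)
    [DecidableEq (X.EN s)] [DecidableEq (X.EF s)] :
    ∃ M : Flat (X.ED s) (X.EN s) (X.EF s), X.IsExpansion s inf M := by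
  refine ⟨{ toCell := Expand.cell X s hX
            turn := X.eturn s
            outer := .inl inf
            tight := Expand.tight X s hX
            turn_mem := Expand.turn_mem X s
            face_sum := ?_
            node_sum := ?_ }, ⟨fun _ => rfl, fun _ => rfl, fun _ => rfl, fun _ => rfl,
              fun _ => rfl, rfl⟩⟩
  · rintro (v | q)
    · have h1 := Expand.face_sum_left X s v
      rw [hv v] at h1
      refine h1.trans ?_
      by_cases h : v = inf
      · subst h; simp
      · rw [if_neg h, if_neg (fun h' => h (Sum.inl.inj h'))]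
    · obtain ⟨x, rfl⟩ : ∃ x, X.face x = q := Quotient.exists_rep q
      have h1 := Expand.face_sum_right X s x
      rw [hf x] at h1
      refine h1.trans ?_
      rw [if_neg]
      intro h
      cases h
  · rintro (y | q)
    · refine Eq.trans (sum_congr rfl fun z _ => Expand.ang_eq X s z) ?_
      exact Expand.node_sum_left X s y
    · refine Eq.trans (sum_congr rfl fun z _ => Expand.ang_eq X s z) ?_
      exact Expand.node_sum_right X s q

end Pool.Agent.Lib.MP_9ad789_co
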