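import Pool.Agent.Lib.MP_9ad789_co.Cell

/-!
# MP_9ad789_co, module EXPAND: the expansion of the vertices to polygons
-/

namespace Pool.Agent.Lib.MP_9ad789_co

open Equiv Finset

namespace Expand

variable {V R : Type} (X : XMap V R) (s : R → ℤ)

theorem side_ext {y y' : X.Side s} (h1 : y.1 = y'.1) (h2 : (y.2 : ℕ) = y'.2) : y = y' := by
  rcases y with ⟨d, i⟩
  rcases y' with ⟨d', i'⟩
  simp only at h1
  subst h1
  congr 1
  exact Fin.ext h2

theorem crsGet_eq {d : {d : R // X.Crossed d}} {e : R} (h : X.crs d.1 = some e) :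
    X.crsGet d = e := by
  have := X.crs_crsGet d
  rw [h] at this
  exact (Option.some.inj this).symm

theorem crossed_crsGet (d : {d : R // X.Crossed d}) : X.Crossed (X.crsGet d) :=
  Option.isSome_iff_exists.mpr ⟨_, X.crs_crs _ _ (X.crs_crsGet d)⟩

/-- the next edge-end at a crossing -/
def cg (d : {d : R // X.Crossed d}) : {d : R // X.Crossed d} := ⟨X.crsGet d, crossed_crsGet X d⟩

/-- the opposite edge-end -/
def og (d : {d : R // X.Crossed d}) : {d : R // X.Crossed d} := ⟨X.opp d.1, X.crossed_opp d.2⟩

theorem cg_cg (d : {d : R // X.Crossed d}) : cg X (cg X d) = og X d :=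
  Subtype.ext (crsGet_eq X (X.crs_crs _ _ (X.crs_crsGet d)))

theorem og_og (d : {d : R // X.Crossed d}) : og X (og X d) = d :=
  Subtype.ext (X.opp_opp d.1)

theorem cg_og (d : {d : R // X.Crossed d}) : cg X (og X d) = og X (cg X d) :=
  Subtype.ext (crsGet_eq X (X.crs_opp (X.crs_crsGet d)))

theorem cg_og_cg (d : {d : R // X.Crossed d}) : cg X (og X (cg X d)) = d := by
  rw [cg_og, cg_cg, og_og]

theorem xn_cg (d : {d : R // X.Crossed d}) : X.xn (cg X d) = X.xn d := by
  symm
  exact Quotient.sound (Relation.EqvGen.rel _ _ rfl)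

theorem xn_og (d : {d : R // X.Crossed d}) : X.xn (og X d) = X.xn d := by
  rw [← cg_cg, xn_cg, xn_cg]

theorem next_inl_crossed {d : R} (h : X.Crossed d) :
    X.next (.inl d) = .inr (og X (cg X ⟨d, h⟩)) := by
  simp only [XMap.next, dif_pos h]
  rfl

theorem next_inl_not {d : R} (h : ¬ X.Crossed d) :
    X.next (.inl d) = .inl (X.rot.symm (X.opp d)) := by
  simp only [XMap.next, dif_neg h]

theorem next_inr (d : {d : R // X.Crossed d}) : X.next (.inr d) = .inl (X.rot.symm d.1) := rfl

theorem rev_inl_crossed {d : R} (h : X.Crossed d) : X.rev (.inl d) = .inr ⟨d, h⟩ := by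
  simp only [XMap.rev, dif_pos h]

theorem rev_inl_not {d : R} (h : ¬ X.Crossed d) : X.rev (.inl d) = .inl (X.opp d) := by
  simp only [XMap.rev, dif_neg h]

theorem rev_inr (d : {d : R // X.Crossed d}) : X.rev (.inr d) = .inl d.1 := rfl

theorem not_crossed_opp {d : R} (h : ¬ X.Crossed d) : ¬ X.Crossed (X.opp d) := by
  intro h'
  apply h
  have := X.crossed_opp h'
  rwa [X.opp_opp] at this

theorem rev_rev (x : X.PD) : X.rev (X.rev x) = x := by
  rcases x with d | d
  · by_cases h : X.Crossed d
    · rw [rev_inl_crossed X h, rev_inr]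
    · rw [rev_inl_not X h, rev_inl_not X (not_crossed_opp X h), X.opp_opp]
  · rw [rev_inr, rev_inl_crossed X d.2]

theorem rev_ne (x : X.PD) : X.rev x ≠ x := by
  rcases x with d | d
  · by_cases h : X.Crossed d
    · rw [rev_inl_crossed X h]
      simp
    · rw [rev_inl_not X h]
      intro h'
      exact X.opp_ne d (Sum.inl.inj h')
  · rw [rev_inr]
    simp

theorem next_inj : Function.Injective X.next := by
  intro x x' hx
  rcases x with d | d <;> rcases x' with d' | d'
  · by_cases h : X.Crossed d <;> by_cases h' : X.Crossed d'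
    · rw [next_inl_crossed X h, next_inl_crossed X h'] at hx
      have h1 := Sum.inr.inj hx
      have h2 : cg X ⟨d, h⟩ = cg X ⟨d', h'⟩ := by
        rw [← og_og X (cg X ⟨d, h⟩), h1, og_og]
      have h3 := congrArg (fun z => (og X (cg X z)).1) h2
      have h4 := cg_og_cg X ⟨d, h⟩
      have h5 := cg_og_cg X ⟨d', h'⟩
      rw [h1] at h4
      rw [h4] at h5
      exact congrArg Sum.inl (congrArg Subtype.val h5)
    · rw [next_inl_crossed X h, next_inl_not X h'] at hx
      simp at hx
    · rw [next_inl_not X h, next_inl_crossed X h'] at hx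
      simp at hx
    · rw [next_inl_not X h, next_inl_not X h'] at hx
      have h1 := X.rot.symm.injective (Sum.inl.inj hx)
      rw [← X.opp_opp d, h1, X.opp_opp]
  · by_cases h : X.Crossed d
    · rw [next_inl_crossed X h, next_inr] at hx
      simp at hx
    · rw [next_inl_not X h, next_inr] at hx
      have h1 := X.rot.symm.injective (Sum.inl.inj hx)
      exact absurd (h1 ▸ d'.2) (not_crossed_opp X h)
  · by_cases h : X.Crossed d'
    · rw [next_inl_crossed X h, next_inr] at hx
      simp at hx
    · rw [next_inl_not X h, next_inr] at hx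
      have h1 := X.rot.symm.injective (Sum.inl.inj hx)
      exact absurd (h1 ▸ d.2) (not_crossed_opp X h)
  · rw [next_inr, next_inr] at hx
    have h1 := X.rot.symm.injective (Sum.inl.inj hx)
    exact congrArg Sum.inr (Subtype.ext h1)

/-- first dart of the expanded map after an arrival -/
def g : X.PD → X.ED s
  | .inl d => .inr (⟨d, Fin.last _⟩, true)
  | .inr d => .inl (.inr d)

theorem eφ_inl (x : X.PD) : X.eφ s (.inl x) = g X s (X.next x) := by
  unfold XMap.eφ
  rcases h : X.next x with d | d
  · simp only [h]; rfl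
  · simp only [h]; rfl

theorem eφ_false (y : X.Side s) : X.eφ s (.inr (y, false)) = .inr (X.sideNext s y, false) := rfl

theorem eφ_true_zero (d : R) (i : Fin ((s d).natAbs + 1)) (h : (i : ℕ) = 0) :
    X.eφ s (.inr (⟨d, i⟩, true)) = .inl (.inl d) := by
  simp only [XMap.eφ, dif_pos h]

theorem eφ_true_pos (d : R) (i : Fin ((s d).natAbs + 1)) (h : (i : ℕ) ≠ 0) :
    X.eφ s (.inr (⟨d, i⟩, true)) = .inr (⟨d, ⟨i - 1, by omega⟩⟩, true) := by
  simp only [XMap.eφ, dif_neg h]

theorem sideNext_lt {y : X.Side s} (h : (y.2 : ℕ) < (s y.1).natAbs) :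
    X.sideNext s y = ⟨y.1, ⟨y.2 + 1, by omega⟩⟩ := by
  simp only [XMap.sideNext, dif_pos h]

theorem sideNext_ge {y : X.Side s} (h : ¬ (y.2 : ℕ) < (s y.1).natAbs) :
    X.sideNext s y = ⟨X.rot y.1, 0⟩ := by
  simp only [XMap.sideNext, dif_neg h]

theorem sideNext_fst_vert (y : X.Side s) : X.vert (X.sideNext s y).1 = X.vert y.1 := by
  by_cases h : (y.2 : ℕ) < (s y.1).natAbs
  · rw [sideNext_lt X s h]
  · rw [sideNext_ge X s h]
    exact X.vert_rot _

theorem sideNext_inj : Function.Injective (X.sideNext s) := by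
  intro y y' hy
  by_cases h : (y.2 : ℕ) < (s y.1).natAbs <;> by_cases h' : (y'.2 : ℕ) < (s y'.1).natAbs
  · rw [sideNext_lt X s h, sideNext_lt X s h'] at hy
    have h1 : y.1 = y'.1 := by
      have := congrArg Sigma.fst hy
      exact this
    have h2 : (y.2 : ℕ) + 1 = y'.2 + 1 := congrArg (fun z : X.Side s => (z.2 : ℕ)) hy
    exact side_ext X s h1 (by omega)
  · rw [sideNext_lt X s h, sideNext_ge X s h'] at hy
    have h2 : (y.2 : ℕ) + 1 = 0 := congrArg (fun z : X.Side s => (z.2 : ℕ)) hy
    omega
  · rw [sideNext_ge X s h, sideNext_lt X s h'] at hy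
    have h2 : 0 = (y'.2 : ℕ) + 1 := congrArg (fun z : X.Side s => (z.2 : ℕ)) hy
    omega
  · rw [sideNext_ge X s h, sideNext_ge X s h'] at hy
    have h1 : X.rot y.1 = X.rot y'.1 := congrArg Sigma.fst hy
    have h3 : y.1 = y'.1 := X.rot.injective h1
    refine side_ext X s h3 ?_
    have e1 := y.2.2
    have e2 := y'.2.2
    have e3 : s y.1 = s y'.1 := by rw [h3]
    omega

theorem eφ_inj : Function.Injective (X.eφ s) := by
  intro z z' hz
  rcases z with x | ⟨⟨d, i⟩, b⟩ <;> rcases z' with x' | ⟨⟨d', i'⟩, b'⟩
  · rw [eφ_inl, eφ_inl] at hz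
    have : X.next x = X.next x' := by
      rcases h : X.next x with e | e <;> rcases h' : X.next x' with e' | e' <;> rw [h, h'] at hz
      · have h1 := congrArg Prod.fst (Sum.inr.inj hz)
        have h2 : e = e' := congrArg Sigma.fst h1
        rw [h2]
      · simp [g] at hz
      · simp [g] at hz
      · have h1 := Sum.inl.inj hz
        exact h1
    rw [next_inj X this]
  · exfalso
    rw [eφ_inl] at hz
    rcases b' with _ | _
    · rw [eφ_false] at hz
      rcases h : X.next x with e | e <;> rw [h] at hz <;> simp [g] at hz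
    · by_cases hi : (i' : ℕ) = 0
      · rw [eφ_true_zero X s d' i' hi] at hz
        rcases h : X.next x with e | e <;> rw [h] at hz <;> simp [g] at hz
      · rw [eφ_true_pos X s d' i' hi] at hz
        rcases h : X.next x with e | e <;> rw [h] at hz
        · have h1 := congrArg Prod.fst (Sum.inr.inj hz)
          have h2 : e = d' := congrArg Sigma.fst h1
          have h3 : (s e).natAbs = (i' : ℕ) - 1 :=
            congrArg (fun z : X.Side s => (z.2 : ℕ)) h1
          have h4 := i'.2
          rw [h2] at h3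
          omega
        · simp [g] at hz
  · exfalso
    rw [eφ_inl] at hz
    rcases b with _ | _
    · rw [eφ_false] at hz
      rcases h : X.next x' with e | e <;> rw [h] at hz <;> simp [g] at hz
    · by_cases hi : (i : ℕ) = 0
      · rw [eφ_true_zero X s d i hi] at hz
        rcases h : X.next x' with e | e <;> rw [h] at hz <;> simp [g] at hz
      · rw [eφ_true_pos X s d i hi] at hz
        rcases h : X.next x' with e | e <;> rw [h] at hz
        · have h1 := congrArg Prod.fst (Sum.inr.inj hz)
          have h2 : d = e := congrArg Sigma.fst h1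
          have h3 : (i : ℕ) - 1 = (s e).natAbs :=
            congrArg (fun z : X.Side s => (z.2 : ℕ)) h1
          have h4 := i.2
          rw [← h2] at h3
          omega
        · simp [g] at hz
  · rcases b with _ | _ <;> rcases b' with _ | _
    · rw [eφ_false, eφ_false] at hz
      have h1 := congrArg Prod.fst (Sum.inr.inj hz)
      have h2 := sideNext_inj X s h1
      rw [h2]
    · exfalso
      rw [eφ_false] at hz
      by_cases hi : (i' : ℕ) = 0
      · rw [eφ_true_zero X s d' i' hi] at hz
        simp at hz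
      · rw [eφ_true_pos X s d' i' hi] at hz
        simp at hz
    · exfalso
      rw [eφ_false] at hz
      by_cases hi : (i : ℕ) = 0
      · rw [eφ_true_zero X s d i hi] at hz
        simp at hz
      · rw [eφ_true_pos X s d i hi] at hz
        simp at hz
    · by_cases hi : (i : ℕ) = 0 <;> by_cases hi' : (i' : ℕ) = 0
      · rw [eφ_true_zero X s d i hi, eφ_true_zero X s d' i' hi'] at hz
        have h1 : d = d' := Sum.inl.inj (Sum.inl.inj hz)
        have h2 : (⟨d, i⟩ : X.Side s) = ⟨d', i'⟩ := side_ext X s h1 (by simp only; omega)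
        rw [h2]
      · rw [eφ_true_zero X s d i hi, eφ_true_pos X s d' i' hi'] at hz
        simp at hz
      · rw [eφ_true_pos X s d i hi, eφ_true_zero X s d' i' hi'] at hz
        simp at hz
      · rw [eφ_true_pos X s d i hi, eφ_true_pos X s d' i' hi'] at hz
        have h1 := congrArg Prod.fst (Sum.inr.inj hz)
        have h2 : d = d' := congrArg Sigma.fst h1
        have h3 : (i : ℕ) - 1 = (i' : ℕ) - 1 := congrArg (fun z : X.Side s => (z.2 : ℕ)) h1
        have h4 : (⟨d, i⟩ : X.Side s) = ⟨d', i'⟩ := side_ext X s h2 (by simp only; omega)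
        rw [h4]

theorem eα_eα (z : X.ED s) : X.eα s (X.eα s z) = z := by
  rcases z with x | ⟨y, b⟩
  · exact congrArg Sum.inl (rev_rev X x)
  · simp [XMap.eα]

theorem eα_ne (z : X.ED s) : X.eα s z ≠ z := by
  rcases z with x | ⟨y, b⟩
  · intro h
    exact rev_ne X x (Sum.inl.inj h)
  · intro h
    have := congrArg Prod.snd (Sum.inr.inj h)
    simp at this

theorem face_next (x : X.PD) : X.face (X.next x) = X.face x := by
  symm
  exact Quotient.sound (Relation.EqvGen.rel _ _ rfl)

theorem etail_eφ (z : X.ED s) : X.etail s (X.eφ s z) = X.etail s (X.eα s z) := by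
  rcases z with x | ⟨⟨d, i⟩, b⟩
  · rw [eφ_inl]
    rcases x with e | e
    · by_cases h : X.Crossed e
      · rw [next_inl_crossed X h]
        show Sum.inr (X.xn _) = X.etail s (.inl (X.rev (.inl e)))
        rw [rev_inl_crossed X h]
        show Sum.inr (X.xn _) = Sum.inr (X.xn _)
        rw [xn_og, xn_cg]
      · rw [next_inl_not X h]
        show Sum.inl (X.sideNext s _) = X.etail s (.inl (X.rev (.inl e)))
        rw [rev_inl_not X h, sideNext_ge X s (by simp)]
        show Sum.inl _ = Sum.inl _
        rw [Equiv.apply_symm_apply]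
    · rw [next_inr]
      show Sum.inl (X.sideNext s _) = X.etail s (.inl (X.rev (.inr e)))
      rw [rev_inr, sideNext_ge X s (by simp)]
      show Sum.inl _ = Sum.inl _
      rw [Equiv.apply_symm_apply]
  · rcases b with _ | _
    · rfl
    · by_cases hi : (i : ℕ) = 0
      · rw [eφ_true_zero X s d i hi]
        show Sum.inl _ = Sum.inl _
        congr 1
        exact side_ext X s rfl hi.symm
      · rw [eφ_true_pos X s d i hi]
        show Sum.inl (X.sideNext s _) = Sum.inl _
        congr 1
        rw [sideNext_lt X s (by have := i.2; simp only; omega)]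
        exact side_ext X s rfl (by simp only; omega)

theorem eleft_eφ (z : X.ED s) : X.eleft s (X.eφ s z) = X.eleft s z := by
  rcases z with x | ⟨⟨d, i⟩, b⟩
  · rw [eφ_inl]
    show _ = Sum.inr (X.face x)
    rw [← face_next X x]
    rcases X.next x with e | e
    · rfl
    · rfl
  · rcases b with _ | _
    · show Sum.inl (X.vert _) = Sum.inl (X.vert _)
      rw [sideNext_fst_vert]
    · by_cases hi : (i : ℕ) = 0
      · rw [eφ_true_zero X s d i hi]
        rfl
      · rw [eφ_true_pos X s d i hi]
        rfl

end Expand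

end Pool.Agent.Lib.MP_9ad789_co
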