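import Pool.Agent.Lib.MP_9ad789_co.ExpandA

namespace Pool.Agent.Lib.MP_9ad789_co

open Equiv Finset

namespace Expand

variable {V R : Type} (X : XMap V R) (s : R → ℤ)

section Conn

variable [Finite R]

theorem eφ_bij : Function.Bijective (X.eφ s) := Finite.injective_iff_bijective.mp (eφ_inj X s)

/-- the face permutation -/
noncomputable def P : Perm (X.ED s) := Equiv.ofBijective _ (eφ_bij X s)

/-- the reversal -/
def A : Perm (X.ED s) := ⟨X.eα s, X.eα s, eα_eα X s, eα_eα X s⟩

theorem P_apply (z : X.ED s) : P X s z = X.eφ s z := rfl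

omit [Finite R] in
theorem A_apply (z : X.ED s) : A X s z = X.eα s z := rfl

theorem back {S : Set (X.ED s)} (hφ : ∀ z ∈ S, X.eφ s z ∈ S) {z : X.ED s}
    (h : X.eφ s z ∈ S) : z ∈ S := by
  have hk : ∀ (k : ℕ) (w : X.ED s), w ∈ S → ((P X s) ^ k) w ∈ S := by
    intro k
    induction k with
    | zero => intro w hw; exact hw
    | succ k ih =>
      intro w hw
      rw [pow_succ']
      exact hφ _ (ih w hw)
  have hfin : IsOfFinOrder (P X s) := isOfFinOrder_of_finite _
  obtain ⟨m, hm⟩ : ∃ m, orderOf (P X s) = m + 1 :=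
    ⟨orderOf (P X s) - 1, by have := hfin.orderOf_pos; omega⟩
  have h1 := hk m _ h
  have h2 : ((P X s) ^ m) (X.eφ s z) = z := by
    have h3 : ((P X s) ^ (m + 1)) z = z := by
      rw [← hm, pow_orderOf_eq_one]; rfl
    rw [pow_succ] at h3
    exact h3
  rwa [h2] at h1

theorem expand_conn (hX : X.Conn) (S : Set (X.ED s)) (hne : S.Nonempty)
    (hα : ∀ z ∈ S, X.eα s z ∈ S) (hφ : ∀ z ∈ S, X.eφ s z ∈ S) : S = Set.univ := by
  have s1 : ∀ (d : R), (.inl (.inl d) : X.ED s) ∈ S → ∀ (k : ℕ) (hk : k < (s d).natAbs + 1),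
      (.inr (⟨d, ⟨k, hk⟩⟩, true) : X.ED s) ∈ S := by
    intro d hd k
    induction k with
    | zero =>
      intro hk
      apply back X s hφ
      rw [eφ_true_zero X s d _ rfl]
      exact hd
    | succ k ih =>
      intro hk
      apply back X s hφ
      rw [eφ_true_pos X s d _ (by simp)]
      exact ih (by omega)
  have s2 : ∀ (d : R), (.inl (.inl d) : X.ED s) ∈ S → (.inl (.inl (X.rot d)) : X.ED s) ∈ S := by
    intro d hd
    have h1 := hα _ (s1 d hd (s d).natAbs (by omega))
    have h2 := hφ _ h1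
    change (.inr (X.sideNext s _, false) : X.ED s) ∈ S at h2
    rw [sideNext_ge X s (by simp)] at h2
    have h3 := hφ _ (hα _ h2)
    change X.eφ s (.inr (⟨X.rot d, 0⟩, true)) ∈ S at h3
    rwa [eφ_true_zero X s _ _ rfl] at h3
  have s3 : ∀ (d : {d : R // X.Crossed d}), (.inl (.inl d.1) : X.ED s) ∈ S →
      (.inl (.inl (og X (cg X d)).1) : X.ED s) ∈ S := by
    intro d hd
    have h1 := hφ _ hd
    rw [eφ_inl, next_inl_crossed X d.2] at h1
    exact hα _ h1
  have s4 : ∀ (d : R), (.inl (.inl d) : X.ED s) ∈ S → (.inl (.inl (X.opp d)) : X.ED s) ∈ S := by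
    intro d hd
    by_cases h : X.Crossed d
    · have h1 := s3 _ (s3 ⟨d, h⟩ hd)
      rw [cg_og_cg] at h1
      exact h1
    · have h1 := hα _ hd
      change (.inl (X.rev (.inl d)) : X.ED s) ∈ S at h1
      rwa [rev_inl_not X h] at h1
  have s5 : ∀ d : R, (.inl (.inl d) : X.ED s) ∈ S := by
    have h1 := hX.conn {d | (.inl (.inl d) : X.ED s) ∈ S} ?_ (fun d hd => s2 d hd)
      (fun d hd => s4 d hd)
    · intro d
      have : d ∈ {d | (.inl (.inl d) : X.ED s) ∈ S} := by rw [h1]; trivial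
      exact this
    · obtain ⟨z, hz⟩ := hne
      have down : ∀ (d : R) (k : ℕ) (hk : k < (s d).natAbs + 1),
          (.inr (⟨d, ⟨k, hk⟩⟩, true) : X.ED s) ∈ S → (.inl (.inl d) : X.ED s) ∈ S := by
        intro d k
        induction k with
        | zero =>
          intro hk h
          have := hφ _ h
          rwa [eφ_true_zero X s d _ rfl] at this
        | succ k ih =>
          intro hk h
          have := hφ _ h
          rw [eφ_true_pos X s d _ (by simp)] at this
          exact ih (by omega) this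
      rcases z with (d | d) | ⟨⟨d, i⟩, b⟩
      · exact ⟨d, hz⟩
      · exact ⟨d.1, hα _ hz⟩
      · rcases b with _ | _
        · exact ⟨d, down d i i.2 (hα _ hz)⟩
        · exact ⟨d, down d i i.2 hz⟩
  rw [Set.eq_univ_iff_forall]
  intro z
  rcases z with (d | d) | ⟨⟨d, i⟩, b⟩
  · exact s5 d
  · have h1 := hα _ (s5 d.1)
    change (.inl (X.rev (.inl d.1)) : X.ED s) ∈ S at h1
    rwa [rev_inl_crossed X d.2] at h1
  · rcases b with _ | _
    · exact hα _ (s1 d (s5 d) i i.2)
    · exact s1 d (s5 d) i i.2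

/-- the expanded cell decomposition -/
noncomputable def cell (hX : X.Conn) : Cell (X.ED s) (X.EN s) (X.EF s) where
  α := A X s
  φ := P X s
  tail := X.etail s
  left := X.eleft s
  α_α := eα_eα X s
  α_ne := eα_ne X s
  tail_φ := etail_eφ X s
  left_φ := eleft_eφ X s
  tail_surj := by
    rintro (y | q)
    · exact ⟨.inr (y, false), rfl⟩
    · obtain ⟨d, hd⟩ := Quotient.exists_rep q
      exact ⟨.inl (.inr d), by rw [← hd]; rfl⟩
  left_surj := by
    rintro (v | q)
    · obtain ⟨d, hd⟩ := hX.vert_surj v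
      exact ⟨.inr (⟨d, 0⟩, false), by rw [← hd]; rfl⟩
    · obtain ⟨x, hx⟩ := Quotient.exists_rep q
      exact ⟨.inl x, by rw [← hx]; rfl⟩
  conn := fun S h1 h2 h3 => expand_conn X s hX S h1 h2 h3

theorem rel_of_sameCycle {β : Type} (f : Perm β) (r : β → β → Prop) (hr : Equivalence r)
    (h : ∀ x, r x (f x)) {x y : β} (hxy : f.SameCycle x y) : r x y := by
  obtain ⟨i, rfl⟩ := hxy
  induction i with
  | zero => exact hr.refl x
  | succ n ih =>
    have : (f ^ ((n : ℤ) + 1)) x = f ((f ^ (n : ℤ)) x) := by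
      rw [add_comm, zpow_add, zpow_one]; rfl
    rw [this]
    exact hr.trans ih (h _)
  | pred n ih =>
    have : (f ^ (-(n : ℤ))) x = f ((f ^ (-(n : ℤ) - 1)) x) := by
      have e : (-(n : ℤ)) = 1 + (-(n : ℤ) - 1) := by ring
      conv_lhs => rw [e, zpow_add, zpow_one]
      rfl
    have h1 := h ((f ^ (-(n : ℤ) - 1)) x)
    rw [← this] at h1
    exact hr.trans ih (hr.symm h1)

variable (hX : X.Conn)

theorem sc_next {β : Type} (f : Perm β) {x y : β} (h : f x = y) : f.SameCycle x y :=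
  ⟨1, by rw [zpow_one]; exact h⟩

theorem l1 (d : R) : ∀ (k : ℕ) (hk : k < (s d).natAbs + 1),
    (P X s).SameCycle (.inr (⟨d, 0⟩, false)) (.inr (⟨d, ⟨k, hk⟩⟩, false)) := by
  intro k
  induction k with
  | zero => intro hk; exact Equiv.Perm.SameCycle.refl _ _
  | succ k ih =>
    intro hk
    refine (ih (by omega)).trans (sc_next _ ?_)
    rw [P_apply, eφ_false, sideNext_lt X s (by simp only; omega)]

theorem l2 (d : R) :
    (P X s).SameCycle (.inr (⟨d, 0⟩, false)) (.inr (⟨X.rot d, 0⟩, false)) := by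
  refine (l1 X s d (s d).natAbs (by omega)).trans (sc_next _ ?_)
  rw [P_apply, eφ_false, sideNext_ge X s (by simp)]

theorem l3 {d d' : R} (h : X.vert d = X.vert d') :
    (P X s).SameCycle (.inr (⟨d, 0⟩, false)) (.inr (⟨d', 0⟩, false)) :=
  rel_of_sameCycle X.rot (fun d d' => (P X s).SameCycle (.inr (⟨d, 0⟩, false))
    (.inr (⟨d', 0⟩, false))) ⟨fun _ => Equiv.Perm.SameCycle.refl _ _, fun h => h.symm,
      fun h h' => h.trans h'⟩ (l2 X s) (X.vert_same d d' h)

theorem l4 (d : R) : ∀ (k : ℕ) (hk : k < (s d).natAbs + 1),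
    (P X s).SameCycle (.inr (⟨d, ⟨k, hk⟩⟩, true)) (.inl (.inl d)) := by
  intro k
  induction k with
  | zero =>
    intro hk
    exact sc_next _ (by rw [P_apply, eφ_true_zero X s d _ rfl])
  | succ k ih =>
    intro hk
    refine (sc_next _ ?_).trans (ih (by omega))
    rw [P_apply, eφ_true_pos X s d _ (by simp)]
    rfl

theorem l5 (x : X.PD) : (P X s).SameCycle (.inl x) (.inl (X.next x)) := by
  have h1 : (P X s).SameCycle (.inl x) (g X s (X.next x)) :=
    sc_next _ (by rw [P_apply, eφ_inl])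
  rcases h : X.next x with d | d
  · rw [h] at h1
    exact h1.trans (l4 X s d _ _)
  · rw [h] at h1
    exact h1

theorem l6 {x x' : X.PD} (h : X.face x = X.face x') :
    (P X s).SameCycle (.inl x) (.inl x') := by
  have h1 : X.SameFace x x' := Quotient.exact h
  induction h1 with
  | rel a b hab => rw [hab]; exact l5 X s a
  | refl a => exact Equiv.Perm.SameCycle.refl _ _
  | symm a b _ ih => exact (ih (Quotient.sound (by assumption))).symm
  | trans a b c hab hbc ih1 ih2 =>
    exact (ih1 (Quotient.sound hab)).trans (ih2 (Quotient.sound hbc))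

theorem left_same (z z' : X.ED s) (h : X.eleft s z = X.eleft s z') :
    (P X s).SameCycle z z' := by
  -- representatives
  have key : ∀ z : X.ED s, (∃ d, X.eleft s z = .inl (X.vert d) ∧
      (P X s).SameCycle z (.inr (⟨d, 0⟩, false))) ∨
      (∃ x, X.eleft s z = .inr (X.face x) ∧ (P X s).SameCycle z (.inl x)) := by
    rintro (x | ⟨⟨d, i⟩, b⟩)
    · exact Or.inr ⟨x, rfl, Equiv.Perm.SameCycle.refl _ _⟩
    · rcases b with _ | _
      · exact Or.inl ⟨d, rfl, (l1 X s d i i.2).symm⟩
      · exact Or.inr ⟨.inl d, rfl, l4 X s d i i.2⟩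
  rcases key z with ⟨d, h1, h2⟩ | ⟨x, h1, h2⟩ <;> rcases key z' with ⟨d', h1', h2'⟩ | ⟨x', h1', h2'⟩
  · rw [h1, h1'] at h
    exact (h2.trans (l3 X s (Sum.inl.inj h))).trans h2'.symm
  · rw [h1, h1'] at h
    simp at h
  · rw [h1, h1'] at h
    simp at h
  · rw [h1, h1'] at h
    exact (h2.trans (l6 X s (Sum.inr.inj h))).trans h2'.symm

theorem t1 (y : X.Side s) :
    (cell X s hX).σ (.inr (X.sideNext s y, false)) = .inr (y, true) :=
  (cell X s hX).σ_φ (.inr (y, false))

theorem t2 (d : R) : (cell X s hX).σ (.inl (.inl d)) = .inr (⟨d, 0⟩, false) := by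
  have := (cell X s hX).σ_φ (.inr (⟨d, 0⟩, true))
  change (cell X s hX).σ (X.eφ s (.inr (⟨d, 0⟩, true))) = _ at this
  rw [eφ_true_zero X s d _ rfl] at this
  exact this

theorem t3 (d : {d : R // X.Crossed d}) :
    (cell X s hX).σ (.inl (.inr d)) = .inl (.inr (cg X d)) := by
  have := (cell X s hX).σ_φ (.inl (.inl (cg X d).1))
  change (cell X s hX).σ (X.eφ s (.inl (.inl (cg X d).1))) = .inl (X.rev (.inl (cg X d).1)) at this
  rw [eφ_inl, next_inl_crossed X (cg X d).2, rev_inl_crossed X (cg X d).2] at this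
  change (cell X s hX).σ (.inl (.inr (og X (cg X (cg X d))))) = .inl (.inr (cg X d)) at this
  rwa [cg_cg, og_og] at this

theorem exists_sidePrev (y : X.Side s) : ∃ y', X.sideNext s y' = y :=
  (Finite.injective_iff_surjective.mp (sideNext_inj X s)) y

theorem t4 {d d' : {d : R // X.Crossed d}} (h : X.xn d = X.xn d') :
    (cell X s hX).σ.SameCycle (.inl (.inr d)) (.inl (.inr d')) := by
  have h1 : Relation.EqvGen (fun a b : {d : R // X.Crossed d} => (b : R) = X.crsGet a) d d' :=
    Quotient.exact h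
  induction h1 with
  | rel a b hab =>
    have : b = cg X a := Subtype.ext hab
    rw [this]
    exact sc_next _ (t3 X s hX a)
  | refl a => exact Equiv.Perm.SameCycle.refl _ _
  | symm a b _ ih => exact (ih (Quotient.sound (by assumption))).symm
  | trans a b c hab hbc ih1 ih2 =>
    exact (ih1 (Quotient.sound hab)).trans (ih2 (Quotient.sound hbc))

theorem tail_same (z z' : X.ED s) (h : X.etail s z = X.etail s z') :
    (cell X s hX).σ.SameCycle z z' := by
  have key : ∀ z : X.ED s, (∃ y, X.etail s z = .inl y ∧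
      (cell X s hX).σ.SameCycle z (.inr (y, false))) ∨
      (∃ d, X.etail s z = .inr (X.xn d) ∧ (cell X s hX).σ.SameCycle z (.inl (.inr d))) := by
    rintro ((d | d) | ⟨y, b⟩)
    · exact Or.inl ⟨⟨d, 0⟩, rfl, sc_next _ (t2 X s hX d)⟩
    · exact Or.inr ⟨d, rfl, Equiv.Perm.SameCycle.refl _ _⟩
    · rcases b with _ | _
      · exact Or.inl ⟨y, rfl, Equiv.Perm.SameCycle.refl _ _⟩
      · exact Or.inl ⟨X.sideNext s y, rfl, (sc_next _ (t1 X s hX y)).symm⟩
  rcases key z with ⟨d, h1, h2⟩ | ⟨x, h1, h2⟩ <;> rcases key z' with ⟨d', h1', h2'⟩ | ⟨x', h1', h2'⟩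
  · rw [h1, h1'] at h
    rw [Sum.inl.inj h] at h2
    exact h2.trans h2'.symm
  · rw [h1, h1'] at h
    simp at h
  · rw [h1, h1'] at h
    simp at h
  · rw [h1, h1'] at h
    exact (h2.trans (t4 X s hX (Sum.inr.inj h))).trans h2'.symm

theorem tight : (cell X s hX).Tight := ⟨tail_same X s hX, left_same X s⟩

end Conn

end Expand

end Pool.Agent.Lib.MP_9ad789_co
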