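import Pool.Agent.Lib.MP_9ad789_co.Cell
import Mathlib.Combinatorics.SimpleGraph.Metric
import Mathlib.Combinatorics.SimpleGraph.Connectivity.Subgraph

/-!
# Spanning forests of connected sets of nodes
-/

set_option linter.unusedSectionVars false

namespace Pool.Agent.Lib.MP_9ad789_co

open Equiv Finset

variable {D N F : Type} [Fintype D] [Fintype N] [Fintype F]
  [DecidableEq D] [DecidableEq N] [DecidableEq F]

namespace ForestAux

/-- In a connected graph every vertex other than `r` has a neighbour closer to `r`. -/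
theorem closer {V : Type} (G : SimpleGraph V) (hG : G.Connected) (r n : V) (hn : n ≠ r) :
    ∃ m, G.Adj n m ∧ G.dist r m < G.dist r n := by
  obtain ⟨w, hw⟩ := hG.exists_walk_length_eq_dist n r
  cases w with
  | nil => exact absurd rfl hn
  | cons h p =>
    refine ⟨_, h, ?_⟩
    have h1 := SimpleGraph.dist_le p
    rw [SimpleGraph.Walk.length_cons] at hw
    rw [SimpleGraph.dist_comm, SimpleGraph.dist_comm (u := r) (v := n)]
    omega

end ForestAux

theorem exists_forest (C : Cell D N F) {τ : Type} [Fintype τ] (S : τ → Set N)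
    (hS : ∀ i, (C.NG.induce (S i)).Connected) (hd : ∀ i j, i ≠ j → Disjoint (S i) (S j)) :
    ∃ J : Finset D, (∀ d ∈ J, C.α d ∈ J) ∧
      (∀ d ∈ J, ∃ i, C.tail d ∈ S i ∧ C.head d ∈ S i) ∧
      (J.card + 2 * Fintype.card τ = 2 * (Set.ncard (⋃ i, S i))) ∧
      (∀ z : D → ℚ, (∀ d, z (C.α d) = - z d) → (∀ d, d ∉ J → z d = 0) →
        (∀ n, ∑ d with C.tail d = n, z d = 0) → z = 0) := by
  classical
  have hne : ∀ i, ∃ r, r ∈ S i := fun i => by
    obtain ⟨r⟩ := (hS i).nonempty
    exact ⟨r.1, r.2⟩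
  choose r hr using hne
  have huniq : ∀ i j n, n ∈ S i → n ∈ S j → i = j := by
    intro i j n h1 h2
    by_contra h
    exact Set.disjoint_left.1 (hd i j h) h1 h2
  let δ : N → ℕ := fun n => ∑ i, if h : n ∈ S i then (C.NG.induce (S i)).dist ⟨r i, hr i⟩ ⟨n, h⟩ else 0
  have hδ : ∀ i n (h : n ∈ S i), δ n = (C.NG.induce (S i)).dist ⟨r i, hr i⟩ ⟨n, h⟩ := by
    intro i n h
    show (∑ j, if h : n ∈ S j then (C.NG.induce (S j)).dist ⟨r j, hr j⟩ ⟨n, h⟩ else 0) = _
    rw [Finset.sum_eq_single i]
    · rw [dif_pos h]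
    · intro j _ hj
      rw [dif_neg]
      intro h'
      exact hj (huniq j i n h' h)
    · intro h'; exact absurd (mem_univ i) h'
  let R : Finset N := univ.filter (fun n => ∃ i, n ∈ S i ∧ n ≠ r i)
  have hR : ∀ n, n ∈ R ↔ ∃ i, n ∈ S i ∧ n ≠ r i := by intro n; simp [R]
  have hstep : ∀ n : N, ∃ d : D, n ∈ R → C.tail d = n ∧ (∃ i, n ∈ S i ∧ C.head d ∈ S i) ∧
      δ (C.head d) < δ n := by
    intro n
    by_cases hn : n ∈ R
    · obtain ⟨i, hi, hni⟩ := (hR n).1 hn
      obtain ⟨m, hadj, hlt⟩ := ForestAux.closer (C.NG.induce (S i)) (hS i) ⟨r i, hr i⟩ ⟨n, hi⟩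
        (fun h => hni (congrArg Subtype.val h))
      have hadj' : C.NG.Adj n m.1 := hadj
      obtain ⟨-, d, h1, h2⟩ := hadj'
      refine ⟨d, fun _ => ⟨h1, ⟨i, hi, by rw [h2]; exact m.2⟩, ?_⟩⟩
      rw [h2, hδ i m.1 m.2, hδ i n hi]
      exact hlt
    · obtain ⟨d, -⟩ := C.tail_surj n
      exact ⟨d, fun h => absurd h hn⟩
  choose p hp using hstep
  have hpinj : ∀ n ∈ R, ∀ m ∈ R, p n = p m → n = m := by
    intro n hn m hm h
    rw [← (hp n hn).1, ← (hp m hm).1, h]
  let A : Finset D := R.image p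
  have hA : A.card = R.card := card_image_of_injOn fun n hn m hm h => hpinj n hn m hm h
  have hdisj : Disjoint A (A.image C.α) := by
    rw [Finset.disjoint_left]
    intro d hd1 hd2
    obtain ⟨n, hn, rfl⟩ := mem_image.1 hd1
    obtain ⟨e, he, heq⟩ := mem_image.1 hd2
    obtain ⟨m, hm, rfl⟩ := mem_image.1 he
    have h1 : C.tail (p n) = C.head (p m) := by rw [← heq, C.tail_α]
    have h2 : C.head (p n) = C.tail (p m) := by rw [← heq, C.head_α]
    have h3 := (hp n hn).2.2
    have h4 := (hp m hm).2.2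
    rw [h2, (hp m hm).1] at h3
    rw [← h1, (hp n hn).1] at h4
    omega
  refine ⟨A ∪ A.image C.α, ?_, ?_, ?_, ?_⟩
  · intro d hd
    rw [mem_union] at hd ⊢
    rcases hd with hd | hd
    · exact Or.inr (mem_image_of_mem _ hd)
    · obtain ⟨e, he, rfl⟩ := mem_image.1 hd
      left
      rw [C.α_α]; exact he
  · intro d hd
    rw [mem_union] at hd
    rcases hd with hd | hd
    · obtain ⟨n, hn, rfl⟩ := mem_image.1 hd
      obtain ⟨h1, ⟨i, h2, h3⟩, -⟩ := hp n hn
      exact ⟨i, by rw [h1]; exact h2, h3⟩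
    · obtain ⟨e, he, rfl⟩ := mem_image.1 hd
      obtain ⟨n, hn, rfl⟩ := mem_image.1 he
      obtain ⟨h1, ⟨i, h2, h3⟩, -⟩ := hp n hn
      exact ⟨i, h3, by rw [C.head_α, h1]; exact h2⟩
  · rw [card_union_of_disjoint hdisj, card_image_of_injective _ C.α.injective, hA]
    have hU : (⋃ i, S i) = ((R ∪ univ.image r : Finset N) : Set N) := by
      ext n
      simp only [Set.mem_iUnion, Finset.coe_union, Set.mem_union, Finset.mem_coe, hR,
        Finset.mem_image, mem_univ, true_and]
      constructor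
      · rintro ⟨i, hi⟩
        by_cases h : n = r i
        · exact Or.inr ⟨i, h.symm⟩
        · exact Or.inl ⟨i, hi, h⟩
      · rintro (⟨i, hi, -⟩ | ⟨i, rfl⟩)
        · exact ⟨i, hi⟩
        · exact ⟨i, hr i⟩
    have hdis : Disjoint R (univ.image r) := by
      rw [Finset.disjoint_left]
      intro n hn hn'
      obtain ⟨i, hi, hni⟩ := (hR n).1 hn
      obtain ⟨j, -, rfl⟩ := mem_image.1 hn'
      have := huniq i j _ hi (hr j)
      exact hni (by rw [this])
    have hrinj : Function.Injective r := by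
      intro i j h
      exact huniq i j (r i) (hr i) (by rw [h]; exact hr j)
    rw [hU, Set.ncard_coe_finset, card_union_of_disjoint hdis, card_image_of_injective _ hrinj,
      Finset.card_univ]
    ring
  · intro z hz1 hz2 hz3
    have key : ∀ n ∈ R, z (p n) = 0 := by
      by_contra hcon
      push Not at hcon
      obtain ⟨n0, hn0, hz0⟩ := hcon
      obtain ⟨n, hn, hmax⟩ := Finset.exists_max_image (R.filter (fun n => z (p n) ≠ 0)) δ
        ⟨n0, mem_filter.2 ⟨hn0, hz0⟩⟩
      rw [mem_filter] at hn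
      apply hn.2
      have h1 := hz3 n
      rw [Finset.sum_eq_single (p n)] at h1
      · exact h1
      · intro d hd hdp
        simp only [mem_filter, mem_univ, true_and] at hd
        by_cases hdJ : d ∈ A ∪ A.image C.α
        · rw [mem_union] at hdJ
          rcases hdJ with h | h
          · obtain ⟨m, hm, rfl⟩ := mem_image.1 h
            rw [(hp m hm).1] at hd
            exact absurd (by rw [hd]) hdp
          · obtain ⟨e, he, rfl⟩ := mem_image.1 h
            obtain ⟨m, hm, rfl⟩ := mem_image.1 he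
            rw [C.tail_α] at hd
            have h2 := (hp m hm).2.2
            rw [hd] at h2
            by_contra hzz
            rw [hz1] at hzz
            have := hmax m (mem_filter.2 ⟨hm, fun h => hzz (by rw [h, neg_zero])⟩)
            omega
        · exact hz2 d hdJ
      · intro h
        exact absurd (by simp [(hp n hn.1).1]) h
    funext d
    show z d = 0
    by_cases hdJ : d ∈ A ∪ A.image C.α
    · rw [mem_union] at hdJ
      rcases hdJ with h | h
      · obtain ⟨m, hm, rfl⟩ := mem_image.1 h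
        exact key m hm
      · obtain ⟨e, he, rfl⟩ := mem_image.1 h
        obtain ⟨m, hm, rfl⟩ := mem_image.1 he
        rw [hz1, key m hm, neg_zero]
    · exact hz2 d hdJ

end Pool.Agent.Lib.MP_9ad789_co
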