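import Pool.Agent.Lib.MP_9ad789_co.Box
import Pool.Agent.Lib.MP_9ad789_co.Dir
import Pool.Agent.Lib.MP_9ad789_co.Acy

/-!
# MP_9ad789_co : a framed rectangular flat map can be drawn (module RECT)
-/

namespace Pool.Agent.Lib.MP_9ad789_co

open Equiv Finset

section
variable {D N F : Type} [Fintype D] [Fintype N] [Fintype F]
  [DecidableEq D] [DecidableEq N] [DecidableEq F]

namespace RectM

/-- the sum over the darts of one direction in a face -/
theorem sum_side (M : Flat D N F) (dir : D → ZMod 4) (x y : N → ℤ) (f : F) (ε : ZMod 4)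
    (xl xr yb yt : ℤ) (hB : IsBox M dir x y f ε xl xr yb yt) (δ : ZMod 4) (hδ : δ = 0 ∨ δ = 2)
    (Y : ℤ) (hY : ∀ d, M.left d = f → dir d = δ → y (M.tail d) = Y ∧ xl ≤ x (M.tail d) ∧
      x (M.tail d) ≤ xr ∧ xl ≤ x (M.head d) ∧ x (M.head d) ≤ xr) (q : ℝ × ℝ) :
    ∑ d with M.left d = f, (if dir d = δ ∧
      ((min (x (M.tail d)) (x (M.head d)) : ℤ) : ℝ) ≤ q.1 ∧
      q.1 < ((max (x (M.tail d)) (x (M.head d)) : ℤ) : ℝ) ∧ q.2 < (y (M.tail d) : ℝ) then (1 : ℤ) else 0) =
    if (xl : ℝ) ≤ q.1 ∧ q.1 < xr ∧ q.2 < Y then 1 else 0 := by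
  by_cases hq : (xl : ℝ) ≤ q.1 ∧ q.1 < xr
  · obtain ⟨d, hd, hdd, h1, h2⟩ := hB.cover_x q.1 δ hδ hq.1 hq.2
    rw [sum_eq_single d]
    · rw [(hY d hd hdd).1]
      simp only [hdd, h1, h2, hq.1, hq.2, true_and]
    · intro d' hd' hne
      rw [mem_filter] at hd'
      rw [if_neg]
      rintro ⟨h3, h4, h5, _⟩
      have hx := hB.disj_x d d' hd hd'.2 (hdd.trans h3.symm) (by rw [hdd]; exact hδ) hne.symm
      rcases hx with hx | hx
      · have : ((max (x (M.tail d)) (x (M.head d)) : ℤ) : ℝ) ≤
          ((min (x (M.tail d')) (x (M.head d')) : ℤ) : ℝ) := by exact_mod_cast hx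
        linarith
      · have : ((max (x (M.tail d')) (x (M.head d')) : ℤ) : ℝ) ≤
          ((min (x (M.tail d)) (x (M.head d)) : ℤ) : ℝ) := by exact_mod_cast hx
        linarith
    · intro h
      exact (h (mem_filter.2 ⟨mem_univ _, hd⟩)).elim
  · rw [if_neg (fun h => hq ⟨h.1, h.2.1⟩)]
    apply sum_eq_zero
    intro d hd
    rw [mem_filter] at hd
    rw [if_neg]
    rintro ⟨h3, h4, h5, _⟩
    obtain ⟨_, h6, h7, h8, h9⟩ := hY d hd.2 h3
    apply hq
    have h10 : xl ≤ min (x (M.tail d)) (x (M.head d)) := le_min h6 h8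
    have h11 : max (x (M.tail d)) (x (M.head d)) ≤ xr := max_le h7 h9
    have h12 : (xl : ℝ) ≤ ((min (x (M.tail d)) (x (M.head d)) : ℤ) : ℝ) := by exact_mod_cast h10
    have h13 : ((max (x (M.tail d)) (x (M.head d)) : ℤ) : ℝ) ≤ xr := by exact_mod_cast h11
    exact ⟨h12.trans h4, h5.trans_le h13⟩

/-- the corner of a node which contains the north-east direction -/
theorem ne_corner (M : Flat D N F) (dir : D → ZMod 4) (hα : ∀ d, dir (M.α d) = dir d + 2)
    (hφ : ∀ d, dir (M.φ d) = dir d + (M.turn d : ZMod 4)) (n : N) :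
    ∃ d, M.tail d = n ∧ ∃ r : ℕ, (r : ℤ) < 2 - M.turn (M.φ.symm d) ∧ dir d + (r : ZMod 4) = 0 := by
  obtain ⟨d0, hd0⟩ := M.tail_surj n
  -- the orbit of σ
  have hσ : ∀ d, dir (M.σ d) = dir d + ((2 - M.turn (M.φ.symm d) : ℤ) : ZMod 4) := by
    intro d
    have h1 := hφ (M.φ.symm d)
    rw [Equiv.apply_symm_apply] at h1
    rw [Cell.σ_apply, hα, h1]
    push_cast
    ring
  have hinv : ∀ d ∈ (univ.filter (fun d => M.tail d = n) : Finset D),
      M.σ d ∈ (univ.filter (fun d => M.tail d = n) : Finset D) := by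
    intro d hd
    rw [mem_filter] at hd ⊢
    exact ⟨mem_univ _, by rw [M.tail_σ]; exact hd.2⟩
  have hcyc : ∀ d ∈ (univ.filter (fun d => M.tail d = n) : Finset D),
      ∀ d' ∈ (univ.filter (fun d => M.tail d = n) : Finset D), M.σ.SameCycle d d' := by
    intro d hd d' hd'
    rw [mem_filter] at hd hd'
    exact M.tight.tail_same d d' (hd.2.trans hd'.2.symm)
  have hmem0 : d0 ∈ (univ.filter (fun d => M.tail d = n) : Finset D) :=
    mem_filter.2 ⟨mem_univ _, hd0⟩
  obtain ⟨h1, h2, h3, h4⟩ := BoxM.cycle_enum M.σ (univ.filter (fun d => M.tail d = n)) hinv hcyc d0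
    hmem0
  have hsum := BoxM.cycle_sum M.σ (univ.filter (fun d => M.tail d = n)) hinv hcyc d0 hmem0
    (fun d => 2 - M.turn (M.φ.symm d))
  rw [M.node_sum n] at hsum
  have hdir : ∀ i : ℕ, dir (M.σ^[i] d0) = dir d0 +
      ((∑ j ∈ range i, (2 - M.turn (M.φ.symm (M.σ^[j] d0))) : ℤ) : ZMod 4) := by
    intro i
    induction i with
    | zero => simp
    | succ i ih =>
      rw [Function.iterate_succ_apply', hσ, ih, sum_range_succ]
      push_cast
      ring
  obtain ⟨t, ht4, ht⟩ : ∃ t : ℤ, (0 ≤ t ∧ t < 4) ∧ dir d0 + (t : ZMod 4) = 0 := by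
    have : ∀ z : ZMod 4, z + ((0 : ℤ) : ZMod 4) = 0 ∨ z + ((1 : ℤ) : ZMod 4) = 0 ∨
      z + ((2 : ℤ) : ZMod 4) = 0 ∨ z + ((3 : ℤ) : ZMod 4) = 0 := by decide
    rcases this (dir d0) with h | h | h | h
    · exact ⟨0, by norm_num, h⟩
    · exact ⟨1, by norm_num, h⟩
    · exact ⟨2, by norm_num, h⟩
    · exact ⟨3, by norm_num, h⟩
  set A : ℕ → ℤ := fun i => ∑ j ∈ range i, (2 - M.turn (M.φ.symm (M.σ^[j] d0))) with hA
  have hAm : A (Function.minimalPeriod M.σ d0) = 4 := hsum
  have hA0 : A 0 = 0 := by simp [hA]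
  obtain ⟨i, hi1, hi2⟩ : ∃ i, A i ≤ t ∧ t < A (i + 1) := by
    by_contra hcon
    push Not at hcon
    have : ∀ i, A i ≤ t := by
      intro i
      induction i with
      | zero => rw [hA0]; exact ht4.1
      | succ i ih => exact hcon i ih
    have := this (Function.minimalPeriod M.σ d0)
    omega
  refine ⟨M.σ^[i] d0, (mem_filter.1 (h2 i)).2, (t - A i).toNat, ?_, ?_⟩
  · have h5 : A (i + 1) = A i + (2 - M.turn (M.φ.symm (M.σ^[i] d0))) := by
      simp only [hA, sum_range_succ]
    rw [Int.toNat_of_nonneg (by omega)]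
    omega
  · have h6 : (((t - A i).toNat : ℕ) : ZMod 4) = ((t - A i : ℤ) : ZMod 4) := by
      have := Int.toNat_of_nonneg (a := t - A i) (by omega)
      conv_rhs => rw [← this]
      push_cast
      rfl
    have h7 : dir (M.σ^[i] d0) = dir d0 + ((A i : ℤ) : ZMod 4) := hdir i
    rw [h6, h7, ← ht]
    push_cast
    ring


/-- half open box -/
def In (xl xr yb yt : ℤ) (q : ℝ × ℝ) : Prop :=
  (xl : ℝ) ≤ q.1 ∧ q.1 < xr ∧ (yb : ℝ) ≤ q.2 ∧ q.2 < yt

open Classical in
theorem wind_sum (M : Flat D N F) (P : Draw M) (x y : N → ℤ)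
    (hpos : ∀ n, P.pos n = ((x n : ℝ), (y n : ℝ))) (q : ℝ × ℝ)
    (hy0 : ∀ d, P.dir d = 0 → y (M.tail d) = y (M.head d))
    (hy2 : ∀ d, P.dir d = 2 → y (M.tail d) = y (M.head d)) : ∑ f, P.wind f q = 0 := by
  have h1 : ∑ f, P.wind f q = ∑ d : D,
    ((if P.dir d = 2 ∧ (P.pos (M.head d)).1 ≤ q.1 ∧ q.1 < (P.pos (M.tail d)).1 ∧
          q.2 < (P.pos (M.tail d)).2 then (1 : ℤ) else 0) -
     (if P.dir d = 0 ∧ (P.pos (M.tail d)).1 ≤ q.1 ∧ q.1 < (P.pos (M.head d)).1 ∧
          q.2 < (P.pos (M.tail d)).2 then 1 else 0)) := by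
    unfold Draw.wind
    rw [← sum_fiberwise univ M.left]
  rw [h1]
  set g : D → ℤ := fun d =>
    ((if P.dir d = 2 ∧ (P.pos (M.head d)).1 ≤ q.1 ∧ q.1 < (P.pos (M.tail d)).1 ∧
          q.2 < (P.pos (M.tail d)).2 then (1 : ℤ) else 0) -
     (if P.dir d = 0 ∧ (P.pos (M.tail d)).1 ≤ q.1 ∧ q.1 < (P.pos (M.head d)).1 ∧
          q.2 < (P.pos (M.tail d)).2 then 1 else 0)) with hg
  have h2 : ∀ d, g (M.α d) = - g d := by
    intro d
    have ht : M.tail (M.α d) = M.head d := rfl
    have hh : M.head (M.α d) = M.tail d := M.toCell.head_α d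
    have e1 : (P.dir d + 2 = 2) = (P.dir d = 0) := by
      apply propext
      have : ∀ z : ZMod 4, z + 2 = 2 ↔ z = 0 := by decide
      exact this _
    have e2 : (P.dir d + 2 = 0) = (P.dir d = 2) := by
      apply propext
      have : ∀ z : ZMod 4, z + 2 = 0 ↔ z = 2 := by decide
      exact this _
    simp only [hg, P.dir_α, ht, hh, e1, e2]
    by_cases h0 : P.dir d = 0
    · have hy := hy0 d h0
      have hne : ¬ ((0 : ZMod 4) = 2) := by decide
      simp only [h0, hpos, hy, hne, false_and, if_false, true_and]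
      ring
    · by_cases h2' : P.dir d = 2
      · have hy := hy2 d h2'
        have hne : ¬ ((2 : ZMod 4) = 0) := by decide
        simp only [h2', hpos, hy, hne, false_and, if_false, true_and]
        ring
      · simp only [h0, h2', false_and, if_false]
        ring
  have h3 : ∑ d, g d = - ∑ d, g d := by
    conv_lhs => rw [← Equiv.sum_comp M.α g]
    rw [← sum_neg_distrib]
    exact sum_congr rfl fun d _ => h2 d
  have h4 : ∑ d, g d = 0 := by linarith
  exact h4

end RectM

theorem rect_drawable (M : Flat D N F) (hF : M.Framed)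
    (hR : ∀ d, M.left d ≠ M.outer → 0 ≤ M.turn d) : Drawable M := by
  classical
  obtain ⟨dir, hα, hφ⟩ := exists_dir M
  obtain ⟨x, hx0, hx1⟩ := exists_coord M dir hα hφ
  obtain ⟨y, hy1', hy2'⟩ := exists_coord M (fun d => dir d - 1) (by
    intro d
    simp only [hα]
    ring) (by
    intro d
    simp only [hφ]
    ring)
  have hy1 : ∀ d, dir d = 1 → y (M.tail d) < y (M.head d) := fun d hd =>
    hy1' d (by show dir d - 1 = 0; rw [hd]; decide)
  have hy2 : ∀ d, dir d = 2 → y (M.tail d) = y (M.head d) := fun d hd =>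
    hy2' d (by show dir d - 1 = 1; rw [hd]; decide)
  have ht : ∀ d, M.tail (M.α d) = M.head d := fun _ => rfl
  have hh : ∀ d, M.head (M.α d) = M.tail d := fun d => M.toCell.head_α d
  have hy0 : ∀ d, dir d = 0 → y (M.tail d) = y (M.head d) := by
    intro d hd
    have := hy2 (M.α d) (by rw [hα, hd]; decide)
    rw [ht, hh] at this
    exact this.symm
  have hx2 : ∀ d, dir d = 2 → x (M.head d) < x (M.tail d) := by
    intro d hd
    have := hx0 (M.α d) (by rw [hα, hd]; decide)
    rwa [ht, hh] at this
  have hx3 : ∀ d, dir d = 3 → x (M.tail d) = x (M.head d) := by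
    intro d hd
    have := hx1 (M.α d) (by rw [hα, hd]; decide)
    rw [ht, hh] at this
    exact this.symm
  have hy3 : ∀ d, dir d = 3 → y (M.head d) < y (M.tail d) := by
    intro d hd
    have := hy1 (M.α d) (by rw [hα, hd]; decide)
    rwa [ht, hh] at this
  have hcase : ∀ z : ZMod 4, z = 0 ∨ z = 1 ∨ z = 2 ∨ z = 3 := by decide
  have hbox := exists_box M hF hR dir hα hφ x y hx0 hx1 hy1 hy2
  choose xl xr yb yt hB using hbox
  -- the drawing
  let P : Draw M :=
    { dir := dir
      pos := fun n => ((x n : ℝ), (y n : ℝ))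
      dir_α := hα
      dir_φ := hφ
      len := by
        intro d
        rcases hcase (dir d) with h | h | h | h
        · refine ⟨(x (M.head d) : ℝ) - x (M.tail d), ?_, ?_⟩
          · have := hx0 d h
            have h' : (x (M.tail d) : ℝ) < x (M.head d) := by exact_mod_cast this
            linarith
          · rw [h, hy0 d h]
            show ((x (M.head d) : ℝ), (y (M.head d) : ℝ)) = _ + _ • ((1 : ℝ), (0 : ℝ))
            ext
            · simp
            · simp
        · refine ⟨(y (M.head d) : ℝ) - y (M.tail d), ?_, ?_⟩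
          · have := hy1 d h
            have h' : (y (M.tail d) : ℝ) < y (M.head d) := by exact_mod_cast this
            linarith
          · rw [h, hx1 d h]
            show ((x (M.head d) : ℝ), (y (M.head d) : ℝ)) = _ + _ • ((0 : ℝ), (1 : ℝ))
            ext
            · simp
            · simp
        · refine ⟨(x (M.tail d) : ℝ) - x (M.head d), ?_, ?_⟩
          · have := hx2 d h
            have h' : (x (M.head d) : ℝ) < x (M.tail d) := by exact_mod_cast this
            linarith
          · rw [h, hy2 d h]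
            show ((x (M.head d) : ℝ), (y (M.head d) : ℝ)) = _ + _ • ((-1 : ℝ), (0 : ℝ))
            ext
            · simp
            · simp
        · refine ⟨(y (M.tail d) : ℝ) - y (M.head d), ?_, ?_⟩
          · have := hy3 d h
            have h' : (y (M.head d) : ℝ) < y (M.tail d) := by exact_mod_cast this
            linarith
          · rw [h, hx3 d h]
            show ((x (M.head d) : ℝ), (y (M.head d) : ℝ)) = _ + _ • ((0 : ℝ), (-1 : ℝ))
            ext
            · simp
            · simp }
  have hPdir : ∀ d, P.dir d = dir d := fun _ => rfl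
  have hpos : ∀ n, P.pos n = ((x n : ℝ), (y n : ℝ)) := fun _ => rfl
  -- winding numbers
  have hmx0 : ∀ d, dir d = 0 → min (x (M.tail d)) (x (M.head d)) = x (M.tail d) ∧
      max (x (M.tail d)) (x (M.head d)) = x (M.head d) := fun d hd =>
    ⟨min_eq_left (hx0 d hd).le, max_eq_right (hx0 d hd).le⟩
  have hmx2 : ∀ d, dir d = 2 → min (x (M.tail d)) (x (M.head d)) = x (M.head d) ∧
      max (x (M.tail d)) (x (M.head d)) = x (M.tail d) := fun d hd =>
    ⟨min_eq_right (hx2 d hd).le, max_eq_left (hx2 d hd).le⟩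
  have hwind' : ∀ f q, P.wind f q = ∑ d with M.left d = f,
      ((if dir d = 2 ∧ ((min (x (M.tail d)) (x (M.head d)) : ℤ) : ℝ) ≤ q.1 ∧
        q.1 < ((max (x (M.tail d)) (x (M.head d)) : ℤ) : ℝ) ∧ q.2 < (y (M.tail d) : ℝ)
          then (1 : ℤ) else 0) -
       (if dir d = 0 ∧ ((min (x (M.tail d)) (x (M.head d)) : ℤ) : ℝ) ≤ q.1 ∧
        q.1 < ((max (x (M.tail d)) (x (M.head d)) : ℤ) : ℝ) ∧ q.2 < (y (M.tail d) : ℝ)
          then (1 : ℤ) else 0)) := by
    intro f q
    unfold Draw.wind
    apply sum_congr rfl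
    intro d _
    rw [hPdir, hpos, hpos]
    congr 1
    · by_cases h : dir d = 2
      · rw [(hmx2 d h).1, (hmx2 d h).2]
      · rw [if_neg (fun h' => h h'.1), if_neg (fun h' => h h'.1)]
    · by_cases h : dir d = 0
      · rw [(hmx0 d h).1, (hmx0 d h).2]
      · rw [if_neg (fun h' => h h'.1), if_neg (fun h' => h h'.1)]
  have hwind : ∀ f q, P.wind f q = if RectM.In (xl f) (xr f) (yb f) (yt f) q then
      (if f = M.outer then -1 else 1) else 0 := by
    intro f q
    rw [hwind', sum_sub_distrib]
    have hBf := hB f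
    have hlt : (yb f : ℝ) < yt f := by exact_mod_cast hBf.lt_y
    by_cases hfo : f = M.outer
    · rw [if_pos hfo] at hBf
      have e0 := RectM.sum_side M dir x y f 2 _ _ _ _ hBf 0 (Or.inl rfl) (yt f) (by
        intro d hd hdd
        have := hBf.top d hd (by rw [hdd]; decide)
        exact ⟨this.1, this.2.2⟩) q
      have e2 := RectM.sum_side M dir x y f 2 _ _ _ _ hBf 2 (Or.inr rfl) (yb f) (by
        intro d hd hdd
        have := hBf.bottom d hd (by rw [hdd]; decide)
        exact ⟨this.1, this.2.2⟩) q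
      rw [e0, e2, if_pos hfo]
      unfold RectM.In
      by_cases h1 : (xl f : ℝ) ≤ q.1 ∧ q.1 < xr f
      · by_cases h2 : q.2 < yb f
        · have h3 : q.2 < yt f := h2.trans hlt
          simp [h1.1, h1.2, h2, h3, not_le.2 h2]
        · by_cases h3 : q.2 < yt f
          · simp [h1.1, h1.2, h2, h3, not_lt.1 h2]
          · simp [h1.1, h1.2, h2, h3]
      · rw [if_neg (fun h => h1 ⟨h.1, h.2.1⟩), if_neg (fun h => h1 ⟨h.1, h.2.1⟩),
          if_neg (fun h => h1 ⟨h.1, h.2.1⟩)]
        norm_num
    · rw [if_neg hfo] at hBf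
      have e0 := RectM.sum_side M dir x y f 0 _ _ _ _ hBf 0 (Or.inl rfl) (yb f) (by
        intro d hd hdd
        have := hBf.bottom d hd (by rw [hdd]; decide)
        exact ⟨this.1, this.2.2⟩) q
      have e2 := RectM.sum_side M dir x y f 0 _ _ _ _ hBf 2 (Or.inr rfl) (yt f) (by
        intro d hd hdd
        have := hBf.top d hd (by rw [hdd]; decide)
        exact ⟨this.1, this.2.2⟩) q
      rw [e0, e2, if_neg hfo]
      unfold RectM.In
      by_cases h1 : (xl f : ℝ) ≤ q.1 ∧ q.1 < xr f
      · by_cases h2 : q.2 < yb f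
        · have h3 : q.2 < yt f := h2.trans hlt
          simp [h1.1, h1.2, h2, h3, not_le.2 h2]
        · by_cases h3 : q.2 < yt f
          · simp [h1.1, h1.2, h2, h3, not_lt.1 h2]
          · simp [h1.1, h1.2, h2, h3]
      · rw [if_neg (fun h => h1 ⟨h.1, h.2.1⟩), if_neg (fun h => h1 ⟨h.1, h.2.1⟩),
          if_neg (fun h => h1 ⟨h.1, h.2.1⟩)]
        norm_num
  -- the upper right place
  set R : F → ℝ × ℝ → Prop := fun f q => (f ≠ M.outer ∧ RectM.In (xl f) (xr f) (yb f) (yt f) q) ∨
    (f = M.outer ∧ ¬ RectM.In (xl f) (xr f) (yb f) (yt f) q) with hRdef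
  have hwsum : ∀ q, P.wind M.outer q + ∑ f ∈ univ.erase M.outer, P.wind f q = 0 := by
    intro q
    have := RectM.wind_sum M P x y hpos q hy0 hy2
    rw [← add_sum_erase univ (fun f => P.wind f q) (mem_univ M.outer)] at this
    exact this
  have hwnn : ∀ q, ∀ f ∈ univ.erase M.outer, 0 ≤ P.wind f q := by
    intro q f hf
    rw [hwind, if_neg (ne_of_mem_erase hf)]
    split_ifs <;> norm_num
  have hw1 : ∀ f q, f ≠ M.outer → (P.wind f q = 1 ↔ RectM.In (xl f) (xr f) (yb f) (yt f) q) := by
    intro f q hf
    rw [hwind, if_neg hf]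
    constructor
    · intro h
      by_contra h'
      rw [if_neg h'] at h
      exact absurd h (by norm_num)
    · intro h
      rw [if_pos h]
  have hw01 : ∀ f, f ≠ M.outer → ∀ q, P.wind f q = 0 ∨ P.wind f q = 1 := by
    intro f hf q
    rw [hwind, if_neg hf]
    split_ifs
    · exact Or.inr rfl
    · exact Or.inl rfl
  have hwo : ∀ q, -1 ≤ P.wind M.outer q := by
    intro q
    rw [hwind, if_pos rfl]
    split_ifs <;> norm_num
  have huniq : ∀ f f' q, f ≠ M.outer → f' ≠ M.outer → P.wind f q = 1 → P.wind f' q = 1 → f = f' := by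
    intro f f' q hf hf' h h'
    by_contra hne
    have h1 := sum_le_sum_of_subset_of_nonneg (s := {f, f'}) (t := univ.erase M.outer)
      (f := fun f => P.wind f q) (by
        intro z hz
        rw [mem_insert, mem_singleton] at hz
        rcases hz with rfl | rfl
        · exact mem_erase.2 ⟨hf, mem_univ _⟩
        · exact mem_erase.2 ⟨hf', mem_univ _⟩) (fun z hz _ => hwnn q z hz)
    rw [sum_pair hne, h, h'] at h1
    have h2 := hwsum q
    have h3 := hwo q
    omega
  have houter : ∀ f q, f ≠ M.outer → P.wind f q = 1 →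
      RectM.In (xl M.outer) (xr M.outer) (yb M.outer) (yt M.outer) q := by
    intro f q hf h
    by_contra hcon
    have h0 : P.wind M.outer q = 0 := by rw [hwind, if_neg hcon]
    have h1 := single_le_sum (f := fun f => P.wind f q) (hwnn q) (mem_erase.2 ⟨hf, mem_univ _⟩)
    have h2 := hwsum q
    omega
  have hRuniq : ∀ f f' q, R f q → R f' q → f = f' := by
    rintro f f' q (⟨h1, h2⟩ | ⟨h1, h2⟩) (⟨h3, h4⟩ | ⟨h3, h4⟩)
    · exact huniq f f' q h1 h3 ((hw1 f q h1).2 h2) ((hw1 f' q h3).2 h4)
    · rw [h3] at h4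
      exact absurd (houter f q h1 ((hw1 f q h1).2 h2)) h4
    · rw [h1] at h2
      exact absurd (houter f' q h3 ((hw1 f' q h3).2 h4)) h2
    · rw [h1, h3]
  -- nodes
  have hnode : ∀ n, ∃ d, M.tail d = n ∧ R (M.left d) (P.pos n) := by
    intro n
    obtain ⟨d, hd, r, hr, hdr⟩ := RectM.ne_corner M dir hα hφ n
    refine ⟨d, hd, ?_⟩
    have hlφ : M.left (M.φ.symm d) = M.left d := by
      rw [← M.left_φ (M.φ.symm d), Equiv.apply_symm_apply]
    have hhφ : M.head (M.φ.symm d) = n := by
      have := M.tail_φ (M.φ.symm d)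
      rw [Equiv.apply_symm_apply, hd] at this
      exact this.symm
    have hdφ : dir d = dir (M.φ.symm d) + (M.turn (M.φ.symm d) : ZMod 4) := by
      have := hφ (M.φ.symm d)
      rwa [Equiv.apply_symm_apply] at this
    have hBf := hB (M.left d)
    have hfx : ((xl (M.left d) : ℤ) : ℝ) < xr (M.left d) := by exact_mod_cast hBf.lt_x
    have hfy : ((yb (M.left d) : ℤ) : ℝ) < yt (M.left d) := by exact_mod_cast hBf.lt_y
    by_cases hfo : M.left d = M.outer
    · right
      refine ⟨hfo, ?_⟩
      rw [if_pos hfo] at hBf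
      rintro ⟨i1, i2, i3, i4⟩
      rw [hpos] at i1 i2 i3 i4
      simp only at i1 i2 i3 i4
      have hr3 : r = 0 ∨ r = 1 ∨ r = 2 := by
        have := M.turn_mem (M.φ.symm d)
        omega
      rcases hr3 with rfl | rfl | rfl
      · have h0 : dir d = 0 := by simpa using hdr
        have h1 := (hBf.top d rfl (by rw [h0]; decide)).1
        rw [hd] at h1
        rw [h1] at i4
        exact lt_irrefl _ i4
      · have h3 : dir d = 3 := by
          have : ∀ z : ZMod 4, z + ((1 : ℕ) : ZMod 4) = 0 → z = 3 := by decide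
          exact this _ hdr
        have h1 := (hBf.right d rfl (by rw [h3]; decide)).1
        rw [hd] at h1
        rw [h1] at i2
        exact lt_irrefl _ i2
      · have h2 : dir d = 2 := by
          have : ∀ z : ZMod 4, z + ((2 : ℕ) : ZMod 4) = 0 → z = 2 := by decide
          exact this _ hdr
        have ht : M.turn (M.φ.symm d) = -1 := by
          have := M.turn_mem (M.φ.symm d)
          push_cast at hr
          omega
        have h3 : dir (M.φ.symm d) = 3 := by
          rw [ht, h2] at hdφ
          have : ∀ z : ZMod 4, 2 = z + ((-1 : ℤ) : ZMod 4) → z = 3 := by decide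
          exact this _ hdφ
        have h1 := (hBf.right (M.φ.symm d) hlφ (by rw [h3]; decide)).2.1
        rw [hhφ] at h1
        rw [h1] at i2
        exact lt_irrefl _ i2
    · left
      refine ⟨hfo, ?_⟩
      rw [if_neg hfo] at hBf
      have ht0 := hR (M.φ.symm d) (by rw [hlφ]; exact hfo)
      have hr3 : r = 0 ∨ r = 1 := by
        omega
      unfold RectM.In
      rw [hpos]
      simp only
      rcases hr3 with rfl | rfl
      · have h0 : dir d = 0 := by simpa using hdr
        have h1 := hBf.bottom d rfl (by rw [h0]; decide)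
        have h2 := hx0 d h0
        rw [hd] at h1 h2
        refine ⟨by exact_mod_cast h1.2.2.1, ?_, by exact_mod_cast h1.1.ge, ?_⟩
        · exact_mod_cast h2.trans_le h1.2.2.2.2.2
        · rw [h1.1]
          exact hfy
      · have h3 : dir d = 3 := by
          have : ∀ z : ZMod 4, z + ((1 : ℕ) : ZMod 4) = 0 → z = 3 := by decide
          exact this _ hdr
        have ht : M.turn (M.φ.symm d) = 0 := by
          push_cast at hr
          omega
        have h3' : dir (M.φ.symm d) = 3 := by
          rw [ht, h3] at hdφ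
          simpa using hdφ.symm
        have h1 := hBf.left d rfl (by rw [h3]; decide)
        have h4 := hBf.left (M.φ.symm d) hlφ (by rw [h3']; decide)
        have h5 := hy3 (M.φ.symm d) h3'
        rw [hhφ] at h4 h5
        rw [hd] at h1
        refine ⟨by exact_mod_cast h1.1.ge, ?_, by exact_mod_cast h1.2.2.1, ?_⟩
        · rw [h1.1]
          exact hfx
        · exact_mod_cast h5.trans_le h4.2.2.2.1
  -- segments
  have hseg0 : ∀ d, dir d = 0 → ∀ q ∈ P.seg d, (x (M.tail d) : ℝ) < q.1 ∧ q.1 < x (M.head d) ∧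
      q.2 = y (M.tail d) := by
    intro d hd q hq
    obtain ⟨a, b, ha, hb, hab, rfl⟩ := hq
    have h1 : (x (M.tail d) : ℝ) < x (M.head d) := by exact_mod_cast hx0 d hd
    have h2 := hy0 d hd
    rw [hpos, hpos, ← h2]
    simp only [Prod.smul_mk, Prod.mk_add_mk, smul_eq_mul]
    have ha' : a = 1 - b := by linarith
    subst ha'
    refine ⟨?_, ?_, ?_⟩
    · nlinarith
    · nlinarith
    · ring
  have hseg3 : ∀ d, dir d = 3 → ∀ q ∈ P.seg d, (y (M.head d) : ℝ) < q.2 ∧ q.2 < y (M.tail d) ∧
      q.1 = x (M.tail d) := by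
    intro d hd q hq
    obtain ⟨a, b, ha, hb, hab, rfl⟩ := hq
    have h1 : (y (M.head d) : ℝ) < y (M.tail d) := by exact_mod_cast hy3 d hd
    have h2 := hx3 d hd
    rw [hpos, hpos, ← h2]
    simp only [Prod.smul_mk, Prod.mk_add_mk, smul_eq_mul]
    have ha' : a = 1 - b := by linarith
    subst ha'
    refine ⟨?_, ?_, ?_⟩
    · nlinarith
    · nlinarith
    · ring
  have hsegα : ∀ d, P.seg (M.α d) = P.seg d := by
    intro d
    unfold Draw.seg
    rw [ht, hh, openSegment_symm]
  have hrep : ∀ d, ∃ e, (e = d ∨ e = M.α d) ∧ (dir e = 0 ∨ dir e = 3) ∧ P.seg e = P.seg d ∧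
      ∀ q ∈ P.seg d, R (M.left e) q := by
    intro d
    have key : ∀ e, (dir e = 0 ∨ dir e = 3) → ∀ q ∈ P.seg e, R (M.left e) q := by
      intro e he q hq
      have hBf := hB (M.left e)
      have hfx : ((xl (M.left e) : ℤ) : ℝ) < xr (M.left e) := by exact_mod_cast hBf.lt_x
      have hfy : ((yb (M.left e) : ℤ) : ℝ) < yt (M.left e) := by exact_mod_cast hBf.lt_y
      by_cases hfo : M.left e = M.outer
      · right
        refine ⟨hfo, ?_⟩
        rw [if_pos hfo] at hBf
        rintro ⟨i1, i2, i3, i4⟩
        rcases he with he | he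
        · have h1 := hseg0 e he q hq
          have h2 := (hBf.top e rfl (by rw [he]; decide)).1
          rw [h1.2.2, h2] at i4
          exact lt_irrefl _ i4
        · have h1 := hseg3 e he q hq
          have h2 := (hBf.right e rfl (by rw [he]; decide)).1
          rw [h1.2.2, h2] at i2
          exact lt_irrefl _ i2
      · left
        refine ⟨hfo, ?_⟩
        rw [if_neg hfo] at hBf
        rcases he with he | he
        · have h1 := hseg0 e he q hq
          obtain ⟨g1, g2, g3, g4, g5, g6⟩ := hBf.bottom e rfl (by rw [he]; decide)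
          have g3' : ((xl (M.left e) : ℤ) : ℝ) ≤ x (M.tail e) := by exact_mod_cast g3
          have g6' : (x (M.head e) : ℝ) ≤ xr (M.left e) := by exact_mod_cast g6
          refine ⟨by linarith, by linarith, ?_, ?_⟩
          · rw [h1.2.2, g1]
          · rw [h1.2.2, g1]
            exact hfy
        · have h1 := hseg3 e he q hq
          obtain ⟨g1, g2, g3, g4, g5, g6⟩ := hBf.left e rfl (by rw [he]; decide)
          have g5' : ((yb (M.left e) : ℤ) : ℝ) ≤ y (M.head e) := by exact_mod_cast g5
          have g4' : (y (M.tail e) : ℝ) ≤ yt (M.left e) := by exact_mod_cast g4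
          refine ⟨?_, ?_, by linarith, by linarith⟩
          · rw [h1.2.2, g1]
          · rw [h1.2.2, g1]
            exact hfx
    rcases hcase (dir d) with h | h | h | h
    · exact ⟨d, Or.inl rfl, Or.inl h, rfl, key d (Or.inl h)⟩
    · refine ⟨M.α d, Or.inr rfl, Or.inr ?_, hsegα d, ?_⟩
      · rw [hα, h]; decide
      · rw [← hsegα d]
        exact key _ (Or.inr (by rw [hα, h]; decide))
    · refine ⟨M.α d, Or.inr rfl, Or.inl ?_, hsegα d, ?_⟩
      · rw [hα, h]; decide
      · rw [← hsegα d]
        exact key _ (Or.inl (by rw [hα, h]; decide))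
    · exact ⟨d, Or.inl rfl, Or.inr h, rfl, key d (Or.inr h)⟩
  -- uniform description of the positive darts of a face
  have hface : ∀ f, ∃ Yh Xv : ℤ, (∀ d, M.left d = f → dir d = 0 → y (M.tail d) = Yh ∧
      xl f ≤ x (M.tail d) ∧ x (M.head d) ≤ xr f) ∧
      (∀ d, M.left d = f → dir d = 3 → x (M.tail d) = Xv ∧ yb f ≤ y (M.head d) ∧
        y (M.tail d) ≤ yt f) ∧
      (Yh = yb f ∨ Yh = yt f) ∧ (Xv = xl f ∨ Xv = xr f) ∧
      (∀ d, M.left d = f → dir d = 2 → y (M.tail d) = yb f + yt f - Yh) ∧
      (∀ d, M.left d = f → dir d = 1 → x (M.tail d) = xl f + xr f - Xv) ∧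
      (∀ d, M.left d = f → xl f ≤ x (M.tail d) ∧ x (M.tail d) ≤ xr f ∧ yb f ≤ y (M.tail d) ∧
        y (M.tail d) ≤ yt f) := by
    intro f
    have hBf := hB f
    have hlx := hBf.lt_x
    have hly := hBf.lt_y
    by_cases hfo : f = M.outer
    · rw [if_pos hfo] at hBf
      refine ⟨yt f, xr f, ?_, ?_, Or.inr rfl, Or.inr rfl, ?_, ?_, ?_⟩
      · intro d hd h
        have := hBf.top d hd (by rw [h]; decide)
        exact ⟨this.1, this.2.2.1, this.2.2.2.2.2⟩
      · intro d hd h
        have := hBf.right d hd (by rw [h]; decide)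
        exact ⟨this.1, this.2.2.2.2.1, this.2.2.2.1⟩
      · intro d hd h
        have := hBf.bottom d hd (by rw [h]; decide)
        omega
      · intro d hd h
        have := hBf.left d hd (by rw [h]; decide)
        omega
      · intro d hd
        rcases hcase (dir d) with h | h | h | h
        · have := hBf.top d hd (by rw [h]; decide)
          omega
        · have := hBf.left d hd (by rw [h]; decide)
          omega
        · have := hBf.bottom d hd (by rw [h]; decide)
          omega
        · have := hBf.right d hd (by rw [h]; decide)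
          omega
    · rw [if_neg hfo] at hBf
      refine ⟨yb f, xl f, ?_, ?_, Or.inl rfl, Or.inl rfl, ?_, ?_, ?_⟩
      · intro d hd h
        have := hBf.bottom d hd (by rw [h]; decide)
        exact ⟨this.1, this.2.2.1, this.2.2.2.2.2⟩
      · intro d hd h
        have := hBf.left d hd (by rw [h]; decide)
        exact ⟨this.1, this.2.2.2.2.1, this.2.2.2.1⟩
      · intro d hd h
        have := hBf.top d hd (by rw [h]; decide)
        omega
      · intro d hd h
        have := hBf.right d hd (by rw [h]; decide)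
        omega
      · intro d hd
        rcases hcase (dir d) with h | h | h | h
        · have := hBf.bottom d hd (by rw [h]; decide)
          omega
        · have := hBf.right d hd (by rw [h]; decide)
          omega
        · have := hBf.top d hd (by rw [h]; decide)
          omega
        · have := hBf.left d hd (by rw [h]; decide)
          omega
  refine ⟨P, ?_, ?_, ?_, hw01, huniq, ?_, ?_⟩
  · -- inj
    intro n n' hnn
    obtain ⟨d, hd, h1⟩ := hnode n
    obtain ⟨d', hd', h2⟩ := hnode n'
    rw [← hnn] at h2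
    have hff := hRuniq _ _ _ h1 h2
    rw [hpos, hpos] at hnn
    have hx : x n = x n' := by
      have := congrArg Prod.fst hnn
      simp only at this
      exact_mod_cast this
    have hy : y n = y n' := by
      have := congrArg Prod.snd hnn
      simp only at this
      exact_mod_cast this
    rw [← hd, ← hd']
    exact (hB (M.left d)).node_same d d' rfl hff.symm (by rw [hd, hd', hx]) (by rw [hd, hd', hy])
  · -- node_seg
    intro n d hn
    obtain ⟨e, _, he, hse, hRe⟩ := hrep d
    obtain ⟨d1, hd1, h1⟩ := hnode n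
    have hff := hRuniq _ _ _ (hRe _ hn) h1
    rw [← hse] at hn
    obtain ⟨Yh, Xv, k0, k3, kY, kX, k2, k1, kall⟩ := hface (M.left e)
    have hlx := (hB (M.left e)).lt_x
    have hly := (hB (M.left e)).lt_y
    have ka := kall d1 hff.symm
    rw [hd1] at ka
    rcases he with he | he
    · have hs := hseg0 e he _ hn
      rw [hpos] at hs
      simp only at hs
      have s1 : x (M.tail e) < x n := by exact_mod_cast hs.1
      have s2 : x n < x (M.head e) := by exact_mod_cast hs.2.1
      have s3 : y n = y (M.tail e) := by exact_mod_cast hs.2.2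
      have ke := k0 e rfl he
      rcases hcase (dir d1) with h | h | h | h
      · by_cases hde : d1 = e
        · rw [← hde, hd1] at s1
          exact lt_irrefl _ s1
        · have h4 := (hB (M.left e)).disj_x d1 e hff.symm rfl (by rw [h, he]) (Or.inl h) hde
          rw [hd1] at h4
          have h5 := hx0 d1 h
          rw [hd1] at h5
          have h6 := hx0 e he
          rcases h4 with h4 | h4
          · rw [max_le_iff, le_min_iff, le_min_iff] at h4
            omega
          · rw [max_le_iff, le_min_iff, le_min_iff] at h4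
            omega
      · have := k1 d1 hff.symm h
        rw [hd1] at this
        omega
      · have := k2 d1 hff.symm h
        rw [hd1] at this
        omega
      · have := k3 d1 hff.symm h
        rw [hd1] at this
        omega
    · have hs := hseg3 e he _ hn
      rw [hpos] at hs
      simp only at hs
      have s1 : y (M.head e) < y n := by exact_mod_cast hs.1
      have s2 : y n < y (M.tail e) := by exact_mod_cast hs.2.1
      have s3 : x n = x (M.tail e) := by exact_mod_cast hs.2.2
      have ke := k3 e rfl he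
      rcases hcase (dir d1) with h | h | h | h
      · have := k0 d1 hff.symm h
        rw [hd1] at this
        omega
      · have := k1 d1 hff.symm h
        rw [hd1] at this
        omega
      · have := k2 d1 hff.symm h
        rw [hd1] at this
        omega
      · by_cases hde : d1 = e
        · rw [← hde, hd1] at s2
          exact lt_irrefl _ s2
        · have h4 := (hB (M.left e)).disj_y d1 e hff.symm rfl (by rw [h, he]) (Or.inr h) hde
          rw [hd1] at h4
          have h5 := hy3 d1 h
          rw [hd1] at h5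
          have h6 := hy3 e he
          rcases h4 with h4 | h4
          · rw [max_le_iff, le_min_iff, le_min_iff] at h4
            omega
          · rw [max_le_iff, le_min_iff, le_min_iff] at h4
            omega
  · -- seg_seg
    intro d d' hne hne'
    rw [Set.disjoint_left]
    intro q hq hq'
    obtain ⟨e, hed, he, hse, hRe⟩ := hrep d
    obtain ⟨e', hed', he', hse', hRe'⟩ := hrep d'
    have hff := hRuniq _ _ _ (hRe _ hq) (hRe' _ hq')
    have hee : e ≠ e' := by
      intro h
      rcases hed with h1 | h1 <;> rcases hed' with h2 | h2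
      · exact hne (h2.symm.trans (h.symm.trans h1))
      · apply hne'
        rw [← h1, h, h2, M.α_α]
      · exact hne' (h2.symm.trans (h.symm.trans h1))
      · apply hne
        apply M.α.injective
        rw [← h1, h, h2]
    rw [← hse] at hq
    rw [← hse'] at hq'
    obtain ⟨Yh, Xv, k0, k3, kY, kX, k2, k1, kall⟩ := hface (M.left e)
    have hlx := (hB (M.left e)).lt_x
    have hly := (hB (M.left e)).lt_y
    rcases he with he | he <;> rcases he' with he' | he'
    · have s := hseg0 e he _ hq
      have s' := hseg0 e' he' _ hq'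
      have t := hx0 e he
      have t' := hx0 e' he'
      rcases (hB (M.left e)).disj_x e e' rfl hff.symm (by rw [he, he']) (Or.inl he) hee with h4 | h4
      · rw [max_le_iff, le_min_iff, le_min_iff] at h4
        have h5 : (x (M.head e) : ℝ) ≤ x (M.tail e') := by exact_mod_cast h4.2.1
        linarith [s.2.1, s'.1]
      · rw [max_le_iff, le_min_iff, le_min_iff] at h4
        have h5 : (x (M.head e') : ℝ) ≤ x (M.tail e) := by exact_mod_cast h4.2.1
        linarith [s'.2.1, s.1]
    · have s := hseg0 e he _ hq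
      have s' := hseg3 e' he' _ hq'
      have ke := k0 e rfl he
      have ke' := k3 e' hff.symm he'
      have h1 : (x (M.tail e) : ℝ) < x (M.tail e') := by rw [← s'.2.2]; exact s.1
      have h2 : (x (M.tail e') : ℝ) < x (M.head e) := by rw [← s'.2.2]; exact s.2.1
      have h3 : x (M.tail e) < x (M.tail e') := by exact_mod_cast h1
      have h4 : x (M.tail e') < x (M.head e) := by exact_mod_cast h2
      omega
    · have s := hseg3 e he _ hq
      have s' := hseg0 e' he' _ hq'
      have ke := k3 e rfl he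
      have ke' := k0 e' hff.symm he'
      have h1 : (x (M.tail e') : ℝ) < x (M.tail e) := by rw [← s.2.2]; exact s'.1
      have h2 : (x (M.tail e) : ℝ) < x (M.head e') := by rw [← s.2.2]; exact s'.2.1
      have h3 : x (M.tail e') < x (M.tail e) := by exact_mod_cast h1
      have h4 : x (M.tail e) < x (M.head e') := by exact_mod_cast h2
      omega
    · have s := hseg3 e he _ hq
      have s' := hseg3 e' he' _ hq'
      have t := hy3 e he
      have t' := hy3 e' he'
      rcases (hB (M.left e)).disj_y e e' rfl hff.symm (by rw [he, he']) (Or.inr he) hee with h4 | h4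
      · rw [max_le_iff, le_min_iff, le_min_iff] at h4
        have h5 : (y (M.tail e) : ℝ) ≤ y (M.head e') := by exact_mod_cast h4.1.2
        linarith [s.2.1, s'.1]
      · rw [max_le_iff, le_min_iff, le_min_iff] at h4
        have h5 : (y (M.tail e') : ℝ) ≤ y (M.head e) := by exact_mod_cast h4.1.2
        linarith [s'.2.1, s.1]
  · -- wind_node
    intro f n hf hw
    obtain ⟨d, hd, h1⟩ := hnode n
    have : f = M.left d := hRuniq _ _ _ (Or.inl ⟨hf, (hw1 f _ hf).1 hw⟩) h1
    exact ⟨d, hd, this.symm⟩
  · -- wind_seg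
    intro f d hf q hq hw
    obtain ⟨e, hed, he, hse, hRe⟩ := hrep d
    have : f = M.left e := hRuniq _ _ _ (Or.inl ⟨hf, (hw1 f _ hf).1 hw⟩) (hRe _ hq)
    rcases hed with h | h
    · left; rw [this, h]
    · right; rw [this, h]; rfl

end

end Pool.Agent.Lib.MP_9ad789_co
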