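import Pool.Agent.Lib.MP_9ad789_co.Cell

/-! # MP_9ad789_co : subdividing an edge of a flat map -/

set_option linter.unusedSectionVars false

namespace Pool.Agent.Lib.MP_9ad789_co

open Equiv Finset

variable {D N F : Type} [Fintype D] [Fintype N] [Fintype F]
  [DecidableEq D] [DecidableEq N] [DecidableEq F]

/-- `M'` is `M` with the edge of `c` subdivided: `inr false` is the second half of `c`,
`inr true` the second half of `α c`. -/
structure IsSub (M : Flat D N F) (c : D) (M' : Flat (D ⊕ Bool) (Option N) F) : Prop where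
  outer : M'.outer = M.outer
  α_c : M'.α (.inl c) = .inr true
  α_c' : M'.α (.inl (M.α c)) = .inr false
  α_f : M'.α (.inr false) = .inl (M.α c)
  α_t : M'.α (.inr true) = .inl c
  α_o : ∀ d, d ≠ c → d ≠ M.α c → M'.α (.inl d) = .inl (M.α d)
  φ_c : M'.φ (.inl c) = .inr false
  φ_f : M'.φ (.inr false) = .inl (M.φ c)
  φ_c' : M'.φ (.inl (M.α c)) = .inr true
  φ_t : M'.φ (.inr true) = .inl (M.φ (M.α c))
  φ_o : ∀ d, d ≠ c → d ≠ M.α c → M'.φ (.inl d) = .inl (M.φ d)
  tail_l : ∀ d, M'.tail (.inl d) = some (M.tail d)
  tail_r : ∀ b, M'.tail (.inr b) = none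
  left_l : ∀ d, M'.left (.inl d) = M.left d
  left_f : M'.left (.inr false) = M.left c
  left_t : M'.left (.inr true) = M.right c
  turn_c : M'.turn (.inl c) = 0
  turn_c' : M'.turn (.inl (M.α c)) = 0
  turn_f : M'.turn (.inr false) = M.turn c
  turn_t : M'.turn (.inr true) = M.turn (M.α c)
  turn_o : ∀ d, d ≠ c → d ≠ M.α c → M'.turn (.inl d) = M.turn d

namespace Sub

variable (M : Flat D N F) (c : D)

/-- reversal as a function -/
def fα : D ⊕ Bool → D ⊕ Bool
  | .inl d => if d = c then .inr true else if d = M.α c then .inr false else .inl (M.α d)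
  | .inr false => .inl (M.α c)
  | .inr true => .inl c

theorem fα_c : fα M c (.inl c) = .inr true := by simp [fα]

theorem fα_c' : fα M c (.inl (M.α c)) = .inr false := by
  simp [fα, M.α_ne c]

theorem fα_o {d : D} (h1 : d ≠ c) (h2 : d ≠ M.α c) : fα M c (.inl d) = .inl (M.α d) := by
  simp [fα, h1, h2]

theorem fα_fα (x : D ⊕ Bool) : fα M c (fα M c x) = x := by
  rcases x with d | (_ | _)
  · by_cases h1 : d = c
    · subst h1; rw [fα_c]; rfl
    · by_cases h2 : d = M.α c
      · subst h2; rw [fα_c']; rfl
      · rw [fα_o M c h1 h2]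
        have h3 : M.α d ≠ c := fun h => h2 (by rw [← h, M.α_α])
        have h4 : M.α d ≠ M.α c := fun h => h1 (M.α.injective h)
        rw [fα_o M c h3 h4, M.α_α]
  · change fα M c (.inl (M.α c)) = _
    rw [fα_c']
  · change fα M c (.inl c) = _
    rw [fα_c]

/-- reversal -/
def sα : Perm (D ⊕ Bool) where
  toFun := fα M c
  invFun := fα M c
  left_inv := fα_fα M c
  right_inv := fα_fα M c

/-- face successor as a function -/
def fφ : D ⊕ Bool → D ⊕ Bool
  | .inl d => if d = c then .inr false else if d = M.α c then .inr true else .inl (M.φ d)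
  | .inr false => .inl (M.φ c)
  | .inr true => .inl (M.φ (M.α c))

/-- face predecessor -/
def gφ : D ⊕ Bool → D ⊕ Bool
  | .inl d => if d = M.φ c then .inr false else if d = M.φ (M.α c) then .inr true
      else .inl (M.φ.symm d)
  | .inr false => .inl c
  | .inr true => .inl (M.α c)

theorem fφ_c : fφ M c (.inl c) = .inr false := by simp [fφ]
theorem fφ_c' : fφ M c (.inl (M.α c)) = .inr true := by simp [fφ, M.α_ne c]
theorem fφ_o {d : D} (h1 : d ≠ c) (h2 : d ≠ M.α c) : fφ M c (.inl d) = .inl (M.φ d) := by
  simp [fφ, h1, h2]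

theorem gφ_f : gφ M c (.inl (M.φ c)) = .inr false := by simp [gφ]
theorem gφ_t : gφ M c (.inl (M.φ (M.α c))) = .inr true := by simp [gφ, M.α_ne c]
theorem gφ_o {d : D} (h1 : d ≠ M.φ c) (h2 : d ≠ M.φ (M.α c)) :
    gφ M c (.inl d) = .inl (M.φ.symm d) := by
  simp [gφ, h1, h2]

/-- face successor -/
def sφ : Perm (D ⊕ Bool) where
  toFun := fφ M c
  invFun := gφ M c
  left_inv := by
    rintro (d | (_ | _))
    · by_cases h1 : d = c
      · subst h1; rw [fφ_c]; rfl
      · by_cases h2 : d = M.α c
        · subst h2; rw [fφ_c']; rfl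
        · rw [fφ_o M c h1 h2, gφ_o, Equiv.symm_apply_apply]
          · exact fun h => h1 (M.φ.injective h)
          · exact fun h => h2 (M.φ.injective h)
    · exact gφ_f M c
    · exact gφ_t M c
  right_inv := by
    rintro (d | (_ | _))
    · by_cases h1 : d = M.φ c
      · subst h1; rw [gφ_f]; rfl
      · by_cases h2 : d = M.φ (M.α c)
        · subst h2; rw [gφ_t]; rfl
        · rw [gφ_o M c h1 h2, fφ_o, Equiv.apply_symm_apply]
          · exact fun h => h1 (by rw [← h, Equiv.apply_symm_apply])
          · exact fun h => h2 (by rw [← h, Equiv.apply_symm_apply])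
    · exact fφ_c M c
    · exact fφ_c' M c

/-- start -/
def sTail : D ⊕ Bool → Option N
  | .inl d => some (M.tail d)
  | .inr _ => none

/-- left face -/
def sLeft : D ⊕ Bool → F
  | .inl d => M.left d
  | .inr false => M.left c
  | .inr true => M.left (M.α c)

/-- the cell decomposition -/
def cell : Cell (D ⊕ Bool) (Option N) F where
  α := sα M c
  φ := sφ M c
  tail := sTail M
  left := sLeft M c
  α_α := fα_fα M c
  α_ne := by
    rintro (d | (_ | _))
    · change fα M c (.inl d) ≠ _
      by_cases h1 : d = c
      · subst h1; rw [fα_c]; simp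
      · by_cases h2 : d = M.α c
        · subst h2; rw [fα_c']; simp
        · rw [fα_o M c h1 h2]
          exact fun h => M.α_ne d (Sum.inl.inj h)
    · change (Sum.inl (M.α c) : D ⊕ Bool) ≠ _; simp
    · change (Sum.inl c : D ⊕ Bool) ≠ _; simp
  tail_φ := by
    rintro (d | (_ | _))
    · change sTail M (fφ M c (.inl d)) = sTail M (fα M c (.inl d))
      by_cases h1 : d = c
      · subst h1; rw [fφ_c, fα_c]; rfl
      · by_cases h2 : d = M.α c
        · subst h2; rw [fφ_c', fα_c']; rfl
        · rw [fφ_o M c h1 h2, fα_o M c h1 h2]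
          exact congrArg some (M.tail_φ d)
    · exact congrArg some (M.tail_φ c)
    · have := M.tail_φ (M.α c)
      rw [M.α_α] at this
      exact congrArg some this
  left_φ := by
    rintro (d | (_ | _))
    · change sLeft M c (fφ M c (.inl d)) = M.left d
      by_cases h1 : d = c
      · subst h1; rw [fφ_c]; rfl
      · by_cases h2 : d = M.α c
        · subst h2; rw [fφ_c']; rfl
        · rw [fφ_o M c h1 h2]
          exact M.left_φ d
    · exact M.left_φ c
    · exact M.left_φ (M.α c)
  tail_surj := by
    rintro (_ | n)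
    · exact ⟨.inr false, rfl⟩
    · obtain ⟨d, rfl⟩ := M.tail_surj n
      exact ⟨.inl d, rfl⟩
  left_surj := by
    intro f
    obtain ⟨d, rfl⟩ := M.left_surj f
    exact ⟨.inl d, rfl⟩
  conn := by
    intro S hne hα hφ
    have hcf : (.inl c : D ⊕ Bool) ∈ S → .inr false ∈ S := fun h => by
      have := hφ _ h
      change fφ M c (.inl c) ∈ S at this
      rwa [fφ_c] at this
    have hc't : (.inl (M.α c) : D ⊕ Bool) ∈ S → .inr true ∈ S := fun h => by
      have := hφ _ h
      change fφ M c (.inl (M.α c)) ∈ S at this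
      rwa [fφ_c'] at this
    have hfc' : (.inr false : D ⊕ Bool) ∈ S → .inl (M.α c) ∈ S := fun h => hα _ h
    have htc : (.inr true : D ⊕ Bool) ∈ S → .inl c ∈ S := fun h => hα _ h
    have h0 : {d : D | .inl d ∈ S} = Set.univ := by
      apply M.conn
      · obtain ⟨x, hx⟩ := hne
        rcases x with d | (_ | _)
        · exact ⟨d, hx⟩
        · exact ⟨_, hfc' hx⟩
        · exact ⟨_, htc hx⟩
      · intro d hd
        by_cases h1 : d = c
        · subst h1
          exact hfc' (hcf hd)
        · by_cases h2 : d = M.α c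
          · subst h2
            change (Sum.inl (M.α (M.α c)) : D ⊕ Bool) ∈ S
            rw [M.α_α]
            exact htc (hc't hd)
          · have := hα _ hd
            change fα M c (.inl d) ∈ S at this
            rw [fα_o M c h1 h2] at this
            exact this
      · intro d hd
        by_cases h1 : d = c
        · subst h1
          exact hφ _ (hcf hd)
        · by_cases h2 : d = M.α c
          · subst h2
            exact hφ _ (hc't hd)
          · have := hφ _ hd
            change fφ M c (.inl d) ∈ S at this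
            rw [fφ_o M c h1 h2] at this
            exact this
    have hall : ∀ d : D, (.inl d : D ⊕ Bool) ∈ S := fun d => by
      have : d ∈ ({d : D | .inl d ∈ S} : Set D) := by rw [h0]; exact Set.mem_univ _
      exact this
    rw [Set.eq_univ_iff_forall]
    rintro (d | (_ | _))
    · exact hall d
    · exact hcf (hall c)
    · exact hc't (hall (M.α c))

theorem gφ_eq (x : D ⊕ Bool) : (cell M c).φ.symm x = gφ M c x := rfl

theorem σ_inl (d : D) : (cell M c).σ (.inl d) = .inl (M.σ d) := by
  rw [Cell.σ_apply, gφ_eq]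
  change fα M c _ = _
  by_cases h1 : d = M.φ c
  · subst h1
    rw [gφ_f, M.σ_φ]; rfl
  · by_cases h2 : d = M.φ (M.α c)
    · subst h2
      rw [gφ_t, M.σ_φ, M.α_α]; rfl
    · rw [gφ_o M c h1 h2, fα_o]
      · rfl
      · exact fun h => h1 (by rw [← h, Equiv.apply_symm_apply])
      · exact fun h => h2 (by rw [← h, Equiv.apply_symm_apply])

theorem σ_pow_inl (d : D) (k : ℕ) : ((cell M c).σ ^ k) (.inl d) = .inl ((M.σ ^ k) d) := by
  induction k with
  | zero => rfl
  | succ k ih =>
    rw [pow_succ', pow_succ', Equiv.Perm.mul_apply, Equiv.Perm.mul_apply, ih, σ_inl]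

theorem φ_same (d : D) : (cell M c).φ.SameCycle (.inl d) (.inl (M.φ d)) := by
  by_cases h1 : d = c
  · subst h1
    refine ⟨2, ?_⟩
    change fφ M d (fφ M d (.inl d)) = _
    rw [fφ_c]; rfl
  · by_cases h2 : d = M.α c
    · subst h2
      refine ⟨2, ?_⟩
      change fφ M c (fφ M c (.inl (M.α c))) = _
      rw [fφ_c']; rfl
    · refine ⟨1, ?_⟩
      change fφ M c (.inl d) = _
      rw [fφ_o M c h1 h2]

theorem φ_same_pow (d : D) (k : ℕ) :
    (cell M c).φ.SameCycle (.inl d) (.inl ((M.φ ^ k) d)) := by
  induction k with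
  | zero => exact Equiv.Perm.SameCycle.refl _ _
  | succ k ih =>
    rw [pow_succ', Equiv.Perm.mul_apply]
    exact ih.trans (φ_same M c _)

theorem φ_same_f : (cell M c).φ.SameCycle (.inr false) (.inl c) := by
  refine Equiv.Perm.SameCycle.symm ⟨1, ?_⟩
  change fφ M c (.inl c) = _
  rw [fφ_c]

theorem φ_same_t : (cell M c).φ.SameCycle (.inr true) (.inl (M.α c)) := by
  refine Equiv.Perm.SameCycle.symm ⟨1, ?_⟩
  change fφ M c (.inl (M.α c)) = _
  rw [fφ_c']

/-- representative of a dart in `D` on the same face -/
def rep : D ⊕ Bool → D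
  | .inl d => d
  | .inr false => c
  | .inr true => M.α c

theorem rep_same (x : D ⊕ Bool) : (cell M c).φ.SameCycle x (.inl (rep M c x)) := by
  rcases x with d | (_ | _)
  · exact Equiv.Perm.SameCycle.refl _ _
  · exact φ_same_f M c
  · exact φ_same_t M c

theorem left_rep (x : D ⊕ Bool) : (cell M c).left x = M.left (rep M c x) := by
  rcases x with d | (_ | _) <;> rfl

theorem same_of (d e : D) (h : M.φ.SameCycle d e) : (cell M c).φ.SameCycle (.inl d) (.inl e) := by
  obtain ⟨k, _, hk⟩ := h.exists_pow_eq'
  rw [← hk]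
  exact φ_same_pow M c d k

/-- turns -/
def sTurn : D ⊕ Bool → ℤ
  | .inl d => if d = c ∨ d = M.α c then 0 else M.turn d
  | .inr false => M.turn c
  | .inr true => M.turn (M.α c)

theorem turn_prev (d : D) : sTurn M c (gφ M c (.inl d)) = M.turn (M.φ.symm d) := by
  by_cases h1 : d = M.φ c
  · subst h1
    rw [gφ_f, Equiv.symm_apply_apply]; rfl
  · by_cases h2 : d = M.φ (M.α c)
    · subst h2
      rw [gφ_t, Equiv.symm_apply_apply]; rfl
    · rw [gφ_o M c h1 h2]
      have h3 : ¬ (M.φ.symm d = c ∨ M.φ.symm d = M.α c) := by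
        rintro (h | h)
        · exact h1 (by rw [← h, Equiv.apply_symm_apply])
        · exact h2 (by rw [← h, Equiv.apply_symm_apply])
      simp only [sTurn, if_neg h3]

/-- the subdivided flat map -/
def flat : Flat (D ⊕ Bool) (Option N) F where
  toCell := cell M c
  turn := sTurn M c
  outer := M.outer
  tight := by
    refine ⟨?_, ?_⟩
    · rintro (d | b) (e | b') h
      · have h1 : M.tail d = M.tail e := Option.some.inj h
        obtain ⟨k, _, hk⟩ := (M.tight.tail_same d e h1).exists_pow_eq'
        refine ⟨k, ?_⟩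
        rw [zpow_natCast, σ_pow_inl, hk]
      · exact absurd h (by change some _ ≠ none; simp)
      · exact absurd h (by change none ≠ some _; simp)
      · have hft : (cell M c).σ (.inr false) = .inr true := by
          rw [Cell.σ_apply, gφ_eq]
          change fα M c (.inl c) = _
          rw [fα_c]
        have hs : (cell M c).σ.SameCycle (.inr false) (.inr true) := ⟨1, hft⟩
        rcases b with _ | _ <;> rcases b' with _ | _
        · exact Equiv.Perm.SameCycle.refl _ _
        · exact hs
        · exact hs.symm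
        · exact Equiv.Perm.SameCycle.refl _ _
    · intro x y h
      rw [left_rep, left_rep] at h
      exact ((rep_same M c x).trans (same_of M c _ _ (M.tight.left_same _ _ h))).trans
        (rep_same M c y).symm
  turn_mem := by
    rintro (d | (_ | _))
    · by_cases h : d = c ∨ d = M.α c
      · right; left
        simp only [sTurn, if_pos h]
      · simp only [sTurn, if_neg h]
        exact M.turn_mem d
    · exact M.turn_mem c
    · exact M.turn_mem (M.α c)
  face_sum := by
    intro f
    rw [← M.face_sum f]
    change ∑ x with sLeft M c x = f, sTurn M c x = _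
    rw [sum_filter, Fintype.sum_sum_type, sum_filter, Fintype.sum_bool]
    change (∑ d : D, (if M.left d = f then (if d = c ∨ d = M.α c then 0 else M.turn d) else 0)) +
      ((if M.left (M.α c) = f then M.turn (M.α c) else 0) +
        (if M.left c = f then M.turn c else 0)) = _
    have h1 : ∀ d, (if M.left d = f then (if d = c ∨ d = M.α c then 0 else M.turn d) else 0)
        = (if M.left d = f then M.turn d else 0)
          - ((if d = c then (if M.left c = f then M.turn c else 0) else 0)
            + (if d = M.α c then (if M.left (M.α c) = f then M.turn (M.α c) else 0) else 0)) := by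
      intro d
      by_cases h1 : d = c
      · subst h1
        have : d ≠ M.α d := (M.α_ne d).symm
        simp [this]
      · by_cases h2 : d = M.α c
        · subst h2
          simp [M.α_ne c]
        · simp [h1, h2]
    rw [sum_congr rfl (fun d _ => h1 d), sum_sub_distrib, sum_add_distrib, sum_ite_eq' univ,
      sum_ite_eq' univ, if_pos (mem_univ _), if_pos (mem_univ _)]
    ring
  node_sum := by
    rintro (_ | n)
    · change ∑ x with sTail M x = none, (2 - sTurn M c (gφ M c x)) = 4
      rw [sum_filter, Fintype.sum_sum_type, Fintype.sum_bool]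
      simp [sTail, gφ, sTurn]
    · rw [← M.node_sum n]
      change ∑ x with sTail M x = some n, (2 - sTurn M c (gφ M c x)) = _
      rw [sum_filter, Fintype.sum_sum_type, sum_filter, Fintype.sum_bool]
      simp only [sTail, Option.some.injEq, reduceCtorEq, if_false, add_zero]
      apply sum_congr rfl
      intro d _
      rw [turn_prev]

end Sub

open Pool.Agent.Lib.MP_9ad789_co.Sub in
theorem exists_sub (M : Flat D N F) (c : D) :
    ∃ M' : Flat (D ⊕ Bool) (Option N) F, IsSub M c M' := by
  refine ⟨Sub.flat M c, rfl, fα_c M c, fα_c' M c, rfl, rfl, fun d h1 h2 => fα_o M c h1 h2,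
    fφ_c M c, rfl, fφ_c' M c, rfl, fun d h1 h2 => fφ_o M c h1 h2, fun d => rfl, fun b => rfl,
    fun d => rfl, rfl, rfl, ?_, ?_, rfl, rfl, ?_⟩
  · change sTurn M c (.inl c) = 0
    simp [sTurn]
  · change sTurn M c (.inl (M.α c)) = 0
    simp [sTurn]
  · intro d h1 h2
    change sTurn M c (.inl d) = _
    simp [sTurn, h1, h2]

end Pool.Agent.Lib.MP_9ad789_co
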