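import Pool.Agent.Lib.MP_9ad789_co.Cell

/-!
# MP_9ad789_co, module OPV: the representation from the drawing of the expanded map
-/

namespace Pool.Agent.Lib.MP_9ad789_co

open Equiv Finset

namespace Opv

/-! ### Crossings -/

section crossings

variable {V R : Type} (X : XMap V R)

theorem crsGet_eq {d : {d : R // X.Crossed d}} {e : R} (h : X.crs d.1 = some e) :
    X.crsGet d = e := by
  have := X.crs_crsGet d
  rw [h] at this
  exact (Option.some_inj.mp this).symm

/-- The four crossed edge-ends of the crossing of `d`. -/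
theorem xn_eq_iff (d e : {d : R // X.Crossed d}) (h : X.xn d = X.xn e) :
    (e : R) = d ∨ (e : R) = X.crsGet d ∨ (e : R) = X.opp d ∨ (e : R) = X.opp (X.crsGet d) := by
  have h' : Relation.EqvGen (fun a b : {d : R // X.Crossed d} => (b : R) = X.crsGet a) d e :=
    Quotient.exact h
  -- the set `T d` of four elements is the same for related elements
  have key : ∀ a b : {d : R // X.Crossed d},
      Relation.EqvGen (fun a b : {d : R // X.Crossed d} => (b : R) = X.crsGet a) a b →
      ({(a : R), X.crsGet a, X.opp a, X.opp (X.crsGet a)} : Set R) =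
      {(b : R), X.crsGet b, X.opp b, X.opp (X.crsGet b)} := by
    intro a b hab
    induction hab with
    | rel a b hab =>
      have h1 := X.crs_crsGet a
      have h2 := X.crs_crs _ _ h1
      have h3 : X.crsGet b = X.opp a := crsGet_eq X (by rw [hab]; exact h2)
      rw [h3, hab, X.opp_opp]
      ext x
      simp only [Set.mem_insert_iff, Set.mem_singleton_iff]
      tauto
    | refl a => rfl
    | symm a b _ ih => exact ih.symm
    | trans a b c _ _ ih1 ih2 => exact ih1.trans ih2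
  have := key d e h'
  have he : (e : R) ∈ ({(d : R), X.crsGet d, X.opp d, X.opp (X.crsGet d)} : Set R) := by
    rw [this]; simp
  simpa using he

end crossings

/-! ### The expanded map -/

section expansion

variable {V R : Type} [Fintype R] {Y : XMap V R} {S : R → ℤ} [DecidableEq (Y.EN S)]
  [DecidableEq (Y.EF S)] {inf : V} {M : Flat (Y.ED S) (Y.EN S) (Y.EF S)}

/-- Forward dart of a side. -/
abbrev fwd (y : Y.Side S) : Y.ED S := .inr (y, false)

/-- Backward dart of a side. -/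
abbrev bwd (y : Y.Side S) : Y.ED S := .inr (y, true)

/-- First piece of the edge of `r`. -/
abbrev ed (r : R) : Y.ED S := .inl (.inl r)

/-- The same backwards. -/
abbrev md (r : {d : R // Y.Crossed d}) : Y.ED S := .inl (.inr r)

variable (hM : Y.IsExpansion S inf M) (P : Draw M)

include hM

theorem dir_sideNext (y : Y.Side S) : P.dir (fwd (Y.sideNext S y)) =
    P.dir (fwd y) + ((if (y.2 : ℕ) < (S y.1).natAbs then (S y.1).sign else 0 : ℤ) : ZMod 4) := by
  have h := P.dir_φ (fwd y)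
  rw [hM.φ_eq, hM.turn_eq] at h
  exact h

theorem dir_next_zero {y : Y.Side S} (h : ¬ (y.2 : ℕ) < (S y.1).natAbs) :
    P.dir (fwd (Y.sideNext S y)) = P.dir (fwd y) := by
  rw [dir_sideNext hM P, if_neg h]
  simp

theorem head_fwd (y : Y.Side S) : M.head (fwd y) = .inl (Y.sideNext S y) := by
  show M.tail (M.α (fwd y)) = _
  rw [hM.α_eq, hM.tail_eq]
  rfl

theorem tail_fwd (y : Y.Side S) : M.tail (fwd y) = .inl y := by
  rw [hM.tail_eq]; rfl

theorem dir_ed (r : R) : P.dir (ed (S := S) r) = P.dir (fwd ⟨r, 0⟩) - 1 := by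
  have h := P.dir_φ (bwd (Y := Y) (S := S) ⟨r, 0⟩)
  have h1 := P.dir_α (fwd (Y := Y) (S := S) ⟨r, 0⟩)
  rw [hM.α_eq] at h1
  rw [hM.φ_eq, hM.turn_eq] at h
  have e1 : Y.eφ S (bwd ⟨r, 0⟩) = ed r := by simp [XMap.eφ]
  have e2 : Y.eturn S (bwd ⟨r, 0⟩) = 1 := by simp [XMap.eturn]
  have e3 : Y.eα S (fwd ⟨r, 0⟩) = bwd ⟨r, 0⟩ := by simp [XMap.eα]
  rw [e1, e2] at h
  rw [e3] at h1
  rw [h, h1]
  push_cast
  have : (2 : ZMod 4) + 1 = -1 := by decide
  rw [add_assoc, this]
  ring

theorem head_ed_of_not (r : R) (hr : ¬ Y.Crossed r) : M.head (ed r) = .inl ⟨Y.opp r, 0⟩ := by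
  show M.tail (M.α (ed r)) = _
  rw [hM.α_eq, hM.tail_eq]
  simp [XMap.eα, XMap.rev, hr, XMap.etail]

theorem α_ed_of_not (r : R) (hr : ¬ Y.Crossed r) : M.α (ed r) = ed (Y.opp r) := by
  rw [hM.α_eq]
  simp [XMap.eα, XMap.rev, hr]

theorem α_ed (r : R) (hr : Y.Crossed r) : M.α (ed r) = md ⟨r, hr⟩ := by
  rw [hM.α_eq]
  simp [XMap.eα, XMap.rev, hr]

theorem α_md (r : {d : R // Y.Crossed d}) : M.α (md r) = ed r.1 := by
  rw [hM.α_eq]
  simp [XMap.eα, XMap.rev]

theorem head_ed (r : R) (hr : Y.Crossed r) : M.head (ed r) = .inr (Y.xn ⟨r, hr⟩) := by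
  show M.tail (M.α (ed r)) = _
  rw [α_ed hM r hr, hM.tail_eq]
  rfl

theorem tail_md (r : {d : R // Y.Crossed d}) : M.tail (md r) = .inr (Y.xn r) := by
  rw [hM.tail_eq]; rfl

theorem head_md (r : {d : R // Y.Crossed d}) : M.head (md r) = .inl ⟨r.1, 0⟩ := by
  show M.tail (M.α (md r)) = _
  rw [α_md hM, hM.tail_eq]
  rfl

theorem tail_ed (r : R) : M.tail (ed r) = .inl ⟨r, 0⟩ := by
  rw [hM.tail_eq]; rfl

theorem dir_md_opp (r : R) (e : R) (hr : Y.crs r = some e)
    (h : Y.Crossed (Y.opp e)) : P.dir (md ⟨Y.opp e, h⟩) = P.dir (ed r) + 1 := by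
  have hc : Y.Crossed r := Option.isSome_iff_exists.mpr ⟨_, hr⟩
  have h1 := P.dir_φ (ed (Y := Y) (S := S) r)
  rw [hM.φ_eq, hM.turn_eq] at h1
  have e1 : Y.eφ S (ed r) = md ⟨Y.opp e, h⟩ := by
    have hn : Y.next (.inl r) = .inr ⟨Y.opp e, h⟩ := by
      have : Y.crsGet ⟨r, hc⟩ = e := crsGet_eq Y hr
      simp only [XMap.next, hc, dif_pos]
      congr 2
      rw [this]
    simp only [XMap.eφ, hn]
  rw [e1] at h1
  simpa [XMap.eturn] using h1

theorem dir_md (r : {d : R // Y.Crossed d}) : P.dir (md r) = P.dir (ed r.1) + 2 := by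
  have h := P.dir_α (ed (Y := Y) (S := S) r.1)
  rw [α_ed hM r.1 r.2] at h
  exact h

/-- Straightness at a crossing. -/
theorem dir_straight (r : R) (h : Y.Crossed (Y.opp r)) (hr : Y.Crossed r) :
    P.dir (md ⟨Y.opp r, h⟩) = P.dir (ed r) := by
  obtain ⟨e, he⟩ := Option.isSome_iff_exists.mp hr
  have h1 := Y.crs_crs _ _ he
  have h2 := Y.crs_opp h1
  rw [Y.opp_opp] at h2
  have hce : Y.Crossed (Y.opp e) := Option.isSome_iff_exists.mpr ⟨_, h2⟩
  have a1 := dir_md_opp hM P r e he hce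
  have a2 := dir_md_opp hM P (Y.opp e) r h2 h
  have a3 := dir_md hM P ⟨Y.opp e, hce⟩
  simp only at a3
  rw [a2]
  rw [a1] at a3
  have : P.dir (ed (S := S) (Y.opp e)) = P.dir (ed r) + 1 - 2 := by rw [a3]; ring
  rw [this]; ring

theorem dir_cross (r e : R) (hr : Y.crs r = some e) :
    P.dir (ed (S := S) e) = P.dir (ed r) + 1 := by
  have h1 := Y.crs_crs _ _ hr
  have h2 := Y.crs_opp h1
  rw [Y.opp_opp] at h2
  have hce : Y.Crossed e := Option.isSome_iff_exists.mpr ⟨_, h1⟩
  have hceo : Y.Crossed (Y.opp e) := Option.isSome_iff_exists.mpr ⟨_, h2⟩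
  rw [← dir_straight hM P e hceo hce, dir_md_opp hM P r e hr hceo]

end expansion

section main

set_option linter.unusedSectionVars false

variable {V : Type} [Fintype V] [DecidableEq V] {G : SimpleGraph V} [DecidableRel G.Adj]
  {E : OnePlane G} {Y : XMap (Option V) (G.Dart ⊕ Bool)}
  {s : G.Dart → ℤ} [DecidableEq (Y.EN (XMap.addS s))] [DecidableEq (Y.EF (XMap.addS s))]
  {M : Flat (Y.ED (XMap.addS s)) (Y.EN (XMap.addS s)) (Y.EF (XMap.addS s))}

/-- Side number `i` after the end of `d`; for `i = k d + 1` the first side after `rot d`. -/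
def sd (E : OnePlane G) (Y : XMap (Option V) (G.Dart ⊕ Bool)) (s : G.Dart → ℤ) (d : G.Dart)
    (i : ℕ) : Y.Side (XMap.addS s) :=
  if h : i < (s d).natAbs + 1 then ⟨.inl d, ⟨i, h⟩⟩ else ⟨.inl (E.rot d), 0⟩

/-- The side after the pendant edge. -/
def yf (Y : XMap (Option V) (G.Dart ⊕ Bool)) (s : G.Dart → ℤ) : Y.Side (XMap.addS s) :=
  ⟨.inr false, 0⟩

theorem sd_of_le {d : G.Dart} {i : ℕ} (h : i ≤ (s d).natAbs) :
    sd E Y s d i = ⟨.inl d, ⟨i, Nat.lt_succ_of_le h⟩⟩ := by
  simp [sd, Nat.lt_succ_of_le h]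

theorem sd_succ_last (d : G.Dart) : sd E Y s d ((s d).natAbs + 1) = ⟨.inl (E.rot d), 0⟩ := by
  simp [sd]

theorem sideNext_lt {d : G.Dart} {i : ℕ} (h : i < (s d).natAbs) :
    Y.sideNext (XMap.addS s) (sd E Y s d i) = sd E Y s d (i + 1) := by
  rw [sd_of_le h.le, sd_of_le (i := i + 1) h]
  have h' : i < (XMap.addS s (.inl d : G.Dart ⊕ Bool)).natAbs := h
  unfold XMap.sideNext
  rw [dif_pos h']

theorem side0_congr {V R : Type} {Y : XMap V R} {S : R → ℤ} {r r' : R} (h : r = r') :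
    (⟨r, 0⟩ : Y.Side S) = ⟨r', 0⟩ := by subst h; rfl

theorem rot_inl (hY : E.toXMap.IsAddInf E.outer Y) {d : G.Dart} (hd : d ≠ E.outer) :
    Y.rot (.inl d) = .inl (E.rot d) := by
  rw [hY.rot]; simp [XMap.addRot, hd]

theorem rot_outer (hY : E.toXMap.IsAddInf E.outer Y) :
    Y.rot (.inl E.outer) = .inr false := by
  rw [hY.rot]; simp [XMap.addRot]

theorem rot_false (hY : E.toXMap.IsAddInf E.outer Y) :
    Y.rot (.inr false) = .inl (E.rot E.outer) := by
  rw [hY.rot]; simp [XMap.addRot]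

theorem sideNext_last (hY : E.toXMap.IsAddInf E.outer Y) {d : G.Dart} (hd : d ≠ E.outer) :
    Y.sideNext (XMap.addS s) (sd E Y s d (s d).natAbs) = sd E Y s d ((s d).natAbs + 1) := by
  rw [sd_of_le le_rfl, sd_succ_last]
  have h' : ¬ ((s d).natAbs < (XMap.addS s (.inl d : G.Dart ⊕ Bool)).natAbs) := lt_irrefl _
  unfold XMap.sideNext
  rw [dif_neg h']
  exact side0_congr (Y := Y) (rot_inl hY hd)

theorem sideNext_outer (hY : E.toXMap.IsAddInf E.outer Y) :
    Y.sideNext (XMap.addS s) (sd E Y s E.outer (s E.outer).natAbs) = yf Y s := by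
  rw [sd_of_le le_rfl]
  have h' : ¬ ((s E.outer).natAbs < (XMap.addS s (.inl E.outer : G.Dart ⊕ Bool)).natAbs) :=
    lt_irrefl _
  unfold XMap.sideNext
  rw [dif_neg h']
  exact side0_congr (Y := Y) (rot_outer hY)

theorem sideNext_yf (hY : E.toXMap.IsAddInf E.outer Y) :
    Y.sideNext (XMap.addS s) (yf Y s) = sd E Y s E.outer ((s E.outer).natAbs + 1) := by
  rw [sd_succ_last]
  unfold XMap.sideNext yf
  rw [dif_neg (by simp [XMap.addS])]
  exact side0_congr (Y := Y) (rot_false hY)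

theorem sd_zero (d : G.Dart) : sd E Y s d 0 = ⟨.inl d, 0⟩ := by
  rw [sd_of_le (Nat.zero_le _)]
  rfl

theorem sd_rot (d : G.Dart) : sd E Y s (E.rot d) 0 = sd E Y s d ((s d).natAbs + 1) := by
  rw [sd_zero, sd_succ_last]

section geom

variable (hY : E.toXMap.IsAddInf E.outer Y) (hM : Y.IsExpansion (XMap.addS s) none M)
  (P : Draw M)

theorem len_fwd (hM : Y.IsExpansion (XMap.addS s) none M) (P : Draw M)
    (y : Y.Side (XMap.addS s)) : ∃ l : ℝ, 0 < l ∧
      P.pos (.inl (Y.sideNext (XMap.addS s) y)) = P.pos (.inl y) + l • unit (P.dir (fwd y)) := by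
  obtain ⟨l, hl, h⟩ := P.len (fwd y)
  rw [head_fwd hM, tail_fwd hM] at h
  exact ⟨l, hl, h⟩

theorem dir_lt (hM : Y.IsExpansion (XMap.addS s) none M) (P : Draw M) {d : G.Dart} {i : ℕ}
    (h : i < (s d).natAbs) : P.dir (fwd (sd E Y s d (i + 1))) =
      P.dir (fwd (sd E Y s d i)) + ((s d).sign : ZMod 4) := by
  rw [← sideNext_lt h, dir_sideNext hM P]
  congr 2
  rw [sd_of_le h.le]
  exact if_pos h

theorem dir_yf (hY : E.toXMap.IsAddInf E.outer Y) (hM : Y.IsExpansion (XMap.addS s) none M)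
    (P : Draw M) : P.dir (fwd (yf Y s)) =
      P.dir (fwd (sd E Y s E.outer (s E.outer).natAbs)) := by
  rw [← sideNext_outer hY]
  refine dir_next_zero hM P ?_
  rw [sd_of_le le_rfl]
  exact lt_irrefl _

theorem dir_last (hY : E.toXMap.IsAddInf E.outer Y) (hM : Y.IsExpansion (XMap.addS s) none M)
    (P : Draw M) (d : G.Dart) : P.dir (fwd (sd E Y s d ((s d).natAbs + 1))) =
      P.dir (fwd (sd E Y s d (s d).natAbs)) := by
  by_cases hd : d = E.outer
  · subst hd
    rw [← dir_yf hY hM P, ← sideNext_yf hY]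
    refine dir_next_zero hM P ?_
    simp [yf, XMap.addS]
  · rw [← sideNext_last hY hd]
    refine dir_next_zero hM P ?_
    rw [sd_of_le le_rfl]
    exact lt_irrefl _

theorem len_side (hY : E.toXMap.IsAddInf E.outer Y) (hM : Y.IsExpansion (XMap.addS s) none M)
    (P : Draw M) {d : G.Dart} {i : ℕ} (h : i ≤ (s d).natAbs) : ∃ l : ℝ, 0 < l ∧
      P.pos (.inl (sd E Y s d (i + 1))) = P.pos (.inl (sd E Y s d i)) +
        l • unit (P.dir (fwd (sd E Y s d i))) := by
  rcases h.lt_or_eq with h | rfl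
  · rw [← sideNext_lt h]
    exact len_fwd hM P _
  · by_cases hd : d = E.outer
    · subst hd
      obtain ⟨l, hl, h1⟩ := len_fwd hM P (sd E Y s E.outer (s E.outer).natAbs)
      obtain ⟨l', hl', h2⟩ := len_fwd hM P (yf Y s)
      rw [sideNext_outer hY] at h1
      rw [sideNext_yf hY, dir_yf hY hM P, h1] at h2
      refine ⟨l + l', by positivity, ?_⟩
      rw [h2, add_smul, add_assoc]
    · rw [← sideNext_last hY hd]
      exact len_fwd hM P _

theorem xn_opp {V R : Type} (X : XMap V R) (r : R) (h : X.Crossed r) (h' : X.Crossed (X.opp r)) :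
    X.xn ⟨X.opp r, h'⟩ = X.xn ⟨r, h⟩ := by
  obtain ⟨e, he⟩ := Option.isSome_iff_exists.mp h
  have h1 := X.crs_crs _ _ he
  have hce : X.Crossed e := Option.isSome_iff_exists.mpr ⟨_, h1⟩
  symm
  apply Quotient.sound
  refine Relation.EqvGen.trans _ ⟨e, hce⟩ _ (Relation.EqvGen.rel _ _ ?_)
    (Relation.EqvGen.rel _ _ ?_)
  · exact (crsGet_eq X (d := ⟨r, h⟩) he).symm
  · exact (crsGet_eq X (d := ⟨e, hce⟩) h1).symm

theorem xn_crs {V R : Type} (X : XMap V R) (r e : R) (h : X.Crossed r) (h' : X.Crossed e)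
    (he : X.crs r = some e) : X.xn ⟨e, h'⟩ = X.xn ⟨r, h⟩ := by
  symm
  apply Quotient.sound
  exact Relation.EqvGen.rel _ _ (crsGet_eq X (d := ⟨r, h⟩) he).symm

theorem len_edge (hM : Y.IsExpansion (XMap.addS s) none M)
    (P : Draw M) (r : G.Dart ⊕ Bool) : ∃ l : ℝ, 0 < l ∧
      P.pos (.inl ⟨Y.opp r, 0⟩) = P.pos (.inl ⟨r, 0⟩) + l • unit (P.dir (fwd ⟨r, 0⟩) - 1) := by
  rw [← dir_ed hM P r]
  by_cases hr : Y.Crossed r
  · have hr' := Y.crossed_opp hr
    obtain ⟨l, hl, h1⟩ := P.len (ed r)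
    obtain ⟨l', hl', h2⟩ := P.len (md ⟨Y.opp r, hr'⟩)
    rw [head_ed hM r hr, tail_ed hM] at h1
    rw [tail_md hM, head_md hM, xn_opp Y r hr hr', dir_straight hM P r hr' hr, h1] at h2
    refine ⟨l + l', by positivity, ?_⟩
    rw [h2, add_smul, add_assoc]
  · obtain ⟨l, hl, h1⟩ := P.len (ed r)
    rw [head_ed_of_not hM r hr, tail_ed hM] at h1
    exact ⟨l, hl, h1⟩

theorem ne_of_len {a b : ℝ × ℝ} {δ : ZMod 4} {l : ℝ} (hl : 0 < l) (h : b = a + l • unit δ) :
    b ≠ a := by
  rintro rfl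
  have h1 : l • unit δ = 0 := by simpa using h
  rcases smul_eq_zero.mp h1 with h2 | h2
  · exact hl.ne' h2
  · have hδ : ∀ δ : ZMod 4, δ = 0 ∨ δ = 1 ∨ δ = 2 ∨ δ = 3 := by decide
    rcases hδ δ with rfl | rfl | rfl | rfl <;> simp [unit, Prod.ext_iff] at h2

/-- The representation. -/
def rep (hY : E.toXMap.IsAddInf E.outer Y) (hM : Y.IsExpansion (XMap.addS s) none M)
    (P : Draw M) : OPVR E where
  k d := (s d).natAbs
  p d i := P.pos (.inl (sd E Y s d i))
  δ d i := P.dir (fwd (sd E Y s d i))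
  side d i hi := by
    obtain ⟨l, hl, h⟩ := len_side hY hM P hi
    exact ⟨l, hl.le, h⟩
  side_pos d i hi _ := by
    obtain ⟨l, hl, h⟩ := len_side hY hM P hi
    exact ne_of_len hl h
  end_pos d := by
    obtain ⟨l, hl, h⟩ := len_side hY hM P (le_refl (s d).natAbs)
    obtain ⟨l', hl', h'⟩ := len_side hY hM P (Nat.zero_le (s (E.rot d)).natAbs)
    rw [sd_rot, dir_last hY hM P d, h, add_assoc, ← add_smul] at h'
    exact ne_of_len (add_pos hl hl') h'
  corner d i hi := by
    show P.dir _ = _ ∨ P.dir _ = _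
    rw [dir_lt hM P hi]
    rcases lt_trichotomy (s d) 0 with h | h | h
    · right
      rw [Int.sign_eq_neg_one_of_neg h]
      push_cast
      ring
    · rw [h] at hi
      simp at hi
    · left
      rw [Int.sign_eq_one_of_pos h]
      push_cast
      ring
  join_p d := by rw [sd_rot]
  join_δ d := by rw [sd_rot]; exact dir_last hY hM P d
  edge d := by
    obtain ⟨l, hl, h⟩ := len_edge hM P (.inl d)
    refine ⟨l, hl, ?_⟩
    rw [sd_zero, sd_zero, ← h, hY.opp_l, E.opp_eq]

theorem rep_strict (hY : E.toXMap.IsAddInf E.outer Y) (hM : Y.IsExpansion (XMap.addS s) none M)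
    (P : Draw M) : (rep hY hM P).Strict := by
  intro d i hi
  obtain ⟨l, hl, h⟩ := len_side hY hM P hi
  exact ne_of_len hl h

theorem rep_turns (hY : E.toXMap.IsAddInf E.outer Y) (hM : Y.IsExpansion (XMap.addS s) none M)
    (P : Draw M) (d : G.Dart) : (rep hY hM P).turns d = s d := by
  have key : ∀ i ∈ range (s d).natAbs,
      (if (rep hY hM P).δ d (i + 1) = (rep hY hM P).δ d i + 1 then (1 : ℤ) else -1) =
        (s d).sign := by
    intro i hi
    rw [mem_range] at hi
    have h1 : (rep hY hM P).δ d (i + 1) = (rep hY hM P).δ d i + ((s d).sign : ZMod 4) :=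
      dir_lt hM P hi
    rw [h1]
    rcases lt_trichotomy (s d) 0 with h | h | h
    · rw [Int.sign_eq_neg_one_of_neg h, if_neg]
      intro h2
      have h3 := add_left_cancel h2
      revert h3
      decide
    · rw [h] at hi
      simp at hi
    · rw [Int.sign_eq_one_of_pos h, if_pos]
      simp
  have h1 : (rep hY hM P).turns d = ∑ i ∈ range (s d).natAbs, (s d).sign :=
    Finset.sum_congr rfl key
  rw [h1, Finset.sum_const, card_range, nsmul_eq_mul, mul_comm]
  exact Int.sign_mul_natAbs _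

theorem rep_reflex (hY : E.toXMap.IsAddInf E.outer Y)
    (hM : Y.IsExpansion (XMap.addS s) none M)
    (P : Draw M) (v : V) : ((rep hY hM P).reflex v : ℤ) =
      ∑ d : G.Dart with d.fst = v, max 0 (- s d) := by
  unfold OPVR.reflex
  push_cast
  refine Finset.sum_congr rfl fun d _ => ?_
  have key : ∀ i ∈ range (s d).natAbs,
      (rep hY hM P).δ d (i + 1) = (rep hY hM P).δ d i + ((s d).sign : ZMod 4) := by
    intro i hi
    rw [mem_range] at hi
    exact dir_lt hM P hi
  show ((((range (s d).natAbs).filter _).card : ℕ) : ℤ) = _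
  rcases lt_or_ge (s d) 0 with h | h
  · rw [Finset.filter_true_of_mem, card_range, max_eq_right (by omega)]
    · omega
    · intro i hi
      rw [key i hi, Int.sign_eq_neg_one_of_neg h]
      push_cast
      ring
  · rw [Finset.filter_false_of_mem, card_empty, max_eq_left (by omega)]
    · simp
    · intro i hi
      rw [key i hi]
      rcases h.eq_or_lt with h | h
      · rw [← h] at hi
        simp at hi
      · rw [Int.sign_eq_one_of_pos h]
        intro h2
        rw [sub_eq_add_neg] at h2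
        have h3 := add_left_cancel h2
        revert h3
        decide

/-! ### Points -/

theorem mid_mem {a b c u : ℝ × ℝ} {l l' : ℝ} (hl : 0 < l) (hl' : 0 < l') (hb : b = a + l • u)
    (hc : c = b + l' • u) : b ∈ openSegment ℝ a c := by
  refine ⟨l' / (l + l'), l / (l + l'), by positivity, by positivity, by field_simp; ring, ?_⟩
  subst hc hb
  have h : l + l' ≠ 0 := by positivity
  ext <;> simp <;> field_simp <;> ring

theorem openSegment_split {a b c : ℝ × ℝ} (h : b ∈ openSegment ℝ a c) :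
    openSegment ℝ a c ⊆ insert b (openSegment ℝ a b ∪ openSegment ℝ b c) := by
  apply openSegment_subset_union
  rw [openSegment_eq_image_lineMap] at h
  obtain ⟨t, _, ht⟩ := h
  exact ⟨t, ht⟩

theorem seg_fwd (hM : Y.IsExpansion (XMap.addS s) none M) (P : Draw M)
    (y : Y.Side (XMap.addS s)) : P.seg (fwd y) =
      openSegment ℝ (P.pos (.inl y)) (P.pos (.inl (Y.sideNext (XMap.addS s) y))) := by
  unfold Draw.seg
  rw [head_fwd hM, tail_fwd hM]

/-- Half-open side. -/
def HA (P : Draw M) (y : Y.Side (XMap.addS s)) : Set (ℝ × ℝ) :=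
  {q | q = P.pos (.inl y) ∨ q ∈ P.seg (fwd y)}

/-- Half-open sides of the drawing which make up the side `i` after `d`. -/
def Own (E : OnePlane G) (Y : XMap (Option V) (G.Dart ⊕ Bool)) (s : G.Dart → ℤ)
    (y : Y.Side (XMap.addS s)) (d : G.Dart) (i : ℕ) : Prop :=
  (i ≤ (s d).natAbs ∧ y = sd E Y s d i) ∨
    (d = E.outer ∧ i = (s d).natAbs ∧ y = yf Y s)

theorem own_le {y : Y.Side (XMap.addS s)} {d : G.Dart} {i : ℕ} (h : Own E Y s y d i) :
    i ≤ (s d).natAbs := by
  rcases h with h | h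
  · exact h.1
  · exact h.2.1.le

theorem own_unique {y : Y.Side (XMap.addS s)} {d d' : G.Dart} {i i' : ℕ}
    (h : Own E Y s y d i) (h' : Own E Y s y d' i') : d = d' ∧ i = i' := by
  rcases h with ⟨h1, h2⟩ | ⟨h1, h2, h3⟩ <;> rcases h' with ⟨h1', h2'⟩ | ⟨h1', h2', h3'⟩
  · rw [h2, sd_of_le h1, sd_of_le h1'] at h2'
    have h3 := congrArg (fun y : Y.Side (XMap.addS s) => y.1) h2'
    simp only [Sum.inl.injEq] at h3
    subst h3
    refine ⟨rfl, ?_⟩
    have h4 := congrArg (fun y : Y.Side (XMap.addS s) => (y.2 : ℕ)) h2'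
    exact h4
  · rw [h2, sd_of_le h1] at h3'
    have h3 := congrArg (fun y : Y.Side (XMap.addS s) => y.1) h3'
    simp [yf] at h3
  · rw [h3, sd_of_le h1'] at h2'
    have h3 := congrArg (fun y : Y.Side (XMap.addS s) => y.1) h2'
    simp [yf] at h3
  · subst h1 h1' h2 h2'
    exact ⟨rfl, rfl⟩

theorem vert_sd (hY : E.toXMap.IsAddInf E.outer Y) {d : G.Dart} {i : ℕ}
    (h : i ≤ (s d).natAbs + 1) : Y.vert (sd E Y s d i).1 = some d.fst := by
  rcases Nat.lt_or_ge i ((s d).natAbs + 1) with h' | h'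
  · rw [sd_of_le (Nat.le_of_lt_succ h')]
    show Y.vert (.inl d) = _
    rw [hY.vert_l, E.vert_eq]
  · obtain rfl : i = (s d).natAbs + 1 := le_antisymm h h'
    rw [sd_succ_last]
    show Y.vert (.inl (E.rot d)) = _
    rw [hY.vert_l, E.vert_rot, E.vert_eq]

theorem vert_yf (hY : E.toXMap.IsAddInf E.outer Y) : Y.vert (yf Y s).1 = some E.outer.fst := by
  show Y.vert (.inr false) = _
  rw [hY.vert_f, E.vert_eq]

theorem own_vert (hY : E.toXMap.IsAddInf E.outer Y) {y : Y.Side (XMap.addS s)} {d : G.Dart}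
    {i : ℕ} (h : Own E Y s y d i) : Y.vert y.1 = some d.fst := by
  rcases h with ⟨h1, h2⟩ | ⟨h1, h2, h3⟩
  · rw [h2]
    exact vert_sd hY (by omega)
  · rw [h3, h1]
    exact vert_yf hY

theorem mem_side (hY : E.toXMap.IsAddInf E.outer Y) (hM : Y.IsExpansion (XMap.addS s) none M)
    (P : Draw M) {d : G.Dart} {i : ℕ} (hi : i ≤ (s d).natAbs) {q : ℝ × ℝ}
    (hq : q ∈ (rep hY hM P).sideSet d i) (hq' : q ≠ (rep hY hM P).p d (i + 1)) :
    ∃ y, Own E Y s y d i ∧ q ∈ HA P y := by
  unfold OPVR.sideSet at hq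
  rw [← insert_endpoints_openSegment, Set.mem_insert_iff, Set.mem_insert_iff] at hq
  rcases hq with hq | hq | hq
  · exact ⟨sd E Y s d i, Or.inl ⟨hi, rfl⟩, Or.inl hq⟩
  · exact absurd hq hq'
  · have hq2 : q ∈ openSegment ℝ (P.pos (.inl (sd E Y s d i)))
      (P.pos (.inl (sd E Y s d (i + 1)))) := hq
    by_cases hd : d = E.outer ∧ i = (s d).natAbs
    · obtain ⟨hd, hi'⟩ := hd
      subst hd hi'
      obtain ⟨l, hl, h1⟩ := len_fwd hM P (sd E Y s E.outer (s E.outer).natAbs)
      obtain ⟨l', hl', h2⟩ := len_fwd hM P (yf Y s)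
      rw [sideNext_outer hY] at h1
      rw [sideNext_yf hY, dir_yf hY hM P] at h2
      have h3 := mid_mem hl hl' h1 h2
      rcases openSegment_split h3 hq2 with h4 | h4 | h4
      · exact ⟨yf Y s, Or.inr ⟨rfl, rfl, rfl⟩, Or.inl h4⟩
      · refine ⟨sd E Y s E.outer (s E.outer).natAbs, Or.inl ⟨hi, rfl⟩, Or.inr ?_⟩
        rw [seg_fwd hM P, sideNext_outer hY]
        exact h4
      · refine ⟨yf Y s, Or.inr ⟨rfl, rfl, rfl⟩, Or.inr ?_⟩
        rw [seg_fwd hM P, sideNext_yf hY]
        exact h4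
    · have h5 : Y.sideNext (XMap.addS s) (sd E Y s d i) = sd E Y s d (i + 1) := by
        rcases hi.lt_or_eq with h | h
        · exact sideNext_lt h
        · subst h
          exact sideNext_last hY (fun h => hd ⟨h, rfl⟩)
      refine ⟨sd E Y s d i, Or.inl ⟨hi, rfl⟩, Or.inr ?_⟩
      rw [seg_fwd hM P, h5]
      exact hq2

theorem mem_side' (hY : E.toXMap.IsAddInf E.outer Y) (hM : Y.IsExpansion (XMap.addS s) none M)
    (P : Draw M) {d : G.Dart} {i : ℕ} (hi : i ≤ (s d).natAbs) {q : ℝ × ℝ}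
    (hq : q ∈ (rep hY hM P).sideSet d i) :
    ∃ y : Y.Side (XMap.addS s), Y.vert y.1 = some d.fst ∧ q ∈ HA P y := by
  by_cases hq' : q = (rep hY hM P).p d (i + 1)
  · exact ⟨sd E Y s d (i + 1), vert_sd hY (by omega), Or.inl hq'⟩
  · obtain ⟨y, h1, h2⟩ := mem_side hY hM P hi hq hq'
    exact ⟨y, own_vert hY h1, h2⟩

theorem HA_unique (hM : Y.IsExpansion (XMap.addS s) none M) {P : Draw M} (hP : P.Good)
    {y y' : Y.Side (XMap.addS s)} {q : ℝ × ℝ} (h : q ∈ HA P y) (h' : q ∈ HA P y') : y = y' := by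
  rcases h with h | h <;> rcases h' with h' | h'
  · have := hP.inj (h.symm.trans h')
    simpa using this
  · rw [h] at h'
    exact absurd h' (hP.node_seg _ _)
  · rw [h'] at h
    exact absurd h (hP.node_seg _ _)
  · by_contra hne
    refine Set.disjoint_left.mp (hP.seg_seg (fwd y) (fwd y') ?_ ?_) h h'
    · intro h1
      simp only [Sum.inr.injEq, Prod.mk.injEq] at h1
      exact hne h1.1.symm
    · rw [hM.α_eq]
      intro h1
      simp [XMap.eα] at h1

/-! ### Winding numbers -/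

/-- Contribution of a side to the winding number. -/
noncomputable def term (q : ℝ × ℝ) (δ : ZMod 4) (a b : ℝ × ℝ) : ℤ :=
  (if δ = 2 ∧ b.1 ≤ q.1 ∧ q.1 < a.1 ∧ q.2 < a.2 then 1 else 0) -
  (if δ = 0 ∧ a.1 ≤ q.1 ∧ q.1 < b.1 ∧ q.2 < a.2 then 1 else 0)

theorem term_split (q : ℝ × ℝ) {a b c : ℝ × ℝ} {δ : ZMod 4} {l l' : ℝ} (hl : 0 < l)
    (hl' : 0 < l') (hb : b = a + l • unit δ) (hc : c = b + l' • unit δ) :
    term q δ a c = term q δ a b + term q δ b c := by
  have hδ : ∀ δ : ZMod 4, δ = 0 ∨ δ = 1 ∨ δ = 2 ∨ δ = 3 := by decide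
  rcases hδ δ with rfl | rfl | rfl | rfl
  · have e1 : b.1 = a.1 + l := by rw [hb]; simp [unit]
    have e2 : b.2 = a.2 := by rw [hb]; simp [unit]
    have e3 : c.1 = b.1 + l' := by rw [hc]; simp [unit]
    unfold term
    have h02 : ¬ ((0 : ZMod 4) = 2) := by decide
    simp only [h02, false_and, if_false, true_and, zero_sub]
    rw [e2]
    by_cases h1 : q.2 < a.2
    · by_cases h2 : a.1 ≤ q.1
      · by_cases h3 : q.1 < b.1
        · rw [if_pos ⟨h2, by linarith, h1⟩, if_pos ⟨h2, h3, h1⟩, if_neg (by intro h; linarith [h.1])]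
          rfl
        · by_cases h4 : q.1 < c.1
          · rw [if_pos ⟨h2, h4, h1⟩, if_neg (fun h => h3 h.2.1), if_pos ⟨not_lt.mp h3, h4, h1⟩]
            rfl
          · rw [if_neg (fun h => h4 h.2.1), if_neg (fun h => h3 h.2.1), if_neg (fun h => h4 h.2.1)]
            rfl
      · rw [if_neg (fun h => h2 h.1), if_neg (fun h => h2 h.1),
          if_neg (fun h => h2 (by linarith [h.1]))]
        rfl
    · rw [if_neg (fun h => h1 h.2.2), if_neg (fun h => h1 h.2.2), if_neg (fun h => h1 h.2.2)]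
      rfl
  · unfold term
    have h02 : ¬ ((1 : ZMod 4) = 2) := by decide
    have h00 : ¬ ((1 : ZMod 4) = 0) := by decide
    simp [h02, h00]
  · have e1 : b.1 = a.1 - l := by rw [hb]; simp [unit]; ring
    have e2 : b.2 = a.2 := by rw [hb]; simp [unit]
    have e3 : c.1 = b.1 - l' := by rw [hc]; simp [unit]; ring
    unfold term
    have h02 : ¬ ((2 : ZMod 4) = 0) := by decide
    simp only [h02, false_and, if_false, true_and, sub_zero]
    rw [e2]
    by_cases h1 : q.2 < a.2
    · by_cases h2 : q.1 < a.1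
      · by_cases h3 : b.1 ≤ q.1
        · rw [if_pos ⟨by linarith, h2, h1⟩, if_pos ⟨h3, h2, h1⟩, if_neg (by intro h; linarith [h.2.1])]
          rfl
        · by_cases h4 : c.1 ≤ q.1
          · rw [if_pos ⟨h4, h2, h1⟩, if_neg (fun h => h3 h.1), if_pos ⟨h4, not_le.mp h3, h1⟩]
            rfl
          · rw [if_neg (fun h => h4 h.1), if_neg (fun h => h3 h.1), if_neg (fun h => h4 h.1)]
            rfl
      · rw [if_neg (fun h => h2 h.2.1), if_neg (fun h => h2 h.2.1),
          if_neg (fun h => h2 (by linarith [h.2.1]))]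
        rfl
    · rw [if_neg (fun h => h1 h.2.2), if_neg (fun h => h1 h.2.2), if_neg (fun h => h1 h.2.2)]
      rfl
  · unfold term
    have h02 : ¬ ((3 : ZMod 4) = 2) := by decide
    have h00 : ¬ ((3 : ZMod 4) = 0) := by decide
    simp [h02, h00]

/-- Contribution of a half-open side. -/
noncomputable def T (P : Draw M) (q : ℝ × ℝ) (y : Y.Side (XMap.addS s)) : ℤ :=
  term q (P.dir (fwd y)) (P.pos (.inl y)) (P.pos (.inl (Y.sideNext (XMap.addS s) y)))

theorem term_side (hY : E.toXMap.IsAddInf E.outer Y) (hM : Y.IsExpansion (XMap.addS s) none M)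
    (P : Draw M) {d : G.Dart} {i : ℕ} (hi : i ≤ (s d).natAbs) (q : ℝ × ℝ) :
    term q ((rep hY hM P).δ d i) ((rep hY hM P).p d i) ((rep hY hM P).p d (i + 1)) =
      T P q (sd E Y s d i) + if i = (s d).natAbs then (if d = E.outer then T P q (yf Y s) else 0)
        else 0 := by
  show term q (P.dir (fwd (sd E Y s d i))) (P.pos (.inl (sd E Y s d i)))
    (P.pos (.inl (sd E Y s d (i + 1)))) = _
  rcases hi.lt_or_eq with h | rfl
  · rw [if_neg h.ne, add_zero]
    unfold T
    rw [sideNext_lt h]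
  · rw [if_pos rfl]
    by_cases hd : d = E.outer
    · subst hd
      rw [if_pos rfl]
      obtain ⟨l, hl, h1⟩ := len_fwd hM P (sd E Y s E.outer (s E.outer).natAbs)
      obtain ⟨l', hl', h2⟩ := len_fwd hM P (yf Y s)
      unfold T
      rw [sideNext_outer hY] at h1 ⊢
      rw [sideNext_yf hY, dir_yf hY hM P] at h2
      rw [sideNext_yf hY, dir_yf hY hM P]
      exact term_split q hl hl' h1 h2
    · rw [if_neg hd, add_zero]
      unfold T
      rw [sideNext_last hY hd]

theorem rep_wind_aux (hY : E.toXMap.IsAddInf E.outer Y)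
    (hM : Y.IsExpansion (XMap.addS s) none M)
    (P : Draw M) (v : V) (q : ℝ × ℝ) : (rep hY hM P).wind v q =
      ∑ d : G.Dart with d.fst = v, ((∑ i ∈ range ((s d).natAbs + 1), T P q (sd E Y s d i)) +
        if d = E.outer then T P q (yf Y s) else 0) := by
  refine Finset.sum_congr rfl fun d _ => ?_
  have h1 : ∀ i ∈ range ((s d).natAbs + 1),
      term q ((rep hY hM P).δ d i) ((rep hY hM P).p d i) ((rep hY hM P).p d (i + 1)) =
      T P q (sd E Y s d i) + if i = (s d).natAbs then (if d = E.outer then T P q (yf Y s) else 0)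
        else 0 := by
    intro i hi
    rw [mem_range] at hi
    exact term_side hY hM P (Nat.le_of_lt_succ hi) q
  refine (Finset.sum_congr rfl h1).trans ?_
  rw [Finset.sum_add_distrib]
  congr 1
  rw [Finset.sum_ite_eq', if_pos (by simp)]

theorem draw_wind_aux (hM : Y.IsExpansion (XMap.addS s) none M)
    (P : Draw M) (v : V) (q : ℝ × ℝ) : P.wind (.inl (some v)) q =
      ∑ y : Y.Side (XMap.addS s), if Y.vert y.1 = some v then T P q y else 0 := by
  have h0 : P.wind (.inl (some v)) q =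
      ∑ x : Y.ED (XMap.addS s), if M.left x = .inl (some v) then
        term q (P.dir x) (P.pos (M.tail x)) (P.pos (M.head x)) else 0 := by
    rw [← Finset.sum_filter]
    rfl
  rw [h0, Fintype.sum_sum_type]
  have h1 : ∀ x : Y.PD, (if M.left (.inl x) = .inl (some v) then
        term q (P.dir (.inl x)) (P.pos (M.tail (.inl x))) (P.pos (M.head (.inl x))) else 0) = 0 := by
    intro x
    rw [hM.left_eq, if_neg]
    simp [XMap.eleft]
  rw [Finset.sum_eq_zero (fun x _ => h1 x), zero_add, Fintype.sum_prod_type]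
  refine Finset.sum_congr rfl fun y _ => ?_
  rw [Fintype.sum_bool]
  have h2 : (if M.left (.inr (y, true)) = .inl (some v) then
        term q (P.dir (.inr (y, true))) (P.pos (M.tail (.inr (y, true))))
          (P.pos (M.head (.inr (y, true)))) else 0) = 0 := by
    rw [hM.left_eq, if_neg]
    simp [XMap.eleft]
  rw [h2, zero_add, hM.left_eq]
  have h3 : (Y.eleft (XMap.addS s) (.inr (y, false)) = .inl (some v)) ↔ Y.vert y.1 = some v := by
    simp [XMap.eleft]
  rw [if_congr h3 rfl rfl]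
  refine if_congr Iff.rfl ?_ rfl
  rw [tail_fwd hM, head_fwd hM]
  rfl

theorem rep_wind (hY : E.toXMap.IsAddInf E.outer Y)
    (hM : Y.IsExpansion (XMap.addS s) none M)
    (P : Draw M) (v : V) (q : ℝ × ℝ) :
    (rep hY hM P).wind v q = P.wind (.inl (some v)) q := by
  rw [rep_wind_aux, draw_wind_aux hM, Fintype.sum_sigma, Fintype.sum_sum_type, Fintype.sum_bool]
  have h1 : ∀ i : Fin ((XMap.addS s (.inr true)).natAbs + 1),
      (if Y.vert (.inr true) = some v then T P q (⟨.inr true, i⟩ : Y.Side (XMap.addS s)) else 0) =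
        0 := by
    intro i
    rw [hY.vert_t, if_neg (by simp)]
  have h2 : ∑ i : Fin ((XMap.addS s (.inr false)).natAbs + 1),
      (if Y.vert (.inr false) = some v then T P q (⟨.inr false, i⟩ : Y.Side (XMap.addS s)) else 0) =
        if E.outer.fst = v then T P q (yf Y s) else 0 := by
    rw [hY.vert_f, E.vert_eq]
    simp only [Option.some.injEq]
    have : ∀ f : Fin ((XMap.addS s (.inr false)).natAbs + 1) → ℤ, ∑ i, f i = f 0 := by
      intro f
      exact Fin.sum_univ_one f
    rw [this]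
    rfl
  rw [Finset.sum_eq_zero (fun i _ => h1 i), zero_add, h2, Finset.sum_add_distrib,
    Finset.sum_filter]
  congr 1
  · refine Finset.sum_congr rfl fun d _ => ?_
    rw [Finset.sum_range]
    have e1 : (Y.vert (.inl d) = some v) ↔ d.fst = v := by
      rw [hY.vert_l, E.vert_eq]
      simp
    rw [show (∑ i : Fin ((XMap.addS s (.inl d)).natAbs + 1),
      if Y.vert (.inl d) = some v then T P q (⟨.inl d, i⟩ : Y.Side (XMap.addS s)) else 0) =
      if d.fst = v then ∑ i : Fin ((XMap.addS s (.inl d)).natAbs + 1),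
        T P q (⟨.inl d, i⟩ : Y.Side (XMap.addS s)) else 0 by
        by_cases h : d.fst = v
        · simp [h, e1]
        · simp [h, e1]]
    refine if_congr Iff.rfl ?_ rfl
    refine Finset.sum_congr rfl fun i _ => ?_
    rw [sd_of_le (Nat.le_of_lt_succ i.2)]
    rfl
  · rw [Finset.sum_ite_eq']
    refine if_congr ?_ rfl rfl
    simp

/-! ### Polygons and edges -/

theorem mem_polygon (hY : E.toXMap.IsAddInf E.outer Y) (hM : Y.IsExpansion (XMap.addS s) none M)
    {P : Draw M} (hP : P.Good) {v : V} {q : ℝ × ℝ} (hq : q ∈ (rep hY hM P).polygon v) :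
    (∃ y : Y.Side (XMap.addS s), Y.vert y.1 = some v ∧ q ∈ HA P y) ∨
      P.wind (.inl (some v)) q = 1 := by
  rcases hq with ⟨d, i, hd, hi, hq⟩ | hq
  · left
    subst hd
    exact mem_side' hY hM P hi hq
  · right
    rw [rep_wind] at hq
    rcases hP.wind_01 (.inl (some v)) (by rw [hM.outer_eq]; simp) q with h | h
    · exact absurd h hq
    · exact h

theorem inl_ne_outer (hM : Y.IsExpansion (XMap.addS s) none M) (v : V) :
    (.inl (some v) : Y.EF (XMap.addS s)) ≠ M.outer := by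
  rw [hM.outer_eq]; simp

theorem wind_HA (hM : Y.IsExpansion (XMap.addS s) none M)
    {P : Draw M} (hP : P.Good) {v : V} {q : ℝ × ℝ} {y : Y.Side (XMap.addS s)} (hq : q ∈ HA P y)
    (hw : P.wind (.inl (some v)) q = 1) : Y.vert y.1 = some v := by
  rcases hq with hq | hq
  · rw [hq] at hw
    obtain ⟨x, h1, h2⟩ := hP.wind_node _ _ (inl_ne_outer hM v) hw
    rw [hM.tail_eq] at h1
    rw [hM.left_eq] at h2
    rcases x with x | ⟨y', b⟩
    · simp [XMap.eleft] at h2
    · cases b with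
      | true => simp [XMap.eleft] at h2
      | false =>
        simp only [XMap.etail, Sum.inl.injEq] at h1
        simp only [XMap.eleft, Sum.inl.injEq] at h2
        rw [← h1, h2]
  · rcases hP.wind_seg _ _ (inl_ne_outer hM v) q hq hw with h | h
    · rw [hM.left_eq] at h
      simp only [XMap.eleft, Sum.inl.injEq] at h
      exact h.symm
    · unfold Cell.right at h
      rw [hM.α_eq, hM.left_eq] at h
      simp [XMap.eleft, XMap.eα] at h

theorem seg_α (P : Draw M) (x : Y.ED (XMap.addS s)) : P.seg (M.α x) = P.seg x := by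
  unfold Draw.seg
  rw [M.head_α, M.tail_α, openSegment_symm]

theorem seg_md (hM : Y.IsExpansion (XMap.addS s) none M) (P : Draw M)
    (r : {r : G.Dart ⊕ Bool // Y.Crossed r}) : P.seg (md r) = P.seg (ed r.1) := by
  rw [← α_ed hM r.1 r.2, seg_α]

theorem mem_edge (hY : E.toXMap.IsAddInf E.outer Y) (hM : Y.IsExpansion (XMap.addS s) none M)
    (P : Draw M) {d : G.Dart} {q : ℝ × ℝ} (hq : q ∈ (rep hY hM P).edgeSet d) :
    q ∈ P.seg (ed (.inl d)) ∨ q ∈ P.seg (ed (.inl d.symm)) ∨
      ∃ h : Y.Crossed (.inl d), q = P.pos (.inr (Y.xn ⟨.inl d, h⟩)) := by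
  have hq2 : q ∈ openSegment ℝ (P.pos (.inl (sd E Y s d 0)))
    (P.pos (.inl (sd E Y s d.symm 0))) := hq
  rw [sd_zero, sd_zero] at hq2
  have hopp : Y.opp (.inl d) = .inl d.symm := by rw [hY.opp_l, E.opp_eq]
  have hside : (⟨Y.opp (.inl d), 0⟩ : Y.Side (XMap.addS s)) = ⟨.inl d.symm, 0⟩ :=
    side0_congr (Y := Y) hopp
  by_cases hr : Y.Crossed (.inl d)
  · have hr' := Y.crossed_opp hr
    obtain ⟨l, hl, h1⟩ := P.len (ed (.inl d))
    obtain ⟨l', hl', h2⟩ := P.len (md ⟨Y.opp (.inl d), hr'⟩)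
    rw [head_ed hM _ hr, tail_ed hM] at h1
    rw [tail_md hM, head_md hM, xn_opp Y _ hr hr', dir_straight hM P _ hr' hr] at h2
    simp only at h2
    rw [hside] at h2
    rcases openSegment_split (mid_mem hl hl' h1 h2) hq2 with h3 | h3 | h3
    · exact Or.inr (Or.inr ⟨hr, h3⟩)
    · left
      unfold Draw.seg
      rw [head_ed hM _ hr, tail_ed hM]
      exact h3
    · right; left
      have h4 := seg_md hM P ⟨Y.opp (.inl d), hr'⟩
      simp only [hopp] at h4
      rw [← h4]
      unfold Draw.seg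
      rw [tail_md hM, head_md hM]
      have h5 := xn_opp Y _ hr hr'
      simp only [hopp] at h5
      rw [h5]
      exact h3
  · left
    unfold Draw.seg
    rw [head_ed_of_not hM _ hr, tail_ed hM, hopp]
    exact hq2

theorem wind_ed (hM : Y.IsExpansion (XMap.addS s) none M)
    {P : Draw M} (hP : P.Good) {v : V} {q : ℝ × ℝ} {r : G.Dart ⊕ Bool} (hq : q ∈ P.seg (ed r)) :
    P.wind (.inl (some v)) q ≠ 1 := by
  intro hw
  rcases hP.wind_seg _ _ (inl_ne_outer hM v) q hq hw with h | h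
  · rw [hM.left_eq] at h
    simp [XMap.eleft] at h
  · unfold Cell.right at h
    rw [hM.α_eq, hM.left_eq] at h
    simp [XMap.eleft, XMap.eα] at h

theorem wind_xn (hM : Y.IsExpansion (XMap.addS s) none M)
    {P : Draw M} (hP : P.Good) {v : V} (n : Y.XN) :
    P.wind (.inl (some v)) (P.pos (.inr n)) ≠ 1 := by
  intro hw
  obtain ⟨x, h1, h2⟩ := hP.wind_node _ _ (inl_ne_outer hM v) hw
  rw [hM.tail_eq] at h1
  rw [hM.left_eq] at h2
  rcases x with x | ⟨y', b⟩
  · simp [XMap.eleft] at h2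
  · cases b with
    | true => simp [XMap.eleft] at h2
    | false => simp [XMap.etail] at h1

theorem HA_ed (hM : Y.IsExpansion (XMap.addS s) none M)
    {P : Draw M} (hP : P.Good) {q : ℝ × ℝ} {y : Y.Side (XMap.addS s)} (hq : q ∈ HA P y)
    {r : G.Dart ⊕ Bool} : q ∉ P.seg (ed r) := by
  intro h
  rcases hq with hq | hq
  · rw [hq] at h
    exact hP.node_seg _ _ h
  · refine Set.disjoint_left.mp (hP.seg_seg (fwd y) (ed r) (by simp) ?_) hq h
    rw [hM.α_eq]
    simp [XMap.eα]

theorem HA_xn {P : Draw M} (hP : P.Good) {y : Y.Side (XMap.addS s)} {n : Y.XN} :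
    P.pos (.inr n) ∉ HA P y := by
  intro h
  rcases h with h | h
  · have := hP.inj h
    simp at this
  · exact hP.node_seg _ _ h

theorem ed_ed (hM : Y.IsExpansion (XMap.addS s) none M)
    {P : Draw M} (hP : P.Good) {q : ℝ × ℝ} {r r' : G.Dart ⊕ Bool} (h : q ∈ P.seg (ed r))
    (h' : q ∈ P.seg (ed r')) : r' = r ∨ r' = Y.opp r := by
  by_contra hne
  push Not at hne
  refine Set.disjoint_left.mp (hP.seg_seg (ed r) (ed r') ?_ ?_) h h'
  · intro h1
    simp only [Sum.inl.injEq] at h1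
    exact hne.1 h1
  · by_cases hr : Y.Crossed r
    · rw [α_ed hM r hr]
      simp
    · rw [α_ed_of_not hM r hr]
      intro h1
      simp only [Sum.inl.injEq] at h1
      exact hne.2 h1

theorem crs_of_Y (hY : E.toXMap.IsAddInf E.outer Y) {d e : G.Dart}
    (h : Y.crs (.inl d) = some (.inl e)) : E.crs d = some e := by
  rw [hY.crs_l] at h
  cases hd : E.crs d with
  | none => rw [hd] at h; simp at h
  | some e' =>
    rw [hd] at h
    simp only [Option.map_some, Option.some.injEq, Sum.inl.injEq] at h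
    rw [h]

theorem rep_valid (hY : E.toXMap.IsAddInf E.outer Y) (hM : Y.IsExpansion (XMap.addS s) none M)
    {P : Draw M} (hP : P.Good) (hv : ∀ v, ∑ d : G.Dart with d.fst = v, s d = 4)
    (hf : ∀ x : E.PD, (E.SameFace (.inl E.outer) x → E.faceSum (E.wt s) x = -4) ∧
      (¬ E.SameFace (.inl E.outer) x → E.faceSum (E.wt s) x = 4)) :
    (rep hY hM P).Valid where
  simple d d' i i' _ hi hi' hne := by
    rw [Set.disjoint_left]
    rintro q ⟨h1, h2⟩ ⟨h1', h2'⟩
    obtain ⟨y, hy, hq⟩ := mem_side hY hM P hi h1 h2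
    obtain ⟨y', hy', hq'⟩ := mem_side hY hM P hi' h1' h2'
    obtain rfl := HA_unique hM hP hq hq'
    obtain ⟨rfl, rfl⟩ := own_unique hy hy'
    exact hne rfl
  ccw v := by
    rw [← hv v]
    exact Finset.sum_congr rfl fun d _ => rep_turns hY hM P d
  disj v w hvw := by
    rw [Set.disjoint_left]
    intro q h h'
    rcases mem_polygon hY hM hP h with ⟨y, hy, hq⟩ | hw <;>
      rcases mem_polygon hY hM hP h' with ⟨y', hy', hq'⟩ | hw'
    · obtain rfl := HA_unique hM hP hq hq'
      rw [hy] at hy'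
      exact hvw (by simpa using hy')
    · have := wind_HA hM hP hq hw'
      rw [hy] at this
      exact hvw (by simpa using this)
    · have := wind_HA hM hP hq' hw
      rw [hy'] at this
      exact hvw (by simpa using this.symm)
    · have := hP.wind_unique _ _ q (inl_ne_outer hM v) (inl_ne_outer hM w) hw hw'
      exact hvw (by simpa using this)
  edge_polygon d v := by
    rw [Set.disjoint_left]
    intro q h h'
    rcases mem_polygon hY hM hP h' with ⟨y, _, hq⟩ | hw
    · rcases mem_edge hY hM P h with h1 | h1 | ⟨h1, h2⟩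
      · exact HA_ed hM hP hq h1
      · exact HA_ed hM hP hq h1
      · rw [h2] at hq
        exact HA_xn hP hq
    · rcases mem_edge hY hM P h with h1 | h1 | ⟨h1, h2⟩
      · exact wind_ed hM hP h1 hw
      · exact wind_ed hM hP h1 hw
      · rw [h2] at hw
        exact wind_xn hM hP _ hw
  edge_edge d e h1 h2 h3 h4 := by
    rw [Set.disjoint_left]
    intro q h h'
    have hopp : ∀ d : G.Dart, Y.opp (.inl d) = .inl d.symm := fun d => by
      rw [hY.opp_l, E.opp_eq]
    have key : ∀ d' e' : G.Dart, (d' = d ∨ d' = d.symm) → (e' = e ∨ e' = e.symm) →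
        q ∈ P.seg (ed (.inl d')) → q ∈ P.seg (ed (.inl e')) → False := by
      intro d' e' hd' he' hq hq'
      have h5 := ed_ed hM hP hq hq'
      rw [hopp] at h5
      simp only [Sum.inl.injEq] at h5
      have e1 : ∀ d : G.Dart, d.symm.symm = d := fun d => by simp
      rcases hd' with rfl | rfl <;> rcases he' with rfl | rfl <;> rcases h5 with h5 | h5
      · exact h1 h5
      · exact h2 h5
      · exact h2 (by rw [← h5, e1])
      · exact h1 (by rw [← e1 e, h5, e1])
      · exact h2 h5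
      · exact h1 (by rw [h5, e1])
      · exact h1 (by rw [← e1 e, h5, e1])
      · exact h2 (by rw [← e1 e, h5, e1])
    rcases mem_edge hY hM P h with h5 | h5 | ⟨hr, h5⟩ <;>
      rcases mem_edge hY hM P h' with h6 | h6 | ⟨hr', h6⟩
    · exact key _ _ (Or.inl rfl) (Or.inl rfl) h5 h6
    · exact key _ _ (Or.inl rfl) (Or.inr rfl) h5 h6
    · rw [h6] at h5
      exact hP.node_seg _ _ h5
    · exact key _ _ (Or.inr rfl) (Or.inl rfl) h5 h6
    · exact key _ _ (Or.inr rfl) (Or.inr rfl) h5 h6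
    · rw [h6] at h5
      exact hP.node_seg _ _ h5
    · rw [h5] at h6
      exact hP.node_seg _ _ h6
    · rw [h5] at h6
      exact hP.node_seg _ _ h6
    · rw [h6] at h5
      have h7 := hP.inj h5
      simp only [Sum.inr.injEq] at h7
      have h8 := xn_eq_iff Y _ _ h7.symm
      have h9 := Y.crs_crsGet ⟨.inl d, hr⟩
      rcases h8 with h8 | h8 | h8 | h8
      · simp only [Sum.inl.injEq] at h8
        exact h1 h8
      · rw [← h8] at h9
        exact h3 (crs_of_Y hY h9)
      · simp only [hopp, Sum.inl.injEq] at h8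
        exact h2 h8
      · apply h4
        apply crs_of_Y hY
        rw [h9, ← hopp]
        simp only at h8
        rw [h8, Y.opp_opp]
  cross d e hde := by
    have hopp : ∀ d : G.Dart, Y.opp (.inl d) = .inl d.symm := fun d => by
      rw [hY.opp_l, E.opp_eq]
    have hYde : Y.crs (.inl d) = some (.inl e) := by rw [hY.crs_l, hde]; rfl
    have hYed := Y.crs_crs _ _ hYde
    have hcd : Y.Crossed (.inl d) := Option.isSome_iff_exists.mpr ⟨_, hYde⟩
    have hce : Y.Crossed (.inl e) := Option.isSome_iff_exists.mpr ⟨_, hYed⟩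
    have hmid : ∀ (d : G.Dart) (hr : Y.Crossed (.inl d)),
        P.pos (.inr (Y.xn ⟨.inl d, hr⟩)) ∈ (rep hY hM P).edgeSet d := by
      intro d hr
      show _ ∈ openSegment ℝ (P.pos (.inl (sd E Y s d 0))) (P.pos (.inl (sd E Y s d.symm 0)))
      rw [sd_zero, sd_zero]
      have hside : (⟨Y.opp (.inl d), 0⟩ : Y.Side (XMap.addS s)) = ⟨.inl d.symm, 0⟩ :=
        side0_congr (Y := Y) (hopp d)
      have hr' := Y.crossed_opp hr
      obtain ⟨l, hl, h1⟩ := P.len (ed (.inl d))
      obtain ⟨l', hl', h2⟩ := P.len (md ⟨Y.opp (.inl d), hr'⟩)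
      rw [head_ed hM _ hr, tail_ed hM] at h1
      rw [tail_md hM, head_md hM, xn_opp Y _ hr hr', dir_straight hM P _ hr' hr] at h2
      simp only at h2
      rw [hside] at h2
      exact mid_mem hl hl' h1 h2
    refine ⟨⟨_, hmid d hcd, ?_⟩, ?_⟩
    · rw [← xn_crs Y (.inl d) (.inl e) hcd hce hYde]
      exact hmid e hce
    · show P.dir (fwd (sd E Y s e 0)) = P.dir (fwd (sd E Y s d 0)) + 1
      rw [sd_zero, sd_zero]
      have h1 := dir_cross hM P (.inl d) (.inl e) hYde
      rw [dir_ed hM P, dir_ed hM P] at h1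
      have : P.dir (fwd (⟨.inl e, 0⟩ : Y.Side (XMap.addS s))) =
        P.dir (fwd (⟨.inl e, 0⟩ : Y.Side (XMap.addS s))) - 1 + 1 := by ring
      rw [this, h1]
      ring
  faces x := by
    have h1 : (rep hY hM P).turns = s := funext fun d => rep_turns hY hM P d
    have h2 : (rep hY hM P).faceTurns x = E.faceSum (E.wt s) x := by
      unfold OPVR.faceTurns
      rw [h1]
    rw [h2]
    exact hf x

end geom

end main

end Opv

theorem opvr_of_draw {V : Type} [Fintype V] [DecidableEq V] {G : SimpleGraph V}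
    [DecidableRel G.Adj] (E : OnePlane G)
    (Y : XMap (Option V) (G.Dart ⊕ Bool)) (hY : E.toXMap.IsAddInf E.outer Y)
    (s : G.Dart → ℤ) (hv : ∀ v, ∑ d : G.Dart with d.fst = v, s d = 4)
    (hf : ∀ x : E.PD, (E.SameFace (.inl E.outer) x → E.faceSum (E.wt s) x = -4) ∧
      (¬ E.SameFace (.inl E.outer) x → E.faceSum (E.wt s) x = 4))
    [DecidableEq (Y.EN (XMap.addS s))] [DecidableEq (Y.EF (XMap.addS s))]
    (M : Flat (Y.ED (XMap.addS s)) (Y.EN (XMap.addS s)) (Y.EF (XMap.addS s)))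
    (hM : Y.IsExpansion (XMap.addS s) none M) (hD : Drawable M) :
    ∃ Γ : OPVR E, Γ.Valid ∧ Γ.Strict ∧
      ∀ v, (Γ.reflex v : ℤ) = ∑ d : G.Dart with d.fst = v, max 0 (- s d) := by
  obtain ⟨P, hP⟩ := hD
  exact ⟨Opv.rep hY hM P, Opv.rep_valid hY hM hP hv hf, Opv.rep_strict hY hM P,
    Opv.rep_reflex hY hM P⟩

end Pool.Agent.Lib.MP_9ad789_co
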