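import Pool.Agent.Lib.MP_9ad789_co.Sub
import Pool.Agent.Lib.MP_9ad789_co.Opv

/-!
# MP_9ad789_co, module SUBD: a drawing of the subdivision gives a drawing
-/

namespace Pool.Agent.Lib.MP_9ad789_co

open Equiv Finset

set_option linter.unusedSectionVars false

variable {D N F : Type} [Fintype D] [Fintype N] [Fintype F]
  [DecidableEq D] [DecidableEq N] [DecidableEq F]

namespace SubDraw

variable {M : Flat D N F} {c : D} {M' : Flat (D ⊕ Bool) (Option N) F} (h : IsSub M c M')
  (P : Draw M')

include h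

theorem dir_f : P.dir (.inr false) = P.dir (.inl c) := by
  have h1 := P.dir_φ (.inl c)
  rw [h.φ_c, h.turn_c] at h1
  simpa using h1

theorem dir_t : P.dir (.inr true) = P.dir (.inl (M.α c)) := by
  have h1 := P.dir_φ (.inl (M.α c))
  rw [h.φ_c', h.turn_c'] at h1
  simpa using h1

theorem dir_αc : P.dir (.inl (M.α c)) = P.dir (.inl c) + 2 := by
  rw [← dir_t h P, ← h.α_c, P.dir_α]

theorem dir_α (d : D) : P.dir (.inl (M.α d)) = P.dir (.inl d) + 2 := by
  by_cases h1 : d = c
  · subst h1; exact dir_αc h P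
  · by_cases h2 : d = M.α c
    · rw [h2, M.α_α, dir_αc h P, add_assoc, show (2 : ZMod 4) + 2 = 0 by decide, add_zero]
    · rw [← h.α_o d h1 h2, P.dir_α]

theorem dir_φ (d : D) : P.dir (.inl (M.φ d)) = P.dir (.inl d) + (M.turn d : ZMod 4) := by
  by_cases h1 : d = c
  · subst h1
    rw [← h.φ_f, P.dir_φ, dir_f h P, h.turn_f]
  · by_cases h2 : d = M.α c
    · rw [h2, ← h.φ_t, P.dir_φ, dir_t h P, h.turn_t]
    · rw [← h.φ_o d h1 h2, P.dir_φ, h.turn_o d h1 h2]

theorem head_c : M'.head (.inl c) = none := by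
  show M'.tail (M'.α _) = _
  rw [h.α_c, h.tail_r]

theorem head_f : M'.head (.inr false) = some (M.head c) := by
  show M'.tail (M'.α _) = _
  rw [h.α_f, h.tail_l]
  rfl

theorem head_c' : M'.head (.inl (M.α c)) = none := by
  show M'.tail (M'.α _) = _
  rw [h.α_c', h.tail_r]

theorem head_t : M'.head (.inr true) = some (M.tail c) := by
  show M'.tail (M'.α _) = _
  rw [h.α_t, h.tail_l]

theorem head_o {d : D} (h1 : d ≠ c) (h2 : d ≠ M.α c) : M'.head (.inl d) = some (M.head d) := by
  show M'.tail (M'.α _) = _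
  rw [h.α_o d h1 h2, h.tail_l]
  rfl

theorem len_c : ∃ l : ℝ, 0 < l ∧ P.pos none = P.pos (some (M.tail c)) + l • unit (P.dir (.inl c)) := by
  obtain ⟨l, hl, h1⟩ := P.len (.inl c)
  rw [head_c h, h.tail_l] at h1
  exact ⟨l, hl, h1⟩

theorem len_f : ∃ l : ℝ, 0 < l ∧ P.pos (some (M.head c)) = P.pos none + l • unit (P.dir (.inl c)) := by
  obtain ⟨l, hl, h1⟩ := P.len (.inr false)
  rw [head_f h, h.tail_r, dir_f h P] at h1
  exact ⟨l, hl, h1⟩

theorem len_c' : ∃ l : ℝ, 0 < l ∧
    P.pos none = P.pos (some (M.head c)) + l • unit (P.dir (.inl (M.α c))) := by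
  obtain ⟨l, hl, h1⟩ := P.len (.inl (M.α c))
  rw [head_c' h, h.tail_l] at h1
  exact ⟨l, hl, h1⟩

theorem len_t : ∃ l : ℝ, 0 < l ∧
    P.pos (some (M.tail c)) = P.pos none + l • unit (P.dir (.inl (M.α c))) := by
  obtain ⟨l, hl, h1⟩ := P.len (.inr true)
  rw [head_t h, h.tail_r, dir_t h P] at h1
  exact ⟨l, hl, h1⟩

/-- The drawing of `M`. -/
def draw : Draw M where
  dir d := P.dir (.inl d)
  pos n := P.pos (some n)
  dir_α := dir_α h P
  dir_φ := dir_φ h P
  len d := by
    by_cases h1 : d = c
    · subst h1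
      obtain ⟨l, hl, h2⟩ := len_c h P
      obtain ⟨l', hl', h3⟩ := len_f h P
      refine ⟨l + l', by positivity, ?_⟩
      rw [h3, h2, add_smul, add_assoc]
    · by_cases h2 : d = M.α c
      · subst h2
        obtain ⟨l, hl, h2⟩ := len_c' h P
        obtain ⟨l', hl', h3⟩ := len_t h P
        refine ⟨l + l', by positivity, ?_⟩
        rw [M.head_α, h3, h2, add_smul, add_assoc]
        rfl
      · obtain ⟨l, hl, h3⟩ := P.len (.inl d)
        rw [head_o h h1 h2, h.tail_l] at h3
        exact ⟨l, hl, h3⟩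

omit h in
theorem seg_α {D N F : Type} [Fintype D] [DecidableEq N] [DecidableEq F] {M : Flat D N F}
    (P : Draw M) (x : D) : P.seg (M.α x) = P.seg x := by
  unfold Draw.seg
  rw [M.head_α, M.tail_α, openSegment_symm]

theorem mem_seg_c {q : ℝ × ℝ} (hq : q ∈ (draw h P).seg c) :
    q ∈ P.seg (.inl c) ∨ q ∈ P.seg (.inr false) ∨ q = P.pos none := by
  obtain ⟨l, hl, h2⟩ := len_c h P
  obtain ⟨l', hl', h3⟩ := len_f h P
  have h4 := Opv.openSegment_split (Opv.mid_mem hl hl' h2 h3) hq
  rcases h4 with h4 | h4 | h4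
  · exact Or.inr (Or.inr h4)
  · left
    unfold Draw.seg
    rw [head_c h, h.tail_l]
    exact h4
  · right; left
    unfold Draw.seg
    rw [head_f h, h.tail_r]
    exact h4

theorem mem_seg_o {q : ℝ × ℝ} {d : D} (h1 : d ≠ c) (h2 : d ≠ M.α c)
    (hq : q ∈ (draw h P).seg d) : q ∈ P.seg (.inl d) := by
  unfold Draw.seg
  rw [head_o h h1 h2, h.tail_l]
  exact hq

theorem wind_eq (f : F) (q : ℝ × ℝ) : (draw h P).wind f q = P.wind f q := by
  have e1 : (draw h P).wind f q = ∑ d : D, if M.left d = f then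
      Opv.term q (P.dir (.inl d)) (P.pos (some (M.tail d))) (P.pos (some (M.head d))) else 0 := by
    rw [← Finset.sum_filter]
    rfl
  have e2 : P.wind f q = ∑ x : D ⊕ Bool, if M'.left x = f then
      Opv.term q (P.dir x) (P.pos (M'.tail x)) (P.pos (M'.head x)) else 0 := by
    rw [← Finset.sum_filter]
    rfl
  rw [e1, e2, Fintype.sum_sum_type, Fintype.sum_bool, h.left_t, h.left_f, h.tail_r, h.tail_r,
    head_t h, head_f h, dir_t h P, dir_f h P]
  -- compare the darts
  have e3 : ∀ d : D, (if M.left d = f then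
      Opv.term q (P.dir (.inl d)) (P.pos (some (M.tail d))) (P.pos (some (M.head d))) else 0) =
      (if M'.left (.inl d) = f then
        Opv.term q (P.dir (.inl d)) (P.pos (M'.tail (.inl d))) (P.pos (M'.head (.inl d))) else 0) +
      ((if d = M.α c then (if M.right c = f then
        Opv.term q (P.dir (.inl (M.α c))) (P.pos none) (P.pos (some (M.tail c))) else 0) else 0) +
      (if d = c then (if M.left c = f then
        Opv.term q (P.dir (.inl c)) (P.pos none) (P.pos (some (M.head c))) else 0) else 0)) := by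
    intro d
    rw [h.left_l, h.tail_l]
    by_cases h1 : d = c
    · subst h1
      obtain ⟨l, hl, h2⟩ := len_c h P
      obtain ⟨l', hl', h3⟩ := len_f h P
      rw [if_neg (M.α_ne d).symm, if_pos rfl, zero_add, head_c h]
      split_ifs
      · exact Opv.term_split q hl hl' h2 h3
      · rfl
    · by_cases h2 : d = M.α c
      · subst h2
        obtain ⟨l, hl, h2⟩ := len_c' h P
        obtain ⟨l', hl', h3⟩ := len_t h P
        rw [if_pos rfl, if_neg h1, add_zero, head_c' h, M.head_α]
        have : M.left (M.α c) = M.right c := rfl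
        rw [this]
        split_ifs
        · exact Opv.term_split q hl hl' h2 h3
        · rfl
      · rw [if_neg h1, if_neg h2, add_zero, add_zero, head_o h h1 h2]
  rw [Finset.sum_congr rfl (fun d _ => e3 d), Finset.sum_add_distrib, Finset.sum_add_distrib,
    Finset.sum_ite_eq', Finset.sum_ite_eq', if_pos (mem_univ _), if_pos (mem_univ _)]

omit h in
/-- The darts of `M'` which make up the edge of `d` (together with the node `none`). -/
def Part (M : Flat D N F) (c : D) (x : D ⊕ Bool) (d : D) : Prop :=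
  (x = .inl d ∧ d ≠ c ∧ d ≠ M.α c) ∨ ((x = .inl c ∨ x = .inr false) ∧ (d = c ∨ d = M.α c))

theorem mem_seg {q : ℝ × ℝ} {d : D} (hq : q ∈ (draw h P).seg d) :
    (∃ x, q ∈ P.seg x ∧ Part M c x d) ∨ (q = P.pos none ∧ (d = c ∨ d = M.α c)) := by
  by_cases h1 : d = c ∨ d = M.α c
  · have hq' : q ∈ (draw h P).seg c := by
      rcases h1 with h1 | h1
      · exact h1 ▸ hq
      · rw [h1] at hq
        have h2 : (draw h P).seg (M.α c) = (draw h P).seg c := SubDraw.seg_α (draw h P) c
        rw [h2] at hq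
        exact hq
    rcases mem_seg_c h P hq' with h2 | h2 | h2
    · exact Or.inl ⟨_, h2, Or.inr ⟨Or.inl rfl, h1⟩⟩
    · exact Or.inl ⟨_, h2, Or.inr ⟨Or.inr rfl, h1⟩⟩
    · exact Or.inr ⟨h2, h1⟩
  · push Not at h1
    exact Or.inl ⟨_, mem_seg_o h P h1.1 h1.2 hq, Or.inl ⟨rfl, h1.1, h1.2⟩⟩

theorem part_sides {x : D ⊕ Bool} {d : D} (hx : Part M c x d) {f : F}
    (hf : f = M'.left x ∨ f = M'.right x) : f = M.left d ∨ f = M.right d := by
  unfold Cell.right at hf ⊢
  rcases hx with ⟨rfl, h1, h2⟩ | ⟨hx | hx, hd | hd⟩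
  · rw [h.α_o d h1 h2, h.left_l, h.left_l] at hf
    exact hf
  · rw [hx, h.α_c, h.left_l, h.left_t] at hf
    rw [hd]; exact hf
  · rw [hx, h.α_c, h.left_l, h.left_t] at hf
    rw [hd, M.α_α]; exact hf.symm
  · rw [hx, h.α_f, h.left_l, h.left_f] at hf
    rw [hd]; exact hf
  · rw [hx, h.α_f, h.left_l, h.left_f] at hf
    rw [hd, M.α_α]; exact hf.symm

theorem good (hP : P.Good) : (draw h P).Good where
  inj a b hab := by
    have := hP.inj hab
    simpa using this
  node_seg n d hq := by
    rcases mem_seg h P hq with ⟨x, hx, -⟩ | ⟨hx, -⟩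
    · exact hP.node_seg _ _ hx
    · have := hP.inj hx
      simp at this
  seg_seg d d' h1 h2 := by
    rw [Set.disjoint_left]
    intro q hq hq'
    rcases mem_seg h P hq with ⟨x, hx, hxd⟩ | ⟨hx, hd⟩ <;>
      rcases mem_seg h P hq' with ⟨x', hx', hxd'⟩ | ⟨hx', hd'⟩
    · refine Set.disjoint_left.mp (hP.seg_seg x x' ?_ ?_) hx hx'
      · rintro rfl
        rcases hxd with ⟨h3, h4, h5⟩ | ⟨h3, h4⟩ <;> rcases hxd' with ⟨h3', h4', h5'⟩ | ⟨h3', h4'⟩
        · rw [h3] at h3'
          simp only [Sum.inl.injEq] at h3'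
          exact h1 h3'.symm
        · rw [h3] at h3'
          rcases h3' with h3' | h3'
          · simp only [Sum.inl.injEq] at h3'
            exact h4 h3'
          · simp at h3'
        · rw [h3'] at h3
          rcases h3 with h3 | h3
          · simp only [Sum.inl.injEq] at h3
            exact h4' h3
          · simp at h3
        · rcases h4 with h4 | h4 <;> rcases h4' with h4' | h4'
          · exact h1 (h4'.trans h4.symm)
          · exact h2 (by rw [h4, h4'])
          · exact h2 (by rw [h4, h4', M.α_α])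
          · exact h1 (h4'.trans h4.symm)
      · rintro rfl
        rcases hxd with ⟨h3, h4, h5⟩ | ⟨h3, h4⟩ <;> rcases hxd' with ⟨h3', h4', h5'⟩ | ⟨h3', h4'⟩
        · rw [h3, h.α_o d h4 h5] at h3'
          simp only [Sum.inl.injEq] at h3'
          exact h2 h3'.symm
        · rw [h3, h.α_o d h4 h5] at h3'
          rcases h3' with h3' | h3'
          · simp only [Sum.inl.injEq] at h3'
            exact h5 (by rw [← h3', M.α_α])
          · simp at h3'
        · rcases h3 with h3 | h3
          · rw [h3, h.α_c] at h3'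
            simp at h3'
          · rw [h3, h.α_f] at h3'
            simp only [Sum.inl.injEq] at h3'
            exact h5' h3'.symm
        · rcases h4 with h4 | h4 <;> rcases h4' with h4' | h4'
          · exact h1 (h4'.trans h4.symm)
          · exact h2 (by rw [h4, h4'])
          · exact h2 (by rw [h4, h4', M.α_α])
          · exact h1 (h4'.trans h4.symm)
    · rw [hx'] at hx
      exact hP.node_seg _ _ hx
    · rw [hx] at hx'
      exact hP.node_seg _ _ hx'
    · rcases hd with h4 | h4 <;> rcases hd' with h4' | h4'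
      · exact h1 (h4'.trans h4.symm)
      · exact h2 (by rw [h4, h4'])
      · exact h2 (by rw [h4, h4', M.α_α])
      · exact h1 (h4'.trans h4.symm)
  wind_01 f hf q := by
    rw [wind_eq]
    exact hP.wind_01 f (by rw [h.outer]; exact hf) q
  wind_unique f f' q hf hf' h1 h2 := by
    rw [wind_eq] at h1 h2
    exact hP.wind_unique f f' q (by rw [h.outer]; exact hf) (by rw [h.outer]; exact hf') h1 h2
  wind_node f n hf h1 := by
    rw [wind_eq] at h1
    obtain ⟨x, h2, h3⟩ := hP.wind_node f (some n) (by rw [h.outer]; exact hf) h1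
    rcases x with d | b
    · rw [h.tail_l] at h2
      rw [h.left_l] at h3
      exact ⟨d, by simpa using h2, h3⟩
    · rw [h.tail_r] at h2
      simp at h2
  wind_seg f d hf q hq h1 := by
    rw [wind_eq] at h1
    have hf' : f ≠ M'.outer := by rw [h.outer]; exact hf
    rcases mem_seg h P hq with ⟨x, hx, hxd⟩ | ⟨hx, hd⟩
    · exact part_sides h hxd (hP.wind_seg f x hf' q hx h1)
    · rw [hx] at h1
      obtain ⟨x, h2, h3⟩ := hP.wind_node f none hf' h1
      have h4 : f = M.left c ∨ f = M.right c := by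
        rcases x with d | (_ | _)
        · rw [h.tail_l] at h2
          simp at h2
        · rw [h.left_f] at h3
          exact Or.inl h3.symm
        · rw [h.left_t] at h3
          exact Or.inr h3.symm
      rcases hd with rfl | rfl
      · exact h4
      · rw [M.right_α]
        exact h4.symm

end SubDraw

theorem sub_drawable (M : Flat D N F) (c : D) (M' : Flat (D ⊕ Bool) (Option N) F)
    (h : IsSub M c M') (hM' : Drawable M') : Drawable M := by
  obtain ⟨P, hP⟩ := hM'
  exact ⟨SubDraw.draw h P, SubDraw.good h P hP⟩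

end Pool.Agent.Lib.MP_9ad789_co
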