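import Pool.Agent.Lib.MP_9ad789_co.Pat
import Pool.Agent.Lib.MP_9ad789_co.Sub
import Pool.Agent.Lib.MP_9ad789_co.SubDraw
import Pool.Agent.Lib.MP_9ad789_co.ChordDraw
import Pool.Agent.Lib.MP_9ad789_co.Dir
import Pool.Agent.Lib.MP_9ad789_co.Rect

/-!
# MP_9ad789_co : every framed flat map can be drawn
-/

set_option linter.unusedSectionVars false

namespace Pool.Agent.Lib.MP_9ad789_co

open Equiv Finset

namespace GRaux

variable {D N F : Type} [Fintype D] [Fintype N] [Fintype F]
  [DecidableEq D] [DecidableEq N] [DecidableEq F]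

/-- reflex corners of inner faces -/
def bad (M : Flat D N F) : Finset D := univ.filter fun d => M.left d ≠ M.outer ∧ M.turn d = -1

theorem mem_bad {M : Flat D N F} {d : D} : d ∈ bad M ↔ M.left d ≠ M.outer ∧ M.turn d = -1 := by
  unfold bad
  rw [mem_filter]
  simp

theorem sum_Icc (g : ℕ → ℤ) (n : ℕ) : ∑ i ∈ Icc 1 n, g i + g 0 = ∑ i ∈ range (n + 1), g i := by
  induction n with
  | zero => simp
  | succ n ih =>
    rw [sum_Icc_succ_top (by omega), sum_range_succ _ (n + 1), ← ih]
    ring

theorem left_iter (M : Flat D N F) (i : ℕ) (d : D) : M.left ((M.φ^[i]) d) = M.left d := by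
  induction i with
  | zero => rfl
  | succ i ih => rw [Function.iterate_succ_apply', M.left_φ, ih]

/-- the boundary of a face -/
theorem face_cycle (M : Flat D N F) (a : D) (k : ℕ) (hka : ∀ i, 0 < i → i ≤ k → (M.φ^[i]) a ≠ a)
    (hc : (M.φ^[k + 1]) a = a) :
    ∑ d with M.left d = M.left a, M.turn d = ∑ i ∈ range (k + 1), M.turn ((M.φ^[i]) a) := by
  classical
  have himg : univ.filter (fun d => M.left d = M.left a) =
      (range (k + 1)).image fun i => (M.φ^[i]) a := by
    ext d
    simp only [mem_filter, mem_univ, true_and, mem_image, mem_range]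
    constructor
    · intro h
      obtain ⟨n, -, hn⟩ := (M.tight.left_same a d h.symm).exists_pow_eq'
      rw [← Perm.iterate_eq_pow] at hn
      refine ⟨n % (k + 1), Nat.mod_lt _ (by omega), ?_⟩
      rw [← hn]
      have hp : Function.IsPeriodicPt M.φ (k + 1) a := hc
      exact hp.iterate_mod_apply n
    · rintro ⟨i, -, rfl⟩
      exact left_iter M i a
  rw [himg, sum_image]
  intro i hi j hj hij
  simp only [coe_range, Set.mem_Iio] at hi hj
  have key : ∀ i j, i < j → j < k + 1 → (M.φ^[i]) a ≠ (M.φ^[j]) a := by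
    intro i j hij hj h
    obtain ⟨m, rfl⟩ := Nat.exists_eq_add_of_lt hij
    have h4 : (M.φ^[i]) a = (M.φ^[i]) ((M.φ^[m + 1]) a) := by
      rw [← Function.iterate_add_apply]
      rw [h]
      rfl
    have h5 := M.φ.injective.iterate i h4
    exact hka (m + 1) (by omega) (by omega) h5.symm
  rcases lt_trichotomy i j with h | h | h
  · exact absurd hij (key i j h hj)
  · exact h
  · exact absurd hij.symm (key j i h hi)

/-- one step of the induction -/
theorem step (M : Flat D N F) (hF : M.Framed) (e : D) (he : M.turn e = -1)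
    (ho : M.left e ≠ M.outer) :
    ∃ M2 : Flat ((D ⊕ Bool) ⊕ Bool) (Option N) (Option F), M2.Framed ∧
      (bad M2).card < (bad M).card ∧ (Drawable M2 → Drawable M) := by
  classical
  obtain ⟨a, k, ha1, ha2, hk, hk1, hk2, hk3⟩ := exists_pattern M e he ho
  have hao : M.left a ≠ M.outer := by rw [ha1]; exact ho
  have hka : ∀ i, 0 < i → i ≤ k → (M.φ^[i]) a ≠ a := by
    intro i h1 h2 h3
    have := hk1 i h1 h2
    rw [h3, ha2] at this
    omega
  set c := (M.φ^[k + 1]) a with hc
  have hsum : ∑ i ∈ range (k + 1), M.turn ((M.φ^[i]) a) = 1 := by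
    rw [← sum_Icc (fun i => M.turn ((M.φ^[i]) a)) k, hk3]
    change 2 + M.turn a = 1
    rw [ha2]
    norm_num
  have hca : c ≠ a := by
    intro h
    have h1 := face_cycle M a k hka h
    rw [hsum, M.face_sum, if_neg hao] at h1
    omega
  have hlc : M.left c = M.left a := left_iter M _ a
  -- directions
  have hcα : c ≠ M.α a := by
    obtain ⟨dir, hd1, hd2⟩ := exists_dir M
    have h1 : ∀ i, dir ((M.φ^[i]) a) = dir a + ((∑ j ∈ range i, M.turn ((M.φ^[j]) a) : ℤ) : ZMod 4) := by
      intro i
      induction i with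
      | zero => simp
      | succ i ih =>
        rw [Function.iterate_succ_apply', hd2, ih, sum_range_succ]
        push_cast
        ring
    intro h
    have h2 := h1 (k + 1)
    rw [hsum, ← hc, h, hd1] at h2
    have h3 := add_left_cancel h2
    revert h3
    decide
  have hαc : M.α c ≠ a := fun h => hcα (by rw [← h, M.α_α])
  have hαcc : M.α c ≠ c := M.α_ne c
  have hfc : ∀ i, i ≤ k → (M.φ^[i]) a ≠ c := by
    intro i hi h
    have h4 : (M.φ^[i]) a = (M.φ^[i]) ((M.φ^[k + 1 - i]) a) := by
      rw [← Function.iterate_add_apply, show i + (k + 1 - i) = k + 1 by omega]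
      exact h
    have h5 := M.φ.injective.iterate i h4
    rcases Nat.eq_zero_or_pos i with rfl | hi0
    · exact hca h.symm
    · exact hka (k + 1 - i) (by omega) (by omega) h5.symm
  obtain ⟨M1, hM1⟩ := exists_sub M c
  -- the way from `a` to `c`
  have hQ : ∀ m, m ≤ k + 1 → ∃ m', (M1.φ^[m']) (.inl a) = .inl ((M.φ^[m]) a) ∧
      (∀ i, 0 < i → i ≤ m' → (M1.φ^[i]) (.inl a) ≠ .inl a) ∧
      ∑ i ∈ range m', M1.turn ((M1.φ^[i]) (.inl a)) = ∑ i ∈ range m, M.turn ((M.φ^[i]) a) := by
    intro m
    induction m with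
    | zero => exact fun _ => ⟨0, rfl, fun i h1 h2 => by omega, by simp⟩
    | succ m ih =>
      intro hm
      obtain ⟨m', h1, h2, h3⟩ := ih (by omega)
      have hne : (M.φ^[m + 1]) a ≠ a := by
        rcases Nat.lt_or_ge k (m + 1) with h | h
        · have : m + 1 = k + 1 := by omega
          rw [this]
          exact hca
        · exact hka (m + 1) (by omega) h
      by_cases hα : (M.φ^[m]) a = M.α c
      · have e1 : (M1.φ^[m' + 1]) (.inl a) = .inr true := by
          rw [Function.iterate_succ_apply', h1, hα, hM1.φ_c']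
        have e2 : (M1.φ^[m' + 2]) (.inl a) = .inl ((M.φ^[m + 1]) a) := by
          rw [Function.iterate_succ_apply', e1, hM1.φ_t, Function.iterate_succ_apply', hα]
        refine ⟨m' + 2, e2, ?_, ?_⟩
        · intro i h4 h5
          rcases Nat.lt_or_ge m' i with h6 | h6
          · rcases Nat.lt_or_ge (m' + 1) i with h7 | h7
            · have : i = m' + 2 := by omega
              rw [this, e2]
              intro h8
              exact hne (Sum.inl.inj h8)
            · have : i = m' + 1 := by omega
              rw [this, e1]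
              simp
          · exact h2 i h4 h6
        · rw [sum_range_succ, sum_range_succ, h3, h1, e1, sum_range_succ, hα, hM1.turn_c',
            hM1.turn_t]
          ring
      · have e1 : (M1.φ^[m' + 1]) (.inl a) = .inl ((M.φ^[m + 1]) a) := by
          rw [Function.iterate_succ_apply', h1, hM1.φ_o _ (hfc m (by omega)) hα,
            Function.iterate_succ_apply']
        refine ⟨m' + 1, e1, ?_, ?_⟩
        · intro i h4 h5
          rcases Nat.lt_or_ge m' i with h6 | h6
          · have : i = m' + 1 := by omega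
            rw [this, e1]
            intro h8
            exact hne (Sum.inl.inj h8)
          · exact h2 i h4 h6
        · rw [sum_range_succ, h3, h1, sum_range_succ, hM1.turn_o _ (hfc m (by omega)) hα]
  obtain ⟨n, hn1, hn2, hn3⟩ := hQ (k + 1) le_rfl
  rw [← hc] at hn1
  rw [hsum] at hn3
  have hn0 : 0 < n := by
    rcases Nat.eq_zero_or_pos n with rfl | h
    · exact absurd (Sum.inl.inj hn1).symm hca
    · exact h
  have hta : M1.turn (.inl a) = -1 := by
    rw [hM1.turn_o a hca.symm hαc.symm, ha2]
  have hsumn : ∑ i ∈ Icc 1 n, M1.turn ((M1.φ^[i]) (.inl a)) = 2 := by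
    have h1 := sum_Icc (fun i => M1.turn ((M1.φ^[i]) (.inl a))) n
    rw [sum_range_succ, hn3, hn1, hM1.turn_c] at h1
    change _ + M1.turn (.inl a) = _ at h1
    rw [hta] at h1
    linarith
  have hol : M1.left (.inl a) ≠ M1.outer := by
    rw [hM1.left_l, hM1.outer]
    exact hao
  have hc1 : (2 - (0 : ℤ)) + (2 - 1) = 2 - M1.turn (.inl a) := by
    rw [hta]
    norm_num
  have hc2 : (2 - (1 : ℤ)) + (2 - 1) = 2 - M1.turn ((M1.φ^[n]) (.inl a)) := by
    rw [hn1, hM1.turn_c]
    norm_num
  have hc3 : (∑ i ∈ Icc 1 n, M1.turn ((M1.φ^[i]) (.inl a))) -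
      M1.turn ((M1.φ^[n]) (.inl a)) + 1 + 1 = 4 := by
    rw [hsumn, hn1, hM1.turn_c]
    norm_num
  obtain ⟨M2, hM2⟩ := exists_chord M1 (.inl a) n hn0 hn2 hol 0 1 1 1 (by norm_num) (by norm_num)
    (by norm_num) (by norm_num) hc1 hc2 hc3
  -- faces of M2
  have hout : M2.outer = some M.outer := by rw [hM2.outer, hM1.outer]
  have hleft2 : ∀ y, M2.left (.inl y) = some M.outer → M1.left y = M.outer := by
    intro y hy
    by_cases h : ∃ i, 0 < i ∧ i ≤ n ∧ y = (M1.φ^[i]) (.inl a)
    · obtain ⟨i, h1, h2, rfl⟩ := h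
      rw [hM2.left_in i h1 h2] at hy
      exact absurd hy (by simp)
    · rw [hM2.left_out y (fun i h1 h2 h3 => h ⟨i, h1, h2, h3⟩)] at hy
      exact Option.some.inj hy
  have hleft2' : ∀ y, M1.left y = M.outer → M2.left (.inl y) = some M.outer := by
    intro y hy
    rw [hM2.left_out y, hy]
    intro i _ _ h3
    rw [h3, left_iter, hM1.left_l] at hy
    exact hao hy
  have hturn2 : ∀ y, y ≠ .inl a → y ≠ .inl c → M2.turn (.inl y) = M1.turn y := by
    intro y h1 h2
    rw [hM2.turn_o y h1]
    rw [hn1]
    exact h2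
  have hα_left : M.left (M.α c) = M.right c := rfl
  refine ⟨M2, ?_, ?_, ?_⟩
  · -- framed
    intro x hx
    rw [hout] at hx
    rcases x with y | (_ | _)
    · have h1 := hleft2 y hx
      have h2 : y ≠ .inl a := by
        rintro rfl
        rw [hM1.left_l] at h1
        exact hao h1
      have h3 : y ≠ .inl c := by
        rintro rfl
        rw [hM1.left_l, hlc] at h1
        exact hao h1
      rw [hturn2 y h2 h3]
      rcases y with d | (_ | _)
      · by_cases h4 : d = M.α c
        · rw [h4, hM1.turn_c']
        · rw [hM1.turn_o d (fun h5 => h3 (by rw [h5])) h4]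
          rw [hM1.left_l] at h1
          exact hF d h1
      · rw [hM1.left_f, hlc] at h1
        exact absurd h1 hao
      · rw [hM1.left_t] at h1
        rw [hM1.turn_t]
        exact hF _ h1
    · rw [hM2.left_f, hM1.left_l] at hx
      exact absurd (Option.some.inj hx) hao
    · rw [hM2.left_t] at hx
      exact absurd hx (by simp)
  · -- counting
    have haS : a ∈ bad M := mem_bad.mpr ⟨hao, ha2⟩
    let g : (D ⊕ Bool) ⊕ Bool → D := fun x => match x with
      | .inl (.inl d) => d
      | .inl (.inr false) => c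
      | .inl (.inr true) => M.α c
      | .inr _ => a
    have hform : ∀ x ∈ bad M2, (∃ d, x = .inl (.inl d) ∧ d ≠ a ∧ d ≠ c ∧ d ≠ M.α c ∧
        M.turn d = -1 ∧ M.left d ≠ M.outer) ∨
        (x = .inl (.inr false) ∧ M.turn c = -1 ∧ M.left c ≠ M.outer) ∨
        (x = .inl (.inr true) ∧ M.turn (M.α c) = -1 ∧ M.left (M.α c) ≠ M.outer) := by
      intro x hx
      obtain ⟨h1, h2⟩ := mem_bad.mp hx
      rw [hout] at h1
      rcases x with y | (_ | _)
      · have h3 : M1.left y ≠ M.outer := fun h4 => h1 (hleft2' y h4)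
        have h4 : y ≠ .inl a := by
          rintro rfl
          rw [hM2.turn_a] at h2
          norm_num at h2
        have h5 : y ≠ .inl c := by
          rintro rfl
          have := hM2.turn_b
          rw [hn1] at this
          rw [this] at h2
          norm_num at h2
        rw [hturn2 y h4 h5] at h2
        rcases y with d | (_ | _)
        · left
          have h6 : d ≠ M.α c := by
            rintro rfl
            rw [hM1.turn_c'] at h2
            norm_num at h2
          have h7 : d ≠ c := fun h8 => h5 (by rw [h8])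
          rw [hM1.turn_o d h7 h6] at h2
          rw [hM1.left_l] at h3
          exact ⟨d, rfl, fun h8 => h4 (by rw [h8]), h7, h6, h2, h3⟩
        · right; left
          rw [hM1.turn_f] at h2
          rw [hM1.left_f] at h3
          exact ⟨rfl, h2, h3⟩
        · right; right
          rw [hM1.turn_t] at h2
          rw [hM1.left_t] at h3
          exact ⟨rfl, h2, h3⟩
      · rw [hM2.turn_f] at h2
        norm_num at h2
      · rw [hM2.turn_t] at h2
        norm_num at h2
    have hle : (bad M2).card ≤ ((bad M).erase a).card := by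
      apply card_le_card_of_injOn g
      · intro x hx
        rw [mem_coe, mem_erase, mem_bad]
        rcases hform x hx with ⟨d, rfl, h1, h2, h3, h4, h5⟩ | ⟨rfl, h1, h2⟩ | ⟨rfl, h1, h2⟩
        · exact ⟨h1, h5, h4⟩
        · exact ⟨hca, h2, h1⟩
        · exact ⟨hαc, h2, h1⟩
      · intro x hx y hy hxy
        rcases hform x hx with ⟨d, rfl, h1, h2, h3, -, -⟩ | ⟨rfl, -, -⟩ | ⟨rfl, -, -⟩ <;>
          rcases hform y hy with ⟨d', rfl, h1', h2', h3', -, -⟩ | ⟨rfl, -, -⟩ | ⟨rfl, -, -⟩
        · change d = d' at hxy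
          rw [hxy]
        · exact absurd hxy h2
        · exact absurd hxy h3
        · exact absurd hxy.symm h2'
        · rfl
        · exact absurd hxy.symm hαcc
        · exact absurd hxy.symm h3'
        · exact absurd hxy hαcc
        · rfl
    have hlt : ((bad M).erase a).card < (bad M).card := card_erase_lt_of_mem haS
    omega
  · intro hD
    apply sub_drawable M c M1 hM1
    exact chord_drawable M1 (.inl a) n hn0 hn2 hol 0 1 1 1 hc1 hc2 M2 hM2 hD

theorem main : ∀ (n : ℕ) (D N F : Type) [Fintype D] [Fintype N] [Fintype F]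
    [DecidableEq D] [DecidableEq N] [DecidableEq F] (M : Flat D N F), M.Framed →
    (bad M).card = n → Drawable M := by
  intro n
  induction n using Nat.strong_induction_on with
  | _ n ih =>
    intro D N F _ _ _ _ _ _ M hF hn
    by_cases h : ∃ e, M.left e ≠ M.outer ∧ M.turn e = -1
    · obtain ⟨e, he1, he2⟩ := h
      obtain ⟨M2, h1, h2, h3⟩ := step M hF e he2 he1
      exact h3 (ih _ (hn ▸ h2) _ _ _ M2 h1 rfl)
    · push Not at h
      apply rect_drawable M hF
      intro d hd
      rcases M.turn_mem d with h1 | h1 | h1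
      · exact absurd h1 (h d hd)
      · rw [h1]
      · rw [h1]
        norm_num

end GRaux

variable {D N F : Type} [Fintype D] [Fintype N] [Fintype F]
  [DecidableEq D] [DecidableEq N] [DecidableEq F]

theorem drawable (M : Flat D N F) (hF : M.Framed) : Drawable M :=
  GRaux.main _ D N F M hF rfl

end Pool.Agent.Lib.MP_9ad789_co
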