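import Mathlib

/-!
# MP_9ad789_co : 1-plane graphs and ortho-polygon visibility representations (definitions)

`XMap V R` is the combinatorial description, up to homeomorphism of the plane, of a drawing of a
finite graph in the plane in which every edge is crossed at most once: `R` is the set of edge-ends
(half-edges), `vert` the vertex of an edge-end, `opp` the other end of the same edge, `rot` the
next edge-end at the same vertex in counterclockwise order, and `crs d = some e` says that the
edge of `d` (walked from the end `d` to the end `opp d`) is crossed by the edge of `e`, and that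
this edge, walked from `e` to `opp e`, crosses it from right to left.
-/

namespace Pool.Agent.Lib.MP_9ad789_co

open Equiv Finset

/-- Rotation system with crossings. -/
structure XMap (V R : Type) where
  rot : Perm R
  vert : R → V
  opp : R → R
  crs : R → Option R
  vert_rot : ∀ d, vert (rot d) = vert d
  vert_same : ∀ d d', vert d = vert d' → rot.SameCycle d d'
  opp_opp : ∀ d, opp (opp d) = d
  opp_ne : ∀ d, opp d ≠ d
  crs_crs : ∀ d e, crs d = some e → crs e = some (opp d)
  /-- adjacent edges do not cross -/
  crs_vert : ∀ d e, crs d = some e → vert e ≠ vert d

namespace XMap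

variable {V R : Type} (X : XMap V R)

theorem crs_opp {d e : R} (h : X.crs d = some e) : X.crs (X.opp d) = some (X.opp e) :=
  X.crs_crs _ _ (X.crs_crs _ _ h)

/-- The edge of `d` is crossed. -/
def Crossed (d : R) : Prop := (X.crs d).isSome = true

instance (d : R) : Decidable (X.Crossed d) := by unfold Crossed; infer_instance

theorem crossed_opp {d : R} (h : X.Crossed d) : X.Crossed (X.opp d) := by
  obtain ⟨e, he⟩ := Option.isSome_iff_exists.mp h
  exact Option.isSome_iff_exists.mpr ⟨_, X.crs_opp he⟩

/-- The darts of the planarisation: `inl d` is the first piece of the edge walked from the end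
`d` (from the vertex `vert d` to the crossing, or to the other vertex if the edge is not crossed),
`inr d`, for a crossed edge, is the same piece walked backwards (from the crossing to `vert d`). -/
abbrev PD := R ⊕ {d : R // X.Crossed d}

/-- The edge crossing `d` from right to left. -/
def crsGet (d : {d : R // X.Crossed d}) : R := (X.crs d.1).get d.2

theorem crs_crsGet (d : {d : R // X.Crossed d}) : X.crs d.1 = some (X.crsGet d) :=
  (Option.some_get d.2).symm

/-- The reversed dart. -/
def rev : X.PD → X.PD
  | .inl d => if h : X.Crossed d then .inr ⟨d, h⟩ else .inl (X.opp d)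
  | .inr d => .inl d.1

/-- Walking along a face which is kept on the left: at a vertex turn to the next edge-end in
clockwise order, at a crossing turn left. -/
def next : X.PD → X.PD
  | .inl d => if h : X.Crossed d then
      .inr ⟨X.opp (X.crsGet ⟨d, h⟩), by
        have h1 := X.crs_crsGet ⟨d, h⟩
        have h2 := X.crs_opp (X.crs_crs _ _ h1)
        exact Option.isSome_iff_exists.mpr ⟨_, h2⟩⟩
      else .inl (X.rot.symm (X.opp d))
  | .inr d => .inl (X.rot.symm d.1)

/-- Two darts have the same face on their left side. -/
def SameFace (x y : X.PD) : Prop := Relation.EqvGen (fun a b => b = X.next a) x y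

/-- The setoid of faces. -/
def faceSetoid : Setoid X.PD where
  r := X.SameFace
  iseqv := Relation.EqvGen.is_equivalence _

/-- The faces of the planarisation. -/
def Face : Type := Quotient X.faceSetoid

/-- The face to the left of a dart. -/
def face (x : X.PD) : X.Face := Quotient.mk X.faceSetoid x

/-- Sum of the weights `w` over the darts which have the same face on their left side as `x`. -/
noncomputable def faceSum [Fintype R] (w : X.PD → ℤ) (x : X.PD) : ℤ := by
  classical
  exact ∑ y with X.SameFace x y, w y

/-- Contribution of a dart to the total turning of the boundary curve of the face on its left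
(walked with the face on the left), if the boundary of the polygon of `vert d` between the ends
of `d` and `rot d` makes `s d` left turns more than right turns (walked counterclockwise): two
left turns where the curve passes from an edge to the polygon and back to an edge, minus `s d`;
one left turn at every crossing. -/
def wt (s : R → ℤ) : X.PD → ℤ
  | .inl d => 2 - s d
  | .inr _ => 1

/-- The drawing has genus 0, by Euler's formula for the planarisation
`(V + crossings) - (edges of the planarisation) + faces = 2`
(multiplied by 4; every crossing has four half-edges, every edge of the planarisation two darts;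
the planarisation is connected if the graph is). -/
def EulerFormula : Prop :=
  4 * Nat.card V + Nat.card {d : R // X.Crossed d} + 4 * Nat.card X.Face = 2 * Nat.card X.PD + 8

end XMap

/-- A 1-plane graph: the finite simple graph `G` with a drawing in the plane, up to homeomorphism,
in which every edge is crossed at most once. The outer face is the face to the left of the first
piece of the edge-end (dart) `outer`. -/
structure OnePlane {V : Type} (G : SimpleGraph V) extends XMap V G.Dart where
  vert_eq : ∀ d, vert d = d.fst
  opp_eq : ∀ d, opp d = d.symm
  euler : toXMap.EulerFormula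
  outer : G.Dart

/-- 3-connected graphs. -/
structure ThreeConnected {V : Type} [Fintype V] (G : SimpleGraph V) : Prop where
  card : 4 ≤ Fintype.card V
  conn : ∀ S : Finset V, S.card ≤ 2 → (G.induce {v | v ∉ S}).Connected

/-- The unit vectors: east, north, west, south. -/
def unit : ZMod 4 → ℝ × ℝ
  | 0 => (1, 0)
  | 1 => (0, 1)
  | 2 => (-1, 0)
  | 3 => (0, -1)

/-- An embedding preserving ortho-polygon visibility representation of the 1-plane graph `E`.
The boundary of the polygon of the vertex `v`, walked counterclockwise, passes through the
end points `p d 0` of the edges at `v` in the order given by the rotation; between the end points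
of `d` and of `rot d` it has the `k d` corners `p d 1, ..., p d (k d)`, and
`p d (k d + 1) = p (rot d) 0`. The piece from `p d i` to `p d (i+1)` has the direction `δ d i`.
An edge may end at a corner (then a piece between this end and the corner has length 0). -/
structure OPVR {V : Type} [Fintype V] [DecidableEq V] {G : SimpleGraph V} (E : OnePlane G) where
  /-- number of corners between the ends of `d` and `rot d` -/
  k : G.Dart → ℕ
  /-- end points of the edges and corners of the polygons -/
  p : G.Dart → ℕ → ℝ × ℝ
  /-- directions of the pieces of the boundary -/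
  δ : G.Dart → ℕ → ZMod 4
  /-- the pieces have the direction `δ` -/
  side : ∀ d i, i ≤ k d → ∃ l : ℝ, 0 ≤ l ∧ p d (i + 1) = p d i + l • unit (δ d i)
  /-- pieces between two corners or between the ends of two edges have positive length -/
  side_pos : ∀ d i, i ≤ k d → (0 < i ∧ i < k d ∨ k d = 0) → p d (i + 1) ≠ p d i
  /-- the two pieces at the end of an edge do not both have length 0 (so every side of the
  polygon has positive length) -/
  end_pos : ∀ d, p (E.rot d) 1 ≠ p d (k d)
  /-- at a corner the boundary turns left or right by a right angle -/
  corner : ∀ d i, i < k d → δ d (i + 1) = δ d i + 1 ∨ δ d (i + 1) = δ d i - 1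
  /-- the boundary is closed, and the two pieces at the end of an edge are on the same side of the
  polygon -/
  join_p : ∀ d, p d (k d + 1) = p (E.rot d) 0
  join_δ : ∀ d, δ (E.rot d) 0 = δ d (k d)
  /-- the edge of `d` is a segment which leaves the polygon on its outer (right) side,
  perpendicular to the side of the polygon -/
  edge : ∀ d, ∃ l : ℝ, 0 < l ∧ p d.symm 0 = p d 0 + l • unit (δ d 0 - 1)

namespace OPVR

variable {V : Type} [Fintype V] [DecidableEq V] {G : SimpleGraph V} [DecidableRel G.Adj]
  {E : OnePlane G} (Γ : OPVR E)

/-- All edges end at inner points of the sides of the polygons, and at different points. -/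
def Strict : Prop := ∀ d i, i ≤ Γ.k d → Γ.p d (i + 1) ≠ Γ.p d i

/-- The (closed) piece number `i` of the boundary after the end of `d`. -/
def sideSet (d : G.Dart) (i : ℕ) : Set (ℝ × ℝ) := segment ℝ (Γ.p d i) (Γ.p d (i + 1))

/-- The open segment representing the edge of `d`. -/
def edgeSet (d : G.Dart) : Set (ℝ × ℝ) := openSegment ℝ (Γ.p d 0) (Γ.p d.symm 0)

/-- Winding number of the boundary of the polygon of `v` around `q`
(upward ray from `q`, counted on the sides which go west or east). -/
noncomputable def wind (v : V) (q : ℝ × ℝ) : ℤ :=
  ∑ d : G.Dart with d.fst = v, ∑ i ∈ range (Γ.k d + 1),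
    ((if Γ.δ d i = 2 ∧ (Γ.p d (i + 1)).1 ≤ q.1 ∧ q.1 < (Γ.p d i).1 ∧ q.2 < (Γ.p d i).2
        then 1 else 0) -
     (if Γ.δ d i = 0 ∧ (Γ.p d i).1 ≤ q.1 ∧ q.1 < (Γ.p d (i + 1)).1 ∧ q.2 < (Γ.p d i).2
        then 1 else 0))

/-- The polygon of `v`: its boundary and the points inside. -/
def polygon (v : V) : Set (ℝ × ℝ) :=
  {q | (∃ d i, d.fst = v ∧ i ≤ Γ.k d ∧ q ∈ Γ.sideSet d i) ∨ Γ.wind v q ≠ 0}

/-- Number of left turns (convex corners) minus number of right turns (reflex corners) of the
boundary between the ends of `d` and `rot d`. -/
def turns (d : G.Dart) : ℤ :=
  ∑ i ∈ range (Γ.k d), if Γ.δ d (i + 1) = Γ.δ d i + 1 then 1 else -1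

/-- Number of reflex corners of the polygon of `v`. -/
def reflex (v : V) : ℕ :=
  ∑ d : G.Dart with d.fst = v, ((range (Γ.k d)).filter (fun i => Γ.δ d (i + 1) = Γ.δ d i - 1)).card

/-- Total turning of the boundary curve of a face of the representation, walked with the face on
the left. -/
noncomputable def faceTurns (x : E.PD) : ℤ := E.faceSum (E.wt Γ.turns) x

/-- The conditions which make the collection of polygons and segments an embedding preserving
ortho-polygon visibility representation. -/
structure Valid : Prop where
  /-- the polygons are simple: different pieces of the boundary of a polygon meet only in common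
  end points -/
  simple : ∀ d d' i i', d.fst = d'.fst → i ≤ Γ.k d → i' ≤ Γ.k d' → (d, i) ≠ (d', i') →
    Disjoint (Γ.sideSet d i \ {Γ.p d (i + 1)}) (Γ.sideSet d' i' \ {Γ.p d' (i' + 1)})
  /-- they are walked counterclockwise -/
  ccw : ∀ v, ∑ d : G.Dart with d.fst = v, Γ.turns d = 4
  /-- different polygons are disjoint -/
  disj : ∀ v w, v ≠ w → Disjoint (Γ.polygon v) (Γ.polygon w)
  /-- the edges meet the polygons only in their end points -/
  edge_polygon : ∀ d v, Disjoint (Γ.edgeSet d) (Γ.polygon v)
  /-- edges which do not cross in `G` do not cross -/
  edge_edge : ∀ d e : G.Dart, e ≠ d → e ≠ d.symm → E.crs d ≠ some e → E.crs d ≠ some e.symm →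
    Disjoint (Γ.edgeSet d) (Γ.edgeSet e)
  /-- edges which cross in `G` cross, in the prescribed sense: `e` goes to the left of `d` -/
  cross : ∀ d e, E.crs d = some e →
    (Γ.edgeSet d ∩ Γ.edgeSet e).Nonempty ∧ Γ.δ e 0 = Γ.δ d 0 + 1
  /-- the prescribed face is the outer face: its boundary makes a full turn to the right,
  the boundaries of all other faces a full turn to the left -/
  faces : ∀ x : E.PD, (E.SameFace (.inl E.outer) x → Γ.faceTurns x = -4) ∧
    (¬ E.SameFace (.inl E.outer) x → Γ.faceTurns x = 4)

end OPVR

/-- The 1-plane graph `E` has an embedding preserving ortho-polygon visibility representation of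
vertex complexity at most `k`. -/
def HasOPVR {V : Type} [Fintype V] [DecidableEq V] {G : SimpleGraph V} [DecidableRel G.Adj]
    (E : OnePlane G) (k : ℕ) : Prop :=
  ∃ Γ : OPVR E, Γ.Valid ∧ ∀ v, Γ.reflex v ≤ k

/-- The same, where all edges have to end at different inner points of the sides of the
polygons. -/
def HasStrictOPVR {V : Type} [Fintype V] [DecidableEq V] {G : SimpleGraph V} [DecidableRel G.Adj]
    (E : OnePlane G) (k : ℕ) : Prop :=
  ∃ Γ : OPVR E, Γ.Valid ∧ Γ.Strict ∧ ∀ v, Γ.reflex v ≤ k

end Pool.Agent.Lib.MP_9ad789_co
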