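import Pool.Agent.Lib.MP_9ad789_co.Cell
import Mathlib.LinearAlgebra.Dimension.Finrank
import Mathlib.LinearAlgebra.FiniteDimensional.Basic
import Mathlib.LinearAlgebra.FiniteDimensional.Lemmas

/-!
# First homology over the rationals of a planar cell decomposition
-/

set_option linter.unusedSectionVars false

namespace Pool.Agent.Lib.MP_9ad789_co

open Equiv Finset

variable {D N F : Type} [Fintype D] [Fintype N] [Fintype F]
  [DecidableEq D] [DecidableEq N] [DecidableEq F]

namespace H1Aux

/-- Antisymmetric functions supported on `W`. -/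
def AntiOn (C : Cell D N F) (W : Finset D) : Submodule ℚ (D → ℚ) where
  carrier := {z | (∀ d, z (C.α d) = - z d) ∧ ∀ d, d ∉ W → z d = 0}
  add_mem' := by
    rintro z z' ⟨h1, h2⟩ ⟨h1', h2'⟩
    refine ⟨fun d => ?_, fun d hd => ?_⟩
    · simp only [Pi.add_apply, h1, h1']; ring
    · simp only [Pi.add_apply, h2 d hd, h2' d hd, add_zero]
  zero_mem' := ⟨fun _ => by simp, fun _ _ => rfl⟩
  smul_mem' := by
    rintro c z ⟨h1, h2⟩
    refine ⟨fun d => ?_, fun d hd => ?_⟩
    · simp only [Pi.smul_apply, h1, smul_eq_mul]; ring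
    · simp only [Pi.smul_apply, h2 d hd, smul_zero]

theorem mem_antiOn {C : Cell D N F} {W : Finset D} {z : D → ℚ} :
    z ∈ AntiOn C W ↔ (∀ d, z (C.α d) = - z d) ∧ ∀ d, d ∉ W → z d = 0 := Iff.rfl

/-- The dimension of the space of antisymmetric functions on a symmetric set of darts. -/
theorem finrank_antiOn_le (C : Cell D N F) (W : Finset D) (hW : ∀ d ∈ W, C.α d ∈ W) :
    2 * Module.finrank ℚ (AntiOn C W) ≤ W.card := by
  classical
  let e := Fintype.equivFin D
  let O : Finset D := W.filter (fun d => e d < e (C.α d))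
  have hcard : W.card = 2 * O.card := by
    have h1 : W = O ∪ O.image C.α := by
      ext d
      simp only [O, mem_union, mem_filter, mem_image]
      constructor
      · intro hd
        rcases lt_trichotomy (e d) (e (C.α d)) with h | h | h
        · exact Or.inl ⟨hd, h⟩
        · exact absurd (e.injective h).symm (C.α_ne d)
        · exact Or.inr ⟨C.α d, ⟨hW d hd, by rw [C.α_α]; exact h⟩, C.α_α d⟩
      · rintro (h | ⟨b, ⟨hb, -⟩, rfl⟩)
        · exact h.1
        · exact hW b hb
    have h2 : Disjoint O (O.image C.α) := by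
      rw [Finset.disjoint_left]
      intro d hd hd'
      simp only [O, mem_filter, mem_image] at hd hd'
      obtain ⟨b, ⟨-, hb⟩, rfl⟩ := hd'
      have := hd.2
      rw [C.α_α] at this
      exact absurd hb (not_lt.2 this.le)
    calc W.card = (O ∪ O.image C.α).card := by rw [← h1]
      _ = O.card + (O.image C.α).card := card_union_of_disjoint h2
      _ = 2 * O.card := by rw [card_image_of_injective _ C.α.injective]; ring
  rw [hcard]
  refine Nat.mul_le_mul_left 2 ?_
  let R : AntiOn C W →ₗ[ℚ] (O → ℚ) :=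
    { toFun := fun z o => z.1 o.1
      map_add' := fun _ _ => rfl
      map_smul' := fun _ _ => rfl }
  have hR : Function.Injective R := by
    rw [← LinearMap.ker_eq_bot, LinearMap.ker_eq_bot']
    rintro ⟨z, hz1, hz2⟩ h
    have h' : ∀ d ∈ O, z d = 0 := fun d hd => congrFun h ⟨d, hd⟩
    apply Subtype.ext
    funext d
    show z d = 0
    by_cases hd : d ∈ W
    · rcases lt_trichotomy (e d) (e (C.α d)) with h | h | h
      · exact h' d (mem_filter.2 ⟨hd, h⟩)
      · exact absurd (e.injective h).symm (C.α_ne d)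
      · have h3 := h' (C.α d) (mem_filter.2 ⟨hW d hd, by rw [C.α_α]; exact h⟩)
        rw [hz1] at h3
        linarith
    · exact hz2 d hd
  have := LinearMap.finrank_le_finrank_of_injective hR
  simpa using this

/-- Two orthogonal spaces of antisymmetric functions. -/
theorem sup_inf (C : Cell D N F) (W : Finset D) (hW : ∀ d ∈ W, C.α d ∈ W)
    (P Q : Submodule ℚ (D → ℚ)) (hP : P ≤ AntiOn C W) (hQ : Q ≤ AntiOn C W)
    (ho : ∀ p ∈ P, ∀ q ∈ Q, ∑ d, p d * q d = 0) :
    2 * (Module.finrank ℚ P + Module.finrank ℚ Q) ≤ W.card ∧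
      (W.card ≤ 2 * (Module.finrank ℚ P + Module.finrank ℚ Q) → P ⊔ Q = AntiOn C W) := by
  have hinf : P ⊓ Q = ⊥ := by
    rw [eq_bot_iff]
    rintro z ⟨h1, h2⟩
    have h := ho z h1 z h2
    rw [Submodule.mem_bot]
    funext d
    have h3 := (Finset.sum_eq_zero_iff_of_nonneg (fun d _ => mul_self_nonneg (z d))).1 h d
      (mem_univ d)
    exact mul_self_eq_zero.1 h3
  have h1 := Submodule.finrank_sup_add_finrank_inf_eq P Q
  rw [hinf, finrank_bot, add_zero] at h1
  have h2 := Submodule.finrank_mono (sup_le hP hQ)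
  have h3 := finrank_antiOn_le C W hW
  refine ⟨by omega, fun h4 => ?_⟩
  exact Submodule.eq_of_le_of_finrank_eq (sup_le hP hQ) (by omega)

/-- A linear map on functions whose kernel consists of constants. -/
theorem finrank_range_ge {κ : Type} [Fintype κ] (T : (κ → ℚ) →ₗ[ℚ] (D → ℚ))
    (h : ∀ c, T c = 0 → ∃ q : ℚ, ∀ k, c k = q) :
    Fintype.card κ ≤ Module.finrank ℚ (LinearMap.range T) + 1 := by
  have h1 := LinearMap.finrank_range_add_finrank_ker T
  rw [Module.finrank_fintype_fun_eq_card] at h1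
  have h2 : LinearMap.ker T ≤ Submodule.span ℚ {fun _ => (1 : ℚ)} := by
    intro c hc
    obtain ⟨q, hq⟩ := h c hc
    rw [Submodule.mem_span_singleton]
    exact ⟨q, by funext k; simp [hq k]⟩
  have h3 := (Submodule.finrank_mono h2).trans (finrank_span_le_card _)
  simp at h3
  omega

theorem const_of_conn (C : Cell D N F) {K : Type} (f : D → K) (h1 : ∀ d, f (C.α d) = f d)
    (h2 : ∀ d, f (C.φ d) = f d) (d d' : D) : f d = f d' := by
  have := C.conn {x | f x = f d} ⟨d, rfl⟩ (fun x hx => by simpa [h1] using hx)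
    (fun x hx => by simpa [h2] using hx)
  have h3 : d' ∈ ({x | f x = f d} : Set D) := by rw [this]; trivial
  exact h3.symm

/-- The node sums of a difference of face functions vanish. -/
theorem node_sum_zero (C : Cell D N F) (c : F → ℚ) (n : N) :
    ∑ d with C.tail d = n, (c (C.left d) - c (C.right d)) = 0 := by
  rw [Finset.sum_sub_distrib, sub_eq_zero]
  symm
  refine Finset.sum_nbij' (fun d => C.σ.symm d) (fun d => C.σ d) ?_ ?_ ?_ ?_ ?_
  · intro d hd
    simp only [mem_filter, mem_univ, true_and] at hd ⊢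
    rw [← hd, ← C.tail_σ (C.σ.symm d), Equiv.apply_symm_apply]
  · intro d hd
    simp only [mem_filter, mem_univ, true_and] at hd ⊢
    rw [C.tail_σ, hd]
  · intro d _; simp
  · intro d _; simp
  · intro d _
    rw [← C.right_σ (C.σ.symm d), Equiv.apply_symm_apply]

/-- Sum over darts by their tails. -/
theorem sum_tail (C : Cell D N F) (h : N → ℚ) (z : D → ℚ)
    (hz : ∀ n, h n ≠ 0 → ∑ d with C.tail d = n, z d = 0) : ∑ d, z d * h (C.tail d) = 0 := by
  rw [← Finset.sum_fiberwise (s := univ) (g := C.tail)]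
  refine Finset.sum_eq_zero fun n _ => ?_
  by_cases hn : h n = 0
  · refine Finset.sum_eq_zero fun d hd => ?_
    simp only [mem_filter, mem_univ, true_and] at hd
    rw [hd, hn, mul_zero]
  · have : ∑ d with C.tail d = n, z d * h (C.tail d) = (∑ d with C.tail d = n, z d) * h n := by
      rw [Finset.sum_mul]
      refine Finset.sum_congr rfl fun d hd => ?_
      simp only [mem_filter, mem_univ, true_and] at hd
      rw [hd]
    rw [this, hz n hn, zero_mul]

/-- Orthogonality of divergence free antisymmetric functions and gradients. -/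
theorem orth (C : Cell D N F) (h : N → ℚ) (z : D → ℚ) (hz' : ∀ d, z (C.α d) = - z d)
    (hz : ∀ n, h n ≠ 0 → ∑ d with C.tail d = n, z d = 0) :
    ∑ d, z d * (h (C.tail d) - h (C.head d)) = 0 := by
  have h1 := sum_tail C h z hz
  have h2 : ∑ d, z d * h (C.head d) = - ∑ d, z d * h (C.tail d) := by
    rw [← Finset.sum_neg_distrib]
    refine Finset.sum_nbij' (fun d => C.α d) (fun d => C.α d) (fun d _ => mem_univ _)
      (fun d _ => mem_univ _) (fun d _ => C.α_α d) (fun d _ => C.α_α d) ?_
    intro d _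
    rw [hz', C.tail_α]; ring
  simp only [mul_sub, Finset.sum_sub_distrib]
  rw [h2, h1]; ring

end H1Aux

open H1Aux in
theorem H1 (C : Cell D N F) (hC : C.Planar) (g : D → ℚ) (hg : ∀ d, g (C.α d) = - g d)
    (hn : ∀ n, ∑ d with C.tail d = n, g d = 0) :
    ∃ c : F → ℚ, ∀ d, c (C.left d) - c (C.right d) = g d := by
  let T1 : (F → ℚ) →ₗ[ℚ] (D → ℚ) :=
    { toFun := fun c d => c (C.left d) - c (C.right d)
      map_add' := fun c c' => by funext d; simp only [Pi.add_apply]; ring
      map_smul' := fun q c => by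
        funext d; simp only [Pi.smul_apply, smul_eq_mul, RingHom.id_apply]; ring }
  let T2 : (N → ℚ) →ₗ[ℚ] (D → ℚ) :=
    { toFun := fun h d => h (C.tail d) - h (C.head d)
      map_add' := fun c c' => by funext d; simp only [Pi.add_apply]; ring
      map_smul' := fun q c => by
        funext d; simp only [Pi.smul_apply, smul_eq_mul, RingHom.id_apply]; ring }
  have e1 : ∀ c d, T1 c d = c (C.left d) - c (C.right d) := fun _ _ => rfl
  have e2 : ∀ h d, T2 h d = h (C.tail d) - h (C.head d) := fun _ _ => rfl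
  have k1 : ∀ c, T1 c = 0 → ∃ q : ℚ, ∀ k, c k = q := by
    intro c hc
    have hc' : ∀ d, c (C.left d) = c (C.right d) := fun d => by
      have := congrFun hc d
      rw [e1] at this
      exact sub_eq_zero.1 this
    by_cases hF : Nonempty F
    · obtain ⟨f⟩ := hF
      refine ⟨c f, fun k => ?_⟩
      obtain ⟨d, rfl⟩ := C.left_surj f
      obtain ⟨d', rfl⟩ := C.left_surj k
      exact const_of_conn C (fun d => c (C.left d)) (fun d => (hc' d).symm)
        (fun d => by rw [C.left_φ]) d' d
    · exact ⟨0, fun k => (hF ⟨k⟩).elim⟩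
  have k2 : ∀ h, T2 h = 0 → ∃ q : ℚ, ∀ k, h k = q := by
    intro c hc
    have hc' : ∀ d, c (C.tail d) = c (C.head d) := fun d => by
      have := congrFun hc d
      rw [e2] at this
      exact sub_eq_zero.1 this
    by_cases hF : Nonempty N
    · obtain ⟨f⟩ := hF
      refine ⟨c f, fun k => ?_⟩
      obtain ⟨d, rfl⟩ := C.tail_surj f
      obtain ⟨d', rfl⟩ := C.tail_surj k
      exact const_of_conn C (fun d => c (C.tail d)) (fun d => (hc' d).symm)
        (fun d => by rw [C.tail_φ', hc']) d' d
    · exact ⟨0, fun k => (hF ⟨k⟩).elim⟩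
  have r1 := finrank_range_ge T1 k1
  have r2 := finrank_range_ge T2 k2
  have a1 : ∀ c d, T1 c (C.α d) = - T1 c d := by
    intro c d; rw [e1, e1, C.right_α]
    change c (C.right d) - _ = _
    ring
  have hP : LinearMap.range T1 ≤ AntiOn C univ := by
    rintro _ ⟨c, rfl⟩
    exact ⟨a1 c, fun d hd => absurd (mem_univ d) hd⟩
  have hQ : LinearMap.range T2 ≤ AntiOn C univ := by
    rintro _ ⟨h, rfl⟩
    refine ⟨fun d => ?_, fun d hd => absurd (mem_univ d) hd⟩
    rw [e2, e2, C.head_α, C.tail_α]; ring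
  have ho : ∀ p ∈ LinearMap.range T1, ∀ q ∈ LinearMap.range T2, ∑ d, p d * q d = 0 := by
    rintro _ ⟨c, rfl⟩ _ ⟨h, rfl⟩
    exact orth C h (T1 c) (a1 c) (fun n _ => node_sum_zero C c n)
  obtain ⟨s1, s2⟩ := sup_inf C univ (fun _ _ => mem_univ _) _ _ hP hQ ho
  have hpl : 2 * Fintype.card N + 2 * Fintype.card F = Fintype.card D + 4 := hC
  rw [Finset.card_univ] at s1 s2
  have hsup := s2 (by omega)
  have hgm : g ∈ LinearMap.range T1 ⊔ LinearMap.range T2 := by
    rw [hsup]; exact ⟨hg, fun d hd => absurd (mem_univ d) hd⟩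
  obtain ⟨_, ⟨c, rfl⟩, _, ⟨h, rfl⟩, hsum⟩ := Submodule.mem_sup.1 hgm
  have o1 := orth C h g hg (fun n _ => hn n)
  have o2 := ho _ ⟨c, rfl⟩ _ ⟨h, rfl⟩
  have o3 : ∑ d, T2 h d * T2 h d = 0 := by
    have : ∑ d, T2 h d * T2 h d = ∑ d, g d * (h (C.tail d) - h (C.head d)) -
        ∑ d, T1 c d * T2 h d := by
      rw [← Finset.sum_sub_distrib]
      refine Finset.sum_congr rfl fun d _ => ?_
      have hd := congrFun hsum d
      simp only [Pi.add_apply] at hd
      rw [← hd, ← e2]; ring
    rw [this, o1, o2, sub_zero]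
  refine ⟨c, fun d => ?_⟩
  have h3 := (Finset.sum_eq_zero_iff_of_nonneg (fun d _ => mul_self_nonneg (T2 h d))).1 o3 d
    (mem_univ d)
  have h4 : T2 h d = 0 := mul_self_eq_zero.1 h3
  have hd := congrFun hsum d
  simp only [Pi.add_apply] at hd
  rw [h4, add_zero] at hd
  exact hd

end Pool.Agent.Lib.MP_9ad789_co
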