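import Pool.Agent.Lib.MP_9ad789_co.Cell

/-!
# MP_9ad789_co : potentials modulo 4 on the sphere
-/

set_option linter.unusedSectionVars false

namespace Pool.Agent.Lib.MP_9ad789_co

open Equiv Finset

namespace H4aux

variable {D N F R : Type} [Fintype D] [Fintype N] [Fintype F]
  [DecidableEq D] [DecidableEq N] [DecidableEq F] [CommRing R] [Finite R]

/-- a set containing exactly one of the darts `d`, `α d` -/
theorem exists_half (C : Cell D N F) : ∃ P : Finset D, ∀ d, d ∈ P ↔ C.α d ∉ P := by
  classical
  let e := Fintype.equivFin D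
  refine ⟨univ.filter fun d => e d < e (C.α d), fun d => ?_⟩
  simp only [mem_filter, mem_univ, true_and, C.α_α, not_lt]
  constructor
  · exact fun h => h.le
  · intro h
    refine lt_of_le_of_ne h fun h' => ?_
    exact C.α_ne d (e.injective h').symm

theorem card_half (C : Cell D N F) {P : Finset D} (hP : ∀ d, d ∈ P ↔ C.α d ∉ P) :
    Fintype.card D = 2 * P.card := by
  have h1 : Pᶜ = P.map C.α.toEmbedding := by
    ext d
    rw [mem_compl, mem_map]
    constructor
    · intro h
      refine ⟨C.α d, ?_, C.α_α d⟩
      rw [hP, C.α_α]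
      exact h
    · rintro ⟨d', h1, rfl⟩
      exact (hP d').mp h1
  have h2 := card_compl_add_card P
  rw [h1, card_map] at h2
  omega

/-- antisymmetric functions -/
def AS (C : Cell D N F) (R : Type) [CommRing R] : AddSubgroup (D → R) where
  carrier := {g | ∀ d, g (C.α d) = - g d}
  add_mem' := by
    intro a b ha hb d
    simp only [Pi.add_apply, ha d, hb d]
    ring
  zero_mem' := by
    intro d
    simp
  neg_mem' := by
    intro a ha d
    simp only [Pi.neg_apply, ha d]

theorem mem_AS {C : Cell D N F} {g : D → R} : g ∈ AS C R ↔ ∀ d, g (C.α d) = - g d := Iff.rfl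

theorem card_AS (C : Cell D N F) {P : Finset D} (hP : ∀ d, d ∈ P ↔ C.α d ∉ P) :
    Nat.card (AS C R) = Nat.card R ^ P.card := by
  classical
  let E : AS C R ≃ (P → R) :=
    { toFun := fun g d => g.1 d
      invFun := fun k => ⟨fun d => if h : d ∈ P then k ⟨d, h⟩ else
          if h' : C.α d ∈ P then - k ⟨C.α d, h'⟩ else 0, by
        intro d
        simp only [C.α_α]
        by_cases h : d ∈ P
        · have h1 : C.α d ∉ P := (hP d).mp h
          simp [h, h1]
        · have h1 : C.α d ∈ P := by
            by_contra h2
            exact h ((hP d).mpr h2)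
          simp [h, h1]⟩
      left_inv := by
        rintro ⟨g, hg⟩
        apply Subtype.ext
        funext d
        simp only
        by_cases h : d ∈ P
        · simp [h]
        · have h1 : C.α d ∈ P := by
            by_contra h2
            exact h ((hP d).mpr h2)
          simp [h, h1, hg d]
      right_inv := by
        intro k
        funext d
        simp }
  rw [Nat.card_congr E, Nat.card_fun, Nat.card_eq_fintype_card (α := P), Fintype.card_coe]

/-- gradient -/
def grad (C : Cell D N F) (R : Type) [CommRing R] : (N → R) →+ AS C R where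
  toFun h := ⟨fun d => h (C.head d) - h (C.tail d), by
    intro d
    simp only [C.head_α, C.tail_α]
    ring⟩
  map_zero' := by
    apply Subtype.ext
    funext d
    simp
  map_add' a b := by
    apply Subtype.ext
    funext d
    simp only [Pi.add_apply, AddSubgroup.coe_add]
    ring

/-- face sums -/
def fsum (C : Cell D N F) (R : Type) [CommRing R] : AS C R →+ (F → R) where
  toFun g f := ∑ d with C.left d = f, g.1 d
  map_zero' := by
    funext f
    simp
  map_add' a b := by
    funext f
    simp [sum_add_distrib]

theorem grad_apply (C : Cell D N F) (h : N → R) (d : D) :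
    (grad C R h).1 d = h (C.head d) - h (C.tail d) := rfl

theorem fsum_apply (C : Cell D N F) (g : AS C R) (f : F) :
    fsum C R g f = ∑ d with C.left d = f, g.1 d := rfl

theorem fsum_grad (C : Cell D N F) (h : N → R) : fsum C R (grad C R h) = 0 := by
  funext f
  rw [fsum_apply, Pi.zero_apply]
  simp only [grad_apply, sum_sub_distrib]
  rw [sub_eq_zero]
  apply sum_bij' (fun d _ => C.φ d) (fun d _ => C.φ.symm d)
  · intro d hd
    simp only [mem_filter, mem_univ, true_and] at hd ⊢
    rw [C.left_φ, hd]
  · intro d hd
    simp only [mem_filter, mem_univ, true_and] at hd ⊢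
    rw [← C.left_φ (C.φ.symm d), Equiv.apply_symm_apply, hd]
  · intro d _
    simp
  · intro d _
    simp
  · intro d _
    rw [C.tail_φ']

theorem ker_grad (C : Cell D N F) (h : N → R) (hh : grad C R h = 0) (n m : N) : h n = h m := by
  obtain ⟨d0, rfl⟩ := C.tail_surj n
  obtain ⟨d1, rfl⟩ := C.tail_surj m
  have key : ∀ d, h (C.head d) = h (C.tail d) := by
    intro d
    have := congrArg (fun g : AS C R => g.1 d) hh
    simp only [grad_apply] at this
    exact sub_eq_zero.mp this
  have h1 := C.conn {d | h (C.tail d) = h (C.tail d0)} ⟨d0, rfl⟩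
    (fun d hd => by
      rw [Set.mem_ofPred_eq] at hd ⊢
      rw [C.tail_α, key, hd])
    (fun d hd => by
      rw [Set.mem_ofPred_eq] at hd ⊢
      rw [C.tail_φ', key, hd])
  have h2 : d1 ∈ {d | h (C.tail d) = h (C.tail d0)} := by
    rw [h1]
    trivial
  exact h2.symm

/-- the elementary antisymmetric function -/
def elem (C : Cell D N F) (e : D) (r : R) : AS C R :=
  ⟨fun d => if d = e then r else if d = C.α e then - r else 0, by
    intro d
    have h1 : C.α e ≠ e := C.α_ne e
    by_cases h : d = e
    · subst h
      simp [h1]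
    · by_cases h' : d = C.α e
      · subst h'
        simp [C.α_α, h1]
      · have h2 : C.α d ≠ e := by
          intro h3
          apply h'
          rw [← h3, C.α_α]
        have h3 : C.α d ≠ C.α e := fun h4 => h (C.α.injective h4)
        simp [h, h', h2, h3]⟩

theorem fsum_elem (C : Cell D N F) (e : D) (r : R) :
    fsum C R (elem C e r) = Pi.single (C.left e) r - Pi.single (C.right e) r := by
  funext f
  rw [fsum_apply]
  have h1 : ∀ d, (elem C e r).1 d = (if d = e then r else 0) + (if d = C.α e then - r else 0) := by
    intro d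
    have h2 : C.α e ≠ e := C.α_ne e
    unfold elem
    simp only
    by_cases h : d = e
    · subst h
      simp [h2.symm]
    · simp [h]
  simp only [h1, sum_add_distrib, sum_filter]
  rw [Pi.sub_apply, Pi.single_apply, Pi.single_apply]
  have e1 : (∑ d, if C.left d = f then (if d = e then r else 0) else 0) =
      if f = C.left e then r else 0 := by
    rw [sum_eq_single e]
    · simp [eq_comm]
    · intro d _ hd
      simp [hd]
    · simp
  have e2 : (∑ d, if C.left d = f then (if d = C.α e then - r else 0) else 0) =
      - if f = C.right e then r else 0 := by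
    rw [sum_eq_single (C.α e)]
    · by_cases h : f = C.right e
      · simp [h, Cell.right]
      · have h' : ¬ C.left (C.α e) = f := fun h3 => h h3.symm
        simp [h, h']
    · intro d _ hd
      simp [hd]
    · simp
  rw [e1, e2]
  ring

theorem mem_range_fsum (C : Cell D N F) (c : F → R) (hc : ∑ f, c f = 0) :
    c ∈ (fsum C R).range := by
  rcases isEmpty_or_nonempty F with hF | ⟨⟨f0⟩⟩
  · have : c = 0 := by
      funext f
      exact (hF.false f).elim
    rw [this]
    exact zero_mem _
  obtain ⟨d0, rfl⟩ := C.left_surj f0
  have h1 := C.conn {d | ∀ r : R, Pi.single (C.left d) r - Pi.single (C.left d0) r ∈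
      (fsum C R).range} ⟨d0, fun r => by rw [sub_self]; exact zero_mem _⟩
    (fun d hd r => by
      have h2 := hd r
      have h3 : Pi.single (C.left d) r - Pi.single (C.right d) r ∈ (fsum C R).range :=
        ⟨elem C d r, fsum_elem C d r⟩
      have h4 := sub_mem h2 h3
      have h5 : Pi.single (C.left (C.α d)) r - Pi.single (C.left d0) r =
          (Pi.single (C.left d) r - Pi.single (C.left d0) r) -
          (Pi.single (C.left d) r - Pi.single (C.right d) r : F → R) := by
        rw [Cell.right]
        abel
      rw [h5]
      exact h4)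
    (fun d hd r => by
      rw [C.left_φ]
      exact hd r)
  have h2 : ∀ (f : F) (r : R), Pi.single f r - Pi.single (C.left d0) r ∈ (fsum C R).range := by
    intro f r
    obtain ⟨d, rfl⟩ := C.left_surj f
    have h3 : d ∈ {d | ∀ r : R, Pi.single (C.left d) r - Pi.single (C.left d0) r ∈
      (fsum C R).range} := by
      rw [h1]
      trivial
    exact h3 r
  have h3 : c = ∑ f, (Pi.single f (c f) - Pi.single (C.left d0) (c f) : F → R) := by
    funext f
    rw [Finset.sum_apply]
    simp only [Pi.sub_apply, sum_sub_distrib, Pi.single_apply]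
    have e1 : (∑ x, if f = x then c x else 0) = c f := by simp
    have e2 : (∑ x, if f = C.left d0 then c x else 0) = 0 := by
      by_cases h : f = C.left d0
      · simp [h, hc]
      · simp [h]
    rw [e1, e2, sub_zero]
  rw [h3]
  exact sum_mem fun f _ => h2 f _

theorem card_range_mul {A B : Type} [AddCommGroup A] [AddCommGroup B] [Finite A] (u : A →+ B) :
    Nat.card u.ker * Nat.card u.range = Nat.card A := by
  rw [← AddSubgroup.card_mul_index u.ker, AddSubgroup.index_ker]

theorem main (C : Cell D N F) (hC : C.Planar) (g : D → R) (hg : ∀ d, g (C.α d) = - g d)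
    (hf : ∀ f, ∑ d with C.left d = f, g d = 0) :
    ∃ s : N → R, ∀ d, s (C.head d) - s (C.tail d) = g d := by
  classical
  rcases isEmpty_or_nonempty D with hD | ⟨⟨d0⟩⟩
  · exact ⟨fun _ => 0, fun d => (hD.false d).elim⟩
  obtain ⟨P, hP⟩ := exists_half C
  have hE := card_half C hP
  have hA := card_AS (R := R) C hP
  have hNe : Nonempty N := ⟨C.tail d0⟩
  have hFe : Nonempty F := ⟨C.left d0⟩
  have : Finite (AS C R) := inferInstance
  set q := Nat.card R with hq
  have hq0 : 0 < q := Nat.card_pos
  -- gradient
  have g1 := card_range_mul (grad C R)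
  have g2 : Nat.card (grad C R).ker ≤ q := by
    apply Nat.card_le_card_of_injective (fun h : (grad C R).ker => h.1 (C.tail d0))
    rintro ⟨a, ha⟩ ⟨b, hb⟩ hab
    apply Subtype.ext
    funext n
    simp only at hab
    change a n = b n
    rw [ker_grad C a ha n (C.tail d0), ker_grad C b hb n (C.tail d0), hab]
  have g3 : Nat.card (N → R) = q ^ Fintype.card N := by
    rw [Nat.card_fun, Nat.card_eq_fintype_card (α := N)]
  -- face sums
  have f1 := card_range_mul (fsum C R)
  let S : (F → R) →+ R :=
    { toFun := fun c => ∑ f, c f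
      map_zero' := by simp
      map_add' := fun a b => by simp [sum_add_distrib] }
  have s1 := card_range_mul S
  have s2 : Nat.card S.range ≤ q := Nat.card_le_card_of_injective _ Subtype.val_injective
  have s3 : Nat.card S.ker ≤ Nat.card (fsum C R).range := by
    apply Nat.card_le_card_of_injective
      (fun c : S.ker => (⟨c.1, mem_range_fsum C c.1 c.2⟩ : (fsum C R).range))
    rintro ⟨a, ha⟩ ⟨b, hb⟩ hab
    apply Subtype.ext
    exact congrArg (fun x : (fsum C R).range => x.1) hab
  have s4 : Nat.card (F → R) = q ^ Fintype.card F := by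
    rw [Nat.card_fun, Nat.card_eq_fintype_card (α := F)]
  -- comparison
  set K := Nat.card (fsum C R).ker
  set I := Nat.card (fsum C R).range
  set G := Nat.card (grad C R).range
  rw [hA] at f1
  rw [g3] at g1
  rw [s4] at s1
  have c1 : q ^ Fintype.card F ≤ I * q := by
    rw [← s1]
    exact Nat.mul_le_mul s3 s2
  have c2 : q ^ Fintype.card N ≤ q * G := by
    rw [← g1]
    exact Nat.mul_le_mul_right _ g2
  have c3 : Fintype.card N + Fintype.card F = P.card + 2 := by
    have := hC
    unfold Cell.Planar at this
    omega
  have c4 : K * q ^ Fintype.card F * q ≤ G * q ^ Fintype.card F * q := by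
    calc K * q ^ Fintype.card F * q ≤ K * (I * q) * q :=
          Nat.mul_le_mul_right _ (Nat.mul_le_mul_left _ c1)
      _ = (K * I) * (q * q) := by ring
      _ = q ^ (P.card + 2) := by rw [f1]; ring
      _ = q ^ Fintype.card N * q ^ Fintype.card F := by rw [← c3, pow_add]
      _ ≤ (q * G) * q ^ Fintype.card F := Nat.mul_le_mul_right _ c2
      _ = G * q ^ Fintype.card F * q := by ring
  have c5 : K ≤ G := by
    have hpos : 0 < q ^ Fintype.card F := by positivity
    have := Nat.le_of_mul_le_mul_right c4 hq0
    exact Nat.le_of_mul_le_mul_right this hpos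
  have hle : (grad C R).range ≤ (fsum C R).ker := by
    rintro _ ⟨h, rfl⟩
    rw [AddMonoidHom.mem_ker]
    exact fsum_grad C h
  have heq : (grad C R).range = (fsum C R).ker :=
    AddSubgroup.eq_of_le_of_card_ge hle c5
  have hmem : (⟨g, hg⟩ : AS C R) ∈ (fsum C R).ker := by
    rw [AddMonoidHom.mem_ker]
    funext f
    exact hf f
  rw [← heq] at hmem
  obtain ⟨s, hs⟩ := hmem
  refine ⟨s, fun d => ?_⟩
  have := congrArg (fun x : AS C R => x.1 d) hs
  exact this

end H4aux

variable {D N F : Type} [Fintype D] [Fintype N] [Fintype F]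
  [DecidableEq D] [DecidableEq N] [DecidableEq F]

theorem H4 (C : Cell D N F) (hC : C.Planar) (g : D → ZMod 4) (hg : ∀ d, g (C.α d) = - g d)
    (hf : ∀ f, ∑ d with C.left d = f, g d = 0) :
    ∃ s : N → ZMod 4, ∀ d, s (C.head d) - s (C.tail d) = g d :=
  H4aux.main C hC g hg hf

end Pool.Agent.Lib.MP_9ad789_co
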