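import Pool.Agent.Lib.MP_9ad789_co.Cell

/-!
# MP_9ad789_co : HALL (existence of turns from a Hall type condition)
-/

namespace Pool.Agent.Lib.MP_9ad789_co

open Equiv Finset

variable {D N F : Type} [Fintype D] [Fintype N] [Fintype F]
  [DecidableEq D] [DecidableEq N] [DecidableEq F]

namespace HallAux

/-- Tokens. -/
abbrev Tok (isX : N → Prop) (k : ℕ) : Type := {n : N // ¬ isX n} × Fin (4 + k)

/-- Slots. -/
abbrev Slot (isX : N → Prop) (dem : F → ℤ) (k : ℕ) : Type :=
  (Σ f : F, Fin (dem f).toNat) ⊕ ({n : N // ¬ isX n} × Fin k)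

/-- A token fits a slot. -/
def Fits (C : Cell D N F) (isX : N → Prop) (dem : F → ℤ) (k : ℕ) (t : Tok isX k) :
    Slot isX dem k → Prop
  | .inl x => ∃ d, C.tail d = t.1 ∧ C.left d = x.1
  | .inr y => ∃ d d', C.tail d = t.1 ∧ C.tail d' = y.1 ∧ C.left d = C.left d'

/-- Contribution of a token in a slot. -/
def K (isX : N → Prop) (dem : F → ℤ) (k : ℕ) (c : N → F → D) (g : N → N → F) (t : Tok isX k) :
    Slot isX dem k → D → ℤ
  | .inl x => fun d => if d = c t.1 x.1 then 1 else 0
  | .inr y => fun d => if (t.1 : N) = y.1 then 0 else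
      (if d = c t.1 (g t.1 y.1) then 1 else 0) - (if d = c y.1 (g t.1 y.1) then 1 else 0)

omit [Fintype N] [Fintype F] [DecidableEq F] in
theorem sum_ite_tail (C : Cell D N F) (n v : N) (x : D) (hx : C.tail x = v) :
    (∑ d with C.tail d = n, if d = x then (1 : ℤ) else 0) = if v = n then 1 else 0 := by
  rw [Finset.sum_ite_eq']
  simp [hx]

omit [Fintype N] [Fintype F] [DecidableEq N] in
theorem sum_ite_left (C : Cell D N F) (n v : F) (x : D) (hx : C.left x = v) :
    (∑ d with C.left d = n, if d = x then (1 : ℤ) else 0) = if v = n then 1 else 0 := by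
  rw [Finset.sum_ite_eq']
  simp [hx]

end HallAux

open HallAux

theorem exists_turns (C : Cell D N F) (isX : N → Prop) [DecidablePred isX] (o : F) (k : ℕ)
    (hd : ∀ f, 0 ≤ C.demand isX o f)
    (hsum : ∑ f, C.demand isX o f = 4 * ((univ.filter (fun n => ¬ isX n)).card : ℤ))
    (hall : ∀ A : Finset N, (∀ n ∈ A, ¬ isX n) → C.excess isX o A ≤ k * (C.bdry isX A).card) :
    ∃ s : D → ℤ, (∀ d, isX (C.tail d) → s d = 0) ∧
      (∀ n, ¬ isX n → ∑ d with C.tail d = n, s d = 4) ∧
      (∀ f, ∑ d with C.left d = f, s d = C.demand isX o f) ∧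
      (∀ n, ¬ isX n → ∑ d with C.tail d = n, max 0 (- s d) ≤ k) := by
  classical
  set dem : F → ℤ := fun f => C.demand isX o f with hdem
  -- Hall's theorem
  obtain ⟨m, hmi, hm⟩ : ∃ m : Tok isX k → Slot isX dem k, Function.Injective m ∧
      ∀ t, Fits C isX dem k t (m t) := by
    rw [← Fintype.all_card_le_filter_rel_iff_exists_injective]
    intro T
    set A : Finset N := T.image (fun t => (t.1 : N)) with hA
    have hAr : ∀ n ∈ A, ¬ isX n := by
      intro n hn
      obtain ⟨t, -, rfl⟩ := Finset.mem_image.1 hn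
      exact t.1.2
    have h1 : T.card ≤ A.card * (4 + k) := by
      have : T.card ≤ (A ×ˢ (univ : Finset (Fin (4 + k)))).card := by
        apply Finset.card_le_card_of_injOn (fun t => ((t.1 : N), t.2))
        · intro t ht
          have : (t.1 : N) ∈ A := Finset.mem_image_of_mem _ ht
          simp [this]
        · intro t _ t' _ h
          simp only [Prod.mk.injEq] at h
          exact Prod.ext (Subtype.ext h.1) h.2
      simpa using this
    have h2 : (((C.facesOf A).sigma (fun f => (univ : Finset (Fin (dem f).toNat)))).disjSum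
        ((((A ∪ C.bdry isX A).subtype (fun n => ¬ isX n))) ×ˢ (univ : Finset (Fin k)))) ⊆
        univ.filter (fun b => ∃ a ∈ T, Fits C isX dem k a b) := by
      intro b hb
      rw [Finset.mem_filter]
      refine ⟨Finset.mem_univ _, ?_⟩
      rcases b with x | y
      · rw [Finset.inl_mem_disjSum, Finset.mem_sigma] at hb
        obtain ⟨hx, -⟩ := hb
        simp only [Cell.facesOf, Finset.mem_filter, Finset.mem_univ, true_and] at hx
        obtain ⟨d, hdA, hdl⟩ := hx
        obtain ⟨t, ht, htd⟩ := Finset.mem_image.1 hdA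
        exact ⟨t, ht, d, htd.symm, hdl⟩
      · rw [Finset.inr_mem_disjSum, Finset.mem_product, Finset.mem_subtype, Finset.mem_union] at hb
        obtain ⟨hy, -⟩ := hb
        rcases hy with hy | hy
        · obtain ⟨t, ht, hty⟩ := Finset.mem_image.1 hy
          obtain ⟨d, hd⟩ := C.tail_surj (t.1 : N)
          exact ⟨t, ht, d, d, hd, hd.trans hty, rfl⟩
        · simp only [Cell.bdry, Cell.facesOf, Finset.mem_filter, Finset.mem_univ, true_and] at hy
          obtain ⟨-, -, d, hdt, d', hdA, hdl⟩ := hy
          obtain ⟨t, ht, htd⟩ := Finset.mem_image.1 hdA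
          exact ⟨t, ht, d', d, htd.symm, hdt, hdl⟩
    have h3 := Finset.card_le_card h2
    rw [Finset.card_disjSum, Finset.card_sigma, Finset.card_product, Finset.card_subtype] at h3
    have h4 : ((A ∪ C.bdry isX A).filter (fun n => ¬ isX n)).card =
        A.card + (C.bdry isX A).card := by
      rw [Finset.filter_true_of_mem, Finset.card_union_of_disjoint]
      · rw [Finset.disjoint_left]
        intro n hn hn'
        simp only [Cell.bdry, Finset.mem_filter] at hn'
        exact hn'.2.2.1 hn
      · intro n hn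
        rcases Finset.mem_union.1 hn with hn | hn
        · exact hAr n hn
        · simp only [Cell.bdry, Finset.mem_filter] at hn
          exact hn.2.1
    rw [h4] at h3
    simp only [Finset.card_univ, Fintype.card_fin] at h3
    have h5 := hall A hAr
    unfold Cell.excess at h5
    have h6 : ((∑ f ∈ C.facesOf A, (dem f).toNat : ℕ) : ℤ) = ∑ f ∈ C.facesOf A, dem f := by
      push_cast
      apply Finset.sum_congr rfl
      intro f _
      exact Int.toNat_of_nonneg (hd f)
    have h7 : (T.card : ℤ) ≤ (univ.filter (fun b => ∃ a ∈ T, Fits C isX dem k a b)).card := by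
      have h1' : (T.card : ℤ) ≤ A.card * (4 + k) := by exact_mod_cast h1
      have h3' : ((∑ f ∈ C.facesOf A, (dem f).toNat : ℕ) : ℤ) +
          ((A.card : ℤ) + (C.bdry isX A).card) * k ≤
          (univ.filter (fun b => ∃ a ∈ T, Fits C isX dem k a b)).card := by exact_mod_cast h3
      rw [h6] at h3'
      have h5' : 4 * (A.card : ℤ) - ∑ f ∈ C.facesOf A, dem f ≤ k * (C.bdry isX A).card := h5
      nlinarith
    exact_mod_cast h7
  -- bijectivity
  have hcardT : Fintype.card (Tok isX k) = (univ.filter (fun n => ¬ isX n)).card * (4 + k) := by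
    rw [Fintype.card_prod, Fintype.card_fin, Fintype.card_subtype]
  have hcardS : Fintype.card (Slot isX dem k) =
      ∑ f, (dem f).toNat + (univ.filter (fun n => ¬ isX n)).card * k := by
    rw [Fintype.card_sum, Fintype.card_sigma, Fintype.card_prod, Fintype.card_fin,
      Fintype.card_subtype]
    simp
  have hcard : Fintype.card (Tok isX k) = Fintype.card (Slot isX dem k) := by
    have h6 : ((∑ f, (dem f).toNat : ℕ) : ℤ) = ∑ f, dem f := by
      push_cast
      apply Finset.sum_congr rfl
      intro f _
      exact Int.toNat_of_nonneg (hd f)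
    have h7 : ∑ f, dem f = 4 * ((univ.filter (fun n => ¬ isX n)).card : ℤ) := hsum
    rw [hcardT, hcardS]
    have h8 : (((univ.filter (fun n => ¬ isX n)).card * (4 + k) : ℕ) : ℤ) =
        ((∑ f, (dem f).toNat + (univ.filter (fun n => ¬ isX n)).card * k : ℕ) : ℤ) := by
      rw [Nat.cast_add, h6, h7]
      push_cast
      ring
    exact_mod_cast h8
  have hbij : Function.Bijective m :=
    (Fintype.bijective_iff_injective_and_card m).2 ⟨hmi, hcard⟩
  -- choices
  have hcex : ∀ (v : N) (f : F), ∃ x : D, (∃ d, C.tail d = v ∧ C.left d = f) →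
      C.tail x = v ∧ C.left x = f := by
    intro v f
    by_cases h : ∃ d, C.tail d = v ∧ C.left d = f
    · obtain ⟨d, hd⟩ := h
      exact ⟨d, fun _ => hd⟩
    · obtain ⟨d, -⟩ := C.tail_surj v
      exact ⟨d, fun h' => absurd h' h⟩
  choose c hc using hcex
  have hgex : ∀ (v u : N), ∃ f : F, (∃ d d', C.tail d = v ∧ C.tail d' = u ∧
      C.left d = C.left d') → (∃ d, C.tail d = v ∧ C.left d = f) ∧
      (∃ d, C.tail d = u ∧ C.left d = f) := by
    intro v u
    by_cases h : ∃ d d', C.tail d = v ∧ C.tail d' = u ∧ C.left d = C.left d'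
    · obtain ⟨d, d', h1, h2, h3⟩ := h
      exact ⟨C.left d, fun _ => ⟨⟨d, h1, rfl⟩, ⟨d', h2, h3.symm⟩⟩⟩
    · obtain ⟨d, -⟩ := C.tail_surj v
      exact ⟨C.left d, fun h' => absurd h' h⟩
  choose g hg using hgex
  -- node sums and face sums of one token
  have hKtail : ∀ (t : Tok isX k) (x : Slot isX dem k), Fits C isX dem k t x → ∀ n,
      ∑ d with C.tail d = n, K isX dem k c g t x d =
        (if (t.1 : N) = n then 1 else 0) -
          (Sum.elim (fun _ => 0) (fun y => if (y.1 : N) = n then 1 else 0) x : ℤ) := by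
    intro t x hx n
    rcases x with x | y
    · simp only [K, Sum.elim_inl, sub_zero]
      exact sum_ite_tail C n _ _ (hc _ _ hx).1
    · simp only [K, Sum.elim_inr]
      by_cases h : (t.1 : N) = y.1
      · simp [h]
      · simp only [h, if_false]
        rw [Finset.sum_sub_distrib, sum_ite_tail C n _ _ (hc _ _ (hg _ _ hx).1).1,
          sum_ite_tail C n _ _ (hc _ _ (hg _ _ hx).2).1]
  have hKleft : ∀ (t : Tok isX k) (x : Slot isX dem k), Fits C isX dem k t x → ∀ f,
      ∑ d with C.left d = f, K isX dem k c g t x d =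
        (Sum.elim (fun y => if y.1 = f then 1 else 0) (fun _ => 0) x : ℤ) := by
    intro t x hx f
    rcases x with x | y
    · simp only [K, Sum.elim_inl]
      exact sum_ite_left C f _ _ (hc _ _ hx).2
    · simp only [K, Sum.elim_inr]
      by_cases h : (t.1 : N) = y.1
      · simp [h]
      · simp only [h, if_false]
        rw [Finset.sum_sub_distrib, sum_ite_left C f _ _ (hc _ _ (hg _ _ hx).1).2,
          sum_ite_left C f _ _ (hc _ _ (hg _ _ hx).2).2, sub_self]
  -- number of tokens in the slots of a vertex, of a face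
  have hslotN : ∀ n, ¬ isX n → ∑ t : Tok isX k,
      (Sum.elim (fun _ => 0) (fun y => if (y.1 : N) = n then 1 else 0) (m t) : ℤ) = k := by
    intro n hn
    rw [hbij.sum_comp (fun x : Slot isX dem k =>
      (Sum.elim (fun _ => 0) (fun y => if (y.1 : N) = n then 1 else 0) x : ℤ))]
    rw [Fintype.sum_sum_type]
    simp only [Sum.elim_inl, Sum.elim_inr, Finset.sum_const_zero, zero_add]
    rw [Fintype.sum_prod_type]
    rw [Finset.sum_eq_single (⟨n, hn⟩ : {n : N // ¬ isX n})]
    · simp
    · intro b _ hb
      have : (b : N) ≠ n := fun h => hb (Subtype.ext h)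
      simp [this]
    · simp
  have hslotF : ∀ f, ∑ t : Tok isX k,
      (Sum.elim (fun y => if y.1 = f then 1 else 0) (fun _ => 0) (m t) : ℤ) = dem f := by
    intro f
    rw [hbij.sum_comp (fun x : Slot isX dem k =>
      (Sum.elim (fun y => if y.1 = f then 1 else 0) (fun _ => 0) x : ℤ))]
    rw [Fintype.sum_sum_type]
    simp only [Sum.elim_inl, Sum.elim_inr, Finset.sum_const_zero, add_zero]
    rw [Fintype.sum_sigma]
    rw [Finset.sum_eq_single f]
    · simp only [if_true, Finset.sum_const, Finset.card_univ, Fintype.card_fin, nsmul_eq_mul,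
        mul_one]
      exact Int.toNat_of_nonneg (hd f)
    · intro b _ hb
      simp [hb]
    · simp
  have htokN : ∀ n, ¬ isX n → ∑ t : Tok isX k, (if (t.1 : N) = n then (1 : ℤ) else 0) = 4 + k := by
    intro n hn
    rw [Fintype.sum_prod_type]
    rw [Finset.sum_eq_single (⟨n, hn⟩ : {n : N // ¬ isX n})]
    · simp
    · intro b _ hb
      have : (b : N) ≠ n := fun h => hb (Subtype.ext h)
      simp [this]
    · simp
  refine ⟨fun d => ∑ t : Tok isX k, K isX dem k c g t (m t) d, ?_, ?_, ?_, ?_⟩
  · -- no turns at crossings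
    intro d hd
    apply Finset.sum_eq_zero
    intro t _
    have hf := hm t
    rcases hmt : m t with x | y
    · rw [hmt] at hf
      simp only [K]
      rw [if_neg]
      rintro rfl
      rw [(hc _ _ hf).1] at hd
      exact t.1.2 hd
    · rw [hmt] at hf
      simp only [K]
      by_cases h : (t.1 : N) = y.1
      · simp [h]
      · simp only [h, if_false]
        rw [if_neg, if_neg, sub_zero]
        · rintro rfl
          rw [(hc _ _ (hg _ _ hf).2).1] at hd
          exact y.1.2 hd
        · rintro rfl
          rw [(hc _ _ (hg _ _ hf).1).1] at hd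
          exact t.1.2 hd
  · intro n hn
    rw [Finset.sum_comm]
    rw [Finset.sum_congr rfl (fun t _ => hKtail t (m t) (hm t) n)]
    rw [Finset.sum_sub_distrib, htokN n hn, hslotN n hn]
    ring
  · intro f
    rw [Finset.sum_comm]
    rw [Finset.sum_congr rfl (fun t _ => hKleft t (m t) (hm t) f)]
    exact hslotF f
  · intro n hn
    have hneg : ∀ (t : Tok isX k) (d : D), - K isX dem k c g t (m t) d ≤
        (Sum.elim (fun _ => 0) (fun y => if d = c y.1 (g t.1 y.1) then 1 else 0) (m t) : ℤ) := by
      intro t d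
      rcases m t with x | y
      · simp only [K, Sum.elim_inl]
        split_ifs <;> simp
      · simp only [K, Sum.elim_inr]
        split_ifs <;> simp
    have hnn : ∀ (t : Tok isX k) (d : D), 0 ≤
        (Sum.elim (fun _ => 0) (fun y => if d = c y.1 (g t.1 y.1) then 1 else 0) (m t) : ℤ) := by
      intro t d
      rcases m t with x | y
      · simp
      · simp only [Sum.elim_inr]
        split_ifs <;> simp
    calc ∑ d with C.tail d = n, max 0 (- ∑ t : Tok isX k, K isX dem k c g t (m t) d)
        ≤ ∑ d with C.tail d = n, ∑ t : Tok isX k,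
          (Sum.elim (fun _ => 0) (fun y => if d = c y.1 (g t.1 y.1) then 1 else 0) (m t) : ℤ) := by
          apply Finset.sum_le_sum
          intro d _
          rw [← Finset.sum_neg_distrib]
          apply max_le
          · exact Finset.sum_nonneg (fun t _ => hnn t d)
          · exact Finset.sum_le_sum (fun t _ => hneg t d)
      _ = ∑ t : Tok isX k,
          (Sum.elim (fun _ => 0) (fun y => if (y.1 : N) = n then 1 else 0) (m t) : ℤ) := by
          rw [Finset.sum_comm]
          apply Finset.sum_congr rfl
          intro t _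
          have hf := hm t
          rcases hmt : m t with x | y
          · simp
          · rw [hmt] at hf
            simp only [Sum.elim_inr]
            exact sum_ite_tail C n _ _ (hc _ _ (hg _ _ hf).2).1
      _ = k := hslotN n hn
      _ ≤ k := le_refl _

end Pool.Agent.Lib.MP_9ad789_co
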