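import Pool.Agent.Lib.MP_9ad789_co.Count0
import Pool.Agent.Lib.MP_9ad789_co.Block
import Pool.Agent.Lib.MP_9ad789_co.Decomp
import Pool.Agent.Lib.MP_9ad789_co.Count3

/-!
# MP_9ad789_co : the inequality needed for the Hall type theorem (helper81)
-/

namespace Pool.Agent.Lib.MP_9ad789_co

open Equiv Finset

set_option linter.unusedSectionVars false

variable {D N F : Type} [Fintype D] [Fintype N] [Fintype F]
  [DecidableEq D] [DecidableEq N] [DecidableEq F]
variable {C : Cell D N F} {isX : N → Prop} [DecidablePred isX]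


open Count0

theorem hall_ineq (h : C.OneP isX) (o : F) (A : Finset N) (hA : ∀ n ∈ A, ¬ isX n) :
    C.excess isX o A ≤ 4 * (C.bdry isX A).card := by
  classical
  obtain ⟨P, hP1, hP2, hP3⟩ := exists_blocks C isX o A hA
  rw [hP3]
  have hreal : ∀ B ∈ P, ∀ n ∈ B, ¬ isX n := fun B hB n hn => hA n ((hP1 B hB).2.1 hn)
  -- the case of one block without other vertices
  by_cases hone : ∃ B ∈ P, ∀ n, ¬ isX n → n ∈ B ∨ n ∈ C.bdry isX B
  · obtain ⟨B, hB, hBn⟩ := hone
    have hPB : P = {B} := by
      ext B'
      rw [mem_singleton]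
      constructor
      · intro hB'
        by_contra hne
        obtain ⟨n, hn⟩ := (hP1 B' hB').1
        rcases hBn n (hreal B' hB' n hn) with h1 | h1
        · exact Finset.disjoint_left.1 (hP2 B' hB' B hB hne).2 hn h1
        · have h2 := (hP1 B hB).2.2.2 h1
          exact (mem_bdry.1 h2).2.1 ((hP1 B' hB').2.1 hn)
      · rintro rfl
        exact hB
    rw [hPB, Finset.sum_singleton]
    obtain ⟨h1, h2⟩ := block_le h o B (hreal B hB) (hP1 B hB).1 (hP1 B hB).2.2.1
    by_cases hb : C.bdry isX B = ∅
    · have h3 := h2 hb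
      have h4 : (0 : ℤ) ≤ 4 * ((C.bdry isX A).card : ℤ) := by positivity
      omega
    · have h3 : 1 ≤ (C.bdry isX B).card :=
        Finset.card_pos.2 (Finset.nonempty_iff_ne_empty.2 hb)
      have h4 := Finset.card_le_card (hP1 B hB).2.2.2
      omega
  · push Not at hone
    have htype : ∀ B ∈ P, C.excess isX o B ≤ 0 ∨
        (C.excess isX o B = 1 ∧ (C.TypeT isX B ∨ ∃ e, C.TypeB isX B e)) := by
      intro B hB
      exact block_type h o B (hreal B hB) (hP1 B hB).1 (hP1 B hB).2.2.1 (Or.inr (hone B hB))
    let Q := P.filter (fun B => C.excess isX o B = 1)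
    have hsum : ∑ B ∈ P, C.excess isX o B ≤ (Q.card : ℤ) := by
      have h1 : (Q.card : ℤ) = ∑ B ∈ P, if C.excess isX o B = 1 then (1 : ℤ) else 0 := by
        rw [Finset.sum_boole]
      rw [h1]
      apply Finset.sum_le_sum
      intro B hB
      rcases htype B hB with h2 | ⟨h2, -⟩
      · rw [if_neg (by omega)]
        exact h2
      · rw [if_pos h2, h2]
    have hQP : ∀ B ∈ Q, B ∈ P := fun B hB => (mem_filter.1 hB).1
    have hQt : ∀ B ∈ Q, C.TypeT isX B ∨ ∃ e, C.TypeB isX B e := by
      intro B hB
      obtain ⟨h1, h2⟩ := mem_filter.1 hB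
      rcases htype B h1 with h3 | ⟨-, h3⟩
      · omega
      · exact h3
    have hQ : BlockFamily C isX Q := {
      real := fun B hB => hreal B (hQP B hB)
      nonempty := fun B hB => (hP1 B (hQP B hB)).1
      conn := fun B hB => (hP1 B (hQP B hB)).2.2.1
      disj := fun B hB B' hB' hne => (hP2 B (hQP B hB) B' (hQP B' hB') hne).1
      type := hQt }
    have hsub : Q.biUnion (C.bdry isX) ⊆ C.bdry isX A := by
      intro n hn
      obtain ⟨B, hB, hn'⟩ := mem_biUnion.1 hn
      exact (hP1 B (hQP B hB)).2.2.2 hn'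
    have hcard := Finset.card_le_card hsub
    by_cases hbd : 3 ≤ (Q.biUnion (C.bdry isX)).card
    · have h1 := count_blocks h Q hQ hbd
      omega
    · by_cases hQe : Q.Nonempty
      · obtain ⟨B0, hB0⟩ := hQe
        have hBsub : ∀ B ∈ Q, C.bdry isX B ⊆ Q.biUnion (C.bdry isX) := fun B hB =>
          Finset.subset_biUnion_of_mem (C.bdry isX) hB
        have hcase : ∀ B ∈ Q, ∃ e, C.TypeB isX B e := by
          intro B hB
          rcases hQt B hB with h1 | h1
          · have h2 := h1.bd
            have h3 := Finset.card_le_card (hBsub B hB)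
            omega
          · exact h1
        have htwo : ∀ B ∈ Q, (C.bdry isX B).card = 2 := by
          intro B hB
          obtain ⟨e, he⟩ := hcase B hB
          rw [he.bd, Finset.card_pair he.u_ne_v]
        have heq : ∀ B ∈ Q, C.bdry isX B = Q.biUnion (C.bdry isX) := by
          intro B hB
          apply Finset.eq_of_subset_of_card_le (hBsub B hB)
          rw [htwo B hB]
          omega
        obtain ⟨e, he⟩ := hcase B0 hB0
        have h1 := typeB_le_two h Q hQ _ _ (fun B hB => by
          rw [heq B hB, ← heq B0 hB0]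
          exact he.bd)
        have h2 := htwo B0 hB0
        rw [heq B0 hB0] at h2
        omega
      · rw [Finset.not_nonempty_iff_eq_empty] at hQe
        rw [hQe] at hsum
        simp only [Finset.card_empty, Nat.cast_zero] at hsum
        have h4 : (0 : ℤ) ≤ 4 * ((C.bdry isX A).card : ℤ) := by positivity
        omega

end Pool.Agent.Lib.MP_9ad789_co
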