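import Pool.Agent.Lib.MP_9ad789_co.Geo

/-!
# MP_9ad789_co, module LOW: the angle assignment of a representation
-/

namespace Pool.Agent.Lib.MP_9ad789_co

open Equiv Finset

theorem turns_of_valid {V : Type} [Fintype V] [DecidableEq V] {G : SimpleGraph V}
    [DecidableRel G.Adj] {E : OnePlane G} (Γ : OPVR E) (hΓ : Γ.Valid) :
    (∀ v, ∑ d : G.Dart with d.fst = v, Γ.turns d = 4) ∧
    (∀ x : E.PD, (E.SameFace (.inl E.outer) x → E.faceSum (E.wt Γ.turns) x = -4) ∧
      (¬ E.SameFace (.inl E.outer) x → E.faceSum (E.wt Γ.turns) x = 4)) ∧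
    ∀ v, ∑ d : G.Dart with d.fst = v, max 0 (- Γ.turns d) ≤ (Γ.reflex v : ℤ) := by
  refine ⟨hΓ.ccw, hΓ.faces, fun v => ?_⟩
  unfold OPVR.reflex
  push_cast
  refine Finset.sum_le_sum fun d _ => max_le (by positivity) ?_
  unfold OPVR.turns
  rw [← Finset.sum_neg_distrib, Finset.card_filter]
  push_cast
  refine Finset.sum_le_sum fun i hi => ?_
  rw [mem_range] at hi
  rcases Γ.corner d i hi with h | h
  · rw [if_pos h]
    split_ifs <;> simp
  · rw [if_pos h]
    split_ifs <;> simp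

end Pool.Agent.Lib.MP_9ad789_co
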