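import Pool.Agent.Lib.MP_9ad789_co.EB
import Pool.Agent.Lib.MP_9ad789_co.Forest

/-!
# Minor bounds in the node graph
-/

set_option autoImplicit false
set_option linter.unusedSectionVars false

namespace Pool.Agent.Lib.MP_9ad789_co

open Equiv Finset

section MLN

variable {D N F : Type} [Fintype D] [Fintype N] [Fintype F]
  [DecidableEq D] [DecidableEq N] [DecidableEq F]

namespace MLN

open Classical in
theorem sum_set (C : Cell D N F) (z : D → ℚ) (hz : ∀ d, z (C.α d) = - z d)
    (hn : ∀ n, ∑ d with C.tail d = n, z d = 0) (S : Set N) :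
    ∑ d with C.tail d ∈ S ∧ C.head d ∉ S, z d = 0 := by
  have h1 : ∑ d with C.tail d ∈ S, z d = 0 := by
    rw [← Finset.sum_fiberwise (univ.filter (fun d => C.tail d ∈ S)) C.tail z]
    refine Finset.sum_eq_zero (fun n _ => ?_)
    rw [Finset.filter_filter]
    by_cases hnS : n ∈ S
    · have e : (univ.filter (fun d => C.tail d ∈ S ∧ C.tail d = n)) =
          univ.filter (fun d => C.tail d = n) := by
        ext d
        simp only [Finset.mem_filter, Finset.mem_univ, true_and]
        constructor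
        · exact fun h => h.2
        · exact fun h => ⟨by rw [h]; exact hnS, h⟩
      rw [e]; exact hn n
    · refine Finset.sum_eq_zero (fun d hd => ?_)
      rw [Finset.mem_filter] at hd
      exact absurd (hd.2.2 ▸ hd.2.1) hnS
  have h2 : ∑ d with C.tail d ∈ S ∧ C.head d ∈ S, z d = 0 := by
    have e : ∑ d with C.tail d ∈ S ∧ C.head d ∈ S, z (C.α d) =
        ∑ d with C.tail d ∈ S ∧ C.head d ∈ S, z d := by
      refine Finset.sum_bij (fun d _ => C.α d) ?_ ?_ ?_ ?_
      · intro d hd
        simp only [Finset.mem_filter, Finset.mem_univ, true_and] at hd ⊢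
        rw [C.head_α, C.tail_α]
        exact ⟨hd.2, hd.1⟩
      · intro a _ b _ h
        exact C.α.injective h
      · intro d hd
        simp only [Finset.mem_filter, Finset.mem_univ, true_and] at hd
        refine ⟨C.α d, ?_, C.α_α d⟩
        simp only [Finset.mem_filter, Finset.mem_univ, true_and]
        rw [C.head_α, C.tail_α]
        exact ⟨hd.2, hd.1⟩
      · intro d _; rfl
    rw [Finset.sum_congr rfl (fun d _ => hz d), Finset.sum_neg_distrib] at e
    linarith
  have h3 := Finset.sum_filter_add_sum_filter_not (univ.filter (fun d => C.tail d ∈ S))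
    (fun d => C.head d ∈ S) z
  rw [Finset.filter_filter, Finset.filter_filter, h1, h2, zero_add] at h3
  exact h3

open Classical in
theorem core {ι κ : Type} [Fintype ι] [Fintype κ] {m : ℕ} (hm : 0 < m) (g : ℕ)
    (C : Cell D N F) (hC : C.Planar) (L : ι → Set N) (H : κ → Set N)
    (hL : ∀ i, (C.NG.induce (L i)).Connected) (hH : ∀ k, (C.NG.induce (H k)).Connected)
    (hLL : ∀ i j, i ≠ j → Disjoint (L i) (L j)) (hHH : ∀ i j, i ≠ j → Disjoint (H i) (H j))
    (hLH : ∀ i k, Disjoint (L i) (H k))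
    (a : κ → Fin m → ι) (ha : ∀ k, Function.Injective (a k))
    (hadj : ∀ k j, ∃ x ∈ H k, ∃ y ∈ L (a k j), C.NG.Adj x y) (hκ : Nonempty κ)
    (hgirth : ∀ w : κ × Fin m → ℚ, (∀ k, ∑ j, w (k, j) = 0) →
      (∀ i, ∑ p with a p.1 p.2 = i, w p = 0) → w ≠ 0 → g ≤ (univ.filter (fun p => w p ≠ 0)).card) :
    m * Fintype.card κ < Fintype.card ι + Fintype.card κ ∨
      g * (m * Fintype.card κ + 2) ≤ 2 * (m * Fintype.card κ) +
        g * (Fintype.card ι + Fintype.card κ) := by
  -- the connecting darts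
  have hex : ∀ p : κ × Fin m, ∃ d, C.tail d ∈ H p.1 ∧ C.head d ∈ L (a p.1 p.2) := by
    intro p
    obtain ⟨x, hx, y, hy, -, d, rfl, rfl⟩ := hadj p.1 p.2
    exact ⟨d, hx, hy⟩
  choose e he1 he2 using hex
  have hdH : ∀ {n k k'}, n ∈ H k → n ∈ H k' → k = k' := by
    intro n k k' h1 h2
    by_contra h
    exact Set.disjoint_left.1 (hHH k k' h) h1 h2
  have hdL : ∀ {n k k'}, n ∈ L k → n ∈ L k' → k = k' := by
    intro n k k' h1 h2
    by_contra h
    exact Set.disjoint_left.1 (hLL k k' h) h1 h2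
  have hdLH : ∀ {n i k}, n ∈ L i → n ∈ H k → False := by
    intro n i k h1 h2
    exact Set.disjoint_left.1 (hLH i k) h1 h2
  have einj : Function.Injective e := by
    rintro ⟨k, j⟩ ⟨k', j'⟩ h
    have h1 := he1 (k, j)
    rw [h] at h1
    obtain rfl := hdH h1 (he1 (k', j'))
    have h2 := he2 (k, j)
    rw [h] at h2
    have h3 := hdL h2 (he2 (k, j'))
    have h4 : j = j' := ha k h3
    rw [h4]
  have einj' : Function.Injective (fun p => C.α (e p)) := C.α.injective.comp einj
  have hne : ∀ p q, C.α (e p) ≠ e q := by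
    intro p q h
    have h1 := he2 p
    rw [Cell.head, h] at h1
    exact hdLH h1 (he1 q)
  -- the forest
  obtain ⟨J1, f1, f2, f3, f4⟩ := exists_forest C (τ := ι ⊕ κ) (Sum.elim L H)
    (by rintro (i | k); exacts [hL i, hH k])
    (by
      rintro (i | k) (i' | k') h
      · exact hLL i i' (fun h' => h (by rw [h']))
      · exact hLH i k'
      · exact (hLH i' k).symm
      · exact hHH k k' (fun h' => h (by rw [h'])))
  set n := Set.ncard (⋃ i, Sum.elim L H i) with hn
  set A := univ.image e with hA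
  set B := univ.image (fun p => C.α (e p)) with hB
  have hAB : Disjoint A B := by
    rw [Finset.disjoint_left]
    intro d h1 h2
    rw [hA, Finset.mem_image] at h1
    rw [hB, Finset.mem_image] at h2
    obtain ⟨p, -, rfl⟩ := h1
    obtain ⟨q, -, hq⟩ := h2
    exact hne q p hq
  have cA : A.card = m * Fintype.card κ := by
    rw [hA, Finset.card_image_of_injective _ einj, Finset.card_univ, Fintype.card_prod,
      Fintype.card_fin, Nat.mul_comm]
  have cB : B.card = m * Fintype.card κ := by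
    rw [hB, Finset.card_image_of_injective _ einj', Finset.card_univ,
      Fintype.card_prod, Fintype.card_fin, Nat.mul_comm]
  have hJ0J1 : Disjoint (A ∪ B) J1 := by
    rw [Finset.disjoint_left]
    intro d h1 h2
    obtain ⟨i, h3, h4⟩ := f2 d h2
    rw [Finset.mem_union, hA, hB, Finset.mem_image, Finset.mem_image] at h1
    rcases h1 with ⟨p, -, rfl⟩ | ⟨p, -, rfl⟩
    · rcases i with i | k
      · exact hdLH h3 (he1 p)
      · exact hdLH (he2 p) h4
    · rw [C.head_α] at h4
      rw [C.tail_α] at h3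
      rcases i with i | k
      · exact hdLH h4 (he1 p)
      · exact hdLH (he2 p) h3
  set J0 := A ∪ B with hJ0def
  set J := J0 ∪ J1 with hJdef
  have cJ0 : J0.card = 2 * (m * Fintype.card κ) := by
    rw [hJ0def, Finset.card_union_of_disjoint hAB, cA, cB]; ring
  have cJ : J.card + 2 * (Fintype.card ι + Fintype.card κ) = 2 * (m * Fintype.card κ) + 2 * n := by
    rw [hJdef, Finset.card_union_of_disjoint hJ0J1, cJ0]
    rw [Fintype.card_sum] at f3
    omega
  have hJ0' : ∀ d ∈ J0, C.α d ∈ J0 := by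
    intro d hd
    rw [hJ0def, Finset.mem_union, hA, hB, Finset.mem_image, Finset.mem_image] at hd ⊢
    rcases hd with ⟨p, -, rfl⟩ | ⟨p, -, rfl⟩
    · exact Or.inr ⟨p, Finset.mem_univ _, rfl⟩
    · exact Or.inl ⟨p, Finset.mem_univ _, (C.α_α _).symm⟩
  have hJ' : ∀ d ∈ J, C.α d ∈ J := by
    intro d hd
    rw [hJdef, Finset.mem_union] at hd ⊢
    exact hd.imp (hJ0' d) (f1 d)
  have cI : (J.image C.tail).card ≤ n := by
    rw [hn, ← Set.ncard_coe_finset]
    refine Set.ncard_le_ncard ?_ (Set.toFinite _)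
    intro x hx
    rw [Finset.mem_coe, Finset.mem_image] at hx
    obtain ⟨d, hd, rfl⟩ := hx
    rw [Set.mem_iUnion]
    rw [hJdef, Finset.mem_union, hJ0def, Finset.mem_union, hA, hB, Finset.mem_image,
      Finset.mem_image] at hd
    rcases hd with (⟨p, -, rfl⟩ | ⟨p, -, rfl⟩) | hd
    · exact ⟨Sum.inr p.1, he1 p⟩
    · exact ⟨Sum.inl (a p.1 p.2), he2 p⟩
    · obtain ⟨i, h, -⟩ := f2 d hd
      exact ⟨i, h⟩
  have hJne : J.Nonempty := by
    obtain ⟨k⟩ := hκ
    refine ⟨e (k, ⟨0, hm⟩), ?_⟩
    rw [hJdef, hJ0def, Finset.mem_union, Finset.mem_union, hA, Finset.mem_image]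
    exact Or.inl (Or.inl ⟨_, Finset.mem_univ _, rfl⟩)
  by_cases hcard : 2 * (J.image C.tail).card ≤ J.card
  swap
  · left; omega
  right
  have key := euler_bound C hC J J0 hJne hJ' Finset.subset_union_left hJ0' g ?_ hcard
  · have k1 : 2 * g * (J.image C.tail).card ≤ 2 * g * n := Nat.mul_le_mul_left _ cI
    have k2 : g * (J.card + 2 * (Fintype.card ι + Fintype.card κ)) =
      g * (2 * (m * Fintype.card κ) + 2 * n) := by rw [cJ]
    rw [cJ0] at key
    nlinarith [key, k1, k2]
  -- the girth condition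
  intro z z1 z2 z3 z4
  have zoff : ∀ d, d ∉ J0 → d ∉ J1 → z d = 0 := by
    intro d h1 h2
    apply z2
    rw [hJdef, Finset.mem_union]
    tauto
  set w : κ × Fin m → ℚ := fun p => z (e p) with hw
  have w1 : ∀ k, ∑ j, w (k, j) = 0 := by
    intro k
    have h1 := sum_set C z z1 z3 (H k)
    have h2 : ∑ d ∈ univ.image (fun j : Fin m => e (k, j)), z d =
        ∑ d with C.tail d ∈ H k ∧ C.head d ∉ H k, z d := by
      refine Finset.sum_subset ?_ ?_
      · intro d hd
        rw [Finset.mem_image] at hd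
        obtain ⟨j, -, rfl⟩ := hd
        rw [Finset.mem_filter]
        exact ⟨Finset.mem_univ _, he1 (k, j), fun h => hdLH (he2 (k, j)) h⟩
      · intro d hd hd'
        rw [Finset.mem_filter] at hd
        apply zoff
        · intro h
          rw [hJ0def, Finset.mem_union, hA, hB, Finset.mem_image, Finset.mem_image] at h
          rcases h with ⟨⟨k', j⟩, -, rfl⟩ | ⟨p, -, rfl⟩
          · obtain rfl := hdH hd.2.1 (he1 (k', j))
            exact hd' (Finset.mem_image_of_mem _ (Finset.mem_univ j))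
          · exact hdLH (he2 p) hd.2.1
        · intro h
          obtain ⟨i, h3, h4⟩ := f2 d h
          rcases i with i | k'
          · exact hdLH h3 hd.2.1
          · obtain rfl := hdH hd.2.1 h3
            exact hd.2.2 h4
    rw [h1, Finset.sum_image (fun j _ j' _ h => by
      have := einj h
      exact (Prod.mk.injEq _ _ _ _ ▸ this).2)] at h2
    exact h2
  have w2 : ∀ i, ∑ p with a p.1 p.2 = i, w p = 0 := by
    intro i
    have h1 := sum_set C z z1 z3 (L i)
    have h2 : ∑ d ∈ (univ.filter (fun p : κ × Fin m => a p.1 p.2 = i)).image (fun p => C.α (e p)),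
        z d = ∑ d with C.tail d ∈ L i ∧ C.head d ∉ L i, z d := by
      refine Finset.sum_subset ?_ ?_
      · intro d hd
        rw [Finset.mem_image] at hd
        obtain ⟨p, hp, rfl⟩ := hd
        rw [Finset.mem_filter] at hp ⊢
        refine ⟨Finset.mem_univ _, ?_, ?_⟩
        · rw [C.tail_α, ← hp.2]; exact he2 p
        · rw [C.head_α]; exact fun h => hdLH h (he1 p)
      · intro d hd hd'
        rw [Finset.mem_filter] at hd
        apply zoff
        · intro h
          rw [hJ0def, Finset.mem_union, hA, hB, Finset.mem_image, Finset.mem_image] at h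
          rcases h with ⟨p, -, rfl⟩ | ⟨p, -, rfl⟩
          · exact hdLH hd.2.1 (he1 p)
          · apply hd'
            rw [Finset.mem_image]
            refine ⟨p, ?_, rfl⟩
            rw [Finset.mem_filter]
            exact ⟨Finset.mem_univ _, hdL (he2 p) hd.2.1⟩
        · intro h
          obtain ⟨i', h3, h4⟩ := f2 d h
          rcases i' with i' | k'
          · obtain rfl := hdL hd.2.1 h3
            exact hd.2.2 h4
          · exact hdLH hd.2.1 h3
    rw [h1, Finset.sum_image (fun p _ q _ h => einj (C.α.injective h)),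
      Finset.sum_congr rfl (fun p _ => z1 (e p)), Finset.sum_neg_distrib, neg_eq_zero] at h2
    exact h2
  have w3 : w ≠ 0 := by
    intro h
    have h0 : ∀ p, z (e p) = 0 := fun p => congrFun h p
    apply z4
    refine f4 z z1 (fun d hd => ?_) z3
    by_cases hd0 : d ∈ J0
    · rw [hJ0def, Finset.mem_union, hA, hB, Finset.mem_image, Finset.mem_image] at hd0
      rcases hd0 with ⟨p, -, rfl⟩ | ⟨p, -, rfl⟩
      · exact h0 p
      · rw [z1, h0, neg_zero]
    · exact zoff d hd0 hd
  have w4 := hgirth w w1 w2 w3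
  set T := univ.filter (fun p => w p ≠ 0) with hT
  have h5 : (T.image e ∪ T.image (fun p => C.α (e p))).card = 2 * T.card := by
    rw [Finset.card_union_of_disjoint, Finset.card_image_of_injective _ einj,
      Finset.card_image_of_injective _ einj', two_mul]
    exact hAB.mono (Finset.image_subset_image (Finset.subset_univ _))
      (Finset.image_subset_image (Finset.subset_univ _))
  have h6 : (T.image e ∪ T.image (fun p => C.α (e p))) ⊆ J0.filter (fun d => z d ≠ 0) := by
    intro d hd
    rw [Finset.mem_union, Finset.mem_image, Finset.mem_image] at hd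
    rw [Finset.mem_filter, hJ0def, Finset.mem_union, hA, hB, Finset.mem_image, Finset.mem_image]
    rcases hd with ⟨p, hp, rfl⟩ | ⟨p, hp, rfl⟩
    · rw [hT, Finset.mem_filter] at hp
      exact ⟨Or.inl ⟨p, Finset.mem_univ _, rfl⟩, hp.2⟩
    · rw [hT, Finset.mem_filter] at hp
      refine ⟨Or.inr ⟨p, Finset.mem_univ _, rfl⟩, ?_⟩
      rw [z1, neg_ne_zero]; exact hp.2
  have h7 := Finset.card_le_card h6
  omega

end MLN

theorem nminor3 (C : Cell D N F) (hC : C.Planar) {ι κ : Type} [Fintype ι] [Fintype κ]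
    (L : ι → Set N) (H : κ → Set N)
    (hL : ∀ i, (C.NG.induce (L i)).Connected) (hH : ∀ k, (C.NG.induce (H k)).Connected)
    (hLL : ∀ i j, i ≠ j → Disjoint (L i) (L j)) (hHH : ∀ i j, i ≠ j → Disjoint (H i) (H j))
    (hLH : ∀ i k, Disjoint (L i) (H k))
    (a : κ → Fin 3 → ι) (ha : ∀ k, Function.Injective (a k))
    (hadj : ∀ k j, ∃ x ∈ H k, ∃ y ∈ L (a k j), C.NG.Adj x y)
    (h3 : 3 ≤ Fintype.card ι) :
    Fintype.card κ + 4 ≤ 2 * Fintype.card ι := by
  classical
  rcases isEmpty_or_nonempty κ with hκ | hκ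
  · rw [Fintype.card_eq_zero]; omega
  suffices hgirth : ∀ w : κ × Fin 3 → ℚ, (∀ k, ∑ j, w (k, j) = 0) →
      (∀ i, ∑ p with a p.1 p.2 = i, w p = 0) → w ≠ 0 →
      4 ≤ (univ.filter (fun p => w p ≠ 0)).card by
    rcases MLN.core (by norm_num) 4 C hC L H hL hH hLL hHH hLH a ha hadj hκ hgirth with h | h
    · omega
    · omega
  intro w w1 w2 w3
  obtain ⟨⟨k, j⟩, hkj⟩ := Function.ne_iff.1 w3
  rw [Pi.zero_apply] at hkj
  -- another edge at `k`
  have hK : ∀ k j, w (k, j) ≠ 0 → ∃ j', j' ≠ j ∧ w (k, j') ≠ 0 := by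
    intro k j h
    by_contra hcon
    push Not at hcon
    have h1 := w1 k
    rw [Finset.sum_eq_single j (fun j' _ hj' => hcon j' hj') (fun h => absurd (Finset.mem_univ _) h)]
      at h1
    exact h h1
  have hI : ∀ k j, w (k, j) ≠ 0 → ∃ k' j', k' ≠ k ∧ a k' j' = a k j ∧ w (k', j') ≠ 0 := by
    intro k j h
    by_contra hcon
    push Not at hcon
    have h1 := w2 (a k j)
    rw [Finset.sum_eq_single (k, j) ?_ ?_] at h1
    · exact h h1
    · rintro ⟨k', j'⟩ hp hne
      rw [Finset.mem_filter] at hp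
      by_cases hk : k' = k
      · subst hk
        have e : j' = j := ha _ hp.2
        exact absurd (by rw [e]) hne
      · exact hcon k' j' hk hp.2
    · intro h'
      refine absurd ?_ h'
      rw [Finset.mem_filter]
      exact ⟨Finset.mem_univ _, rfl⟩
  obtain ⟨j', hj', hkj'⟩ := hK k j hkj
  obtain ⟨k2, j2, hk2, ha2, hw2⟩ := hI k j hkj
  obtain ⟨k3, j3, hk3, ha3, hw3⟩ := hI k j' hkj'
  have hne23 : (k2, j2) ≠ (k3, j3) := by
    intro h
    rw [Prod.mk.injEq] at h
    obtain ⟨rfl, rfl⟩ := h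
    exact hj' (ha k (ha3.symm.trans ha2))
  have hcard : ({(k, j), (k, j'), (k2, j2), (k3, j3)} : Finset (κ × Fin 3)).card = 4 := by
    rw [Finset.card_insert_of_notMem, Finset.card_insert_of_notMem, Finset.card_insert_of_notMem,
      Finset.card_singleton]
    · simpa using hne23
    · simp only [Finset.mem_insert, Finset.mem_singleton, Prod.mk.injEq, not_or, not_and]
      exact ⟨fun h => absurd h.symm hk2, fun h => absurd h.symm hk3⟩
    · simp only [Finset.mem_insert, Finset.mem_singleton, Prod.mk.injEq, not_or, not_and]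
      exact ⟨fun _ h => hj' h.symm, fun h => absurd h.symm hk2, fun h => absurd h.symm hk3⟩
  rw [← hcard]
  apply Finset.card_le_card
  intro p hp
  simp only [Finset.mem_insert, Finset.mem_singleton] at hp
  rw [Finset.mem_filter]
  refine ⟨Finset.mem_univ _, ?_⟩
  rcases hp with rfl | rfl | rfl | rfl <;> assumption

theorem nminor2 (C : Cell D N F) (hC : C.Planar) {ι κ : Type} [Fintype ι] [Fintype κ]
    (L : ι → Set N) (H : κ → Set N)
    (hL : ∀ i, (C.NG.induce (L i)).Connected) (hH : ∀ k, (C.NG.induce (H k)).Connected)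
    (hLL : ∀ i j, i ≠ j → Disjoint (L i) (L j)) (hHH : ∀ i j, i ≠ j → Disjoint (H i) (H j))
    (hLH : ∀ i k, Disjoint (L i) (H k))
    (a : κ → Fin 2 → ι) (ha : ∀ k, a k 0 ≠ a k 1)
    (ha2 : ∀ k k', k ≠ k' → ({a k 0, a k 1} : Set ι) ≠ {a k' 0, a k' 1})
    (hadj : ∀ k j, ∃ x ∈ H k, ∃ y ∈ L (a k j), C.NG.Adj x y)
    (h3 : 3 ≤ Fintype.card ι) :
    Fintype.card κ + 6 ≤ 3 * Fintype.card ι := by
  classical
  rcases isEmpty_or_nonempty κ with hκ | hκ
  · rw [Fintype.card_eq_zero]; omega
  have hinj : ∀ k, Function.Injective (a k) := by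
    intro k i j h
    fin_cases i <;> fin_cases j
    · rfl
    · exact absurd h (ha k)
    · exact absurd h.symm (ha k)
    · rfl
  suffices hgirth : ∀ w : κ × Fin 2 → ℚ, (∀ k, ∑ j, w (k, j) = 0) →
      (∀ i, ∑ p with a p.1 p.2 = i, w p = 0) → w ≠ 0 →
      6 ≤ (univ.filter (fun p => w p ≠ 0)).card by
    rcases MLN.core (by norm_num) 6 C hC L H hL hH hLL hHH hLH a hinj hadj hκ hgirth with h | h
    · omega
    · omega
  intro w w1 w2 w3
  obtain ⟨⟨k, j⟩, hkj⟩ := Function.ne_iff.1 w3
  rw [Pi.zero_apply] at hkj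
  -- both edges at `k`
  have hK : ∀ k j, w (k, j) ≠ 0 → ∀ j', w (k, j') ≠ 0 := by
    intro k j h j' h'
    have h1 := w1 k
    rw [Fin.sum_univ_two] at h1
    fin_cases j <;> fin_cases j'
    · exact h h'
    · simp only [Fin.mk_one, Fin.isValue, Fin.zero_eta] at h h'
      rw [h', add_zero] at h1
      exact h h1
    · simp only [Fin.mk_one, Fin.isValue, Fin.zero_eta] at h h'
      rw [h', zero_add] at h1
      exact h h1
    · exact h h'
  have hI : ∀ k j, w (k, j) ≠ 0 → ∃ k' j', k' ≠ k ∧ a k' j' = a k j ∧ w (k', j') ≠ 0 := by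
    intro k j h
    by_contra hcon
    push Not at hcon
    have h1 := w2 (a k j)
    rw [Finset.sum_eq_single (k, j) ?_ ?_] at h1
    · exact h h1
    · rintro ⟨k', j'⟩ hp hne
      rw [Finset.mem_filter] at hp
      by_cases hk : k' = k
      · subst hk
        have e : j' = j := hinj _ hp.2
        exact absurd (by rw [e]) hne
      · exact hcon k' j' hk hp.2
    · intro h'
      refine absurd ?_ h'
      rw [Finset.mem_filter]
      exact ⟨Finset.mem_univ _, rfl⟩
  obtain ⟨k2, j2, hk2, e2, hw2⟩ := hI k 0 (hK k j hkj 0)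
  obtain ⟨k3, j3, hk3, e3, hw3⟩ := hI k 1 (hK k j hkj 1)
  have hne23 : k2 ≠ k3 := by
    rintro rfl
    have hj : j2 ≠ j3 := by
      rintro rfl
      exact ha k (e2.symm.trans e3)
    apply ha2 k2 k hk2
    have : j2 = 0 ∧ j3 = 1 ∨ j2 = 1 ∧ j3 = 0 := by omega
    rcases this with ⟨rfl, rfl⟩ | ⟨rfl, rfl⟩
    · rw [e2, e3]
    · rw [e2, e3, Set.pair_comm]
  have hcard : (({k, k2, k3} : Finset κ) ×ˢ (univ : Finset (Fin 2))).card = 6 := by
    rw [Finset.card_product, Finset.card_univ, Fintype.card_fin, Finset.card_insert_of_notMem,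
      Finset.card_insert_of_notMem, Finset.card_singleton]
    · simpa using hne23
    · simp only [Finset.mem_insert, Finset.mem_singleton, not_or]
      exact ⟨hk2.symm, hk3.symm⟩
  rw [← hcard]
  apply Finset.card_le_card
  rintro ⟨p, q⟩ hp
  rw [Finset.mem_product] at hp
  simp only [Finset.mem_insert, Finset.mem_singleton] at hp
  rw [Finset.mem_filter]
  refine ⟨Finset.mem_univ _, ?_⟩
  rcases hp.1 with rfl | rfl | rfl
  · exact hK _ j hkj q
  · exact hK _ j2 hw2 q
  · exact hK _ j3 hw3 q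

end MLN

end Pool.Agent.Lib.MP_9ad789_co
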