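import Pool.Agent.Lib.MP_9ad789_co.XCell

/-!
# MP_9ad789_co : the planarisation of a 3-connected simple 1-plane graph (helper24)
-/

namespace Pool.Agent.Lib.MP_9ad789_co

open Equiv Finset

set_option linter.unusedSectionVars false

open XCell

variable {V R : Type} [Fintype V] [Fintype R] [DecidableEq V] [DecidableEq R]

/-- the other end of an edge in the planarisation -/
theorem OneP.opp_inl (X : XMap V R) {F : Type} (C : Cell X.PD (V ⊕ X.XN) F)
    (hα : ∀ x, C.α x = X.rev x) (hφ : ∀ x, C.φ x = X.next x) (ht : ∀ x, C.tail x = X.ptail x)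
    (d : R) : C.opp (fun n => n.isRight = true) (.inl d) = .inl (X.opp d) := by
  have hσ := sigma_eq X C hα hφ
  by_cases h : X.Crossed d
  · have h1 : C.head (.inl d) = .inr (X.xn ⟨d, h⟩) := by
      rw [Cell.head, hα, rev_inl_crossed X h, ht]
      rfl
    rw [Cell.opp, if_pos (by rw [h1]; rfl), hσ, hσ, hα, hα, rev_inl_crossed X h, sig_inr, sig_inr,
      rev_inr, cperm_two]
  · have h1 : C.head (.inl d) = .inl (X.vert (X.opp d)) := by
      rw [Cell.head, hα, rev_inl_not X h, ht]
      rfl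
    rw [Cell.opp, if_neg (by rw [h1]; simp), hα, rev_inl_not X h]

theorem oneP {G : SimpleGraph V} [DecidableRel G.Adj] (E : OnePlane G) (h3 : ThreeConnected G)
    [Fintype E.XN] [Fintype E.Face] [DecidableEq E.XN]
    (C : Cell E.PD (V ⊕ E.XN) E.Face) (hα : ∀ x, C.α x = E.rev x) (hφ : ∀ x, C.φ x = E.next x)
    (ht : ∀ x, C.tail x = E.ptail x) (hl : ∀ x, C.left x = E.face x) (hT : C.Tight) :
    C.OneP (fun n => n.isRight = true) := by
  have hσ := sigma_eq E.toXMap C hα hφ
  have htl : ∀ d : G.Dart, C.tail (.inl d) = .inl d.fst := by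
    intro d
    rw [ht, XMap.ptail, E.vert_eq]
  have htr : ∀ d : {d : G.Dart // E.Crossed d}, C.tail (.inr d) = .inr (E.xn d) := by
    intro d
    rw [ht]
    rfl
  have hhr : ∀ d : {d : G.Dart // E.Crossed d}, C.head (.inr d) = .inl d.1.fst := by
    intro d
    rw [Cell.head, hα, rev_inr, htl]
  have hopp : ∀ d : G.Dart, C.opp (fun n => n.isRight = true) (.inl d) = .inl d.symm := by
    intro d
    rw [OneP.opp_inl E.toXMap C hα hφ ht, E.opp_eq]
  have hcase : ∀ x : E.PD, (C.tail x).isRight = true → ∃ d, x = .inr d := by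
    rintro (d | d) hx
    · rw [htl] at hx
      simp at hx
    · exact ⟨d, rfl⟩
  have hcase' : ∀ x : E.PD, ¬ (C.tail x).isRight = true → ∃ d, x = .inl d := by
    rintro (d | d) hx
    · exact ⟨d, rfl⟩
    · rw [htr] at hx
      simp at hx
  refine ⟨planar_of_euler E.toXMap C E.euler, hT, ?_, ?_, ?_, ?_, ?_, ?_, ?_, ?_⟩
  · intro x hx
    obtain ⟨d, rfl⟩ := hcase x hx
    rw [hhr]
    simp
  · intro x hx
    obtain ⟨d, rfl⟩ := hcase x hx
    rw [hσ, hσ, hσ, hσ, sig_inr, sig_inr, sig_inr, sig_inr, cperm_four]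
  · intro x hx
    obtain ⟨d, rfl⟩ := hcase x hx
    rw [hσ, hσ, sig_inr, sig_inr]
    intro h
    exact cperm_two_ne _ d (Sum.inr.inj h)
  · intro x hx
    obtain ⟨d, rfl⟩ := hcase x hx
    rw [hσ, sig_inr, hhr, hhr]
    intro h
    have h1 := E.crs_vert _ _ (E.crs_crsGet d)
    rw [E.vert_eq, E.vert_eq] at h1
    exact h1 (Sum.inl.inj h)
  · intro x hx
    obtain ⟨d, rfl⟩ := hcase' x hx
    rw [hopp, htl, htl]
    intro h
    exact d.adj.ne (Sum.inl.inj h).symm
  · intro x y hx hy h1 h2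
    obtain ⟨d, rfl⟩ := hcase' x hx
    obtain ⟨d', rfl⟩ := hcase' y hy
    rw [htl, htl] at h1
    rw [hopp, hopp, htl, htl] at h2
    congr 1
    exact SimpleGraph.Dart.ext _ _ (Prod.ext (Sum.inl.inj h1) (Sum.inl.inj h2))
  · intro Y S hY hYr hS hcl n hn
    obtain ⟨v, rfl⟩ : ∃ v, n = .inl v := by
      rcases n with v | q
      · exact ⟨v, rfl⟩
      · simp at hn
    obtain ⟨y, hy⟩ := hY
    obtain ⟨v0, rfl⟩ : ∃ v, y = .inl v := by
      rcases y with v | q
      · exact ⟨v, rfl⟩
      · exact absurd rfl (hYr _ hy)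
    let S' : Finset V := univ.filter (fun v => (.inl v : V ⊕ E.XN) ∈ S ∧ (.inl v : V ⊕ E.XN) ∉ Y)
    have hS'm : ∀ v, v ∈ S' ↔ (.inl v : V ⊕ E.XN) ∈ S ∧ (.inl v : V ⊕ E.XN) ∉ Y := by
      intro v
      simp [S']
    have hS' : S'.card ≤ 2 := by
      refine le_trans ?_ hS
      refine Finset.card_le_card_of_injOn (fun v => (.inl v : V ⊕ E.XN)) ?_ ?_
      · intro v hv
        exact ((hS'm v).1 hv).1
      · intro a _ b _ hab
        exact Sum.inl.inj hab
    by_cases hv : v ∈ S'
    · exact Or.inr ((hS'm v).1 hv).1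
    · left
      have hconn := h3.conn S' hS'
      have hv0 : v0 ∉ S' := fun h => ((hS'm v0).1 h).2 hy
      obtain ⟨w⟩ := hconn.preconnected ⟨v0, hv0⟩ ⟨v, hv⟩
      have key : ∀ a b : {v | v ∉ S'}, (G.induce {v | v ∉ S'}).Walk a b →
          (.inl a.1 : V ⊕ E.XN) ∈ Y → (.inl b.1 : V ⊕ E.XN) ∈ Y := by
        intro a b w
        induction w with
        | nil => exact id
        | @cons a b c hab _ ih =>
          intro ha
          apply ih
          have hab' : G.Adj a.1 b.1 := hab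
          have h1 := hcl (.inl ⟨(a.1, b.1), hab'⟩) (by rw [htl]; exact ha)
          rw [hopp, htl] at h1
          by_contra hb
          rcases h1 with h1 | h1
          · exact hb h1
          · exact b.2 ((hS'm b.1).2 ⟨h1, hb⟩)
      exact key _ _ w hy
  · calc 4 ≤ Fintype.card V := h3.card
      _ = (univ : Finset V).card := rfl
      _ ≤ _ := by
        refine Finset.card_le_card_of_injOn (fun v => (.inl v : V ⊕ E.XN)) ?_ ?_
        · intro v _
          simp
        · intro a _ b _ hab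
          exact Sum.inl.inj hab

end Pool.Agent.Lib.MP_9ad789_co
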