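import Pool.Agent.Lib.MP_9ad789_co.Cell
import Mathlib.Dynamics.PeriodicPts.Lemmas

/-!
# The pattern -1, 1, 1 on a face with a reflex corner
-/

set_option linter.unusedSectionVars false

namespace Pool.Agent.Lib.MP_9ad789_co

open Equiv Finset

variable {D N F : Type} [Fintype D] [Fintype N] [Fintype F]
  [DecidableEq D] [DecidableEq N] [DecidableEq F]

namespace PatAux

/-- Sum over a cycle of a permutation. -/
theorem sum_cycle (φ : Perm D) (A : Finset D) (e : D) (he : ∀ d, d ∈ A ↔ φ.SameCycle e d)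
    (t : D → ℤ) : ∃ L, 0 < L ∧ ∑ i ∈ Icc 1 L, t ((φ^[i]) e) = ∑ d ∈ A, t d := by
  have hper : e ∈ Function.periodicPts φ :=
    ⟨orderOf φ, orderOf_pos φ, by
      show (φ^[orderOf φ]) e = e
      rw [Equiv.Perm.iterate_eq_pow, pow_orderOf_eq_one]; rfl⟩
  have hL := Function.minimalPeriod_pos_of_mem_periodicPts hper
  set L := Function.minimalPeriod φ e with hLdef
  refine ⟨L, hL, ?_⟩
  have hinj : Set.InjOn (fun i => (φ^[i]) e) (Set.Iio L) :=
    Function.iterate_injOn_Iio_minimalPeriod
  have hmod : ∀ n, (φ^[n % L]) e = (φ^[n]) e := fun n => Function.iterate_mod_minimalPeriod_eq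
  have h1 : ∑ i ∈ Icc 1 L, t ((φ^[i]) e) = ∑ i ∈ range L, t ((φ^[i]) e) := by
    have e1 : Icc 1 L = (range L).image (fun i => if i = 0 then L else i) := by
      ext i
      simp only [mem_Icc, mem_image, mem_range]
      constructor
      · rintro ⟨h1, h2⟩
        by_cases h : i = L
        · exact ⟨0, hL, by simp [h]⟩
        · exact ⟨i, by omega, by rw [if_neg (by omega)]⟩
      · rintro ⟨j, hj, rfl⟩
        split_ifs <;> omega
    rw [e1, Finset.sum_image]
    · refine Finset.sum_congr rfl fun i _ => ?_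
      by_cases h : i = 0
      · subst h
        have := hmod L
        rw [Nat.mod_self] at this
        simp [← this]
      · rw [if_neg h]
    · intro i hi j hj h
      simp only [Finset.coe_range, Set.mem_Iio] at hi hj
      dsimp only at h
      split_ifs at h <;> omega
  rw [h1]
  refine Finset.sum_bij (fun i _ => (φ^[i]) e) ?_ ?_ ?_ ?_
  · intro i _
    rw [he]
    exact ⟨i, by rw [zpow_natCast, Equiv.Perm.iterate_eq_pow]⟩
  · intro i hi j hj h
    exact hinj (by simpa using hi) (by simpa using hj) h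
  · intro d hd
    rw [he] at hd
    obtain ⟨n, -, hn⟩ := hd.exists_pow_eq'
    refine ⟨n % L, mem_range.2 (Nat.mod_lt _ hL), ?_⟩
    rw [hmod, Equiv.Perm.iterate_eq_pow]
    exact hn
  · intro i _; rfl

/-- Discrete intermediate values. -/
theorem ivt (f : ℕ → ℤ) (h0 : f 0 ≤ 2) (hstep : ∀ i, f (i + 1) ≤ f i + 1) (n : ℕ)
    (hn : 2 ≤ f n) : ∃ k ≤ n, f k = 2 := by
  induction n with
  | zero => exact ⟨0, le_rfl, by omega⟩
  | succ n ih =>
    by_cases h : 2 ≤ f n
    · obtain ⟨k, h1, h2⟩ := ih h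
      exact ⟨k, by omega, h2⟩
    · exact ⟨n + 1, le_rfl, by have := hstep n; omega⟩

end PatAux

open PatAux in
theorem exists_pattern (M : Flat D N F) (e : D) (he : M.turn e = -1) (ho : M.left e ≠ M.outer) :
    ∃ (a : D) (k : ℕ), M.left a = M.left e ∧ M.turn a = -1 ∧ 0 < k ∧
      (∀ i, 0 < i → i ≤ k → 0 ≤ M.turn ((M.φ^[i]) a)) ∧
      M.turn ((M.φ^[k]) a) = 1 ∧ ∑ i ∈ Icc 1 k, M.turn ((M.φ^[i]) a) = 2 := by
  classical
  let S : D → ℕ → ℤ := fun a k => ∑ i ∈ Icc 1 k, M.turn ((M.φ^[i]) a)
  have hS0 : ∀ a, S a 0 = 0 := fun a => by simp [S]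
  have hSs : ∀ a k, S a (k + 1) = S a k + M.turn ((M.φ^[k + 1]) a) := fun a k => by
    simp only [S]
    rw [Finset.sum_Icc_succ_top (by omega)]
  have hSl : ∀ a k, S a (k + 1) ≤ S a k + 1 := fun a k => by
    rw [hSs]
    rcases M.turn_mem ((M.φ^[k + 1]) a) with h | h | h <;> omega
  have hSadd : ∀ a j k, S a (j + k) = S a j + S ((M.φ^[j]) a) k := by
    intro a j k
    induction k with
    | zero => simp [hS0]
    | succ k ih =>
      rw [← add_assoc, hSs, ih, hSs, ← Function.iterate_add_apply]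
      have : j + k + 1 = k + 1 + j := by omega
      rw [this]; ring
  have hex : ∃ k, ∃ a, M.left a = M.left e ∧ M.turn a = -1 ∧ S a k = 2 := by
    obtain ⟨L, hL, hsum⟩ := sum_cycle M.φ (univ.filter (fun d => M.left d = M.left e)) e (by
      intro d
      simp only [mem_filter, mem_univ, true_and]
      constructor
      · intro h; exact M.tight.left_same e d h.symm
      · rintro ⟨n, rfl⟩
        have hz : ∀ (n : ℤ) d, M.left ((M.φ ^ n) d) = M.left d := by
          have hp : ∀ (n : ℕ) d, M.left ((M.φ ^ n) d) = M.left d := by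
            intro n
            induction n with
            | zero => intro d; rfl
            | succ n ih => intro d; rw [pow_succ, Equiv.Perm.mul_apply, ih, M.left_φ]
          intro n d
          cases n with
          | ofNat n => exact hp n d
          | negSucc n =>
            rw [zpow_negSucc]
            have := hp (n + 1) ((M.φ ^ (n + 1))⁻¹ d)
            rw [← Equiv.Perm.mul_apply, mul_inv_cancel, Equiv.Perm.one_apply] at this
            exact this.symm
        exact hz n e) M.turn
    have h4 : ∑ d with M.left d = M.left e, M.turn d = 4 := by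
      rw [M.face_sum, if_neg ho]
    rw [h4] at hsum
    obtain ⟨k, -, hk⟩ := ivt (S e) (by rw [hS0]; norm_num) (hSl e) L (by
      show 2 ≤ ∑ i ∈ Icc 1 L, M.turn ((M.φ^[i]) e)
      omega)
    exact ⟨k, e, rfl, he, hk⟩
  have hmin := fun m hm => Nat.find_min hex (m := m) hm
  obtain ⟨a, ha1, ha2, ha3⟩ := Nat.find_spec hex
  set k := Nat.find hex with hk
  have hlt : ∀ i < k, S a i ≤ 1 := by
    intro i hi
    by_contra hcon
    push Not at hcon
    obtain ⟨j, hj, hj'⟩ := ivt (S a) (by rw [hS0]; norm_num) (hSl a) i (by omega)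
    exact hmin j (by omega) ⟨a, ha1, ha2, hj'⟩
  have hk0 : 0 < k := by
    by_contra h
    have : k = 0 := by omega
    rw [this, hS0] at ha3
    norm_num at ha3
  have hleft : ∀ j, M.left ((M.φ^[j]) a) = M.left a := by
    intro j
    induction j with
    | zero => rfl
    | succ j ih => rw [Function.iterate_succ_apply', M.left_φ, ih]
  refine ⟨a, k, ha1, ha2, hk0, ?_, ?_, ha3⟩
  · intro i hi hik
    by_contra hcon
    push Not at hcon
    have hti : M.turn ((M.φ^[i]) a) = -1 := by
      rcases M.turn_mem ((M.φ^[i]) a) with h | h | h <;> omega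
    obtain ⟨i', rfl⟩ : ∃ i', i = i' + 1 := ⟨i - 1, by omega⟩
    have h1 := hSs a i'
    have h2 := hlt i' (by omega)
    rw [hti] at h1
    have h3 := hSadd a (i' + 1) (k - (i' + 1))
    rw [show i' + 1 + (k - (i' + 1)) = k by omega, ha3] at h3
    obtain ⟨j, hj, hj'⟩ := ivt (S ((M.φ^[i' + 1]) a)) (by rw [hS0]; norm_num) (hSl _)
      (k - (i' + 1)) (by omega)
    exact hmin j (by omega) ⟨_, by rw [hleft, ha1], hti, hj'⟩
  · obtain ⟨k', hk'⟩ : ∃ k', k = k' + 1 := ⟨k - 1, by omega⟩
    have h1 := hSs a k'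
    rw [← hk', ha3] at h1
    have h2 := hlt k' (by omega)
    rcases M.turn_mem ((M.φ^[k]) a) with h | h | h <;> omega

end Pool.Agent.Lib.MP_9ad789_co
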