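import Pool.Agent.Lib.MP_9ad789_co.Opv
import Pool.Agent.Lib.MP_9ad789_co.Conn
import Pool.Agent.Lib.MP_9ad789_co.Expand
import Pool.Agent.Lib.MP_9ad789_co.AddInf
import Pool.Agent.Lib.MP_9ad789_co.GR

/-!
# MP_9ad789_co, module REAL: every angle assignment is realised by a representation
-/

namespace Pool.Agent.Lib.MP_9ad789_co

open Equiv Finset

namespace Real9

theorem finite_XN {V R : Type} [Finite R] (X : XMap V R) : Finite X.XN := by
  unfold XMap.XN
  infer_instance

theorem finite_Face {V R : Type} [Finite R] (X : XMap V R) : Finite X.Face := by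
  unfold XMap.Face
  infer_instance

theorem framed {V R : Type} [Fintype R] {Y : XMap V R} {S : R → ℤ} [DecidableEq (Y.EN S)]
    [DecidableEq (Y.EF S)] {inf : V} {M : Flat (Y.ED S) (Y.EN S) (Y.EF S)}
    (hM : Y.IsExpansion S inf M) (h : ∀ d, Y.vert d = inf → S d ≤ 0) : M.Framed := by
  intro x hx
  rw [hM.outer_eq, hM.left_eq] at hx
  rw [hM.turn_eq]
  rcases x with x | ⟨y, b⟩
  · simp [XMap.eleft] at hx
  · cases b with
    | true => simp [XMap.eleft] at hx
    | false =>
      simp only [XMap.eleft, Sum.inl.injEq] at hx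
      have h1 := h _ hx
      simp only [XMap.eturn]
      split_ifs with h2
      · rcases h1.lt_or_eq with h1 | h1
        · rw [Int.sign_eq_neg_one_of_neg h1]
          norm_num
        · rw [h1]
          simp
      · exact le_rfl

end Real9

theorem realize {V : Type} [Fintype V] [DecidableEq V] {G : SimpleGraph V}
    [DecidableRel G.Adj] (E : OnePlane G)
    (h3 : ThreeConnected G) (s : G.Dart → ℤ) (hv : ∀ v, ∑ d : G.Dart with d.fst = v, s d = 4)
    (hf : ∀ x : E.PD, (E.SameFace (.inl E.outer) x → E.faceSum (E.wt s) x = -4) ∧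
      (¬ E.SameFace (.inl E.outer) x → E.faceSum (E.wt s) x = 4)) :
    ∃ Γ : OPVR E, Γ.Valid ∧ Γ.Strict ∧
      ∀ v, (Γ.reflex v : ℤ) = ∑ d : G.Dart with d.fst = v, max 0 (- s d) := by
  classical
  have hX := conn_of_threeConnected E h3
  obtain ⟨Y, hY⟩ := exists_addInf E.toXMap E.outer
  have hYc := addInf_conn E.toXMap E.outer Y hY hX
  have hv' : ∀ v, ∑ d with E.vert d = v, s d = 4 := by
    intro v
    rw [← hv v]
    refine Finset.sum_congr ?_ fun _ _ => rfl
    ext d
    simp [E.vert_eq]
  have hYv := addInf_vert E.toXMap E.outer Y hY s hv'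
  have hYf := addInf_face E.toXMap E.outer Y hY s hf
  obtain ⟨M, hM⟩ := exists_expansion Y hYc (XMap.addS s) none hYv hYf
  have : Finite Y.XN := Real9.finite_XN Y
  have : Finite Y.Face := Real9.finite_Face Y
  let _ : Fintype Y.XN := Fintype.ofFinite _
  let _ : Fintype Y.Face := Fintype.ofFinite _
  have hF : M.Framed := by
    refine Real9.framed hM ?_
    rintro (d | (_ | _)) hd
    · rw [hY.vert_l] at hd
      simp at hd
    · rw [hY.vert_f] at hd
      simp at hd
    · simp [XMap.addS]
  exact opvr_of_draw E Y hY s hv hf M hM (drawable M hF)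

end Pool.Agent.Lib.MP_9ad789_co
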