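import Pool.Agent.Lib.MP_9ad789_co.TurnB

/-!
# MP_9ad789_co, module TURN, first part: the two sides of a cycle
-/

namespace Pool.Agent.Lib.MP_9ad789_co

open Equiv Finset

set_option linter.unusedSectionVars false

variable {D N F : Type} [Fintype D] [Fintype N] [Fintype F]
  [DecidableEq D] [DecidableEq N] [DecidableEq F]

namespace Turn

variable {M : Flat D N F} {m : ℕ} {c : ℕ → D}

theorem rotate (M : Flat D N F) (A : D → Prop) {x y : D} (hxy : x ≠ y)
    (ht : M.tail x = M.tail y)
    (hA : ∀ d, M.tail d = M.tail x → A d → d = x ∨ d = y) (P : F → Prop)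
    (hP : ∀ d, ¬ A d → (P (M.left d) ↔ P (M.right d))) : P (M.left x) ↔ P (M.right y) := by
  classical
  have hex : ∃ t : ℕ, (M.σ ^ t) x = y := (M.tight.tail_same x y ht).exists_nat_pow_eq
  set t := Nat.find hex with htdef
  have ht1 : (M.σ ^ t) x = y := Nat.find_spec hex
  have ht0 : t ≠ 0 := by
    intro h0
    rw [h0] at ht1
    exact hxy ht1
  have htail : ∀ s : ℕ, M.tail ((M.σ ^ s) x) = M.tail x := by
    intro s
    induction s with
    | zero => rfl
    | succ s ih => rw [pow_succ', Equiv.Perm.mul_apply, M.tail_σ, ih]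
  have hright : ∀ s : ℕ, M.right ((M.σ ^ (s + 1)) x) = M.left ((M.σ ^ s) x) := by
    intro s
    rw [pow_succ', Equiv.Perm.mul_apply, M.right_σ]
  have hno : ∀ l, 0 < l → l < t → ¬ A ((M.σ ^ l) x) := by
    intro l hl hlt hAl
    rcases hA _ (htail l) hAl with h | h
    · have h2 : (M.σ ^ (t - l)) x = y := by
        rw [← ht1]
        conv_lhs => rw [← h]
        rw [← Equiv.Perm.mul_apply, ← pow_add]
        congr 2
        omega
      have := Nat.find_min' hex h2
      omega
    · have := Nat.find_min' hex h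
      omega
  have key : ∀ l, l < t → (P (M.left x) ↔ P (M.left ((M.σ ^ l) x))) := by
    intro l
    induction l with
    | zero => intro _; exact Iff.rfl
    | succ l ih =>
      intro hl
      rw [hP _ (hno (l + 1) (by omega) hl), hright]
      exact ih (by omega)
  obtain ⟨t', ht'⟩ := Nat.exists_eq_succ_of_ne_zero ht0
  rw [key t' (by omega), ← hright, ← Nat.succ_eq_add_one, ← ht', ht1]

end Turn

open Turn in
theorem exists_side (M : Flat D N F) (m : ℕ) (hm : 0 < m) (c : ℕ → D)
    (hper : ∀ i, c (i + m) = c i) (hc : ∀ i, M.tail (c (i + 1)) = M.head (c i))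
    (hinj : ∀ i < m, ∀ j < m, M.tail (c i) = M.tail (c j) → i = j)
    (hback : ∀ i, c (i + 1) ≠ M.α (c i)) :
    ∃ U : Finset F, (∀ i, M.left (c i) ∈ U ∧ M.right (c i) ∉ U) ∧
      (∀ d, M.left d ∈ U → M.right d ∉ U → ∃ i < m, d = c i) ∧
      (∀ T ⊆ U, T.Nonempty → (∀ d, M.left d ∈ T → M.right d ∈ U → M.right d ∈ T) → T = U) ∧
      (∀ T ⊆ Uᶜ, T.Nonempty → (∀ d, M.left d ∈ T → M.right d ∈ Uᶜ → M.right d ∈ T) →
        T = Uᶜ) := by
  classical
  have hcinj : ∀ i < m, ∀ j < m, c i = c j → i = j := fun i hi j hj h =>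
    hinj i hi j hj (by rw [h])
  have hmod : ∀ i, ∃ j < m, c i = c j := fun i =>
    ⟨i % m, Nat.mod_lt _ hm, (c_mod hper i).symm⟩
  -- no dart of the cycle is the reverse of another one
  have hcα : ∀ i j, c i ≠ M.α (c j) := by
    intro i j h
    have h1 : M.tail (c i) = M.tail (c (j + 1)) := by
      rw [hc j, h]
      rfl
    rw [c_eq hm hper hinj h1] at h
    exact hback j h
  let B : D → Prop := fun d => ∃ i < m, d = c i
  let A : D → Prop := fun d => B d ∨ B (M.α d)
  let g : D → ℚ := fun d => (if B d then 1 else 0) - if B (M.α d) then 1 else 0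
  have hg : ∀ d, g (M.α d) = - g d := by
    intro d
    simp only [g, M.α_α]
    ring
  have hsumB : ∀ h : D → ℚ, ∑ d : D, (if B d then h d else 0) = ∑ i ∈ range m, h (c i) := by
    intro h
    have h1 : univ.filter (fun d => B d) = (range m).image c := by
      ext d
      simp only [mem_filter, mem_univ, true_and, mem_image, mem_range, B]
      constructor
      · rintro ⟨i, hi, rfl⟩; exact ⟨i, hi, rfl⟩
      · rintro ⟨i, hi, rfl⟩; exact ⟨i, hi, rfl⟩
    rw [← Finset.sum_filter, h1, Finset.sum_image]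
    intro i hi j hj hij
    rw [Finset.mem_coe, mem_range] at hi hj
    exact hcinj i hi j hj hij
  have hn : ∀ n, ∑ d with M.tail d = n, g d = 0 := by
    intro n
    have h1 : ∑ d with M.tail d = n, g d =
        ∑ d : D, (if B d then (if M.tail d = n then (1 : ℚ) else 0) else 0) -
        ∑ d : D, (if B (M.α d) then (if M.tail d = n then (1 : ℚ) else 0) else 0) := by
      rw [Finset.sum_filter, ← Finset.sum_sub_distrib]
      refine Finset.sum_congr rfl fun d _ => ?_
      simp only [g]
      split_ifs <;> simp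
    have h2 : ∑ d : D, (if B (M.α d) then (if M.tail d = n then (1 : ℚ) else 0) else 0) =
        ∑ d : D, (if B d then (if M.head d = n then (1 : ℚ) else 0) else 0) := by
      rw [← Equiv.sum_comp M.α]
      refine Finset.sum_congr rfl fun d _ => ?_
      rw [M.α_α]
      rfl
    rw [h1, h2, hsumB, hsumB]
    have h3 : ∑ i ∈ range m, (if M.head (c i) = n then (1 : ℚ) else 0) =
        ∑ i ∈ range m, (if M.tail (c (i + 1)) = n then (1 : ℚ) else 0) :=
      Finset.sum_congr rfl fun i _ => by rw [hc i]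
    rw [h3]
    have h4 := Finset.sum_range_succ (fun i => if M.tail (c i) = n then (1 : ℚ) else 0) m
    have h5 := Finset.sum_range_succ' (fun i => if M.tail (c i) = n then (1 : ℚ) else 0) m
    have h6 : c m = c 0 := by have := hper 0; rwa [zero_add] at this
    simp only [h6] at h4
    linarith
  obtain ⟨p, hp⟩ := H1 M.toCell (flat_planar M) g hg hn
  have hgc : ∀ i, g (c i) = 1 := by
    intro i
    obtain ⟨j, hj, hij⟩ := hmod i
    have h1 : B (c i) := ⟨j, hj, hij⟩
    have h2 : ¬ B (M.α (c i)) := by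
      rintro ⟨j, -, hj⟩
      exact hcα j i hj.symm
    simp only [g]
    rw [if_pos h1, if_neg h2]
    norm_num
  have hg0 : ∀ d, ¬ A d → p (M.left d) = p (M.right d) := by
    intro d hd
    have h1 : ¬ B d := fun h => hd (Or.inl h)
    have h2 : ¬ B (M.α d) := fun h => hd (Or.inr h)
    have h3 := hp d
    simp only [g] at h3
    rw [if_neg h1, if_neg h2] at h3
    linarith
  have hpc : ∀ i, p (M.left (c i)) - p (M.right (c i)) = 1 := by
    intro i
    rw [← hgc i]
    exact hp (c i)
  -- darts of the cycle at a node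
  have hAn : ∀ i d, M.tail d = M.tail (c (i + 1)) → A d → d = c (i + 1) ∨ d = M.α (c i) := by
    rintro i d hd (⟨j, -, rfl⟩ | ⟨j, -, hj⟩)
    · exact Or.inl (c_eq hm hper hinj hd)
    · right
      have h1 : d = M.α (c j) := by rw [← hj, M.α_α]
      rw [h1] at hd
      have h2 : M.tail (c (j + 1)) = M.tail (c (i + 1)) := by
        rw [hc j, ← hd]
        rfl
      rw [h1, c_pred_eq hm hper hinj h2]
  have hrot1 : ∀ P : F → Prop, (∀ d, ¬ A d → (P (M.left d) ↔ P (M.right d))) →
      ∀ i, P (M.left (c (i + 1))) ↔ P (M.left (c i)) := by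
    intro P hP i
    have h1 := rotate M A (x := c (i + 1)) (y := M.α (c i)) (hback i)
      (by rw [hc i]; rfl) (hAn i) P hP
    rw [M.right_α] at h1
    exact h1
  have hrot2 : ∀ P : F → Prop, (∀ d, ¬ A d → (P (M.left d) ↔ P (M.right d))) →
      ∀ i, P (M.right (c i)) ↔ P (M.right (c (i + 1))) := by
    intro P hP i
    have ht : M.tail (M.α (c i)) = M.tail (c (i + 1)) := by rw [hc i]; rfl
    have h1 := rotate M A (x := M.α (c i)) (y := c (i + 1)) (hback i).symm
      ht (fun d hd hAd => (hAn i d (hd.trans ht) hAd).symm) P hP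
    exact h1
  have hp0 : ∀ i, p (M.left (c i)) = p (M.left (c 0)) := by
    intro i
    induction i with
    | zero => rfl
    | succ i ih =>
      refine (hrot1 (fun f => p f = p (M.left (c 0))) ?_ i).mpr ih
      intro d hd
      show p _ = _ ↔ p _ = _
      rw [hg0 d hd]
  let U : Finset F := univ.filter (fun f => p f = p (M.left (c 0)))
  have hUm : ∀ f, f ∈ U ↔ p f = p (M.left (c 0)) := fun f => by simp [U]
  have hU1 : ∀ i, M.left (c i) ∈ U ∧ M.right (c i) ∉ U := by
    intro i
    rw [hUm, hUm]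
    refine ⟨hp0 i, fun h => ?_⟩
    have := hpc i
    rw [h, hp0 i] at this
    linarith
  have hU2 : ∀ d, M.left d ∈ U → M.right d ∉ U → ∃ i < m, d = c i := by
    intro d h1 h2
    by_contra h3
    have h4 : B (M.α d) := by
      by_contra h4
      apply h2
      rw [hUm] at h1 ⊢
      rw [← h1, hg0 d (by rintro (h | h); exacts [h3 h, h4 h])]
    obtain ⟨j, -, hj⟩ := h4
    have h5 : M.left d = M.right (c j) := by
      rw [← hj]
      exact (M.right_α d).symm
    rw [h5] at h1
    exact (hU1 j).2 h1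
  have hUiff : ∀ d, ¬ A d → (M.left d ∈ U ↔ M.right d ∈ U) := by
    intro d hd
    rw [hUm, hUm, hg0 d hd]
  -- both sides are connected
  have hall : ∀ P : F → Prop, (∀ i, P (M.left (c (i + 1))) ↔ P (M.left (c i))) →
      ∀ i, (P (M.left (c i)) ↔ P (M.left (c 0))) := by
    intro P hP i
    induction i with
    | zero => exact Iff.rfl
    | succ i ih => rw [hP i, ih]
  have hall2 : ∀ P : F → Prop, (∀ i, P (M.right (c i)) ↔ P (M.right (c (i + 1)))) →
      ∀ i, (P (M.right (c i)) ↔ P (M.right (c 0))) := by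
    intro P hP i
    induction i with
    | zero => exact Iff.rfl
    | succ i ih => rw [← hP i, ih]
  -- crossing an edge which is not on the cycle, for closed `T`
  have hTiff : ∀ (W T : Finset F), (∀ d, ¬ A d → (M.left d ∈ W ↔ M.right d ∈ W)) → T ⊆ W →
      (∀ d, M.left d ∈ T → M.right d ∈ W → M.right d ∈ T) →
      ∀ d, ¬ A d → (M.left d ∈ T ↔ M.right d ∈ T) := by
    intro W T hW hTW hT d hd
    constructor
    · intro h1
      exact hT d h1 ((hW d hd).mp (hTW h1))
    · intro h1
      have h2 : M.left (M.α d) ∈ T := h1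
      have h3 : M.right (M.α d) ∈ W := by
        rw [M.right_α]
        exact (hW d hd).mpr (hTW h1)
      have h4 := hT (M.α d) h2 h3
      rwa [M.right_α] at h4
  -- a nonempty proper set of faces has an edge on its boundary
  have hbd : ∀ T : Finset F, T.Nonempty → T ≠ univ → ∃ d, M.left d ∈ T ∧ M.right d ∉ T := by
    intro T hT hTu
    by_contra hne
    push Not at hne
    apply hTu
    obtain ⟨f, hf⟩ := hT
    obtain ⟨d0, hd0⟩ := M.left_surj f
    have h1 := M.conn {d | M.left d ∈ T} ⟨d0, by show M.left d0 ∈ T; rw [hd0]; exact hf⟩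
      (fun d hd => hne d hd) (fun d hd => by
        show M.left (M.φ d) ∈ T
        rw [M.left_φ]
        exact hd)
    ext f'
    obtain ⟨d', hd'⟩ := M.left_surj f'
    have h2 : d' ∈ {d | M.left d ∈ T} := by rw [h1]; trivial
    have h3 : M.left d' ∈ T := h2
    rw [hd'] at h3
    simp [h3]
  have hcompl : ∀ (W T : Finset F),
      (∀ d, M.left d ∈ T → M.right d ∈ W → M.right d ∈ T) →
      ∀ d, M.left d ∈ W \ T → M.right d ∈ W → M.right d ∈ W \ T := by
    intro W T hT d h1 h2
    rw [mem_sdiff] at h1 ⊢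
    refine ⟨h2, fun h3 => h1.2 ?_⟩
    have h4 := hT (M.α d) h3 (by rw [M.right_α]; exact h1.1)
    rwa [M.right_α] at h4
  refine ⟨U, hU1, hU2, ?_, ?_⟩
  · have key : ∀ T ⊆ U, T.Nonempty →
        (∀ d, M.left d ∈ T → M.right d ∈ U → M.right d ∈ T) → M.left (c 0) ∈ T := by
      intro T hTU hTn hT
      obtain ⟨d, hd1, hd2⟩ := hbd T hTn (by
        rintro rfl
        exact (hU1 0).2 (hTU (mem_univ _)))
      obtain ⟨i, -, rfl⟩ := hU2 d (hTU hd1) (fun h => hd2 (hT d hd1 h))
      exact (hall (fun f => f ∈ T) (hrot1 _ (hTiff U T hUiff hTU hT)) i).mp hd1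
    intro T hTU hTn hT
    by_contra hne
    have h1 : (U \ T).Nonempty := by
      rw [Finset.sdiff_nonempty]
      intro h
      exact hne (Finset.Subset.antisymm hTU h)
    have h2 := key (U \ T) Finset.sdiff_subset h1 (hcompl U T hT)
    rw [mem_sdiff] at h2
    exact h2.2 (key T hTU hTn hT)
  · have hUiff' : ∀ d, ¬ A d → (M.left d ∈ Uᶜ ↔ M.right d ∈ Uᶜ) := by
      intro d hd
      rw [mem_compl, mem_compl, hUiff d hd]
    have key : ∀ T ⊆ Uᶜ, T.Nonempty →
        (∀ d, M.left d ∈ T → M.right d ∈ Uᶜ → M.right d ∈ T) → M.right (c 0) ∈ T := by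
      intro T hTU hTn hT
      obtain ⟨d, hd1, hd2⟩ := hbd T hTn (by
        rintro rfl
        have := hTU (mem_univ (M.left (c 0)))
        rw [mem_compl] at this
        exact this (hU1 0).1)
      have h3 : M.right d ∈ U := by
        by_contra h3
        exact hd2 (hT d hd1 (by rw [mem_compl]; exact h3))
      have h4 := hTU hd1
      rw [mem_compl] at h4
      obtain ⟨i, -, hi⟩ := hU2 (M.α d) h3 (by rw [M.right_α]; exact h4)
      have h5 : M.left d = M.right (c i) := by
        rw [← hi]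
        exact (M.right_α d).symm
      rw [h5] at hd1
      exact (hall2 (fun f => f ∈ T) (hrot2 _ (hTiff Uᶜ T hUiff' hTU hT)) i).mp hd1
    intro T hTU hTn hT
    by_contra hne
    have h1 : (Uᶜ \ T).Nonempty := by
      rw [Finset.sdiff_nonempty]
      intro h
      exact hne (Finset.Subset.antisymm hTU h)
    have h2 := key (Uᶜ \ T) Finset.sdiff_subset h1 (hcompl Uᶜ T hT)
    rw [mem_sdiff] at h2
    exact h2.2 (key T hTU hTn hT)

theorem turning (M : Flat D N F) (m : ℕ) (hm : 0 < m) (c : ℕ → D) (hper : ∀ i, c (i + m) = c i)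
    (hc : ∀ i, M.tail (c (i + 1)) = M.head (c i))
    (hinj : ∀ i < m, ∀ j < m, M.tail (c i) = M.tail (c j) → i = j)
    (hback : ∀ i, c (i + 1) ≠ M.α (c i)) (a : ℕ → ℤ)
    (ha : ∀ i, ∃ j, 0 < j ∧ (M.σ^[j]) (c (i + 1)) = M.α (c i) ∧
      (∀ l, 0 < l → l < j → (M.σ^[l]) (c (i + 1)) ≠ M.α (c i)) ∧
      a i = ∑ l ∈ range j, M.ang ((M.σ^[l]) (c (i + 1)))) :
    ∑ i ∈ range m, (2 - a i) = 4 ∨ ∑ i ∈ range m, (2 - a i) = -4 := by
  obtain ⟨U, hU, hU2, hU3, hU4⟩ := exists_side M m hm c hper hc hinj hback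
  exact Turn.turning_of_side M m hm c hper hc hinj U hU hU2 hU3 hU4 a ha

end Pool.Agent.Lib.MP_9ad789_co
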