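import Pool.Agent.Lib.MP_9ad789_co.Chi
import Pool.Agent.Lib.MP_9ad789_co.Dir

/-!
# MP_9ad789_co, module TURN, second part: the total turning of a cycle from its two sides
-/

namespace Pool.Agent.Lib.MP_9ad789_co

open Equiv Finset

set_option linter.unusedSectionVars false

variable {D N F : Type} [Fintype D] [Fintype N] [Fintype F]
  [DecidableEq D] [DecidableEq N] [DecidableEq F]

namespace Turn

variable {M : Flat D N F} {m : ℕ} {c : ℕ → D}

theorem c_mod (hper : ∀ i, c (i + m) = c i) (i : ℕ) : c (i % m) = c i := by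
  have key : ∀ k r, c (r + m * k) = c r := by
    intro k
    induction k with
    | zero => intro r; simp
    | succ k ih =>
      intro r
      rw [Nat.mul_succ, ← Nat.add_assoc, hper, ih]
  conv_rhs => rw [← Nat.mod_add_div i m]
  exact (key (i / m) (i % m)).symm

theorem mod_eq (hm : 0 < m) (hper : ∀ i, c (i + m) = c i)
    (hinj : ∀ i < m, ∀ j < m, M.tail (c i) = M.tail (c j) → i = j) {i j : ℕ}
    (h : M.tail (c i) = M.tail (c j)) : i % m = j % m := by
  refine hinj _ (Nat.mod_lt _ hm) _ (Nat.mod_lt _ hm) ?_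
  rw [c_mod hper, c_mod hper, h]

theorem c_eq (hm : 0 < m) (hper : ∀ i, c (i + m) = c i)
    (hinj : ∀ i < m, ∀ j < m, M.tail (c i) = M.tail (c j) → i = j) {i j : ℕ}
    (h : M.tail (c i) = M.tail (c j)) : c i = c j := by
  rw [← c_mod hper i, ← c_mod hper j, mod_eq hm hper hinj h]

theorem c_pred_eq (hm : 0 < m) (hper : ∀ i, c (i + m) = c i)
    (hinj : ∀ i < m, ∀ j < m, M.tail (c i) = M.tail (c j) → i = j) {i j : ℕ}
    (h : M.tail (c (i + 1)) = M.tail (c (j + 1))) : c i = c j := by
  have h1 := mod_eq hm hper hinj h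
  have h2 : i % m = j % m := Nat.ModEq.add_right_cancel' 1 h1
  rw [← c_mod hper i, ← c_mod hper j, h2]

/-- The corners at `tail (c (i+1))` in `U` are the first `j` ones. -/
theorem corners (hm : 0 < m) (hper : ∀ i, c (i + m) = c i)
    (hc : ∀ i, M.tail (c (i + 1)) = M.head (c i))
    (hinj : ∀ i < m, ∀ j < m, M.tail (c i) = M.tail (c j) → i = j)
    {U : Finset F} (hU : ∀ i, M.left (c i) ∈ U ∧ M.right (c i) ∉ U)
    (hU2 : ∀ d, M.left d ∈ U → M.right d ∉ U → ∃ i < m, d = c i)
    (i j : ℕ) (hj : 0 < j) (h1 : (M.σ^[j]) (c (i + 1)) = M.α (c i))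
    (h2 : ∀ l, 0 < l → l < j → (M.σ^[l]) (c (i + 1)) ≠ M.α (c i)) (g : D → ℤ) :
    ∑ d with M.tail d = M.tail (c (i + 1)) ∧ M.left d ∈ U, g d =
      ∑ l ∈ range j, g ((M.σ^[l]) (c (i + 1))) := by
  have htail : ∀ l, M.tail ((M.σ^[l]) (c (i + 1))) = M.tail (c (i + 1)) := by
    intro l
    induction l with
    | zero => rfl
    | succ l ih => rw [Function.iterate_succ_apply', M.tail_σ, ih]
  have hright : ∀ l, M.right ((M.σ^[l + 1]) (c (i + 1))) = M.left ((M.σ^[l]) (c (i + 1))) := by
    intro l
    rw [Function.iterate_succ_apply', M.right_σ]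
  -- the first `j` corners are in `U`
  have hin : ∀ l, l < j → M.left ((M.σ^[l]) (c (i + 1))) ∈ U := by
    intro l
    induction l with
    | zero => intro _; exact (hU (i + 1)).1
    | succ l ih =>
      intro hl
      by_contra hne
      obtain ⟨i', -, hi'⟩ := hU2 (M.α ((M.σ^[l + 1]) (c (i + 1))))
        (by have := hright l; unfold Cell.right at this; rw [this]; exact ih (by omega))
        (by rw [M.right_α]; exact hne)
      have h3 : (M.σ^[l + 1]) (c (i + 1)) = M.α (c i') := by rw [← hi', M.α_α]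
      have h4 : M.tail (c (i' + 1)) = M.tail (c (i + 1)) := by
        rw [hc i', ← htail (l + 1), h3]
        rfl
      have h5 := c_pred_eq hm hper hinj h4
      exact h2 (l + 1) (by omega) hl (by rw [h3, h5])
  have hout : M.left ((M.σ^[j]) (c (i + 1))) ∉ U := by
    rw [h1]
    exact (hU i).2
  have hinjj : ∀ a, a < j → ∀ b, b < j → a < b →
      (M.σ^[a]) (c (i + 1)) ≠ (M.σ^[b]) (c (i + 1)) := by
    intro a ha b hb hab heq
    have h3 : (M.σ^[b - a]) (c (i + 1)) = c (i + 1) := by
      have : (M.σ^[a]) ((M.σ^[b - a]) (c (i + 1))) = (M.σ^[a]) (c (i + 1)) := by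
        rw [← Function.iterate_add_apply, heq]
        congr 1
        omega
      exact (M.σ.injective.iterate a) this
    apply h2 (j - (b - a)) (by omega) (by omega)
    rw [← h1]
    conv_lhs => rw [← h3]
    rw [← Function.iterate_add_apply]
    congr 1
    omega
  have hset : univ.filter (fun d => M.tail d = M.tail (c (i + 1)) ∧ M.left d ∈ U) =
      (range j).image (fun l => (M.σ^[l]) (c (i + 1))) := by
    ext d
    simp only [mem_filter, mem_univ, true_and, mem_image, mem_range]
    constructor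
    · rintro ⟨hd1, hd2⟩
      have hex : ∃ t : ℕ, (M.σ^[t]) (c (i + 1)) = d := by
        obtain ⟨t, ht⟩ := (M.tight.tail_same (c (i + 1)) d hd1.symm).exists_nat_pow_eq
        exact ⟨t, by rw [← ht, Equiv.Perm.iterate_eq_pow]⟩
      classical
      set t := Nat.find hex with ht
      have ht1 : (M.σ^[t]) (c (i + 1)) = d := Nat.find_spec hex
      refine ⟨t, ?_, ht1⟩
      by_contra hlt
      have hlt' : j ≤ t := not_lt.mp hlt
      have hno : ∀ s, j ≤ s → s ≤ t → M.left ((M.σ^[s]) (c (i + 1))) ∉ U := by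
        intro s hs
        induction s, hs using Nat.le_induction with
        | base => intro _; exact hout
        | succ s hs ih =>
          intro hst hmem
          obtain ⟨i', -, hi'⟩ := hU2 _ hmem (by rw [hright]; exact ih (by omega))
          have h3 : M.tail (c i') = M.tail (c (i + 1)) := by rw [← hi', htail]
          have h4 := c_eq hm hper hinj h3
          rw [h4] at hi'
          have h5 : (M.σ^[t - (s + 1)]) (c (i + 1)) = d := by
            rw [← ht1]
            conv_lhs => rw [← hi']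
            rw [← Function.iterate_add_apply]
            congr 1
            omega
          have h6 : t ≤ t - (s + 1) := Nat.find_min' hex h5
          omega
      apply hno t hlt' le_rfl
      rw [ht1]
      exact hd2
    · rintro ⟨l, hl, rfl⟩
      exact ⟨htail l, hin l hl⟩
  rw [hset, Finset.sum_image]
  intro a ha b hb hab
  rw [Finset.mem_coe, mem_range] at ha hb
  rcases lt_trichotomy a b with h | h | h
  · exact absurd hab (hinjj a ha b hb h)
  · exact h
  · exact absurd hab.symm (hinjj b hb a ha h)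

theorem turning_of_side (M : Flat D N F) (m : ℕ) (hm : 0 < m) (c : ℕ → D)
    (hper : ∀ i, c (i + m) = c i) (hc : ∀ i, M.tail (c (i + 1)) = M.head (c i))
    (hinj : ∀ i < m, ∀ j < m, M.tail (c i) = M.tail (c j) → i = j)
    (U : Finset F) (hU : ∀ i, M.left (c i) ∈ U ∧ M.right (c i) ∉ U)
    (hU2 : ∀ d, M.left d ∈ U → M.right d ∉ U → ∃ i < m, d = c i)
    (hU3 : ∀ T ⊆ U, T.Nonempty → (∀ d, M.left d ∈ T → M.right d ∈ U → M.right d ∈ T) → T = U)
    (hU4 : ∀ T ⊆ Uᶜ, T.Nonempty → (∀ d, M.left d ∈ T → M.right d ∈ Uᶜ → M.right d ∈ T) →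
      T = Uᶜ) (a : ℕ → ℤ)
    (ha : ∀ i, ∃ j, 0 < j ∧ (M.σ^[j]) (c (i + 1)) = M.α (c i) ∧
      (∀ l, 0 < l → l < j → (M.σ^[l]) (c (i + 1)) ≠ M.α (c i)) ∧
      a i = ∑ l ∈ range j, M.ang ((M.σ^[l]) (c (i + 1)))) :
    ∑ i ∈ range m, (2 - a i) = 4 ∨ ∑ i ∈ range m, (2 - a i) = -4 := by
  classical
  have hplanar := flat_planar M
  unfold Cell.Planar at hplanar
  have hcinj : ∀ i < m, ∀ j < m, c i = c j → i = j := fun i hi j hj h =>
    hinj i hi j hj (by rw [h])
  -- darts
  have e1 : (univ.filter (fun d => M.left d ∈ U ∧ M.right d ∉ U)).card = m := by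
    have : univ.filter (fun d => M.left d ∈ U ∧ M.right d ∉ U) = (range m).image c := by
      ext d
      simp only [mem_filter, mem_univ, true_and, mem_image, mem_range]
      constructor
      · rintro ⟨h1, h2⟩
        obtain ⟨i, hi, rfl⟩ := hU2 d h1 h2
        exact ⟨i, hi, rfl⟩
      · rintro ⟨i, -, rfl⟩
        exact hU i
    rw [this, card_image_of_injOn, card_range]
    intro i hi j hj hij
    rw [Finset.mem_coe, mem_range] at hi hj
    exact hcinj i hi j hj hij
  have e2 : (univ.filter (fun d => M.left d ∉ U ∧ M.right d ∈ U)).card = m := by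
    rw [← e1]
    refine Finset.card_equiv M.α ?_
    intro d
    simp only [mem_filter, mem_univ, true_and]
    rw [M.right_α]
    exact and_comm
  have e3 : Fintype.card D = (univ.filter (fun d => M.left d ∈ U ∧ M.right d ∈ U)).card +
      (univ.filter (fun d => M.left d ∈ Uᶜ ∧ M.right d ∈ Uᶜ)).card + 2 * m := by
    have h1 : Fintype.card D = ∑ d : D, 1 := by simp
    rw [two_mul]
    nth_rw 1 [← e1]
    rw [← e2, h1, card_filter, card_filter, card_filter, card_filter, ← Finset.sum_add_distrib,
      ← Finset.sum_add_distrib, ← Finset.sum_add_distrib]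
    refine Finset.sum_congr rfl fun d _ => ?_
    simp only [mem_compl]
    by_cases h2 : M.left d ∈ U <;> by_cases h3 : M.right d ∈ U <;> simp [h2, h3]
  have e4 : (univ.filter (fun d => M.left d ∈ U)).card =
      (univ.filter (fun d => M.left d ∈ U ∧ M.right d ∈ U)).card + m := by
    rw [← e1, card_filter, card_filter, card_filter, ← Finset.sum_add_distrib]
    refine Finset.sum_congr rfl fun d _ => ?_
    by_cases h2 : M.left d ∈ U <;> by_cases h3 : M.right d ∈ U <;> simp [h2, h3]
  -- nodes
  set VU : Finset N := univ.filter (fun n => ∀ d, M.tail d = n → M.left d ∈ U) with hVU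
  set VU' : Finset N := univ.filter (fun n => ∀ d, M.tail d = n → M.left d ∈ Uᶜ) with hVU'
  set T : Finset N := (range m).image (fun i => M.tail (c (i + 1))) with hT
  have hTinj : Set.InjOn (fun i => M.tail (c (i + 1))) (range m : Finset ℕ) := by
    intro i hi j hj hij
    rw [Finset.mem_coe, mem_range] at hi hj
    exact hcinj i hi j hj (c_pred_eq hm hper hinj hij)
  have hTcard : T.card = m := by rw [hT, card_image_of_injOn hTinj, card_range]
  have hTmem : ∀ i, M.tail (c i) ∈ T := by
    intro i
    rw [hT, mem_image]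
    refine ⟨(i + m - 1) % m, mem_range.mpr (Nat.mod_lt _ hm), ?_⟩
    have h1 : c ((i + m - 1) % m + 1) = c i := by
      rw [← c_mod hper ((i + m - 1) % m + 1), Nat.mod_add_mod, show i + m - 1 + 1 = i + m by omega,
        c_mod hper, hper]
    rw [h1]
  have hTVU : ∀ n ∈ T, n ∉ VU ∧ n ∉ VU' := by
    intro n hn
    rw [hT, mem_image] at hn
    obtain ⟨i, -, rfl⟩ := hn
    constructor
    · intro h1
      rw [hVU, mem_filter] at h1
      have h2 := h1.2 (M.σ.symm (c (i + 1))) (by
        rw [← M.tail_σ (M.σ.symm (c (i + 1))), Equiv.apply_symm_apply])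
      apply (hU (i + 1)).2
      have h3 := M.right_σ (M.σ.symm (c (i + 1)))
      rw [Equiv.apply_symm_apply] at h3
      rw [h3]
      exact h2
    · intro h1
      rw [hVU', mem_filter] at h1
      have h2 := h1.2 (c (i + 1)) rfl
      rw [mem_compl] at h2
      exact h2 (hU (i + 1)).1
  have hdisj : ∀ n, n ∈ VU → n ∉ VU' := by
    intro n h1 h2
    obtain ⟨d, hd⟩ := M.tail_surj n
    rw [hVU, mem_filter] at h1
    rw [hVU', mem_filter] at h2
    have h3 := h2.2 d hd
    rw [mem_compl] at h3
    exact h3 (h1.2 d hd)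
  have hall : ∀ n, n ∉ T → n ∈ VU ∨ n ∈ VU' := by
    intro n hn
    by_contra hne
    push Not at hne
    obtain ⟨h1, h2⟩ := hne
    rw [hVU, mem_filter] at h1
    rw [hVU', mem_filter] at h2
    push Not at h1 h2
    obtain ⟨d, hd, hd'⟩ := h1 (mem_univ _)
    obtain ⟨e, he, he'⟩ := h2 (mem_univ _)
    rw [mem_compl, not_not] at he'
    -- walk from `d` to `e` around `n`
    obtain ⟨t, ht⟩ := (M.tight.tail_same d e (by rw [hd, he])).exists_nat_pow_eq
    have key : ∀ s : ℕ, M.left ((M.σ ^ s) d) ∉ U := by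
      intro s
      induction s with
      | zero => exact hd'
      | succ s ih =>
        intro h3
        have h4 : M.right ((M.σ ^ (s + 1)) d) = M.left ((M.σ ^ s) d) := by
          rw [pow_succ', Equiv.Perm.mul_apply, M.right_σ]
        obtain ⟨i, -, hi⟩ := hU2 _ h3 (by rw [h4]; exact ih)
        apply hn
        have h5 : M.tail ((M.σ ^ (s + 1)) d) = n := by
          have : ∀ s : ℕ, M.tail ((M.σ ^ s) d) = n := by
            intro s
            induction s with
            | zero => exact hd
            | succ s ih => rw [pow_succ', Equiv.Perm.mul_apply, M.tail_σ, ih]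
          exact this _
        rw [← h5, hi]
        exact hTmem i
    exact key t (by rw [ht]; exact he')
  have hN : Fintype.card N = VU.card + VU'.card + m := by
    have h1 : Fintype.card N = ∑ n : N, 1 := by simp
    have h2 : ∀ S : Finset N, S.card = ∑ n : N, if n ∈ S then 1 else 0 := by
      intro S
      simp
    rw [h1, ← hTcard, h2 VU, h2 VU', h2 T, ← Finset.sum_add_distrib, ← Finset.sum_add_distrib]
    refine Finset.sum_congr rfl fun n _ => ?_
    by_cases h3 : n ∈ T
    · obtain ⟨h4, h5⟩ := hTVU n h3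
      simp [h3, h4, h5]
    · rcases hall n h3 with h4 | h4
      · simp [h3, h4, hdisj n h4]
      · have h5 : n ∉ VU := fun h5 => hdisj n h5 h4
        simp [h3, h4, h5]
  have c1 := chi_le M.toCell U ⟨_, (hU 0).1⟩ hU3 ⟨_, (hU 0).2⟩
  have c2 := chi_le M.toCell Uᶜ ⟨M.right (c 0), by rw [mem_compl]; exact (hU 0).2⟩ hU4
    ⟨M.left (c 0), by rw [mem_compl, not_not]; exact (hU 0).1⟩
  have hF : U.card + Uᶜ.card = Fintype.card F := Finset.card_add_card_compl U
  have hchi : 2 * U.card + 2 * VU.card =
      (univ.filter (fun d => M.left d ∈ U ∧ M.right d ∈ U)).card + 2 := by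
    have c1' : 2 * U.card + 2 * VU.card ≤
      (univ.filter (fun d => M.left d ∈ U ∧ M.right d ∈ U)).card + 2 := c1
    have c2' : 2 * Uᶜ.card + 2 * VU'.card ≤
      (univ.filter (fun d => M.left d ∈ Uᶜ ∧ M.right d ∈ Uᶜ)).card + 2 := c2
    omega
  -- Gauss-Bonnet
  have g1 : ∑ d : D, (if M.left d ∈ U then M.turn d else 0) =
      4 * (U.card : ℤ) - if M.outer ∈ U then 8 else 0 := by
    have h1 : ∑ f ∈ U, ∑ d with M.left d = f, M.turn d =
        ∑ f ∈ U, (4 - if f = M.outer then (8 : ℤ) else 0) := by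
      refine Finset.sum_congr rfl fun f _ => ?_
      rw [M.face_sum]
      split_ifs <;> norm_num
    rw [Finset.sum_sub_distrib, Finset.sum_const, Finset.sum_ite_eq', nsmul_eq_mul] at h1
    have h2 : ∑ f ∈ U, ∑ d with M.left d = f, M.turn d =
        ∑ d : D, (if M.left d ∈ U then M.turn d else 0) := by
      simp_rw [Finset.sum_filter]
      rw [Finset.sum_comm]
      refine Finset.sum_congr rfl fun d _ => ?_
      rw [Finset.sum_ite_eq]
    rw [← h2, h1]
    ring
  have g2 : ∑ d : D, (if M.left d ∈ U then M.turn (M.φ.symm d) else 0) =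
      ∑ d : D, (if M.left d ∈ U then M.turn d else 0) := by
    rw [← Equiv.sum_comp M.φ]
    refine Finset.sum_congr rfl fun d _ => ?_
    rw [M.left_φ, Equiv.symm_apply_apply]
  have g3 : ∑ d : D, (if M.left d ∈ U then M.ang d else 0) =
      2 * ((univ.filter (fun d => M.left d ∈ U)).card : ℤ) -
        ∑ d : D, (if M.left d ∈ U then M.turn (M.φ.symm d) else 0) := by
    rw [card_filter]
    push_cast
    rw [Finset.mul_sum, ← Finset.sum_sub_distrib]
    refine Finset.sum_congr rfl fun d _ => ?_
    unfold Flat.ang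
    split_ifs <;> ring
  have g4 : ∑ d : D, (if M.left d ∈ U then M.ang d else 0) =
      ∑ n : N, ∑ d with M.tail d = n ∧ M.left d ∈ U, M.ang d := by
    simp_rw [Finset.sum_filter]
    rw [Finset.sum_comm]
    refine Finset.sum_congr rfl fun d _ => ?_
    by_cases h1 : M.left d ∈ U
    · simp [h1]
    · simp [h1]
  have g5 : ∀ n : N, ∑ d with M.tail d = n ∧ M.left d ∈ U, M.ang d =
      (if n ∈ VU then 4 else 0) +
        if n ∈ T then ∑ d with M.tail d = n ∧ M.left d ∈ U, M.ang d else 0 := by
    intro n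
    by_cases h3 : n ∈ T
    · rw [if_neg (hTVU n h3).1, if_pos h3, zero_add]
    · rw [if_neg h3, add_zero]
      rcases hall n h3 with h4 | h4
      · rw [if_pos h4, ← M.node_sum n]
        rw [hVU, mem_filter] at h4
        refine Finset.sum_congr ?_ fun _ _ => rfl
        ext d
        simp only [mem_filter, mem_univ, true_and]
        exact ⟨fun h => h.1, fun h => ⟨h, h4.2 d h⟩⟩
      · rw [if_neg (fun h => hdisj n h h4)]
        rw [hVU', mem_filter] at h4
        refine Finset.sum_eq_zero fun d hd => ?_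
        rw [mem_filter] at hd
        have h5 := h4.2 d hd.2.1
        rw [mem_compl] at h5
        exact absurd hd.2.2 h5
  have g6 : ∑ n : N, ∑ d with M.tail d = n ∧ M.left d ∈ U, M.ang d =
      4 * (VU.card : ℤ) + ∑ i ∈ range m, a i := by
    rw [Finset.sum_congr rfl (fun n _ => g5 n), Finset.sum_add_distrib]
    congr 1
    · rw [Finset.sum_ite_mem, univ_inter, Finset.sum_const, nsmul_eq_mul]
      ring
    · rw [Finset.sum_ite_mem, univ_inter, hT, Finset.sum_image hTinj]
      refine Finset.sum_congr rfl fun i _ => ?_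
      obtain ⟨j, hj, h1, h2, h3⟩ := ha i
      rw [h3]
      exact corners hm hper hc hinj hU hU2 i j hj h1 h2 M.ang
  have hfin : ∑ i ∈ range m, (2 - a i) = 2 * (m : ℤ) - ∑ i ∈ range m, a i := by
    rw [Finset.sum_sub_distrib, Finset.sum_const, card_range, nsmul_eq_mul]
    ring
  have hchi' : 2 * (U.card : ℤ) + 2 * (VU.card : ℤ) =
      ((univ.filter (fun d => M.left d ∈ U ∧ M.right d ∈ U)).card : ℤ) + 2 := by
    exact_mod_cast hchi
  rw [hfin]
  rw [g4, g6, g2, g1, e4] at g3
  push_cast at g3
  by_cases ho : M.outer ∈ U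
  · right
    rw [if_pos ho] at g3
    linarith
  · left
    rw [if_neg ho] at g3
    linarith

end Turn

end Pool.Agent.Lib.MP_9ad789_co
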