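import Pool.Agent.Lib.MP_9ad789_co.Conn
import Pool.Agent.Lib.MP_9ad789_co.OneP
import Pool.Agent.Lib.MP_9ad789_co.Hall
import Pool.Agent.Lib.MP_9ad789_co.Dem
import Pool.Agent.Lib.MP_9ad789_co.HallIneq

/-!
# MP_9ad789_co, module UPC: the angle assignment with at most 4 reflex corners at every vertex
-/

namespace Pool.Agent.Lib.MP_9ad789_co

open Equiv Finset

theorem exists_s {V : Type} [Fintype V] [DecidableEq V] {G : SimpleGraph V}
    [DecidableRel G.Adj] (E : OnePlane G) (h3 : ThreeConnected G) :
    ∃ s : G.Dart → ℤ, (∀ v, ∑ d : G.Dart with d.fst = v, s d = 4) ∧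
      (∀ x : E.PD, (E.SameFace (.inl E.outer) x → E.faceSum (E.wt s) x = -4) ∧
        (¬ E.SameFace (.inl E.outer) x → E.faceSum (E.wt s) x = 4)) ∧
      (∀ v, ∑ d : G.Dart with d.fst = v, max 0 (- s d) ≤ 4) := by
  classical
  have hX := conn_of_threeConnected E h3
  obtain ⟨C, hα, hφ, ht, hl, hT, -, -⟩ := exists_cell E.toXMap hX
  have : Finite E.XN := by unfold XMap.XN; infer_instance
  have : Finite E.Face := by unfold XMap.Face; infer_instance
  let : Fintype E.XN := Fintype.ofFinite _
  let : Fintype E.Face := Fintype.ofFinite _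
  have h := oneP E h3 C hα hφ ht hl hT
  obtain ⟨s, hs0, hs1, hs2, hs3⟩ := exists_turns C (fun n => n.isRight = true)
    (E.face (.inl E.outer)) 4 (demand_nonneg h _) (sum_demand h _)
    (fun A hA => by simpa using hall_ineq h (E.face (.inl E.outer)) A hA)
  -- sums over the darts at a real vertex
  have key : ∀ (f : ℤ → ℤ) (v : V), ∑ x : E.PD with C.tail x = .inl v, f (s x) =
      ∑ d : G.Dart with d.fst = v, f (s (.inl d)) := by
    intro f v
    rw [Finset.sum_filter, Fintype.sum_sum_type, Finset.sum_filter]
    have h1 : ∀ x : {d : G.Dart // E.Crossed d},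
        (if C.tail (.inr x) = .inl v then f (s (.inr x)) else 0) = 0 := by
      intro x
      rw [ht, if_neg (by simp [XMap.ptail])]
    rw [Finset.sum_eq_zero (fun x _ => h1 x), add_zero]
    refine Finset.sum_congr rfl fun d _ => ?_
    rw [ht]
    refine if_congr ?_ rfl rfl
    simp [XMap.ptail, E.vert_eq]
  refine ⟨fun d => s (.inl d), fun v => ?_, fun x => ?_, fun v => ?_⟩
  · have h1 := hs1 (.inl v) (by simp)
    rw [key (fun z => z) v] at h1
    exact h1
  · have hw : ∀ y : E.PD, E.wt (fun d => s (.inl d)) y =
        (if (C.tail y).isRight = true then (1 : ℤ) else 2) - s y := by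
      rintro (d | d)
      · rw [ht]
        simp [XMap.wt, XMap.ptail]
      · rw [hs0 (.inr d) (by rw [ht]; simp [XMap.ptail]), ht]
        simp [XMap.wt, XMap.ptail]
    have hsf : ∀ y : E.PD, E.SameFace x y ↔ C.left y = E.face x := by
      intro y
      rw [hl]
      constructor
      · intro hxy
        exact (Quotient.sound (s := E.faceSetoid) hxy).symm
      · intro hxy
        exact Quotient.exact (s := E.faceSetoid) hxy.symm
    have hsum : E.faceSum (E.wt (fun d => s (.inl d))) x =
        4 - if E.face x = E.face (.inl E.outer) then 8 else 0 := by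
      unfold XMap.faceSum
      have h1 : ∑ y with E.SameFace x y, E.wt (fun d => s (.inl d)) y =
          ∑ y with C.left y = E.face x, ((if (C.tail y).isRight = true then (1 : ℤ) else 2) -
            s y) := by
        refine Finset.sum_congr ?_ fun y _ => hw y
        ext y
        simp [hsf]
      have h2 := hs2 (E.face x)
      unfold Cell.demand at h2
      rw [Finset.sum_sub_distrib, h2] at h1
      refine Eq.trans ?_ (h1.trans (by ring))
      refine Finset.sum_congr ?_ fun y _ => rfl
      ext y
      simp
    rw [hsum]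
    constructor
    · intro hx
      have hx' : E.face x = E.face (.inl E.outer) :=
        (Quotient.sound (s := E.faceSetoid) hx).symm
      rw [if_pos hx']
      norm_num
    · intro hx
      rw [if_neg]
      · norm_num
      · intro hx'
        exact hx (Quotient.exact (s := E.faceSetoid) hx'.symm)
  · have h1 := hs3 (.inl v) (by simp)
    rw [key (fun z => max 0 (- z)) v] at h1
    exact_mod_cast h1

end Pool.Agent.Lib.MP_9ad789_co
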