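import Pool.Agent.Lib.MP_9ad789_co.Cell

/-!
# MP_9ad789_co : the planarisation as a cell decomposition (helper24)
-/

namespace Pool.Agent.Lib.MP_9ad789_co

open Equiv Finset

set_option linter.unusedSectionVars false

namespace XCell

variable {V R : Type} (X : XMap V R)

theorem crossed_of_crs {d e : R} (h : X.crs d = some e) : X.Crossed d :=
  Option.isSome_iff_exists.mpr ⟨e, h⟩

theorem crossed_crsGet (d : {d : R // X.Crossed d}) : X.Crossed (X.crsGet d) :=
  crossed_of_crs X (X.crs_crs _ _ (X.crs_crsGet d))

theorem crossed_opp_crsGet (d : {d : R // X.Crossed d}) : X.Crossed (X.opp (X.crsGet d)) :=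
  X.crossed_opp (crossed_crsGet X d)

theorem crsGet_of_crs {d e : R} (h : X.crs d = some e) (hd : X.Crossed d) :
    X.crsGet ⟨d, hd⟩ = e := by
  have h1 := X.crs_crsGet ⟨d, hd⟩
  rw [h] at h1
  exact (Option.some.inj h1).symm

theorem crs_crsGet' (d : {d : R // X.Crossed d}) : X.crs (X.crsGet d) = some (X.opp d.1) :=
  X.crs_crs _ _ (X.crs_crsGet d)

theorem crs_opp_crsGet (d : {d : R // X.Crossed d}) :
    X.crs (X.opp (X.crsGet d)) = some d.1 := by
  have h1 := X.crs_opp (crs_crsGet' X d)
  rwa [X.opp_opp] at h1

/-- the rotation at a crossing -/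
def cperm : Perm {d : R // X.Crossed d} where
  toFun d := ⟨X.crsGet d, crossed_crsGet X d⟩
  invFun d := ⟨X.opp (X.crsGet d), crossed_opp_crsGet X d⟩
  left_inv := by
    intro d
    apply Subtype.ext
    show X.opp (X.crsGet ⟨X.crsGet d, _⟩) = d.1
    rw [crsGet_of_crs X (crs_crsGet' X d), X.opp_opp]
  right_inv := by
    intro d
    apply Subtype.ext
    show X.crsGet ⟨X.opp (X.crsGet d), _⟩ = d.1
    exact crsGet_of_crs X (crs_opp_crsGet X d) _

theorem cperm_val (d : {d : R // X.Crossed d}) : (cperm X d).1 = X.crsGet d := rfl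

theorem cperm_symm_val (d : {d : R // X.Crossed d}) :
    ((cperm X).symm d).1 = X.opp (X.crsGet d) := rfl

theorem cperm_two (d : {d : R // X.Crossed d}) : (cperm X (cperm X d)).1 = X.opp d.1 :=
  crsGet_of_crs X (crs_crsGet' X d) _

theorem cperm_four (d : {d : R // X.Crossed d}) :
    cperm X (cperm X (cperm X (cperm X d))) = d := by
  apply Subtype.ext
  rw [cperm_two, cperm_two, X.opp_opp]

theorem cperm_two_ne (d : {d : R // X.Crossed d}) : cperm X (cperm X d) ≠ d := by
  intro h
  have h1 := cperm_two X d
  rw [h] at h1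
  exact X.opp_ne _ h1.symm

/-- the rotation of the planarisation -/
def sig : Perm X.PD := Equiv.sumCongr X.rot (cperm X)

theorem sig_inl (d : R) : sig X (.inl d) = .inl (X.rot d) := rfl

theorem sig_inr (d : {d : R // X.Crossed d}) : sig X (.inr d) = .inr (cperm X d) := rfl

theorem sig_symm_inl (d : R) : (sig X).symm (.inl d) = .inl (X.rot.symm d) := rfl

theorem sig_symm_inr (d : {d : R // X.Crossed d}) :
    (sig X).symm (.inr d) = .inr ((cperm X).symm d) := rfl

theorem rev_inl_crossed {d : R} (h : X.Crossed d) : X.rev (.inl d) = .inr ⟨d, h⟩ := by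
  simp only [XMap.rev, dif_pos h]

theorem rev_inl_not {d : R} (h : ¬ X.Crossed d) : X.rev (.inl d) = .inl (X.opp d) := by
  simp only [XMap.rev, dif_neg h]

theorem rev_inr (d : {d : R // X.Crossed d}) : X.rev (.inr d) = .inl d.1 := rfl

theorem not_crossed_opp {d : R} (h : ¬ X.Crossed d) : ¬ X.Crossed (X.opp d) := by
  intro h1
  have h2 := X.crossed_opp h1
  rw [X.opp_opp] at h2
  exact h h2

theorem rev_rev (x : X.PD) : X.rev (X.rev x) = x := by
  rcases x with d | d
  · by_cases h : X.Crossed d
    · rw [rev_inl_crossed X h, rev_inr]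
    · rw [rev_inl_not X h, rev_inl_not X (not_crossed_opp X h), X.opp_opp]
  · rw [rev_inr, rev_inl_crossed X d.2]

theorem rev_ne (x : X.PD) : X.rev x ≠ x := by
  rcases x with d | d
  · by_cases h : X.Crossed d
    · rw [rev_inl_crossed X h]
      simp
    · rw [rev_inl_not X h]
      intro h1
      exact X.opp_ne d (Sum.inl.inj h1)
  · rw [rev_inr]
    simp

/-- reversal -/
def al : Perm X.PD := ⟨X.rev, X.rev, rev_rev X, rev_rev X⟩

theorem al_apply (x : X.PD) : al X x = X.rev x := rfl

theorem next_eq (x : X.PD) : X.next x = (sig X).symm (X.rev x) := by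
  rcases x with d | d
  · by_cases h : X.Crossed d
    · rw [rev_inl_crossed X h, sig_symm_inr]
      simp only [XMap.next, dif_pos h]
      rfl
    · rw [rev_inl_not X h, sig_symm_inl]
      simp only [XMap.next, dif_neg h]
  · rfl

/-- the face permutation -/
def ph : Perm X.PD := (al X).trans (sig X).symm

theorem ph_apply (x : X.PD) : ph X x = X.next x := (next_eq X x).symm

theorem ptail_sig (x : X.PD) : X.ptail (sig X x) = X.ptail x := by
  rcases x with d | d
  · rw [sig_inl]
    simp only [XMap.ptail, X.vert_rot]
  · rw [sig_inr]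
    simp only [XMap.ptail]
    congr 1
    refine (Quotient.sound (s := X.crossSetoid) ?_).symm
    exact Relation.EqvGen.rel _ _ rfl

theorem ptail_sig_symm (x : X.PD) : X.ptail ((sig X).symm x) = X.ptail x := by
  rw [← ptail_sig X ((sig X).symm x), Equiv.apply_symm_apply]

/-- a set closed under a permutation of a finite type is closed under the inverse -/
theorem closed_symm {D : Type} [Finite D] (f : Perm D) (S : Set D) (h : ∀ d ∈ S, f d ∈ S) :
    ∀ d ∈ S, f.symm d ∈ S := by
  intro d hd
  have h1 : Set.MapsTo f S S := h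
  have h2 : Set.SurjOn f S S := by
    have h3 : Function.Injective (h1.restrict f S S) := by
      intro a b hab
      apply Subtype.ext
      apply f.injective
      exact congrArg Subtype.val hab
    have h4 : Function.Surjective (h1.restrict f S S) := Finite.surjective_of_injective h3
    intro y hy
    obtain ⟨x, hx⟩ := h4 ⟨y, hy⟩
    exact ⟨x.1, x.2, congrArg Subtype.val hx⟩
  obtain ⟨x, hx, hxd⟩ := h2 hd
  rw [← hxd, Equiv.symm_apply_apply]
  exact hx

theorem sameCycle_sig_inl {d d' : R} (h : X.rot.SameCycle d d') :
    (sig X).SameCycle (.inl d) (.inl d') := by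
  obtain ⟨i, rfl⟩ := h
  refine ⟨i, ?_⟩
  have key : ∀ n : ℕ, ∀ d : R, ((sig X) ^ n) (.inl d) = .inl ((X.rot ^ n) d) := by
    intro n
    induction n with
    | zero => intro d; rfl
    | succ n ih =>
      intro d
      rw [pow_succ, pow_succ, Equiv.Perm.mul_apply, Equiv.Perm.mul_apply, sig_inl, ih]
  rcases i with n | n
  · simp only [Int.ofNat_eq_natCast, zpow_natCast]
    exact key n d
  · simp only [zpow_negSucc]
    rw [Equiv.Perm.inv_eq_iff_eq, key (n + 1)]
    exact congrArg Sum.inl (Equiv.apply_symm_apply (X.rot ^ (n + 1)) d).symm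

theorem sameCycle_cperm {d d' : {d : R // X.Crossed d}} (h : X.xn d = X.xn d') :
    (sig X).SameCycle (.inr d) (.inr d') := by
  have h1 : Relation.EqvGen (fun a b : {d : R // X.Crossed d} => (b : R) = X.crsGet a) d d' :=
    Quotient.exact h
  induction h1 with
  | rel a b hab =>
    have : cperm X a = b := Subtype.ext hab.symm
    rw [← this, ← sig_inr]
    exact Equiv.Perm.sameCycle_apply_right.2 (Equiv.Perm.SameCycle.refl _ _)
  | refl a => exact Equiv.Perm.SameCycle.refl _ _
  | symm a b hab ih => exact (ih (Quotient.sound hab)).symm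
  | trans a b c hab hbc ih1 ih2 => exact (ih1 (Quotient.sound hab)).trans (ih2 (Quotient.sound hbc))

theorem sameCycle_ph {x y : X.PD} (h : X.face x = X.face y) : (ph X).SameCycle x y := by
  have h1 : Relation.EqvGen (fun a b => b = X.next a) x y := Quotient.exact h
  induction h1 with
  | rel a b hab =>
    rw [hab, ← ph_apply]
    exact Equiv.Perm.sameCycle_apply_right.2 (Equiv.Perm.SameCycle.refl _ _)
  | refl a => exact Equiv.Perm.SameCycle.refl _ _
  | symm a b hab ih => exact (ih (Quotient.sound hab)).symm
  | trans a b c hab hbc ih1 ih2 => exact (ih1 (Quotient.sound hab)).trans (ih2 (Quotient.sound hbc))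

/-- the planarisation -/
def cell [Fintype R] (hX : X.Conn) : Cell X.PD (V ⊕ X.XN) X.Face where
  α := al X
  φ := ph X
  tail := X.ptail
  left := X.face
  α_α := rev_rev X
  α_ne := rev_ne X
  tail_φ := by
    intro d
    rw [ph_apply, next_eq, ptail_sig_symm]
    rfl
  left_φ := by
    intro d
    rw [ph_apply]
    refine (Quotient.sound (s := X.faceSetoid) ?_).symm
    exact Relation.EqvGen.rel _ _ rfl
  tail_surj := by
    rintro (v | q)
    · obtain ⟨d, hd⟩ := hX.vert_surj v
      exact ⟨.inl d, by rw [XMap.ptail, hd]⟩
    · obtain ⟨d, hd⟩ := Quotient.exists_rep q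
      exact ⟨.inr d, by rw [XMap.ptail, XMap.xn, hd]⟩
  left_surj := by
    intro q
    obtain ⟨d, hd⟩ := Quotient.exists_rep q
    exact ⟨d, hd⟩
  conn := by
    intro S hS hα hφ
    have hφ' := closed_symm (ph X) S hφ
    have hsig : ∀ d ∈ S, sig X d ∈ S := by
      intro d hd
      have h1 := hα _ (hφ' d hd)
      have h2 : (al X) ((ph X).symm d) = sig X d := by
        show (al X) ((al X).symm ((sig X).symm.symm d)) = sig X d
        rw [Equiv.apply_symm_apply, Equiv.symm_symm]
      rwa [h2] at h1
    have hT : {d : R | (.inl d : X.PD) ∈ S} = Set.univ := by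
      apply hX.conn
      · obtain ⟨x, hx⟩ := hS
        rcases x with d | d
        · exact ⟨d, hx⟩
        · exact ⟨d.1, hα _ hx⟩
      · intro d hd
        exact hsig _ hd
      · intro d hd
        by_cases h : X.Crossed d
        · have h1 : (.inr ⟨d, h⟩ : X.PD) ∈ S := by
            rw [← rev_inl_crossed X h]
            exact hα _ hd
          have h2 := hα _ (hsig _ (hsig _ h1))
          rw [sig_inr, sig_inr] at h2
          have h3 : (al X) (.inr (cperm X (cperm X ⟨d, h⟩))) = .inl (X.opp d) := by
            rw [al_apply, rev_inr, cperm_two]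
          rw [h3] at h2
          exact h2
        · have h1 := hα _ hd
          have h2 : (al X) (.inl d) = .inl (X.opp d) := rev_inl_not X h
          rw [h2] at h1
          exact h1
    have hinl : ∀ d : R, (.inl d : X.PD) ∈ S := by
      intro d
      have : d ∈ {d : R | (.inl d : X.PD) ∈ S} := by rw [hT]; trivial
      exact this
    rw [Set.eq_univ_iff_forall]
    rintro (d | d)
    · exact hinl d
    · have h1 := hα _ (hinl d.1)
      have h2 : (al X) (.inl d.1) = .inr d := rev_inl_crossed X d.2
      rw [h2] at h1
      exact h1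

/-- the rotation of a cell decomposition given by the planarisation -/
theorem sigma_eq {N F : Type} (C : Cell X.PD N F) (hα : ∀ x, C.α x = X.rev x)
    (hφ : ∀ x, C.φ x = X.next x) (x : X.PD) : C.σ x = sig X x := by
  have h1 : C.φ (X.rev (sig X x)) = x := by
    rw [hφ, next_eq, rev_rev, Equiv.symm_apply_apply]
  calc C.σ x = C.σ (C.φ (X.rev (sig X x))) := by rw [h1]
    _ = C.α (X.rev (sig X x)) := C.σ_φ _
    _ = sig X x := by rw [hα, rev_rev]

end XCell

open XCell

variable {V R : Type} [Fintype V] [Fintype R] [DecidableEq V] [DecidableEq R]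

theorem exists_cell (X : XMap V R) (hX : X.Conn) :
    ∃ C : Cell X.PD (V ⊕ X.XN) X.Face, (∀ x, C.α x = X.rev x) ∧ (∀ x, C.φ x = X.next x) ∧
      (∀ x, C.tail x = X.ptail x) ∧ (∀ x, C.left x = X.face x) ∧ C.Tight ∧
      (∀ d, C.σ (.inl d) = .inl (X.rot d)) ∧
      (∀ d e : {d : R // X.Crossed d}, X.crs d = some (e : R) → C.σ (.inr d) = .inr e) := by
  have hα : ∀ x, (cell X hX).α x = X.rev x := fun _ => rfl
  have hφ : ∀ x, (cell X hX).φ x = X.next x := ph_apply X
  have hσ := sigma_eq X (cell X hX) hα hφ
  have hσ' : (cell X hX).σ = sig X := Equiv.ext hσ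
  refine ⟨cell X hX, hα, hφ, fun _ => rfl, fun _ => rfl, ⟨?_, ?_⟩, ?_, ?_⟩
  · intro x y hxy
    rw [hσ']
    have hxy' : X.ptail x = X.ptail y := hxy
    rcases x with d | d <;> rcases y with e | e
    · exact sameCycle_sig_inl X (X.vert_same d e (Sum.inl.inj hxy'))
    · exact absurd hxy' (by simp [XMap.ptail])
    · exact absurd hxy' (by simp [XMap.ptail])
    · exact sameCycle_cperm X (Sum.inr.inj hxy')
  · intro x y hxy
    exact sameCycle_ph X hxy
  · intro d
    rw [hσ, sig_inl]
  · intro d e hde
    rw [hσ, sig_inr]
    congr 1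
    exact Subtype.ext (crsGet_of_crs X hde d.2)

theorem card_crossed (X : XMap V R) [Fintype X.XN] :
    Fintype.card {d : R // X.Crossed d} = 4 * Fintype.card X.XN := by
  classical
  have key : ∀ q : X.XN, (univ.filter (fun d : {d : R // X.Crossed d} => X.xn d = q)).card = 4 := by
    intro q
    obtain ⟨d, rfl⟩ := Quotient.exists_rep q
    have hd : univ.filter (fun e : {d : R // X.Crossed d} => X.xn e = Quotient.mk _ d) =
        {d, cperm X d, cperm X (cperm X d), cperm X (cperm X (cperm X d))} := by
      have hstep : ∀ e, X.xn (cperm X e) = X.xn e := by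
        intro e
        refine (Quotient.sound (s := X.crossSetoid) ?_).symm
        exact Relation.EqvGen.rel _ _ rfl
      ext e
      simp only [mem_filter, mem_univ, true_and, mem_insert, mem_singleton]
      constructor
      · intro h
        have h1 : Relation.EqvGen (fun a b : {d : R // X.Crossed d} => (b : R) = X.crsGet a) d e :=
          (Quotient.exact h).symm
        have h4 := cperm_four X d
        have fwd : ∀ a : {d : R // X.Crossed d}, (a = d ∨ a = cperm X d ∨ a = cperm X (cperm X d) ∨
            a = cperm X (cperm X (cperm X d))) → (cperm X a = d ∨ cperm X a = cperm X d ∨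
            cperm X a = cperm X (cperm X d) ∨ cperm X a = cperm X (cperm X (cperm X d))) := by
          rintro a (h | h | h | h)
          · right; left; rw [h]
          · right; right; left; rw [h]
          · right; right; right; rw [h]
          · left; rw [h]; exact h4
        have hiff : ∀ a b, Relation.EqvGen
            (fun a b : {d : R // X.Crossed d} => (b : R) = X.crsGet a) a b →
            ((a = d ∨ a = cperm X d ∨ a = cperm X (cperm X d) ∨
            a = cperm X (cperm X (cperm X d))) ↔ (b = d ∨ b = cperm X d ∨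
            b = cperm X (cperm X d) ∨ b = cperm X (cperm X (cperm X d)))) := by
          intro a b hab
          induction hab with
          | rel a b hab =>
            have hb : b = cperm X a := Subtype.ext hab
            constructor
            · intro h
              rw [hb]
              exact fwd a h
            · intro h
              have h5 := fwd _ (fwd _ (fwd _ h))
              rw [hb, cperm_four] at h5
              exact h5
          | refl a => exact Iff.rfl
          | symm a b hab ih => exact ih.symm
          | trans a b c hab hbc ih1 ih2 => exact ih1.trans ih2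
        exact (hiff d e h1).1 (Or.inl rfl)
      · have h0 : X.xn d = Quotient.mk _ d := rfl
        rintro (rfl | rfl | rfl | rfl)
        · rfl
        · rw [hstep, h0]
        · rw [hstep, hstep, h0]
        · rw [hstep, hstep, hstep, h0]
    rw [hd]
    have hv : ∀ e : {d : R // X.Crossed d}, cperm X e ≠ e := by
      intro e h
      exact X.crs_vert _ _ (X.crs_crsGet e) (by rw [← cperm_val, h])
    have h2 := cperm_two_ne X
    have h3 : ∀ e : {d : R // X.Crossed d}, cperm X (cperm X (cperm X e)) ≠ e := by
      intro e h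
      have h5 := cperm_four X e
      rw [h] at h5
      exact hv e h5
    rw [card_insert_of_notMem, card_insert_of_notMem, card_insert_of_notMem, card_singleton]
    · rw [mem_singleton]
      exact fun h => hv _ h.symm
    · simp only [mem_insert, mem_singleton, not_or]
      exact ⟨fun h => hv _ h.symm, fun h => h2 _ h.symm⟩
    · simp only [mem_insert, mem_singleton, not_or]
      exact ⟨fun h => hv _ h.symm, fun h => h2 _ h.symm, fun h => h3 _ h.symm⟩
  calc Fintype.card {d : R // X.Crossed d} = (univ : Finset {d : R // X.Crossed d}).card := rfl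
    _ = ∑ q : X.XN, (univ.filter (fun d : {d : R // X.Crossed d} => X.xn d = q)).card :=
        Finset.card_eq_sum_card_fiberwise (fun _ _ => Finset.mem_univ _)
    _ = ∑ _q : X.XN, 4 := Finset.sum_congr rfl (fun q _ => key q)
    _ = 4 * Fintype.card X.XN := by
        rw [Finset.sum_const, smul_eq_mul, mul_comm]
        rfl

theorem planar_of_euler (X : XMap V R) [Fintype X.XN] [Fintype X.Face]
    (C : Cell X.PD (V ⊕ X.XN) X.Face) (h : X.EulerFormula) : C.Planar := by
  have h1 := card_crossed X
  simp only [XMap.EulerFormula, Nat.card_eq_fintype_card] at h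
  simp only [Cell.Planar, Fintype.card_sum] at h ⊢
  omega

end Pool.Agent.Lib.MP_9ad789_co
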